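import Pool.Agent.Work.MP_042f46_an.Lin
import Mathlib

-- merged part: Pool.Agent.Work.MP_042f46_an.Chain
section
-- merged part: Pool.Agent.Work.MP_042f46_an.X2
section
/-!
# Crosscuts of the region inside an invariant curve

Analogue of `Hop.lean` (copy and adapt); no exits are needed any more, because `D ρ` is unbounded (`Sx.out_D`).
Plans.  `Hop.rev`: substitute `u ↦ -u`.  `Hop.out_D`: `κ` meets `D ρ` only in its end points, which are on the arc.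
`Hop.ray`: a ray from `x` meets `D ρ` (`exists_bound`); let `ζ` be its first point in the closed set `D ρ`; if the ray misses `κ` and `ζ` is not on the arc, `Hop.out_D` and `Out.of_conn` along the segment give `Out`.
`Hop.pos'`: the rays in the directions `1, -1, I` as in `Hop.lean`.  `Hop.side`: a ray missing `κ`; if `ζ` were on both arcs it would be `γ a` or `γ b`, which are on `κ`.
`Hop.log`: `Out.exists_log` and `exp_const` (as `Hop.Hop_log`).  `Hop.not_both`: as in the end of `Hop.short`, with `exists_wind`.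
`Hop.link`: suppose the crosscuts are disjoint.  Let `X₁ = cl a b`, `X₂ = cl (a + 1) b`.  The point `γ b'` is in `D ρ` and off the arc `[a, b]`, so it is `Out X₁`, and so is `κ' u` for all `u ∈ (s', t']` (preconnected, disjoint from `X₁`).  In the same way `γ a'` is `Out X₂` and so is `κ' u` for `u ∈ [s', t')`.  A middle point `κ' u` is not in `D ρ`; this contradicts `Hop.not_both`.  (If `γ b'` is an end point of `κ` the crosscuts meet trivially.)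
-/

open Set Metric Topology Filter

namespace Pool.Agent.Work.MP_042f46_an.Sx

variable (σ : Sx)

/-- a crosscut of diameter `< δ` of the region inside the curve of radius `ρ`, from angle `a` to angle `b` -/
structure Hop (ρ δ : ℝ) (κ : ℝ → ℂ) (s t a b : ℝ) : Prop where
  rad : ρ ∈ Ioc (1 : ℝ) 2
  lt : s < t
  cont : ContinuousOn κ (Icc s t)
  start : κ s = σ.γ ρ a
  stop : κ t = σ.γ ρ b
  out : ∀ u ∈ Ioo s t, κ u ∉ σ.D ρ
  small : ∀ u ∈ Icc s t, ∀ u' ∈ Icc s t, dist (κ u) (κ u') < δ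

/-- the crosscut closed up by the arc from `a` to `b` -/
def cl (κ : ℝ → ℂ) (s t ρ a b : ℝ) : Set ℂ := κ '' Icc s t ∪ σ.γ ρ '' uIcc a b

variable {σ} {ρ δ s t a b : ℝ} {κ : ℝ → ℂ} {x y : ℂ}

theorem Hop.X2_r (h : σ.Hop ρ δ κ s t a b) : 1 < ρ := h.rad.1

theorem Hop.X2_D (h : σ.Hop ρ δ κ s t a b) (c : ℝ) : σ.γ ρ c ∈ σ.D ρ :=
  σ.γ_mem (zero_le_one.trans h.X2_r.le) c

theorem Hop.X2_s (h : σ.Hop ρ δ κ s t a b) : s ∈ Icc s t := left_mem_Icc.2 h.lt.le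

theorem Hop.X2_t (h : σ.Hop ρ δ κ s t a b) : t ∈ Icc s t := right_mem_Icc.2 h.lt.le

theorem Hop.X2_B (h : σ.Hop ρ δ κ s t a b) : κ s ∈ σ.B := h.start ▸ σ.γ_B h.rad a

theorem Hop.mono {δ' : ℝ} (h : σ.Hop ρ δ κ s t a b) (hδ : δ ≤ δ') : σ.Hop ρ δ' κ s t a b := by
  exact { h with small := fun u hu u' hu' => (h.small u hu u' hu').trans_le hδ }

theorem Hop.shift (h : σ.Hop ρ δ κ s t a b) (m n : ℤ) : σ.Hop ρ δ κ s t (a + m) (b + n) := by
  exact { h with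
    start := h.start.trans ((σ.γ_eq_iff h.X2_r).2 ⟨m, add_sub_cancel_left _ _⟩).symm
    stop := h.stop.trans ((σ.γ_eq_iff h.X2_r).2 ⟨n, add_sub_cancel_left _ _⟩).symm }

theorem Hop.norm (h : σ.Hop ρ δ κ s t a b) :
    ∃ b', σ.Hop ρ δ κ s t a b' ∧ a ≤ b' ∧ b' < a + 1 ∧ ∃ n : ℤ, b' = b + n := by
  have := h.shift 0 (-⌊b - a⌋)
  rw [Int.cast_zero, add_zero] at this
  refine ⟨_, this, ?_, ?_, _, rfl⟩
  · rw [Int.cast_neg]
    linarith only [Int.floor_le (b - a)]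
  · rw [Int.cast_neg]
    linarith only [Int.lt_floor_add_one (b - a)]

theorem Hop.rev (h : σ.Hop ρ δ κ s t a b) : σ.Hop ρ δ (fun u => κ (-u)) (-t) (-s) b a := by
  have k : ∀ u ∈ Icc (-t) (-s), -u ∈ Icc s t := fun u hu =>
    ⟨by linarith only [hu, hu.2], by linarith [hu.1]⟩
  exact
    { rad := h.rad
      lt := neg_lt_neg h.lt
      cont := h.cont.comp continuous_neg.continuousOn k
      start := by simpa only [neg_neg] using h.stop
      stop := by simpa only [neg_neg] using h.start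
      out := fun u hu => h.out _ ⟨by linarith only [hu, hu.2], by linarith [hu.1]⟩
      small := fun u hu u' hu' => h.small _ (k u hu) _ (k u' hu') }

theorem cl_rev (κ : ℝ → ℂ) (s t ρ a b : ℝ) :
    σ.cl (fun u => κ (-u)) (-t) (-s) ρ b a = σ.cl κ s t ρ a b := by
  unfold cl
  rw [uIcc_comm, ← image_image κ (fun u : ℝ => -u), image_neg_Icc, neg_neg, neg_neg]

theorem Hop.isCompact_cl (h : σ.Hop ρ δ κ s t a b) (a' b' : ℝ) :
    IsCompact (σ.cl κ s t ρ a' b') := by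
  exact (isCompact_Icc.image_of_continuousOn h.cont).union
    (isCompact_uIcc.image (σ.continuous_γ h.X2_r))

theorem Hop.near (h : σ.Hop ρ δ κ s t a b) {a' b' : ℝ} (hx : x ∈ σ.cl κ s t ρ a' b') :
    ∃ z ∈ σ.B, dist x z < δ := by
  rcases hx with ⟨u, hu, rfl⟩ | ⟨c, -, rfl⟩
  · exact ⟨κ s, h.X2_B, h.small u hu s h.X2_s⟩
  · refine ⟨_, σ.γ_B h.rad c, ?_⟩
    simpa using h.small s h.X2_s s h.X2_s

theorem Hop.X2_arc (h : σ.Hop ρ δ κ s t a b) (hx : x ∈ σ.D ρ) (hx' : x ∈ σ.cl κ s t ρ a b) :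
    x ∈ σ.γ ρ '' uIcc a b := by
  rcases hx' with ⟨u, hu, rfl⟩ | k
  · rcases hu.1.eq_or_lt with rfl | k
    · exact ⟨a, left_mem_uIcc, h.start.symm⟩
    rcases hu.2.eq_or_lt with rfl | k'
    · exact ⟨b, right_mem_uIcc, h.stop.symm⟩
    · exact absurd hx (h.out u ⟨k, k'⟩)
  · exact k

theorem Hop.X2_in (h : σ.Hop ρ δ κ s t a b) {a' b' : ℝ} (hx : x ∉ σ.D ρ)
    (hx' : x ∈ σ.cl κ s t ρ a' b') : ∃ u ∈ Ioo s t, κ u = x := by
  rcases hx' with ⟨u, hu, rfl⟩ | ⟨θ, -, rfl⟩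
  · rcases hu.1.eq_or_lt with rfl | k
    · exact absurd (h.start ▸ h.X2_D a) hx
    rcases hu.2.eq_or_lt with rfl | k'
    · exact absurd (h.stop ▸ h.X2_D b) hx
    · exact ⟨u, ⟨k, k'⟩, rfl⟩
  · exact absurd (h.X2_D θ) hx

theorem X2_off (hρ : 1 < ρ) {c : ℝ} {A : Set ℝ} (m : ℤ)
    (h : ∀ θ ∈ A, m < c - θ ∧ c - θ < m + 1) : σ.γ ρ c ∉ σ.γ ρ '' A := by
  rintro ⟨θ, hθ, k⟩
  obtain ⟨n, hn⟩ := (σ.γ_eq_iff hρ).1 k.symm
  obtain ⟨h1, h2⟩ := h θ hθ
  rw [hn] at h1 h2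
  have h3 : m < n := by exact_mod_cast h1
  have h4 : n < m + 1 := by exact_mod_cast h2
  omega

theorem Hop.out_D (h : σ.Hop ρ δ κ s t a b) (hx : x ∈ σ.D ρ) (hx' : x ∉ σ.γ ρ '' uIcc a b) :
    Out (σ.cl κ s t ρ a b) x := by
  refine σ.out_D h.X2_r (fun w hw hw' => ?_) hx fun k => hx' (h.X2_arc hx k)
  obtain ⟨θ, -, k⟩ := h.X2_arc hw' hw
  exact ⟨θ, k.symm⟩

theorem Hop.X2_two (h : σ.Hop ρ δ κ s t a b) (hd : ∀ z ∈ σ.K, 4 * δ ≤ dist x z) {d d' : ℂ}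
    (h1 : ‖d‖ = 1) (h2 : ∀ r r' : ℝ, 0 ≤ r → 0 ≤ r' → r ≤ |(r * d - r' * d').re|) :
    (∀ r : ℝ, 0 ≤ r → x + r * d ∉ κ '' Icc s t) ∨ ∀ r : ℝ, 0 ≤ r → x + r * d' ∉ κ '' Icc s t := by
  by_contra! k
  obtain ⟨⟨r, hr, u, hu, e1⟩, r', hr', u', hu', e2⟩ := k
  have k1 := h.small u hu s h.X2_s
  have k2 := h.small u' hu' s h.X2_s
  have k3 := hd (κ s) (σ.B_sub h.X2_B)
  have k4 : dist x (κ u) = r := by
    rw [e1, dist_self_add_right, norm_mul, h1, mul_one, Complex.norm_real, Real.norm_of_nonneg hr]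
  have k5 : r ≤ dist (κ u) (κ u') := by
    rw [e1, e2, dist_add_left, dist_eq_norm]
    exact (h2 r r' hr hr').trans (Complex.abs_re_le_norm _)
  have k6 := dist_triangle x (κ u) (κ s)
  have k7 := dist_triangle_right (κ u) (κ u') (κ s)
  linarith only [hr, k1, k2, k3, k4, k5, k6, k7]

theorem Hop.X2_ray (h : σ.Hop ρ δ κ s t a b) (hx : ¬ Out (σ.cl κ s t ρ a b) x) {d : ℂ}
    (h1 : ‖d‖ = 1) (h2 : ∀ r : ℝ, 0 ≤ r → x + r * d ∉ κ '' Icc s t) :
    0 ≤ sInf {r : ℝ | 0 ≤ r ∧ x + r * d ∈ σ.D ρ} ∧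
      x + (sInf {r : ℝ | 0 ≤ r ∧ x + r * d ∈ σ.D ρ} : ℝ) * d ∈ σ.γ ρ '' uIcc a b := by
  have hc : Continuous fun r : ℝ => x + r * d := by fun_prop
  have h3 : {r : ℝ | 0 ≤ r ∧ x + r * d ∈ σ.D ρ}.Nonempty := by
    by_contra k
    refine hx ⟨_, (isPreconnected_Ici (a := 0)).image _ hc.continuousOn, fun hb => ?_,
      ⟨0, self_mem_Ici, by simp⟩, disjoint_left.2 ?_⟩
    · obtain ⟨R, hR⟩ := Metric.isBounded_iff.1 hb
      have := hR ⟨|R| + 1, show 0 ≤ |R| + 1 by positivity, rfl⟩ ⟨0, self_mem_Ici, rfl⟩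
      simp only [Complex.ofReal_zero, zero_mul, add_zero, dist_self_add_left, norm_mul, h1,
        mul_one, Complex.norm_real, Real.norm_eq_abs] at this
      linarith only [this, le_abs_self R, le_abs_self (|R| + 1)]
    · rintro _ ⟨r, hr, rfl⟩ (k' | ⟨θ, -, k'⟩)
      · exact h2 r hr k'
      · exact k ⟨r, hr, mem_of_eq_of_mem k'.symm (h.X2_D θ)⟩
  obtain ⟨⟨h4, h5⟩, h6⟩ := (isClosed_Ici.inter
    ((σ.isClosed_D h.X2_r).preimage hc)).isLeast_csInf h3 ⟨0, fun r hr => hr.1⟩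
  refine ⟨h4, ?_⟩
  by_contra k
  refine hx ((h.out_D h5 k).of_conn (isPreconnected_Icc.image _ hc.continuousOn)
    (disjoint_left.2 ?_) ⟨_, right_mem_Icc.2 h4, rfl⟩ ⟨0, left_mem_Icc.2 h4, by simp⟩)
  rintro _ ⟨r, hr, rfl⟩ (k' | ⟨θ, hθ, k'⟩)
  · exact h2 r hr.1 k'
  · exact k ⟨θ, hθ, k'.trans (congrArg (fun r : ℝ => x + r * d)
      (hr.2.antisymm (h6 ⟨hr.1, mem_preimage.2
        (mem_of_eq_of_mem k'.symm (h.X2_D θ))⟩)))⟩

theorem Hop.X2_one (h : σ.Hop ρ δ κ s t a b) : σ.Hop ρ δ κ s t (a + 1) b := by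
  have h' := h.shift 1 0
  rwa [Int.cast_zero, add_zero, Int.cast_one] at h'

theorem Hop.pos' (h : σ.Hop ρ δ κ s t a b) {s' t' a' b' : ℝ} {κ' : ℝ → ℂ}
    (h' : σ.Hop ρ δ κ' s' t' a' b') (hx : ¬ Out (σ.cl κ s t ρ a b) x)
    (hx' : ¬ Out (σ.cl κ' s' t' ρ a' b') x) (hd : ∀ z ∈ σ.K, 4 * δ ≤ dist x z) :
    ∃ m : ℤ, |a' - a - m| ≤ |b - a| + |b' - a'| := by
  obtain ⟨d, h1, h2, h3⟩ : ∃ d : ℂ, ‖d‖ = 1 ∧ (∀ r : ℝ, 0 ≤ r → x + r * d ∉ κ '' Icc s t) ∧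
      ∀ r : ℝ, 0 ≤ r → x + r * d ∉ κ' '' Icc s' t' := by
    have n1 : ‖(-1 : ℂ)‖ = 1 := by simp
    have e1 : ∀ r r' : ℝ, 0 ≤ r → 0 ≤ r' → r ≤ |((r : ℂ) * 1 - r' * (-1)).re| :=
      fun r r' _ _ => le_trans (by simpa) (le_abs_self _)
    have e2 : ∀ r r' : ℝ, 0 ≤ r → 0 ≤ r' → r ≤ |((r : ℂ) * 1 - r' * Complex.I).re| :=
      fun r r' _ _ => le_trans (by simp) (le_abs_self _)
    have e3 : ∀ r r' : ℝ, 0 ≤ r → 0 ≤ r' → r ≤ |((r : ℂ) * (-1) - r' * Complex.I).re| :=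
      fun r r' _ _ => le_trans (by simp) (neg_le_abs _)
    rcases h.X2_two hd norm_one e1 with p1 | p1 <;> rcases h.X2_two hd norm_one e2 with p2 | p2 <;>
      rcases h.X2_two hd n1 e3 with p3 | p3 <;> rcases h'.X2_two hd norm_one e1 with q1 | q1 <;>
      rcases h'.X2_two hd norm_one e2 with q2 | q2 <;>
      rcases h'.X2_two hd n1 e3 with q3 | q3 <;>
      first
        | exact ⟨1, norm_one, by assumption, by assumption⟩
        | exact ⟨-1, n1, by assumption, by assumption⟩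
        | exact ⟨Complex.I, Complex.norm_I, by assumption, by assumption⟩
  obtain ⟨θ, hθ, k⟩ := (h.X2_ray hx h1 h2).2
  obtain ⟨θ', hθ', k'⟩ := (h'.X2_ray hx' h1 h3).2
  obtain ⟨m, hm⟩ := (σ.γ_eq_iff h.X2_r).1 (k'.trans k.symm)
  refine ⟨m, ?_⟩
  have k1 := abs_sub_left_of_mem_uIcc hθ
  have k2 := abs_sub_left_of_mem_uIcc hθ'
  rw [← hm, show a' - a - (θ' - θ) = θ - a - (θ' - a') by ring]
  exact (abs_sub _ _).trans (add_le_add k1 k2)

theorem Hop.side (h : σ.Hop ρ δ κ s t a b) (h1 : a ≤ b) (h2 : b ≤ a + 1)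
    (hd : ∀ z ∈ σ.K, 4 * δ ≤ dist x z) :
    Out (σ.cl κ s t ρ a b) x ∨ Out (σ.cl κ s t ρ (a + 1) b) x := by
  by_contra! k
  obtain ⟨d, d1, d2⟩ : ∃ d : ℂ, ‖d‖ = 1 ∧ ∀ r : ℝ, 0 ≤ r → x + r * d ∉ κ '' Icc s t := by
    have e1 : ∀ r r' : ℝ, 0 ≤ r → 0 ≤ r' → r ≤ |((r : ℂ) * 1 - r' * (-1)).re| :=
      fun r r' _ _ => le_trans (by simpa) (le_abs_self _)
    rcases h.X2_two hd norm_one e1 with p | p
    exacts [⟨1, norm_one, p⟩, ⟨-1, by simp, p⟩]
  obtain ⟨r0, θ, hθ, e⟩ := h.X2_ray k.1 d1 d2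
  obtain ⟨-, θ', hθ', e'⟩ := h.X2_one.X2_ray k.2 d1 d2
  rw [uIcc_of_le h1] at hθ
  rw [uIcc_of_ge h2] at hθ'
  obtain ⟨m, hm⟩ := (σ.γ_eq_iff h.X2_r).1 (e'.trans e.symm)
  refine d2 _ r0 (e ▸ ?_)
  rcases le_or_gt m 0 with k0 | k0
  · have k1 : (m : ℝ) ≤ 0 := by exact_mod_cast k0
    have k2 : θ = b := by linarith only [hm, k1, hθ', hθ, hθ.2, hθ'.1]
    exact ⟨t, h.X2_t, k2 ▸ h.stop⟩
  · have k1 : (1 : ℝ) ≤ m := by exact_mod_cast k0
    have k2 : θ = a := by linarith only [hθ, hm, k1, hθ', hθ.1, hθ'.2]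
    exact ⟨s, h.X2_s, k2 ▸ h.start⟩

theorem Hop.log (h : σ.Hop ρ δ κ s t a b) (ho : Out (σ.cl κ s t ρ a b) x) {l : ℝ → ℂ}
    (hl : Continuous l) (hl' : ∀ θ, Complex.exp (l θ) = σ.γ ρ θ - x) :
    ∃ L : ℝ → ℂ, ContinuousOn L (Icc s t) ∧ (∀ u ∈ Icc s t, Complex.exp (L u) = κ u - x) ∧
      L s - l a = L t - l b := by
  obtain ⟨L, h1, h2⟩ := ho.exists_log (h.isCompact_cl a b)
  refine ⟨fun u => L (κ u), h1.comp h.cont fun u hu => .inl ⟨u, hu, rfl⟩,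
    fun u hu => h2 _ (.inl ⟨u, hu, rfl⟩), ?_⟩
  simp only [h.start, h.stop]
  refine exp_const (g := fun θ => L (σ.γ ρ θ) - l θ) (c := 1) isPreconnected_uIcc
    ((h1.comp (σ.continuous_γ h.X2_r).continuousOn fun u hu => .inr ⟨u, hu, rfl⟩).sub
      hl.continuousOn) (fun θ hθ => ?_) left_mem_uIcc right_mem_uIcc
  rw [Complex.exp_sub, h2 _ (.inr ⟨θ, hθ, rfl⟩), ← hl', div_self (Complex.exp_ne_zero _)]

theorem Hop.not_both (h : σ.Hop ρ δ κ s t a b) (hx : x ∉ σ.D ρ)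
    (h1 : Out (σ.cl κ s t ρ a b) x) (h2 : Out (σ.cl κ s t ρ (a + 1) b) x) : False := by
  obtain ⟨l, l1, l2, l3⟩ := σ.exists_wind h.X2_r hx
  obtain ⟨L₁, p1, p2, p3⟩ := h.X2_one.log h2 l1 l2
  obtain ⟨L₂, q1, q2, q3⟩ := h.log h1 l1 l2
  have h4 := exp_const (g := fun u => L₁ u - L₂ u) (c := 1) isPreconnected_Icc (p1.sub q1)
    (fun u hu => by rw [Complex.exp_sub, p2 u hu, ← q2 u hu, div_self (Complex.exp_ne_zero _)])
    h.X2_s h.X2_t
  exact l3 a (by linear_combination h4 - p3 + q3)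

theorem Hop.link (h : σ.Hop ρ δ κ s t a b) {s' t' a' b' : ℝ} {κ' : ℝ → ℂ}
    (h' : σ.Hop ρ δ κ' s' t' a' b') (h1 : a < a') (h2 : a' < b) (h3 : b < b') (h4 : b' < a + 1) :
    ∃ u ∈ Ioo s t, ∃ u' ∈ Ioo s' t', κ u = κ' u' := by
  by_contra! k
  have k0 : ∀ c d : ℝ, ∀ u' ∈ Ioo s' t', κ' u' ∉ σ.cl κ s t ρ c d := fun c d u' hu' m => by
    obtain ⟨u, hu, e⟩ := h.X2_in (h'.out u' hu') m
    exact k u hu u' hu' e
  have m0 : (s' + t') / 2 ∈ Ioo s' t' := ⟨by linarith only [h', h'.lt], by linarith only [h', h'.lt]⟩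
  have o1 : Out (σ.cl κ s t ρ a b) (σ.γ ρ b') :=
    h.out_D (h.X2_D b') (X2_off h.X2_r 0 fun θ hθ => by
      rw [uIcc_of_le (h1.trans h2).le] at hθ
      push_cast
      constructor <;> linarith only [h3, hθ, h4, hθ.1, hθ.2])
  have o2 : Out (σ.cl κ s t ρ (a + 1) b) (σ.γ ρ a') :=
    h.X2_one.out_D (h.X2_D a') (X2_off h.X2_r (-1) fun θ hθ => by
      rw [uIcc_of_ge (h3.trans h4).le] at hθ
      push_cast
      constructor <;> linarith only [h1, hθ, h2, hθ.1, hθ.2])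
  refine h.not_both (h'.out _ m0)
    (o1.of_conn (isPreconnected_Ioc.image _ (h'.cont.mono Ioc_subset_Icc_self))
      (disjoint_left.2 ?_) ⟨t', right_mem_Ioc.2 h'.lt, h'.stop⟩ ⟨_, Ioo_subset_Ioc_self m0, rfl⟩)
    (o2.of_conn (isPreconnected_Ico.image _ (h'.cont.mono Ico_subset_Icc_self))
      (disjoint_left.2 ?_) ⟨s', left_mem_Ico.2 h'.lt, h'.start⟩ ⟨_, Ioo_subset_Ico_self m0, rfl⟩)
  · rintro _ ⟨u, hu, rfl⟩
    rcases hu.2.eq_or_lt with rfl | k'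
    · exact h'.stop ▸ o1.notMem
    · exact k0 _ _ u ⟨hu.1, k'⟩
  · rintro _ ⟨u, hu, rfl⟩
    rcases hu.1.eq_or_lt with rfl | k'
    · exact h'.start ▸ o2.notMem
    · exact k0 _ _ u ⟨k', hu.2⟩

theorem Hop.enc_of_conn (h : σ.Hop ρ δ κ s t a b) {C : Set ℂ} (hC : IsPreconnected C)
    (hd : ∀ w ∈ C, ∀ z ∈ σ.K, δ ≤ dist w z) (hx : x ∈ C) (hy : y ∈ C)
    (he : ¬ Out (σ.cl κ s t ρ a b) x) : ¬ Out (σ.cl κ s t ρ a b) y := by
  refine fun ho => he (ho.of_conn hC (disjoint_left.2 fun w hw k => ?_) hy hx)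
  obtain ⟨z, hz, k'⟩ := h.near k
  exact (hd w hw z (σ.B_sub hz)).not_gt k'

theorem Hop.enc_map (h : σ.Hop ρ δ κ s t a b) (hP : ∀ z ∈ σ.P, Out (σ.cl κ s t ρ a b) z)
    (he : ¬ Out (σ.cl κ s t ρ a b) x) :
    ¬ Out (σ.cl (σ.F ∘ κ) s t ρ (a + σ.α) (b + σ.α)) (σ.F x) := by
  refine fun ho => not_out_image (h.isCompact_cl a b) (σ.F_cont.mono fun z hz k => hz (hP z k))
    (fun z hz => σ.F_open z fun k => hz (hP z k)) he (ho.anti ?_)
  rintro _ ⟨_, ⟨u, hu, rfl⟩ | ⟨θ, hθ, rfl⟩, rfl⟩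
  · exact .inl ⟨u, hu, rfl⟩
  · refine .inr ⟨θ + σ.α, ?_, (σ.F_γ h.X2_r θ).symm⟩
    rw [← image_add_const_uIcc]
    exact ⟨θ, hθ, rfl⟩

/-- a connected set inside the curve that joins an enclosed point to a free point meets the crosscut -/
theorem Hop.sep (h : σ.Hop ρ δ κ s t a b) {C : Set ℂ} (hC : IsPreconnected C)
    (hD : ∀ w ∈ C, w ∉ σ.D ρ) (hx : x ∈ C) (hy : y ∈ C) (h1 : Out (σ.cl κ s t ρ a b) x)
    (h2 : ¬ Out (σ.cl κ s t ρ a b) y) : ∃ u ∈ Ioo s t, κ u ∈ C := by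
  by_contra! k
  refine h2 (h1.of_conn hC (disjoint_left.2 fun w hw m => ?_) hx hy)
  obtain ⟨u, hu, rfl⟩ := h.X2_in (hD w hw) m
  exact k u hu hw

end Pool.Agent.Work.MP_042f46_an.Sx
end

-- merged part: Pool.Agent.Work.MP_042f46_an.Esc
section
/-!
# Every arc of an invariant curve has two distant exits to infinity

Plans.  `Esc.pull`: let `E` be given by `exists_P`, `Z = (f ⁻¹' C ∩ Pᶜ) ∪ E` (closed, since `P ⊆ E`), `C' = connectedComponentIn Z (γ r c)`.  Points of `C' ∩ D r` are not in `E` and map into `C ∩ D r`; use `injOn_S`, `f_γ`.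
If `C'` were bounded it would miss `E`, and `exists_sep` gives `O` with `Z ∩ O` compact; `f '' (Z ∩ O) = C ∩ f '' O` is closed, relatively open in `C` (`f_open`) and nonempty, so `C ⊆ f '' (Z ∩ O)` is bounded.
`Pair.pull`: `unif` and `mapsTo_K`.  `pair_base`: `D (1 / 2)` contains a ball around `φ 0` (`φ_open`), of radius `2 c`; for `i ≤ M` let `x i = (φ 0).re + i * c / M`; on the vertical line `re = x i` take the highest point `p i` of the compact set `D r`;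
the ray above it is an exit, `p i = γ r (t i)` by `exists_γ`; two rays have distance at least `c / M`.
`exists_escAt`: take `N` from `rot_cover`, `M = N + 1`; two of the `N + 2` points `t i - a` have the same `k` (pigeonhole, `Finset.exists_ne_map_eq_of_card_lt_of_maps_to`); shift by integers (`γ_eq_iff`) and use `Pair.pull` `k ≤ N` times
(show by induction on `N`: for every `δ` there is `δ'` that works for all `k ≤ N`).
-/

open Set Metric Topology Filter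

namespace Pool.Agent.Work.MP_042f46_an.Sg

variable (σ : Sg)

/-- `C` is an exit to infinity from the point of angle `c` -/
structure Esc (r c : ℝ) (C : Set ℂ) : Prop where
  closed : IsClosed C
  conn : IsPreconnected C
  unb : ¬ Bornology.IsBounded C
  mem : σ.γ r c ∈ C
  only : ∀ z ∈ C, z ∈ σ.D r → z = σ.γ r c

/-- two exits that no small set near `K` meets both -/
def Pair (δ r c₁ c₂ : ℝ) : Prop :=
  ∃ C₁ C₂, σ.Esc r c₁ C₁ ∧ σ.Esc r c₂ C₂ ∧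
    ∀ z ∈ σ.K, Disjoint (ball z δ) C₁ ∨ Disjoint (ball z δ) C₂

/-- every arc of length `ε` has two distant exits -/
def EscAt (ε δ : ℝ) : Prop :=
  ∀ r ∈ Ico (1 / 2 : ℝ) 1, ∀ a : ℝ, ∃ c₁ ∈ Ioo a (a + ε), ∃ c₂ ∈ Ioo a (a + ε), σ.Pair δ r c₁ c₂

variable {σ}

theorem Esc_pair_mono {δ δ' r c₁ c₂ : ℝ} (h : σ.Pair δ r c₁ c₂) (hδ : δ' ≤ δ) :
    σ.Pair δ' r c₁ c₂ := by
  obtain ⟨C₁, C₂, h₁, h₂, h⟩ := h
  refine ⟨C₁, C₂, h₁, h₂, fun z hz => ?_⟩
  rcases h z hz with h | h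
  · exact Or.inl (h.mono_left (ball_subset_ball hδ))
  · exact Or.inr (h.mono_left (ball_subset_ball hδ))

theorem Esc_congr {r c c' : ℝ} {C : Set ℂ} (h : σ.Esc r c C) (hc : σ.γ r c = σ.γ r c') :
    σ.Esc r c' C :=
  ⟨h.closed, h.conn, h.unb, hc ▸ h.mem, fun z hz hD => hc ▸ h.only z hz hD⟩

theorem Esc_pair_congr {δ r c₁ c₂ d₁ d₂ : ℝ} (h : σ.Pair δ r c₁ c₂)
    (h₁ : σ.γ r c₁ = σ.γ r d₁) (h₂ : σ.γ r c₂ = σ.γ r d₂) : σ.Pair δ r d₁ d₂ := by
  obtain ⟨C₁, C₂, e₁, e₂, h⟩ := h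
  exact ⟨C₁, C₂, Esc_congr e₁ h₁, Esc_congr e₂ h₂, h⟩

theorem EscAt.mono {ε ε' δ δ' : ℝ} (h : σ.EscAt ε δ) (hε : ε ≤ ε') (hδ : δ' ≤ δ) :
    σ.EscAt ε' δ' := by
  intro r hr a
  obtain ⟨c₁, h₁, c₂, h₂, hp⟩ := h r hr a
  exact ⟨c₁, ⟨h₁.1, by linarith only [hε, h₁, h₁.2]⟩, c₂, ⟨h₂.1, by linarith [h₂.2]⟩, Esc_pair_mono hp hδ⟩

theorem Esc.pull {E : Set ℂ} (hE : IsClosed E) (hP : σ.P ⊆ E) (hK : Disjoint σ.K E)
    (hC : ∀ z ∈ E, ∃ C ⊆ E, IsPreconnected C ∧ ¬ Bornology.IsBounded C ∧ z ∈ C)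
    {r c : ℝ} (hr : r ∈ Ico (0 : ℝ) 1) {C : Set ℂ} (h : σ.Esc r (c + σ.α) C) :
    ∃ C', σ.Esc r c C' ∧ ∀ z ∈ C', z ∈ E ∨ σ.f z ∈ C := by
  have hPo : IsOpen σ.Pᶜ := σ.P_fin.isClosed.isOpen_compl
  have hca : ∀ z, z ∉ σ.P → ContinuousAt σ.f z := fun z hz =>
    σ.f_cont.continuousAt (hPo.mem_nhds hz)
  set Z : Set ℂ := (σ.f ⁻¹' C ∩ σ.Pᶜ) ∪ E with hZ
  have hZc : IsClosed Z := by
    rw [← isOpen_compl_iff, isOpen_iff_mem_nhds]
    intro z hz
    have hzE : z ∉ E := fun h' => hz (Or.inr h')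
    have hzP : z ∉ σ.P := fun h' => hzE (hP h')
    have hzC : σ.f z ∉ C := fun h' => hz (Or.inl ⟨h', hzP⟩)
    have h1 : σ.f ⁻¹' Cᶜ ∈ 𝓝 z := hca z hzP (h.closed.isOpen_compl.mem_nhds hzC)
    filter_upwards [h1, hE.isOpen_compl.mem_nhds hzE] with w hw1 hw2
    rintro (hw | hw)
    · exact hw1 hw.1
    · exact hw2 hw
  have hxD : σ.γ r c ∈ σ.D r := σ.γ_mem hr.1 c
  have hxK : σ.γ r c ∈ σ.K := σ.D_sub_K hr.2 hxD
  have hxZ : σ.γ r c ∈ Z := by
    refine Or.inl ⟨?_, σ.K_not_P hxK⟩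
    show σ.f (σ.γ r c) ∈ C
    rw [σ.f_γ hr]
    exact h.mem
  have hsub : connectedComponentIn Z (σ.γ r c) ⊆ Z := connectedComponentIn_subset _ _
  have hpc : IsPreconnected (connectedComponentIn Z (σ.γ r c)) :=
    isPreconnected_connectedComponentIn
  have hmem : σ.γ r c ∈ connectedComponentIn Z (σ.γ r c) := mem_connectedComponentIn hxZ
  refine ⟨connectedComponentIn Z (σ.γ r c), ⟨?_, hpc, ?_, hmem, ?_⟩, ?_⟩
  · rw [← closure_subset_iff_isClosed]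
    exact hpc.closure.subset_connectedComponentIn (subset_closure hmem)
      (closure_minimal hsub hZc)
  · intro hb
    have hd : Disjoint (connectedComponentIn Z (σ.γ r c)) E := by
      rw [Set.disjoint_left]
      intro z hz hzE
      obtain ⟨B, hBE, hBc, hBu, hzB⟩ := hC z hzE
      have h1 : B ⊆ connectedComponentIn Z z :=
        hBc.subset_connectedComponentIn hzB (fun w hw => Or.inr (hBE hw))
      rw [← connectedComponentIn_eq hz] at h1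
      exact hBu (hb.subset h1)
    obtain ⟨O, hO, hxO, hOE, hcpt⟩ := exists_sep hZc hE hxZ hb hd
    have hOP : ∀ w ∈ O, w ∉ σ.P := fun w hw hwP => Set.disjoint_left.1 hOE hw (hP hwP)
    have hT : IsCompact (σ.f '' (Z ∩ O)) :=
      hcpt.image_of_continuousOn (σ.f_cont.mono fun w hw => hOP w hw.2)
    have hU : IsOpen (σ.f '' O) := by
      rw [isOpen_iff_mem_nhds]
      rintro _ ⟨w, hw, rfl⟩
      exact σ.f_open w (hOP w hw) O (hO.mem_nhds hw)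
    have hCT : C ⊆ σ.f '' (Z ∩ O) := by
      by_contra hn
      obtain ⟨y, hyC, hyT⟩ := not_subset.1 hn
      have hcov : C ⊆ σ.f '' O ∪ (σ.f '' (Z ∩ O))ᶜ := by
        intro u _
        by_cases hu : u ∈ σ.f '' (Z ∩ O)
        · exact Or.inl (image_mono inter_subset_right hu)
        · exact Or.inr hu
      obtain ⟨u, huC, ⟨w, hw, rfl⟩, huT⟩ := h.conn _ _ hU hT.isClosed.isOpen_compl hcov
        ⟨σ.γ r (c + σ.α), h.mem, σ.γ r c, hxO, σ.f_γ hr c⟩ ⟨y, hyC, hyT⟩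
      exact huT ⟨w, ⟨Or.inl ⟨huC, hOP w hw⟩, hw⟩, rfl⟩
    exact h.unb (hT.isBounded.subset hCT)
  · intro z hz hzD
    have hzK : z ∈ σ.K := σ.D_sub_K hr.2 hzD
    rcases hsub hz with hz' | hz'
    · have h1 : σ.f z ∈ σ.D r := by
        rw [← σ.image_D hr.2]
        exact mem_image_of_mem _ hzD
      have h2 := h.only _ hz'.1 h1
      rw [← σ.f_γ hr] at h2
      exact σ.injOn_S (σ.D_sub hr.2 hzD) (σ.D_sub hr.2 hxD) h2
    · exact absurd hz' (Set.disjoint_left.1 hK hzK)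
  · intro z hz
    rcases hsub hz with hz' | hz'
    · exact Or.inr hz'.1
    · exact Or.inl hz'

variable (σ)

theorem Pair.pull {δ : ℝ} (hδ : 0 < δ) : ∃ δ' > 0, ∀ r ∈ Ico (0 : ℝ) 1, ∀ c₁ c₂,
    σ.Pair δ r (c₁ + σ.α) (c₂ + σ.α) → σ.Pair δ' r c₁ c₂ := by
  obtain ⟨E, δ₀, hδ₀, hE, hP, hd, hC⟩ := σ.exists_P
  obtain ⟨η, hη, hu⟩ := σ.unif hδ
  have hK : Disjoint σ.K E := Set.disjoint_left.2 fun z hz hzE =>
    Set.disjoint_left.1 (hd z hz) (mem_ball_self hδ₀) hzE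
  refine ⟨min δ₀ η, lt_min hδ₀ hη, ?_⟩
  rintro r hr c₁ c₂ ⟨C₁, C₂, h₁, h₂, h⟩
  obtain ⟨B₁, e₁, g₁⟩ := Esc.pull hE hP hK hC hr h₁
  obtain ⟨B₂, e₂, g₂⟩ := Esc.pull hE hP hK hC hr h₂
  have key : ∀ z ∈ σ.K, ∀ B C : Set ℂ, (∀ w ∈ B, w ∈ E ∨ σ.f w ∈ C) →
      Disjoint (ball (σ.f z) δ) C → Disjoint (ball z (min δ₀ η)) B := by
    intro z hz B C g hdis
    rw [Set.disjoint_left]
    intro w hw hwB
    have hw1 : w ∈ ball z δ₀ := ball_subset_ball (min_le_left _ _) hw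
    have hw2 : w ∈ ball z η := ball_subset_ball (min_le_right _ _) hw
    rcases g w hwB with hwE | hwC
    · exact Set.disjoint_left.1 (hd z hz) hw1 hwE
    · exact Set.disjoint_left.1 hdis ((hu z hz w hw2).2 z (mem_ball_self hη)) hwC
  refine ⟨B₁, B₂, e₁, e₂, fun z hz => ?_⟩
  rcases h (σ.f z) (σ.mapsTo_K hz) with h | h
  · exact Or.inl (key z hz _ _ g₁ h)
  · exact Or.inr (key z hz _ _ g₂ h)

theorem Esc_ray {r : ℝ} (hr : r < 1) {q : ℂ} (hq : q ∈ σ.D r) :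
    ∃ t C, σ.Esc r t C ∧ ∀ z ∈ C, z.re = q.re := by
  have hA : IsCompact (σ.D r ∩ {z : ℂ | z.re = q.re}) :=
    (σ.isCompact_D hr).inter_right (isClosed_eq Complex.continuous_re continuous_const)
  obtain ⟨p, ⟨hpD, hpq⟩, hp⟩ := hA.exists_isMaxOn ⟨q, hq, rfl⟩
    Complex.continuous_im.continuousOn
  have hpq : p.re = q.re := hpq
  have hn : σ.D r ∉ 𝓝 p := by
    intro hn
    obtain ⟨ρ, hρ, hb⟩ := Metric.mem_nhds_iff.1 hn
    have h1 : p + (ρ / 2 : ℝ) * Complex.I ∈ ball p ρ := by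
      rw [mem_ball, dist_self_add_left, norm_mul, Complex.norm_I, Complex.norm_real,
        Real.norm_eq_abs, abs_of_pos (by positivity)]
      linarith only [hρ]
    have h2 : (p + (ρ / 2 : ℝ) * Complex.I).im ≤ p.im :=
      hp ⟨hb h1, by simp [hpq]⟩
    simp at h2
    linarith only [hρ, h2]
  obtain ⟨t, ht⟩ := σ.exists_γ hr hpD hn
  refine ⟨t, {z | z.re = q.re ∧ p.im ≤ z.im}, ⟨?_, ?_, ?_, ?_, ?_⟩, fun z hz => hz.1⟩
  · exact (isClosed_eq Complex.continuous_re continuous_const).inter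
      (isClosed_le continuous_const Complex.continuous_im)
  · refine Convex.isPreconnected ?_
    intro x hx y hy a b ha hb hab
    refine ⟨?_, ?_⟩
    · simp only [Complex.add_re, Complex.smul_re, smul_eq_mul, hx.1, hy.1]
      rw [← add_mul, hab, one_mul]
    · simp only [Complex.add_im, Complex.smul_im, smul_eq_mul]
      have h1 := mul_le_mul_of_nonneg_left hx.2 ha
      have h2 := mul_le_mul_of_nonneg_left hy.2 hb
      have h3 : p.im = a * p.im + b * p.im := by rw [← add_mul, hab, one_mul]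
      linarith only [h1, h2, h3]
  · intro hb
    obtain ⟨R, hR⟩ := hb.exists_norm_le
    have h1 := hR ⟨q.re, max p.im (R + 1)⟩ ⟨rfl, le_max_left _ _⟩
    have h2 := (Complex.im_le_norm _).trans h1
    have h3 : R + 1 ≤ max p.im (R + 1) := le_max_right _ _
    simp only at h2
    linarith
  · rw [← ht]
    exact ⟨hpq, le_rfl⟩
  · intro z hz hzD
    rw [← ht]
    have h1 : z.im ≤ p.im := hp ⟨hzD, hz.1⟩
    exact Complex.ext (hz.1.trans hpq.symm) (le_antisymm h1 hz.2)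

theorem pair_base (M : ℕ) : ∃ δ > 0, ∀ r ∈ Ico (1 / 2 : ℝ) 1, ∃ t : ℕ → ℝ,
    ∀ i ≤ M, ∀ j ≤ M, i ≠ j → σ.Pair δ r (t i) (t j) := by
  have h0 : σ.D (1 / 2) ∈ 𝓝 (σ.φ 0) :=
    σ.φ_open 0 (mem_ball_self one_pos) _ (closedBall_mem_nhds 0 (by norm_num))
  obtain ⟨ρ, hρ, hb⟩ := Metric.mem_nhds_iff.1 h0
  set s : ℝ := ρ / (M + 1) with hs
  have hM : (0 : ℝ) < M + 1 := by positivity
  have hs0 : 0 < s := div_pos hρ hM
  have hsM : s * (M + 1) = ρ := div_mul_cancel₀ _ hM.ne'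
  refine ⟨s / 2, half_pos hs0, fun r hr => ?_⟩
  have hq : ∀ i : ℕ, i ≤ M → ∃ t C, σ.Esc r t C ∧ ∀ z ∈ C, z.re = (σ.φ 0).re + i * s := by
    intro i hi
    have hi' : (i : ℝ) ≤ M := by exact_mod_cast hi
    have h1 : σ.φ 0 + ((i * s : ℝ) : ℂ) ∈ ball (σ.φ 0) ρ := by
      rw [mem_ball, dist_self_add_left, Complex.norm_real, Real.norm_eq_abs,
        abs_of_nonneg (by positivity)]
      (refine lt_of_not_ge fun h_nl => ?_; linarith only [h_nl, hρ, hsM, hi', mul_nonneg_of_nonpos_of_nonpos (Mathlib.Tactic.Linarith.sub_nonpos_of_le (Mathlib.Tactic.Linarith.natCast_nonneg ℝ M)) (Mathlib.Tactic.Linarith.sub_nonpos_of_le h_nl), Mathlib.Tactic.Linarith.mul_zero_eq (Mathlib.Tactic.Linarith.sub_nonpos_of_le (Mathlib.Tactic.Linarith.natCast_nonneg ℝ i)) (sub_eq_zero_of_eq hsM), mul_nonneg_of_nonpos_of_nonpos (le_of_lt (Mathlib.Tactic.Linarith.sub_neg_of_lt hρ)) (Mathlib.Tactic.Linarith.sub_nonpos_of_le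 hi')])
    obtain ⟨t, C, h2, h3⟩ := σ.Esc_ray hr.2 (σ.D_mono hr.1 (hb h1))
    refine ⟨t, C, h2, fun z hz => ?_⟩
    rw [h3 z hz, Complex.add_re, Complex.ofReal_re]
  choose! t C hE hre using hq
  refine ⟨t, fun i hi j hj hij => ⟨C i, C j, hE i hi, hE j hj, fun z _ => ?_⟩⟩
  by_contra hn
  rw [not_or, Set.not_disjoint_iff, Set.not_disjoint_iff] at hn
  obtain ⟨⟨u, hu, huC⟩, ⟨w, hw, hwC⟩⟩ := hn
  have h1 : dist u w < s := by
    have := dist_triangle_right u w z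
    rw [mem_ball] at hu hw
    linarith only [hu, hw, this]
  have h2 : |(u - w).re| < s := by
    rw [dist_eq_norm] at h1
    exact (Complex.abs_re_le_norm _).trans_lt h1
  rw [Complex.sub_re, hre i hi u huC, hre j hj w hwC, abs_lt] at h2
  rcases lt_or_gt_of_ne hij with hlt | hlt
  · have : (i : ℝ) + 1 ≤ j := by exact_mod_cast hlt
    linarith only [hsM, h2, hρ, this, h2.1, mul_nonneg_of_nonpos_of_nonpos (Mathlib.Tactic.Linarith.sub_nonpos_of_le (Mathlib.Tactic.Linarith.natCast_nonneg ℝ M)) (le_of_lt (Mathlib.Tactic.Linarith.sub_neg_of_lt h2.left)), Mathlib.Tactic.Linarith.mul_zero_eq (Mathlib.Tactic.Linarith.sub_nonpos_of_le (Mathlib.Tactic.Linarith.natCast_nonneg ℝ i)) (sub_eq_zero_of_eq hsM), Mathlib.Tactic.Linarith.mul_zero_eq (Mathlib.Tactic.Linarith.sub_nonpos_of_le (Mathlib.Tactic.Linarith.natCast_nonneg ℝ j)) (sub_eq_zero_of_eq hsM), mul_nonneg_of_nonpos_of_nonpos (le_of_lt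 (Mathlib.Tactic.Linarith.sub_neg_of_lt hρ)) (Mathlib.Tactic.Linarith.sub_nonpos_of_le this)]
  · have : (j : ℝ) + 1 ≤ i := by exact_mod_cast hlt
    linarith only [hsM, h2, hρ, this, h2.2, mul_nonneg_of_nonpos_of_nonpos (Mathlib.Tactic.Linarith.sub_nonpos_of_le (Mathlib.Tactic.Linarith.natCast_nonneg ℝ M)) (le_of_lt (Mathlib.Tactic.Linarith.sub_neg_of_lt h2.right)), Mathlib.Tactic.Linarith.mul_zero_eq (Mathlib.Tactic.Linarith.sub_nonpos_of_le (Mathlib.Tactic.Linarith.natCast_nonneg ℝ i)) (sub_eq_zero_of_eq hsM), Mathlib.Tactic.Linarith.mul_zero_eq (Mathlib.Tactic.Linarith.sub_nonpos_of_le (Mathlib.Tactic.Linarith.natCast_nonneg ℝ j)) (sub_eq_zero_of_eq hsM), mul_nonneg_of_nonpos_of_nonpos (le_of_lt (Mathlib.Tactic.Linarith.sub_neg_of_lt hρ)) (Mathlib.Tactic.Linarith.sub_nonpos_of_le this)]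

theorem Esc_pull_iter {δ : ℝ} (hδ : 0 < δ) (N : ℕ) : ∃ δ' > 0, ∀ k ≤ N,
    ∀ r ∈ Ico (0 : ℝ) 1, ∀ c₁ c₂,
      σ.Pair δ r (c₁ + k * σ.α) (c₂ + k * σ.α) → σ.Pair δ' r c₁ c₂ := by
  induction N with
  | zero =>
    refine ⟨δ, hδ, fun k hk r _ c₁ c₂ h => ?_⟩
    obtain rfl : k = 0 := Nat.le_zero.1 hk
    simpa using h
  | succ N ih =>
    obtain ⟨δ₁, h₁, ih⟩ := ih
    obtain ⟨δ₂, h₂, hp⟩ := Pair.pull σ h₁
    refine ⟨min δ₁ δ₂, lt_min h₁ h₂, fun k hk r hr c₁ c₂ h => ?_⟩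
    rcases Nat.lt_or_eq_of_le hk with hk | hk
    · exact Esc_pair_mono (ih k (Nat.lt_succ_iff.1 hk) r hr c₁ c₂ h) (min_le_left _ _)
    · subst hk
      refine Esc_pair_mono (hp r hr c₁ c₂ (ih N le_rfl r hr _ _ ?_)) (min_le_right _ _)
      have e1 : ∀ c : ℝ, c + σ.α + N * σ.α = c + ((N + 1 : ℕ) : ℝ) * σ.α := by
        intro c
        push_cast
        ring
      rw [e1, e1]
      exact h

theorem exists_escAt {ε : ℝ} (hε : 0 < ε) : ∃ δ > 0, σ.EscAt ε δ := by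
  obtain ⟨N, hN⟩ := rot_cover σ.irr hε
  obtain ⟨δ₀, hδ₀, hb⟩ := σ.pair_base (N + 1)
  obtain ⟨δ, hδ, hp⟩ := σ.Esc_pull_iter hδ₀ N
  refine ⟨δ, hδ, fun r hr a => ?_⟩
  obtain ⟨t, ht⟩ := hb r hr
  have hr0 : (0 : ℝ) < r := lt_of_lt_of_le (by norm_num) hr.1
  choose k hk m hm using fun i : ℕ => hN (t i - a)
  obtain ⟨i, hi, j, hj, hij, hkk⟩ := Finset.exists_ne_map_eq_of_card_lt_of_maps_to
    (s := Finset.range (N + 2)) (t := Finset.range (N + 1)) (by simp) (f := k)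
    (fun i _ => by simpa [Nat.lt_succ_iff] using hk i)
  have hi' : i ≤ N + 1 := Nat.lt_succ_iff.1 (Finset.mem_range.1 hi)
  have hj' : j ≤ N + 1 := Nat.lt_succ_iff.1 (Finset.mem_range.1 hj)
  refine ⟨t i - k i * σ.α - m i, ⟨by linarith only [hm, (hm i).1], by linarith only [hm, (hm i).2]⟩,
    t j - k j * σ.α - m j, ⟨by linarith only [hm, (hm j).1], by linarith only [hm, (hm j).2]⟩, ?_⟩
  refine hp (k i) (hk i) r ⟨hr0.le, hr.2⟩ _ _ (Esc_pair_congr (ht i hi' j hj' hij) ?_ ?_)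
  · exact (σ.γ_eq_iff ⟨hr0, hr.2⟩).2 ⟨m i, by ring⟩
  · exact (σ.γ_eq_iff ⟨hr0, hr.2⟩).2 ⟨m j, by rw [hkk]; ring⟩

end Pool.Agent.Work.MP_042f46_an.Sg
end

-- merged part: Pool.Agent.Work.MP_042f46_an.Hop
section
/-!
# Short crosscuts of the exterior of an invariant curve

Plans.  `Hop.exit`: `κ '' Icc 0 t ⊆ ball (κ 0) δ` and `κ 0 ∈ K`.
`Hop.out_D` (general form `Hop.out_arc`): if `C` is an exit at `c` missing `κ`, and `γ r c` is not on the arc, join `u = φ ζ` to `γ r c` inside `D r` by the image under `φ` of the segment from `ζ` to `r e c`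
(its inner points have norm `< r`, by strict convexity, or go through `0`); these points are not on the arc, and not on `κ` because `κ` meets `D r` only in its end points, which are on the arc.
For `Hop.out_D` take the exit in `Ioo (max a b) (max a b + 1 / 2)`.
`Hop.short`: shift `b` by an integer into `[a, a + 1)`.  If both `b - a` and `a + 1 - b` are at least `ε` there are exits missing `κ` at `c₁ ∈ Ioo a b` and `c₂ ∈ Ioo b (a + 1)`, so `φ 0` is `Out` for the sets `cl κ t r (a + 1) b` and `cl κ t r a b` (`Hop.out_arc`).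
Let `L₁, L₂` be given by `Out.exists_log` and `l` by `exists_wind`.  By `exp_const`, `L₁ ∘ γ - l` is constant on `[b, a + 1]`, `L₂ ∘ γ - l` on `[a, b]`, `L₁ - L₂` on `κ '' Icc 0 t`; so `l (a + 1) = l a`.
`Hop.pos`: the three rays from `x` in the directions `1, -1, I`; a point of `ball z δ`, `z ∈ K`, has distance at least `3 δ` from `x`, so such a ball meets at most one ray, and some ray misses both crosscuts.  It meets `D r` (otherwise `Out`);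
its first point `ζ` in the compact set `D r` is on both arcs, for otherwise `Hop.out_D` and `Out.of_conn` along the segment give `Out`.
`Hop.enc_of_conn`: `Out.of_conn`; `cl` is within distance `δ` of `K`.  `exists_encP`: `exists_P`.  `Hop.enc_map`: `not_out_image`, `f_γ`.
-/

open Set Metric Topology Filter

namespace Pool.Agent.Work.MP_042f46_an.Sg

variable (σ : Sg)

/-- a crosscut of size `< δ` of the exterior of the curve of radius `r`, from angle `a` to `b` -/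
structure Hop (r δ : ℝ) (κ : ℝ → ℂ) (t a b : ℝ) : Prop where
  rad : r ∈ Ico (1 / 2 : ℝ) 1
  pos : 0 < t
  cont : ContinuousOn κ (Icc 0 t)
  start : κ 0 = σ.γ r a
  stop : κ t = σ.γ r b
  out : ∀ u ∈ Ioo 0 t, κ u ∉ σ.D r
  small : ∀ u ∈ Icc 0 t, dist (κ u) (κ 0) < δ

/-- the crosscut closed up by the arc from `a` to `b` -/
def cl (κ : ℝ → ℂ) (t r a b : ℝ) : Set ℂ := κ '' Icc 0 t ∪ σ.γ r '' uIcc a b

variable {σ} {r δ ε t a b : ℝ} {κ : ℝ → ℂ} {x y : ℂ}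

theorem Hop.Hop_r (h : σ.Hop r δ κ t a b) : r ∈ Ioo (0 : ℝ) 1 :=
  ⟨lt_of_lt_of_le (by norm_num) h.rad.1, h.rad.2⟩

theorem Hop.Hop_r' (h : σ.Hop r δ κ t a b) : r ∈ Ico (0 : ℝ) 1 := Ioo_subset_Ico_self h.Hop_r

theorem Hop.Hop_K (h : σ.Hop r δ κ t a b) (c : ℝ) : σ.γ r c ∈ σ.K :=
  σ.D_sub_K h.rad.2 (σ.γ_mem h.Hop_r'.1 c)

theorem Hop.mono {δ' : ℝ} (h : σ.Hop r δ κ t a b) (hδ : δ ≤ δ') : σ.Hop r δ' κ t a b := by
  exact { h with small := fun u hu => (h.small u hu).trans_le hδ }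

theorem Hop.isCompact_cl (h : σ.Hop r δ κ t a b) (a' b' : ℝ) :
    IsCompact (σ.cl κ t r a' b') := by
  exact (isCompact_Icc.image_of_continuousOn h.cont).union
    (isCompact_uIcc.image (σ.continuous_γ h.Hop_r'))

theorem Hop.near (h : σ.Hop r δ κ t a b) (hx : x ∈ σ.cl κ t r a b) : ∃ z ∈ σ.K, dist x z < δ := by
  rcases hx with ⟨u, hu, rfl⟩ | ⟨c, -, rfl⟩
  · exact ⟨κ 0, h.start ▸ h.Hop_K a, h.small u hu⟩
  · refine ⟨_, h.Hop_K c, ?_⟩
    simpa using h.small 0 ⟨le_rfl, h.pos.le⟩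

theorem Hop.exit (h : σ.Hop r δ κ t a b) (hE : σ.EscAt ε δ) (p : ℝ) :
    ∃ c ∈ Ioo p (p + ε), ∃ C, σ.Esc r c C ∧ Disjoint C (κ '' Icc 0 t) := by
  obtain ⟨c₁, h1, c₂, h2, C₁, C₂, e1, e2, hd⟩ := hE r h.rad p
  have hs : κ '' Icc 0 t ⊆ ball (κ 0) δ := by
    rintro _ ⟨u, hu, rfl⟩
    exact h.small u hu
  rcases hd (κ 0) (h.start ▸ h.Hop_K a) with k | k
  exacts [⟨c₁, h1, C₁, e1, (k.mono_left hs).symm⟩, ⟨c₂, h2, C₂, e2, (k.mono_left hs).symm⟩]

theorem Hop.Hop_arc (h : σ.Hop r δ κ t a b) (hx : x ∈ σ.D r) (hx' : x ∈ σ.cl κ t r a b) :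
    x ∈ σ.γ r '' uIcc a b := by
  rcases hx' with ⟨u, hu, rfl⟩ | k
  · rcases hu.1.eq_or_lt with rfl | k
    · exact ⟨a, left_mem_uIcc, h.start.symm⟩
    rcases hu.2.eq_or_lt with rfl | k'
    · exact ⟨b, right_mem_uIcc, h.stop.symm⟩
    · exact absurd hx (h.out u ⟨k, k'⟩)
  · exact k

theorem Hop_norm (hr : 0 ≤ r) (c : ℝ) : ‖(r : ℂ) * e c‖ = r := by
  rw [norm_mul, norm_e, mul_one, Complex.norm_real, Real.norm_of_nonneg hr]

theorem Hop_inner (hr : r ∈ Ioo (0 : ℝ) 1) {ζ : ℂ} (hζ : ζ ∈ ball (0 : ℂ) r) (A : Set ℝ) :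
    σ.φ ζ ∉ σ.γ r '' A := by
  rintro ⟨c, -, k⟩
  have h1 := Hop_norm hr.1.le c
  rw [σ.φ_inj (mem_ball_zero_iff.2 (h1.trans_lt hr.2)) (ball_subset_ball hr.2.le hζ) k] at h1
  exact (mem_ball_zero_iff.1 hζ).ne h1

theorem Hop_off (hr : r ∈ Ioo (0 : ℝ) 1) {c : ℝ} {A : Set ℝ} (m : ℤ)
    (h : ∀ θ ∈ A, m < c - θ ∧ c - θ < m + 1) : σ.γ r c ∉ σ.γ r '' A := by
  rintro ⟨θ, hθ, k⟩
  obtain ⟨n, hn⟩ := (σ.γ_eq_iff hr).1 k.symm
  obtain ⟨h1, h2⟩ := h θ hθ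
  rw [hn] at h1 h2
  have h3 : m < n := by exact_mod_cast h1
  have h4 : n < m + 1 := by exact_mod_cast h2
  omega

theorem Hop.out_arc (h : σ.Hop r δ κ t a b) {c : ℝ} {C : Set ℂ} (hC : σ.Esc r c C)
    (hd : Disjoint C (κ '' Icc 0 t)) (hc : σ.γ r c ∉ σ.γ r '' uIcc a b) (hx : x ∈ σ.D r)
    (hx' : x ∉ σ.γ r '' uIcc a b) : Out (σ.cl κ t r a b) x := by
  have h1 : Out (σ.cl κ t r a b) (σ.γ r c) := by
    refine ⟨C, hC.conn, hC.unb, hC.mem, disjoint_left.2 fun z hz k => ?_⟩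
    rcases k with k | ⟨θ, hθ, rfl⟩
    · exact disjoint_left.1 hd hz k
    · exact hc ⟨θ, hθ, hC.only _ hz (σ.γ_mem h.Hop_r'.1 θ)⟩
  obtain ⟨ζ, hζ, rfl⟩ := hx
  have h2 : ball (0 : ℂ) r ∪ {ζ, r * e c} ⊆ closedBall 0 r :=
    union_subset ball_subset_closedBall (insert_subset hζ (singleton_subset_iff.2
      (mem_closedBall_zero_iff.2 (Hop_norm h.Hop_r'.1 c).le)))
  have h3 : IsPreconnected (ball (0 : ℂ) r ∪ {ζ, r * e c}) :=
    (convex_ball 0 r).isPreconnected.subset_closure subset_union_left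
      (by rwa [closure_ball _ h.Hop_r.1.ne'])
  refine h1.of_conn (h3.image _ (σ.φ_cont.mono (h2.trans (closedBall_subset_ball h.rad.2))))
    (disjoint_left.2 ?_) ⟨_, .inr (.inr rfl), rfl⟩ ⟨_, .inr (.inl rfl), rfl⟩
  rintro _ ⟨s, hs, rfl⟩ k
  have := h.Hop_arc ⟨s, h2 hs, rfl⟩ k
  rcases hs with hs | rfl | rfl
  exacts [Hop_inner h.Hop_r hs _ this, hx' this, hc this]

theorem Hop.out_D (h : σ.Hop r δ κ t a b) (hE : σ.EscAt (1 / 2) δ) (hab : |b - a| < 1 / 2)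
    (hx : x ∈ σ.D r) (hx' : x ∉ σ.γ r '' uIcc a b) : Out (σ.cl κ t r a b) x := by
  obtain ⟨c, hc, C, hC, hd⟩ := h.exit hE (max a b)
  refine h.out_arc hC hd (Hop_off h.Hop_r 0 fun θ hθ => ?_) hx hx'
  have h1 : θ ≤ max a b := hθ.2
  have h2 : min a b ≤ θ := hθ.1
  have h3 := max_sub_min_eq_abs a b
  rw [Int.cast_zero]
  constructor <;> linarith only [h1, hc, hab, h2, h3, hc.1, hc.2]

theorem Hop.Hop_shift (h : σ.Hop r δ κ t a b) (m n : ℤ) : σ.Hop r δ κ t (a + m) (b + n) :=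
  { h with
    start := h.start.trans ((σ.γ_eq_iff h.Hop_r).2 ⟨m, add_sub_cancel_left _ _⟩).symm
    stop := h.stop.trans ((σ.γ_eq_iff h.Hop_r).2 ⟨n, add_sub_cancel_left _ _⟩).symm }

theorem Hop.Hop_log (h : σ.Hop r δ κ t a b) (ho : Out (σ.cl κ t r a b) x) {l : ℝ → ℂ}
    (hl : Continuous l) (hl' : ∀ θ, Complex.exp (l θ) = σ.γ r θ - x) :
    ∃ L : ℝ → ℂ, ContinuousOn L (Icc 0 t) ∧ (∀ u ∈ Icc 0 t, Complex.exp (L u) = κ u - x) ∧
      L 0 - l a = L t - l b := by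
  obtain ⟨L, h1, h2⟩ := ho.exists_log (h.isCompact_cl a b)
  refine ⟨fun u => L (κ u), h1.comp h.cont fun u hu => .inl ⟨u, hu, rfl⟩,
    fun u hu => h2 _ (.inl ⟨u, hu, rfl⟩), ?_⟩
  simp only [h.start, h.stop]
  refine exp_const (g := fun θ => L (σ.γ r θ) - l θ) (c := 1) isPreconnected_uIcc
    ((h1.comp (σ.continuous_γ h.Hop_r').continuousOn fun u hu => .inr ⟨u, hu, rfl⟩).sub
      hl.continuousOn) (fun θ hθ => ?_) left_mem_uIcc right_mem_uIcc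
  rw [Complex.exp_sub, h2 _ (.inr ⟨θ, hθ, rfl⟩), ← hl', div_self (Complex.exp_ne_zero _)]

theorem Hop.short (h : σ.Hop r δ κ t a b) (hE : σ.EscAt ε δ) :
    ∃ b', σ.Hop r δ κ t a b' ∧ |b' - a| < ε := by
  obtain ⟨b, h, h1, h2⟩ : ∃ b', σ.Hop r δ κ t a b' ∧ a ≤ b' ∧ b' < a + 1 := by
    have := h.Hop_shift 0 (-⌊b - a⌋)
    rw [Int.cast_zero, add_zero, Int.cast_neg] at this
    exact ⟨_, this, by linarith only [Int.floor_le (b - a)], by linarith only [Int.lt_floor_add_one (b - a)]⟩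
  by_cases k1 : b - a < ε
  · exact ⟨b, h, by rwa [abs_of_nonneg (sub_nonneg.2 h1)]⟩
  by_cases k2 : a + 1 - b < ε
  · have := h.Hop_shift 0 (-1)
    rw [Int.cast_zero, add_zero, Int.cast_neg, Int.cast_one] at this
    exact ⟨_, this, by rw [abs_of_nonpos] <;> linarith only [k2, h2]⟩
  exfalso
  have h' := h.Hop_shift 1 0
  rw [Int.cast_zero, add_zero, Int.cast_one] at h'
  have h0 : (0 : ℂ) ∈ ball (0 : ℂ) r := mem_ball_self h.Hop_r.1
  have h3 : σ.φ 0 ∈ σ.D r := ⟨0, ball_subset_closedBall h0, rfl⟩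
  obtain ⟨c₁, m1, C₁, e1, d1⟩ := h.exit hE a
  obtain ⟨c₂, m2, C₂, e2, d2⟩ := h.exit hE b
  obtain ⟨l, l1, l2, l3⟩ := σ.exists_wind h.Hop_r
  obtain ⟨L₁, p1, p2, p3⟩ := h'.Hop_log (h'.out_arc e1 d1 (Hop_off h.Hop_r (-1) fun θ hθ => by
    rw [uIcc_of_ge h2.le] at hθ
    push_cast
    constructor <;> linarith only [hθ, m1, k1, hθ.1, hθ.2, m1.1, m1.2]) h3 (Hop_inner h.Hop_r h0 _)) l1 l2
  obtain ⟨L₂, q1, q2, q3⟩ := h.Hop_log (h.out_arc e2 d2 (Hop_off h.Hop_r 0 fun θ hθ => by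
    rw [uIcc_of_le h1] at hθ
    push_cast
    constructor <;> linarith only [hθ, m2, k2, hθ.1, hθ.2, m2.1, m2.2]) h3 (Hop_inner h.Hop_r h0 _)) l1 l2
  have h4 := exp_const (g := fun u => L₁ u - L₂ u) (c := 1) isPreconnected_Icc (p1.sub q1)
    (fun u hu => by rw [Complex.exp_sub, p2 u hu, ← q2 u hu, div_self (Complex.exp_ne_zero _)])
    (left_mem_Icc.2 h.pos.le) (right_mem_Icc.2 h.pos.le)
  exact l3 a (by linear_combination h4 - p3 + q3)

theorem Hop.Hop_two (h : σ.Hop r δ κ t a b) (hd : ∀ z ∈ σ.K, 4 * δ ≤ dist x z) {d d' : ℂ}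
    (h1 : ‖d‖ = 1) (h2 : ∀ s s' : ℝ, 0 ≤ s → 0 ≤ s' → s ≤ |(s * d - s' * d').re|) :
    (∀ s : ℝ, 0 ≤ s → x + s * d ∉ κ '' Icc 0 t) ∨ ∀ s : ℝ, 0 ≤ s → x + s * d' ∉ κ '' Icc 0 t := by
  by_contra! k
  obtain ⟨⟨s, hs, u, hu, e1⟩, s', hs', u', hu', e2⟩ := k
  have k1 := h.small u hu
  have k2 := h.small u' hu'
  have k3 := hd (κ 0) (h.start ▸ h.Hop_K a)
  have k4 : dist x (κ u) = s := by
    rw [e1, dist_self_add_right, norm_mul, h1, mul_one, Complex.norm_real, Real.norm_of_nonneg hs]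
  have k5 : s ≤ dist (κ u) (κ u') := by
    rw [e1, e2, dist_add_left, dist_eq_norm]
    exact (h2 s s' hs hs').trans (Complex.abs_re_le_norm _)
  have k6 := dist_triangle x (κ u) (κ 0)
  have k7 := dist_triangle_right (κ u) (κ u') (κ 0)
  linarith only [hs, k1, k2, k3, k4, k5, k6, k7]

theorem Hop.Hop_ray (h : σ.Hop r δ κ t a b) (hE : σ.EscAt (1 / 2) δ) (hab : |b - a| < 1 / 2)
    (hx : ¬ Out (σ.cl κ t r a b) x) {d : ℂ} (h1 : ‖d‖ = 1)
    (h2 : ∀ s : ℝ, 0 ≤ s → x + s * d ∉ κ '' Icc 0 t) :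
    x + (sInf {s : ℝ | 0 ≤ s ∧ x + s * d ∈ σ.D r} : ℝ) * d ∈ σ.γ r '' uIcc a b := by
  have hc : Continuous fun s : ℝ => x + s * d := by fun_prop
  have h3 : {s : ℝ | 0 ≤ s ∧ x + s * d ∈ σ.D r}.Nonempty := by
    by_contra k
    refine hx ⟨_, (isPreconnected_Ici (a := 0)).image _ hc.continuousOn, fun hb => ?_,
      ⟨0, self_mem_Ici, by simp⟩, disjoint_left.2 ?_⟩
    · obtain ⟨R, hR⟩ := Metric.isBounded_iff.1 hb
      have := hR ⟨|R| + 1, show 0 ≤ |R| + 1 by positivity, rfl⟩ ⟨0, self_mem_Ici, rfl⟩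
      simp only [Complex.ofReal_zero, zero_mul, add_zero, dist_self_add_left, norm_mul, h1,
        mul_one, Complex.norm_real, Real.norm_eq_abs] at this
      linarith only [this, le_abs_self R, le_abs_self (|R| + 1)]
    · rintro _ ⟨s, hs, rfl⟩ (k' | ⟨θ, -, k'⟩)
      · exact h2 s hs k'
      · exact k ⟨s, hs, mem_of_eq_of_mem k'.symm (σ.γ_mem h.Hop_r'.1 θ)⟩
  obtain ⟨⟨h4, h5⟩, h6⟩ := (isClosed_Ici.inter
    ((σ.isCompact_D h.rad.2).isClosed.preimage hc)).isLeast_csInf h3 ⟨0, fun s hs => hs.1⟩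
  by_contra k
  refine hx ((h.out_D hE hab h5 k).of_conn (isPreconnected_Icc.image _ hc.continuousOn)
    (disjoint_left.2 ?_) ⟨_, right_mem_Icc.2 h4, rfl⟩ ⟨0, left_mem_Icc.2 h4, by simp⟩)
  rintro _ ⟨s, hs, rfl⟩ (k' | ⟨θ, hθ, k'⟩)
  · exact h2 s hs.1 k'
  · exact k ⟨θ, hθ, k'.trans (congrArg (fun s : ℝ => x + s * d)
      (hs.2.antisymm (h6 ⟨hs.1, mem_preimage.2
        (mem_of_eq_of_mem k'.symm (σ.γ_mem h.Hop_r'.1 θ))⟩)))⟩

theorem Hop.pos' (h : σ.Hop r δ κ t a b) {t' a' b' : ℝ} {κ' : ℝ → ℂ} (h' : σ.Hop r δ κ' t' a' b')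
    (hE : σ.EscAt (1 / 2) δ) (hab : |b - a| < 1 / 2) (hab' : |b' - a'| < 1 / 2)
    (hx : ¬ Out (σ.cl κ t r a b) x) (hx' : ¬ Out (σ.cl κ' t' r a' b') x)
    (hd : ∀ z ∈ σ.K, 4 * δ ≤ dist x z) :
    ∃ m : ℤ, |a' - a - m| ≤ |b - a| + |b' - a'| := by
  obtain ⟨d, h1, h2, h3⟩ : ∃ d : ℂ, ‖d‖ = 1 ∧ (∀ s : ℝ, 0 ≤ s → x + s * d ∉ κ '' Icc 0 t) ∧
      ∀ s : ℝ, 0 ≤ s → x + s * d ∉ κ' '' Icc 0 t' := by
    have n1 : ‖(-1 : ℂ)‖ = 1 := by simp
    have e1 : ∀ s s' : ℝ, 0 ≤ s → 0 ≤ s' → s ≤ |((s : ℂ) * 1 - s' * (-1)).re| :=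
      fun s s' _ _ => le_trans (by simpa) (le_abs_self _)
    have e2 : ∀ s s' : ℝ, 0 ≤ s → 0 ≤ s' → s ≤ |((s : ℂ) * 1 - s' * Complex.I).re| :=
      fun s s' _ _ => le_trans (by simp) (le_abs_self _)
    have e3 : ∀ s s' : ℝ, 0 ≤ s → 0 ≤ s' → s ≤ |((s : ℂ) * (-1) - s' * Complex.I).re| :=
      fun s s' _ _ => le_trans (by simp) (neg_le_abs _)
    rcases h.Hop_two hd norm_one e1 with p1 | p1 <;> rcases h.Hop_two hd norm_one e2 with p2 | p2 <;>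
      rcases h.Hop_two hd n1 e3 with p3 | p3 <;> rcases h'.Hop_two hd norm_one e1 with q1 | q1 <;>
      rcases h'.Hop_two hd norm_one e2 with q2 | q2 <;>
      rcases h'.Hop_two hd n1 e3 with q3 | q3 <;>
      first
        | exact ⟨1, norm_one, by assumption, by assumption⟩
        | exact ⟨-1, n1, by assumption, by assumption⟩
        | exact ⟨Complex.I, Complex.norm_I, by assumption, by assumption⟩
  obtain ⟨θ, hθ, k⟩ := h.Hop_ray hE hab hx h1 h2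
  obtain ⟨θ', hθ', k'⟩ := h'.Hop_ray hE hab' hx' h1 h3
  obtain ⟨m, hm⟩ := (σ.γ_eq_iff h.Hop_r).1 (k'.trans k.symm)
  refine ⟨m, ?_⟩
  have k1 := abs_sub_left_of_mem_uIcc hθ
  have k2 := abs_sub_left_of_mem_uIcc hθ'
  rw [← hm, show a' - a - (θ' - θ) = θ - a - (θ' - a') by ring]
  exact (abs_sub _ _).trans (add_le_add k1 k2)

theorem Hop.enc_of_conn (h : σ.Hop r δ κ t a b) {C : Set ℂ} (hC : IsPreconnected C)
    (hd : ∀ w ∈ C, ∀ z ∈ σ.K, δ ≤ dist w z) (hx : x ∈ C) (hy : y ∈ C)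
    (he : ¬ Out (σ.cl κ t r a b) x) : ¬ Out (σ.cl κ t r a b) y := by
  refine fun ho => he (ho.of_conn hC (disjoint_left.2 fun w hw k => ?_) hy hx)
  obtain ⟨z, hz, k'⟩ := h.near k
  exact (hd w hw z hz).not_gt k'

variable (σ) in
theorem exists_encP : ∃ δ > 0, ∀ r κ t a b, σ.Hop r δ κ t a b → ∀ z ∈ σ.P,
    Out (σ.cl κ t r a b) z := by
  obtain ⟨E, δ, hδ, -, hP, hd, hC⟩ := σ.exists_P
  refine ⟨δ, hδ, fun r κ t a b h z hz => ?_⟩
  obtain ⟨C, h1, h2, h3, h4⟩ := hC z (hP hz)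
  refine ⟨C, h2, h3, h4, disjoint_left.2 fun w hw k => ?_⟩
  obtain ⟨z', hz', k'⟩ := h.near k
  exact disjoint_left.1 (hd z' hz') k' (h1 hw)

theorem Hop.enc_map (h : σ.Hop r δ κ t a b) (hP : ∀ z ∈ σ.P, Out (σ.cl κ t r a b) z)
    (he : ¬ Out (σ.cl κ t r a b) x) :
    ¬ Out (σ.cl (σ.f ∘ κ) t r (a + σ.α) (b + σ.α)) (σ.f x) := by
  refine fun ho => not_out_image (h.isCompact_cl a b) (σ.f_cont.mono fun z hz k => hz (hP z k))
    (fun z hz => σ.f_open z fun k => hz (hP z k)) he (ho.anti ?_)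
  rintro _ ⟨_, ⟨u, hu, rfl⟩ | ⟨θ, hθ, rfl⟩, rfl⟩
  · exact .inl ⟨u, hu, rfl⟩
  · refine .inr ⟨θ + σ.α, ?_, (σ.f_γ h.Hop_r' θ).symm⟩
    rw [← image_add_const_uIcc]
    exact ⟨θ, hθ, rfl⟩

end Pool.Agent.Work.MP_042f46_an.Sg
end

-- merged part: Pool.Agent.Work.MP_042f46_an.Bad
section
/-!
# A crosscut whose lift does not return to the curve encloses a branch value

Plans.  `exists_mover`: let `0 < R ≤ η` be at most half of all distances between distinct points of the finite set `V`; for `v ∈ V ∩ K` choose `a v ∈ S` with `dist v (a v) < R / (card + 1)` (and `≤ R / 2`), and `a v = v` otherwise; `exists_move`.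
`exists_bad`: take `ρ` from `unif_inj`, `η` from `unif_surj (ρ / 4)`, `h` from `exists_mover η`, `r₀` such that the finitely many `a v ∈ S` lie in `D r` and off the curve (`eventually_in`), `δ ≤ min η (ρ / 4)` with `EscAt (1 / 2) δ`.
Suppose all `v ∈ V` outside `K` are `Out X`, `X = cl (f ∘ κ) t r a b`.  Then all `a v` are `Out X` (`Hop.out_D`), so all `v ∈ V` are `Out (h '' X)` (`Out.map`).
Let `Γ u = γ r (a - α - u * (b - a))` for `u ∈ [-1, 0]` and `Γ u = κ u` for `u ∈ [0, t]` (`κ 0 = γ r (a - α)` by `injOn_S`); `f ∘ Γ` has values in `X` and `f (Γ (-1)) = f (Γ t)`.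
Choose `Γ' u ∈ ball (Γ u) (ρ / 4)` with `f (Γ' u) = h (f (Γ u))` (`unif_surj`; `Γ u ∈ ball z δ` for some `z ∈ K`); `Γ'` is continuous by `cont_of_lift`.
`lift_closed` gives `Γ' (-1) = Γ' t`; then `Γ (-1)` and `Γ t` lie in `ball (κ 0) ρ`, so they are equal, but `Γ (-1) ∈ D r`.
-/

open Set Metric Topology Filter

namespace Pool.Agent.Work.MP_042f46_an.Sg

variable (σ : Sg)

theorem Bad_sep {V : Set ℂ} (hV : V.Finite) {η : ℝ} (hη : 0 < η) :
    ∃ R, 0 < R ∧ R ≤ η ∧ ∀ v ∈ V, ∀ w ∈ V, v ≠ w → 2 * R ≤ dist v w := by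
  have h : ∀ᶠ R in 𝓝[>] (0 : ℝ), ∀ v ∈ V, ∀ w ∈ V, v ≠ w → 2 * R ≤ dist v w := by
    refine (eventually_all_finite hV).2 fun v _ => (eventually_all_finite hV).2 fun w _ => ?_
    by_cases e : v = w
    · exact Eventually.of_forall fun _ h => absurd e h
    · filter_upwards [Ioc_mem_nhdsGT (half_pos (dist_pos.2 e))] with R hR _
      linarith only [hR, hR.2]
  obtain ⟨R, h1, h2⟩ := (h.and (Ioc_mem_nhdsGT hη)).exists
  exact ⟨R, h2.1, h2.2, h1⟩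

theorem exists_mover {η : ℝ} (hη : 0 < η) : ∃ h a : ℂ → ℂ, Continuous h ∧ Function.Injective h ∧
    (∀ z, dist (h z) z < η) ∧ ∀ v ∈ σ.V, h (a v) = v ∧ (a v ∈ σ.S ∨ (a v = v ∧ v ∉ σ.K)) := by
  obtain ⟨R, hR, hRη, hsep⟩ := Bad_sep σ.V_fin hη
  obtain ⟨c, hc, hc1, hc2⟩ : ∃ c : ℝ, 0 < c ∧ 2 * c ≤ R ∧ σ.V_fin.toFinset.card * c < R := by
    have hn : (0 : ℝ) ≤ σ.V_fin.toFinset.card := Nat.cast_nonneg _
    generalize (σ.V_fin.toFinset.card : ℝ) = n at hn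
    have h1 : (n + 2) * (R / (n + 2)) = R := mul_div_cancel₀ _ (by positivity)
    have h2 : 0 < R / (n + 2) := by positivity
    have h3 := mul_nonneg hn h2.le
    exact ⟨_, h2, by linarith only [h1, h3], by linarith only [h1, h2]⟩
  have ha : ∀ v : ℂ, ∃ w, dist v w < c ∧ (w ∈ σ.S ∨ (w = v ∧ v ∉ σ.K)) := fun v => by
    by_cases hv : v ∈ σ.K
    · obtain ⟨w, h1, h2⟩ := Metric.mem_closure_iff.1 hv c hc
      exact ⟨w, h2, Or.inl h1⟩
    · exact ⟨v, by rwa [dist_self], Or.inr ⟨rfl, hv⟩⟩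
  choose a ha1 ha2 using ha
  obtain ⟨h, h1, h2, h3, h4, -⟩ := exists_move σ.V_fin.toFinset a (R := R)
    ((Finset.sum_le_card_nsmul _ _ c fun v _ => (ha1 v).le).trans_lt (by rwa [nsmul_eq_mul]))
    fun v hv w hw e => by
      have k1 := hsep v (σ.V_fin.mem_toFinset.1 hv) w (σ.V_fin.mem_toFinset.1 hw) e
      have k2 := dist_triangle4_right v w (a v) (a w)
      have k3 := ha1 v
      have k4 := ha1 w
      linarith only [hc1, k1, k2, k3, k4]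
  exact ⟨h, a, h1, h2, fun z => (h3 z).trans_le hRη,
    fun v hv => ⟨h4 v (σ.V_fin.mem_toFinset.2 hv), ha2 v⟩⟩

/-- a short path from the invariant disc to another preimage of it -/
structure BadP (r δ : ℝ) (κ : ℝ → ℂ) (t : ℝ) : Prop where
  cont : ContinuousOn κ (Icc 0 t)
  start : κ 0 ∈ σ.D r
  stop : κ t ∉ σ.D r
  small : ∀ u ∈ Icc 0 t, dist (κ u) (κ 0) < δ

/-- the loop that lies over the closed up crosscut -/
theorem Bad_loop {r δ t a b : ℝ} {κ : ℝ → ℂ} (hB : σ.BadP r δ κ t)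
    (hH : σ.Hop r δ (σ.f ∘ κ) t a b) : ∃ Γ : ℝ → ℂ, ContinuousOn Γ (Icc (-1) t) ∧
      (∀ u ∈ Icc (-1) t, σ.f (Γ u) ∈ σ.cl (σ.f ∘ κ) t r a b ∧ ∃ z ∈ σ.K, dist (Γ u) z < δ) ∧
      Γ (-1) ∈ σ.D r ∧ Γ t = κ t ∧ σ.f (Γ (-1)) = σ.f (Γ t) := by
  have hr : r ∈ Ico (0 : ℝ) 1 := ⟨by linarith only [hH, hH.rad.1], hH.rad.2⟩
  have h0 : κ 0 = σ.γ r (a - σ.α) :=
    σ.injOn_S (σ.D_sub hr.2 hB.start) (σ.D_sub hr.2 (σ.γ_mem hr.1 _))
      (by rw [σ.f_γ hr, sub_add_cancel]; exact hH.start)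
  have hδ : 0 < δ := by simpa using hB.small 0 (left_mem_Icc.2 hH.pos.le)
  obtain ⟨Γ, hΓ⟩ : ∃ Γ : ℝ → ℂ, Γ = fun u =>
    σ.γ r (a - σ.α - min u 0 * (b - a)) + κ (max u 0) - κ 0 := ⟨_, rfl⟩
  have h1 : ∀ u ≤ 0, Γ u = σ.γ r (a - σ.α - u * (b - a)) := fun u hu => by
    simp only [hΓ, min_eq_left hu, max_eq_right hu, add_sub_cancel_right]
  have h2 : ∀ u ≥ 0, Γ u = κ u := fun u hu => by
    simp only [hΓ, min_eq_right hu, max_eq_left hu, zero_mul, sub_zero, ← h0, add_sub_cancel_left]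
  refine ⟨Γ, ?_, fun u hu => ?_, ?_, h2 t hH.pos.le, ?_⟩
  · rw [hΓ]
    refine (((σ.continuous_γ hr).comp (by fun_prop)).continuousOn.add (hB.cont.comp (by fun_prop)
      fun u hu => ⟨le_max_right _ _, max_le hu.2 hH.pos.le⟩)).sub continuousOn_const
  · rcases le_total u 0 with h | h
    · rw [h1 u h, σ.f_γ hr]
      refine ⟨Or.inr ⟨_, ?_, rfl⟩, _, σ.D_sub_K hr.2 (σ.γ_mem hr.1 _), by rwa [dist_self]⟩
      rw [← segment_eq_uIcc, segment_eq_image']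
      exact ⟨-u, ⟨by linarith only [h], by linarith only [hu, hu.1]⟩, by simp only [smul_eq_mul]; ring⟩
    · rw [h2 u h]
      exact ⟨Or.inl ⟨u, ⟨h, hu.2⟩, rfl⟩, _, σ.D_sub_K hr.2 hB.start, hB.small u ⟨h, hu.2⟩⟩
  · rw [h1 _ (by norm_num)]
    exact σ.γ_mem hr.1 _
  · rw [h1 _ (by norm_num), h2 t hH.pos.le, σ.f_γ hr]
    exact (congrArg (σ.γ r) (by ring)).trans hH.stop.symm

theorem exists_bad : ∃ δ > 0, ∃ r₀ < 1, ∀ r ≥ r₀, ∀ κ t a b, σ.BadP r δ κ t →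
    σ.Hop r δ (σ.f ∘ κ) t a b → |b - a| < 1 / 2 →
    ∃ v ∈ σ.V, v ∉ σ.K ∧ ¬ Out (σ.cl (σ.f ∘ κ) t r a b) v := by
  obtain ⟨ρ, hρ, hinj⟩ := σ.unif_inj
  obtain ⟨η, hη, hsur⟩ := σ.unif_surj (show 0 < ρ / 4 by positivity)
  obtain ⟨h, m, hc, hi, hd, hm⟩ := σ.exists_mover hη
  obtain ⟨δ₀, hδ₀, hE⟩ := σ.exists_escAt (show (0 : ℝ) < 1 / 2 by norm_num)
  obtain ⟨δ, hδ, hδ0, hδη, hδρ⟩ : ∃ δ : ℝ, 0 < δ ∧ δ ≤ δ₀ ∧ δ ≤ η ∧ δ ≤ ρ / 4 :=
    ⟨min δ₀ (min η (ρ / 4)), by positivity, min_le_left _ _,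
      (min_le_right _ _).trans (min_le_left _ _), (min_le_right _ _).trans (min_le_right _ _)⟩
  obtain ⟨r₀, hr₀, hin⟩ := mem_nhdsLT_iff_exists_Ico_subset.1
    (show ∀ᶠ r in 𝓝[<] (1 : ℝ), ∀ v ∈ σ.V, m v ∈ σ.S → m v ∈ σ.D r ∧ ∀ t, m v ≠ σ.γ r t from
      (eventually_all_finite σ.V_fin).2 fun v _ => by
        by_cases hv : m v ∈ σ.S
        · obtain ⟨r₀, h1, h2⟩ := σ.eventually_in hv
          filter_upwards [Ico_mem_nhdsLT h1] with r hr _ using h2 r hr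
        · exact Eventually.of_forall fun _ k => absurd k hv)
  refine ⟨δ, hδ, r₀, hr₀, fun r hr κ t a b hB hH hab => ?_⟩
  by_contra hn
  have hV : ∀ v ∈ σ.V, Out (h '' σ.cl (σ.f ∘ κ) t r a b) v := fun v hv => by
    rw [← (hm v hv).1]
    refine Out.map hc hi hd ?_
    rcases (hm v hv).2 with k | ⟨k1, k2⟩
    · obtain ⟨k1, k2⟩ := hin ⟨hr, hH.rad.2⟩ v hv k
      exact hH.out_D (hE.mono le_rfl hδ0) hab k1 fun ⟨s, _, k3⟩ => k2 s k3.symm
    · rw [k1]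
      exact by_contra fun k => hn ⟨v, hv, k2, k⟩
  obtain ⟨Γ, hΓ, h1, h2, h3, h4⟩ := σ.Bad_loop hB hH
  have hlift : ∀ u ∈ Icc (-1) t, ∃ w ∈ ball (Γ u) (ρ / 4), σ.f w = h (σ.f (Γ u)) := fun u hu => by
    obtain ⟨z, hz, k⟩ := (h1 u hu).2
    exact hsur z hz _ (k.trans_le hδη) _ (hd _)
  choose! Γ' h5 h6 using hlift
  have hf : ContinuousOn (σ.f ∘ Γ') (Icc (-1) t) := by
    refine (hc.comp_continuousOn (σ.f_cont.comp hΓ fun u hu => ?_)).congr h6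
    obtain ⟨z, hz, k⟩ := (h1 u hu).2
    exact disjoint_left.1 (hinj z hz).2 (mem_ball.2 (by linarith only [hδ, hδρ, k]))
  have hΓ' : ContinuousOn Γ' (Icc (-1) t) := fun u hu => by
    obtain ⟨z, hz, k⟩ := (h1 u hu).2
    have k1 : ∀ᶠ s in 𝓝[Icc (-1) t] u, Γ' s ∈ ball z (ρ / 2) := by
      filter_upwards [(hΓ u hu).preimage_mem_nhdsWithin
        (isOpen_ball.mem_nhds (mem_ball.2 (k.trans_le hδρ))), self_mem_nhdsWithin] with s k2 k3
      have k4 := dist_triangle (Γ' s) (Γ s) z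
      have k5 := mem_ball.1 (h5 s k3)
      have k6 : dist (Γ s) z < ρ / 4 := k2
      exact mem_ball.2 (by linarith only [k4, k5, k6])
    exact σ.cont_of_lift (hinj z hz).1 (hinj z hz).2 (half_lt_self hρ) k1
      (k1.self_of_nhdsWithin hu) (hf u hu)
  have ht : (-1 : ℝ) ≤ t := by linarith only [hH, hH.pos]
  have h7 : Γ' (-1) = Γ' t := lift_closed σ.V_fin σ.cov ht hΓ'
    (fun v hv => (hV v hv).anti (by
      rintro _ ⟨_, ⟨u, hu, rfl⟩, rfl⟩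
      exact ⟨_, (h1 u hu).1, (h6 u hu).symm⟩))
    (by rw [h6 _ (left_mem_Icc.2 ht), h6 _ (right_mem_Icc.2 ht), h4])
  have k1 := hB.small t (right_mem_Icc.2 hH.pos.le)
  have k2 := mem_ball'.1 (h5 _ (left_mem_Icc.2 ht))
  have k3 := mem_ball.1 (h5 _ (right_mem_Icc.2 ht))
  rw [h7] at k2
  rw [← h3] at k1
  have k4 := dist_triangle4 (Γ (-1)) (Γ' t) (Γ t) (κ 0)
  refine hB.stop ?_
  rw [← h3, ← (hinj _ (σ.D_sub_K hH.rad.2 hB.start)).1 (mem_ball.2 (by linarith only [hδ, hδρ, k1, k2, k3, k4]))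
    (mem_ball.2 (by linarith only [hδ, hδρ, k1])) h4]
  exact h2

end Pool.Agent.Work.MP_042f46_an.Sg
end

-- merged part: Pool.Agent.Work.MP_042f46_an.X3
section
/-!
# Good and bad crosscuts; what they enclose

Analogue of `Bad.lean` (copy and adapt `Bad_sep`, `exists_mover`, `Bad_loop`, `exists_bad`).
Plans.  `lift_log`: as `lift_closed` in `Move.lean`; the lifted homotopy `H` misses `p` because `f p ∈ V`; take a continuous logarithm of `H - p` on the square (`Complex.isCoveringMapOn_exp.existsUnique_continuousMap_lifts`); it is constant on the three sides on which `H` is constant (`exp_const`).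
`small_lift`: shrink `r` below the radius of `unif_inj`, take `η` from `unif_surj (r / 2)`; if `c u ∈ ball z r` then `c u ∈ ball z (r / 2)` by injectivity, so `{u | c u ∈ ball z r}` is open and closed in `A`.  `small_ex`: `unif_surj`, `cont_of_lift`.
`exists_loop`: `Γ u = γ (a - α + (s - u) * (b - a))` for `u ∈ [s - 1, s]` and `Γ u = c u` for `u ∈ [s, t]`.
`close`: take `r` from `unif_inj`, smaller than a quarter of the distance from the poles to `K` (`exists_far`); move the points of `V ∩ K` into `Ω` by `h` (`exists_mover`); all `v ∈ V` are `Out (h '' X)` (`out_D`, `Out.map`); let `Γ'` be the lift of `h ∘ F ∘ Γ` close to `Γ`; `lift_closed`, `lift_log`; add the principal logarithm of `(Γ u - p) / (Γ' u - p)`, a number close to `1`.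
`Hop.bad_enc`: reverse the crosscut if necessary (`Hop.rev`, `cl_rev`, `Bad.rev`), `exists_loop`, `lift_closed`, `Hop.out_D`.
`bad_far`: `small_lift`, `exists_loop`, `close`.  `pole_far`: reverse if `b < a`; `exists_loop` for the crosscut `F ∘ κ` with the lift `κ`, `close` gives a logarithm `L` of `Γ - p` with equal end values; `Hop.side` gives `Out (cl κ (a + 1) b) p`; `Hop.log`, `exists_wind`, `exp_const` give `l (a + 1) = l a`.
`not_good_bad`: the two lifts agree at one end point (`injOn_Ω`), they are small (`small_lift`), so they agree (`unif_inj`).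
-/

open Set Metric Topology Filter

namespace Pool.Agent.Work.MP_042f46_an

theorem lift_log {f : ℂ → ℂ} {V : Set ℂ} (hV : V.Finite) (cov : IsCoveringMapOn f Vᶜ)
    {Γ : ℝ → ℂ} {s t : ℝ} (hst : s ≤ t) (hΓ : ContinuousOn Γ (Icc s t))
    (ho : ∀ v ∈ V, Out (f '' (Γ '' Icc s t)) v) (h : f (Γ s) = f (Γ t)) {p : ℂ} (hp : f p ∈ V) :
    ∃ L : ℝ → ℂ, ContinuousOn L (Icc s t) ∧ (∀ u ∈ Icc s t, Complex.exp (L u) = Γ u - p) ∧
      L s = L t := by
  have hm : ∀ u : unitInterval, s + (u : ℝ) * (t - s) ∈ Icc s t := fun u => by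
    have h1 := u.2.1
    have h2 := u.2.2
    constructor <;> linarith only [hst, h1, h2, mul_nonneg_of_nonpos_of_nonpos (Mathlib.Tactic.Linarith.sub_nonpos_of_le hst) (Mathlib.Tactic.Linarith.sub_nonpos_of_le h1), mul_nonneg_of_nonpos_of_nonpos (Mathlib.Tactic.Linarith.sub_nonpos_of_le hst) (Mathlib.Tactic.Linarith.sub_nonpos_of_le h2)]
  have hγ : Continuous fun u : unitInterval => Γ (s + (u : ℝ) * (t - s)) :=
    hΓ.comp_continuous (by fun_prop) hm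
  have hin : ∀ u : unitInterval, Γ (s + (u : ℝ) * (t - s)) ∈ f ⁻¹' Vᶜ := fun u hv =>
    (ho _ hv).notMem (mem_image_of_mem f (mem_image_of_mem Γ (hm u)))
  let Λ : C(unitInterval, ℂ) :=
    ⟨fun u => f (Γ (s + (u : ℝ) * (t - s))), cov.continuousOn.comp_continuous hγ hin⟩
  obtain ⟨H, h1, h2, h3, h4, h5⟩ := exists_null Λ (by simpa [Λ] using h) hV.toFinset
    fun v hv => (ho v (hV.mem_toFinset.1 hv)).anti (by
      rintro _ ⟨u, rfl⟩
      exact mem_image_of_mem f (mem_image_of_mem Γ (hm u)))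
  have cv := cov.isCoveringMap_restrictPreimage
  let H' : C(unitInterval × unitInterval, (Vᶜ : Set ℂ)) :=
    ⟨fun p => ⟨H p, fun hv => h5 p (hV.mem_toFinset.2 hv)⟩, H.continuous.subtype_mk _⟩
  let γ : C(unitInterval, f ⁻¹' Vᶜ) := ⟨fun u => ⟨_, hin u⟩, hγ.subtype_mk _⟩
  have h0 : ∀ u, H' (0, u) = (Vᶜ : Set ℂ).restrictPreimage f (γ u) := fun u => Subtype.ext (h1 u)
  obtain ⟨G, G1, G2⟩ : ∃ G : C(unitInterval × unitInterval, f ⁻¹' Vᶜ), (∀ q, f (G q) = H q) ∧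
      ∀ u, (G (0, u) : ℂ) = Γ (s + (u : ℝ) * (t - s)) :=
    ⟨cv.liftHomotopy H' γ h0,
      fun q => congrArg Subtype.val (congrFun (cv.liftHomotopy_lifts H' γ h0) q),
      fun u => congrArg Subtype.val (cv.liftHomotopy_zero H' γ h0 u)⟩
  let π : ℝ → unitInterval := projIcc 0 1 zero_le_one
  have hπ : Continuous π := continuous_projIcc
  have π0 : π 0 = 0 := projIcc_left _
  have π1 : π 1 = 1 := projIcc_right _
  have hne : ∀ q, (G q : ℂ) - p ≠ 0 := fun q e => (G q).2 (by rw [sub_eq_zero.1 e]; exact hp)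
  obtain ⟨M, ⟨-, hM⟩, -⟩ := Complex.isCoveringMapOn_exp.existsUnique_continuousMap_lifts
    (A := ℝ × ℝ) ⟨fun q => G (π q.1, π q.2) - p, by fun_prop⟩ (a₀ := 0) (Complex.exp_log (hne _))
    fun q => hne _
  have hM' : ∀ q : ℝ × ℝ, Complex.exp (M q) = G (π q.1, π q.2) - p := congrFun hM
  have side : ∀ e : ℝ → ℝ × ℝ, Continuous e → (∀ u, H (π (e u).1, π (e u).2) = Λ 0) →
      M (e 0) = M (e 1) := fun e he hc =>
    exp_const isPreconnected_univ (M.continuous.comp he).continuousOn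
      (fun u _ => (hM' _).trans (congrArg (fun w : f ⁻¹' Vᶜ => (w : ℂ) - p)
        (cv.const_of_comp (g := fun u => G (π (e u).1, π (e u).2)) (by fun_prop)
          (fun u u' => Subtype.ext (((G1 _).trans (hc u)).trans ((G1 _).trans (hc u')).symm)) u 0)))
      (mem_univ 0) (mem_univ 1)
  have k1 := side (fun u => (u, 0)) (by fun_prop) fun u => by rw [π0, h3]
  have k2 := side (fun u => (1, u)) (by fun_prop) fun u => by rw [π1, h2]
  have k3 := side (fun u => (u, 1)) (by fun_prop) fun u => by rw [π1, h4]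
  refine ⟨fun u => M (0, (u - s) / (t - s)), by fun_prop, fun u hu => ?_, ?_⟩
  · have k : (π ((u - s) / (t - s)) : ℝ) = (u - s) / (t - s) := congrArg Subtype.val
      (projIcc_of_mem _ ⟨div_nonneg (sub_nonneg.2 hu.1) (sub_nonneg.2 hst),
        div_le_one_of_le₀ (sub_le_sub_right hu.2 s) (sub_nonneg.2 hst)⟩)
    rw [hM', π0, G2, k, div_mul_cancel_of_imp fun e => by linarith only [hu, e, hu.1, hu.2], add_sub_cancel]
  · rcases hst.eq_or_lt with rfl | hlt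
    · rfl
    · simp only [sub_self, zero_div, div_self (sub_pos.2 hlt).ne']
      exact k1.trans (k2.trans k3.symm)

namespace Sx

variable (σ : Sx)

/-- some lift has exactly one end in the invariant region -/
def Bad (ρ : ℝ) (κ : ℝ → ℂ) (s t : ℝ) : Prop :=
  ∃ c : ℝ → ℂ, ContinuousOn c (Icc s t) ∧ (∀ u ∈ Icc s t, σ.F (c u) = κ u) ∧
    ¬ (c s ∈ σ.D ρ ↔ c t ∈ σ.D ρ)

/-- some lift has both ends in the invariant region -/
def Good (ρ : ℝ) (κ : ℝ → ℂ) (s t : ℝ) : Prop :=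
  ∃ c : ℝ → ℂ, ContinuousOn c (Icc s t) ∧ (∀ u ∈ Icc s t, σ.F (c u) = κ u) ∧
    c s ∈ σ.D ρ ∧ c t ∈ σ.D ρ

variable {σ} in
theorem Bad.rev {ρ s t : ℝ} {κ : ℝ → ℂ} (h : σ.Bad ρ κ s t) :
    σ.Bad ρ (fun u => κ (-u)) (-t) (-s) := by
  obtain ⟨c, h1, h2, h3⟩ := h
  have k : ∀ u ∈ Icc (-t) (-s), -u ∈ Icc s t := fun u hu =>
    ⟨by linarith only [hu, hu.2], by linarith [hu.1]⟩
  refine ⟨fun u => c (-u), h1.comp (by fun_prop) k, fun u hu => h2 _ (k u hu), ?_⟩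
  simp only [neg_neg]
  exact fun e => h3 e.symm

theorem small_lift {r : ℝ} (hr : 0 < r) : ∃ η > 0, ∀ z ∈ σ.B, ∀ A : Set ℝ, IsPreconnected A →
    ∀ c : ℝ → ℂ, ContinuousOn c A → ∀ u₀ ∈ A, c u₀ = z →
      (∀ u ∈ A, dist (σ.F (c u)) (σ.F z) < η) → ∀ u ∈ A, dist (c u) z < r := by
  obtain ⟨r₁, h1, hinj⟩ := σ.unif_inj
  have h2 : 0 < min r r₁ := lt_min hr h1
  obtain ⟨η, hη, hsur⟩ := σ.unif_surj (half_pos h2)
  refine ⟨η, hη, fun z hz A hA c hc u₀ hu₀ e hd u hu => ?_⟩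
  have k : c '' A ⊆ ball z (min r r₁ / 2) := by
    refine (hA.image c hc).subset_left_of_subset_union isOpen_ball
      (isClosed_closedBall (x := z) (ε := min r r₁ / 2)).isOpen_compl
      (disjoint_compl_right.mono_left ball_subset_closedBall) ?_
      ⟨z, ⟨u₀, hu₀, e⟩, mem_ball_self (half_pos h2)⟩
    rintro _ ⟨v, hv, rfl⟩
    obtain ⟨w, k1, k2⟩ := hsur z hz z (mem_ball_self hη) _ (hd v hv)
    refine or_iff_not_imp_right.2 fun k3 => ?_
    have k4 := (half_lt_self h2).trans_le (min_le_right _ _)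
    rwa [← (hinj z hz).1 (ball_subset_ball k4.le k1) (closedBall_subset_ball k4 (not_not.1 k3)) k2]
  exact (mem_ball.1 (k ⟨u, hu, rfl⟩)).trans ((half_lt_self h2).trans_le (min_le_left _ _))

theorem small_ex {r : ℝ} (hr : 0 < r) : ∃ η > 0, ∀ z ∈ σ.B, ∀ (A : Set ℝ) (κ : ℝ → ℂ),
    ContinuousOn κ A → (∀ u ∈ A, dist (κ u) (σ.F z) < η) →
      ∃ c : ℝ → ℂ, ContinuousOn c A ∧ ∀ u ∈ A, dist (c u) z < r ∧ σ.F (c u) = κ u := by
  obtain ⟨r₁, h1, hinj⟩ := σ.unif_inj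
  obtain ⟨η, hη, hsur⟩ := σ.unif_surj (lt_min hr (half_pos h1))
  refine ⟨η, hη, fun z hz A κ hκ hd => ?_⟩
  choose! c k1 k2 using fun u (hu : u ∈ A) => hsur z hz z (mem_ball_self hη) _ (hd u hu)
  exact ⟨c, fun u hu => σ.cont_of_lift (hinj z hz).1 (hinj z hz).2
    ((min_le_right _ _).trans_lt (half_lt_self h1)) (eventually_nhdsWithin_of_forall k1) (k1 u hu)
    (hκ.congr k2 u hu), fun u hu => ⟨(mem_ball.1 (k1 u hu)).trans_le (min_le_left _ _), k2 u hu⟩⟩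

variable {σ} in
theorem X3_end {ρ a : ℝ} {z : ℂ} (hρ : 1 < ρ) (hz : z ∈ σ.D ρ) (h : σ.F z = σ.γ ρ a) :
    z = σ.γ ρ (a - σ.α) :=
  σ.injOn_Ω (σ.D_sub hρ hz) (σ.D_sub hρ (σ.γ_mem (zero_le_one.trans hρ.le) _))
    (by rw [σ.F_γ hρ, sub_add_cancel, h])

variable {σ} in
/-- the path that lies over the closed up crosscut -/
theorem exists_loop {ρ δ s t a b : ℝ} {κ c : ℝ → ℂ} (h : σ.Hop ρ δ κ s t a b)
    (hc : ContinuousOn c (Icc s t)) (hl : ∀ u ∈ Icc s t, σ.F (c u) = κ u) (hs : c s ∈ σ.D ρ) :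
    ∃ Γ : ℝ → ℂ, ContinuousOn Γ (Icc (s - 1) t) ∧
      (∀ u ∈ Icc (s - 1) s, Γ u = σ.γ ρ (a - σ.α + (s - u) * (b - a))) ∧
      (∀ u ∈ Icc s t, Γ u = c u) ∧ (∀ u ∈ Icc (s - 1) t, σ.F (Γ u) ∈ σ.cl κ s t ρ a b) ∧
      σ.F (Γ (s - 1)) = σ.F (Γ t) := by
  have h0 : c s = σ.γ ρ (a - σ.α) :=
    X3_end h.rad.1 hs ((hl s (left_mem_Icc.2 h.lt.le)).trans h.start)
  obtain ⟨Γ, hΓ⟩ : ∃ Γ : ℝ → ℂ, Γ = fun u =>
    σ.γ ρ (a - σ.α + (s - min u s) * (b - a)) + c (max u s) - c s := ⟨_, rfl⟩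
  have h1 : ∀ u ≤ s, Γ u = σ.γ ρ (a - σ.α + (s - u) * (b - a)) := fun u hu => by
    simp only [hΓ, min_eq_left hu, max_eq_right hu, add_sub_cancel_right]
  have h2 : ∀ u ≥ s, Γ u = c u := fun u hu => by
    simp only [hΓ, min_eq_right hu, max_eq_left hu, sub_self, zero_mul, add_zero, ← h0,
      add_sub_cancel_left]
  refine ⟨Γ, ?_, fun u hu => h1 u hu.2, fun u hu => h2 u hu.1, fun u hu => ?_, ?_⟩
  · rw [hΓ]
    refine (((σ.continuous_γ h.rad.1).comp (by fun_prop)).continuousOn.add (hc.comp (by fun_prop)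
      fun u hu => ⟨le_max_right _ _, max_le hu.2 h.lt.le⟩)).sub continuousOn_const
  · rcases le_total u s with k | k
    · rw [h1 u k, σ.F_γ h.rad.1]
      refine Or.inr ⟨_, ?_, rfl⟩
      rw [← segment_eq_uIcc, segment_eq_image']
      exact ⟨s - u, ⟨by linarith only [k], by linarith [hu.1]⟩, by simp only [smul_eq_mul]; ring⟩
    · rw [h2 u k]
      exact Or.inl ⟨u, ⟨k, hu.2⟩, (hl u ⟨k, hu.2⟩).symm⟩
  · rw [h1 _ (by linarith), h2 t h.lt.le, σ.F_γ h.rad.1, hl t (right_mem_Icc.2 h.lt.le), h.stop]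
    exact congrArg (σ.γ ρ) (by ring)

theorem X3_mover {η : ℝ} (hη : 0 < η) : ∃ h a : ℂ → ℂ, Continuous h ∧ Function.Injective h ∧
    (∀ z, dist (h z) z < η) ∧ ∀ v ∈ σ.V, h (a v) = v ∧ (a v ∈ σ.Ω ∨ (a v = v ∧ v ∉ σ.K)) := by
  obtain ⟨R, hR, hRη, hsep⟩ := Sg.Bad_sep σ.V_fin hη
  obtain ⟨c, hc, hc1, hc2⟩ : ∃ c : ℝ, 0 < c ∧ 2 * c ≤ R ∧ σ.V_fin.toFinset.card * c < R := by
    have hn : (0 : ℝ) ≤ σ.V_fin.toFinset.card := Nat.cast_nonneg _
    generalize (σ.V_fin.toFinset.card : ℝ) = n at hn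
    have h1 : (n + 2) * (R / (n + 2)) = R := mul_div_cancel₀ _ (by positivity)
    have h2 : 0 < R / (n + 2) := by positivity
    have h3 := mul_nonneg hn h2.le
    exact ⟨_, h2, by linarith only [h1, h3], by linarith only [h1, h2]⟩
  have ha : ∀ v : ℂ, ∃ w, dist v w < c ∧ (w ∈ σ.Ω ∨ (w = v ∧ v ∉ σ.K)) := fun v => by
    by_cases hv : v ∈ σ.K
    · obtain ⟨w, h1, h2⟩ := Metric.mem_closure_iff.1 hv c hc
      exact ⟨w, h2, Or.inl h1⟩
    · exact ⟨v, by rwa [dist_self], Or.inr ⟨rfl, hv⟩⟩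
  choose a ha1 ha2 using ha
  obtain ⟨h, h1, h2, h3, h4, -⟩ := exists_move σ.V_fin.toFinset a (R := R)
    ((Finset.sum_le_card_nsmul _ _ c fun v _ => (ha1 v).le).trans_lt (by rwa [nsmul_eq_mul]))
    fun v hv w hw e => by
      have k1 := hsep v (σ.V_fin.mem_toFinset.1 hv) w (σ.V_fin.mem_toFinset.1 hw) e
      have k2 := dist_triangle4_right v w (a v) (a w)
      have k3 := ha1 v
      have k4 := ha1 w
      linarith only [hc1, k1, k2, k3, k4]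
  exact ⟨h, a, h1, h2, fun z => (h3 z).trans_le hRη,
    fun v hv => ⟨h4 v (σ.V_fin.mem_toFinset.2 hv), ha2 v⟩⟩

theorem close : ∃ δ > 0, ∃ ρ₀ > 1, ∀ ρ ∈ Ioc 1 ρ₀, ∀ (X : Set ℂ) (Γ : ℝ → ℂ) (s t : ℝ), s ≤ t →
    ContinuousOn Γ (Icc s t) → (∀ u ∈ Icc s t, σ.F (Γ u) ∈ X ∧ ∃ z ∈ σ.B, dist (Γ u) z < δ) →
    (∀ x ∈ X, x ∈ σ.D ρ → ∃ θ, x = σ.γ ρ θ) → (∀ v ∈ σ.V, v ∉ σ.K → Out X v) →
    σ.F (Γ s) = σ.F (Γ t) → Γ s = Γ t ∧ ∀ p ∈ σ.P, ∃ L : ℝ → ℂ, ContinuousOn L (Icc s t) ∧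
      (∀ u ∈ Icc s t, Complex.exp (L u) = Γ u - p) ∧ L s = L t := by
  obtain ⟨r, hr, hinj⟩ := σ.unif_inj
  obtain ⟨ε, hε, hfar⟩ := σ.exists_far σ.P_fin σ.P_K
  obtain ⟨q, hq, hqr, hqε⟩ : ∃ q : ℝ, 0 < q ∧ 4 * q ≤ r ∧ 4 * q ≤ ε :=
    ⟨min r ε / 4, by positivity, by linarith only [min_le_left r ε], by linarith only [min_le_right r ε]⟩
  obtain ⟨η, hη, hsur⟩ := σ.unif_surj hq
  obtain ⟨h, m, hc, hi, hd, hm⟩ := σ.X3_mover hη
  obtain ⟨ρ₀, hρ₀, hin⟩ := mem_nhdsGT_iff_exists_Ioc_subset.1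
    (show ∀ᶠ ρ in 𝓝[>] (1 : ℝ), ∀ v ∈ σ.V, m v ∈ σ.Ω → m v ∈ σ.D ρ ∧ ∀ t, m v ≠ σ.γ ρ t from
      (eventually_all_finite σ.V_fin).2 fun v _ => by
        by_cases hv : m v ∈ σ.Ω
        · obtain ⟨ρ₀, h1, h2⟩ := σ.eventually_in hv
          filter_upwards [Ioc_mem_nhdsGT h1] with ρ hρ _ using h2 ρ hρ
        · exact Eventually.of_forall fun _ k => absurd k hv)
  refine ⟨min η q, lt_min hη hq, ρ₀, hρ₀, fun ρ hρ X Γ s t hst hΓ h1 hX hn h4 => ?_⟩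
  have hV : ∀ v ∈ σ.V, Out (h '' X) v := fun v hv => by
    rw [← (hm v hv).1]
    refine Out.map hc hi hd ?_
    rcases (hm v hv).2 with k | ⟨k1, k2⟩
    · obtain ⟨k1, k2⟩ := hin hρ v hv k
      exact σ.out_D hρ.1 hX k1 fun k3 => (hX _ k3 k1).elim k2
    · rw [k1]
      exact hn v hv k2
  have h2 : ∀ u ∈ Icc s t, ∃ z ∈ σ.B, dist (Γ u) z < q := fun u hu =>
    (h1 u hu).2.imp fun z k => ⟨k.1, k.2.trans_le (min_le_right _ _)⟩
  have hlift : ∀ u ∈ Icc s t, ∃ w ∈ ball (Γ u) q, σ.F w = h (σ.F (Γ u)) := fun u hu => by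
    obtain ⟨z, hz, k⟩ := (h1 u hu).2
    exact hsur z hz _ (k.trans_le (min_le_left _ _)) _ (hd _)
  choose! Γ' h5 h6 using hlift
  have hf : ContinuousOn (σ.F ∘ Γ') (Icc s t) := by
    refine (hc.comp_continuousOn (σ.F_cont.comp hΓ fun u hu => ?_)).congr h6
    obtain ⟨z, hz, k⟩ := h2 u hu
    exact disjoint_left.1 (hinj z hz).2 (mem_ball.2 (by linarith only [hq, hqr, k]))
  have hΓ' : ContinuousOn Γ' (Icc s t) := fun u hu => by
    obtain ⟨z, hz, k⟩ := h2 u hu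
    have k1 : ∀ᶠ w in 𝓝[Icc s t] u, Γ' w ∈ ball z (r / 2) := by
      filter_upwards [(hΓ u hu).preimage_mem_nhdsWithin (isOpen_ball.mem_nhds (mem_ball.2 k)),
        self_mem_nhdsWithin] with w k2 k3
      have k4 := dist_triangle (Γ' w) (Γ w) z
      have k5 := mem_ball.1 (h5 w k3)
      have k6 : dist (Γ w) z < q := k2
      exact mem_ball.2 (by linarith only [hqr, k4, k5, k6])
    exact σ.cont_of_lift (hinj z hz).1 (hinj z hz).2 (half_lt_self hr) k1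
      (k1.self_of_nhdsWithin hu) (hf u hu)
  have ho : ∀ v ∈ σ.V, Out (σ.F '' (Γ' '' Icc s t)) v := fun v hv => (hV v hv).anti (by
    rintro _ ⟨_, ⟨u, hu, rfl⟩, rfl⟩
    exact ⟨_, (h1 u hu).1, (h6 u hu).symm⟩)
  have he : σ.F (Γ' s) = σ.F (Γ' t) := by
    rw [h6 _ (left_mem_Icc.2 hst), h6 _ (right_mem_Icc.2 hst), h4]
  have h7 : Γ' s = Γ' t := lift_closed σ.V_fin σ.cov hst hΓ' ho he
  have h8 : Γ s = Γ t := by
    obtain ⟨z, hz, k1⟩ := h2 t (right_mem_Icc.2 hst)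
    have k2 := mem_ball'.1 (h5 _ (left_mem_Icc.2 hst))
    have k3 := mem_ball.1 (h5 _ (right_mem_Icc.2 hst))
    rw [h7] at k2
    have k4 := dist_triangle4 (Γ s) (Γ' t) (Γ t) z
    exact (hinj z hz).1 (mem_ball.2 (by linarith only [hq, hqr, k1, k2, k3, k4])) (mem_ball.2 (by linarith only [hq, hqr, k1])) h4
  refine ⟨h8, fun p hp => ?_⟩
  obtain ⟨L, l1, l2, l3⟩ := lift_log σ.V_fin σ.cov hst hΓ' ho he (σ.P_V p hp)
  have n0 : ∀ u ∈ Icc s t, Γ' u - p ≠ 0 := fun u hu => l2 u hu ▸ Complex.exp_ne_zero _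
  have n1 : ∀ u ∈ Icc s t, 1 + (Γ u - Γ' u) / (Γ' u - p) ∈ Complex.slitPlane := fun u hu =>
    Complex.mem_slitPlane_of_norm_lt_one (by
      obtain ⟨z, hz, k1⟩ := h2 u hu
      have k2 := mem_ball'.1 (h5 u hu)
      have k3 := hfar p hp z (σ.B_sub hz)
      have k4 := dist_triangle4_right p z (Γ' u) (Γ u)
      rw [norm_div, div_lt_one (norm_pos_iff.2 (n0 u hu)), ← dist_eq_norm, ← dist_eq_norm,
        dist_comm _ p]
      rw [dist_comm z, dist_comm (Γ' u)] at k4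
      linarith only [hq, hqε, k1, k2, k3, k4])
  refine ⟨fun u => L u + Complex.log (1 + (Γ u - Γ' u) / (Γ' u - p)), l1.add
    ((continuousOn_const.add ((hΓ.sub hΓ').div (hΓ'.sub continuousOn_const) n0)).clog n1),
    fun u hu => ?_, by simp only [l3, h7, h8]⟩
  have k := n0 u hu
  rw [Complex.exp_add, l2 u hu, Complex.exp_log (Complex.slitPlane_ne_zero (n1 u hu))]
  field_simp
  ring

variable {σ} in
/-- a bad crosscut can be oriented so that its lift starts in the invariant region -/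
theorem X3_orient {ρ δ s t a b : ℝ} {κ : ℝ → ℂ} (h : σ.Hop ρ δ κ s t a b) (hb : σ.Bad ρ κ s t) :
    ∃ κ' s' t' a' b' c, σ.Hop ρ δ κ' s' t' a' b' ∧ σ.cl κ' s' t' ρ a' b' = σ.cl κ s t ρ a b ∧
      ContinuousOn c (Icc s' t') ∧ (∀ u ∈ Icc s' t', σ.F (c u) = κ' u) ∧ c s' ∈ σ.D ρ ∧
      c t' ∉ σ.D ρ := by
  obtain ⟨c, h1, h2, h3⟩ := hb
  by_cases k : c s ∈ σ.D ρ
  · exact ⟨κ, s, t, a, b, c, h, rfl, h1, h2, k, fun k' => h3 (iff_of_true k k')⟩
  have m : ∀ u ∈ Icc (-t) (-s), -u ∈ Icc s t := fun u hu =>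
    ⟨by linarith only [hu, hu.2], by linarith [hu.1]⟩
  refine ⟨_, _, _, _, _, fun u => c (-u), h.rev, cl_rev κ s t ρ a b, h1.comp (by fun_prop) m,
    fun u hu => h2 _ (m u hu), ?_, ?_⟩ <;> simp only [neg_neg]
  exacts [by_contra fun k' => h3 (iff_of_false k k'), k]

variable {σ} in
theorem X3_arc {ρ δ s t a b : ℝ} {κ : ℝ → ℂ} (h : σ.Hop ρ δ κ s t a b) :
    ∀ x ∈ σ.cl κ s t ρ a b, x ∈ σ.D ρ → ∃ θ, x = σ.γ ρ θ := by
  rintro _ (⟨u, hu, rfl⟩ | ⟨θ, -, rfl⟩) hx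
  · rcases hu.1.eq_or_lt with rfl | k
    · exact ⟨a, h.start⟩
    rcases hu.2.eq_or_lt with rfl | k'
    · exact ⟨b, h.stop⟩
    · exact absurd hx (h.out u ⟨k, k'⟩)
  · exact ⟨θ, rfl⟩

variable {σ} in
theorem X3_near {ρ δ s t : ℝ} {c Γ : ℝ → ℂ} {g : ℝ → ℝ} (hρ : ρ ∈ Ioc (1 : ℝ) 2) (hst : s ≤ t)
    (h1 : ∀ u ∈ Icc (s - 1) s, Γ u = σ.γ ρ (g u)) (h2 : ∀ u ∈ Icc s t, Γ u = c u)
    (h3 : ∀ u ∈ Icc s t, dist (c u) (c s) < δ) :
    ∀ u ∈ Icc (s - 1) t, ∃ z ∈ σ.B, dist (Γ u) z < δ := fun u hu => by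
  have k0 := left_mem_Icc.2 hst
  rcases le_total u s with k | k
  · refine ⟨_, σ.γ_B hρ (g u), ?_⟩
    simpa only [h1 u ⟨hu.1, k⟩, dist_self] using h3 s k0
  · refine ⟨_, σ.γ_B hρ (g s), ?_⟩
    rw [← h1 s ⟨by linarith only [], le_rfl⟩, h2 s k0, h2 u ⟨k, hu.2⟩]
    exact h3 u ⟨k, hu.2⟩

variable {σ} in
theorem Hop.bad_enc {ρ δ s t a b : ℝ} {κ : ℝ → ℂ} (h : σ.Hop ρ δ κ s t a b) (hb : σ.Bad ρ κ s t)
    (hV : ∀ θ, σ.γ ρ θ ∉ σ.V) : ∃ v ∈ σ.V, v ∉ σ.D ρ ∧ ¬ Out (σ.cl κ s t ρ a b) v := by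
  obtain ⟨κ, s, t, a, b, c, h, e, c1, c2, c3, c4⟩ := X3_orient h hb
  rw [← e]
  obtain ⟨Γ, g1, g2, g3, g4, g5⟩ := exists_loop h c1 c2 c3
  by_contra hn
  have k := lift_closed σ.V_fin σ.cov (by linarith only [h, h.lt]) g1 (fun v hv => Out.anti
    (by rintro _ ⟨_, ⟨u, hu, rfl⟩, rfl⟩; exact g4 u hu) (by_contra fun k => hn
      ⟨v, hv, fun k' => k (h.out_D k' fun ⟨θ, _, k2⟩ => hV θ (k2 ▸ hv)), k⟩)) g5
  rw [g2 _ ⟨le_rfl, by linarith only []⟩, g3 t (right_mem_Icc.2 h.lt.le)] at k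
  exact c4 (k ▸ σ.γ_mem (by linarith only [h, h.rad.1]) _)

theorem bad_far : ∃ δ > 0, ∃ ρ₀ > 1, ∀ ρ ≤ ρ₀, ∀ κ s t a b, σ.Hop ρ δ κ s t a b →
    σ.Bad ρ κ s t → ∃ v ∈ σ.V, v ∉ σ.K ∧ ¬ Out (σ.cl κ s t ρ a b) v := by
  obtain ⟨δ, hδ, ρ₀, hρ₀, hc⟩ := σ.close
  obtain ⟨η, hη, hs⟩ := σ.small_lift hδ
  refine ⟨η, hη, ρ₀, hρ₀, fun ρ hρ κ s t a b h hb => ?_⟩
  obtain ⟨κ, s, t, a, b, c, h, e, c1, c2, c3, c4⟩ := X3_orient h hb
  rw [← e]
  obtain ⟨Γ, g1, g2, g3, g4, g5⟩ := exists_loop h c1 c2 c3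
  have k0 := left_mem_Icc.2 h.lt.le
  have hB : c s ∈ σ.B := by
    rw [X3_end h.rad.1 c3 ((c2 s k0).trans h.start)]
    exact σ.γ_B h.rad _
  by_contra hn
  have k := (hc ρ ⟨h.rad.1, hρ⟩ _ Γ _ t (by linarith only [h, h.lt]) g1 (fun u hu => ⟨g4 u hu,
    X3_near h.rad h.lt.le g2 g3 (hs _ hB _ isPreconnected_Icc c c1 s k0 rfl fun u hu => by
      rw [c2 u hu, c2 s k0]
      exact h.small u hu s k0) u hu⟩) (X3_arc h)
    (fun v hv k => by_contra fun k' => hn ⟨v, hv, k, k'⟩) g5).1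
  rw [g2 _ ⟨le_rfl, by linarith only []⟩, g3 t (right_mem_Icc.2 h.lt.le)] at k
  exact c4 (k ▸ σ.γ_mem (by linarith only [h, h.rad.1]) _)

theorem pole_far : ∃ δ > 0, ∃ ρ₀ > 1, ∀ ρ ≤ ρ₀, ∀ κ s t a b, σ.Hop ρ δ κ s t a b →
    σ.Hop ρ δ (σ.F ∘ κ) s t (a + σ.α) (b + σ.α) → |b - a| ≤ 1 →
    ∀ p ∈ σ.P, ¬ Out (σ.cl κ s t ρ a b) p →
      ∃ v ∈ σ.V, v ∉ σ.K ∧ ¬ Out (σ.cl (σ.F ∘ κ) s t ρ (a + σ.α) (b + σ.α)) v := by
  obtain ⟨δ₀, hδ₀, ρ₀, hρ₀, hc⟩ := σ.close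
  obtain ⟨ε, hε, hfar⟩ := σ.exists_far σ.P_fin σ.P_K
  refine ⟨min δ₀ (ε / 4), by positivity, ρ₀, hρ₀, fun ρ hρ κ s t a b h h' hab p hp hno => ?_⟩
  wlog hle : a ≤ b generalizing κ s t a b
  · have k := this (fun u => κ (-u)) (-t) (-s) b a h.rev h'.rev (by rwa [abs_sub_comm])
      (by rwa [cl_rev]) (le_of_not_ge hle)
    rwa [← cl_rev]
  have k0 := left_mem_Icc.2 h.lt.le
  obtain ⟨Γ, g1, g2, g3, g4, g5⟩ := exists_loop h' h.cont (fun _ _ => rfl)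
    (h.start ▸ σ.γ_mem (by linarith only [h, h.rad.1]) a)
  by_contra hn
  obtain ⟨L, l1, l2, l3⟩ := (hc ρ ⟨h.rad.1, hρ⟩ _ Γ _ t (by linarith only [h, h.lt]) g1
    (fun u hu => ⟨g4 u hu, X3_near h.rad h.lt.le g2 g3
      (fun u hu => (h.small u hu s k0).trans_le (min_le_left _ _)) u hu⟩) (X3_arc h')
    (fun v hv k => by_contra fun k' => hn ⟨v, hv, k, k'⟩) g5).2 p hp
  have h1 := h.shift 1 0
  rw [Int.cast_zero, add_zero, Int.cast_one] at h1
  obtain ⟨l, w1, w2, w3⟩ := σ.exists_wind h.rad.1 fun k => σ.K_not_P (σ.D_sub_K h.rad.1 k) hp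
  obtain ⟨M, m1, m2, m3⟩ := h1.log ((h.side hle (by linarith only [hab, le_abs_self (b - a)]) fun z hz => by
    linarith only [hfar, hp, hz, hfar p hp z hz, min_le_right δ₀ (ε / 4)]).resolve_left hno) w1 w2
  have i1 : Icc s t ⊆ Icc (s - 1) t := Icc_subset_Icc_left (by linarith only [])
  have i2 : Icc (s - 1) s ⊆ Icc (s - 1) t := Icc_subset_Icc_right h.lt.le
  have k1 := exp_const (g := fun u => L u - M u) (c := 1) isPreconnected_Icc ((l1.mono i1).sub m1)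
    (fun u hu => by
      rw [Complex.exp_sub, l2 u (i1 hu), g3 u hu, ← m2 u hu, div_self (Complex.exp_ne_zero _)])
    k0 (right_mem_Icc.2 h.lt.le)
  have k2 := exp_const (g := fun u => L u - l (a + (s - u) * (b - a))) (c := 1) isPreconnected_Icc
    ((l1.mono i2).sub (by fun_prop)) (fun u hu => by
      rw [Complex.exp_sub, l2 u (i2 hu), g2 u hu, add_sub_cancel_right, add_sub_add_right_eq_sub,
        ← w2, div_self (Complex.exp_ne_zero _)])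
    (left_mem_Icc.2 (by linarith only [])) (right_mem_Icc.2 (by linarith only []))
  simp only [sub_sub_cancel, one_mul, add_sub_cancel, sub_self, zero_mul, add_zero] at k1 k2
  exact w3 a (by linear_combination l3 - k2 - k1 - m3)

theorem not_good_bad : ∃ δ > 0, ∀ ρ κ s t a b, σ.Hop ρ δ κ s t a b →
    σ.Good ρ κ s t → σ.Bad ρ κ s t → False := by
  obtain ⟨r, hr, hinj⟩ := σ.unif_inj
  obtain ⟨η, hη, hs⟩ := σ.small_lift hr
  refine ⟨η, hη, fun ρ κ s t a b h ⟨c, c1, c2, c3, c4⟩ ⟨d, d1, d2, d3⟩ => ?_⟩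
  have key : ∀ u₀ ∈ Icc s t, ∀ θ, κ u₀ = σ.γ ρ θ → c u₀ ∈ σ.D ρ → d u₀ ∈ σ.D ρ →
      ∀ u ∈ Icc s t, d u = c u := fun u₀ h0 θ e k1 k2 u hu => by
    have hB := σ.γ_B h.rad (θ - σ.α)
    have k3 : ∀ c : ℝ → ℂ, ContinuousOn c (Icc s t) → (∀ u ∈ Icc s t, σ.F (c u) = κ u) →
        c u₀ ∈ σ.D ρ → c u ∈ ball (σ.γ ρ (θ - σ.α)) r := fun c c1 c2 c3 =>
      hs _ hB _ isPreconnected_Icc c c1 u₀ h0 (X3_end h.rad.1 c3 ((c2 _ h0).trans e))
        (fun w hw => by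
          rw [c2 w hw, σ.F_γ h.rad.1, sub_add_cancel, ← e]
          exact h.small w hw u₀ h0) u hu
    exact (hinj _ hB).1 (k3 d d1 d2 k2) (k3 c c1 c2 k1) ((d2 u hu).trans (c2 u hu).symm)
  have k0 := left_mem_Icc.2 h.lt.le
  have k1 := right_mem_Icc.2 h.lt.le
  exact d3 ⟨fun k => key s k0 a h.start c3 k t k1 ▸ c4, fun k => key t k1 b h.stop c4 k s k0 ▸ c3⟩

end Sx

end Pool.Agent.Work.MP_042f46_an
end

-- merged part: Pool.Agent.Work.MP_042f46_an.X7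
section
/-!
# Strip coordinates for the region inside an invariant curve

Plans.  `exists_strip`: take `ψ, β` from `exists_unif` with `ψ 0 = x`; write `y = ψ (τ * e s₀)` with `0 ≤ τ < 1` (`exists_e`); put `T z = (exp z - I) / (exp z + I)` and `Ψ z = ψ (e s₀ * T z)`.  `T` is injective on the closed strip (`exp` is injective there since the imaginary parts differ by less than `2 π`), maps the open strip onto the unit ball (inverse `w ↦ log (I * (1 + w) / (1 - w))`), `T (L + π / 2 * I) = (exp L - 1) / (exp L + 1)`, `T x = e (-arctan (exp (-x)) / π)` and `T (x + π I) = e (arctan (exp (-x)) / π)` for real `x`.  So `a false x = β (s₀ - arctan (exp (-x)) / π)`, `a true x = β (s₀ + arctan (exp (-x)) / π)`, `ω₁ = β (s₀ - 1 / 2)`, `ω₂ = β s₀`.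
`Z_diff`: `inv_diff` on the open strip (the two inverse functions agree off `D`).  `path`: `Ψ` is continuous and injective on the compact rectangle `W`, so `Ψ '' W` is closed, contains `κ '' Icc s t`, and `Z` is continuous on it (a continuous injective map from a compact space is a closed embedding).
`omega`: with `γ_eq_iff`, the continuous function `a w` takes on `uIcc ξ₁ ξ₂` a value congruent to `ω₁ + θ` or `ω₂ + θ` (intermediate value theorem; `ω₁ < a' < ω₂ < b' < ω₁ + 1`).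
-/

open Set Metric Topology Filter

namespace Pool.Agent.Work.MP_042f46_an

/-- the open strip -/
def Sig : Set ℂ := {z | 0 < z.im ∧ z.im < Real.pi}

/-- the closed strip -/
def Sigc : Set ℂ := {z | 0 ≤ z.im ∧ z.im ≤ Real.pi}

/-- the heights of the two walls -/
noncomputable def ht (w : Bool) : ℝ := cond w Real.pi 0

/-- the point with given real and imaginary part -/
def pt (x y : ℝ) : ℂ := ⟨x, y⟩

theorem isOpen_Sig : IsOpen Sig := by
  exact (isOpen_lt continuous_const Complex.continuous_im).inter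
    (isOpen_lt Complex.continuous_im continuous_const)

theorem convex_Sig : Convex ℝ Sig := by
  exact (convex_halfSpace_im_gt 0).inter (convex_halfSpace_im_lt Real.pi)

theorem Sig_sub : Sig ⊆ Sigc := fun _ h => ⟨h.1.le, h.2.le⟩

theorem pt_eq (x y : ℝ) : pt x y = x + y * Complex.I := by
  exact Complex.mk_eq_add_mul_I x y

theorem hasDerivAt_pt (x y : ℝ) : HasDerivAt (pt x) Complex.I y := by
  have h : pt x = fun y : ℝ => (x : ℂ) + y * Complex.I := funext (pt_eq x)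
  rw [h]
  simpa using ((hasDerivAt_id y).ofReal_comp.mul_const Complex.I).const_add (x : ℂ)

theorem continuous_pt : Continuous fun p : ℝ × ℝ => pt p.1 p.2 := by
  simp only [pt_eq]
  fun_prop

/-- the map from the strip to the disc -/
noncomputable def X7_T (z : ℂ) : ℂ := (Complex.exp z - Complex.I) / (Complex.exp z + Complex.I)

theorem X7_im {z : ℂ} (hz : z ∈ Sigc) : 0 ≤ (Complex.exp z).im := by
  rw [Complex.exp_im]
  exact mul_nonneg (Real.exp_pos _).le (Real.sin_nonneg_of_nonneg_of_le_pi hz.1 hz.2)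

theorem X7_im' {z : ℂ} (hz : z ∈ Sig) : 0 < (Complex.exp z).im := by
  rw [Complex.exp_im]
  exact mul_pos (Real.exp_pos _) (Real.sin_pos_of_pos_of_lt_pi hz.1 hz.2)

theorem X7_ne {u : ℂ} (hu : 0 ≤ u.im) : u + Complex.I ≠ 0 := fun h => by
  have := congrArg Complex.im h
  simp only [Complex.add_im, Complex.I_im, Complex.zero_im] at this
  linarith only [hu, this]

theorem X7_sq (u : ℂ) : ‖u - Complex.I‖ ^ 2 = ‖u + Complex.I‖ ^ 2 - 4 * u.im := by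
  rw [Complex.sq_norm, Complex.sq_norm, Complex.normSq_apply, Complex.normSq_apply]
  simp
  ring

theorem X7_le {z : ℂ} (hz : z ∈ Sigc) : ‖X7_T z‖ ≤ 1 := by
  rw [X7_T, norm_div, div_le_one (norm_pos_iff.2 (X7_ne (X7_im hz)))]
  refine le_of_sq_le_sq ?_ (norm_nonneg _)
  rw [X7_sq]
  linarith only [hz, X7_im hz]

theorem X7_lt {z : ℂ} (hz : z ∈ Sig) : ‖X7_T z‖ < 1 := by
  rw [X7_T, norm_div, div_lt_one (norm_pos_iff.2 (X7_ne (X7_im' hz).le))]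
  refine lt_of_pow_lt_pow_left₀ 2 (norm_nonneg _) ?_
  rw [X7_sq]
  linarith only [hz, X7_im' hz]

theorem X7_diff {z : ℂ} (hz : z ∈ Sigc) : DifferentiableAt ℂ X7_T z :=
  (Complex.differentiableAt_exp.sub_const _).div (Complex.differentiableAt_exp.add_const _)
    (X7_ne (X7_im hz))

theorem X7_inj : InjOn X7_T Sigc := fun z hz w hw h => by
  rw [X7_T, X7_T, div_eq_div_iff (X7_ne (X7_im hz)) (X7_ne (X7_im hw))] at h
  refine Complex.exp_inj_of_neg_pi_lt_of_le_pi (by linarith only [hz, hz.1, Real.pi_pos]) hz.2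
    (by linarith [hw.1, Real.pi_pos]) hw.2 (mul_left_cancel₀ (two_ne_zero' ℂ)
      (mul_left_cancel₀ Complex.I_ne_zero ?_))
  linear_combination h

theorem X7_surj {w : ℂ} (hw : ‖w‖ < 1) : ∃ z ∈ Sig, X7_T z = w := by
  have h1 : 1 - w ≠ 0 := fun h => by
    rw [← sub_eq_zero.1 h, norm_one] at hw
    exact lt_irrefl _ hw
  obtain ⟨u, hu⟩ : ∃ u, u = Complex.I * (1 + w) / (1 - w) := ⟨_, rfl⟩
  have h2 : u * (1 - w) = Complex.I * (1 + w) := by rw [hu, div_mul_cancel₀ _ h1]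
  have h3 : u + Complex.I ≠ 0 := fun h => two_ne_zero' ℂ (mul_left_cancel₀ Complex.I_ne_zero (by
    linear_combination (1 - w) * h - h2))
  have h4 : u - Complex.I = w * (u + Complex.I) := by linear_combination h2
  have h5 : 0 < u.im := by
    have h6 := X7_sq u
    have h7 : 0 < ‖u + Complex.I‖ ^ 2 := pow_pos (norm_pos_iff.2 h3) 2
    have h8 : ‖w‖ ^ 2 < 1 := pow_lt_one₀ (norm_nonneg _) hw two_ne_zero
    rw [h4, norm_mul, mul_pow] at h6
    linarith only [h6, h7, h8, mul_pos_of_neg_of_neg (Mathlib.Tactic.Linarith.sub_neg_of_lt h7) (Mathlib.Tactic.Linarith.sub_neg_of_lt h8)]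
  have h6 : u ≠ 0 := fun h => by simp [h] at h5
  refine ⟨Complex.log u, ⟨?_, ?_⟩, ?_⟩
  · rw [Complex.log_im]
    exact lt_of_le_of_ne (Complex.arg_nonneg_iff.2 h5.le) fun h =>
      h5.ne' (Complex.arg_eq_zero_iff.1 h.symm).2
  · rw [Complex.log_im]
    exact Complex.arg_lt_pi_iff.2 (.inr h5.ne')
  · rw [X7_T, Complex.exp_log h6, h4, mul_div_cancel_right₀ _ h3]

theorem X7_cay {r θ : ℝ} (h : r * Real.sin θ = Real.cos θ) :
    ((r : ℂ) - Complex.I) / (r + Complex.I) = e (-θ / Real.pi) := by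
  have h0 : (Real.pi : ℂ) ≠ 0 := Complex.ofReal_ne_zero.2 Real.pi_ne_zero
  have h1 : 2 * (Real.pi : ℂ) * Complex.I * ((-θ / Real.pi : ℝ) : ℂ) =
      (-θ : ℂ) * Complex.I + (-θ : ℂ) * Complex.I := by
    push_cast
    field_simp
    ring
  have h2 : (r : ℂ) * Complex.sin θ = Complex.cos θ := by exact_mod_cast h
  have h3 := Complex.sin_sq_add_cos_sq (θ : ℂ)
  rw [e, h1, Complex.exp_add, Complex.exp_mul_I, Complex.cos_neg, Complex.sin_neg,
    div_eq_iff (X7_ne (by simp)), ← h2] at *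
  linear_combination (Complex.I - r) * h3 +
    (Complex.sin θ ^ 2 * (r - Complex.I)) * Complex.I_mul_I

theorem X7_tan (x : ℝ) : Real.exp x * Real.sin (Real.arctan (Real.exp (-x))) =
    Real.cos (Real.arctan (Real.exp (-x))) := by
  have h := Real.tan_mul_cos (Real.cos_arctan_pos (Real.exp (-x))).ne'
  rw [← h, Real.tan_arctan, ← mul_assoc, ← Real.exp_add, add_neg_cancel, Real.exp_zero, one_mul]

theorem X7_exp (x y : ℝ) : Complex.exp (pt x y) = Real.exp x * Complex.exp (y * Complex.I) := by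
  rw [pt_eq, Complex.exp_add, Complex.ofReal_exp]

theorem X7_bot (x : ℝ) : X7_T (pt x 0) = e (-Real.arctan (Real.exp (-x)) / Real.pi) := by
  rw [← X7_cay (X7_tan x), X7_T, X7_exp]
  simp

theorem X7_top (x : ℝ) : X7_T (pt x Real.pi) = e (Real.arctan (Real.exp (-x)) / Real.pi) := by
  have h := X7_cay (r := -Real.exp x) (θ := -Real.arctan (Real.exp (-x)))
    (by rw [Real.sin_neg, Real.cos_neg, neg_mul_neg, X7_tan])
  rw [neg_neg] at h
  rw [← h, X7_T, X7_exp, Complex.exp_pi_mul_I]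
  simp

theorem X7_mid (x : ℝ) :
    X7_T (pt x (Real.pi / 2)) = (((Real.exp x - 1) / (Real.exp x + 1) : ℝ) : ℂ) := by
  have h : ((Real.exp x : ℝ) : ℂ) + 1 ≠ 0 := by
    exact_mod_cast (by positivity : Real.exp x + 1 ≠ 0)
  rw [X7_T, X7_exp, Complex.ofReal_div Real.pi, Complex.ofReal_ofNat,
    Complex.exp_pi_div_two_mul_I, ← sub_one_mul, ← add_one_mul,
    mul_div_mul_right _ _ Complex.I_ne_zero]
  push_cast
  rfl

theorem X7_arc (x : ℝ) : 0 < Real.arctan (Real.exp (-x)) / Real.pi ∧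
    Real.arctan (Real.exp (-x)) / Real.pi < 1 / 2 :=
  ⟨div_pos (Real.arctan_pos.2 (Real.exp_pos _)) Real.pi_pos, by
    rw [div_lt_iff₀ Real.pi_pos]
    linarith only [Real.arctan_lt_pi_div_two (Real.exp (-x))]⟩

namespace Sx

/-- a conformal map from the strip onto the region inside the curve -/
structure Strip (σ : Sx) (ρ : ℝ) where
  Ψ : ℂ → ℂ
  a : Bool → ℝ → ℝ
  ω₁ : ℝ
  ω₂ : ℝ
  cont : ContinuousOn Ψ Sigc
  diff : DifferentiableOn ℂ Ψ Sig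
  inj : InjOn Ψ Sigc
  img : Ψ '' Sig = (σ.D ρ)ᶜ
  wall : ∀ w x, Ψ (pt x (ht w)) = σ.γ ρ (a w x)
  a_cont : ∀ w, Continuous (a w)
  a_bot : ∀ x, a false x ∈ Ioo ω₁ ω₂
  a_top : ∀ x, a true x ∈ Ioo ω₂ (ω₁ + 1)

variable {σ : Sx} {ρ : ℝ}

theorem exists_strip (hρ : 1 < ρ) {x y : ℂ} (hx : x ∉ σ.D ρ) (hy : y ∉ σ.D ρ) :
    ∃ (S : σ.Strip ρ) (L : ℝ), 0 ≤ L ∧ S.Ψ (pt 0 (Real.pi / 2)) = x ∧
      S.Ψ (pt L (Real.pi / 2)) = y := by
  obtain ⟨ψ, R, β, h1, h2, h3, h4, h5, h6, h7, h8, h9⟩ :=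
    exists_unif σ.φ_diff σ.φ_inj σ.φ_top hρ hx
  obtain ⟨w, hw, rfl⟩ : y ∈ ψ '' ball 0 1 := h4 ▸ hy
  rw [mem_ball_zero_iff] at hw
  obtain ⟨s, hs⟩ := exists_e w
  have hm : ∀ z ∈ Sigc, e s * X7_T z ∈ ball (0 : ℂ) R := fun z hz => by
    rw [mem_ball_zero_iff, Sg_norm]
    exact (X7_le hz).trans_lt h1
  have hd : DifferentiableOn ℂ (fun z => ψ (e s * X7_T z)) Sigc :=
    h2.comp (fun z hz => ((X7_diff hz).const_mul _).differentiableWithinAt) hm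
  have hw' : 0 < 1 - ‖w‖ := sub_pos.2 hw
  refine ⟨⟨fun z => ψ (e s * X7_T z), fun b x => β (s + cond b
    (Real.arctan (Real.exp (-x)) / Real.pi) (-Real.arctan (Real.exp (-x)) / Real.pi)),
    β (s - 1 / 2), β s, hd.continuousOn, hd.mono Sig_sub, fun z hz z' hz' h =>
      X7_inj hz hz' (mul_left_cancel₀ (Rot_e_ne s) (h3 (hm z hz) (hm z' hz') h)), ?_, ?_, ?_,
    fun x => ⟨h7 ?_, h7 ?_⟩, fun x => ⟨h7 ?_, ?_⟩⟩, Real.log ((1 + ‖w‖) / (1 - ‖w‖)), ?_, ?_, ?_⟩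
  · refine Eq.trans (subset_antisymm ?_ ?_) h4
    · rintro _ ⟨z, hz, rfl⟩
      exact ⟨_, Sg_ball (mem_ball_zero_iff.2 (X7_lt hz)) s, rfl⟩
    · rintro _ ⟨u, hu, rfl⟩
      obtain ⟨z, hz, h⟩ := X7_surj (mem_ball_zero_iff.1 (Sg_ball hu (-s)))
      refine ⟨z, hz, congrArg ψ ?_⟩
      rw [h, ← mul_assoc, ← e_add, add_neg_cancel]
      simp [e]
  · rintro (_ | _) x
    · exact (congrArg ψ (by rw [e_add]; exact congrArg _ (X7_bot x))).trans (h9 _)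
    · exact (congrArg ψ (by rw [e_add]; exact congrArg _ (X7_top x))).trans (h9 _)
  · rintro (_ | _)
    · exact h6.comp (by simp only [cond_false]; fun_prop)
    · exact h6.comp (by simp only [cond_true]; fun_prop)
  · rw [cond_false, neg_div]; linarith only [(X7_arc x).2]
  · rw [cond_false, neg_div]; linarith only [(X7_arc x).1]
  · rw [cond_true]; linarith only [(X7_arc x).1]
  · rw [← h8]
    refine h7 ?_
    rw [cond_true]; linarith only [(X7_arc x).2]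
  · refine Real.log_nonneg ?_
    rw [one_le_div hw']
    linarith only [norm_nonneg w]
  · show ψ (e s * X7_T (pt 0 (Real.pi / 2))) = x
    rw [X7_mid, ← h5]
    simp
  · show ψ (e s * X7_T (pt _ (Real.pi / 2))) = ψ w
    have h : ((1 + ‖w‖) / (1 - ‖w‖) - 1) / ((1 + ‖w‖) / (1 - ‖w‖) + 1) = ‖w‖ := by
      field_simp
      ring
    rw [X7_mid, Real.exp_log (by positivity), h, mul_comm, ← hs]

namespace Strip

variable (S : σ.Strip ρ)

/-- the strip coordinate -/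
noncomputable def Z : ℂ → ℂ := Function.invFunOn S.Ψ Sigc

/-- the vertical crosscut -/
def vert (x y : ℝ) : ℂ := S.Ψ (pt x y)

theorem Z_Ψ {z : ℂ} (hz : z ∈ Sigc) : S.Z (S.Ψ z) = z := by
  exact S.inj.leftInvOn_invFunOn hz

theorem Ψ_notMem {z : ℂ} (hz : z ∈ Sig) : S.Ψ z ∉ σ.D ρ := by
  exact S.img.subset ⟨z, hz, rfl⟩

theorem Z_mem {u : ℂ} (hu : u ∉ σ.D ρ) : S.Z u ∈ Sig ∧ S.Ψ (S.Z u) = u := by
  obtain ⟨z, hz, rfl⟩ := S.img.superset hu
  rw [S.Z_Ψ (Sig_sub hz)]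
  exact ⟨hz, rfl⟩

theorem Z_diff : DifferentiableOn ℂ S.Z (σ.D ρ)ᶜ := by
  rw [← S.img]
  refine (inv_diff isOpen_Sig S.diff (S.inj.mono Sig_sub)).congr ?_
  rintro _ ⟨z, hz, rfl⟩
  rw [S.Z_Ψ (Sig_sub hz), (S.inj.mono Sig_sub).leftInvOn_invFunOn hz]

theorem Z_inj : InjOn S.Z (σ.D ρ)ᶜ := by
  intro u hu v hv h
  rw [← (S.Z_mem hu).2, h, (S.Z_mem hv).2]

theorem wall_of_mem {z : ℂ} (hz : z ∈ Sigc) (h : S.Ψ z ∈ σ.D ρ) : ∃ w, z.im = ht w := by
  rcases hz.1.eq_or_lt with h1 | h1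
  · exact ⟨false, h1.symm⟩
  rcases hz.2.eq_or_lt with h2 | h2
  · exact ⟨true, h2⟩
  · exact absurd h (S.Ψ_notMem ⟨h1, h2⟩)

theorem path {κ : ℝ → ℂ} {s t p q : ℝ} (hst : s < t) (hκ : ContinuousOn κ (Icc s t))
    (h : ∀ u ∈ Ioo s t, κ u ∉ σ.D ρ ∧ (S.Z (κ u)).re ∈ Icc p q) :
    ContinuousOn (S.Z ∘ κ) (Icc s t) ∧ ∀ u ∈ Icc s t, S.Z (κ u) ∈ Sigc ∧
      (S.Z (κ u)).re ∈ Icc p q ∧ S.Ψ (S.Z (κ u)) = κ u := by
  have hW : IsCompact (Icc p q ×ℂ Icc 0 Real.pi) := isCompact_Icc.reProdIm isCompact_Icc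
  have hs : Icc p q ×ℂ Icc 0 Real.pi ⊆ Sigc := fun z hz => hz.2
  have h1 : MapsTo κ (Icc s t) (S.Ψ '' (Icc p q ×ℂ Icc 0 Real.pi)) := by
    rw [← closure_Ioo hst.ne] at hκ ⊢
    rw [← (hW.image_of_continuousOn (S.cont.mono hs)).isClosed.closure_eq]
    refine MapsTo.closure_of_continuousOn (fun u hu => ?_) hκ
    obtain ⟨h2, h3⟩ := S.Z_mem (h u hu).1
    exact ⟨_, ⟨(h u hu).2, Sig_sub h2⟩, h3⟩
  have h2 : ContinuousOn S.Z (S.Ψ '' (Icc p q ×ℂ Icc 0 Real.pi)) := by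
    refine continuousOn_iff_isClosed.2 fun T hT => ⟨S.Ψ '' (Icc p q ×ℂ Icc 0 Real.pi ∩ T),
      ((hW.inter_right hT).image_of_continuousOn
        (S.cont.mono (inter_subset_left.trans hs))).isClosed, subset_antisymm ?_ ?_⟩
    · rintro _ ⟨h3, z, hz, rfl⟩
      rw [mem_preimage, S.Z_Ψ (hs hz)] at h3
      exact ⟨⟨z, ⟨hz, h3⟩, rfl⟩, z, hz, rfl⟩
    · rintro _ ⟨⟨z, hz, rfl⟩, h3⟩
      refine ⟨?_, h3⟩
      rw [mem_preimage, S.Z_Ψ (hs hz.1)]
      exact hz.2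
  refine ⟨h2.comp hκ h1, fun u hu => ?_⟩
  obtain ⟨z, hz, h3⟩ := h1 hu
  rw [← h3, S.Z_Ψ (hs hz)]
  exact ⟨hs hz, hz.1, rfl⟩

theorem cont_vert (x : ℝ) : ContinuousOn (S.vert x) (Icc 0 Real.pi) := by
  exact S.cont.comp (continuous_pt.comp (Continuous.prodMk_right x)).continuousOn fun y hy => hy

theorem hop_vert (hρ : ρ ∈ Ioc (1 : ℝ) 2) {x δ : ℝ}
    (h : ∀ u ∈ Icc 0 Real.pi, ∀ u' ∈ Icc 0 Real.pi, dist (S.vert x u) (S.vert x u') < δ) :
    σ.Hop ρ δ (S.vert x) 0 Real.pi (S.a false x) (S.a true x) := by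
  exact ⟨hρ, Real.pi_pos, S.cont_vert x, S.wall false x, S.wall true x,
    fun u hu => S.Ψ_notMem hu, h⟩

theorem omega (hρ : 1 < ρ) (S' : σ.Strip ρ) {w : Bool} {ξ₁ ξ₂ x θ : ℝ}
    (h1 : σ.γ ρ (S.a w ξ₁) = σ.γ ρ (S'.a false x + θ))
    (h2 : σ.γ ρ (S.a w ξ₂) = σ.γ ρ (S'.a true x + θ)) :
    ∃ ξ ∈ uIcc ξ₁ ξ₂, S.Ψ (pt ξ (ht w)) = σ.γ ρ (S'.ω₁ + θ) ∨
      S.Ψ (pt ξ (ht w)) = σ.γ ρ (S'.ω₂ + θ) := by
  obtain ⟨m, hm⟩ := (σ.γ_eq_iff hρ).1 h1
  obtain ⟨n, hn⟩ := (σ.γ_eq_iff hρ).1 h2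
  obtain ⟨h3, h4⟩ := S'.a_bot x
  obtain ⟨h5, h6⟩ := S'.a_top x
  have key := intermediate_value_uIcc (a := ξ₁) (b := ξ₂) (S.a_cont w).continuousOn
  rcases le_or_gt m n with h | h
  · have h7 : (m : ℝ) ≤ n := by exact_mod_cast h
    obtain ⟨ξ, h8, h9⟩ := key (mem_uIcc_of_le (x := S'.ω₂ + θ + m) (by linarith only [hm, h4]) (by linarith only [hn, h5, h7]))
    exact ⟨ξ, h8, .inr ((S.wall w ξ).trans ((σ.γ_eq_iff hρ).2 ⟨m, by linarith only [h9]⟩))⟩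
  · have h7 : (n : ℝ) + 1 ≤ m := by exact_mod_cast h
    obtain ⟨ξ, h8, h9⟩ := key (mem_uIcc_of_ge (x := S'.ω₁ + θ + m) (by linarith only [hn, h6, h7]) (by linarith only [hm, h3]))
    exact ⟨ξ, h8, .inl ((S.wall w ξ).trans ((σ.γ_eq_iff hρ).2 ⟨m, by linarith only [h9]⟩))⟩

end Strip

end Sx

end Pool.Agent.Work.MP_042f46_an
end

-- merged part: Pool.Agent.Work.MP_042f46_an.Fam
section
/-!
# The grand orbit of a small disc in a wandering domain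

Plans.  `lift_one`: lift the restriction of `g` to the contractible space `ball x ρ` (`IsCoveringMapOn.existsUnique_continuousMap_lifts`, `Metric.contractibleSpace_ball`); near a point the lift is the composition of `g` with a local inverse of `F`
(`HasStrictDerivAt.localInverse`, `eventually_left_inverse`, `to_localInverse`; `AnalyticAt.hasStrictDerivAt`).  `lift_uniq`: `cov.isCoveringMap_restrictPreimage.eqOn_of_comp_eqOn`, or a clopen argument with local injectivity.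
`exists_disc`: for `v ∈ V` there is at most one `w ∈ W` with `F^[m] v = F^[n] w` for some `m n` (for `m ≤ m'` apply `F^[m' - m]`, then disjointness and injectivity); choose `x ∈ W` outside this finite set.
`exists_fam`: call `g` a branch if it is differentiable on `B` and `F^[m] (g u) = F^[n] u` on `B` for some `m n`.  The identity is a branch.  For a branch, `F^[j] (g u) ∉ V` for all `j` (for `j ≤ m` apply `F^[m - j]`; `(m + 1, n + 1)` also works), `F ∘ g` is a branch,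
and `lift_one` gives branches.  If `g u = g' u'` for branches then `u = u'` and `g = g'` on `B` (pass to a common `m`, use disjointness and injectivity, then `lift_uniq` by downward induction).
Take `ι = {y // ∃ g, branch g ∧ g x = y}`.  If `g u ∈ W` then `m = n`, `g u = u`, so `g` is the identity.
-/

open Set Metric Topology Filter

namespace Pool.Agent.Work.MP_042f46_an

variable {F : ℂ → ℂ} {V : Set ℂ}

theorem lift_one (cov : IsCoveringMapOn F Vᶜ)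
    (hF : ∀ z, F z ∉ V → AnalyticAt ℂ F z ∧ deriv F z ≠ 0) {x z : ℂ} {ρ : ℝ} {g : ℂ → ℂ}
    (hg : DifferentiableOn ℂ g (ball x ρ)) (hV : ∀ u ∈ ball x ρ, g u ∉ V) {u₀ : ℂ}
    (hu : u₀ ∈ ball x ρ) (hz : F z = g u₀) :
    ∃ g' : ℂ → ℂ, DifferentiableOn ℂ g' (ball x ρ) ∧ g' u₀ = z ∧ ∀ u ∈ ball x ρ, F (g' u) = g u := by
  have := contractibleSpace_ball (x := x) (pos_of_mem_ball hu)
  have := (isOpen_ball (x := x) (ε := ρ)).locallyPathConnectedSpace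
  obtain ⟨f, ⟨h0, hf⟩, -⟩ := cov.existsUnique_continuousMap_lifts
    ⟨(ball x ρ).domRestrict g, continuousOn_iff_continuous_domRestrict.1 hg.continuousOn⟩
    (a₀ := ⟨u₀, hu⟩) hz fun a => hV a a.2
  classical
  obtain ⟨g', hg'⟩ : ∃ g' : ℂ → ℂ, ∀ u : ball x ρ, g' u = f u :=
    ⟨fun u => if h : u ∈ ball x ρ then f ⟨u, h⟩ else 0, fun u => dif_pos u.2⟩
  have h1 : ∀ u ∈ ball x ρ, F (g' u) = g u := fun u h =>
    (congrArg F (hg' ⟨u, h⟩)).trans (congrFun hf ⟨u, h⟩)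
  have h2 : ContinuousOn g' (ball x ρ) := continuousOn_iff_continuous_domRestrict.2
    ((map_continuous f).congr fun u => (hg' u).symm)
  refine ⟨g', fun u h => ?_, (hg' ⟨u₀, hu⟩).trans h0, h1⟩
  have h3 := isOpen_ball.mem_nhds h
  obtain ⟨h4, h5⟩ := hF (g' u) (h1 u h ▸ hV u h)
  exact (HasDerivAt.of_comp_left (h2.continuousAt h3) h4.differentiableAt.hasDerivAt
    (hg.differentiableAt h3).hasDerivAt h5
    (mem_of_superset h3 h1)).differentiableAt.differentiableWithinAt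

theorem lift_uniq (cov : IsCoveringMapOn F Vᶜ) {B : Set ℂ} (hB : IsPreconnected B) {g g' : ℂ → ℂ}
    (hg : ContinuousOn g B) (hg' : ContinuousOn g' B) (hV : ∀ u ∈ B, F (g u) ∉ V)
    (h : ∀ u ∈ B, F (g u) = F (g' u)) {u₀ : ℂ} (hu : u₀ ∈ B) (h₀ : g u₀ = g' u₀) :
    EqOn g g' B := by
  have := isPreconnected_iff_preconnectedSpace.1 hB
  have h1 := cov.isCoveringMap_restrictPreimage.eq_of_comp_eq (A := B)
    (g₁ := fun u => ⟨g u, hV u u.2⟩) (g₂ := fun u => ⟨g' u, fun e => hV u u.2 (h u u.2 ▸ e)⟩)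
    ((continuousOn_iff_continuous_domRestrict.1 hg).subtype_mk _)
    ((continuousOn_iff_continuous_domRestrict.1 hg').subtype_mk _)
    (funext fun u => Subtype.ext (h u u.2)) ⟨u₀, hu⟩ (Subtype.ext h₀)
  exact fun u hu => congrArg Subtype.val (congrFun h1 ⟨u, hu⟩)

variable {W : Set ℂ}

theorem Fam_key (hi : ∀ n, InjOn F^[n] W)
    (hd : ∀ m n, m ≠ n → Disjoint (F^[m] '' W) (F^[n] '' W)) {y w w' : ℂ} (hw : w ∈ W)
    (hw' : w' ∈ W) {m n m' n' : ℕ} (e : F^[m] y = F^[n] w) (e' : F^[m'] y = F^[n'] w') :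
    w = w' ∧ m' + n = m + n' := by
  have h1 : F^[m' + n] w = F^[m + n'] w' := by
    rw [Function.iterate_add_apply, Function.iterate_add_apply, ← e, ← e',
      ← Function.iterate_add_apply, ← Function.iterate_add_apply, add_comm]
  have h2 : m' + n = m + n' := by_contra fun k =>
    disjoint_left.1 (hd _ _ k) ⟨w, hw, rfl⟩ ⟨w', hw', h1.symm⟩
  exact ⟨hi _ hw hw' (h2 ▸ h1), h2⟩

theorem exists_disc (hV : V.Finite) (hW : IsOpen W) (hne : W.Nonempty)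
    (hi : ∀ n, InjOn F^[n] W) (hd : ∀ m n, m ≠ n → Disjoint (F^[m] '' W) (F^[n] '' W)) :
    ∃ (x : ℂ) (ρ : ℝ), 0 < ρ ∧ ball x ρ ⊆ W ∧
      ∀ v ∈ V, ∀ m n, ∀ u ∈ ball x ρ, F^[m] v ≠ F^[n] u := by
  have h1 : (⋃ v ∈ V, {w ∈ W | ∃ m n, F^[m] v = F^[n] w}).Finite :=
    hV.biUnion fun v _ => Set.Subsingleton.finite fun w ⟨hw, m, n, e⟩ w' ⟨hw', m', n', e'⟩ =>
      (Fam_key hi hd hw hw' e e').1
  obtain ⟨w, hw⟩ := hne
  obtain ⟨x, hx⟩ := ((infinite_of_mem_nhds w (hW.mem_nhds hw)).sdiff h1).nonempty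
  obtain ⟨ρ, h2, h3⟩ := Metric.isOpen_iff.1 (hW.sdiff h1.isClosed) x hx
  exact ⟨x, ρ, h2, fun u hu => (h3 hu).1, fun v hv m n u hu e =>
    (h3 hu).2 (mem_biUnion hv ⟨(h3 hu).1, m, n, e⟩)⟩

/-- the branches of the grand orbit on the set `B` -/
structure Fam (F : ℂ → ℂ) (V B : Set ℂ) (ι : Type) where
  h : ι → ℂ → ℂ
  nx : ι → ι
  i₀ : ι
  diff : ∀ i, DifferentiableOn ℂ (h i) B
  inj : ∀ i j, ∀ u ∈ B, ∀ u' ∈ B, h i u = h j u' → i = j ∧ u = u'
  semi : ∀ i, ∀ u ∈ B, F (h i u) = h (nx i) u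
  surj : ∀ j, ∀ u ∈ B, ∀ z, F z = h j u → ∃ i, nx i = j ∧ h i u = z
  notV : ∀ i, ∀ u ∈ B, h i u ∉ V
  base : ∀ u ∈ B, h i₀ u = u

theorem exists_fam (hV : V.Finite) (cov : IsCoveringMapOn F Vᶜ)
    (hF : ∀ z, F z ∉ V → AnalyticAt ℂ F z ∧ deriv F z ≠ 0) (hW : IsOpen W) (hne : W.Nonempty)
    (hi : ∀ n, InjOn F^[n] W) (hd : ∀ m n, m ≠ n → Disjoint (F^[m] '' W) (F^[n] '' W)) :
    ∃ (x : ℂ) (ρ : ℝ) (ι : Type) (Φ : Fam F V (ball x ρ) ι), 0 < ρ ∧ ball x ρ ⊆ W ∧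
      (∀ i, ∀ u ∈ ball x ρ, ∃ m n, F^[m] (Φ.h i u) = F^[n] u) ∧
      ∀ i, ∀ u ∈ ball x ρ, Φ.h i u ∈ W → i = Φ.i₀ := by
  obtain ⟨x, ρ, hρ, hB, hx⟩ := exists_disc hV hW hne hi hd
  obtain ⟨Br, hBr⟩ : ∃ Br : (ℂ → ℂ) → Prop, ∀ g, Br g ↔ DifferentiableOn ℂ g (ball x ρ) ∧
    ∃ m n, ∀ u ∈ ball x ρ, F^[m] (g u) = F^[n] u := ⟨_, fun _ => Iff.rfl⟩
  have b0 : Br id := (hBr _).2 ⟨differentiableOn_id, 0, 0, fun _ _ => rfl⟩
  have b1 : ∀ g, Br g → ∀ j, ∀ u ∈ ball x ρ, F^[j] (g u) ∉ V := fun g hg j u hu h => by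
    obtain ⟨-, m, n, e⟩ := (hBr g).1 hg
    refine hx _ h m (j + n) u hu ?_
    rw [← Function.iterate_add_apply, add_comm, Function.iterate_add_apply, e u hu,
      Function.iterate_add_apply]
  have b2 : ∀ g, Br g → Br fun u => F (g u) := fun g hg => by
    obtain ⟨h1, m, n, e⟩ := (hBr g).1 hg
    refine (hBr _).2 ⟨fun u hu => (hF _ (b1 g hg 1 u hu)).1.differentiableAt.comp_differentiableWithinAt
      u (h1 u hu), m, n + 1, fun u hu => ?_⟩
    rw [← Function.iterate_succ_apply, Function.iterate_succ_apply', e u hu,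
      Function.iterate_succ_apply']
  have b3 : ∀ g, Br g → ∀ k, Br fun u => F^[k] (g u) := fun g hg k => by
    induction k with
    | zero => exact hg
    | succ k ih => simpa only [Function.iterate_succ_apply'] using b2 _ ih
  have b4 : ∀ g, Br g → ∀ g', Br g' → ∀ u ∈ ball x ρ, ∀ u' ∈ ball x ρ, g u = g' u' →
      u = u' ∧ EqOn g g' (ball x ρ) := by
    intro g hg g' hg' u hu u' hu' h
    obtain ⟨-, m, n, e⟩ := (hBr g).1 hg
    obtain ⟨-, m', n', e'⟩ := (hBr g').1 hg'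
    obtain ⟨rfl, h1⟩ := Fam_key hi hd (hB hu) (hB hu') (e u hu) (h ▸ e' u' hu')
    have h2 : ∀ k, (∀ w ∈ ball x ρ, F^[k] (g w) = F^[k] (g' w)) → EqOn g g' (ball x ρ) := by
      intro k
      induction k with
      | zero => exact id
      | succ k ih =>
        refine fun h3 => ih (lift_uniq cov (convex_ball x ρ).isPreconnected
          ((hBr _).1 (b3 g hg k)).1.continuousOn ((hBr _).1 (b3 g' hg' k)).1.continuousOn
          (fun w hw => b1 _ (b3 g hg k) 1 w hw) (fun w hw => ?_) hu (congrArg F^[k] h))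
        simpa only [Function.iterate_succ_apply'] using h3 w hw
    refine ⟨rfl, h2 (m + m') fun w hw => ?_⟩
    rw [Function.iterate_add_apply _ _ _ (g' w), e' w hw, add_comm, Function.iterate_add_apply,
      e w hw, ← Function.iterate_add_apply, ← Function.iterate_add_apply, h1]
  have hx0 : x ∈ ball x ρ := mem_ball_self hρ
  have b5 : ∀ i : {y // ∃ g, Br g ∧ g x = y}, ∃ g, Br g ∧ g x = i.1 := fun i => i.2
  choose h h1 h2 using b5
  have b6 : ∀ i g, Br g → g x = i.1 → EqOn (h i) g (ball x ρ) := fun i g hg e =>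
    (b4 _ (h1 i) g hg x hx0 x hx0 ((h2 i).trans e.symm)).2
  have b7 : ∀ i j, ∀ u ∈ ball x ρ, ∀ u' ∈ ball x ρ, h i u = h j u' → i = j ∧ u = u' :=
    fun i j u hu u' hu' e =>
      have k := b4 _ (h1 i) _ (h1 j) u hu u' hu' e
      ⟨Subtype.ext ((h2 i).symm.trans ((k.2 hx0).trans (h2 j))), k.1⟩
  refine ⟨x, ρ, _, ⟨h, fun i => ⟨F (h i x), _, b2 _ (h1 i), rfl⟩, ⟨x, id, b0, rfl⟩,
    fun i => ((hBr _).1 (h1 i)).1, b7, fun i u hu => (b6 _ _ (b2 _ (h1 i)) rfl hu).symm,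
    fun j u hu z hz => ?_, fun i => b1 _ (h1 i) 0, fun u hu => b6 _ id b0 rfl hu⟩, hρ, hB,
    fun i u hu => ?_, fun i u hu hw => ?_⟩
  · obtain ⟨k1, m, n, e⟩ := (hBr _).1 (h1 j)
    obtain ⟨g, k2, k3, k4⟩ := lift_one cov hF k1 (b1 _ (h1 j) 0) hu hz
    have k5 : Br g := (hBr _).2 ⟨k2, m + 1, n, fun w hw => by
      rw [Function.iterate_succ_apply, k4 w hw, e w hw]⟩
    have k6 := b6 ⟨g x, g, k5, rfl⟩ g k5 rfl
    exact ⟨⟨g x, g, k5, rfl⟩, Subtype.ext ((congrArg F (k6 hx0)).trans ((k4 x hx0).trans (h2 j))),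
      (k6 hu).trans k3⟩
  · obtain ⟨-, m, n, e⟩ := (hBr _).1 (h1 i)
    exact ⟨m, n, e u hu⟩
  · obtain ⟨-, m, n, e⟩ := (hBr _).1 (h1 i)
    have k := (Fam_key hi hd hw (hB hu) (m := 0) (n := 0) rfl (e u hu)).1
    exact (b7 i _ u hu u hu (k.trans (b6 ⟨x, id, b0, rfl⟩ id b0 rfl hu).symm)).1

end Pool.Agent.Work.MP_042f46_an
end

-- merged part: Pool.Agent.Work.MP_042f46_an.X8
section
/-!
# Lifts over windows of a strip

Plans.  `lift_uniq_iter`: induction on `k`; `F^[k] ∘ g` and `F^[k] ∘ g'` are lifts under the covering `F` of the same map with values off `V` (`IsCoveringMap.eqOn_of_comp_eqOn` for `cov.isCoveringMap_restrictPreimage`, compare `lift_uniq` in `Fam.lean`), and they miss `F^[i] '' V` for `i < k`.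
`lift_ex_iter`: induction on `k` with `IsCoveringMapOn.existsUnique_continuousMap_lifts` on the plane (first lift `Θ` to `Θ₁` with `Θ₁ z₀ = F^[k] p`).
`exists_win`: apply `lift_ex_iter` to `Θ z = Ψ (pt (clamp z.re) (clamp z.im))` (clamps onto `[p, q]` and `[0, π]`) with the base point `γ (a w p - k α)`; on the wall compare with `ξ ↦ γ (a w ξ - k α)` by `lift_uniq_iter` (`iter_γ`); for a path `g` as in the statement the start is `γ (a w ξ - k α)` since `F^[k]` is injective on `D` (`injOn_Ω`, `mapsTo_D`).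
`W_pull`: both paths are `Λ ∘ c`.  `W_same`, `W_cross`: `exists_win` with `k = 1` for the wall on which the lift has an end in `D`.  On the other wall `Λ` and `ξ ↦ γ (a w' ξ - α)` are two lifts; if `Λ` is in `D` at one point they agree there, hence everywhere.  `good_or_bad`: lift the path from `γ (a - α)` (`IsCoveringMapOn` path lifting, or `lift_ex_iter` with a clamp).
-/

open Set Metric Topology Filter

namespace Pool.Agent.Work.MP_042f46_an.Sx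

variable {σ : Sx} {ρ : ℝ}

theorem X8_uniq {A : Set ℝ} (hA : IsPreconnected A) {g g' : ℝ → ℂ} (hg : ContinuousOn g A)
    (hg' : ContinuousOn g' A) (hV : ∀ u ∈ A, σ.F (g u) ∉ σ.V)
    (h : ∀ u ∈ A, σ.F (g u) = σ.F (g' u)) {u₀ : ℝ} (hu : u₀ ∈ A) (h₀ : g u₀ = g' u₀) :
    EqOn g g' A := by
  have := isPreconnected_iff_preconnectedSpace.1 hA
  have h1 := σ.cov.isCoveringMap_restrictPreimage.eq_of_comp_eq (A := A)
    (g₁ := fun u => ⟨g u, hV u u.2⟩) (g₂ := fun u => ⟨g' u, fun e => hV u u.2 (h u u.2 ▸ e)⟩)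
    ((continuousOn_iff_continuous_domRestrict.1 hg).subtype_mk _)
    ((continuousOn_iff_continuous_domRestrict.1 hg').subtype_mk _)
    (funext fun u => Subtype.ext (h u u.2)) ⟨u₀, hu⟩ (Subtype.ext h₀)
  exact fun u hu => congrArg Subtype.val (congrFun h1 ⟨u, hu⟩)

theorem X8_clamp {s t : ℝ} (h : s ≤ t) : ∃ c : ℝ → ℝ, Continuous c ∧ (∀ u, c u ∈ Icc s t) ∧
    ∀ u ∈ Icc s t, c u = u :=
  ⟨fun u => max s (min u t), by fun_prop, fun u => ⟨le_max_left _ _, max_le h (min_le_right _ _)⟩,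
    fun u hu => by simp only [min_eq_left hu.2, max_eq_right hu.1]⟩

theorem X8_wall (x : ℝ) (w : Bool) : pt x (ht w) ∈ Sigc := by
  cases w <;> simp [Sigc, pt, ht, Real.pi_pos.le]

theorem X8_pt {z : ℂ} {y : ℝ} (h : z.im = y) : pt z.re y = z := h ▸ rfl

theorem lift_uniq_iter (k : ℕ) {A : Set ℝ} (hA : IsPreconnected A) {g g' : ℝ → ℂ}
    (hg : ∀ r ≤ k, ContinuousOn (σ.F^[r] ∘ g) A) (hg' : ∀ r ≤ k, ContinuousOn (σ.F^[r] ∘ g') A)
    (h : ∀ u ∈ A, σ.F^[k] (g u) = σ.F^[k] (g' u))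
    (hV : ∀ u ∈ A, ∀ i < k, σ.F^[k] (g u) ∉ σ.F^[i] '' σ.V) {u₀ : ℝ} (hu : u₀ ∈ A)
    (h0 : g u₀ = g' u₀) : EqOn g g' A := by
  induction k generalizing g g' with
  | zero => exact h
  | succ k ih =>
    refine X8_uniq hA (hg 0 (Nat.zero_le _)) (hg' 0 (Nat.zero_le _))
      (fun u hu e => hV u hu k k.lt_succ_self ⟨_, e, rfl⟩)
      (ih (g := σ.F ∘ g) (g' := σ.F ∘ g') (fun r hr => hg (r + 1) (by omega))
        (fun r hr => hg' (r + 1) (by omega)) h (fun u hu i hi => hV u hu i (by omega))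
        (congrArg σ.F h0)) hu h0

theorem lift_ex_iter (k : ℕ) {Θ : ℂ → ℂ} (hΘ : Continuous Θ)
    (hV : ∀ z, ∀ i < k, Θ z ∉ σ.F^[i] '' σ.V) {z₀ p : ℂ} (hp : σ.F^[k] p = Θ z₀) :
    ∃ Λ : ℂ → ℂ, (∀ r ≤ k, Continuous (σ.F^[r] ∘ Λ)) ∧ (∀ z, σ.F^[k] (Λ z) = Θ z) ∧
      Λ z₀ = p := by
  induction k generalizing p with
  | zero => exact ⟨Θ, fun r hr => by rwa [Nat.le_zero.1 hr], fun _ => rfl, hp.symm⟩
  | succ k ih =>
    obtain ⟨Λ, h1, h2, h3⟩ := ih (fun z i hi => hV z i (by omega)) (p := σ.F p) hp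
    obtain ⟨f, ⟨h0, hf⟩, -⟩ := σ.cov.existsUnique_continuousMap_lifts ⟨Λ, h1 0 (Nat.zero_le _)⟩
      (a₀ := z₀) h3.symm fun z e => hV z k k.lt_succ_self ⟨_, e, h2 z⟩
    have h4 : σ.F ∘ f = Λ := hf
    refine ⟨f, fun r hr => ?_, fun z => ?_, h0⟩
    · rcases r with _ | r
      · exact f.continuous
      · rw [Function.iterate_succ, Function.comp_assoc, h4]
        exact h1 r (by omega)
    · rw [Function.iterate_succ_apply, ← h2, ← h4, Function.comp_apply]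

theorem good_or_bad (hρ : 1 < ρ) {κ : ℝ → ℂ} {s t a : ℝ} (hst : s ≤ t)
    (hκ : ContinuousOn κ (Icc s t)) (h0 : κ s = σ.γ ρ a) (hV : ∀ u ∈ Icc s t, κ u ∉ σ.V) :
    σ.Good ρ κ s t ∨ σ.Bad ρ κ s t := by
  obtain ⟨c, c1, c2, c3⟩ := X8_clamp hst
  obtain ⟨Λ, h1, h2, h3⟩ := lift_ex_iter (σ := σ) 1 (Θ := fun z => κ (c z.re))
    (hκ.comp_continuous (c1.comp Complex.continuous_re) fun z => c2 _)
    (fun z i hi => by
      rw [Nat.lt_one_iff.1 hi, Function.iterate_zero, image_id]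
      exact hV _ (c2 _)) (z₀ := s) (p := σ.γ ρ (a - σ.α))
    (by rw [Function.iterate_one, σ.F_γ hρ, Complex.ofReal_re, c3 s ⟨le_rfl, hst⟩, h0,
      sub_add_cancel])
  have k1 : ContinuousOn (fun u : ℝ => Λ u) (Icc s t) :=
    ((h1 0 (Nat.zero_le _)).comp Complex.continuous_ofReal).continuousOn
  have k2 : ∀ u ∈ Icc s t, σ.F (Λ u) = κ u := fun u hu => by
    simpa [c3 u hu] using h2 u
  have k3 : Λ s ∈ σ.D ρ := h3 ▸ σ.γ_mem (by linarith only [hρ]) _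
  by_cases k : Λ t ∈ σ.D ρ
  exacts [.inl ⟨_, k1, k2, k3, k⟩, .inr ⟨_, k1, k2, fun e => k (e.1 k3)⟩]

namespace Strip

variable (S : σ.Strip ρ)

/-- the window over `[p, q]` contains no point of `T` -/
def Free (T : Set ℂ) (p q : ℝ) : Prop := ∀ z ∈ Sigc, z.re ∈ Icc p q → S.Ψ z ∉ T

/-- `κ` is the image of the path `c` in the window over `[p, q]` -/
def InW (p q : ℝ) (c κ : ℝ → ℂ) (A : Set ℝ) : Prop :=
  ContinuousOn c A ∧ ∀ u ∈ A, c u ∈ Sigc ∧ (c u).re ∈ Icc p q ∧ S.Ψ (c u) = κ u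

theorem exists_win (hρ : 1 < ρ) (k : ℕ) {p q : ℝ} (hpq : p ≤ q)
    (hf : ∀ i < k, S.Free (σ.F^[i] '' σ.V) p q) (w : Bool) :
    ∃ Λ : ℂ → ℂ, (∀ r ≤ k, Continuous (σ.F^[r] ∘ Λ)) ∧
      (∀ z ∈ Sigc, z.re ∈ Icc p q → σ.F^[k] (Λ z) = S.Ψ z) ∧
      (∀ ξ ∈ Icc p q, Λ (pt ξ (ht w)) = σ.γ ρ (S.a w ξ - k * σ.α)) ∧
      ∀ (A : Set ℝ) (c g : ℝ → ℂ), IsPreconnected A → S.InW p q c (σ.F^[k] ∘ g) A →
        (∀ r ≤ k, ContinuousOn (σ.F^[r] ∘ g) A) → ∀ u₀ ∈ A, g u₀ ∈ σ.D ρ → (c u₀).im = ht w →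
        ∀ u ∈ A, g u = Λ (c u) := by
  obtain ⟨c, c1, c2, c3⟩ := X8_clamp hpq
  obtain ⟨d, d1, d2, d3⟩ := X8_clamp Real.pi_pos.le
  have k0 : ∀ z ∈ Sigc, z.re ∈ Icc p q → pt (c z.re) (d z.im) = z := fun z hz hz' => by
    rw [c3 _ hz', d3 _ hz]
    rfl
  have k1 : ∀ ξ, σ.F^[k] (σ.γ ρ (S.a w ξ - k * σ.α)) = S.Ψ (pt ξ (ht w)) := fun ξ => by
    rw [σ.iter_γ hρ, sub_add_cancel, S.wall]
  obtain ⟨Λ, h1, h2, h3⟩ := lift_ex_iter (σ := σ) k (Θ := fun z => S.Ψ (pt (c z.re) (d z.im)))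
    (S.cont.comp_continuous (continuous_pt.comp ((c1.comp Complex.continuous_re).prodMk
      (d1.comp Complex.continuous_im))) fun z => d2 _)
    (fun z i hi => hf i hi _ (d2 _) (c2 _)) (z₀ := pt p (ht w))
    (p := σ.γ ρ (S.a w p - k * σ.α)) (by rw [k1, k0 _ (X8_wall p w) ⟨le_rfl, hpq⟩])
  have k2 : ∀ z ∈ Sigc, z.re ∈ Icc p q → σ.F^[k] (Λ z) = S.Ψ z := fun z hz hz' => by
    rw [h2, k0 z hz hz']
  have k3 : ∀ ξ ∈ Icc p q, Λ (pt ξ (ht w)) = σ.γ ρ (S.a w ξ - k * σ.α) :=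
    lift_uniq_iter (σ := σ) k isPreconnected_Icc (g := fun ξ => Λ (pt ξ (ht w)))
      (g' := fun ξ => σ.γ ρ (S.a w ξ - k * σ.α))
      (fun r hr => ((h1 r hr).comp (continuous_pt.comp
        (continuous_id.prodMk continuous_const))).continuousOn)
      (fun r _ => by
        simp only [Function.comp_def, σ.iter_γ hρ]
        exact ((σ.continuous_γ hρ).comp (((S.a_cont w).sub continuous_const).add
          continuous_const)).continuousOn)
      (fun ξ hξ => by rw [k2 _ (X8_wall ξ w) hξ, k1])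
      (fun ξ hξ i hi => by
        rw [k2 _ (X8_wall ξ w) hξ]
        exact hf i hi _ (X8_wall ξ w) hξ) ⟨le_rfl, hpq⟩ h3
  refine ⟨Λ, h1, k2, k3, fun A c g hA hc hg u₀ hu hD hw => ?_⟩
  have k4 : ∀ u ∈ A, σ.F^[k] (g u) = σ.F^[k] (Λ (c u)) := fun u hu => by
    obtain ⟨l1, l2, l3⟩ := hc.2 u hu
    exact l3.symm.trans (k2 _ l1 l2).symm
  refine lift_uniq_iter (σ := σ) k hA (g' := fun u => Λ (c u)) hg
    (fun r hr => (h1 r hr).comp_continuousOn hc.1) k4 (fun u hu i hi => ?_) hu ?_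
  · obtain ⟨l1, l2, -⟩ := hc.2 u hu
    rw [k4 u hu, k2 _ l1 l2]
    exact hf i hi _ l1 l2
  · refine (σ.injOn_Ω.mono (σ.D_sub hρ)).iterate (σ.mapsTo_D hρ) k hD ?_ (k4 u₀ hu)
    rw [← X8_pt hw, k3 _ (hc.2 u₀ hu).2.1]
    exact σ.γ_mem (by linarith only [hρ]) _

theorem W_pull (hρ : 1 < ρ) (k : ℕ) {p q : ℝ} (hf : ∀ i < k, S.Free (σ.F^[i] '' σ.V) p q)
    {w : Bool} {A₁ A₂ : Set ℝ} (hA₁ : IsPreconnected A₁) (hA₂ : IsPreconnected A₂)
    {c₁ c₂ g₁ g₂ : ℝ → ℂ} (h₁ : S.InW p q c₁ (σ.F^[k] ∘ g₁) A₁)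
    (h₂ : S.InW p q c₂ (σ.F^[k] ∘ g₂) A₂) (k₁ : ∀ r ≤ k, ContinuousOn (σ.F^[r] ∘ g₁) A₁)
    (k₂ : ∀ r ≤ k, ContinuousOn (σ.F^[r] ∘ g₂) A₂) {s₁ t₁ s₂ t₂ : ℝ} (hs₁ : s₁ ∈ A₁)
    (ht₁ : t₁ ∈ A₁) (hs₂ : s₂ ∈ A₂) (ht₂ : t₂ ∈ A₂) (d₁ : g₁ s₁ ∈ σ.D ρ) (d₂ : g₂ s₂ ∈ σ.D ρ)
    (w₁ : (c₁ s₁).im = ht w) (w₂ : (c₂ s₂).im = ht w) (e : c₁ t₁ = c₂ t₂) : g₁ t₁ = g₂ t₂ := by
  have hpq := (h₁.2 s₁ hs₁).2.1
  obtain ⟨Λ, -, -, -, h⟩ := S.exists_win hρ k (hpq.1.trans hpq.2) hf w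
  rw [h A₁ c₁ g₁ hA₁ h₁ k₁ s₁ hs₁ d₁ w₁ t₁ ht₁, h A₂ c₂ g₂ hA₂ h₂ k₂ s₂ hs₂ d₂ w₂ t₂ ht₂, e]

theorem X8_win (hρ : 1 < ρ) {p q : ℝ} (hpq : p ≤ q) (hf : S.Free σ.V p q) (w : Bool) :
    ∃ Λ : ℂ → ℂ, Continuous Λ ∧ (∀ z ∈ Sigc, z.re ∈ Icc p q → σ.F (Λ z) = S.Ψ z) ∧
      (∀ z : ℂ, z.re ∈ Icc p q → z.im = ht w → Λ z ∈ σ.D ρ) ∧
      ∀ (A : Set ℝ) (c g κ : ℝ → ℂ), IsPreconnected A → S.InW p q c κ A → ContinuousOn g A →
        (∀ u ∈ A, σ.F (g u) = κ u) → ∀ u₀ ∈ A, g u₀ ∈ σ.D ρ → (c u₀).im = ht w →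
        ∀ u ∈ A, g u = Λ (c u) := by
  obtain ⟨Λ, h1, h2, h3, h4⟩ := S.exists_win hρ 1 hpq (fun i hi => by
    rwa [Nat.lt_one_iff.1 hi, Function.iterate_zero, image_id]) w
  refine ⟨Λ, h1 0 (Nat.zero_le _), h2, fun z hz hw => ?_, fun A c g κ hA hc hg hκ => h4 A c g hA
    ⟨hc.1, fun u hu => ?_⟩ fun r hr => ?_⟩
  · rw [← X8_pt hw, h3 _ hz]
    exact σ.γ_mem (by linarith only [hρ]) _
  · obtain ⟨l1, l2, l3⟩ := hc.2 u hu
    exact ⟨l1, l2, l3.trans (hκ u hu).symm⟩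
  · rcases Nat.le_one_iff_eq_zero_or_eq_one.1 hr with rfl | rfl
    · exact hg
    · exact (S.cont.comp hc.1 fun u hu => (hc.2 u hu).1).congr fun u hu =>
        (hκ u hu).trans (hc.2 u hu).2.2.symm

theorem W_same (hρ : 1 < ρ) {p q s t : ℝ} (hf : S.Free σ.V p q) (hst : s ≤ t) {c κ : ℝ → ℂ}
    (h : S.InW p q c κ (Icc s t)) {w : Bool} (h1 : (c s).im = ht w) (h2 : (c t).im = ht w) :
    ¬ σ.Bad ρ κ s t := by
  rintro ⟨g, g1, g2, g3⟩
  have hs : s ∈ Icc s t := ⟨le_rfl, hst⟩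
  have ht' : t ∈ Icc s t := ⟨hst, le_rfl⟩
  have hpq := (h.2 s hs).2.1
  obtain ⟨Λ, -, -, h3, h4⟩ := S.X8_win hρ (hpq.1.trans hpq.2) hf w
  have h5 := h4 _ c g κ isPreconnected_Icc h g1 g2
  refine g3 ⟨fun k => ?_, fun k => ?_⟩
  · rw [h5 s hs k h1 t ht']
    exact h3 _ (h.2 t ht').2.1 h2
  · rw [h5 t ht' k h2 s hs]
    exact h3 _ hpq h1

theorem W_cross (hρ : 1 < ρ) {p q s t s' t' : ℝ} (hf : S.Free σ.V p q) (hst : s ≤ t)
    (hst' : s' ≤ t') {c κ c' κ' : ℝ → ℂ} (h : S.InW p q c κ (Icc s t))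
    (h' : S.InW p q c' κ' (Icc s' t')) {w w' : Bool} (h1 : (c s).im = ht w)
    (h2 : (c t).im = ht (!w)) (h1' : (c' s').im = ht w') (h2' : (c' t').im = ht (!w'))
    (hg : σ.Good ρ κ s t) : ¬ σ.Bad ρ κ' s' t' := by
  rintro ⟨g', g1', g2', g3'⟩
  obtain ⟨g, g1, g2, g3, g4⟩ := hg
  have hs : s ∈ Icc s t := ⟨le_rfl, hst⟩
  have ht' : t ∈ Icc s t := ⟨hst, le_rfl⟩
  have hpq := (h.2 s hs).2.1
  have key : ∀ v : Bool, ∀ a ∈ Icc s' t', ∀ b ∈ Icc s' t', (c' a).im = ht v →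
      (c' b).im = ht (!v) → g' a ∈ σ.D ρ → g' b ∈ σ.D ρ := by
    intro v a ha b hb k1 k2 k3
    obtain ⟨x, hx, y, hy, x1, y1, x2, y2⟩ : ∃ x ∈ Icc s t, ∃ y ∈ Icc s t, (c x).im = ht v ∧
        (c y).im = ht (!v) ∧ g x ∈ σ.D ρ ∧ g y ∈ σ.D ρ := by
      by_cases e : v = w
      · exact ⟨s, hs, t, ht', e ▸ h1, e ▸ h2, g3, g4⟩
      · obtain rfl : v = !w := Bool.eq_not_of_ne e
        exact ⟨t, ht', s, hs, h2, by rwa [Bool.not_not], g4, g3⟩
    obtain ⟨Λ, l1, l2, -, l4⟩ := S.X8_win hρ (hpq.1.trans hpq.2) hf v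
    obtain ⟨Λ', -, -, l3', l4'⟩ := S.X8_win hρ (hpq.1.trans hpq.2) hf (!v)
    have c1 : Continuous fun ξ => pt ξ (ht (!v)) :=
      continuous_pt.comp (continuous_id.prodMk continuous_const)
    have m1 := (h'.2 b hb).2.1
    have m2 := l4' (Icc p q) (fun ξ => pt ξ (ht (!v))) (fun ξ => Λ (pt ξ (ht (!v)))) _
      isPreconnected_Icc ⟨c1.continuousOn, fun ξ hξ => ⟨X8_wall _ _, hξ, rfl⟩⟩
      (l1.comp c1).continuousOn (fun ξ hξ => l2 _ (X8_wall _ _) hξ) _ (h.2 y hy).2.1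
      (by rwa [X8_pt y1, ← l4 _ c g κ isPreconnected_Icc h g1 g2 x hx x2 x1 y hy]) rfl _ m1
    rw [X8_pt k2] at m2
    rw [l4 _ c' g' κ' isPreconnected_Icc h' g1' g2' a ha k3 k1 b hb, m2]
    exact l3' _ m1 k2
  exact g3' ⟨key w' s' ⟨le_rfl, hst'⟩ t' ⟨hst', le_rfl⟩ h1' h2',
    key (!w') t' ⟨hst', le_rfl⟩ s' ⟨le_rfl, hst'⟩ h2' (by rwa [Bool.not_not])⟩

end Strip

end Pool.Agent.Work.MP_042f46_an.Sx
end

-- merged part: Pool.Agent.Work.MP_042f46_an.X4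
section
/-!
# Bad crosscuts with long orbits of crosscuts: reduction to short arcs, removal of the poles

Plans.  `iter_small`: induction on `N` with `unif` (the start `F^[k] (κ s)` is on the curve, hence in `B`).  `Hop.iter`: `iter_γ`.
`glue`: `κ u = c₁ u` for `u ≤ u₁` and `κ u = c₂ (u₂ - (u - u₁))` for `u ≥ u₁`, on `[s₁, u₁ + (u₂ - s₂)]`.  For the last part let `r` be a third of the radius of `unif_inj`, `c` the lift of `κ` in `ball (γ (a - α)) r` from `small_ex`; it starts at `γ (a - α)`; if it is not a witness of `Bad` it ends in `D`, so at `γ (b - α) = g₂ s₂`; `g₁`, `g₂` are small (`small_lift`), so `g₁ u₁` and `g₂ u₂` are both equal to `c u₁` by injectivity.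
`exists_tiny`: choose `j ≥ 1` and `m : ℤ` with `θ = j α - m ∈ (0, ε)` (`rot_cover` for `-α`).  Take a bad crosscut `κ` for `N + j`, normalise `b ∈ [a, a + 1)` (`Hop.norm`).  If `b - a < ε` or `a + 1 - b < ε` we are done (`Hop.shift`).  Otherwise `F^[j] ∘ κ` is a crosscut from `a + θ` to `b + θ`, and `Hop.link` gives `κ u = F^[j] (κ u')`.  Glue the initial parts (from `a` to `a + θ`) and the final parts (reversed paths, from `b` to `b + θ`).  If neither is bad: let `c`, `c'` be the small lifts of `κ` that start at `γ (a - α)`, end at `γ (b - α)`; both `c u` and `c' u` are equal to `F^[j - 1] (κ u')`, so `c` on `[s, u]` followed by `c'` on `[u, t]` shows `Good`, against `not_good_bad`.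
`exists_tr`: let `T = (card P + 1) * (N + 1) + 1`, `ε' ≤ ε₀ / 2` with `ε₀` from `rot_sep` for `T`.  Call `k ≤ T` a pole time if the closed up `F^[k] ∘ κ` encloses a pole.  One pole is enclosed at most once (`Hop.pos'`, `exists_far`, `rot_sep`), so there are at most `card P` pole times, and there is `k₀` with `k₀ + N ≤ T`, no pole time in `[k₀, k₀ + N]`, and `k₀ = 0` or `k₀ - 1` a pole time (take the least `k₀` without pole time in `[k₀, k₀ + N]`).  Use `bad_far` or `pole_far` and the crosscut `F^[k₀] ∘ κ`.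
-/

open Set Metric Topology Filter

namespace Pool.Agent.Work.MP_042f46_an.Sx

variable (σ : Sx)

/-- the first `N` images do not meet the invariant region -/
def Single (ρ : ℝ) (κ : ℝ → ℂ) (s t : ℝ) (N : ℕ) : Prop :=
  ∀ k ≤ N, ∀ u ∈ Ioo s t, σ.F^[k] (κ u) ∉ σ.D ρ

/-- the first `N` images of crosscuts of size `η` are continuous, of size `δ`, off the poles -/
def Small (N : ℕ) (η δ : ℝ) : Prop :=
  ∀ ρ κ s t a b, σ.Hop ρ η κ s t a b → ∀ k ≤ N, ContinuousOn (σ.F^[k] ∘ κ) (Icc s t) ∧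
    (∀ u ∈ Icc s t, σ.F^[k] (κ u) ∉ σ.P) ∧
    ∀ u ∈ Icc s t, ∀ u' ∈ Icc s t, dist (σ.F^[k] (κ u)) (σ.F^[k] (κ u')) < δ

theorem X4_iter (N : ℕ) {δ : ℝ} (hδ : 0 < δ) : ∃ η > 0, η ≤ δ ∧ ∀ z ∈ σ.B, ∀ k ≤ N,
    ∀ u ∈ ball z η, σ.F^[k] u ∉ σ.P ∧ dist (σ.F^[k] u) (σ.F^[k] z) < δ := by
  induction N with
  | zero =>
    obtain ⟨η, h0, h⟩ := σ.unif hδ
    refine ⟨min η δ, lt_min h0 hδ, min_le_right _ _, fun z hz k hk u hu => ?_⟩
    obtain rfl : k = 0 := by omega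
    exact ⟨(h z hz u (ball_subset_ball (min_le_left _ _) hu)).1,
      ball_subset_ball (min_le_right _ _) hu⟩
  | succ N ih =>
    obtain ⟨η₁, h1, -, h2⟩ := ih
    obtain ⟨η, h0, h⟩ := σ.unif h1
    refine ⟨min η δ, lt_min h0 hδ, min_le_right _ _, fun z hz k hk u hu => ?_⟩
    obtain ⟨h3, h4⟩ := h z hz u (ball_subset_ball (min_le_left _ _) hu)
    rcases k with _ | k
    · exact ⟨h3, ball_subset_ball (min_le_right _ _) hu⟩
    · exact h2 _ (σ.mapsTo_B hz) k (by omega) _ (h4 z (mem_ball_self h0))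

theorem iter_small (N : ℕ) {δ : ℝ} (hδ : 0 < δ) : ∃ η > 0, η ≤ δ ∧ σ.Small N η δ := by
  obtain ⟨η, h0, h1, h2⟩ := σ.X4_iter N (half_pos hδ)
  refine ⟨η, h0, by linarith only [h0, h1], fun ρ κ s t a b h => ?_⟩
  have hs : s ∈ Icc s t := left_mem_Icc.2 h.lt.le
  have hB : κ s ∈ σ.B := h.start ▸ σ.γ_B h.rad a
  have h3 : ∀ k ≤ N, ∀ u ∈ Icc s t, σ.F^[k] (κ u) ∉ σ.P ∧
      dist (σ.F^[k] (κ u)) (σ.F^[k] (κ s)) < δ / 2 := fun k hk u hu =>
    h2 _ hB k hk _ (h.small u hu s hs)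
  have h4 : ∀ k ≤ N, ContinuousOn (σ.F^[k] ∘ κ) (Icc s t) := by
    intro k hk
    induction k with
    | zero => exact h.cont
    | succ k ih =>
      rw [Function.iterate_succ']
      exact σ.F_cont.comp (ih (by omega)) fun u hu => (h3 k (by omega) u hu).1
  refine fun k hk => ⟨h4 k hk, fun u hu => (h3 k hk u hu).1, fun u hu u' hu' => ?_⟩
  linarith only [h3, hk, hu, hu', (h3 k hk u hu).2, (h3 k hk u' hu').2,
    dist_triangle_right (σ.F^[k] (κ u)) (σ.F^[k] (κ u')) (σ.F^[k] (κ s))]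

variable {σ} in
theorem Hop.iter {ρ η δ s t a b : ℝ} {κ : ℝ → ℂ} {N k : ℕ} (h : σ.Hop ρ η κ s t a b)
    (hs : σ.Small N η δ) (h1 : σ.Single ρ κ s t N) (hk : k ≤ N) :
    σ.Hop ρ δ (σ.F^[k] ∘ κ) s t (a + k * σ.α) (b + k * σ.α) := by
  obtain ⟨a1, -, a3⟩ := hs ρ κ s t a b h k hk
  exact ⟨h.rad, h.lt, a1, by rw [Function.comp_apply, h.start, σ.iter_γ h.rad.1],
    by rw [Function.comp_apply, h.stop, σ.iter_γ h.rad.1], h1 k hk, a3⟩

theorem X4_cat {f g : ℝ → ℂ} {s m t : ℝ} (hf : ContinuousOn f (Icc s m))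
    (hg : ContinuousOn g (Icc m t)) (e : f m = g m) : ∃ h : ℝ → ℂ, ContinuousOn h (Icc s t) ∧
      (∀ u ∈ Icc s m, h u = f u) ∧ ∀ u ∈ Icc m t, h u = g u := by
  have h1 : ∀ u ∈ Icc s m, (if u ≤ m then f u else g u) = f u := fun u hu => if_pos hu.2
  have h2 : ∀ u ∈ Icc m t, (if u ≤ m then f u else g u) = g u := fun u hu => by
    split_ifs with h
    · rw [le_antisymm h hu.1, e]
    · rfl
  exact ⟨fun u => if u ≤ m then f u else g u, ((hf.congr h1).union_of_isClosed (hg.congr h2)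
    isClosed_Icc isClosed_Icc).mono Icc_subset_Icc_union_Icc, h1, h2⟩

theorem X4_lift {r : ℝ} (hr : 0 < r) : ∃ η > 0, ∀ ρ δ κ s t a b, δ ≤ η → σ.Hop ρ δ κ s t a b →
    ∃ c : ℝ → ℂ, ContinuousOn c (Icc s t) ∧
      (∀ u ∈ Icc s t, dist (c u) (σ.γ ρ (a - σ.α)) < r ∧ σ.F (c u) = κ u) ∧
      c s = σ.γ ρ (a - σ.α) := by
  obtain ⟨r₀, h0, hi⟩ := σ.unif_inj
  obtain ⟨η, hη, h⟩ := σ.small_ex (lt_min hr h0)
  refine ⟨η, hη, fun ρ δ κ s t a b hδ H => ?_⟩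
  have hs : s ∈ Icc s t := left_mem_Icc.2 H.lt.le
  have hF : σ.F (σ.γ ρ (a - σ.α)) = κ s := by rw [σ.F_γ H.rad.1, sub_add_cancel, H.start]
  obtain ⟨c, hc, h1⟩ := h _ (σ.γ_B H.rad (a - σ.α)) _ κ H.cont fun u hu => by
    rw [hF]
    exact (H.small u hu s hs).trans_le hδ
  exact ⟨c, hc, fun u hu => ⟨(h1 u hu).1.trans_le (min_le_left _ _), (h1 u hu).2⟩,
    (hi _ (σ.γ_B H.rad _)).1 ((h1 s hs).1.trans_le (min_le_right _ _)) (mem_ball_self h0)
      ((h1 s hs).2.trans hF.symm)⟩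

theorem glue : ∃ δ₀ > 0, ∀ δ ≤ δ₀, ∀ ρ ∈ Ioc (1 : ℝ) 2, ∀ (c₁ c₂ : ℝ → ℂ) (s₁ u₁ s₂ u₂ a b : ℝ),
    s₁ < u₁ → s₂ < u₂ → ContinuousOn c₁ (Icc s₁ u₁) → ContinuousOn c₂ (Icc s₂ u₂) →
    c₁ s₁ = σ.γ ρ a → c₂ s₂ = σ.γ ρ b → c₁ u₁ = c₂ u₂ → (∀ u ∈ Ioc s₁ u₁, c₁ u ∉ σ.D ρ) →
    (∀ u ∈ Ioc s₂ u₂, c₂ u ∉ σ.D ρ) → (∀ u ∈ Icc s₁ u₁, dist (c₁ u) (c₁ u₁) < δ / 2) →
    (∀ u ∈ Icc s₂ u₂, dist (c₂ u) (c₂ u₂) < δ / 2) →
    ∃ κ s t, σ.Hop ρ δ κ s t a b ∧
      (∀ w ∈ Ioo s t, (∃ u ∈ Ioc s₁ u₁, κ w = c₁ u) ∨ ∃ u ∈ Ioc s₂ u₂, κ w = c₂ u) ∧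
      (σ.Bad ρ κ s t ∨ ∀ g₁ g₂ : ℝ → ℂ, ContinuousOn g₁ (Icc s₁ u₁) →
        ContinuousOn g₂ (Icc s₂ u₂) → (∀ u ∈ Icc s₁ u₁, σ.F (g₁ u) = c₁ u) →
        (∀ u ∈ Icc s₂ u₂, σ.F (g₂ u) = c₂ u) → g₁ s₁ ∈ σ.D ρ → g₂ s₂ ∈ σ.D ρ →
        g₁ u₁ = g₂ u₂) := by
  obtain ⟨r, hr, hi⟩ := σ.unif_inj
  obtain ⟨η₁, p1, hl⟩ := σ.X4_lift (half_pos hr)
  obtain ⟨η₂, p2, hsm⟩ := σ.small_lift (half_pos hr)
  refine ⟨min η₁ η₂, lt_min p1 p2, ?_⟩
  intro δ hδ ρ hρ c₁ c₂ s₁ u₁ s₂ u₂ a b l1 l2 k1 k2 e1 e2 e3 o1 o2 d1 d2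
  have hm : ∀ u ∈ Icc u₁ (u₁ + (u₂ - s₂)), u₂ - (u - u₁) ∈ Icc s₂ u₂ := fun u hu =>
    ⟨by linarith only [hu, hu.2], by linarith only [hu, hu.1]⟩
  obtain ⟨κ, hκ, f1, f2⟩ := X4_cat (f := c₁) (g := fun u => c₂ (u₂ - (u - u₁)))
    (t := u₁ + (u₂ - s₂)) k1 (k2.comp (by fun_prop) hm) (by simp [e3])
  have m1 : s₁ ∈ Icc s₁ u₁ := left_mem_Icc.2 l1.le
  have m2 : u₁ ∈ Icc s₁ u₁ := right_mem_Icc.2 l1.le
  have m3 : s₂ ∈ Icc s₂ u₂ := left_mem_Icc.2 l2.le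
  have m4 : u₂ ∈ Icc s₂ u₂ := right_mem_Icc.2 l2.le
  have near : ∀ u ∈ Icc s₁ (u₁ + (u₂ - s₂)), dist (κ u) (c₁ u₁) < δ / 2 := fun u hu => by
    rcases le_total u u₁ with h | h
    · rw [f1 u ⟨hu.1, h⟩]
      exact d1 u ⟨hu.1, h⟩
    · rw [f2 u ⟨h, hu.2⟩, e3]
      exact d2 _ (hm u ⟨h, hu.2⟩)
  have pts : ∀ w ∈ Ioo s₁ (u₁ + (u₂ - s₂)),
      (∃ u ∈ Ioc s₁ u₁, κ w = c₁ u) ∨ ∃ u ∈ Ioc s₂ u₂, κ w = c₂ u := fun u hu => by
    rcases le_total u u₁ with h | h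
    · exact .inl ⟨u, ⟨hu.1, h⟩, f1 u ⟨hu.1.le, h⟩⟩
    · exact .inr ⟨_, ⟨by linarith only [hu, hu.2], by linarith only [h]⟩, f2 u ⟨h, hu.2.le⟩⟩
  have H : σ.Hop ρ δ κ s₁ (u₁ + (u₂ - s₂)) a b := by
    refine ⟨hρ, by linarith only [l1, l2], hκ, (f1 _ m1).trans e1, ?_, fun u hu => ?_, fun u hu u' hu' => ?_⟩
    · rw [f2 _ ⟨by linarith, le_rfl⟩, ← e2]
      congr 1
      ring
    · rcases pts u hu with ⟨x, hx, e⟩ | ⟨x, hx, e⟩
      · exact e ▸ o1 x hx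
      · exact e ▸ o2 x hx
    · linarith only [near, hu, hu', near u hu, near u' hu', dist_triangle_right (κ u) (κ u') (c₁ u₁)]
  refine ⟨κ, _, _, H, pts, ?_⟩
  obtain ⟨c, hc, c1, c2⟩ := hl ρ δ κ _ _ a b (hδ.trans (min_le_left _ _)) H
  have mt : u₁ + (u₂ - s₂) ∈ Icc s₁ (u₁ + (u₂ - s₂)) := right_mem_Icc.2 H.lt.le
  have mu : u₁ ∈ Icc s₁ (u₁ + (u₂ - s₂)) := ⟨l1.le, by linarith only [l2]⟩
  have h0 : (0 : ℝ) ≤ ρ := by linarith only [hρ, hρ.1]
  by_cases hD : c (u₁ + (u₂ - s₂)) ∈ σ.D ρ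
  swap
  · exact .inl ⟨c, hc, fun u hu => (c1 u hu).2, fun h => hD (h.1 (c2 ▸ σ.γ_mem h0 _))⟩
  refine .inr fun g₁ g₂ q1 q2 q3 q4 q5 q6 => ?_
  have hF : ∀ x, σ.F (σ.γ ρ (x - σ.α)) = σ.γ ρ x := fun x => by rw [σ.F_γ hρ.1, sub_add_cancel]
  have hΩ : ∀ x ∈ σ.D ρ, ∀ y, σ.F x = σ.γ ρ y → x = σ.γ ρ (y - σ.α) := fun x hx y e =>
    σ.injOn_Ω (σ.D_sub hρ.1 hx) (σ.D_sub hρ.1 (σ.γ_mem h0 _)) (e.trans (hF y).symm)
  have hδ2 : δ ≤ η₂ := hδ.trans (min_le_right _ _)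
  have n1 := hsm _ (σ.γ_B hρ (a - σ.α)) _ isPreconnected_Icc g₁ q1 s₁ m1
    (hΩ _ q5 a ((q3 _ m1).trans e1)) (fun u hu => by
      rw [q3 u hu, hF, ← e1]
      linarith only [hδ2, d1, hu, m1, d1 u hu, d1 _ m1, dist_triangle_right (c₁ u) (c₁ s₁) (c₁ u₁)]) u₁ m2
  have n2 := hsm _ (σ.γ_B hρ (b - σ.α)) _ isPreconnected_Icc g₂ q2 s₂ m3
    (hΩ _ q6 b ((q4 _ m3).trans e2)) (fun u hu => by
      rw [q4 u hu, hF, ← e2]
      linarith only [hδ2, d2, hu, m3, d2 u hu, d2 _ m3, dist_triangle_right (c₂ u) (c₂ s₂) (c₂ u₂)]) u₂ m4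
  have n3 := (c1 _ mt).1
  rw [hΩ _ hD b ((c1 _ mt).2.trans H.stop)] at n3
  refine (hi _ (σ.γ_B hρ (a - σ.α))).1 (mem_ball.2 (by linarith only [hr, n1])) (mem_ball.2 ?_) ?_
  · linarith only [n2, n3, dist_triangle (g₂ u₂) (σ.γ ρ (b - σ.α)) (σ.γ ρ (a - σ.α))]
  · rw [q3 _ m2, q4 _ m4, e3]

/-- there are small bad crosscuts with long orbits of crosscuts -/
def NoAge : Prop :=
  ∀ (N : ℕ) (δ ρ₀ : ℝ), 0 < δ → 1 < ρ₀ → ∃ ρ ≤ ρ₀, ∃ κ s t a b, σ.Hop ρ δ κ s t a b ∧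
    σ.Bad ρ κ s t ∧ σ.Single ρ κ s t N

theorem X4_half : ∃ δ₀ > 0, ∀ δ ≤ δ₀, ∀ {ρ s t s' t' a b a' b' u u' : ℝ} {κ κ' g : ℝ → ℂ} {N : ℕ},
    σ.Hop ρ (δ / 2) κ s t a b → σ.Hop ρ (δ / 2) κ' s' t' a' b' → σ.Single ρ κ s t N →
    σ.Single ρ κ' s' t' N → u ∈ Ioo s t → u' ∈ Ioo s' t' → κ u = κ' u' →
    ContinuousOn g (Icc s' t') → (∀ x ∈ Icc s' t', σ.F (g x) = κ' x) → g s' ∈ σ.D ρ →
    (∃ κ₁ s₁ t₁, σ.Hop ρ δ κ₁ s₁ t₁ a a' ∧ σ.Bad ρ κ₁ s₁ t₁ ∧ σ.Single ρ κ₁ s₁ t₁ N) ∨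
      ∃ c : ℝ → ℂ, ContinuousOn c (Icc s t) ∧ (∀ x ∈ Icc s t, σ.F (c x) = κ x) ∧ c s ∈ σ.D ρ ∧
        c u = g u' := by
  obtain ⟨δ₀, p0, hg⟩ := σ.glue
  obtain ⟨η, p1, hl⟩ := σ.X4_lift one_pos
  refine ⟨min δ₀ η, lt_min p0 p1, ?_⟩
  intro δ hδ ρ s t s' t' a b a' b' u u' κ κ' g N H H' h1 h2 hu hu' e g1 g2 g3
  have i1 : Icc s u ⊆ Icc s t := Icc_subset_Icc_right hu.2.le
  have i2 : Icc s' u' ⊆ Icc s' t' := Icc_subset_Icc_right hu'.2.le
  have j1 : Ioc s u ⊆ Ioo s t := Ioc_subset_Ioo_right hu.2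
  have j2 : Ioc s' u' ⊆ Ioo s' t' := Ioc_subset_Ioo_right hu'.2
  obtain ⟨κ₁, s₁, t₁, q1, q2, q3⟩ := hg δ (hδ.trans (min_le_left _ _)) ρ H.rad κ κ' s u s' u' a a'
    hu.1 hu'.1 (H.cont.mono i1) (H'.cont.mono i2) H.start H'.start e
    (fun x hx => H.out x (j1 hx)) (fun x hx => H'.out x (j2 hx))
    (fun x hx => H.small x (i1 hx) u (Ioo_subset_Icc_self hu))
    fun x hx => H'.small x (i2 hx) u' (Ioo_subset_Icc_self hu')
  rcases q3 with q3 | q3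
  · refine .inl ⟨κ₁, s₁, t₁, q1, q3, fun k hk w hw => ?_⟩
    rcases q2 w hw with ⟨x, hx, e⟩ | ⟨x, hx, e⟩
    · exact e ▸ h1 k hk x (j1 hx)
    · exact e ▸ h2 k hk x (j2 hx)
  · have p2 := dist_nonneg.trans_lt (H.small u (Ioo_subset_Icc_self hu) u (Ioo_subset_Icc_self hu))
    obtain ⟨c, c1, c2, c3⟩ := hl ρ _ κ s t a b (by linarith only [p1, hδ, min_le_right δ₀ η]) H
    have c4 : c s ∈ σ.D ρ := c3 ▸ σ.γ_mem (by linarith only [H, H.rad.1]) _
    exact .inr ⟨c, c1, fun x hx => (c2 x hx).2, c4, q3 c g (c1.mono i1) (g1.mono i2)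
      (fun x hx => (c2 x (i1 hx)).2) (fun x hx => g2 x (i2 hx)) c4 g3⟩

theorem exists_tiny (h : σ.NoAge) (N : ℕ) {δ ε ρ₀ : ℝ} (hδ : 0 < δ) (hε : 0 < ε) (hρ : 1 < ρ₀) :
    ∃ ρ ≤ ρ₀, ∃ κ s t a b, σ.Hop ρ δ κ s t a b ∧ σ.Bad ρ κ s t ∧ σ.Single ρ κ s t N ∧
      |b - a| < ε := by
  obtain ⟨j, m, hθ⟩ := Rot_dense σ.irr.neg hε σ.α
  obtain ⟨θ, e⟩ : ∃ θ, θ = σ.α - j * -σ.α - m := ⟨_, rfl⟩
  rw [← e] at hθ
  obtain ⟨δ₀, p0, half⟩ := σ.X4_half
  obtain ⟨δ₁, p1, ngb⟩ := σ.not_good_bad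
  have p2 : 0 < min δ δ₀ := lt_min hδ p0
  obtain ⟨η, p3, l3, hs⟩ := σ.iter_small (j + 1) (half_pos p2)
  obtain ⟨ρ, hρ₀, κ, s, t, a, b₀, H₀, hb, h1⟩ := h (N + (j + 1)) _ ρ₀ (lt_min p3 p1) hρ
  obtain ⟨b, H, l1, l2, -⟩ := H₀.norm
  have hN : σ.Single ρ κ s t N := fun k hk => h1 k (by omega)
  have Hη := H.mono (min_le_left _ _)
  have Hh := Hη.mono l3
  have Hδ : σ.Hop ρ δ κ s t a b := Hh.mono (by linarith only [hδ, min_le_left δ δ₀])
  by_cases c1 : b - a < ε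
  · exact ⟨ρ, hρ₀, κ, s, t, a, b, Hδ, hb, hN, by rwa [abs_of_nonneg (by linarith only [l1])]⟩
  by_cases c2 : a + 1 - b < ε
  · refine ⟨ρ, hρ₀, κ, s, t, _, _, Hδ.shift 1 0, hb, hN, ?_⟩
    push_cast
    rw [abs_of_nonpos (by linarith only [l2])]
    linarith only [c2]
  have hj : σ.Single ρ κ s t (j + 1) := fun k hk => h1 k (by omega)
  have G := Hη.iter hs hj (Nat.le_succ j)
  have H' := (Hη.iter hs hj le_rfl).shift (-m) (-m)
  have e1 : ∀ x : ℝ, x + (j + 1 : ℕ) * σ.α + (-m : ℤ) = x + θ := fun x => by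
    rw [e]
    push_cast
    ring
  rw [e1, e1] at H'
  have hN' : σ.Single ρ (σ.F^[j + 1] ∘ κ) s t N := fun k hk u hu => by
    rw [Function.comp_apply, ← Function.iterate_add_apply]
    exact h1 _ (by omega) u hu
  obtain ⟨u, hu, u', hu', e2⟩ := Hh.link H' (by linarith only [hθ, hθ.1]) (by linarith only [c1, hθ, hθ.2])
    (by linarith only [hθ, hθ.1]) (by linarith only [c2, hθ, hθ.2])
  have h0 : (0 : ℝ) ≤ ρ := by linarith only [hε, l2, c1, H, H.rad.1]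
  have hF : ∀ x, σ.F ((σ.F^[j] ∘ κ) x) = (σ.F^[j + 1] ∘ κ) x := fun x =>
    (Function.iterate_succ_apply' _ _ _).symm
  have fin : ∀ x : ℝ, |x + θ - x| < ε := fun x => by
    rw [add_sub_cancel_left, abs_of_pos hθ.1]
    exact hθ.2
  have rev : ∀ x ∈ Ioo s t, -x ∈ Ioo (-t) (-s) := fun x hx =>
    ⟨neg_lt_neg hx.2, neg_lt_neg hx.1⟩
  have rev' : ∀ x ∈ Ioo (-t) (-s), -x ∈ Ioo s t := fun x hx =>
    ⟨by linarith only [hx, hx.2], by linarith only [hx, hx.1]⟩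
  rcases half _ (min_le_right δ δ₀) Hh H' hN hN' hu hu' e2 G.cont (fun x _ => hF x)
    (G.start ▸ σ.γ_mem h0 _) with ⟨κ₁, s₁, t₁, q1, q2, q3⟩ | ⟨c, q1, q2, q3, q4⟩
  · exact ⟨ρ, hρ₀, κ₁, s₁, t₁, _, _, q1.mono (min_le_left _ _), q2, q3, fin a⟩
  rcases half _ (min_le_right δ δ₀) Hh.rev H'.rev (fun k hk x hx => hN k hk _ (rev' x hx))
    (fun k hk x hx => hN' k hk _ (rev' x hx)) (rev u hu) (rev u' hu')
    (by simpa only [neg_neg] using e2) G.rev.cont (fun x _ => hF (-x))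
    (G.rev.start ▸ σ.γ_mem h0 _) with ⟨κ₁, s₁, t₁, r1, r2, r3⟩ | ⟨c', r1, r2, r3, r4⟩
  · exact ⟨ρ, hρ₀, κ₁, s₁, t₁, _, _, r1.mono (min_le_left _ _), r2, r3, fin b⟩
  have hm : ∀ x ∈ Icc u t, -x ∈ Icc (-t) (-s) := fun x hx =>
    ⟨neg_le_neg hx.2, neg_le_neg (hu.1.le.trans hx.1)⟩
  obtain ⟨g, g1, g2, g3⟩ := X4_cat (f := c) (g := fun x => c' (-x)) (t := t)
    (q1.mono (Icc_subset_Icc_right hu.2.le)) (r1.comp continuousOn_neg hm)
    (by rw [q4, r4, neg_neg])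
  refine (ngb ρ κ s t a b (H.mono (min_le_right _ _)) ⟨g, g1, fun x hx => ?_, ?_, ?_⟩ hb).elim
  · rcases le_total x u with h | h
    · rw [g2 x ⟨hx.1, h⟩, q2 x hx]
    · rw [g3 x ⟨h, hx.2⟩, r2 _ (hm x ⟨h, hx.2⟩), neg_neg]
  · rwa [g2 s ⟨le_rfl, hu.1.le⟩]
  · rwa [g3 t ⟨hu.2.le, le_rfl⟩]

/-- `x` is enclosed by a crosscut with a short arc whose first `N` images are crosscuts that enclose no pole -/
def Tr (N : ℕ) (δ ε ρ₀ : ℝ) (x : ℂ) : Prop :=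
  ∃ ρ ≤ ρ₀, ∃ κ s t a b, |b - a| < ε ∧ ¬ Out (σ.cl κ s t ρ a b) x ∧
    ∀ k ≤ N, σ.Hop ρ δ (σ.F^[k] ∘ κ) s t (a + k * σ.α) (b + k * σ.α) ∧
      ∀ p ∈ σ.P, Out (σ.cl (σ.F^[k] ∘ κ) s t ρ (a + k * σ.α) (b + k * σ.α)) p

theorem X4_window (P : Finset ℂ) (N : ℕ) (Q : ℕ → ℂ → Prop)
    (h : ∀ k k', k < k' → k' ≤ (P.card + 1) * (N + 1) → ∀ p ∈ P, Q k p → Q k' p → False) :
    ∃ k₀, k₀ + N ≤ (P.card + 1) * (N + 1) ∧ (∀ k ≤ N, ∀ p ∈ P, ¬ Q (k + k₀) p) ∧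
      (k₀ = 0 ∨ ∃ k, ∃ p ∈ P, k₀ = k + 1 ∧ Q k p) := by
  classical
  have ex : ∃ k₀, k₀ + N ≤ (P.card + 1) * (N + 1) ∧ ∀ k ≤ N, ∀ p ∈ P, ¬ Q (k + k₀) p := by
    by_contra hn
    push Not at hn
    have h1 : ∀ i : Fin (P.card + 1), ∃ k ≤ N, ∃ p ∈ P, Q (k + i * (N + 1)) p := fun i =>
      hn _ (by nlinarith only [i.2])
    choose k hk p hp hQ using h1
    have key : ∀ i j : Fin (P.card + 1), (i : ℕ) < j → p i ≠ p j := fun i j hij e =>
      h _ _ (by nlinarith only [hij, hk, hk i]) (by nlinarith only [hk, hk j, j.2]) _ (hp j) (e ▸ hQ i) (hQ j)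
    obtain ⟨i, -, j, -, hij, e⟩ := Finset.exists_ne_map_eq_of_card_lt_of_maps_to
      (s := Finset.univ) (t := P) (by simp) fun i _ => hp i
    rcases lt_or_gt_of_ne (Fin.val_ne_of_ne hij) with h2 | h2
    exacts [key i j h2 e, key j i h2 e.symm]
  obtain ⟨h1, h2⟩ := Nat.find_spec ex
  refine ⟨_, h1, h2, ?_⟩
  rcases Nat.eq_zero_or_eq_succ_pred (Nat.find ex) with h0 | h0
  · exact .inl h0
  have h3 := Nat.find_min ex (show (Nat.find ex).pred < Nat.find ex by omega)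
  push Not at h3
  obtain ⟨k, hk, p, hp, hQ⟩ := h3 (by omega)
  rcases k with _ | k
  · exact .inr ⟨_, p, hp, h0, by simpa using hQ⟩
  · exact (h2 k (by omega) p hp (by convert hQ using 1; omega)).elim

theorem exists_tr (h : σ.NoAge) (N : ℕ) {δ ε ρ₀ : ℝ} (hδ : 0 < δ) (hε : 0 < ε) (hρ : 1 < ρ₀) :
    ∃ v ∈ σ.V, v ∉ σ.K ∧ σ.Tr N δ ε ρ₀ v := by
  obtain ⟨T, hT⟩ : ∃ T, T = (σ.P_fin.toFinset.card + 1) * (N + 1) := ⟨_, rfl⟩
  obtain ⟨ε₀, p0, hsep⟩ := rot_sep σ.irr T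
  obtain ⟨δ₁, p1, ρ₁, r1, bf⟩ := σ.bad_far
  obtain ⟨δ₂, p2, ρ₂, r2, pf⟩ := σ.pole_far
  obtain ⟨δ₃, p3, far⟩ := σ.exists_far σ.P_fin σ.P_K
  obtain ⟨δ', p4, d0, d1, d2, d3⟩ : ∃ δ' > 0, δ' ≤ δ ∧ δ' ≤ δ₁ ∧ δ' ≤ δ₂ ∧ 4 * δ' ≤ δ₃ :=
    ⟨min (min δ δ₁) (min δ₂ (δ₃ / 4)), by positivity, (min_le_left _ _).trans (min_le_left _ _),
      (min_le_left _ _).trans (min_le_right _ _), (min_le_right _ _).trans (min_le_left _ _), by
        linarith only [min_le_right (min δ δ₁) (min δ₂ (δ₃ / 4)), min_le_right δ₂ (δ₃ / 4)]⟩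
  obtain ⟨η, p5, l5, hs⟩ := σ.iter_small T p4
  obtain ⟨ρ, hρ', κ, s, t, a, b, H, hb, h1, hab⟩ := σ.exists_tiny h T p5
    (show 0 < min ε (min (ε₀ / 2) 1) by positivity) (lt_min hρ (lt_min r1 r2))
  simp only [le_min_iff] at hρ'
  simp only [lt_min_iff] at hab
  have G : ∀ k ≤ T, σ.Hop ρ δ' (σ.F^[k] ∘ κ) s t (a + k * σ.α) (b + k * σ.α) :=
    fun k hk => H.iter hs h1 hk
  have ab : ∀ x : ℝ, b + x - (a + x) = b - a := fun x => by ring
  obtain ⟨k₀, k1, k2, k3⟩ := X4_window σ.P_fin.toFinset N (fun k p =>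
      ¬ Out (σ.cl (σ.F^[k] ∘ κ) s t ρ (a + k * σ.α) (b + k * σ.α)) p) fun k k' hk hk' p hp o o' => by
    rw [← hT] at hk'
    obtain ⟨m, hm⟩ := (G k (by omega)).pos' (G k' hk') o o' fun z hz =>
      d3.trans (far p (σ.P_fin.mem_toFinset.1 hp) z hz)
    have h2 := hsep (k' - k) (by omega) (by omega) m
    rw [Nat.cast_sub hk.le] at h2
    rw [ab, ab, show a + k' * σ.α - (a + k * σ.α) = (k' - k) * σ.α by ring] at hm
    linarith only [hab, hm, h2, hab.2.1]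
  rw [← hT] at k1
  obtain ⟨v, v1, v2, v3⟩ : ∃ v ∈ σ.V, v ∉ σ.K ∧
      ¬ Out (σ.cl (σ.F^[k₀] ∘ κ) s t ρ (a + k₀ * σ.α) (b + k₀ * σ.α)) v := by
    rcases k3 with rfl | ⟨k, p, hp, rfl, o⟩
    · exact bf ρ hρ'.2.1 _ s t _ _ ((G 0 (by omega)).mono d1) hb
    · have e : ∀ x : ℝ, x + (k + 1 : ℕ) * σ.α = x + k * σ.α + σ.α := fun x => by
        push_cast
        ring
      have G' := (G (k + 1) (by omega)).mono d2
      rw [e, e, Function.iterate_succ'] at G' ⊢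
      exact pf ρ hρ'.2.2 _ s t _ _ ((G k (by omega)).mono d2) G' (by rw [ab]; exact hab.2.2.le) p
        (σ.P_fin.mem_toFinset.1 hp) o
  refine ⟨v, v1, v2, ρ, hρ'.1, _, s, t, _, _, by rw [ab]; exact hab.1, v3, fun k hk => ?_⟩
  have e : ∀ x : ℝ, x + k₀ * σ.α + k * σ.α = x + (k + k₀ : ℕ) * σ.α := fun x => by
    push_cast
    ring
  rw [e, e, ← Function.comp_assoc, ← Function.iterate_add]
  exact ⟨(G _ (by omega)).mono d0, fun p hp =>
    not_not.1 (k2 k hk p (σ.P_fin.mem_toFinset.2 hp))⟩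

end Pool.Agent.Work.MP_042f46_an.Sx
end

-- merged part: Pool.Agent.Work.MP_042f46_an.Area
section
/-!
# Area estimates for disjoint univalent images of a disc

Plans.  `norm_le_area`: polar coordinates centred at `u` (`Complex.lintegral_comp_polarCoord_symm`, `lintegral_add_left_eq_self`) and the mean value property on circles
(`circleAverage_of_differentiable_on`, or `Complex.circleIntegral_sub_inv_smul_of_differentiable_on_off_countable`).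
`lintegral_univ_img`: `lintegral_image_eq_lintegral_abs_det_fderiv_mul`; the determinant of multiplication by `c` is `‖c‖ ^ 2`.
`small_ball`: `‖z‖⁻¹` is integrable on the unit ball (`integrableOn_ball_of_norm_le_rpow`), so its integral over `ball 0 t` tends to zero; translate.
`tail_bound`: let `A i = h i '' B` (open or at least measurable by `MeasurableSet.image_of_continuousOn_injOn`, pairwise disjoint, inside `closedBall 0 R`), so `∑' i, volume (A i) < ∞` (`tsum_meas_le_meas_iUnion_of_disjoint`/`sum_measure_le_measure_univ` for finite sums) and the tails are small.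
By the first two lemmas, applied to `u' ↦ h' u' ^ 2 / (w - h u')` on `ball u (ρ / 2)`, the sum over `T'` is at most `c ∫⁻ z in ⋃ i ∈ T', A i, ‖w - z‖⁻¹ ≤ c (∫⁻ z in ball w t, ‖w - z‖⁻¹ + volume (⋃ ..) / t)`.
`summable_sq`: the same with the function `h' ^ 2` (`summable_of_sum_le`).  `rest_unif`: Cauchy criterion from `tail_bound`.
-/

open Set Metric Topology Filter MeasureTheory
open scoped ENNReal

namespace Pool.Agent.Work.MP_042f46_an

theorem Area_polar (F : ℂ → ℝ≥0∞) (u : ℂ) (s : ℝ) : ∫⁻ z in ball u s, F z =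
    ∫⁻ p in Ioo 0 s ×ˢ Ioo (-Real.pi) Real.pi, ENNReal.ofReal p.1 * F (circleMap u p.1 p.2) := by
  have hm : MeasurableSet (Ioo 0 s ×ˢ Ioo (-Real.pi) Real.pi : Set (ℝ × ℝ)) :=
    measurableSet_Ioo.prod measurableSet_Ioo
  have hsub : (Ioo 0 s ×ˢ Ioo (-Real.pi) Real.pi : Set (ℝ × ℝ)) ⊆ polarCoord.target :=
    fun p hp => ⟨hp.1.1, hp.2⟩
  rw [← lintegral_indicator measurableSet_ball, ← lintegral_add_left_eq_self _ u,
    ← Complex.lintegral_comp_polarCoord_symm, ← inter_eq_left.2 hsub,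
    ← Measure.restrict_restrict hm, ← lintegral_indicator hm]
  refine setLIntegral_congr_fun polarCoord.open_target.measurableSet fun p hp => ?_
  have h1 : 0 < p.1 := hp.1
  have e : u + Complex.polarCoord.symm p = circleMap u p.1 p.2 := by
    rw [Complex.polarCoord_symm_apply, circleMap, Complex.exp_mul_I, Complex.ofReal_cos,
      Complex.ofReal_sin]
  have e2 : circleMap u p.1 p.2 ∈ ball u s ↔ p.1 < s := by
    rw [mem_ball, dist_eq_norm, circleMap_sub_center, norm_circleMap_zero, abs_of_pos h1]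
  simp only [e, smul_eq_mul]
  by_cases h2 : p.1 < s
  · have h3 : p ∈ Ioo 0 s ×ˢ Ioo (-Real.pi) Real.pi := ⟨⟨h1, h2⟩, hp.2⟩
    rw [indicator_of_mem (e2.2 h2), indicator_of_mem h3]
  · rw [indicator_of_notMem fun k => h2 (e2.1 k), indicator_of_notMem fun k => h2 k.1.2, mul_zero]

theorem Area_circle {g : ℂ → ℂ} {u : ℂ} {s r : ℝ} (hg : DifferentiableOn ℂ g (ball u s))
    (hr : r ∈ Ioo 0 s) : ENNReal.ofReal (2 * Real.pi) * ‖g u‖ₑ ≤
      ∫⁻ θ in Ioo (-Real.pi) Real.pi, ‖g (circleMap u r θ)‖ₑ := by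
  have hπ := Real.pi_pos
  have h1 : DiffContOnCl ℂ g (ball u |r|) := by
    rw [abs_of_pos hr.1]
    exact (hg.mono (closure_ball_subset_closedBall.trans (closedBall_subset_ball hr.2))).diffContOnCl
  have h2 := h1.circleAverage
  rw [Real.circleAverage_eq_integral_add (-Real.pi),
    intervalIntegral.integral_comp_add_right (fun θ => g (circleMap u r θ)), zero_add,
    show 2 * Real.pi + -Real.pi = Real.pi by ring,
    intervalIntegral.integral_of_le (by linarith only [hπ]), integral_Ioc_eq_integral_Ioo] at h2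
  refine le_trans (le_of_eq ?_) (enorm_integral_le_lintegral_enorm _)
  rw [← h2, enorm_smul, ← mul_assoc, Real.enorm_eq_ofReal (by positivity),
    ← ENNReal.ofReal_mul (by positivity), mul_inv_cancel₀ (by positivity), ENNReal.ofReal_one,
    one_mul]

theorem norm_le_area {g : ℂ → ℂ} {u : ℂ} {s : ℝ} (hs : 0 < s)
    (hg : DifferentiableOn ℂ g (ball u s)) :
    ENNReal.ofReal (Real.pi * s ^ 2) * ‖g u‖ₑ ≤ ∫⁻ z in ball u s, ‖g z‖ₑ := by
  have hπ := Real.pi_pos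
  have hm : MeasurableSet (Ioo 0 s ×ˢ Ioo (-Real.pi) Real.pi : Set (ℝ × ℝ)) :=
    measurableSet_Ioo.prod measurableSet_Ioo
  have hc : ContinuousOn (fun p : ℝ × ℝ => g (circleMap u p.1 p.2))
      (Ioo 0 s ×ˢ Ioo (-Real.pi) Real.pi) := by
    refine hg.continuousOn.comp (Continuous.continuousOn (by unfold circleMap; fun_prop))
      fun p hp => ?_
    rw [mem_ball, dist_eq_norm, circleMap_sub_center, norm_circleMap_zero, abs_of_pos hp.1.1]
    exact hp.1.2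
  have ha : AEMeasurable (fun p : ℝ × ℝ => ENNReal.ofReal p.1 * ‖g (circleMap u p.1 p.2)‖ₑ)
      (volume.restrict (Ioo 0 s ×ˢ Ioo (-Real.pi) Real.pi)) :=
    measurable_fst.ennreal_ofReal.aemeasurable.mul (hc.aemeasurable hm).enorm
  rw [Measure.volume_eq_prod] at ha
  rw [Area_polar, Measure.volume_eq_prod, setLIntegral_prod _ ha]
  have h1 : ∫⁻ r in Ioo 0 s, ENNReal.ofReal r = ENNReal.ofReal (s ^ 2 / 2) := by
    rw [← ofReal_integral_eq_lintegral_ofReal, ← integral_Ioc_eq_integral_Ioo,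
      ← intervalIntegral.integral_of_le hs.le, integral_id]
    · norm_num
    · exact (continuous_id.integrableOn_Icc (a := 0) (b := s)).mono_set Ioo_subset_Icc_self
    · exact (ae_restrict_mem measurableSet_Ioo).mono fun r hr => hr.1.le
  calc ENNReal.ofReal (Real.pi * s ^ 2) * ‖g u‖ₑ
      = ∫⁻ r in Ioo 0 s, ENNReal.ofReal r * (ENNReal.ofReal (2 * Real.pi) * ‖g u‖ₑ) := by
        rw [lintegral_mul_const _ ENNReal.measurable_ofReal, h1, ← mul_assoc,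
          ← ENNReal.ofReal_mul (by positivity)]
        congr 2
        ring
    _ ≤ _ := by
        refine setLIntegral_mono' measurableSet_Ioo fun r hr => ?_
        dsimp only
        rw [lintegral_const_mul' _ _ ENNReal.ofReal_ne_top]
        exact mul_le_mul_right (Area_circle hg hr) _

theorem lintegral_univ_img {h : ℂ → ℂ} {B : Set ℂ} (hB : IsOpen B) (hh : DifferentiableOn ℂ h B)
    (hi : InjOn h B) (k : ℂ → ℝ≥0∞) :
    ∫⁻ z in h '' B, k z = ∫⁻ u in B, ‖deriv h u‖ₑ ^ 2 * k (h u) := by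
  rw [lintegral_image_eq_lintegral_abs_det_fderiv_mul volume hB.measurableSet
    (f' := fun u => deriv h u • (1 : ℂ →L[ℝ] ℂ)) (fun u hu =>
      ((hh.differentiableAt (hB.mem_nhds hu)).hasDerivAt.complexToReal_fderiv).hasFDerivWithinAt) hi]
  refine lintegral_congr fun u => ?_
  have e : ((deriv h u • (1 : ℂ →L[ℝ] ℂ) : ℂ →L[ℝ] ℂ) : ℂ →ₗ[ℝ] ℂ) =
      Algebra.lmul ℝ ℂ (deriv h u) := LinearMap.ext fun z => rfl
  rw [ContinuousLinearMap.det, e, ← Algebra.norm_apply, Algebra.norm_complex_apply,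
    Complex.normSq_eq_norm_sq, abs_of_nonneg (sq_nonneg _), ENNReal.ofReal_pow (norm_nonneg _),
    ofReal_norm]

theorem small_ball {ε : ℝ≥0∞} (hε : 0 < ε) :
    ∃ t > 0, ∀ w : ℂ, ∫⁻ z in ball w t, ‖(w - z)⁻¹‖ₑ ≤ ε := by
  have hπ := Real.pi_pos
  obtain ⟨δ, -, h1, h2⟩ := ENNReal.lt_iff_exists_real_btwn.1 hε
  have hδ := ENNReal.ofReal_pos.1 h1
  refine ⟨δ / (2 * Real.pi), by positivity, fun w => le_trans ?_ h2.le⟩
  rw [Area_polar]
  refine (setLIntegral_mono' (g := fun _ => 1) (measurableSet_Ioo.prod measurableSet_Ioo)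
    fun p hp => ?_).trans (le_of_eq ?_)
  · rw [← ofReal_norm, norm_inv, norm_sub_rev, circleMap_sub_center, norm_circleMap_zero,
      abs_of_pos hp.1.1, ← ENNReal.ofReal_mul hp.1.1.le, mul_inv_cancel₀ hp.1.1.ne',
      ENNReal.ofReal_one]
  · rw [setLIntegral_one, Measure.volume_eq_prod, Measure.prod_prod, Real.volume_Ioo,
      Real.volume_Ioo, ← ENNReal.ofReal_mul (by rw [sub_zero]; positivity)]
    congr 1
    field_simp
    ring

variable {ι : Type} {h : ι → ℂ → ℂ} {x u : ℂ} {ρ R : ℝ}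
  (hd : ∀ i, DifferentiableOn ℂ (h i) (ball x ρ))
  (hi : ∀ i j, ∀ u ∈ ball x ρ, ∀ u' ∈ ball x ρ, h i u = h j u' → i = j ∧ u = u')
  (hR : ∀ i, ∀ u ∈ ball x ρ, ‖h i u‖ ≤ R) (hu : u ∈ ball x (ρ / 2))
include hd hi

theorem Area_meas (i : ι) : MeasurableSet (h i '' ball x ρ) :=
  measurableSet_ball.image_of_continuousOn_injOn (hd i).continuousOn
    fun a ha b hb e => (hi i i a ha b hb e).2

omit hd in
theorem Area_disj : Pairwise (Function.onFun Disjoint fun i => h i '' ball x ρ) := by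
  intro i j hij
  refine Set.disjoint_left.2 ?_
  rintro _ ⟨a, ha, rfl⟩ ⟨b, hb, e⟩
  exact hij (hi i j a ha b hb e.symm).1

include hR in
theorem Area_fin : ∑' i, volume (h i '' ball x ρ) ≠ ∞ := by
  refine ne_top_of_le_ne_top (measure_closedBall_lt_top (μ := volume) (x := (0 : ℂ)) (r := R)).ne
    ((tsum_meas_le_meas_iUnion_of_disjoint volume (Area_meas hd hi) (Area_disj hi)).trans
      (measure_mono (iUnion_subset fun i => ?_)))
  rintro _ ⟨a, ha, rfl⟩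
  exact mem_closedBall_zero_iff.2 (hR i a ha)

omit hd hi in
include hu in
theorem Area_sub : 0 < ρ / 2 ∧ ball u (ρ / 2) ⊆ ball x ρ :=
  ⟨pos_of_mem_ball hu, ball_subset_ball' (by have := mem_ball.1 hu; linarith only [this])⟩

include hu in
theorem Area_key (i : ι) {k : ℂ → ℂ} (hk : DifferentiableOn ℂ (fun v => k (h i v)) (ball x ρ)) :
    ENNReal.ofReal (Real.pi * (ρ / 2) ^ 2) * ‖deriv (h i) u ^ 2 * k (h i u)‖ₑ ≤
      ∫⁻ z in h i '' ball x ρ, ‖k z‖ₑ := by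
  obtain ⟨h1, h2⟩ := Area_sub hu
  have h3 : DifferentiableOn ℂ (fun v => deriv (h i) v ^ 2 * k (h i v)) (ball x ρ) :=
    (((hd i).deriv isOpen_ball).pow 2).mul hk
  rw [lintegral_univ_img isOpen_ball (hd i) fun a ha b hb e => (hi i i a ha b hb e).2]
  refine (norm_le_area h1 (h3.mono h2)).trans ((lintegral_mono_set h2).trans (le_of_eq ?_))
  simp only [enorm_mul, enorm_pow]

include hR hu

theorem summable_sq : Summable fun i => ‖deriv (h i) u‖ ^ 2 := by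
  have h1 := (Area_sub hu).1
  have hc : 0 < Real.pi * (ρ / 2) ^ 2 := mul_pos Real.pi_pos (pow_pos h1 2)
  have hf := Area_fin hd hi hR
  refine Summable.of_nonneg_of_le (fun i => sq_nonneg _) (fun i => ?_)
    ((ENNReal.summable_toReal hf).div_const (Real.pi * (ρ / 2) ^ 2))
  have h2 := Area_key hd hi hu i (k := fun _ => 1) (differentiableOn_const _)
  rw [mul_one, enorm_one, setLIntegral_one, ← ofReal_norm, ← ENNReal.ofReal_mul hc.le,
    ENNReal.ofReal_le_iff_le_toReal (ENNReal.ne_top_of_tsum_ne_top hf i), norm_pow] at h2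
  rw [le_div_iff₀ hc, mul_comm]
  exact h2

theorem tail_bound {ε : ℝ} (hε : 0 < ε) : ∃ T : Finset ι, ∀ T' : Finset ι, Disjoint T' T →
    ∀ w : ℂ, (∀ i ∈ T', ∀ u' ∈ ball x ρ, h i u' ≠ w) →
      ∑ i ∈ T', ‖deriv (h i) u ^ 2 / (w - h i u)‖ ≤ ε := by
  classical
  have h1 := (Area_sub hu).1
  have hc : 0 < Real.pi * (ρ / 2) ^ 2 := mul_pos Real.pi_pos (pow_pos h1 2)
  have hη : 0 < Real.pi * (ρ / 2) ^ 2 * ε / 2 := by positivity
  obtain ⟨t, ht, h2⟩ := small_ball (ENNReal.ofReal_pos.2 hη)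
  obtain ⟨T, hT⟩ := ((ENNReal.tendsto_tsum_compl_atTop_zero (Area_fin hd hi hR)).eventually
    (gt_mem_nhds (ENNReal.ofReal_pos.2 (mul_pos hη ht)))).exists
  refine ⟨T, fun T' hT' w hw => ?_⟩
  have h3 : volume (⋃ i ∈ T', h i '' ball x ρ) ≤
      ENNReal.ofReal (Real.pi * (ρ / 2) ^ 2 * ε / 2 * t) := by
    refine (measure_biUnion_finset_le _ _).trans (le_trans ?_ hT.le)
    rw [← Finset.sum_subtype_of_mem (p := fun i => i ∉ T) _
      fun i k => Finset.disjoint_left.1 hT' k]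
    exact ENNReal.sum_le_tsum _
  have h4 : ∫⁻ z in (⋃ i ∈ T', h i '' ball x ρ) \ ball w t, ‖(w - z)⁻¹‖ₑ ≤
      ENNReal.ofReal (Real.pi * (ρ / 2) ^ 2 * ε / 2) := by
    refine (setLIntegral_mono' (g := fun _ => ENNReal.ofReal t⁻¹)
      ((Finset.measurableSet_biUnion _ fun i _ => Area_meas hd hi i).diff measurableSet_ball)
      fun z hz => ?_).trans ?_
    · rw [← ofReal_norm, norm_inv]
      refine ENNReal.ofReal_le_ofReal (inv_anti₀ ht ?_)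
      have := hz.2
      rwa [mem_ball', dist_eq_norm, not_lt] at this
    · rw [setLIntegral_const]
      refine (mul_le_mul_right ((measure_mono sdiff_subset).trans h3) _).trans (le_of_eq ?_)
      rw [← ENNReal.ofReal_mul (inv_nonneg.2 ht.le)]
      congr 1
      field_simp
  have h5 : ENNReal.ofReal (Real.pi * (ρ / 2) ^ 2 * ∑ i ∈ T', ‖deriv (h i) u ^ 2 / (w - h i u)‖) ≤
      ENNReal.ofReal (Real.pi * (ρ / 2) ^ 2 * ε) := by
    calc _ = ∑ i ∈ T', ENNReal.ofReal (Real.pi * (ρ / 2) ^ 2) *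
            ‖deriv (h i) u ^ 2 * (w - h i u)⁻¹‖ₑ := by
          rw [ENNReal.ofReal_mul hc.le, ENNReal.ofReal_sum_of_nonneg fun _ _ => norm_nonneg _,
            Finset.mul_sum]
          simp only [ofReal_norm, div_eq_mul_inv]
      _ ≤ ∑ i ∈ T', ∫⁻ z in h i '' ball x ρ, ‖(w - z)⁻¹‖ₑ :=
          Finset.sum_le_sum fun i k => Area_key hd hi hu i (k := fun z => (w - z)⁻¹)
            (((hd i).const_sub w).inv fun v hv => sub_ne_zero.2 (hw i k v hv).symm)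
      _ = ∫⁻ z in ⋃ i ∈ T', h i '' ball x ρ, ‖(w - z)⁻¹‖ₑ :=
          (lintegral_biUnion_finset (fun _ _ _ _ k => Area_disj hi k)
            (fun i _ => Area_meas hd hi i) _).symm
      _ ≤ ∫⁻ z in ball w t ∪ (⋃ i ∈ T', h i '' ball x ρ) \ ball w t, ‖(w - z)⁻¹‖ₑ :=
          lintegral_mono_set (by rw [union_sdiff_self]; exact subset_union_right)
      _ ≤ _ := by
          refine (lintegral_union_le _ _ _).trans ((add_le_add (h2 w) h4).trans (le_of_eq ?_))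
          rw [← ENNReal.ofReal_add hη.le hη.le, add_halves]
  exact le_of_mul_le_mul_left ((ENNReal.ofReal_le_ofReal_iff (by positivity)).1 h5) hc

theorem Area_tail (J : Set ι) {ε : ℝ} (hε : 0 < ε) : ∃ T : Finset J, ∀ T' : Finset J,
    Disjoint T' T → ∀ w : ℂ, (∀ i ∈ J, ∀ u' ∈ ball x ρ, h i u' ≠ w) →
      ‖∑ i ∈ T', deriv (h i) u ^ 2 / (w - h i u)‖ < ε := by
  classical
  obtain ⟨T, hT⟩ := tail_bound hd hi hR hu (half_pos hε)
  refine ⟨T.subtype (· ∈ J), fun T' hT' w hw => ?_⟩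
  have h1 := hT (T'.map (Function.Embedding.subtype _)) (Finset.disjoint_left.2 fun i k k' => by
    obtain ⟨j, hj, rfl⟩ := Finset.mem_map.1 k
    exact Finset.disjoint_left.1 hT' hj (Finset.mem_subtype.2 k')) w fun i k => by
    obtain ⟨j, -, rfl⟩ := Finset.mem_map.1 k
    exact hw _ j.2
  rw [Finset.sum_map] at h1
  exact ((norm_sum_le _ _).trans h1).trans_lt (half_lt_self hε)

theorem rest_summable (J : Set ι) {w : ℂ} (hw : ∀ i ∈ J, ∀ u' ∈ ball x ρ, h i u' ≠ w) :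
    Summable fun i : J => deriv (h i) u ^ 2 / (w - h i u) := by
  refine summable_iff_vanishing_norm.2 fun ε hε => ?_
  obtain ⟨T, hT⟩ := Area_tail hd hi hR hu J hε
  exact ⟨T, fun T' k => hT T' k w hw⟩

theorem rest_unif (J : Set ι) : TendstoUniformlyOn
    (fun (T : Finset J) (w : ℂ) => ∑ i ∈ T, deriv (h i) u ^ 2 / (w - h i u))
    (fun w => ∑' i : J, deriv (h i) u ^ 2 / (w - h i u)) atTop
    {w | ∀ i ∈ J, ∀ u' ∈ ball x ρ, h i u' ≠ w} := by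
  classical
  refine Metric.tendstoUniformlyOn_iff.2 fun ε hε => ?_
  obtain ⟨T, hT⟩ := Area_tail hd hi hR hu J (half_pos hε)
  filter_upwards [eventually_ge_atTop T] with S hS w hw
  have h1 : Tendsto (fun S' : Finset J => ∑ i ∈ S', deriv (h i) u ^ 2 / (w - h i u)) atTop
      (𝓝 (∑' i : J, deriv (h i) u ^ 2 / (w - h i u))) := (rest_summable hd hi hR hu J hw).hasSum
  refine lt_of_le_of_lt (le_of_tendsto (h1.dist tendsto_const_nhds) ?_) (half_lt_self hε)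
  filter_upwards [eventually_ge_atTop S] with S' hS'
  rw [dist_eq_norm, ← Finset.sum_sdiff_eq_sub hS']
  exact (hT _ (Finset.disjoint_of_subset_right hS Finset.sdiff_disjoint) w hw).le

theorem rest_cont (J : Set ι) : ContinuousOn (fun w => ∑' i : J, deriv (h i) u ^ 2 / (w - h i u))
    {w | ∀ i ∈ J, ∀ u' ∈ ball x ρ, h i u' ≠ w} := by
  obtain ⟨h1, h2⟩ := Area_sub hu
  refine (rest_unif hd hi hR hu J).continuousOn (Frequently.of_forall fun T => ?_)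
  exact continuousOn_finsetSum _ fun i _ => continuousOn_const.div
    (continuousOn_id.sub continuousOn_const) fun w hw =>
      sub_ne_zero.2 (hw _ i.2 u (h2 (mem_ball_self h1))).symm

theorem rest_diff (J : Set ι) {O : Set ℂ} (hO : IsOpen O)
    (hJ : ∀ w ∈ O, ∀ i ∈ J, ∀ u' ∈ ball x ρ, h i u' ≠ w) :
    DifferentiableOn ℂ (fun w => ∑' i : J, deriv (h i) u ^ 2 / (w - h i u)) O := by
  obtain ⟨h1, h2⟩ := Area_sub hu
  refine ((rest_unif hd hi hR hu J).mono hJ).tendstoLocallyUniformlyOn.differentiableOn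
    (Eventually.of_forall fun T => ?_) hO
  exact DifferentiableOn.fun_sum fun i _ => (differentiableOn_const _).div
    (differentiableOn_id.sub_const _) fun w hw =>
      sub_ne_zero.2 (hJ w hw _ i.2 u (h2 (mem_ball_self h1))).symm

end Pool.Agent.Work.MP_042f46_an
end

-- merged part: Pool.Agent.Work.MP_042f46_an.X9
section
/-!
# Area with multiplicity, integration over the strip

Plans.  `area_one`: remove from `T` the set where `deriv g = 0` (the integrand vanishes there); around every other point `g` is injective on an open subset of `O`; by the Lindelof property countably many of these cover (`TopologicalSpace.countable_cover_nhds`-like lemmas, `disjointed`), which gives disjoint measurable `T n` on which `g` is injective; `MeasureTheory.lintegral_image_eq_lintegral_abs_det_fderiv_mul` (see `lintegral_univ_img` in `Area.lean`) gives `∫⁻ T n, ‖deriv g‖ₑ ^ 2 = volume (g '' T n)`.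  It is best to prove the family version `area_mult` directly: `∑ i, ∑' n, volume (g i '' T i n) = ∫⁻ w, ∑ i, ∑' n, indicator (g i '' T i n) 1 w ≤ M * volume B`, since for each `w` at most `M` pairs `(i, n)` contribute.
`lintegral_Sig`: `Complex.volume_preserving_equiv_real_prod`, Tonelli.  `meas_seg`: the set is the intersection over `n` of the open sets `{z | ∀ τ ∈ Icc (1 / (n + 1)) 1, ...}` (tube lemma, `IsCompact.eventually_forall_of_forall_eventually`).  `cheb_vert`: Cauchy-Schwarz on `Ioo 0 π` (`ENNReal.lintegral_mul_le_Lp_mul_Lq`) and Markov's inequality (`mul_meas_ge_le_lintegral`).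
-/

open Set Metric Topology Filter MeasureTheory
open scoped ENNReal

namespace Pool.Agent.Work.MP_042f46_an

theorem X9_inj {O T : Set ℂ} {g : ℂ → ℂ} (hO : IsOpen O) (hg : DifferentiableOn ℂ g O)
    (hT : MeasurableSet T) (hTO : T ⊆ O) (hi : InjOn g T) :
    ∫⁻ z in T, ‖deriv g z‖ₑ ^ 2 = volume (g '' T) := by
  rw [← lintegral_abs_det_fderiv_eq_addHaar_image volume hT
    (f' := fun u => deriv g u • (1 : ℂ →L[ℝ] ℂ)) (fun u hu => ((hg.differentiableAt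
      (hO.mem_nhds (hTO hu))).hasDerivAt.complexToReal_fderiv).hasFDerivWithinAt) hi]
  refine lintegral_congr fun u => ?_
  have e : ((deriv g u • (1 : ℂ →L[ℝ] ℂ) : ℂ →L[ℝ] ℂ) : ℂ →ₗ[ℝ] ℂ) =
      Algebra.lmul ℝ ℂ (deriv g u) := LinearMap.ext fun z => rfl
  rw [ContinuousLinearMap.det, e, ← Algebra.norm_apply, Algebra.norm_complex_apply,
    Complex.normSq_eq_norm_sq, abs_of_nonneg (sq_nonneg _), ENNReal.ofReal_pow (norm_nonneg _),
    ofReal_norm]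

theorem X9_part {O T : Set ℂ} {g : ℂ → ℂ} (hO : IsOpen O) (hg : DifferentiableOn ℂ g O)
    (hT : MeasurableSet T) (hTO : T ⊆ O) : ∃ S : ℕ → Set ℂ,
      Pairwise (Function.onFun Disjoint S) ∧ (∀ n, S n ⊆ T) ∧ (∀ n, MeasurableSet (g '' S n)) ∧
      ∫⁻ z in T, ‖deriv g z‖ₑ ^ 2 ≤ ∑' n, volume (g '' S n) := by
  obtain ⟨C, hC, hC1, hC2⟩ := TopologicalSpace.isOpen_sUnion_countable
    {U : Set ℂ | IsOpen U ∧ InjOn g U} fun _ h => h.1
  obtain ⟨U, hU⟩ := (hC.insert ∅).exists_eq_range (insert_nonempty _ _)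
  have h1 : ∀ n, IsOpen (U n) ∧ InjOn g (U n) := fun n => by
    rcases (hU ▸ mem_range_self n : U n ∈ insert ∅ C) with h | h
    · rw [h]
      exact ⟨isOpen_empty, injOn_empty g⟩
    · exact hC1 h
  have h2 : ∀ n, MeasurableSet (T ∩ disjointed U n) := fun n =>
    hT.inter (MeasurableSet.disjointed (fun n => (h1 n).1.measurableSet) n)
  have h3 : ∀ n, InjOn g (T ∩ disjointed U n) := fun n =>
    (h1 n).2.mono (inter_subset_right.trans (disjointed_subset U n))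
  have h4 : MeasurableSet (⋃ n, U n) := (isOpen_iUnion fun n => (h1 n).1).measurableSet
  refine ⟨fun n => T ∩ disjointed U n, fun a b hab =>
    (disjoint_disjointed U hab).mono inter_subset_right inter_subset_right,
    fun n => inter_subset_left, fun n => (h2 n).image_of_continuousOn_injOn
      (hg.continuousOn.mono (inter_subset_left.trans hTO)) (h3 n), ?_⟩
  rw [← lintegral_inter_add_sdiff _ T h4, setLIntegral_eq_zero (hT.diff h4), add_zero,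
    ← iUnion_disjointed, inter_iUnion]
  · exact (lintegral_iUnion_le _ _).trans_eq (tsum_congr fun n =>
      X9_inj hO hg (h2 n) (inter_subset_left.trans hTO) (h3 n))
  · intro z hz
    have : deriv g z = 0 := by
      by_contra h
      obtain ⟨V, hV, hV1, hV2⟩ := _root_.eventually_nhds_iff.1
        ((hg.analyticAt (hO.mem_nhds (hTO hz.1))).hasStrictDerivAt.eventually_left_inverse h)
      have h5 : z ∈ ⋃₀ C := hC2 ▸ ⟨V, ⟨hV1, fun a ha b hb e => by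
        rw [← hV a ha, e, hV b hb]⟩, hV2⟩
      obtain ⟨W, hW, hzW⟩ := h5
      obtain ⟨n, rfl⟩ : W ∈ range U := hU ▸ mem_insert_of_mem _ hW
      exact hz.2 (mem_iUnion.2 ⟨n, hzW⟩)
    simp [this]

theorem X9_mult {κ : Type} [Countable κ] {A : κ → Set ℂ} {B : Set ℂ} {M : ℕ}
    (hA : ∀ p, MeasurableSet (A p)) (hB : ∀ p, A p ⊆ B) (hM : ∀ w, {p | w ∈ A p}.encard ≤ M) :
    ∑' p, volume (A p) ≤ M * volume B := by
  simp only [← lintegral_indicator_one (hA _)]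
  rw [← lintegral_tsum fun p => (measurable_one.indicator (hA p)).aemeasurable,
    ← measure_toMeasurable B, ← lintegral_indicator_const (measurableSet_toMeasurable _ B)]
  refine lintegral_mono fun w => ?_
  by_cases h : w ∈ toMeasurable volume B
  · have e : ∀ p, (A p).indicator (1 : ℂ → ℝ≥0∞) w = {p | w ∈ A p}.indicator (fun _ => 1) p :=
      fun p => rfl
    simp only [e]
    rw [indicator_of_mem h, ← tsum_subtype, ENNReal.tsum_set_one]
    exact_mod_cast hM w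
  · exact (ENNReal.tsum_eq_zero.2 fun p =>
      indicator_of_notMem (fun a => h (subset_toMeasurable _ _ (hB p a))) _).trans_le zero_le

theorem area_mult {ι : Type} (I : Finset ι) {O T : ι → Set ℂ} {g : ι → ℂ → ℂ} {B : Set ℂ} {M : ℕ}
    (hO : ∀ i ∈ I, IsOpen (O i)) (hg : ∀ i ∈ I, DifferentiableOn ℂ (g i) (O i))
    (hT : ∀ i ∈ I, MeasurableSet (T i)) (hTO : ∀ i ∈ I, T i ⊆ O i)
    (hB : ∀ i ∈ I, MapsTo (g i) (T i) B)
    (hM : ∀ w, {p : ι × ℂ | p.1 ∈ I ∧ p.2 ∈ T p.1 ∧ g p.1 p.2 = w}.encard ≤ M) :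
    ∑ i ∈ I, ∫⁻ z in T i, ‖deriv (g i) z‖ₑ ^ 2 ≤ M * volume B := by
  choose S h1 h2 h3 h4 using fun i : I => X9_part (hO i i.2) (hg i i.2) (hT i i.2) (hTO i i.2)
  rw [← Finset.sum_coe_sort, ← tsum_fintype (L := SummationFilter.unconditional _)]
  refine (ENNReal.tsum_le_tsum h4).trans ?_
  rw [← ENNReal.tsum_prod]
  refine X9_mult (A := fun p : I × ℕ => g p.1 '' S p.1 p.2) (fun p => h3 _ _)
    (fun p => ((hB _ p.1.2).mono_left (h2 _ _)).image_subset) fun w => le_trans ?_ (hM w)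
  have : ∀ p : I × ℕ, w ∈ g p.1 '' S p.1 p.2 → ∃ z ∈ S p.1 p.2, g p.1 z = w := fun _ h => h
  choose! z hz hz' using this
  refine encard_le_encard_of_injOn (f := fun p => (p.1.1, z p))
    (fun p hp => ⟨p.1.2, h2 _ _ (hz p hp), hz' p hp⟩) ?_
  rintro ⟨i, n⟩ hp ⟨j, m⟩ hq e
  obtain rfl : i = j := Subtype.ext (congrArg Prod.fst e)
  have e' : z (i, n) = z (i, m) := congrArg Prod.snd e
  by_contra hn
  exact disjoint_left.1 (h1 i fun a => hn (congrArg _ a)) (hz _ hp) (e' ▸ hz _ hq)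

theorem area_one {O T B : Set ℂ} {g : ℂ → ℂ} {M : ℕ} (hO : IsOpen O) (hg : DifferentiableOn ℂ g O)
    (hT : MeasurableSet T) (hTO : T ⊆ O) (hB : MapsTo g T B)
    (hM : ∀ w, {z ∈ T | g z = w}.encard ≤ M) :
    ∫⁻ z in T, ‖deriv g z‖ₑ ^ 2 ≤ M * volume B := by
  have := area_mult (ι := Unit) {()} (fun _ _ => hO) (fun _ _ => hg) (fun _ _ => hT)
    (fun _ _ => hTO) (fun _ _ => hB) fun w => (encard_le_encard_of_injOn (f := Prod.snd)
      (fun p hp => hp.2) fun p _ q _ e => Prod.ext rfl e).trans (hM w)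
  rwa [Finset.sum_singleton] at this

theorem lintegral_Sig {f : ℂ → ℝ≥0∞} (hf : Measurable f) :
    ∫⁻ z in Sig, f z = ∫⁻ x, ∫⁻ y in Ioo 0 Real.pi, f (pt x y) := by
  have e : Complex.measurableEquivRealProd.symm ⁻¹' Sig = univ ×ˢ Ioo 0 Real.pi :=
    Set.ext fun p => ⟨fun h => ⟨trivial, h⟩, fun h => h.2⟩
  rw [← Complex.volume_preserving_equiv_real_prod.symm.setLIntegral_comp_preimage
    isOpen_Sig.measurableSet hf, e, Measure.volume_eq_prod, ← Measure.prod_restrict,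
    Measure.restrict_univ]
  exact lintegral_prod _ (hf.comp continuous_pt.measurable).aemeasurable

theorem meas_vert {f : ℂ → ℝ≥0∞} (hf : Measurable f) :
    Measurable fun x => ∫⁻ y in Ioo 0 Real.pi, f (pt x y) :=
  (hf.comp continuous_pt.measurable).lintegral_prod_right'

theorem volume_box {A : Set ℝ} (hA : MeasurableSet A) :
    volume {z ∈ Sig | z.re ∈ A} = ENNReal.ofReal Real.pi * volume A := by
  have e : {z ∈ Sig | z.re ∈ A} = Complex.measurableEquivRealProd ⁻¹' (A ×ˢ Ioo 0 Real.pi) :=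
    Set.ext fun z => and_comm
  rw [e, Complex.volume_preserving_equiv_real_prod.measure_preimage
    (hA.prod measurableSet_Ioo).nullMeasurableSet, Measure.volume_eq_prod,
    Measure.prod_prod, Real.volume_Ioo, sub_zero, mul_comm]

theorem X9_all {X Y : Type} [TopologicalSpace X] [MeasurableSpace X] [OpensMeasurableSpace X]
    [TopologicalSpace Y] [SigmaCompactSpace Y] {W : Set (X × Y)} (hW : IsOpen W) :
    MeasurableSet {x | ∀ y, (x, y) ∈ W} := by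
  have e : {x | ∀ y, (x, y) ∈ W} = ⋂ n, {x | ∀ y ∈ compactCovering Y n, (x, y) ∈ W} := by
    ext x
    simp only [mem_iInter, mem_ofPred_eq]
    exact ⟨fun h _ y _ => h y, fun h y => (exists_mem_compactCovering y).elim fun n hn => h n y hn⟩
  rw [e]
  exact MeasurableSet.iInter fun n => (isOpen_iff_mem_nhds.2 fun x hx =>
    (isCompact_compactCovering Y n).eventually_forall_of_forall_eventually
      (P := fun x y => (x, y) ∈ W) fun y hy => hW.mem_nhds (hx y hy)).measurableSet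

theorem meas_seg {O : Set ℂ} (hO : IsOpen O) (h : ℝ) :
    MeasurableSet {z : ℂ | ∀ y ∈ uIcc h z.im, y ≠ h → pt z.re y ∈ O} := by
  have := (isOpen_ne (x := h)).locallyCompactSpace
  have h1 : IsClosed ({p : ℂ × {y : ℝ | y ≠ h} | min h p.1.im ≤ p.2} ∩ {p | p.2 ≤ max h p.1.im}) :=
    (isClosed_le (by fun_prop) (by fun_prop)).inter (isClosed_le (by fun_prop) (by fun_prop))
  have h2 : Continuous fun p : ℂ × {y : ℝ | y ≠ h} => pt p.1.re p.2 :=
    continuous_pt.comp (f := fun p : ℂ × {y : ℝ | y ≠ h} => (p.1.re, (p.2 : ℝ))) (by fun_prop)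
  convert X9_all (h1.isOpen_compl.union (hO.preimage h2)) using 2
  refine funext fun z => propext ?_
  exact ⟨fun a y => imp_iff_not_or.1 fun b => a y b y.2,
    fun a y b c => (a ⟨y, c⟩).resolve_left fun d => d b⟩

theorem meas_col {O : Set ℂ} (hO : IsOpen O) :
    MeasurableSet {x : ℝ | ∀ y ∈ Ioo 0 Real.pi, pt x y ∈ O} := by
  have := (isOpen_Ioo (a := (0 : ℝ)) (b := Real.pi)).locallyCompactSpace
  have h2 : Continuous fun p : ℝ × Ioo 0 Real.pi => pt p.1 p.2 :=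
    continuous_pt.comp (f := fun p : ℝ × Ioo 0 Real.pi => (p.1, (p.2 : ℝ))) (by fun_prop)
  convert X9_all (hO.preimage h2) using 2
  exact funext fun x => propext ⟨fun a y => a y y.2, fun a y b => a ⟨y, b⟩⟩

theorem X9_cs {μ : Measure ℝ} {f : ℝ → ℝ≥0∞} (hf : Measurable f) :
    (∫⁻ y, f y ∂μ) ^ 2 ≤ μ univ * ∫⁻ y, f y ^ 2 ∂μ := by
  have h := ENNReal.lintegral_mul_le_Lp_mul_Lq μ Real.HolderConjugate.two_two
    (f := fun _ => 1) aemeasurable_const hf.aemeasurable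
  simp only [Pi.mul_apply, one_mul, ENNReal.one_rpow, lintegral_const, ENNReal.rpow_two] at h
  refine (pow_le_pow_left' h 2).trans_eq ?_
  rw [← ENNReal.mul_rpow_of_nonneg _ _ (by norm_num), ← ENNReal.rpow_two, ← ENNReal.rpow_mul]
  norm_num

theorem cheb_vert {f : ℂ → ℝ≥0∞} (hf : Measurable f) (c : ℝ≥0∞) :
    c ^ 2 * volume {x : ℝ | c ≤ ∫⁻ y in Ioo 0 Real.pi, f (pt x y)} ≤
      ENNReal.ofReal Real.pi * ∫⁻ z in Sig, f z ^ 2 := by
  rw [lintegral_Sig (hf.pow_const 2), ← lintegral_const_mul _ (meas_vert (hf.pow_const 2))]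
  refine le_trans ?_ ((mul_meas_ge_le_lintegral ((meas_vert hf).pow_const 2) (c ^ 2)).trans
    (lintegral_mono fun x => ?_))
  · exact mul_le_mul_right (measure_mono fun x (hx : c ≤ _) => pow_le_pow_left' hx 2) _
  · refine (X9_cs (hf.comp (continuous_pt.comp (Continuous.prodMk_right x)).measurable)).trans_eq ?_
    rw [Measure.restrict_apply_univ, Real.volume_Ioo, sub_zero]
    rfl

end Pool.Agent.Work.MP_042f46_an
end

-- merged part: Pool.Agent.Work.MP_042f46_an.X6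
section
/-!
# Two points with the same image give bad crosscuts on all circles of intermediate size

Plans.  `first_hop`: (compare `Fwd_first` in `Fwd.lean`) let `t'` be the least element of the closed set `{u ∈ [u₀, t] | κ u ∈ D}`; both ends are limits of points outside `D`, so they are on the curve (`exists_γ`).
`exists_circ`: let `z ≠ w` in `K` with `F z = F w = y`; both are outside `Ω` (`mem_Ω_of`, `injOn_Ω`), so in `B`.  Let `r₁ ≤ dist z w / 3` be smaller than the radius of `unif_inj`, and let `G : ball y c → ball z r₁` be the local inverse (`unif_surj`; continuous along paths by `cont_of_lift` or `small_ex`).  Given `δ`, choose `z₁, w₁ ∈ Ω` close to `z, w` with images in `ball y δ`, and `ρ₀ ≤ 2` with `z₁, w₁ ∈ D ρ` (`eventually_in`).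
Let `A = {p ∈ D ∩ ball y c | G p ∈ D}`.  Along a path in `D ∩ ball y c` membership in `A` is closed (`D` is closed) and open (`G p ∈ Ω`, `mem_D_of`).  `F z₁ ∈ A`, `F w₁ ∉ A` (`injOn_Ω`).  Follow the ray `s ↦ φ (s ζ)`, `s ≥ 1`, from `F z₁ = φ ζ` up to its first point on the circle of radius `r`, and the same for `w₁`: there are `θ₁ < θ₂ < θ₁ + 2 π` with `circleMap y r θ₁ ∈ A`, `circleMap y r θ₂ ∈ D \ A`.  Let `s` be the greatest `θ ∈ [θ₁, θ₂]` with point in `A`; just after `s` the circle is outside `D`; `first_hop`; the lift is `G ∘ circleMap y r`.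
-/

open Set Metric Topology Filter

namespace Pool.Agent.Work.MP_042f46_an.Sx

variable (σ : Sx)

theorem X6_compact {ρ s t : ℝ} (hρ : 1 < ρ) {g : ℝ → ℂ} (hg : ContinuousOn g (Icc s t)) :
    IsCompact (Icc s t ∩ g ⁻¹' σ.D ρ) :=
  isCompact_Icc.of_isClosed_subset
    (hg.preimage_isClosed_of_isClosed isClosed_Icc (σ.isClosed_D hρ)) inter_subset_left

theorem first_hop {ρ δ s t : ℝ} {κ : ℝ → ℂ} (hρ : ρ ∈ Ioc (1 : ℝ) 2) (hst : s < t)
    (hκ : ContinuousOn κ (Icc s t)) (h0 : κ s ∈ σ.D ρ) (h1 : ∀ᶠ u in 𝓝[>] s, κ u ∉ σ.D ρ)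
    (h2 : κ t ∈ σ.D ρ) (hs : ∀ u ∈ Icc s t, ∀ u' ∈ Icc s t, dist (κ u) (κ u') < δ) :
    ∃ t' ∈ Ioc s t, ∃ a b, σ.Hop ρ δ κ s t' a b := by
  have h3 : ∀ᶠ u in 𝓝[>] s, u < t ∧ κ u ∉ σ.D ρ := by
    filter_upwards [Ioo_mem_nhdsGT hst, h1] with u a b
    exact ⟨a.2, b⟩
  obtain ⟨u₀, hu, h3⟩ := mem_nhdsGT_iff_exists_Ioc_subset.1 h3
  have h4 := (h3 ⟨hu, le_rfl⟩).1.le
  obtain ⟨t', ⟨h5, h6⟩, h7⟩ := (σ.X6_compact hρ.1
    (hκ.mono (Icc_subset_Icc_left hu.out.le))).exists_isLeast ⟨t, ⟨h4, le_rfl⟩, h2⟩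
  have h8 : s < t' := hu.out.trans_le h5.1
  have h9 : ∀ u ∈ Ioo s t', κ u ∉ σ.D ρ := fun u a b => by
    rcases le_total u u₀ with c | c
    · exact (h3 ⟨a.1, c⟩).2 b
    · exact (h7 ⟨⟨c, a.2.le.trans h5.2⟩, b⟩).not_gt a.2
  have hc := hκ.mono (Icc_subset_Icc_right h5.2)
  have hγ : ∀ u ∈ Icc s t', κ u ∈ σ.D ρ → ∃ a, κ u = σ.γ ρ a := fun u a b => by
    refine σ.exists_γ hρ.1 b fun c => ?_
    have := ((hc u a).mono Ioo_subset_Icc_self).mem_closure (t := (σ.D ρ)ᶜ)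
      (closure_Ioo h8.ne ▸ a) h9
    rw [closure_compl] at this
    exact this (mem_interior_iff_mem_nhds.2 c)
  obtain ⟨a, ha⟩ := hγ s ⟨le_rfl, h8.le⟩ h0
  obtain ⟨b, hb⟩ := hγ t' ⟨h8.le, le_rfl⟩ h6
  exact ⟨t', ⟨h8, h5.2⟩, a, b, hρ, h8, hc, ha, hb, h9, fun u c u' c' =>
    hs u ⟨c.1, c.2.trans h5.2⟩ u' ⟨c'.1, c'.2.trans h5.2⟩⟩

/-- a property that is open and closed on a connected set reaches every circle that the set crosses -/
theorem X6_bump {D O C : Set ℂ} {G : ℂ → ℂ} {y p₀ q : ℂ} {r : ℝ} (hD : IsPreconnected D)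
    (hG : ContinuousOn G (closedBall y r)) (hO : IsOpen O) (hC : IsClosed C)
    (h : ∀ p ∈ D, p ∈ closedBall y r → (G p ∈ O ↔ G p ∈ C)) (h0 : p₀ ∈ D) (h1 : p₀ ∈ ball y r)
    (h2 : G p₀ ∈ C) (h3 : q ∈ D) (h4 : q ∉ closedBall y r) :
    ∃ p ∈ D, p ∈ sphere y r ∧ G p ∈ C := by
  by_contra hn
  push Not at hn
  have o1 : IsOpen (ball y r ∩ G ⁻¹' O) :=
    (hG.mono ball_subset_closedBall).isOpen_inter_preimage isOpen_ball hO
  have o2 : IsOpen (closedBall y r ∩ G ⁻¹' C)ᶜ :=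
    (hG.preimage_isClosed_of_isClosed isClosed_closedBall hC).isOpen_compl
  obtain ⟨p, hp, ⟨p1, p2⟩, p3⟩ := hD _ _ o1 o2 (fun p hp => by
      by_cases a : p ∈ closedBall y r ∩ G ⁻¹' C
      · refine .inl ⟨?_, (h p hp a.1).2 a.2⟩
        rcases (mem_closedBall.1 a.1).eq_or_lt with b | b
        · exact absurd a.2 (hn p hp b)
        · exact b
      · exact .inr a)
    ⟨p₀, h0, h1, (h p₀ h0 (ball_subset_closedBall h1)).2 h2⟩ ⟨q, h3, fun a => h4 a.1⟩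
  exact p3 ⟨ball_subset_closedBall p1, (h p hp (ball_subset_closedBall p1)).1 p2⟩

/-- the invariant region is not contained in a disc -/
theorem X6_far {ρ : ℝ} (hρ : ρ ∈ Ioc (1 : ℝ) 2) (y : ℂ) (r : ℝ) :
    ∃ q ∈ σ.D ρ, q ∉ closedBall y r := by
  obtain ⟨R, -, hR⟩ := σ.exists_bound
  by_contra hn
  push Not at hn
  refine NormedSpace.unbounded_univ ℝ ℂ ((isBounded_closedBall (x := y) (r := r)).union
    (isBounded_ball (x := (0 : ℂ)) (r := R)) |>.subset fun q _ => ?_)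
  by_cases a : q ∈ σ.D ρ
  · exact .inl (hn q a)
  · exact .inr (hR ρ hρ a)

/-- a continuous local inverse at a point of the compact part -/
theorem X6_inv {z : ℂ} (hz : z ∈ σ.B) {r₀ : ℝ} (h0 : 0 < r₀) (hi : InjOn σ.F (ball z r₀))
    (hP : Disjoint (ball z r₀) σ.P) : ∃ c > 0, ∃ G : ℂ → ℂ, ContinuousOn G (ball (σ.F z) c) ∧
      ∀ p ∈ ball (σ.F z) c, G p ∈ ball z (r₀ / 2) ∧ σ.F (G p) = p := by
  obtain ⟨η, hη, h2⟩ := σ.unif_surj (half_pos h0)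
  choose! G g1 g2 using h2 z hz z (mem_ball_self hη)
  have hb : ball z (r₀ / 2) ⊆ ball z r₀ := ball_subset_ball (half_le_self h0.le)
  refine ⟨η, hη, G, fun p hp => ContinuousAt.continuousWithinAt fun N hN => ?_,
    fun p hp => ⟨g1 p hp, g2 p hp⟩⟩
  have a := σ.F_open (G p) (disjoint_left.1 hP (hb (g1 p hp))) _
    (inter_mem hN (isOpen_ball.mem_nhds (hb (g1 p hp))))
  rw [g2 p hp] at a
  rw [mem_map]
  filter_upwards [a, isOpen_ball.mem_nhds hp] with q ⟨x, ⟨x1, x2⟩, x3⟩ hq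
  have : G q = x := hi (hb (g1 q hq)) x2 ((g2 q hq).trans x3.symm)
  exact show G q ∈ N from this ▸ x1

theorem X6_B {z w : ℂ} (hz : z ∈ σ.K) (hw : w ∈ σ.K) (e : σ.F z = σ.F w) (hne : z ≠ w) :
    z ∈ σ.B := by
  refine ⟨hz, fun ⟨ζ, h1, h2⟩ => ?_⟩
  have a : z ∈ σ.Ω := ⟨ζ, show (1 : ℝ) < ‖ζ‖ from lt_trans one_lt_two h1, h2⟩
  exact hne (σ.injOn_Ω a (σ.mem_Ω_of hw (e ▸ σ.mapsTo_Ω a)) e)

theorem exists_circ (h : ¬ InjOn σ.F σ.K) : ∃ (y : ℂ) (c : ℝ), 0 < c ∧ ∀ δ > 0, ∃ ρ₀ > 1,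
    ∀ ρ ∈ Ioc 1 ρ₀, ∀ r ∈ Ioo δ c, ∃ s t a b, t ≤ s + 2 * Real.pi ∧
      σ.Hop ρ (3 * r) (circleMap y r) s t a b ∧ σ.Bad ρ (circleMap y r) s t := by
  simp only [InjOn, not_forall] at h
  obtain ⟨z, hz, w, hw, e, hne⟩ := h
  obtain ⟨r₀, h0, h1⟩ := σ.unif_inj
  have hB := σ.X6_B hz hw e hne
  obtain ⟨hi, hP⟩ := h1 z hB
  obtain ⟨c, hc, G, g0, g1⟩ := σ.X6_inv hB h0 hi hP
  have hb : ball z (r₀ / 2) ⊆ ball z r₀ := ball_subset_ball (half_le_self h0.le)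
  refine ⟨σ.F z, c, hc, fun δ hδ => ?_⟩
  have h3 : ∀ x ∈ σ.K, ∃ x₁, (x₁ ∈ ball x (r₀ / 2) ∧ σ.F x₁ ∈ ball (σ.F x) δ) ∧ x₁ ∈ σ.Ω :=
    fun x hx => mem_closure_iff_nhds.1 hx _ (inter_mem (ball_mem_nhds x (half_pos h0))
      (σ.F_cont.continuousAt (σ.P_fin.isClosed.compl_mem_nhds (σ.K_not_P hx))
        (ball_mem_nhds _ hδ)))
  obtain ⟨z₁, ⟨z1, z2⟩, z3⟩ := h3 z hz
  obtain ⟨w₁, ⟨w1, w2⟩, w3⟩ := h3 w hw
  rw [← e] at w2
  obtain ⟨ρ₁, r1, r2⟩ := σ.eventually_in z3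
  obtain ⟨ρ₂, r3, r4⟩ := σ.eventually_in w3
  refine ⟨min 2 (min ρ₁ ρ₂), lt_min one_lt_two (lt_min r1 r3), fun ρ hρ r hr => ?_⟩
  have hρ2 : ρ ∈ Ioc (1 : ℝ) 2 := ⟨hρ.1, hρ.2.trans (min_le_left _ _)⟩
  have zD : z₁ ∈ σ.D ρ :=
    (r2 ρ ⟨hρ.1, hρ.2.trans ((min_le_right _ _).trans (min_le_left _ _))⟩).1
  have wD : w₁ ∈ σ.D ρ :=
    (r4 ρ ⟨hρ.1, hρ.2.trans ((min_le_right _ _).trans (min_le_right _ _))⟩).1
  have hr0 : 0 < r := hδ.trans hr.1
  have s1 : closedBall (σ.F z) r ⊆ ball (σ.F z) c := closedBall_subset_ball hr.2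
  have s2 : ball (σ.F z) δ ⊆ ball (σ.F z) r := ball_subset_ball hr.1.le
  have s3 : ball (σ.F z) δ ⊆ ball (σ.F z) c := s2.trans (ball_subset_closedBall.trans s1)
  have key : ∀ p ∈ σ.D ρ, p ∈ closedBall (σ.F z) r → (G p ∈ σ.Ω ↔ G p ∈ σ.D ρ) :=
    fun p hp hp' => ⟨fun a => σ.mem_D_of hρ.1 a ((g1 p (s1 hp')).2.symm ▸ hp),
      fun a => σ.D_sub hρ.1 a⟩
  obtain ⟨q, q1, q2⟩ := σ.X6_far hρ2 (σ.F z) r
  have Gz : G (σ.F z₁) = z₁ := hi (hb (g1 _ (s3 z2)).1) (hb z1) (g1 _ (s3 z2)).2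
  have Gw : G (σ.F w₁) ∈ σ.Ωᶜ := fun a => by
    have b := (g1 _ (s3 w2)).1
    rw [σ.injOn_Ω a w3 (g1 _ (s3 w2)).2] at b
    refine hne (hi (mem_ball_self h0) ?_ e)
    rw [mem_ball] at w1 b ⊢
    linarith only [w1, b, dist_triangle_left w z w₁]
  obtain ⟨p₁, -, p1, p2⟩ := X6_bump (σ.isPreconnected_D hρ.1) (g0.mono s1) σ.isOpen_Ω
    (σ.isClosed_D hρ.1) key (σ.mapsTo_D hρ.1 zD) (s2 z2) (Gz.symm ▸ zD) q1 q2
  obtain ⟨p₂, p3, p4, p5⟩ := X6_bump (σ.isPreconnected_D hρ.1) (g0.mono s1)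
    (σ.isClosed_D hρ.1).isOpen_compl σ.isOpen_Ω.isClosed_compl
    (fun p hp hp' => (key p hp hp').not.symm) (σ.mapsTo_D hρ.1 wD) (s2 w2) Gw q1 q2
  have hs : range (circleMap (σ.F z) r) = sphere (σ.F z) r := by
    rw [range_circleMap, abs_of_pos hr0]
  obtain ⟨θ₁, rfl⟩ : p₁ ∈ range (circleMap (σ.F z) r) := hs ▸ p1
  obtain ⟨θ₂, t1, rfl⟩ : p₂ ∈ circleMap (σ.F z) r '' Ioc θ₁ (θ₁ + 2 * Real.pi) := by
    rw [(periodic_circleMap _ _).image_Ioc Real.two_pi_pos, hs]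
    exact p4
  have m1 : ∀ u, circleMap (σ.F z) r u ∈ closedBall (σ.F z) r :=
    fun u => circleMap_mem_closedBall _ hr0.le u
  have c1 : Continuous (G ∘ circleMap (σ.F z) r) :=
    g0.comp_continuous (continuous_circleMap _ _) fun u => s1 (m1 u)
  obtain ⟨s, ⟨t2, t3⟩, t4⟩ := (σ.X6_compact hρ.1 (s := θ₁) (t := θ₂)
    c1.continuousOn).exists_isGreatest ⟨θ₁, ⟨le_rfl, t1.1.le⟩, p2⟩
  have t5 : s < θ₂ := t2.2.lt_of_ne fun a => p5 (σ.D_sub hρ.1 (a ▸ t3))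
  have ho : ∀ u ∈ Ioc s θ₂, G (circleMap (σ.F z) r u) ∉ σ.D ρ := fun u hu a =>
    (t4 ⟨⟨t2.1.trans hu.1.le, hu.2⟩, a⟩).not_gt hu.1
  obtain ⟨t, ht, a, b, g⟩ := σ.first_hop (δ := 3 * r) hρ2 t5
    (continuous_circleMap (σ.F z) r).continuousOn
    ((g1 _ (s1 (m1 s))).2 ▸ σ.mapsTo_D hρ.1 t3)
    (by
      filter_upwards [Ioo_mem_nhdsGT t5, nhdsWithin_le_nhds
        (c1.continuousAt (σ.isOpen_Ω.mem_nhds (σ.D_sub hρ.1 t3)))] with u hu hu' a
      exact ho u ⟨hu.1, hu.2.le⟩ ((key _ a (m1 u)).1 hu')) p3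
    fun u _ u' _ => by
      have := mem_closedBall.1 (m1 u)
      have := mem_closedBall.1 (m1 u')
      linarith [dist_triangle_right (circleMap (σ.F z) r u) (circleMap (σ.F z) r u') (σ.F z)]
  refine ⟨s, t, a, b, by linarith only [ht, t1, t2, ht.2, t1.2, t2.1], g, _, c1.continuousOn,
    fun u _ => (g1 _ (s1 (m1 u))).2, fun a => ho t ht (a.1 t3)⟩

end Pool.Agent.Work.MP_042f46_an.Sx
end

-- merged part: Pool.Agent.Work.MP_042f46_an.X5
section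
/-!
# No wandering domain, hence small bad crosscuts have bounded age

Analogue of the end of `Chain.lean` (`Tr.mono`, `exists_good`) and of `Wander.lean` (copy and adapt, with `Enc` for `Good`).
Differences: poles are excluded by the definition of `Tr`; the path in `comp_link` is compact and `K` is closed (`IsCompact.exists_thickening_subset_open`); `out_comp'` replaces `out_comp`: `K ∪ connectedComponentIn Kᶜ y` is preconnected (`Fill_union`), unbounded (`exists_bound`) and disjoint from the other component.  The contradiction comes from the field `nw`.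
-/

open Set Metric Topology Filter

namespace Pool.Agent.Work.MP_042f46_an.Sx

variable (σ : Sx)

/-- points that are enclosed for all parameters -/
def Enc (x : ℂ) : Prop :=
  x ∉ σ.K ∧ ∀ (N : ℕ) (δ ε ρ₀ : ℝ), 0 < δ → 0 < ε → 1 < ρ₀ → σ.Tr N δ ε ρ₀ x

variable {σ} in
theorem X5_mono {N N' : ℕ} {δ δ' ε ε' ρ₀ ρ₀' : ℝ} {x : ℂ} (h : σ.Tr N δ ε ρ₀ x) (hN : N' ≤ N)
    (hδ : δ ≤ δ') (hε : ε ≤ ε') (hr : ρ₀ ≤ ρ₀') : σ.Tr N' δ' ε' ρ₀' x := by
  obtain ⟨r, h1, κ, s, t, a, b, h2, h3, h4⟩ := h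
  exact ⟨r, h1.trans hr, κ, s, t, a, b, h2.trans_le hε, h3,
    fun k hk => ⟨(h4 k (hk.trans hN)).1.mono hδ, (h4 k (hk.trans hN)).2⟩⟩

theorem exists_enc (h : σ.NoAge) : ∃ x, σ.Enc x := by
  by_contra hcon
  have key : ∀ s : Set ℂ, s.Finite → (∀ v ∈ s, v ∉ σ.K) → ∃ (N : ℕ) (δ ε r₀ : ℝ), 0 < δ ∧ 0 < ε ∧
      1 < r₀ ∧ ∀ v ∈ s, ¬ σ.Tr N δ ε r₀ v := by
    intro s hs
    induction s, hs using Set.Finite.induction_on with
    | empty => exact fun _ => ⟨0, 1, 1, 2, one_pos, one_pos, one_lt_two, fun v hv => hv.elim⟩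
    | @insert x s _ _ ih =>
      intro hK
      obtain ⟨N, δ, ε, r₀, h1, h2, h3, h4⟩ := ih fun v hv => hK v (mem_insert_of_mem _ hv)
      have hx : ¬ ∀ (N : ℕ) (δ ε r₀ : ℝ), 0 < δ → 0 < ε → 1 < r₀ → σ.Tr N δ ε r₀ x :=
        fun hx => hcon ⟨x, hK x (mem_insert _ _), hx⟩
      push Not at hx
      obtain ⟨N', δ', ε', r₀', h1', h2', h3', h4'⟩ := hx
      refine ⟨max N N', min δ δ', min ε ε', min r₀ r₀', lt_min h1 h1', lt_min h2 h2',
        lt_min h3 h3', ?_⟩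
      rintro v (rfl | hv) ht
      · exact h4' (X5_mono ht (le_max_right _ _) (min_le_right _ _) (min_le_right _ _)
          (min_le_right _ _))
      · exact h4 v hv (X5_mono ht (le_max_left _ _) (min_le_left _ _) (min_le_left _ _)
          (min_le_left _ _))
  obtain ⟨N, δ, ε, r₀, h1, h2, h3, h4⟩ := key (σ.V \ σ.K) (σ.V_fin.subset fun _ hv => hv.1)
    fun v hv => hv.2
  obtain ⟨v, v1, v2, v3⟩ := σ.exists_tr h N h1 h2 h3
  exact h4 v ⟨v1, v2⟩ v3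

theorem out_comp' {x y : ℂ} (hy : y ∉ connectedComponentIn σ.Kᶜ x) :
    Out (connectedComponentIn σ.Kᶜ x) y := by
  refine ⟨σ.K ∪ connectedComponentIn σ.Kᶜ y, Fill_union σ.isClosed_K σ.isConnected_Ω.closure y,
    fun hb => ?_, ?_, disjoint_union_left.2 ⟨disjoint_right.2 fun z hz =>
      connectedComponentIn_subset _ _ hz, disjoint_left.2 fun z h1 h2 => hy ?_⟩⟩
  · obtain ⟨R, -, hR⟩ := σ.exists_bound
    obtain ⟨R', hR'⟩ := hb.exists_norm_le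
    obtain ⟨p, hp⟩ := Fill_pt (max R R')
    have h1 : p ∈ σ.D 2 := by
      by_contra k
      have := hR 2 ⟨one_lt_two, le_rfl⟩ k
      rw [mem_ball_zero_iff] at this
      linarith only [hp, this, le_max_left R R']
    linarith only [hp, hR', h1, hR' p (Or.inl (σ.D_sub_K one_lt_two h1)), le_max_right R R']
  · by_cases k : y ∈ σ.K
    · exact Or.inl k
    · exact Or.inr (mem_connectedComponentIn k)
  · rw [connectedComponentIn_eq h2, ← connectedComponentIn_eq h1]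
    exact mem_connectedComponentIn (connectedComponentIn_nonempty_iff.1 ⟨z, h1⟩)

/-- the component of the complement of `K` -/
def X5_U (x : ℂ) : Set ℂ := connectedComponentIn σ.Kᶜ x

section X5_aux

variable {σ} {x y : ℂ}

theorem X5_sub (hy : y ∈ σ.X5_U x) : y ∉ σ.K := connectedComponentIn_subset _ _ hy

theorem X5_open (x : ℂ) : IsOpen (σ.X5_U x) := σ.isClosed_K.isOpen_compl.connectedComponentIn

theorem X5_self (h : σ.Enc x) : x ∈ σ.X5_U x := mem_connectedComponentIn h.1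

theorem X5_path (hy : y ∈ σ.X5_U x) : ∃ γ : Path x y, ∀ t, γ t ∈ σ.X5_U x := by
  have hx : x ∈ σ.Kᶜ := connectedComponentIn_nonempty_iff.1 ⟨y, hy⟩
  exact ((X5_open x).isConnected_iff_isPathConnected.1
    (isConnected_connectedComponentIn_iff.2 hx)).joinedIn x (mem_connectedComponentIn hx) y hy

theorem X5_zero {N : ℕ} {δ r s t a b : ℝ} {κ : ℝ → ℂ}
    (h : ∀ k ≤ N, σ.Hop r δ (σ.F^[k] ∘ κ) s t (a + k * σ.α) (b + k * σ.α) ∧
      ∀ p ∈ σ.P, Out (σ.cl (σ.F^[k] ∘ κ) s t r (a + k * σ.α) (b + k * σ.α)) p) :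
    σ.Hop r δ κ s t a b ∧ ∀ p ∈ σ.P, Out (σ.cl κ s t r a b) p := by
  simpa using h 0 N.zero_le

theorem X5_link (hy : y ∈ σ.X5_U x) : ∃ (C : Set ℂ) (δ : ℝ), 0 < δ ∧ IsPreconnected C ∧ x ∈ C ∧
    y ∈ C ∧ ∀ w ∈ C, ∀ z ∈ σ.K, δ ≤ dist w z := by
  obtain ⟨γ, hγ⟩ := X5_path hy
  have hc : IsCompact (range γ) := isCompact_range γ.continuous
  obtain ⟨δ, hδ, h⟩ := hc.exists_thickening_subset_open σ.isClosed_K.isOpen_compl
    (range_subset_iff.2 fun t => X5_sub (hγ t))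
  refine ⟨range γ, δ, hδ, isPreconnected_range γ.continuous, ⟨0, γ.source⟩, ⟨1, γ.target⟩,
    fun w hw z hz => not_lt.1 fun hlt => h (mem_thickening_iff.2 ⟨w, hw, ?_⟩) hz⟩
  rwa [dist_comm]

theorem X5_comp (h : σ.Enc x) (hy : y ∈ σ.X5_U x) : σ.Enc y := by
  obtain ⟨C, δ₀, hδ₀, hC, hx, hy', hd⟩ := X5_link hy
  refine ⟨X5_sub hy, fun N δ ε r₀ hδ hε hr => ?_⟩
  obtain ⟨r, hr', κ, s, t, a, b, h1, h2, h3⟩ := h.2 N (min δ δ₀) ε r₀ (lt_min hδ hδ₀) hε hr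
  exact ⟨r, hr', κ, s, t, a, b, h1, (X5_zero h3).1.enc_of_conn hC
    (fun w hw z hz => (min_le_right _ _).trans (hd w hw z hz)) hx hy' h2,
    fun k hk => ⟨(h3 k hk).1.mono (min_le_left _ _), (h3 k hk).2⟩⟩

theorem X5_not_P (h : σ.Enc x) : x ∉ σ.P := by
  intro hx
  obtain ⟨r, -, κ, s, t, a, b, -, h2, h3⟩ := h.2 0 1 1 2 one_pos one_pos one_lt_two
  exact h2 ((X5_zero h3).2 x hx)

theorem X5_iter {N : ℕ} {δ r s t a b : ℝ} {κ : ℝ → ℂ}
    (h : ∀ k ≤ N, σ.Hop r δ (σ.F^[k] ∘ κ) s t (a + k * σ.α) (b + k * σ.α) ∧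
      ∀ p ∈ σ.P, Out (σ.cl (σ.F^[k] ∘ κ) s t r (a + k * σ.α) (b + k * σ.α)) p)
    (he : ¬ Out (σ.cl κ s t r a b) x) {k : ℕ} (hk : k ≤ N) :
    ¬ Out (σ.cl (σ.F^[k] ∘ κ) s t r (a + k * σ.α) (b + k * σ.α)) (σ.F^[k] x) := by
  induction k with
  | zero => simpa using he
  | succ k ih =>
    have hk' : k ≤ N := Nat.le_of_succ_le hk
    have := (h k hk').1.enc_map (h k hk').2 (ih hk')
    rwa [Function.iterate_succ_apply', Function.iterate_succ', Function.comp_assoc, Nat.cast_succ,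
      add_one_mul, ← add_assoc, ← add_assoc]

theorem X5_map (h : σ.Enc x) : σ.Enc (σ.F x) := by
  refine ⟨fun hK => ?_, fun N δ ε r₀ hδ hε hr => ?_⟩
  · obtain ⟨_, ⟨y, hy, rfl⟩, hS⟩ := mem_closure_iff_nhds.1 hK _
      (σ.F_open x (X5_not_P h) _ ((X5_open x).mem_nhds (X5_self h)))
    obtain ⟨r₀, hr₀, hin⟩ := σ.eventually_in hS
    obtain ⟨r, hr, κ, s, t, a, b, -, h2, h3⟩ := (X5_comp h hy).2 1 1 1 r₀ one_pos one_pos hr₀
    obtain ⟨h4, h5⟩ := hin r ⟨(h3 1 le_rfl).1.rad.1, hr⟩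
    exact X5_iter h3 h2 le_rfl ((h3 1 le_rfl).1.out_D h4 fun ⟨s, _, hs⟩ => h5 s hs.symm)
  · obtain ⟨r, hr', κ, s, t, a, b, h1, h2, h3⟩ := h.2 (N + 1) δ ε r₀ hδ hε hr
    refine ⟨r, hr', σ.F ∘ κ, s, t, a + σ.α, b + σ.α, by rwa [add_sub_add_right_eq_sub],
      (X5_zero h3).1.enc_map (X5_zero h3).2 h2, fun k hk => ?_⟩
    have := h3 (k + 1) (Nat.succ_le_succ hk)
    rwa [Function.iterate_succ, Function.comp_assoc, Nat.cast_succ, add_one_mul,
      add_comm (k * σ.α), ← add_assoc, ← add_assoc] at this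

theorem X5_maps (h : σ.Enc x) : MapsTo σ.F (σ.X5_U x) (σ.X5_U (σ.F x)) := by
  refine mapsTo_iff_image_subset.2 (IsPreconnected.subset_connectedComponentIn
    (isPreconnected_connectedComponentIn.image _
      (σ.F_cont.mono fun y hy => X5_not_P (X5_comp h hy)))
    (mem_image_of_mem _ (X5_self h)) ?_)
  rintro _ ⟨y, hy, rfl⟩
  exact (X5_map (X5_comp h hy)).1

theorem X5_ne (h : σ.Enc x) {n : ℕ} (hn : 1 ≤ n) : σ.F^[n] x ∉ σ.X5_U x := by
  intro hx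
  obtain ⟨C, δ₀, hδ₀, hC, hx0, hxn, hd⟩ := X5_link hx
  obtain ⟨ε, hε, hsep⟩ := rot_sep σ.irr n
  obtain ⟨r, -, κ, s, t, a, b, h1, h2, h3⟩ := h.2 n (δ₀ / 4) (ε / 2) 2 (by positivity)
    (half_pos hε) one_lt_two
  have h6 := (h3 n le_rfl).1.enc_of_conn hC
    (fun w hw z hz => le_trans (by linarith only [hδ₀]) (hd w hw z hz)) hxn hx0 (X5_iter h3 h2 le_rfl)
  obtain ⟨m, hm⟩ := (X5_zero h3).1.pos' (h3 n le_rfl).1 h2 h6
    fun z hz => le_trans (by linarith only []) (hd x hx0 z hz)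
  rw [add_sub_add_right_eq_sub, add_sub_cancel_left] at hm
  have := hsep n hn le_rfl m
  linarith only [h1, hm, this]

theorem X5_inj (h : σ.Enc x) (hV : Disjoint (σ.X5_U (σ.F x)) σ.V) : InjOn σ.F (σ.X5_U x) := by
  intro z hz w hw hzw
  have e : σ.X5_U x = σ.X5_U z := connectedComponentIn_eq hz
  obtain ⟨γ, hγ⟩ := X5_path (e ▸ hw : w ∈ σ.X5_U z)
  have := lift_closed σ.V_fin σ.cov zero_le_one γ.continuous_extend.continuousOn
    (fun v hv => (σ.out_comp' (disjoint_right.1 hV hv)).anti (by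
        rintro _ ⟨_, ⟨s, hs, rfl⟩, rfl⟩
        rw [γ.extend_apply hs]
        exact X5_maps h (e ▸ hγ _))) (by rwa [γ.extend_zero, γ.extend_one])
  rwa [γ.extend_zero, γ.extend_one] at this

theorem X5_iters (h : σ.Enc x) (n : ℕ) : σ.Enc (σ.F^[n] x) := by
  induction n with
  | zero => exact h
  | succ n ih =>
    rw [Function.iterate_succ_apply']
    exact X5_map ih

theorem X5_disj (h : σ.Enc x) {m n : ℕ} (hmn : m ≠ n) :
    Disjoint (σ.X5_U (σ.F^[m] x)) (σ.X5_U (σ.F^[n] x)) := by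
  wlog hlt : m < n generalizing m n
  · exact (this hmn.symm (by omega)).symm
  refine disjoint_left.2 fun p h1 h2 => X5_ne (X5_iters h m) (n := n - m) (by omega) ?_
  have e : σ.X5_U (σ.F^[m] x) = σ.X5_U (σ.F^[n] x) :=
    (connectedComponentIn_eq h1).trans (connectedComponentIn_eq h2).symm
  rw [← Function.iterate_add_apply, Nat.sub_add_cancel hlt.le, e]
  exact X5_self (X5_iters h n)

end X5_aux

theorem not_enc (x : ℂ) : ¬ σ.Enc x := by
  intro hx₀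
  have hfin : (⋃ v ∈ σ.V, {k : ℕ | v ∈ σ.X5_U (σ.F^[k] x)}).Finite :=
    σ.V_fin.biUnion fun v _ => Set.Subsingleton.finite fun m hm n hn => by
      by_contra hmn
      exact disjoint_left.1 (X5_disj hx₀ hmn) hm hn
  obtain ⟨N, hN⟩ := hfin.bddAbove
  have hx : σ.Enc (σ.F^[N] x) := X5_iters hx₀ N
  have hV : ∀ n, Disjoint (σ.X5_U (σ.F (σ.F^[n] (σ.F^[N] x)))) σ.V := fun n => by
    refine disjoint_right.2 fun v hv hv' => ?_
    rw [← Function.iterate_add_apply, ← Function.iterate_succ_apply' σ.F] at hv'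
    have : (n + N).succ ≤ N := hN (mem_biUnion hv hv')
    omega
  generalize σ.F^[N] x = y at hx hV
  have hm : ∀ n, MapsTo σ.F^[n] (σ.X5_U y) (σ.X5_U (σ.F^[n] y)) := fun n => by
    induction n with
    | zero => exact mapsTo_id _
    | succ n ih =>
      rw [Function.iterate_succ_apply', Function.iterate_succ']
      exact (X5_maps (X5_iters hx n)).comp ih
  refine σ.nw (σ.X5_U y) (X5_open y) ⟨y, X5_self hx⟩ (frontier_comp σ.isClosed_K) (fun n => ?_)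
    (fun m n hmn => (X5_disj hx hmn).mono (hm m).image_subset (hm n).image_subset)
    fun n z hz k => X5_sub (hm n hz) (subset_closure k)
  induction n with
  | zero => exact injOn_id _
  | succ n ih =>
    rw [Function.iterate_succ']
    exact (X5_inj (X5_iters hx n) (hV n)).comp ih (hm n)

theorem age : ∃ (N : ℕ) (η ρ₀ : ℝ), 0 < η ∧ 1 < ρ₀ ∧ ∀ ρ ≤ ρ₀, ∀ κ s t a b,
    σ.Hop ρ η κ s t a b → σ.Bad ρ κ s t → ¬ σ.Single ρ κ s t N := by
  by_contra h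
  obtain ⟨x, hx⟩ := σ.exists_enc fun N δ ρ₀ hδ hρ => by
    by_contra k
    exact h ⟨N, δ, ρ₀, hδ, hρ, fun ρ h1 κ s t a b h2 h3 h4 => k ⟨ρ, h1, κ, s, t, a, b, h2, h3, h4⟩⟩
  exact σ.not_enc x hx

end Pool.Agent.Work.MP_042f46_an.Sx
end

-- merged part: Pool.Agent.Work.MP_042f46_an.Fwd
section
/-!
# Images of crosscuts; the first bad crosscut

Plans.  `exists_fwd`: take `δ' ≤ δ` from `unif`, so that `f ∘ κ` is continuous and small.  If `f (κ u) ∉ D r` on `Ioo 0 t` use `f_γ`.  Otherwise: for small `u > 0`, `κ u ∈ S \ D r`, so `f (κ u) ∉ D r` (`mem_D_of`);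
let `t'` be the least element of the closed set `{u ∈ Icc u₀ t | f (κ u) ∈ D r}` (`IsCompact.exists_isLeast`); `f (κ t') = γ r b'` by `exists_γ`, since it is a limit of points outside `D r`.
`exists_start`: let `z ≠ w` in `K` with `f z = f w = y`, `ρ` from `unif_inj` (so `ρ ≤ dist z w`).  Choose `ρ' ≤ min (δ / 2) (ρ / 4)`, `η` from `unif_surj ρ'`, points `z₁, w₁ ∈ S` so close to `z, w` that `f z₁, f w₁ ∈ ball y (min η (δ / 2))`, and `r` with `z₁, w₁ ∈ D r`.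
Let `s u = f z₁ + u • (f w₁ - f z₁)`, `u ∈ [0, 1]`, and `G u ∈ ball z ρ'` with `f (G u) = s u` (continuous by `cont_of_lift`; `G 0 = z₁`, `G 1 ∉ D r` since `f` is injective on `D r` and `G 1 ≠ w₁`).
Let `t₁` be the greatest element of the compact set `{u ∈ [0, 1] | G u ∈ D r}`.  For `u > t₁` close to `t₁`, `G u ∈ S \ D r`, so `s u ∉ D r`; let `t₂` be the least `u > t₁` with `s u ∈ D r` (`s 1 ∈ D r`).  Take `κ u = G (t₁ + u)`, `t = t₂ - t₁`.
-/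

open Set Metric Topology Filter

namespace Pool.Agent.Work.MP_042f46_an.Sg

variable (σ : Sg)

/-- the image of a crosscut of size `δ'` is a crosscut, or begins with a bad one -/
def Step (δ' δ : ℝ) : Prop :=
  ∀ r κ t a b, σ.Hop r δ' κ t a b → σ.Hop r δ (σ.f ∘ κ) t (a + σ.α) (b + σ.α) ∨
    ∃ t' b', σ.BadP r δ κ t' ∧ σ.Hop r δ (σ.f ∘ κ) t' (a + σ.α) b'

theorem Fwd_compact {r s t : ℝ} (hr : r < 1) {g : ℝ → ℂ} (hg : ContinuousOn g (Icc s t)) :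
    IsCompact (Icc s t ∩ g ⁻¹' σ.D r) :=
  isCompact_Icc.of_isClosed_subset
    (hg.preimage_isClosed_of_isClosed isClosed_Icc (σ.isCompact_D hr).isClosed) inter_subset_left

theorem Fwd_first {r δ t : ℝ} {κ : ℝ → ℂ} (hr : r ∈ Ico (1 / 2 : ℝ) 1) (ht : 0 < t)
    (hκ : ContinuousOn κ (Icc 0 t)) (hf : ContinuousOn (σ.f ∘ κ) (Icc 0 t)) (h0 : κ 0 ∈ σ.D r)
    (ho : ∀ u ∈ Ioo 0 t, κ u ∉ σ.D r) (h1 : σ.f (κ t) ∈ σ.D r)
    (hs : ∀ u ∈ Icc 0 t, dist (σ.f (κ u)) (σ.f (κ 0)) < δ) :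
    ∃ t' ∈ Ioc 0 t, ∃ a b, σ.Hop r δ (σ.f ∘ κ) t' a b := by
  have h2 : ∀ᶠ u in 𝓝[>] (0 : ℝ), u < t ∧ σ.f (κ u) ∉ σ.D r := by
    filter_upwards [Ioo_mem_nhdsGT ht, nhdsWithin_le_of_mem (Icc_mem_nhdsGT ht)
      (hκ 0 ⟨le_rfl, ht.le⟩ (σ.isOpen_S.mem_nhds (σ.D_sub hr.2 h0)))] with u a b
    exact ⟨a.2, fun c => ho u a (σ.mem_D_of hr.2 b c)⟩
  obtain ⟨u₀, hu, h3⟩ := mem_nhdsGT_iff_exists_Ioc_subset.1 h2
  have h4 := (h3 ⟨hu, le_rfl⟩).1.le
  obtain ⟨t', ⟨h5, h6⟩, h7⟩ := (σ.Fwd_compact hr.2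
    (hf.mono (Icc_subset_Icc_left hu.out.le))).exists_isLeast ⟨t, ⟨h4, le_rfl⟩, h1⟩
  have h8 : 0 < t' := hu.out.trans_le h5.1
  have h9 : ∀ u ∈ Ioo 0 t', (σ.f ∘ κ) u ∉ σ.D r := fun u a b => by
    rcases le_total u u₀ with c | c
    · exact (h3 ⟨a.1, c⟩).2 b
    · exact (h7 ⟨⟨c, a.2.le.trans h5.2⟩, b⟩).not_gt a.2
  have hc := hf.mono (Icc_subset_Icc_right h5.2)
  have hγ : ∀ u ∈ Icc 0 t', (σ.f ∘ κ) u ∈ σ.D r → ∃ a, (σ.f ∘ κ) u = σ.γ r a := fun u a b => by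
    refine σ.exists_γ hr.2 b fun c => ?_
    have := ((hc u a).mono Ioo_subset_Icc_self).mem_closure (t := (σ.D r)ᶜ)
      (closure_Ioo h8.ne ▸ a) h9
    rw [closure_compl] at this
    exact this (mem_interior_iff_mem_nhds.2 c)
  obtain ⟨a, ha⟩ := hγ 0 ⟨le_rfl, h8.le⟩ (σ.image_D hr.2 ▸ mem_image_of_mem _ h0)
  obtain ⟨b, hb⟩ := hγ t' ⟨h8.le, le_rfl⟩ h6
  exact ⟨t', ⟨h8, h5.2⟩, a, b, hr, h8, hc, ha, hb, h9, fun u c => hs u ⟨c.1, c.2.trans h5.2⟩⟩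

theorem exists_fwd {δ : ℝ} (hδ : 0 < δ) : ∃ δ' > 0, δ' ≤ δ ∧ σ.Step δ' δ := by
  obtain ⟨η, hη, h1⟩ := σ.unif hδ
  refine ⟨min δ η, lt_min hδ hη, min_le_left _ _, fun r κ t a b h => ?_⟩
  have hr : r ∈ Ico (0 : ℝ) 1 := ⟨by linarith only [h, h.rad.1], h.rad.2⟩
  have h0 : κ 0 ∈ σ.D r := h.start ▸ σ.γ_mem hr.1 a
  have h2 := fun u hu => h1 _ (σ.D_sub_K hr.2 h0) _ ((h.small u hu).trans_le (min_le_right _ _))
  have ea : (σ.f ∘ κ) 0 = σ.γ r (a + σ.α) := (congrArg _ h.start).trans (σ.f_γ hr a)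
  have eb : (σ.f ∘ κ) t = σ.γ r (b + σ.α) := (congrArg _ h.stop).trans (σ.f_γ hr b)
  obtain ⟨t', ht, a', b', g⟩ := σ.Fwd_first h.rad h.pos h.cont
    (σ.f_cont.comp h.cont fun u hu => (h2 u hu).1) h0 h.out (eb ▸ σ.γ_mem hr.1 _ :)
    fun u hu => (h2 u hu).2 _ (mem_ball_self hη)
  rcases ht.2.eq_or_lt with rfl | hl
  · exact .inl { g with start := ea, stop := eb }
  · exact .inr ⟨t', b', ⟨h.cont.mono (Icc_subset_Icc_right ht.2), h0, h.out _ ⟨ht.1, hl⟩,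
      fun u hu => (h.small u ⟨hu.1, hu.2.trans ht.2⟩).trans_le (min_le_left _ _)⟩,
      { g with start := ea }⟩

theorem exists_start (h : ¬ InjOn σ.f σ.K) {δ r₀ : ℝ} (hδ : 0 < δ) (hr : r₀ < 1) :
    ∃ r ≥ r₀, ∃ κ t a b, σ.BadP r δ κ t ∧ σ.Hop r δ (σ.f ∘ κ) t a b := by
  simp only [InjOn, not_forall] at h
  obtain ⟨z, hz, w, hw, e, hne⟩ := h
  obtain ⟨ρ, hρ, h1⟩ := σ.unif_inj
  obtain ⟨ρ', p0, p1, p2⟩ : ∃ ρ' > 0, ρ' ≤ δ / 2 ∧ ρ' ≤ ρ / 4 :=
    ⟨min _ _, lt_min (half_pos hδ) (by positivity), min_le_left _ _, min_le_right _ _⟩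
  obtain ⟨η, hη, h2⟩ := σ.unif_surj p0
  have h3 : ∀ x ∈ σ.K, ∃ x₁, (x₁ ∈ ball x ρ' ∧ σ.f x₁ ∈ ball (σ.f x) (min η (δ / 2))) ∧
      x₁ ∈ σ.S := fun x hx => mem_closure_iff_nhds.1 hx _ (inter_mem (ball_mem_nhds x p0)
    (σ.f_cont.continuousAt (σ.P_fin.isClosed.compl_mem_nhds (σ.K_not_P hx))
      (ball_mem_nhds _ (lt_min hη (half_pos hδ)))))
  obtain ⟨z₁, ⟨z1, z2⟩, z3⟩ := h3 z hz
  obtain ⟨w₁, ⟨w1, w2⟩, w3⟩ := h3 w hw
  obtain ⟨r₁, r1, r2⟩ := σ.eventually_in z3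
  obtain ⟨r₂, r3, r4⟩ := σ.eventually_in w3
  obtain ⟨r, hr0, hr1, hr2, hr3⟩ : ∃ r ≥ r₀, r ∈ Ico (1 / 2 : ℝ) 1 ∧ z₁ ∈ σ.D r ∧ w₁ ∈ σ.D r := by
    have : max (max r₀ (1 / 2)) (max r₁ r₂) < 1 := max_lt (max_lt hr (by norm_num)) (max_lt r1 r3)
    exact ⟨_, by simp, ⟨by simp, this⟩, (r2 _ ⟨by simp, this⟩).1, (r4 _ ⟨by simp, this⟩).1⟩
  have h4 : ∀ u ∈ Icc (0 : ℝ) 1,
      AffineMap.lineMap (σ.f z₁) (σ.f w₁) u ∈ ball (σ.f z) (min η (δ / 2)) := fun u hu =>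
    (convex_ball _ _).lineMap_mem z2 (e ▸ w2) hu
  choose! G g1 g2 using fun u hu =>
    h2 z hz z (mem_ball_self hη) _ (ball_subset_ball (min_le_left _ _) (h4 u hu))
  have hb : ball z ρ' ⊆ ball z ρ := ball_subset_ball (by linarith only [p0, p2])
  have c1 : ContinuousOn (σ.f ∘ G) (Icc 0 1) := AffineMap.lineMap_continuous.continuousOn.congr g2
  have c2 : ContinuousOn G (Icc 0 1) := fun u hu => σ.cont_of_lift (h1 z hz).1 (h1 z hz).2
    (by linarith only [p0, p2]) (eventually_mem_nhdsWithin.mono g1) (g1 u hu) (c1 u hu)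
  have m0 : (0 : ℝ) ∈ Icc (0 : ℝ) 1 := left_mem_Icc.2 zero_le_one
  have m1 : (1 : ℝ) ∈ Icc (0 : ℝ) 1 := right_mem_Icc.2 zero_le_one
  have G0 : G 0 = z₁ := (h1 z hz).1 (hb (g1 0 m0)) (hb z1) (by simp [g2 0 m0])
  have G1 : σ.f (G 1) = σ.f w₁ := by simp [g2 1 m1]
  obtain ⟨t₁, ⟨t1, t2⟩, t3⟩ := (σ.Fwd_compact hr1.2 c2).exists_isGreatest
    ⟨0, m0, show G 0 ∈ _ from G0 ▸ hr2⟩
  have t4 : 0 < 1 - t₁ := sub_pos.2 <| t1.2.lt_of_ne fun e' => by
    have := g1 1 m1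
    rw [σ.injOn_S (σ.D_sub hr1.2 (e' ▸ t2)) w3 G1] at this
    refine hne ((h1 z hz).1 (mem_ball_self hρ) ?_ e)
    rw [mem_ball] at w1 this ⊢
    linarith only [p0, p2, w1, this, dist_triangle_left w z w₁]
  have mp : MapsTo (fun u => t₁ + u) (Icc 0 (1 - t₁)) (Icc 0 1) := fun u hu =>
    ⟨add_nonneg t1.1 hu.1, le_sub_iff_add_le'.1 hu.2⟩
  have c3 := c2.comp (continuous_const_add t₁).continuousOn mp
  have ho : ∀ u ∈ Ioc 0 (1 - t₁), G (t₁ + u) ∉ σ.D r := fun u hu a =>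
    (t3 ⟨mp ⟨hu.1.le, hu.2⟩, a⟩).not_gt (lt_add_of_pos_right _ hu.1)
  have n0 : (0 : ℝ) ∈ Icc 0 (1 - t₁) := left_mem_Icc.2 t4.le
  have h0 : G (t₁ + 0) ∈ σ.D r := by rwa [add_zero]
  obtain ⟨t, ht, a, b, g⟩ := σ.Fwd_first (δ := δ) hr1 t4 c3
    (c1.comp (continuous_const_add t₁).continuousOn mp) h0 (fun u hu => ho u ⟨hu.1, hu.2.le⟩)
    (by
      rw [Function.comp, add_sub_cancel, G1]
      exact σ.image_D hr1.2 ▸ mem_image_of_mem _ hr3)
    fun u hu => by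
      simp only [Function.comp, g2 _ (mp hu), g2 _ (mp n0)]
      exact dist_triangle_right _ _ _ |>.trans_lt <| (add_lt_add (lt_min_iff.1 (h4 _ (mp hu))).2
        (lt_min_iff.1 (h4 _ (mp n0))).2).trans_eq (add_halves δ)
  refine ⟨r, hr0, _, t, a, b, ⟨c3.mono (Icc_subset_Icc_right ht.2), h0, ho t ht, fun u hu => ?_⟩, g⟩
  exact (dist_triangle_right _ _ _).trans_lt ((add_lt_add (g1 _ (mp ⟨hu.1, hu.2.trans ht.2⟩))
    (g1 _ (mp n0))).trans_le (by linarith only [p1]))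

end Pool.Agent.Work.MP_042f46_an.Sg
end

-- merged part: Pool.Agent.Work.MP_042f46_an.Chain
section
/-!
# A branch value enclosed by a crosscut with many images that are crosscuts

Plans.  `exists_scales`: induction on `T` with `exists_fwd` (shift the sequence).  `Tr.mono`: `Hop.mono`.
`exists_tr`: let `M = card V`, `T = (M + 1) * (N + 1)`.  Decrease `ε` so that `ε ≤ 1 / 2` and `2 ε` is at most the bound of `rot_sep T`; decrease `δ` so that `EscAt ε δ`, `exists_bad` holds, and `4 δ ≤ dist v z` for `v ∈ V \ K`, `z ∈ K`; increase `r₀`.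
Take `d` from `exists_scales` and `r, a` from `exists_start` with size `d 0`.  Call `(n, v)` fresh if `v ∈ V \ K` and there are `κ t b` with `Hop r (d (n + 1)) κ t (a + n α) b` (any fixed index shift is fine), `|b - (a + n α)| < ε`, `¬ Out (cl ..) v`.
Some `(0, v)` is fresh (`Hop.short`, `exists_bad`).  If `(n, v)` is fresh, `n + N + 1 < T`, and `Tr` fails, take the least `k ≥ 1` such that `f^[k] ∘ κ` is not a crosscut of size `d (n + k + 1)`; then `k ≤ N` and `Step` gives a fresh `(n + k, v')`.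
If `(n, v)` and `(n', v)` are fresh then `n = n'` (`Hop.pos'`, `rot_sep`).  So there are `M + 1` fresh pairs with distinct `v`, a contradiction.
`exists_good`: if every `v ∈ V \ K` fails for some parameters, take the maximum of the `N`, `r₀` and the minimum of the `δ`, `ε` (or use `Filter.eventually_all_finite` on a product filter), and `Tr.mono`.
-/

open Set Metric Topology Filter

namespace Pool.Agent.Work.MP_042f46_an.Sg

variable (σ : Sg)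

theorem exists_scales (T : ℕ) {δ : ℝ} (hδ : 0 < δ) : ∃ d : ℕ → ℝ,
    (∀ n, 0 < d n ∧ d n ≤ δ) ∧ ∀ n < T, σ.Step (d n) (d (n + 1)) := by
  induction T with
  | zero => exact ⟨fun _ => δ, fun _ => ⟨hδ, le_rfl⟩, fun n hn => absurd hn (Nat.not_lt_zero n)⟩
  | succ T ih =>
    obtain ⟨d, h1, h2⟩ := ih
    obtain ⟨δ', p1, p2, p3⟩ := σ.exists_fwd (h1 0).1
    refine ⟨fun n => Nat.casesOn n δ' d, fun n => ?_, fun n hn => ?_⟩
    · cases n with
      | zero => exact ⟨p1, p2.trans (h1 0).2⟩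
      | succ n => exact h1 n
    · cases n with
      | zero => exact p3
      | succ n => exact h2 n (by omega)

/-- `x` is enclosed by a crosscut whose first `N` images are crosscuts -/
def Tr (N : ℕ) (δ ε r₀ : ℝ) (x : ℂ) : Prop :=
  ∃ r ≥ r₀, ∃ κ t a b, |b - a| < ε ∧ ¬ Out (σ.cl κ t r a b) x ∧
    ∀ k ≤ N, σ.Hop r δ (σ.f^[k] ∘ κ) t (a + k * σ.α) (b + k * σ.α)

variable {σ} in
theorem Tr.mono {N N' : ℕ} {δ δ' ε ε' r₀ r₀' : ℝ} {x : ℂ} (h : σ.Tr N δ ε r₀ x) (hN : N' ≤ N)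
    (hδ : δ ≤ δ') (hε : ε ≤ ε') (hr : r₀' ≤ r₀) : σ.Tr N' δ' ε' r₀' x := by
  obtain ⟨r, h1, κ, t, a, b, h2, h3, h4⟩ := h
  exact ⟨r, hr.trans h1, κ, t, a, b, h2.trans_le hε, h3, fun k hk => (h4 k (hk.trans hN)).mono hδ⟩

theorem Chain_far : ∃ δ > 0, ∀ v ∈ σ.V, v ∉ σ.K → ∀ z ∈ σ.K, 4 * δ ≤ dist v z := by
  have h : ∀ᶠ δ in 𝓝[>] (0 : ℝ), ∀ v ∈ σ.V, v ∉ σ.K → ∀ z ∈ σ.K, 4 * δ ≤ dist v z := by
    refine (eventually_all_finite σ.V_fin).2 fun v _ => ?_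
    by_cases hv : v ∈ σ.K
    · exact Eventually.of_forall fun _ h => absurd hv h
    obtain ⟨ρ, hρ, hb⟩ := Metric.isOpen_iff.1 σ.isCompact_K.isClosed.isOpen_compl v hv
    filter_upwards [Ioc_mem_nhdsGT (show (0 : ℝ) < ρ / 4 by positivity)] with δ hδ _ z hz
    have : ρ ≤ dist z v := le_of_not_gt fun h => hb h hz
    rw [dist_comm]
    linarith only [this, hδ, hδ.2]
  obtain ⟨δ, h1, h2⟩ := (h.and self_mem_nhdsWithin).exists
  exact ⟨δ, h2, h1⟩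

theorem Chain_count {A : Type} {V : Set A} (hV : V.Finite) {N T : ℕ} (F : ℕ → A → Prop)
    (hT : hV.toFinset.card * N ≤ T) (h0 : ∃ v, F 0 v) (hF : ∀ n v, F n v → v ∈ V)
    (hs : ∀ n v, F n v → n + N ≤ T → ∃ k, 1 ≤ k ∧ k ≤ N ∧ ∃ w, F (n + k) w)
    (hu : ∀ n n' v, n < n' → n' ≤ T → F n v → ¬ F n' v) : False := by
  classical
  have key : ∀ i ≤ hV.toFinset.card, ∃ n ≤ i * N, ∃ s : Finset A, s.card = i + 1 ∧
      (∀ v ∈ s, ∃ n' ≤ n, F n' v) ∧ ∃ v, F n v := by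
    intro i
    induction i with
    | zero =>
      obtain ⟨v, hv⟩ := h0
      exact fun _ => ⟨0, by simp, {v}, by simp, by simpa using hv, v, hv⟩
    | succ i ih =>
      intro hi
      obtain ⟨n, hn, s, h1, h2, v, hv⟩ := ih (by omega)
      have e : (i + 1) * N ≤ T := (Nat.mul_le_mul_right N hi).trans hT
      rw [add_mul, one_mul] at e
      obtain ⟨k, k1, k2, w, hw⟩ := hs n v hv (by omega)
      have hws : w ∉ s := fun hws => by
        obtain ⟨n', p1, p2⟩ := h2 w hws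
        exact hu n' (n + k) w (by omega) (by omega) p2 hw
      refine ⟨n + k, by rw [add_mul, one_mul]; omega, insert w s, by
        rw [Finset.card_insert_of_notMem hws, h1], fun u hu => ?_, w, hw⟩
      rcases Finset.mem_insert.1 hu with rfl | hu
      · exact ⟨n + k, le_rfl, hw⟩
      · obtain ⟨n', p1, p2⟩ := h2 u hu
        exact ⟨n', by omega, p2⟩
  obtain ⟨n, -, s, h1, h2, -⟩ := key _ le_rfl
  have : s ⊆ hV.toFinset := fun v hv => by
    obtain ⟨n', -, p⟩ := h2 v hv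
    exact hV.mem_toFinset.2 (hF _ _ p)
  have := Finset.card_le_card this
  omega

theorem exists_tr (h : ¬ InjOn σ.f σ.K) (N : ℕ) {δ ε r₀ : ℝ} (hδ : 0 < δ) (hε : 0 < ε)
    (hr : r₀ < 1) : ∃ v ∈ σ.V, v ∉ σ.K ∧ σ.Tr N δ ε r₀ v := by
  by_contra hcon
  push Not at hcon
  obtain ⟨T, hT⟩ : ∃ T, σ.V_fin.toFinset.card * N ≤ T := ⟨_, le_rfl⟩
  obtain ⟨ε₀, hε₀, hsep⟩ := rot_sep σ.irr T
  obtain ⟨ε', e0, e1, e2, e3⟩ : ∃ ε' > 0, ε' ≤ ε ∧ ε' ≤ 1 / 2 ∧ ε' ≤ ε₀ / 2 :=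
    ⟨min ε (min (1 / 2) (ε₀ / 2)), by positivity, min_le_left _ _,
      (min_le_right _ _).trans (min_le_left _ _), (min_le_right _ _).trans (min_le_right _ _)⟩
  obtain ⟨δ₁, d1, hE⟩ := σ.exists_escAt e0
  obtain ⟨δ₂, d2, r₁, hr₁, hbad⟩ := σ.exists_bad
  obtain ⟨δ₃, d3, hfar⟩ := σ.Chain_far
  obtain ⟨δ', q0, q, q1, q2, q3⟩ : ∃ δ' > 0, δ' ≤ δ ∧ δ' ≤ δ₁ ∧ δ' ≤ δ₂ ∧ δ' ≤ δ₃ :=
    ⟨min (min δ δ₁) (min δ₂ δ₃), by positivity, (min_le_left _ _).trans (min_le_left _ _),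
      (min_le_left _ _).trans (min_le_right _ _), (min_le_right _ _).trans (min_le_left _ _),
      (min_le_right _ _).trans (min_le_right _ _)⟩
  obtain ⟨d, hd, hstep⟩ := σ.exists_scales T q0
  obtain ⟨r, hrr, κ₀, t₀, a, b₀, hb₀, hh₀⟩ := σ.exists_start h (hd 0).1 (max_lt hr hr₁)
  let F : ℕ → ℂ → Prop := fun n v => v ∈ σ.V ∧ v ∉ σ.K ∧ ∃ κ t b,
    σ.Hop r (d n) κ t (a + n * σ.α) b ∧ |b - (a + n * σ.α)| < ε' ∧
      ¬ Out (σ.cl κ t r (a + n * σ.α) b) v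
  have hA : ∀ (n : ℕ) κ t b, σ.BadP r (d n) κ t → σ.Hop r (d n) (σ.f ∘ κ) t (a + n * σ.α) b →
      ∃ v, F n v := by
    intro n κ t b h1 h2
    obtain ⟨b', h3, h4⟩ := h2.short (hE.mono le_rfl ((hd n).2.trans q1))
    have hle : d n ≤ δ₂ := (hd n).2.trans q2
    obtain ⟨v, v1, v2, v3⟩ := hbad r ((le_max_right _ _).trans hrr) κ t _ b'
      ⟨h1.cont, h1.start, h1.stop, fun u hu => (h1.small u hu).trans_le hle⟩ (h3.mono hle)
      (h4.trans_le e2)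
    exact ⟨v, v1, v2, _, t, b', h3, h4, v3⟩
  refine Chain_count σ.V_fin F hT (hA 0 κ₀ t₀ b₀ hb₀ (by simpa using hh₀)) (fun n v hv => hv.1)
    ?_ ?_
  · rintro n v ⟨v1, v2, κ, t, b, h1, h2, h3⟩ hn
    by_contra hno
    have key : ∀ k ≤ N, σ.Hop r (d (n + k)) (σ.f^[k] ∘ κ) t (a + n * σ.α + k * σ.α)
        (b + k * σ.α) := by
      intro k
      induction k with
      | zero => intro _; simpa using h1
      | succ k ih =>
        intro hk
        rcases hstep (n + k) (by omega) r _ t _ _ (ih (by omega)) with h4 | ⟨t', b', h4, h5⟩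
        · rw [Function.iterate_succ', Nat.cast_succ, add_mul, one_mul, ← add_assoc b,
            ← add_assoc (a + n * σ.α)]
          exact h4
        · refine absurd ⟨k + 1, by omega, hk, hA (n + (k + 1)) _ t' b' h4 ?_⟩ hno
          have e : a + ((n + (k + 1) : ℕ) : ℝ) * σ.α = a + n * σ.α + k * σ.α + σ.α := by
            push_cast
            ring
          rw [e]
          exact h5
    exact hcon v v1 v2 ⟨r, (le_max_left _ _).trans hrr, κ, t, _, b, h2.trans_le e1, h3,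
      fun k hk => (key k hk).mono ((hd _).2.trans q)⟩
  · rintro n n' v hn hn' ⟨v1, v2, κ, t, b, h1, h2, h3⟩ ⟨-, -, κ', t', b', h1', h2', h3'⟩
    obtain ⟨m, hm⟩ := (h1.mono (hd n).2).pos' (h1'.mono (hd n').2) (hE.mono e2 q1)
      (h2.trans_le e2) (h2'.trans_le e2) h3 h3' fun z hz => by linarith only [q3, hfar, v1, v2, hz, hfar v v1 v2 z hz]
    have h4 := hsep (n' - n) (by omega) (by omega) m
    rw [Nat.cast_sub hn.le] at h4
    have e : a + n' * σ.α - (a + n * σ.α) - m = ((n' : ℝ) - n) * σ.α - m := by ring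
    rw [e] at hm
    linarith only [e3, h2, h2', hm, h4]

/-- points that are enclosed for all parameters -/
def Good (x : ℂ) : Prop :=
  x ∉ σ.K ∧ ∀ (N : ℕ) (δ ε r₀ : ℝ), 0 < δ → 0 < ε → r₀ < 1 → σ.Tr N δ ε r₀ x

theorem exists_good (h : ¬ InjOn σ.f σ.K) : ∃ x, σ.Good x := by
  by_contra hcon
  have key : ∀ s : Set ℂ, s.Finite → (∀ v ∈ s, v ∉ σ.K) → ∃ (N : ℕ) (δ ε r₀ : ℝ), 0 < δ ∧ 0 < ε ∧
      r₀ < 1 ∧ ∀ v ∈ s, ¬ σ.Tr N δ ε r₀ v := by
    intro s hs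
    induction s, hs using Set.Finite.induction_on with
    | empty => exact fun _ => ⟨0, 1, 1, 0, one_pos, one_pos, one_pos, fun v hv => hv.elim⟩
    | @insert x s _ _ ih =>
      intro hK
      obtain ⟨N, δ, ε, r₀, h1, h2, h3, h4⟩ := ih fun v hv => hK v (mem_insert_of_mem _ hv)
      have hx : ¬ ∀ (N : ℕ) (δ ε r₀ : ℝ), 0 < δ → 0 < ε → r₀ < 1 → σ.Tr N δ ε r₀ x :=
        fun hx => hcon ⟨x, hK x (mem_insert _ _), hx⟩
      push Not at hx
      obtain ⟨N', δ', ε', r₀', h1', h2', h3', h4'⟩ := hx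
      refine ⟨max N N', min δ δ', min ε ε', max r₀ r₀', lt_min h1 h1', lt_min h2 h2',
        max_lt h3 h3', ?_⟩
      rintro v (rfl | hv) ht
      · exact h4' (ht.mono (le_max_right _ _) (min_le_right _ _) (min_le_right _ _)
          (le_max_right _ _))
      · exact h4 v hv (ht.mono (le_max_left _ _) (min_le_left _ _) (min_le_left _ _)
          (le_max_left _ _))
  obtain ⟨N, δ, ε, r₀, h1, h2, h3, h4⟩ := key (σ.V \ σ.K) (σ.V_fin.subset fun _ hv => hv.1)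
    fun v hv => hv.2
  obtain ⟨v, v1, v2, v3⟩ := σ.exists_tr h N h1 h2 h3
  exact h4 v ⟨v1, v2⟩ v3

end Pool.Agent.Work.MP_042f46_an.Sg
end
end

-- merged part: Pool.Agent.Work.MP_042f46_an.XH
section
-- merged part: Pool.Agent.Work.MP_042f46_an.XA
section
/-!
# Lengths of paths

Plans.  `path_len`: on `[s', t'] ⊆ (s, t)` use the fundamental theorem of calculus (`intervalIntegral.integral_eq_sub_of_hasDerivAt`, `enorm_integral_le_lintegral_enorm`), then let `s' → s`, `t' → t`.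
`confine`: otherwise let `u₁` be the first time after (or before) `u₀` with `|re (c u₁) - re (c u₀)| = R`; between `u₀` and `u₁` the real part is in `A`, and `path_len` gives a length `≥ R`.
`cross_len`: `path_len` on `[s, u₁]` and on `[u₁, t]`.  `cs_Ioo`: `ENNReal.lintegral_mul_le_Lp_mul_Lq` with `p = q = 2`.
`energy_two`: with `a, b` the two integrals (finite without loss of generality), `π ^ 2 ≤ s₁ * a`, `π ^ 2 ≤ (π - s₂) * b`, `s₁ + (π - s₂) ≤ π`, and `1 / p + 1 / q ≥ 4 / (p + q)`.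
`volume_near`: a union of at most `m` intervals.  `log_div`: `∫ r in δ..c, 1 / r = log (c / δ)`.
-/

open Set Metric Topology Filter MeasureTheory
open scoped ENNReal

namespace Pool.Agent.Work.MP_042f46_an

variable {c c' : ℝ → ℂ} {s t : ℝ}

theorem XA_seg (hd : ∀ u ∈ Ioo s t, HasDerivAt c (c' u) u) (hc' : ContinuousOn c' (Ioo s t))
    {x y : ℝ} (hx : x ∈ Ioo s t) (hy : y ∈ Ioo s t) (h : x ≤ y) :
    ‖c y - c x‖ₑ ≤ ∫⁻ u in Ioo x y, ‖c' u‖ₑ := by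
  have h1 : uIcc x y ⊆ Ioo s t := by
    rw [uIcc_of_le h]
    exact fun v hv => ⟨hx.1.trans_le hv.1, hv.2.trans_lt hy.2⟩
  rw [← intervalIntegral.integral_eq_sub_of_hasDerivAt (fun v hv => hd v (h1 hv))
    (hc'.mono h1).intervalIntegrable, intervalIntegral.integral_of_le h,
    integral_Ioc_eq_integral_Ioo]
  exact enorm_integral_le_lintegral_enorm _

theorem path_len (hst : s ≤ t) (hc : ContinuousOn c (Icc s t))
    (hd : ∀ u ∈ Ioo s t, HasDerivAt c (c' u) u) (hc' : ContinuousOn c' (Ioo s t)) :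
    ‖c t - c s‖ₑ ≤ ∫⁻ u in Ioo s t, ‖c' u‖ₑ := by
  rcases hst.eq_or_lt with rfl | hlt
  · simp
  have h1 : ∀ x ∈ Ioo s t, ∀ y ∈ Ioo s t, ‖c y - c x‖ₑ ≤ ∫⁻ u in Ioo s t, ‖c' u‖ₑ := by
    intro x hx y hy
    rcases le_total x y with h | h
    · exact (XA_seg hd hc' hx hy h).trans (lintegral_mono_set (Ioo_subset_Ioo hx.1.le hy.2.le))
    · rw [enorm_sub_rev]
      exact (XA_seg hd hc' hy hx h).trans (lintegral_mono_set (Ioo_subset_Ioo hy.1.le hx.2.le))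
  have hcl : closure (Ioo s t) = Icc s t := closure_Ioo hlt.ne
  have h2 : ∀ x ∈ Ioo s t, ‖c t - c x‖ₑ ≤ ∫⁻ u in Ioo s t, ‖c' u‖ₑ := fun x hx =>
    le_on_closure (f := fun y => ‖c y - c x‖ₑ) (h1 x hx)
      (hcl ▸ (hc.sub continuousOn_const).enorm) continuousOn_const (hcl ▸ right_mem_Icc.2 hst)
  exact le_on_closure (f := fun x => ‖c t - c x‖ₑ) h2
    (hcl ▸ (continuousOn_const.sub hc).enorm) continuousOn_const (hcl ▸ left_mem_Icc.2 hst)

theorem confine (hd : ∀ u ∈ Ioo s t, HasDerivAt c (c' u) u) (hc' : ContinuousOn c' (Ioo s t))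
    {u₀ R : ℝ} (hu : u₀ ∈ Ioo s t) {A : Set ℝ}
    (hA : Ioo ((c u₀).re - R) ((c u₀).re + R) ⊆ A) {f : ℝ → ℝ≥0∞}
    (hf : ∀ u ∈ Ioo s t, (c u).re ∈ A → ‖c' u‖ₑ ≤ f u)
    (hR : ∫⁻ u in Ioo s t, f u < ENNReal.ofReal R) :
    ∀ u ∈ Ioo s t, |(c u).re - (c u₀).re| < R := by
  intro u hu'
  by_contra hcon
  have hcont : ∀ x ∈ Ioo s t, ∀ y ∈ Ioo s t,
      IsCompact (Icc x y ∩ (fun v => |(c v).re - (c u₀).re|) ⁻¹' Ici R) := by
    intro x hx y hy
    refine isCompact_Icc.of_isClosed_subset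
      (ContinuousOn.preimage_isClosed_of_isClosed ?_ isClosed_Icc isClosed_Ici) inter_subset_left
    have : ContinuousOn c (Icc x y) := fun v hv =>
      (hd v ⟨hx.1.trans_le hv.1, hv.2.trans_lt hy.2⟩).continuousAt.continuousWithinAt
    exact ((Complex.continuous_re.comp_continuousOn this).sub continuousOn_const).abs
  have key : ∀ x ∈ Ioo s t, ∀ y ∈ Ioo s t, x ≤ y → R ≤ |(c y).re - (c x).re| →
      (∀ v ∈ Ioo x y, |(c v).re - (c u₀).re| < R) → False := by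
    intro x hx y hy hxy h1 h2
    have h3 : Ioo x y ⊆ Ioo s t := Ioo_subset_Ioo hx.1.le hy.2.le
    have h4 : ∫⁻ v in Ioo x y, ‖c' v‖ₑ ≤ ∫⁻ v in Ioo x y, f v :=
      setLIntegral_mono' measurableSet_Ioo fun v hv => hf v (h3 hv) (hA (by
        have := abs_lt.1 (h2 v hv)
        constructor <;> linarith only [this, this.1, this.2]))
    have h5 : ENNReal.ofReal R ≤ ‖c y - c x‖ₑ := by
      rw [← ofReal_norm]
      exact ENNReal.ofReal_le_ofReal (h1.trans (by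
        rw [← Complex.sub_re]; exact Complex.abs_re_le_norm _))
    exact absurd (h5.trans ((XA_seg hd hc' hx hy hxy).trans (h4.trans (lintegral_mono_set h3))))
      (not_le.2 hR)
  rcases le_total u₀ u with h | h
  · obtain ⟨u₁, ⟨h1, h2⟩, h3⟩ := (hcont u₀ hu u hu').exists_isLeast
      ⟨u, right_mem_Icc.2 h, not_lt.1 hcon⟩
    exact key u₀ hu u₁ ⟨hu.1.trans_le h1.1, h1.2.trans_lt hu'.2⟩ h1.1 h2 fun v hv =>
      not_le.1 fun h4 => hv.2.not_ge (h3 ⟨⟨hv.1.le, hv.2.le.trans h1.2⟩, h4⟩)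
  · obtain ⟨u₁, ⟨h1, h2⟩, h3⟩ := (hcont u hu' u₀ hu).exists_isGreatest
      ⟨u, left_mem_Icc.2 h, not_lt.1 hcon⟩
    exact key u₁ ⟨hu'.1.trans_le h1.1, h1.2.trans_lt hu.2⟩ u₀ hu h1.2 (by
      rw [abs_sub_comm]; exact h2) fun v hv =>
      not_le.1 fun h4 => hv.1.not_ge (h3 ⟨⟨h1.1.trans hv.1.le, hv.2.le⟩, h4⟩)

theorem cross_len (hc : ContinuousOn c (Icc s t)) (hd : ∀ u ∈ Ioo s t, HasDerivAt c (c' u) u)
    (hc' : ContinuousOn c' (Ioo s t)) {u₁ : ℝ} (hu : u₁ ∈ Ioo s t) (h1 : (c u₁).im = Real.pi / 2)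
    (hs : (c s).im = 0 ∨ (c s).im = Real.pi) (ht : (c t).im = 0 ∨ (c t).im = Real.pi) :
    ENNReal.ofReal Real.pi ≤ ∫⁻ u in Ioo s t, ‖c' u‖ₑ := by
  have h2 := path_len hu.1.le (hc.mono (Icc_subset_Icc_right hu.2.le))
    (fun u h => hd u ⟨h.1, h.2.trans hu.2⟩) (hc'.mono (Ioo_subset_Ioo_right hu.2.le))
  have h3 := path_len hu.2.le (hc.mono (Icc_subset_Icc_left hu.1.le))
    (fun u h => hd u ⟨hu.1.trans h.1, h.2⟩) (hc'.mono (Ioo_subset_Ioo_left hu.1.le))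
  have hp := Real.pi_pos
  have key : ∀ z w : ℂ, Real.pi / 2 ≤ |z.im - w.im| → ENNReal.ofReal (Real.pi / 2) ≤ ‖z - w‖ₑ := by
    intro z w h
    rw [← ofReal_norm]
    exact ENNReal.ofReal_le_ofReal (h.trans (by
      rw [← Complex.sub_im]; exact Complex.abs_im_le_norm _))
  have h4 := (key (c u₁) (c s) (by
    rw [h1, le_abs]
    rcases hs with h | h <;> rw [h]
    · left; linarith only []
    · right; linarith only [])).trans h2
  have h5 := (key (c t) (c u₁) (by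
    rw [h1, le_abs]
    rcases ht with h | h <;> rw [h]
    · right; linarith only []
    · left; linarith only [])).trans h3
  calc ENNReal.ofReal Real.pi = ENNReal.ofReal (Real.pi / 2) + ENNReal.ofReal (Real.pi / 2) := by
        rw [← ENNReal.ofReal_add (by positivity) (by positivity), add_halves]
    _ ≤ (∫⁻ u in Ioo s u₁, ‖c' u‖ₑ) + ∫⁻ u in Ioo u₁ t, ‖c' u‖ₑ := add_le_add h4 h5
    _ = ∫⁻ u in Ioo s u₁ ∪ Ioo u₁ t, ‖c' u‖ₑ := (lintegral_union measurableSet_Ioo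
        (Set.disjoint_left.2 fun v h h' => h.2.not_gt h'.1)).symm
    _ ≤ _ := lintegral_mono_set
        (union_subset (Ioo_subset_Ioo_right hu.2.le) (Ioo_subset_Ioo_left hu.1.le))

theorem cs_Ioo {g : ℝ → ℝ≥0∞} (hg : AEMeasurable g (volume.restrict (Ioo s t))) :
    (∫⁻ u in Ioo s t, g u) ^ 2 ≤ ENNReal.ofReal (t - s) * ∫⁻ u in Ioo s t, g u ^ 2 := by
  have h := ENNReal.lintegral_mul_le_Lp_mul_Lq (volume.restrict (Ioo s t))
    Real.HolderConjugate.two_two (f := fun _ => 1) (g := g) aemeasurable_const hg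
  simp only [Pi.mul_apply, one_mul, lintegral_const,
    Measure.restrict_apply_univ, Real.volume_Ioo, ENNReal.rpow_two] at h
  refine (pow_le_pow_left' h 2).trans_eq ?_
  rw [mul_pow, ← ENNReal.rpow_two, ← ENNReal.rpow_two (_ ^ (1 / 2 : ℝ)), ← ENNReal.rpow_mul,
    ← ENNReal.rpow_mul]
  norm_num

theorem energy_two {g₁ g₂ : ℝ → ℝ≥0∞} {s₁ s₂ : ℝ} (h0 : 0 < s₁) (h1 : s₁ ≤ s₂) (h2 : s₂ < Real.pi)
    (m₁ : AEMeasurable g₁ (volume.restrict (Ioo 0 s₁)))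
    (m₂ : AEMeasurable g₂ (volume.restrict (Ioo s₂ Real.pi)))
    (l₁ : ENNReal.ofReal Real.pi ≤ ∫⁻ u in Ioo 0 s₁, g₁ u)
    (l₂ : ENNReal.ofReal Real.pi ≤ ∫⁻ u in Ioo s₂ Real.pi, g₂ u) :
    ENNReal.ofReal (4 * Real.pi) ≤
      (∫⁻ u in Ioo 0 s₁, g₁ u ^ 2) + ∫⁻ u in Ioo s₂ Real.pi, g₂ u ^ 2 := by
  have h3 := (pow_le_pow_left' l₁ 2).trans (cs_Ioo m₁)
  have h4 := (pow_le_pow_left' l₂ 2).trans (cs_Ioo m₂)
  generalize ∫⁻ u in Ioo 0 s₁, g₁ u ^ 2 = a at h3 ⊢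
  generalize ∫⁻ u in Ioo s₂ Real.pi, g₂ u ^ 2 = b at h4 ⊢
  rcases eq_or_ne a ∞ with rfl | ha
  · simp
  rcases eq_or_ne b ∞ with rfl | hb
  · simp
  have hp := Real.pi_pos
  have key : ∀ {p : ℝ} {a : ℝ≥0∞}, 0 < p → a ≠ ∞ →
      ENNReal.ofReal Real.pi ^ 2 ≤ ENNReal.ofReal p * a → 4 * Real.pi - 4 * p ≤ a.toReal := by
    intro p a h5 h6 h7
    have h8 := ENNReal.toReal_mono (ENNReal.mul_ne_top ENNReal.ofReal_ne_top h6) h7
    rw [ENNReal.toReal_pow, ENNReal.toReal_mul, ENNReal.toReal_ofReal hp.le,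
      ENNReal.toReal_ofReal h5.le] at h8
    refine le_of_mul_le_mul_left ?_ h5
    linarith only [h8, sq_nonneg (Real.pi - 2 * p), sq_nonneg (Real.pi - (2 : ℝ) * p)]
  have h5 := key (by linarith only [h0]) ha h3
  have h6 := key (by linarith only [h2]) hb h4
  rw [ENNReal.ofReal_le_iff_le_toReal (ENNReal.add_ne_top.2 ⟨ha, hb⟩), ENNReal.toReal_add ha hb]
  linarith only [h1, h5, h6]

theorem volume_near {T : Set ℝ} {m : ℕ} (hT : T.encard ≤ m) (R : ℝ) :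
    volume {x : ℝ | ∃ p ∈ T, |x - p| ≤ R} ≤ m * ENNReal.ofReal (2 * R) := by
  have hf : T.Finite := Set.finite_of_encard_le_coe hT
  have h1 : {x : ℝ | ∃ p ∈ T, |x - p| ≤ R} = ⋃ p ∈ hf.toFinset, closedBall p R := by
    ext x
    simp [Real.dist_eq]
  rw [h1]
  refine (measure_biUnion_finset_le _ _).trans ?_
  simp only [Real.volume_closedBall, Finset.sum_const, nsmul_eq_mul]
  gcongr
  rw [hf.encard_eq_coe_toFinset_card] at hT
  exact_mod_cast hT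

theorem isClosed_near {T : Set ℝ} (hT : T.Finite) (R : ℝ) :
    IsClosed {x : ℝ | ∃ p ∈ T, |x - p| ≤ R} := by
  have h1 : {x : ℝ | ∃ p ∈ T, |x - p| ≤ R} = ⋃ p ∈ T, closedBall p R := by
    ext x
    simp [Real.dist_eq]
  rw [h1]
  exact hT.isClosed_biUnion fun _ _ => isClosed_closedBall

theorem log_div {a : ℝ} (ha : 0 < a) {M : ℝ≥0∞} (hM : M ≠ ∞) :
    ∃ δ ∈ Ioo 0 a, M < ∫⁻ r in Ioo δ a, ENNReal.ofReal (1 / r) := by
  have h0 : 0 ≤ M.toReal := ENNReal.toReal_nonneg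
  have h1 : 0 < a * Real.exp (-(M.toReal + 1)) := by positivity
  have h2 : a * Real.exp (-(M.toReal + 1)) < a :=
    mul_lt_of_lt_one_right ha (Real.exp_lt_one_iff.2 (by linarith only [h0]))
  refine ⟨_, ⟨h1, h2⟩, ?_⟩
  have h3 : IntegrableOn (fun r : ℝ => 1 / r) (Ioo (a * Real.exp (-(M.toReal + 1))) a) :=
    (ContinuousOn.integrableOn_Icc (continuousOn_const.div continuousOn_id fun r hr =>
      (h1.trans_le hr.1).ne')).mono_set Ioo_subset_Icc_self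
  rw [← ofReal_integral_eq_lintegral_ofReal h3 ((ae_restrict_iff' measurableSet_Ioo).2
    (Eventually.of_forall fun r hr => (one_div_pos.2 (h1.trans hr.1)).le)),
    ← integral_Ioc_eq_integral_Ioo, ← intervalIntegral.integral_of_le h2.le,
    integral_one_div_of_pos h1 ha, ENNReal.lt_ofReal_iff_toReal_lt hM, div_mul_cancel_left₀ ha.ne',
    Real.log_inv, Real.log_exp]
  linarith only []

theorem lintegral_period {f : ℝ → ℝ≥0∞} (hf : Measurable f) (hp : Function.Periodic f (2 * Real.pi))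
    (h : t ≤ s + 2 * Real.pi) :
    ∫⁻ u in Ioo s t, f u ≤ ∫⁻ u in Ioo (-Real.pi) Real.pi, f u := by
  have : Fact (0 < 2 * Real.pi) := ⟨by positivity⟩
  have key : ∀ x, ∫⁻ u in Ioc x (x + 2 * Real.pi), f u = ∫⁻ b : AddCircle (2 * Real.pi), hp.lift b :=
    fun x => AddCircle.lintegral_preimage (2 * Real.pi) x hp.lift
  calc ∫⁻ u in Ioo s t, f u ≤ ∫⁻ u in Ioc s (s + 2 * Real.pi), f u :=
        lintegral_mono_set fun u hu => ⟨hu.1, hu.2.le.trans h⟩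
    _ = ∫⁻ u in Ioc (-Real.pi) (-Real.pi + 2 * Real.pi), f u := (key _).trans (key _).symm
    _ = _ := by
      rw [show -Real.pi + 2 * Real.pi = Real.pi by ring, restrict_Ioo_eq_restrict_Ioc]

end Pool.Agent.Work.MP_042f46_an
end

-- merged part: Pool.Agent.Work.MP_042f46_an.XB
section
/-!
# The family of strips; every small bad crosscut meets the bad part of a strip

Plans.  `exists_cfg`: enumerate `V` (`Set.Finite.toFinset`, `Finset.equivFin` or a list), put `v 0 = v₀`, `v (j + 1)` the `j`-th point of `V` if it exists and is not in `D ρ`, and `v₀` otherwise; `exists_strip`.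
`proj_card`: `proj j` is the image under `re` of the preimage of `marks` under the injective map `Ψ`; count `marks`.
`free_of`, `bad_of_free`: the vertical paths `pt x`, `pt x'` cross the window; `good_or_bad`, `W_cross`.  `thick`: if `x'` is not near `proj j`, no point of `proj j` lies between `x` and `x'`; the numbers `0`, `L j`, `(Z (v l)).re` are in `proj j`.  `isOpen_Bd`: the finite set `proj j` is closed, then as in `thick`.
`core`: `Hop.norm`, `Hop.side` (and `Hop.shift`) give an arc for which `v₀` is `Out`; `Hop.bad_enc` gives an enclosed `v j`, take `j` least (`j ≠ 0`).  For `l < j` the image under `Ψ` of the segment from `Z (v l)` to `Z (v j)` meets the crosscut (`Hop.sep`, `convex_Sig`).  `l = 0` gives the point with imaginary part `π / 2`, and real part in `[0, L j]`.  Suppose that no point of the crosscut has real part near `proj j` (within `1`).  The real parts form a preconnected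 set `J` which misses `proj j`; it meets `[0, L j]`, so `J ⊆ (0, L j)`; for `l < j` it meets `uIcc (re (Z (v l))) (L j)`, so `J ⊆ (re (Z (v l)), ∞)`.  With `p = inf J`, `q = sup J` the window over `[p, q]` is free; `Strip.path`, `wall_of_mem`, `W_same`, `good_or_bad`, `W_cross` show that `vert ξ` is bad for `ξ ∈ J`.
`conf`: `confine` with `A = bx j (R + 1)` (`thick`).  `len_of_core`: `conf`, `Strip.path`, `wall_of_mem`, `cross_len`.
-/

open Set Metric Topology Filter MeasureTheory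
open scoped ENNReal

namespace Pool.Agent.Work.MP_042f46_an.Sx

/-- strips that join the base point to the branch values inside the curve -/
structure Cfg (σ : Sx) (ρ : ℝ) where
  n : ℕ
  v : ℕ → ℂ
  S : ℕ → σ.Strip ρ
  L : ℕ → ℝ
  rad : ρ ∈ Ioc (1 : ℝ) 2
  avoid : ∀ θ, σ.γ ρ θ ∉ σ.V
  n_le : n ≤ σ.V.ncard
  v_zero : v 0 = σ.v₀
  v_mem : ∀ j, v j ∈ σ.V ∨ v j = σ.v₀
  v_cov : ∀ u ∈ σ.V, u ∉ σ.D ρ → ∃ j ≤ n, v j = u
  L_nonneg : ∀ j, 0 ≤ L j
  at_zero : ∀ j, (S j).Ψ (pt 0 (Real.pi / 2)) = σ.v₀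
  at_L : ∀ j, (S j).Ψ (pt (L j) (Real.pi / 2)) = v j

variable {σ : Sx} {ρ : ℝ}

theorem exists_cfg (hρ : ρ ∈ Ioc (1 : ℝ) 2) (hV : ∀ θ, σ.γ ρ θ ∉ σ.V) : Nonempty (σ.Cfg ρ) := by
  classical
  have h0 : σ.v₀ ∉ σ.D ρ := fun h => σ.v₀_K (σ.D_sub_K hρ.1 h)
  set l : List ℂ := σ.V_fin.toFinset.toList with hl
  let v : ℕ → ℂ := fun j => Nat.casesOn j σ.v₀
    fun i => if l.getD i σ.v₀ ∈ σ.D ρ then σ.v₀ else l.getD i σ.v₀
  have hv : ∀ j, v j ∉ σ.D ρ := by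
    intro j
    cases j with
    | zero => exact h0
    | succ i =>
      simp only [v]
      split_ifs with h
      · exact h0
      · exact h
  choose S L hL h1 h2 using fun j => exists_strip (σ := σ) hρ.1 h0 (hv j)
  refine ⟨⟨l.length, v, S, L, hρ, hV, ?_, rfl, ?_, ?_, hL, h1, h2⟩⟩
  · rw [hl, Finset.length_toList, Set.ncard_eq_toFinset_card _ σ.V_fin]
  · intro j
    cases j with
    | zero => exact Or.inr rfl
    | succ i =>
      simp only [v]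
      split_ifs with h
      · exact Or.inr rfl
      · by_cases hi : i < l.length
        · left
          rw [List.getD_eq_getElem _ _ hi]
          have := List.getElem_mem hi
          rw [← Set.Finite.mem_toFinset σ.V_fin, ← Finset.mem_toList]
          exact this
        · right
          exact List.getD_eq_default _ _ (not_lt.1 hi)
  · intro u hu huD
    have : u ∈ l := by rw [hl, Finset.mem_toList, Set.Finite.mem_toFinset]; exact hu
    obtain ⟨i, hi, e⟩ := List.getElem_of_mem this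
    refine ⟨i + 1, hi, ?_⟩
    simp only [v]
    rw [List.getD_eq_getElem _ _ hi, e, if_neg huD]

variable (σ) in
/-- a bound for the number of marked points -/
noncomputable def mk' (N : ℕ) : ℕ := 3 * (N + 1) * (σ.V.ncard + 1)

namespace Cfg

variable (C : σ.Cfg ρ) (N : ℕ)

/-- the marked points -/
def marks : Set ℂ :=
  {u | u = σ.v₀ ∨ (∃ i ≤ N, u ∈ σ.F^[i] '' σ.V) ∨ ∃ i ≤ N, ∃ l ≤ C.n,
    u = σ.γ ρ ((C.S l).ω₁ + i * σ.α) ∨ u = σ.γ ρ ((C.S l).ω₂ + i * σ.α)}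

/-- their real parts in the strip `j` -/
def proj (j : ℕ) : Set ℝ := {x | ∃ z ∈ Sigc, z.re = x ∧ (C.S j).Ψ z ∈ C.marks N}

/-- the neighbourhood of size `R` of these real parts -/
def near (j : ℕ) (R : ℝ) : Set ℝ := {x | ∃ p ∈ C.proj N j, |x - p| ≤ R}

/-- the bad vertical crosscuts that are counted in the strip `j` -/
def Bd (j : ℕ) : Set ℝ :=
  {x | 0 < x ∧ x < C.L j ∧ (∀ l < j, ((C.S j).Z (C.v l)).re < x) ∧ x ∉ C.proj N j ∧
    σ.Bad ρ ((C.S j).vert x) 0 Real.pi}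

/-- the base of the box in which lengths are measured -/
def bx (j : ℕ) (R : ℝ) : Set ℝ := C.Bd N j ∪ C.near N j R

/-- the total width of the bad crosscuts -/
noncomputable def Φ : ℝ≥0∞ := ∑ j ∈ Finset.range (C.n + 1), volume (C.Bd N j)

theorem XB_mid (x : ℝ) : pt x (Real.pi / 2) ∈ Sig :=
  ⟨show 0 < Real.pi / 2 by positivity, show Real.pi / 2 < Real.pi by linarith only [Real.pi_pos]⟩

theorem XB_V {u : ℂ} (hu : u ∈ σ.V) : u ∈ C.marks N :=
  Or.inr (Or.inl ⟨0, Nat.zero_le _, u, hu, rfl⟩)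

theorem XB_v (l : ℕ) : C.v l ∈ C.marks N := by
  rcases C.v_mem l with h | h
  · exact C.XB_V N h
  · exact Or.inl h

theorem v_notMem (j : ℕ) : C.v j ∉ σ.D ρ := by
  rw [← C.at_L j]
  exact (C.S j).Ψ_notMem (XB_mid _)

theorem v_proj (j l : ℕ) : ((C.S j).Z (C.v l)).re ∈ C.proj N j := by
  obtain ⟨h1, h2⟩ := (C.S j).Z_mem (C.v_notMem l)
  exact ⟨_, Sig_sub h1, rfl, h2.symm ▸ C.XB_v N l⟩

theorem proj_card (j : ℕ) : (C.proj N j).encard ≤ σ.mk' N := by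
  classical
  have h1 : C.proj N j ⊆ (fun u => ((C.S j).Z u).re) '' C.marks N := by
    rintro x ⟨z, hz, rfl, hm⟩
    exact ⟨_, hm, by simp only [(C.S j).Z_Ψ hz]⟩
  set A : Finset ℂ := (Finset.range (N + 1)).biUnion fun i => σ.V_fin.toFinset.image σ.F^[i]
  set I := Finset.range (N + 1) ×ˢ Finset.range (C.n + 1)
  set B₁ : Finset ℂ := I.image fun p => σ.γ ρ ((C.S p.2).ω₁ + p.1 * σ.α)
  set B₂ : Finset ℂ := I.image fun p => σ.γ ρ ((C.S p.2).ω₂ + p.1 * σ.α)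
  have h2 : C.marks N ⊆ ↑(insert σ.v₀ A ∪ B₁ ∪ B₂) := by
    rintro u (h | ⟨i, hi, w, hw, h⟩ | ⟨i, hi, l, hl, h⟩)
    · simp [h]
    · have : u ∈ A := Finset.mem_biUnion.2 ⟨i, Finset.mem_range.2 (by omega),
        Finset.mem_image.2 ⟨w, σ.V_fin.mem_toFinset.2 hw, h⟩⟩
      simp [this]
    · have hI : (i, l) ∈ I :=
        Finset.mem_product.2 ⟨Finset.mem_range.2 (by omega), Finset.mem_range.2 (by omega)⟩
      rcases h with h | h
      · have : u ∈ B₁ := Finset.mem_image.2 ⟨_, hI, h.symm⟩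
        simp [this]
      · have : u ∈ B₂ := Finset.mem_image.2 ⟨_, hI, h.symm⟩
        simp [this]
  have hA : A.card ≤ (N + 1) * σ.V.ncard := by
    refine (Finset.card_biUnion_le_card_mul _ _ σ.V.ncard fun i _ => ?_).trans (by simp)
    rw [Set.ncard_eq_toFinset_card _ σ.V_fin]
    exact Finset.card_image_le
  have hI : I.card ≤ (N + 1) * (σ.V.ncard + 1) := by
    simp only [I, Finset.card_product, Finset.card_range]
    exact Nat.mul_le_mul_left _ (by have := C.n_le; omega)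
  have h3 : (insert σ.v₀ A ∪ B₁ ∪ B₂).card ≤ σ.mk' N := by
    have a1 := Finset.card_union_le (insert σ.v₀ A ∪ B₁) B₂
    have a2 := Finset.card_union_le (insert σ.v₀ A) B₁
    have a3 := Finset.card_insert_le σ.v₀ A
    have a4 : B₁.card ≤ I.card := Finset.card_image_le
    have a5 : B₂.card ≤ I.card := Finset.card_image_le
    unfold mk'
    linarith only [hA, hI, a1, a2, a3, a4, a5]
  calc (C.proj N j).encard ≤ (C.marks N).encard := (Set.encard_le_encard h1).trans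
        (Set.encard_image_le _ _)
    _ ≤ _ := Set.encard_le_encard h2
    _ ≤ _ := by rw [Set.encard_coe_eq_coe_finsetCard]; exact_mod_cast h3

theorem proj_fin (j : ℕ) : (C.proj N j).Finite := by
  exact Set.finite_of_encard_le_coe (C.proj_card N j)

theorem free_of {j : ℕ} {p q : ℝ} (h : ∀ x ∈ Icc p q, x ∉ C.proj N j) :
    (C.S j).Free (C.marks N) p q := by
  exact fun z hz hp hm => h _ hp ⟨z, hz, rfl, hm⟩

theorem free_near {j : ℕ} {x R : ℝ} (h : x ∉ C.near N j R) :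
    (C.S j).Free (C.marks N) (x - R) (x + R) := by
  refine C.free_of N fun y hy hp => h ⟨y, hp, abs_le.2 ⟨?_, ?_⟩⟩
  · linarith only [hy, hy.2]
  · linarith [hy.1]

theorem XB_free {j : ℕ} {p q : ℝ} (h : (C.S j).Free (C.marks N) p q) : (C.S j).Free σ.V p q :=
  fun z hz hp hm => h z hz hp (C.XB_V N hm)

theorem XB_inW (S : σ.Strip ρ) {p q x : ℝ} (hx : x ∈ Icc p q) :
    S.InW p q (pt x) (S.vert x) (Icc 0 Real.pi) :=
  ⟨fun y _ => (hasDerivAt_pt x y).continuousAt.continuousWithinAt, fun _ hu => ⟨hu, hx, rfl⟩⟩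

theorem XB_gb {j : ℕ} {p q x : ℝ} (hf : (C.S j).Free σ.V p q) (hx : x ∈ Icc p q) :
    σ.Good ρ ((C.S j).vert x) 0 Real.pi ∨ σ.Bad ρ ((C.S j).vert x) 0 Real.pi :=
  good_or_bad C.rad.1 Real.pi_pos.le ((C.S j).cont_vert x) ((C.S j).wall false x)
    fun u hu => hf (pt x u) hu hx

theorem bad_of_free {j : ℕ} {p q x x' : ℝ} (h : (C.S j).Free (C.marks N) p q) (hx : x ∈ Icc p q)
    (hx' : x' ∈ Icc p q) (hb : σ.Bad ρ ((C.S j).vert x) 0 Real.pi) :
    σ.Bad ρ ((C.S j).vert x') 0 Real.pi := by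
  have hf := C.XB_free N h
  rcases C.XB_gb hf hx' with hg | hg
  · exact absurd hb ((C.S j).W_cross C.rad.1 hf Real.pi_pos.le Real.pi_pos.le (XB_inW _ hx')
      (XB_inW _ hx) (w := false) (w' := false) rfl rfl rfl rfl hg)
  · exact hg

theorem XB_zero (j : ℕ) : (0 : ℝ) ∈ C.proj N j :=
  ⟨pt 0 (Real.pi / 2), Sig_sub (XB_mid _), rfl, (C.at_zero j).symm ▸ Or.inl rfl⟩

theorem XB_L (j : ℕ) : C.L j ∈ C.proj N j :=
  ⟨pt (C.L j) (Real.pi / 2), Sig_sub (XB_mid _), rfl, (C.at_L j).symm ▸ C.XB_v N j⟩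

theorem XB_step {j : ℕ} {x x' : ℝ} (hx : x ∈ C.Bd N j) (h : ∀ p ∈ uIcc x x', p ∉ C.proj N j) :
    x' ∈ C.Bd N j := by
  obtain ⟨h1, h2, h3, _, h5⟩ := hx
  have lo : ∀ p ∈ C.proj N j, p < x → p < x' := fun p hp hl => by
    by_contra hc
    exact h p (mem_uIcc.2 (Or.inr ⟨not_lt.1 hc, hl.le⟩)) hp
  refine ⟨lo _ (C.XB_zero N j) h1, ?_, fun l hl => lo _ (C.v_proj N j l) (h3 l hl),
    h _ right_mem_uIcc, C.bad_of_free N (C.free_of N h) left_mem_uIcc right_mem_uIcc h5⟩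
  by_contra hc
  exact h _ (mem_uIcc.2 (Or.inl ⟨h2.le, not_lt.1 hc⟩)) (C.XB_L N j)

theorem thick {j : ℕ} {x x' R : ℝ} (hx : x ∈ C.Bd N j) (h : |x' - x| ≤ R) : x' ∈ C.bx N j R := by
  by_cases hn : x' ∈ C.near N j R
  · exact Or.inr hn
  · refine Or.inl (C.XB_step N hx fun p hp hpp => hn ⟨p, hpp, ?_⟩)
    rw [abs_sub_comm] at h ⊢
    exact (abs_sub_right_of_mem_uIcc hp).trans' (le_of_eq (abs_sub_comm _ _)) |>.trans
      ((le_of_eq (abs_sub_comm _ _)).trans h)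

theorem isOpen_Bd (j : ℕ) : IsOpen (C.Bd N j) := by
  rw [Metric.isOpen_iff]
  intro x hx
  obtain ⟨ε, hε, hb⟩ := Metric.isOpen_iff.1 (C.proj_fin N j).isClosed.isOpen_compl x hx.2.2.2.1
  refine ⟨ε, hε, fun x' hx' => C.XB_step N hx fun p hp => hb ?_⟩
  exact (convex_ball x ε).ordConnected.uIcc_subset (mem_ball_self hε) hx' hp

theorem meas_near (j : ℕ) (R : ℝ) : MeasurableSet (C.near N j R) := by
  exact (isClosed_near (C.proj_fin N j) R).measurableSet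

theorem meas_bx (j : ℕ) (R : ℝ) : MeasurableSet (C.bx N j R) := by
  exact (C.isOpen_Bd N j).measurableSet.union (C.meas_near N j R)

theorem volume_near_le (j : ℕ) (R : ℝ) :
    volume (C.near N j R) ≤ σ.mk' N * ENNReal.ofReal (2 * R) := by
  exact volume_near (C.proj_card N j) R

theorem Φ_ne_top : C.Φ N ≠ ∞ := by
  refine ENNReal.sum_ne_top.2 fun j _ => ?_
  have : C.Bd N j ⊆ Ioo 0 (C.L j) := fun x hx => ⟨hx.1, hx.2.1⟩
  exact ne_top_of_le_ne_top (by simp) (measure_mono this)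

theorem core {δ s t a b : ℝ} {κ : ℝ → ℂ} (hfar : ∀ z ∈ σ.K, 4 * δ ≤ dist σ.v₀ z)
    (h : σ.Hop ρ δ κ s t a b) (hb : σ.Bad ρ κ s t) :
    ∃ j ≤ C.n, (∃ u ∈ Ioo s t, ((C.S j).Z (κ u)).re ∈ C.bx N j 1) ∧
      ∃ u ∈ Ioo s t, ((C.S j).Z (κ u)).im = Real.pi / 2 := by
  classical
  obtain ⟨a', b', h', ho⟩ : ∃ a' b', σ.Hop ρ δ κ s t a' b' ∧ Out (σ.cl κ s t ρ a' b') σ.v₀ := by
    obtain ⟨b', h', h1, h2, -⟩ := h.norm
    rcases h'.side h1 h2.le hfar with ho | ho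
    · exact ⟨_, _, h', ho⟩
    · exact ⟨a + 1, b', by simpa using h'.shift 1 0, ho⟩
  obtain ⟨w, hw, hwD, hwo⟩ := h'.bad_enc hb C.avoid
  obtain ⟨j₀, hj₀, e⟩ := C.v_cov w hw hwD
  have hex : ∃ j, ¬ Out (σ.cl κ s t ρ a' b') (C.v j) := ⟨j₀, e ▸ hwo⟩
  set j := Nat.find hex with hj
  have hjo : ¬ Out (σ.cl κ s t ρ a' b') (C.v j) := Nat.find_spec hex
  have hjn : j ≤ C.n := (Nat.find_min' hex (e ▸ hwo)).trans hj₀
  set S := C.S j with hS
  have hZj : S.Z (C.v j) = pt (C.L j) (Real.pi / 2) := by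
    rw [← C.at_L j]; exact S.Z_Ψ (Sig_sub (XB_mid _))
  have hZ0 : S.Z (C.v 0) = pt 0 (Real.pi / 2) := by
    rw [C.v_zero, ← C.at_zero j]; exact S.Z_Ψ (Sig_sub (XB_mid _))
  have meet : ∀ l, Out (σ.cl κ s t ρ a' b') (C.v l) →
      ∃ u ∈ Ioo s t, S.Z (κ u) ∈ segment ℝ (S.Z (C.v l)) (S.Z (C.v j)) := by
    intro l hl
    obtain ⟨l1, l2⟩ := S.Z_mem (C.v_notMem l)
    obtain ⟨j1, j2⟩ := S.Z_mem (C.v_notMem j)
    have hsub := convex_Sig.segment_subset l1 j1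
    obtain ⟨u, hu, z, hz, e⟩ := h'.sep (C := S.Ψ '' segment ℝ (S.Z (C.v l)) (S.Z (C.v j)))
      ((convex_segment _ _).isPreconnected.image _ (S.cont.mono (hsub.trans Sig_sub)))
      (by rintro _ ⟨z, hz, rfl⟩; exact S.Ψ_notMem (hsub hz))
      ⟨_, left_mem_segment _ _ _, l2⟩ ⟨_, right_mem_segment _ _ _, j2⟩ hl hjo
    exact ⟨u, hu, by rw [← e, S.Z_Ψ (Sig_sub (hsub hz))]; exact hz⟩
  have seg : ∀ {x y z : ℂ}, z ∈ segment ℝ x y → z.re ∈ uIcc x.re y.re ∧ z.im ∈ uIcc x.im y.im := by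
    intro x y z hz
    rw [← segment_eq_uIcc, ← segment_eq_uIcc]
    obtain ⟨p, q, hp, hq, hpq, rfl⟩ := hz
    exact ⟨⟨p, q, hp, hq, hpq, by simp⟩, ⟨p, q, hp, hq, hpq, by simp⟩⟩
  obtain ⟨u₀, hu₀, hs₀⟩ := meet 0 (C.v_zero ▸ ho)
  rw [hZ0, hZj] at hs₀
  obtain ⟨r0, i0⟩ := seg hs₀
  have i0' : (S.Z (κ u₀)).im = Real.pi / 2 := by simpa [pt] using i0
  have r0' : (S.Z (κ u₀)).re ∈ Icc 0 (C.L j) := by
    rw [← uIcc_of_le (C.L_nonneg j)]; exact r0
  refine ⟨j, hjn, ?_, u₀, hu₀, i0'⟩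
  by_contra hcon
  push Not at hcon
  set J := (fun u => (S.Z (κ u)).re) '' Ioo s t with hJ
  have hnear : ∀ y ∈ J, ∀ p ∈ C.proj N j, ¬ |y - p| ≤ 1 := by
    rintro _ ⟨u, hu, rfl⟩ p hp hle
    exact hcon u hu (Or.inr ⟨p, hp, hle⟩)
  have hnp : ∀ y ∈ J, y ∉ C.proj N j := fun y hy hp => hnear y hy y hp (by simp)
  have hJc : OrdConnected J := by
    refine IsPreconnected.ordConnected (isPreconnected_Ioo.image _ ?_)
    exact Complex.continuous_re.comp_continuousOn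
      (S.Z_diff.continuousOn.comp (h.cont.mono Ioo_subset_Icc_self) h.out)
  set ξ := (S.Z (κ u₀)).re with hξ
  have hξJ : ξ ∈ J := ⟨u₀, hu₀, rfl⟩
  have btw : ∀ y ∈ J, ∀ y' ∈ J, ∀ p ∈ C.proj N j, p < y → p < y' := by
    intro y hy y' hy' p hp hl
    by_contra hc
    exact hnp p (hJc.out hy' hy ⟨not_lt.1 hc, hl.le⟩) hp
  have btw' : ∀ y ∈ J, ∀ y' ∈ J, ∀ p ∈ C.proj N j, y < p → y' < p := by
    intro y hy y' hy' p hp hl
    by_contra hc
    exact hnp p (hJc.out hy hy' ⟨hl.le, not_lt.1 hc⟩) hp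
  have x0 : 0 < ξ := lt_of_le_of_ne r0'.1 fun e => hnp ξ hξJ (e ▸ C.XB_zero N j)
  have xL : ξ < C.L j := lt_of_le_of_ne r0'.2 fun e => hnp ξ hξJ (e ▸ C.XB_L N j)
  have hb1 : BddBelow J := ⟨0, fun y hy => (btw _ hξJ y hy _ (C.XB_zero N j) x0).le⟩
  have hb2 : BddAbove J := ⟨C.L j, fun y hy => (btw' _ hξJ y hy _ (C.XB_L N j) xL).le⟩
  have hmem : ∀ y ∈ J, y ∈ Icc (sInf J) (sSup J) := fun y hy => ⟨csInf_le hb1 hy, le_csSup hb2 hy⟩
  have hfree : S.Free σ.V (sInf J) (sSup J) := by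
    refine C.XB_free N (C.free_of N fun x hx hp => ?_)
    obtain ⟨y₁, m₁, l₁⟩ := exists_lt_of_csInf_lt ⟨ξ, hξJ⟩ (show sInf J < x + 1 by linarith only [hx, hx.1])
    obtain ⟨y₂, m₂, l₂⟩ := exists_lt_of_lt_csSup ⟨ξ, hξJ⟩ (show x - 1 < sSup J by linarith only [hx, hx.2])
    have n₁ := hnear y₁ m₁ x hp
    have n₂ := hnear y₂ m₂ x hp
    rw [abs_le] at n₁ n₂
    have c₁ : y₁ < x := by
      by_contra hc
      exact n₁ ⟨by linarith only [hc], by linarith only [l₁]⟩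
    have c₂ := btw' _ m₁ _ m₂ _ hp c₁
    exact n₂ ⟨by linarith only [l₂], by linarith only [l₂, c₂]⟩
  obtain ⟨pc, pm⟩ := S.path h.lt h.cont fun u hu => ⟨h.out u hu, hmem _ ⟨u, hu, rfl⟩⟩
  have hW : S.InW (sInf J) (sSup J) (S.Z ∘ κ) κ (Icc s t) := ⟨pc, pm⟩
  have hρ0 : 0 ≤ ρ := zero_le_one.trans C.rad.1.le
  obtain ⟨w₁, e₁⟩ := S.wall_of_mem (pm s (left_mem_Icc.2 h.lt.le)).1
    (by rw [(pm s (left_mem_Icc.2 h.lt.le)).2.2, h.start]; exact σ.γ_mem hρ0 _)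
  obtain ⟨w₂, e₂⟩ := S.wall_of_mem (pm t (right_mem_Icc.2 h.lt.le)).1
    (by rw [(pm t (right_mem_Icc.2 h.lt.le)).2.2, h.stop]; exact σ.γ_mem hρ0 _)
  have hbad : σ.Bad ρ (S.vert ξ) 0 Real.pi := by
    by_cases hww : w₂ = w₁
    · exact absurd hb (S.W_same C.rad.1 hfree h.lt.le hW e₁ (hww ▸ e₂))
    · have hw2 : w₂ = !w₁ := by revert hww; cases w₁ <;> cases w₂ <;> decide
      rcases C.XB_gb hfree (hmem ξ hξJ) with hg | hg
      · exact absurd hb (S.W_cross C.rad.1 hfree Real.pi_pos.le h.lt.le (XB_inW _ (hmem ξ hξJ))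
          hW (w := false) rfl rfl e₁ (hw2 ▸ e₂) hg)
      · exact hg
  refine hcon u₀ hu₀ (Or.inl ⟨x0, xL, fun l hl => ?_, hnp ξ hξJ, hbad⟩)
  obtain ⟨u, hu, hs⟩ := meet l (not_not.1 (Nat.find_min hex hl))
  have r := (seg hs).1
  rw [hZj] at r
  have hyJ : (S.Z (κ u)).re ∈ J := ⟨u, hu, rfl⟩
  have yL := btw' _ hξJ _ hyJ _ (C.XB_L N j) xL
  refine btw _ hyJ _ hξJ _ (C.v_proj N j l) ?_
  rcases mem_uIcc.1 r with r | r
  · exact lt_of_le_of_ne r.1 fun e => hnp _ hyJ (e ▸ C.v_proj N j l)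
  · exact absurd r.1 (not_le.2 yL)

theorem conf {j : ℕ} {s t R : ℝ} {c c' : ℝ → ℂ} (hd : ∀ u ∈ Ioo s t, HasDerivAt c (c' u) u)
    (hc' : ContinuousOn c' (Ioo s t)) {u₀ : ℝ} (hu : u₀ ∈ Ioo s t) (h0 : (c u₀).re ∈ C.bx N j 1)
    {f : ℝ → ℝ≥0∞} (hf : ∀ u ∈ Ioo s t, (c u).re ∈ C.bx N j (R + 1) → ‖c' u‖ₑ ≤ f u)
    (hR : ∫⁻ u in Ioo s t, f u < ENNReal.ofReal R) :
    ∀ u ∈ Ioo s t, |(c u).re - (c u₀).re| < R ∧ (c u).re ∈ C.bx N j (R + 1) := by
  have hA : Ioo ((c u₀).re - R) ((c u₀).re + R) ⊆ C.bx N j (R + 1) := by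
    intro y hy
    have hy' : |y - (c u₀).re| ≤ R := abs_le.2 ⟨by linarith only [hy, hy.1], by linarith [hy.2]⟩
    rcases h0 with h0 | ⟨p, hp, h0⟩
    · exact C.thick N h0 (by linarith)
    · refine Or.inr ⟨p, hp, ?_⟩
      have := abs_sub_le y (c u₀).re p
      linarith only [hy', h0, this]
  intro u hu'
  have := confine hd hc' hu hA hf hR u hu'
  exact ⟨this, hA ⟨by linarith only [this, (abs_lt.1 this).1], by linarith [(abs_lt.1 this).2]⟩⟩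

theorem len_of_core {j : ℕ} {δ s t a b R : ℝ} {κ c' : ℝ → ℂ} (h : σ.Hop ρ δ κ s t a b)
    (hd : ∀ u ∈ Ioo s t, HasDerivAt ((C.S j).Z ∘ κ) (c' u) u) (hc' : ContinuousOn c' (Ioo s t))
    (h0 : ∃ u ∈ Ioo s t, ((C.S j).Z (κ u)).re ∈ C.bx N j 1)
    (h1 : ∃ u ∈ Ioo s t, ((C.S j).Z (κ u)).im = Real.pi / 2) {f : ℝ → ℝ≥0∞}
    (hf : ∀ u ∈ Ioo s t, ((C.S j).Z (κ u)).re ∈ C.bx N j (R + 1) → ‖c' u‖ₑ ≤ f u)
    (hR : ∫⁻ u in Ioo s t, f u < ENNReal.ofReal R) :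
    (∀ u ∈ Ioo s t, ((C.S j).Z (κ u)).re ∈ C.bx N j (R + 1)) ∧
      ENNReal.ofReal Real.pi ≤ ∫⁻ u in Ioo s t, ‖c' u‖ₑ ∧
      (∃ w ξ, (C.S j).Ψ (pt ξ (ht w)) = κ s) ∧ ∃ w ξ, (C.S j).Ψ (pt ξ (ht w)) = κ t := by
  obtain ⟨u₀, hu₀, h0⟩ := h0
  obtain ⟨u₁, hu₁, h1⟩ := h1
  have hc := C.conf N hd hc' hu₀ h0 hf hR
  set S := C.S j with hS
  obtain ⟨pc, pm⟩ := S.path (p := (S.Z (κ u₀)).re - R) (q := (S.Z (κ u₀)).re + R) h.lt h.cont
    fun u hu => ⟨h.out u hu, by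
      have := abs_lt.1 (hc u hu).1
      simp only [Function.comp_apply] at this
      exact ⟨by linarith only [this, this.1], by linarith only [this, this.2]⟩⟩
  have hρ0 : 0 ≤ ρ := zero_le_one.trans C.rad.1.le
  have ps := pm s (left_mem_Icc.2 h.lt.le)
  have pt' := pm t (right_mem_Icc.2 h.lt.le)
  obtain ⟨w₁, e₁⟩ := S.wall_of_mem ps.1 (by rw [ps.2.2, h.start]; exact σ.γ_mem hρ0 _)
  obtain ⟨w₂, e₂⟩ := S.wall_of_mem pt'.1 (by rw [pt'.2.2, h.stop]; exact σ.γ_mem hρ0 _)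
  refine ⟨fun u hu => (hc u hu).2, cross_len pc hd hc' hu₁ h1 ?_ ?_,
    ⟨w₁, _, by rw [X8_pt e₁]; exact ps.2.2⟩, w₂, _, by rw [X8_pt e₂]; exact pt'.2.2⟩
  · cases w₁
    · exact Or.inl e₁
    · exact Or.inr e₁
  · cases w₂
    · exact Or.inl e₂
    · exact Or.inr e₂

end Cfg

end Pool.Agent.Work.MP_042f46_an.Sx
end

-- merged part: Pool.Agent.Work.MP_042f46_an.XC
section
/-!
# The claimed regions and their disjointness

`O j k` is the set of points of the strip `j` whose first `k` images stay inside the curve, `g j k j'` is the `k`-th iterate in the coordinates of the strips `j` and `j'`.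
Plans.  `isOpen_O`, `diff_O`: induction on `k` (`F_diff`, `isClosed_D`, `Z_diff`).  `deriv_vert`: chain rule with `hasDerivAt_pt`; `deriv` of a holomorphic function on an open set is continuous.  `cont_iter`: at a point of `O j k` all `F^[r] ∘ Ψ` are continuous; at the point `pt x (ht e)` of the wall the iterates are on the curve (`iter_γ`), so not poles (`K_not_P`).
`conf_vert`: `conf` with `f y = lenf j k j' R (pt x y)` (`setLIntegral_mono_set`).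
`no_meet_iter`: `κ = F^[i] ∘ vert x₁` stays in the window over `[x₂ - R, x₂ + R]` of the strip `j₂` (`conf_vert`, `Strip.path`), which is free (`free_near`).  Its ends are on walls (`wall_of_mem`).  On different walls: `W_cross` with the lift `F^[i - 1] ∘ vert x₁`, against the badness of `vert x₂`.  On the same wall: `Strip.omega` gives a marked point in the window.
`no_meet_zero`: `vert x₁` stays in the window around `x₂` (`conf_vert` with `k = 0`).  The points `Z (v 0)`, `Z (v j₁)` of the strip `j₂` have real parts in `proj`, smaller than `x₂`, hence smaller than `x₂ - R`; the image `C` of the segment between them is preconnected, and `re ∘ Z j₁` takes on it the values `0` and `L j₁`, hence the value `x₁`.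
`pull`: the two paths stay in the free window over `[ξ - R, ξ + R]`, `ξ` the real part of the common image (`conf_vert` on a slightly longer open interval, which is possible since `O` is open; `Strip.path` on the interval between `ht e` and `z.im`); they start on the wall `w` (`inj`); `W_pull` with `k₂ + 1` and the paths `F^[k₁ - k₂] ∘ vert x₁`, `vert x₂`.
`claims_inj`: by symmetry `k₂ ≤ k₁`; `pull`; `no_meet_iter` gives `k₁ = k₂`, `no_meet_zero` gives `j₁ = j₂`, `inj` gives `z₁ = z₂`; if `e₁ ≠ e₂` the two segments cover the vertical line, against `z.re ∉ Col j (k + 1)`.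
-/

open Set Metric Topology Filter MeasureTheory
open scoped ENNReal

namespace Pool.Agent.Work.MP_042f46_an.Sx.Cfg

variable {σ : Sx} {ρ : ℝ} (C : σ.Cfg ρ) (N : ℕ)

/-- points whose first `k` images stay inside the curve -/
def O (j k : ℕ) : Set ℂ :=
  {z ∈ Sig | (∀ i ≤ k, σ.F^[i] ((C.S j).Ψ z) ∉ σ.D ρ) ∧ ∀ i < k, σ.F^[i] ((C.S j).Ψ z) ∉ σ.P}

/-- the `k`-th iterate in strip coordinates -/
noncomputable def g (j k j' : ℕ) (z : ℂ) : ℂ := (C.S j').Z (σ.F^[k] ((C.S j).Ψ z))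

/-- vertical lines in `O j k` -/
def Col (j k : ℕ) : Set ℝ := {x | ∀ y ∈ Ioo 0 Real.pi, pt x y ∈ C.O j k}

/-- the length element of the image inside the box -/
noncomputable def lenf (j k j' : ℕ) (R : ℝ) : ℂ → ℝ≥0∞ :=
  {z ∈ C.O j k | (C.g j k j' z).re ∈ C.bx N j' (R + 1)}.indicator
    fun z => ‖deriv (C.g j k j') z‖ₑ

/-- the vertical lines that are kept -/
def G (j : ℕ) (R η : ℝ) : Set ℝ :=
  {x ∈ C.Bd N j | x ∉ C.near N j R ∧
    ∫⁻ y in Ioo 0 Real.pi, ‖deriv (C.S j).Ψ (pt x y)‖ₑ < ENNReal.ofReal η ∧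
    ∀ k ≤ N, ∀ j' ≤ C.n, ∫⁻ y in Ioo 0 Real.pi, C.lenf N j k j' R (pt x y) < ENNReal.ofReal R}

/-- the region claimed at time `k + 1` from the end `e`, starting on the wall `w` of the strip `j'` -/
def T (R η : ℝ) (j k : ℕ) (e : Bool) (j' : ℕ) (w : Bool) : Set ℂ :=
  {z ∈ Sig | z.re ∈ C.G N j R η ∧ z.re ∈ C.Col j k ∧ z.re ∉ C.Col j (k + 1) ∧
    (∀ y ∈ uIcc (ht e) z.im, y ≠ ht e → pt z.re y ∈ C.O j (k + 1)) ∧
    (∃ ξ, (C.S j').Ψ (pt ξ (ht w)) = σ.γ ρ ((C.S j).a e z.re + (k + 1 : ℕ) * σ.α)) ∧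
    (C.g j (k + 1) j' z).re ∈ C.Bd N j' \ C.near N j' R}

theorem XC_iter (k : ℕ) {u : ℂ} (h : ∀ i < k, σ.F^[i] u ∉ σ.P) :
    DifferentiableAt ℂ σ.F^[k] u := by
  induction k with
  | zero => exact differentiableAt_id
  | succ k ih =>
    rw [Function.iterate_succ']
    exact (σ.F_diff.differentiableAt (σ.P_fin.isClosed.isOpen_compl.mem_nhds
      (h k k.lt_succ_self))).comp u (ih fun i hi => h i (by omega))

theorem XC_diff (j k : ℕ) {z : ℂ} (hz : z ∈ C.O j k) {r : ℕ} (hr : r ≤ k) :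
    DifferentiableAt ℂ (fun z => σ.F^[r] ((C.S j).Ψ z)) z :=
  (XC_iter r fun i hi => hz.2.2 i (by omega)).comp z
    ((C.S j).diff.differentiableAt (isOpen_Sig.mem_nhds hz.1))

theorem XC_end (j r : ℕ) (x : ℝ) (w : Bool) :
    σ.F^[r] ((C.S j).vert x (ht w)) = σ.γ ρ ((C.S j).a w x + r * σ.α) := by
  rw [Strip.vert, (C.S j).wall, σ.iter_γ C.rad.1]

theorem XC_endD (j r : ℕ) (x : ℝ) (w : Bool) : σ.F^[r] ((C.S j).vert x (ht w)) ∈ σ.D ρ := by
  rw [C.XC_end]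
  exact σ.γ_mem (by linarith only [C.rad.1]) _

theorem isOpen_O (j k : ℕ) : IsOpen (C.O j k) := by
  refine isOpen_iff_mem_nhds.2 fun z hz => ?_
  have h1 : ∀ i ≤ k, ContinuousAt (fun z => σ.F^[i] ((C.S j).Ψ z)) z := fun i hi =>
    (C.XC_diff j k hz hi).continuousAt
  have h2 : ∀ᶠ u in 𝓝 z, ∀ i ∈ {i | i ≤ k}, σ.F^[i] ((C.S j).Ψ u) ∉ σ.D ρ :=
    (Filter.eventually_all_finite (Set.finite_le_nat k)).2 fun i hi =>
      h1 i hi ((σ.isClosed_D C.rad.1).isOpen_compl.mem_nhds (hz.2.1 i hi))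
  have h3 : ∀ᶠ u in 𝓝 z, ∀ i ∈ {i | i < k}, σ.F^[i] ((C.S j).Ψ u) ∉ σ.P :=
    (Filter.eventually_all_finite (Set.finite_lt_nat k)).2 fun i hi =>
      h1 i (le_of_lt hi) (σ.P_fin.isClosed.isOpen_compl.mem_nhds (hz.2.2 i hi))
  filter_upwards [isOpen_Sig.mem_nhds hz.1, h2, h3] with u k1 k2 k3
  exact ⟨k1, k2, k3⟩

theorem O_anti (j : ℕ) {k k' : ℕ} (h : k ≤ k') : C.O j k' ⊆ C.O j k := by
  exact fun z hz => ⟨hz.1, fun i hi => hz.2.1 i (hi.trans h), fun i hi => hz.2.2 i (hi.trans_le h)⟩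

theorem diff_O (j k j' : ℕ) : DifferentiableOn ℂ (C.g j k j') (C.O j k) := by
  exact fun z hz => (((C.S j').Z_diff.differentiableAt
    ((σ.isClosed_D C.rad.1).isOpen_compl.mem_nhds (hz.2.1 k le_rfl))).comp z
      (C.XC_diff j k hz le_rfl)).differentiableWithinAt

theorem deriv_vert (j k j' : ℕ) {x s t : ℝ} (h : ∀ y ∈ Ioo s t, pt x y ∈ C.O j k) :
    (∀ y ∈ Ioo s t, HasDerivAt ((C.S j').Z ∘ σ.F^[k] ∘ (C.S j).vert x)
      (deriv (C.g j k j') (pt x y) * Complex.I) y) ∧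
    ContinuousOn (fun y => deriv (C.g j k j') (pt x y) * Complex.I) (Ioo s t) := by
  refine ⟨fun y hy => ?_, ?_⟩
  · exact ((C.diff_O j k j').differentiableAt
      ((C.isOpen_O j k).mem_nhds (h y hy))).hasDerivAt.comp y (hasDerivAt_pt x y)
  · exact (((C.diff_O j k j').deriv (C.isOpen_O j k)).continuousOn.comp
      (continuous_pt.comp (Continuous.prodMk_right x)).continuousOn h).mul continuousOn_const

theorem cont_iter (j k : ℕ) {x : ℝ} {A : Set ℝ} (hA : A ⊆ Icc 0 Real.pi)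
    (h : ∀ y ∈ A, y ∈ Ioo 0 Real.pi → pt x y ∈ C.O j k) {r : ℕ} (hr : r ≤ k) :
    ContinuousOn (σ.F^[r] ∘ (C.S j).vert x) A := by
  intro y hy
  refine (XC_iter r fun i hi => ?_).continuousAt.comp_continuousWithinAt
    (((C.S j).cont_vert x y (hA hy)).mono hA)
  rcases (hA hy).1.eq_or_lt with h1 | h1
  · rw [← h1]
    exact σ.K_not_P (σ.D_sub_K C.rad.1 (C.XC_endD j i x false))
  rcases (hA hy).2.eq_or_lt with h2 | h2
  · rw [h2]
    exact σ.K_not_P (σ.D_sub_K C.rad.1 (C.XC_endD j i x true))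
  · exact (h y hy ⟨h1, h2⟩).2.2 i (by omega)

variable {C N} {R η : ℝ}

theorem conf_vert {j k j' : ℕ} {x s t y₀ : ℝ} (hx : x ∈ C.G N j R η) (hk : k ≤ N) (hj : j' ≤ C.n)
    (hs : 0 ≤ s) (ht : t ≤ Real.pi) (h : ∀ y ∈ Ioo s t, pt x y ∈ C.O j k) (hy : y₀ ∈ Ioo s t)
    (h0 : (C.g j k j' (pt x y₀)).re ∈ C.bx N j' 1) :
    ∀ y ∈ Ioo s t, |(C.g j k j' (pt x y)).re - (C.g j k j' (pt x y₀)).re| < R := by
  obtain ⟨h1, h2⟩ := C.deriv_vert j k j' h
  intro y hy'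
  refine (C.conf N h1 h2 hy h0 (f := fun y => C.lenf N j k j' R (pt x y)) (fun u hu h3 => ?_)
    (lt_of_le_of_lt (lintegral_mono_set (Ioo_subset_Ioo hs ht)) (hx.2.2.2 k hk j' hj)) y hy').1
  rw [lenf, indicator_of_mem (by exact ⟨h u hu, h3⟩), enorm_mul, ← ofReal_norm_eq_enorm Complex.I,
    Complex.norm_I, ENNReal.ofReal_one, mul_one]

theorem XC_win {j k j' : ℕ} {x s t a b y₀ : ℝ} (hx : x ∈ C.G N j R η) (hk : k ≤ N) (hj : j' ≤ C.n)
    (hs : 0 ≤ s) (ht : t ≤ Real.pi) (h : ∀ y ∈ Ioo s t, pt x y ∈ C.O j k) (hy : y₀ ∈ Ioo s t)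
    (h0 : (C.g j k j' (pt x y₀)).re ∈ C.bx N j' 1) (hab : a < b) (hsub : Ioo a b ⊆ Ioo s t)
    (hc : ContinuousOn (σ.F^[k] ∘ (C.S j).vert x) (Icc a b)) :
    (C.S j').InW ((C.g j k j' (pt x y₀)).re - R) ((C.g j k j' (pt x y₀)).re + R)
      ((C.S j').Z ∘ σ.F^[k] ∘ (C.S j).vert x) (σ.F^[k] ∘ (C.S j).vert x) (Icc a b) := by
  refine (C.S j').path hab hc fun u hu => ⟨(h u (hsub hu)).2.1 k le_rfl, ?_⟩
  have h1 := abs_lt.1 (conf_vert hx hk hj hs ht h hy h0 u (hsub hu))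
  change (C.g j k j' (pt x u)).re ∈ _
  exact ⟨by linarith only [h1, h1.1], by linarith only [h1, h1.2]⟩

theorem no_meet_iter {j₁ j₂ i : ℕ} {x₁ x₂ y₁ y₂ : ℝ} (h₁ : j₁ ≤ C.n) (h₂ : j₂ ≤ C.n) (hi : 1 ≤ i)
    (hN : i ≤ N) (hx₁ : x₁ ∈ C.G N j₁ R η) (hc : x₁ ∈ C.Col j₁ i) (hx₂ : x₂ ∈ C.G N j₂ R η)
    (hy₁ : y₁ ∈ Ioo 0 Real.pi) (hy₂ : y₂ ∈ Ioo 0 Real.pi) :
    σ.F^[i] ((C.S j₁).vert x₁ y₁) ≠ (C.S j₂).vert x₂ y₂ := by
  intro h
  have hπ := Real.pi_pos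
  have e1 : C.g j₁ i j₂ (pt x₁ y₁) = pt x₂ y₂ := by
    rw [g]
    exact (congrArg _ h).trans ((C.S j₂).Z_Ψ (Sig_sub hy₂))
  have k0 : ∀ r ≤ i, ContinuousOn (σ.F^[r] ∘ (C.S j₁).vert x₁) (Icc 0 Real.pi) := fun r hr =>
    C.cont_iter j₁ i subset_rfl (fun y _ hy => hc y hy) hr
  have hW := XC_win hx₁ hN h₂ le_rfl le_rfl hc hy₁ (by rw [e1]; exact .inl hx₂.1) hπ subset_rfl
    (k0 i le_rfl)
  rw [e1] at hW
  have hf := C.free_near N hx₂.2.1
  obtain ⟨a1, a2, a3⟩ := hW.2 0 ⟨le_rfl, hπ.le⟩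
  obtain ⟨b1, b2, b3⟩ := hW.2 Real.pi ⟨hπ.le, le_rfl⟩
  obtain ⟨w, hw⟩ := (C.S j₂).wall_of_mem a1 (a3 ▸ C.XC_endD j₁ i x₁ false)
  obtain ⟨w', hw'⟩ := (C.S j₂).wall_of_mem b1 (b3 ▸ C.XC_endD j₁ i x₁ true)
  by_cases e : w' = w
  · rw [e] at hw'
    obtain ⟨ξ, k1, k2⟩ := (C.S j₂).omega C.rad.1 (C.S j₁) (w := w) (x := x₁) (θ := i * σ.α)
      (by rw [← (C.S j₂).wall, X8_pt hw, a3]; exact C.XC_end j₁ i x₁ false)
      (by rw [← (C.S j₂).wall, X8_pt hw', b3]; exact C.XC_end j₁ i x₁ true)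
    exact hf _ (X8_wall ξ w) (uIcc_subset_Icc a2 b2 k1) (.inr (.inr ⟨i, hN, j₁, h₁, k2⟩))
  · obtain rfl : w' = !w := Bool.eq_not_of_ne e
    refine (C.S j₂).W_cross C.rad.1 (fun z k1 k2 k3 => hf z k1 k2 (.inr (.inl ⟨0, Nat.zero_le _,
      _, k3, rfl⟩))) hπ.le hπ.le hW (c' := pt x₂) (w' := false)
      ⟨(continuous_pt.comp (Continuous.prodMk_right x₂)).continuousOn, fun u hu =>
        ⟨hu, ⟨?_, ?_⟩, rfl⟩⟩ hw hw' rfl rfl ⟨_, k0 (i - 1) (by omega), fun u _ => ?_,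
        C.XC_endD j₁ _ x₁ false, C.XC_endD j₁ _ x₁ true⟩ hx₂.1.2.2.2.2
    · have := a2.1.trans a2.2
      show x₂ - R ≤ x₂
      change x₂ - R ≤ x₂ + R at this
      linarith only [this]
    · have := a2.1.trans a2.2
      show x₂ ≤ x₂ + R
      change x₂ - R ≤ x₂ + R at this
      linarith only [this]
    · rw [Function.comp_apply, Function.comp_apply, ← Function.iterate_succ_apply' σ.F,
        Nat.succ_eq_add_one, Nat.sub_add_cancel hi]

theorem no_meet_zero {j₁ j₂ : ℕ} {x₁ x₂ y₁ y₂ : ℝ} (h : j₁ < j₂) (h₂ : j₂ ≤ C.n)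
    (hx₁ : x₁ ∈ C.G N j₁ R η) (hx₂ : x₂ ∈ C.G N j₂ R η) (hy₁ : y₁ ∈ Ioo 0 Real.pi)
    (hy₂ : y₂ ∈ Ioo 0 Real.pi) : (C.S j₁).vert x₁ y₁ ≠ (C.S j₂).vert x₂ y₂ := by
  intro h'
  have hπ := Real.pi_pos
  have e1 : C.g j₁ 0 j₂ (pt x₁ y₁) = pt x₂ y₂ := by
    rw [g]
    exact (congrArg _ h').trans ((C.S j₂).Z_Ψ (Sig_sub hy₂))
  have h1 := conf_vert hx₁ (Nat.zero_le _) h₂ le_rfl le_rfl (fun y hy =>
    ⟨hy, fun i hi => by
      rw [Nat.le_zero.1 hi]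
      exact (C.S j₁).Ψ_notMem hy, fun i hi => absurd hi (Nat.not_lt_zero i)⟩) hy₁
    (by rw [e1]; exact .inl hx₂.1)
  rw [e1] at h1
  have h2 : ∀ l ≤ j₁, (C.S j₂).Z (C.v l) ∈ Sig ∩ {z : ℂ | z.re < x₂ - R} := fun l hl => by
    refine ⟨((C.S j₂).Z_mem (C.v_notMem l)).1, ?_⟩
    have k1 := hx₂.1.2.2.1 l (by omega)
    show ((C.S j₂).Z (C.v l)).re < x₂ - R
    by_contra k2
    refine hx₂.2.1 ⟨_, C.v_proj N j₂ l, ?_⟩
    rw [abs_of_pos (sub_pos.2 k1)]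
    have : x₂ - R ≤ ((C.S j₂).Z (C.v l)).re := not_lt.1 k2
    linarith only [k2]
  have hm : pt 0 (Real.pi / 2) ∈ Sigc ∧ pt (C.L j₁) (Real.pi / 2) ∈ Sigc := by
    refine ⟨⟨?_, ?_⟩, ?_, ?_⟩ <;> simp only [pt] <;> linarith only [hπ]
  obtain ⟨z, hz, h3⟩ := (convex_Sig.inter
    (convex_halfSpace_re_lt (x₂ - R))).isPreconnected.intermediate_value (h2 0 (Nat.zero_le _))
    (h2 j₁ le_rfl) (f := fun z => ((C.S j₁).Z ((C.S j₂).Ψ z)).re)
    (Complex.continuous_re.comp_continuousOn ((C.S j₁).Z_diff.continuousOn.comp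
      ((C.S j₂).cont.mono (inter_subset_left.trans Sig_sub)) fun z hz => (C.S j₂).Ψ_notMem hz.1))
    (show x₁ ∈ _ by
      simp only [((C.S j₂).Z_mem (C.v_notMem _)).2]
      rw [C.v_zero, ← C.at_zero j₁, ← C.at_L j₁, (C.S j₁).Z_Ψ hm.1, (C.S j₁).Z_Ψ hm.2]
      exact ⟨hx₁.1.1.le, hx₁.1.2.1.le⟩)
  obtain ⟨h4, h5⟩ := (C.S j₁).Z_mem ((C.S j₂).Ψ_notMem hz.1)
  have h6 := h1 _ h4
  have h7 : C.g j₁ 0 j₂ (pt x₁ ((C.S j₁).Z ((C.S j₂).Ψ z)).im) = z := by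
    rw [g, ← h3]
    exact (congrArg _ h5).trans ((C.S j₂).Z_Ψ (Sig_sub hz.1))
  rw [h7] at h6
  have h8 : z.re < x₂ - R := hz.2
  have h9 : -R < z.re - x₂ := (abs_lt.1 h6).1
  linarith only [h8, h9]

theorem XC_T {j k j' : ℕ} {e w : Bool} {z : ℂ} (hj : j' ≤ C.n) (hk : k < N)
    (h : z ∈ C.T N R η j k e j' w) :
    (C.S j').InW ((C.g j (k + 1) j' z).re - R) ((C.g j (k + 1) j' z).re + R)
      ((C.S j').Z ∘ σ.F^[k + 1] ∘ (C.S j).vert z.re) (σ.F^[k + 1] ∘ (C.S j).vert z.re)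
      (uIcc (ht e) z.im) ∧
    (∀ r ≤ k + 1, ContinuousOn (σ.F^[r] ∘ (C.S j).vert z.re) (uIcc (ht e) z.im)) ∧
    (((C.S j').Z ∘ σ.F^[k + 1] ∘ (C.S j).vert z.re) (ht e)).im = ht w := by
  obtain ⟨h1, h2, -, -, h3, ⟨ξ, h4⟩, h5⟩ := h
  have k0 : ∀ y ∈ Ioo 0 Real.pi, y ≠ ht e := fun y hy => by
    cases e
    exacts [hy.1.ne', hy.2.ne]
  have k1 : ∀ r ≤ k + 1, ContinuousOn (σ.F^[r] ∘ (C.S j).vert z.re) (uIcc (ht e) z.im) :=
    fun r hr => C.cont_iter j (k + 1) (uIcc_subset_Icc (X8_wall 0 e) (Sig_sub h1))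
      (fun y hy hy' => h3 y hy (k0 y hy')) hr
  refine ⟨?_, k1, ?_⟩
  · obtain ⟨l, u, k2, k3⟩ := mem_nhds_iff_exists_Ioo_subset.1
      ((continuous_pt.comp (Continuous.prodMk_right z.re)).continuousAt (x := z.im)
        ((C.isOpen_O j (k + 1)).mem_nhds (h3 z.im right_mem_uIcc (k0 _ h1))))
    have k4 := k1 _ le_rfl
    cases e
    · change ∀ y ∈ uIcc 0 z.im, y ≠ 0 → _ at h3
      change ContinuousOn _ (uIcc 0 z.im) at k4
      change Strip.InW _ _ _ _ _ (uIcc 0 z.im)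
      rw [uIcc_of_le h1.1.le] at h3 k4 ⊢
      refine XC_win (s := 0) (t := min u Real.pi) (y₀ := z.im) h2 hk hj le_rfl (min_le_right _ _)
        (fun y hy => ?_) ⟨h1.1, lt_min k2.2 h1.2⟩ (.inl h5.1) h1.1
        (Ioo_subset_Ioo le_rfl (lt_min k2.2 h1.2).le) k4
      rcases le_or_gt y z.im with k5 | k5
      · exact h3 y ⟨hy.1.le, k5⟩ hy.1.ne'
      · exact k3 ⟨k2.1.trans k5, hy.2.trans_le (min_le_left _ _)⟩
    · change ∀ y ∈ uIcc Real.pi z.im, y ≠ Real.pi → _ at h3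
      change ContinuousOn _ (uIcc Real.pi z.im) at k4
      change Strip.InW _ _ _ _ _ (uIcc Real.pi z.im)
      rw [uIcc_of_ge h1.2.le] at h3 k4 ⊢
      refine XC_win (s := max l 0) (t := Real.pi) (y₀ := z.im) h2 hk hj (le_max_right _ _) le_rfl
        (fun y hy => ?_) ⟨max_lt k2.1 h1.1, h1.2⟩ (.inl h5.1) h1.2
        (Ioo_subset_Ioo (max_lt k2.1 h1.1).le le_rfl) k4
      rcases le_or_gt z.im y with k5 | k5
      · exact h3 y ⟨k5, hy.2.le⟩ hy.2.ne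
      · exact k3 ⟨(le_max_left _ _).trans_lt hy.1, k5.trans k2.2⟩
  · rw [Function.comp_apply, Function.comp_apply, C.XC_end, ← h4, (C.S j').Z_Ψ (X8_wall ξ w)]
    rfl

theorem pull {j₁ k₁ j₂ k₂ j' : ℕ} {e₁ e₂ w : Bool} {z₁ z₂ : ℂ} (hj : j' ≤ C.n) (hk : k₂ ≤ k₁)
    (hN : k₁ < N) (h₁ : z₁ ∈ C.T N R η j₁ k₁ e₁ j' w) (h₂ : z₂ ∈ C.T N R η j₂ k₂ e₂ j' w)
    (h : C.g j₁ (k₁ + 1) j' z₁ = C.g j₂ (k₂ + 1) j' z₂) :
    σ.F^[k₁ - k₂] ((C.S j₁).Ψ z₁) = (C.S j₂).Ψ z₂ := by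
  have hf := C.free_near N h₁.2.2.2.2.2.2.2
  have e1 : ∀ r, σ.F^[r] ∘ σ.F^[k₁ - k₂] ∘ (C.S j₁).vert z₁.re =
      σ.F^[r + (k₁ - k₂)] ∘ (C.S j₁).vert z₁.re := fun r => by
    rw [Function.iterate_add, Function.comp_assoc]
  have e2 : k₂ + 1 + (k₁ - k₂) = k₁ + 1 := by omega
  obtain ⟨a1, a2, a3⟩ := XC_T hj hN h₁
  obtain ⟨b1, b2, b3⟩ := XC_T hj (hk.trans_lt hN) h₂
  rw [← h] at b1
  refine (C.S j').W_pull C.rad.1 (k₂ + 1) (fun i hi z k1 k2 k3 =>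
    hf z k1 k2 (.inr (.inl ⟨i, by omega, k3⟩))) isPreconnected_uIcc isPreconnected_uIcc
    (g₁ := σ.F^[k₁ - k₂] ∘ (C.S j₁).vert z₁.re) (g₂ := (C.S j₂).vert z₂.re)
    (by rw [e1, e2]; exact a1) b1 (fun r hr => by rw [e1]; exact a2 _ (by omega)) b2
    left_mem_uIcc right_mem_uIcc left_mem_uIcc right_mem_uIcc (C.XC_endD _ _ _ _)
    (C.XC_endD _ 0 _ _) a3 b3 h

theorem XC_inj {j₁ k₁ j₂ k₂ j' : ℕ} {e₁ e₂ w : Bool} {z₁ z₂ : ℂ} (hj : j' ≤ C.n)
    (hj₁ : j₁ ≤ C.n) (hj₂ : j₂ ≤ C.n) (hk : k₂ ≤ k₁) (hk₁ : k₁ < N)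
    (h₁ : z₁ ∈ C.T N R η j₁ k₁ e₁ j' w) (h₂ : z₂ ∈ C.T N R η j₂ k₂ e₂ j' w)
    (h : C.g j₁ (k₁ + 1) j' z₁ = C.g j₂ (k₂ + 1) j' z₂) :
    j₁ = j₂ ∧ k₁ = k₂ ∧ e₁ = e₂ ∧ z₁ = z₂ := by
  have h1 := pull hj hk hk₁ h₁ h₂ h
  obtain rfl : k₁ = k₂ := by
    by_contra e
    exact no_meet_iter hj₁ hj₂ (i := k₁ - k₂) (by omega) (by omega) h₁.2.1
      (fun y hy => C.O_anti j₁ (Nat.sub_le _ _) (h₁.2.2.1 y hy)) h₂.2.1 h₁.1 h₂.1 h1
  rw [Nat.sub_self, Function.iterate_zero_apply] at h1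
  obtain rfl : j₁ = j₂ := by
    rcases lt_trichotomy j₁ j₂ with e | e | e
    · exact absurd h1 (no_meet_zero e hj₂ h₁.2.1 h₂.2.1 h₁.1 h₂.1)
    · exact e
    · exact absurd h1.symm (no_meet_zero e hj₁ h₂.2.1 h₁.2.1 h₂.1 h₁.1)
  obtain rfl : z₁ = z₂ := (C.S j₁).inj (Sig_sub h₁.1) (Sig_sub h₂.1) h1
  refine ⟨rfl, rfl, ?_, rfl⟩
  have key : ∀ {z : ℂ}, z ∈ C.T N R η j₁ k₁ false j' w → z ∈ C.T N R η j₁ k₁ true j' w →
      False := fun {z} a b => a.2.2.2.1 fun y hy => by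
    rcases le_total y z.im with e | e
    · exact a.2.2.2.2.1 y (mem_uIcc_of_le hy.1.le e) hy.1.ne'
    · exact b.2.2.2.2.1 y (mem_uIcc_of_ge e hy.2.le) hy.2.ne
  cases e₁ <;> cases e₂
  exacts [rfl, (key h₁ h₂).elim, (key h₂ h₁).elim, rfl]

theorem claims_inj {j₁ k₁ j₂ k₂ j' : ℕ} {e₁ e₂ w : Bool} {z₁ z₂ : ℂ} (hj : j' ≤ C.n)
    (hj₁ : j₁ ≤ C.n) (hj₂ : j₂ ≤ C.n) (hk₁ : k₁ < N) (hk₂ : k₂ < N)
    (h₁ : z₁ ∈ C.T N R η j₁ k₁ e₁ j' w) (h₂ : z₂ ∈ C.T N R η j₂ k₂ e₂ j' w)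
    (h : C.g j₁ (k₁ + 1) j' z₁ = C.g j₂ (k₂ + 1) j' z₂) :
    j₁ = j₂ ∧ k₁ = k₂ ∧ e₁ = e₂ ∧ z₁ = z₂ := by
  rcases le_total k₂ k₁ with k | k
  · exact XC_inj hj hj₁ hj₂ k hk₁ h₁ h₂ h
  · obtain ⟨a, b, c, d⟩ := XC_inj hj hj₂ hj₁ k hk₂ h₂ h₁ h.symm
    exact ⟨a.symm, b.symm, c.symm, d.symm⟩

end Pool.Agent.Work.MP_042f46_an.Sx.Cfg
end

-- merged part: Pool.Agent.Work.MP_042f46_an.XD
section
/-!
# Measurability, multiplicities, the discarded vertical lines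

Plans.  `measurable_deriv` gives the measurability of all derivatives; `{z ∈ O j k | (g j k j' z).re ∈ A}` is measurable for measurable `A` since `g` is continuous on the open set `O j k` (`meas_pre`).  `meas_G`: `meas_vert`.  `meas_T`: `meas_col`, `meas_seg`; the range of the continuous map `ξ ↦ Ψ (pt ξ (ht w))` is measurable (a countable union of compact sets), and `x ↦ γ (a e x + c)` is continuous.
`fib_iter`: induction with `fib` (a union of at most `d ^ k` sets with at most `d` points).  `fib_g`: `Z_inj`, `inj`.  `area_box`: `area_one`, `volume_box` (`Z_mem`), `fib_g`.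
`drop_len`: `cheb_vert`, `area_one` with multiplicity one.  `drop_box`: `cheb_vert`, `area_box`.  `Bd_le`: a union bound.
-/

open Set Metric Topology Filter MeasureTheory
open scoped ENNReal

namespace Pool.Agent.Work.MP_042f46_an.Sx

variable {σ : Sx} {ρ : ℝ}

theorem XD_union {A : Set ℂ} (hA : A.Finite) (B : ℂ → Set ℂ) {d : ℕ∞} (h : ∀ u, (B u).encard ≤ d) :
    (⋃ u ∈ A, B u).encard ≤ A.encard * d := by
  induction A, hA using Set.Finite.induction_on with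
  | empty => simp
  | insert ha _ ih =>
    rw [biUnion_insert, encard_insert_of_notMem ha, add_mul, one_mul, add_comm]
    exact (encard_union_le _ _).trans (by rw [add_comm, add_comm d]; exact add_le_add ih (h _))

theorem fib_iter (k : ℕ) (y : ℂ) :
    {z | (∀ i < k, σ.F^[i] z ∉ σ.P) ∧ σ.F^[k] z = y}.encard ≤ (σ.d ^ k : ℕ) := by
  induction k with
  | zero =>
    refine (encard_le_encard (t := {y}) fun z hz => hz.2).trans ?_
    simp
  | succ k ih =>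
    refine (encard_le_encard (t := ⋃ u ∈ {z | (∀ i < k, σ.F^[i] z ∉ σ.P) ∧ σ.F^[k] z = y},
      {z | z ∉ σ.P ∧ σ.F z = u}) fun z hz => ?_).trans
      ((XD_union (finite_of_encard_le_coe ih) _ σ.fib).trans ?_)
    · exact mem_biUnion (x := σ.F z) ⟨fun i hi => hz.1 (i + 1) (by omega), hz.2⟩
        ⟨hz.1 0 (by omega), rfl⟩
    · rw [pow_succ, Nat.cast_mul]
      gcongr

namespace Cfg

variable (C : σ.Cfg ρ) (N : ℕ) (R η : ℝ)

/-- the part that is mapped close to the marked points -/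
def U (j k j' : ℕ) : Set ℂ :=
  {z ∈ C.O j (k + 1) | (C.g j (k + 1) j' z).re ∈ C.near N j' (R + 1)}

/-- the energy density on a set -/
noncomputable def en (A : Set ℂ) (j k j' : ℕ) : ℂ → ℝ≥0∞ :=
  A.indicator fun z => ‖deriv (C.g j (k + 1) j') z‖ₑ ^ 2

theorem meas_pre (j k j' : ℕ) {A : Set ℝ} (hA : MeasurableSet A) :
    MeasurableSet {z ∈ C.O j k | (C.g j k j' z).re ∈ A} := by
  classical
  have hO := (C.isOpen_O j k).measurableSet
  have h := (ContinuousOn.measurable_piecewise (g := fun _ => (0 : ℂ))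
    (C.diff_O j k j').continuousOn continuousOn_const hO)
  have : {z ∈ C.O j k | (C.g j k j' z).re ∈ A} =
      C.O j k ∩ (fun z => ((C.O j k).piecewise (C.g j k j') (fun _ => 0) z).re) ⁻¹' A := by
    ext z
    refine and_congr_right fun hz => ?_
    rw [mem_preimage, piecewise_eq_of_mem _ _ _ hz]
  rw [this]
  exact hO.inter (Complex.measurable_re.comp h hA)

theorem meas_lenf (j k j' : ℕ) : Measurable (C.lenf N j k j' R) := by
  exact (measurable_deriv _).enorm.indicator (C.meas_pre j k j' (C.meas_bx N j' _))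

theorem meas_G (j : ℕ) : MeasurableSet (C.G N j R η) := by
  refine (C.isOpen_Bd N j).measurableSet.inter ((C.meas_near N j R).compl.inter
    ((measurableSet_lt (meas_vert (measurable_deriv (C.S j).Ψ).enorm) measurable_const).inter ?_))
  change MeasurableSet {x | ∀ k ≤ N, ∀ j' ≤ C.n,
    ∫⁻ y in Ioo 0 Real.pi, C.lenf N j k j' R (pt x y) < ENNReal.ofReal R}
  simp only [ofPred_forall]
  exact MeasurableSet.iInter fun k => MeasurableSet.iInter fun _ => MeasurableSet.iInter fun j' =>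
    MeasurableSet.iInter fun _ =>
      measurableSet_lt (meas_vert (C.meas_lenf N R j k j')) measurable_const

theorem XD_sub (j k : ℕ) (e : Bool) (j' : ℕ) (w : Bool) :
    C.T N R η j k e j' w ⊆ C.O j (k + 1) := by
  intro z hz
  refine hz.2.2.2.2.1 z.im right_mem_uIcc ?_
  cases e
  · exact hz.1.1.ne'
  · exact hz.1.2.ne

theorem meas_T (j k : ℕ) (e : Bool) (j' : ℕ) (w : Bool) :
    MeasurableSet (C.T N R η j k e j' w) := by
  have hγ := σ.continuous_γ C.rad.1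
  have h1 : MeasurableSet (range fun ξ => (C.S j').Ψ (pt ξ (ht w))) := by
    have hc : Continuous fun ξ => (C.S j').Ψ (pt ξ (ht w)) := by
      simp only [(C.S j').wall]
      exact hγ.comp ((C.S j').a_cont w)
    rw [← image_univ, ← iUnion_compactCovering, image_iUnion]
    exact MeasurableSet.iUnion fun n => ((isCompact_compactCovering ℝ n).image hc).measurableSet
  have h2 : Measurable fun z : ℂ => σ.γ ρ ((C.S j).a e z.re + (k + 1 : ℕ) * σ.α) :=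
    (hγ.comp ((((C.S j).a_cont e).comp Complex.continuous_re).add continuous_const)).measurable
  have : C.T N R η j k e j' w = Complex.re ⁻¹' C.G N j R η ∩ (Complex.re ⁻¹' C.Col j k ∩
      ((Complex.re ⁻¹' C.Col j (k + 1))ᶜ ∩
      ({z : ℂ | ∀ y ∈ uIcc (ht e) z.im, y ≠ ht e → pt z.re y ∈ C.O j (k + 1)} ∩
      ((fun z : ℂ => σ.γ ρ ((C.S j).a e z.re + (k + 1 : ℕ) * σ.α)) ⁻¹'
        (range fun ξ => (C.S j').Ψ (pt ξ (ht w))) ∩
      {z ∈ C.O j (k + 1) | (C.g j (k + 1) j' z).re ∈ C.Bd N j' \ C.near N j' R})))) := by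
    ext z
    exact ⟨fun h => ⟨h.2.1, h.2.2.1, h.2.2.2.1, h.2.2.2.2.1, h.2.2.2.2.2.1,
      C.XD_sub N R η j k e j' w h, h.2.2.2.2.2.2⟩, fun h => ⟨h.2.2.2.2.2.1.1, h.1, h.2.1,
      h.2.2.1, h.2.2.2.1, h.2.2.2.2.1, h.2.2.2.2.2.2⟩⟩
  rw [this]
  exact (Complex.measurable_re (C.meas_G N R η j)).inter
    ((Complex.measurable_re (meas_col (C.isOpen_O j k))).inter
    ((Complex.measurable_re (meas_col (C.isOpen_O j (k + 1)))).compl.inter
    ((meas_seg (C.isOpen_O j (k + 1)) _).inter ((h2 h1).inter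
    (C.meas_pre j (k + 1) j' ((C.isOpen_Bd N j').measurableSet.diff (C.meas_near N j' R)))))))

theorem T_sub (j k : ℕ) (e : Bool) (j' : ℕ) (w : Bool) :
    C.T N R η j k e j' w ⊆ C.O j (k + 1) := by
  exact C.XD_sub N R η j k e j' w

theorem meas_U (j k j' : ℕ) : MeasurableSet (C.U N R j k j') := by
  exact C.meas_pre j (k + 1) j' (C.meas_near N j' _)

theorem meas_en {A : Set ℂ} (hA : MeasurableSet A) (j k j' : ℕ) : Measurable (C.en A j k j') := by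
  exact ((measurable_deriv _).enorm.pow_const 2).indicator hA

theorem fib_g (j k j' : ℕ) (u : ℂ) :
    {z ∈ C.O j k | C.g j k j' z = u}.encard ≤ (σ.d ^ k : ℕ) := by
  refine le_trans (encard_le_encard_of_injOn (f := (C.S j).Ψ) (fun z hz => ?_)
    ((C.S j).inj.mono fun z hz => Sig_sub hz.1.1)) (fib_iter k ((C.S j').Ψ u))
  refine ⟨hz.1.2.2, ?_⟩
  rw [← hz.2]
  exact ((C.S j').Z_mem (hz.1.2.1 k le_rfl)).2.symm

theorem area_box (j k j' : ℕ) {A : Set ℝ} (hA : MeasurableSet A) :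
    ∫⁻ z in {z ∈ C.O j k | (C.g j k j' z).re ∈ A}, ‖deriv (C.g j k j') z‖ₑ ^ 2 ≤
      (σ.d ^ k : ℕ) * (ENNReal.ofReal Real.pi * volume A) := by
  rw [← volume_box hA]
  exact area_one (C.isOpen_O j k) (C.diff_O j k j') (C.meas_pre j k j' hA) (fun z hz => hz.1)
    (fun z hz => ⟨((C.S j').Z_mem (hz.1.2.1 k le_rfl)).1, hz.2⟩) fun u =>
      le_trans (encard_le_encard fun z hz => mem_sep hz.1.1 hz.2) (C.fib_g j k j' u)

theorem drop_len (j : ℕ) {R₀ : ℝ} (h : (σ.D ρ)ᶜ ⊆ ball 0 R₀) :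
    ENNReal.ofReal η ^ 2 * volume {x : ℝ | ENNReal.ofReal η ≤
      ∫⁻ y in Ioo 0 Real.pi, ‖deriv (C.S j).Ψ (pt x y)‖ₑ} ≤
      ENNReal.ofReal Real.pi * volume (ball (0 : ℂ) R₀) := by
  refine (cheb_vert (measurable_deriv (C.S j).Ψ).enorm _).trans ?_
  gcongr
  have := area_one (M := 1) (B := ball 0 R₀) isOpen_Sig (C.S j).diff isOpen_Sig.measurableSet
    Subset.rfl (fun z hz => h ((C.S j).Ψ_notMem hz)) fun u => encard_le_one_iff.2
      fun a b ha hb => (C.S j).inj (Sig_sub ha.1) (Sig_sub hb.1) (ha.2.trans hb.2.symm)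
  simpa using this

theorem drop_box (j k j' : ℕ) :
    ENNReal.ofReal R ^ 2 * volume {x : ℝ | ENNReal.ofReal R ≤
      ∫⁻ y in Ioo 0 Real.pi, C.lenf N j k j' R (pt x y)} ≤
      ENNReal.ofReal Real.pi * ((σ.d ^ k : ℕ) *
        (ENNReal.ofReal Real.pi * volume (C.bx N j' (R + 1)))) := by
  refine (cheb_vert (C.meas_lenf N R j k j') _).trans ?_
  gcongr
  refine le_trans ?_ (C.area_box j k j' (C.meas_bx N j' (R + 1)))
  rw [← lintegral_indicator (C.meas_pre j k j' (C.meas_bx N j' _))]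
  refine (setLIntegral_le_lintegral _ _).trans (lintegral_mono fun z => ?_)
  unfold lenf
  by_cases hz : z ∈ {z ∈ C.O j k | (C.g j k j' z).re ∈ C.bx N j' (R + 1)}
  · rw [indicator_of_mem hz, indicator_of_mem hz]
  · rw [indicator_of_notMem hz, indicator_of_notMem hz]
    simp

theorem Bd_le (j : ℕ) : volume (C.Bd N j) ≤ volume (C.G N j R η) + volume (C.near N j R) +
    volume {x : ℝ | ENNReal.ofReal η ≤ ∫⁻ y in Ioo 0 Real.pi, ‖deriv (C.S j).Ψ (pt x y)‖ₑ} +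
    ∑ k ∈ Finset.range (N + 1), ∑ j' ∈ Finset.range (C.n + 1), volume {x : ℝ |
      ENNReal.ofReal R ≤ ∫⁻ y in Ioo 0 Real.pi, C.lenf N j k j' R (pt x y)} := by
  have : C.Bd N j ⊆ C.G N j R η ∪ C.near N j R ∪
      {x : ℝ | ENNReal.ofReal η ≤ ∫⁻ y in Ioo 0 Real.pi, ‖deriv (C.S j).Ψ (pt x y)‖ₑ} ∪
      ⋃ k ∈ Finset.range (N + 1), ⋃ j' ∈ Finset.range (C.n + 1), {x : ℝ |
        ENNReal.ofReal R ≤ ∫⁻ y in Ioo 0 Real.pi, C.lenf N j k j' R (pt x y)} := by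
    intro x hx
    by_contra hn
    simp only [mem_union, not_or, mem_iUnion, not_exists, mem_ofPred_eq, not_le,
      Finset.mem_range] at hn
    exact hn.1.1.1 ⟨hx, hn.1.1.2, hn.1.2, fun k hk j' hj => hn.2 k (by omega) j' (by omega)⟩
  refine (measure_mono this).trans ((measure_union_le _ _).trans (add_le_add
    ((measure_union_le _ _).trans (add_le_add (measure_union_le _ _) le_rfl))
    ((measure_biUnion_finset_le _ _).trans
      (Finset.sum_le_sum fun k _ => measure_biUnion_finset_le _ _))))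

end Cfg

end Pool.Agent.Work.MP_042f46_an.Sx
end

-- merged part: Pool.Agent.Work.MP_042f46_an.XE
section
/-!
# Every kept vertical line claims energy at least four times pi

Plans.  `hop_G`: `hop_vert`, `path_len` (derivative `deriv Ψ (pt x y) * I`).
`exists_time`: by `age` there is a least `k' ≤ N` with `F^[k'] (vert x y) ∈ D` for some `y ∈ (0, π)`; `k' ≠ 0` (`Ψ_notMem`); `small` excludes poles.
`exists_ends`: `κ = F^[k + 1] ∘ vert x`.  For small `y > 0` the point `F^[k] (vert x y)` is in `Ω` and not in `D`, so `κ y ∉ D` (`mem_D_of`); `first_hop` on `[0, y₀]`; the lift is `F^[k] ∘ vert x`.  For the other end apply this to the reversed path on `[-π, -y₀]` and use `Hop.rev`, `Bad.rev`.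
`claim`: `core`, `deriv_vert`, `len_of_core` with `f y = lenf j (k + 1) j' R (pt x y)`; every point `pt x y`, `y ∈ (s, t)`, is in `U` or in `T`.  `energy`: `energy_two`, `lintegral_add_right`, `Finset.single_le_sum`.
-/

open Set Metric Topology Filter MeasureTheory
open scoped ENNReal

namespace Pool.Agent.Work.MP_042f46_an.Sx

/-- the properties of the constants that are used for a fixed radius -/
structure Rdy (σ : Sx) (ρ : ℝ) (N : ℕ) (η δ : ℝ) : Prop where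
  age : ∀ κ s t a b, σ.Hop ρ η κ s t a b → σ.Bad ρ κ s t → ¬ σ.Single ρ κ s t N
  small : σ.Small N η δ
  far : ∀ z ∈ σ.K, 4 * δ ≤ dist σ.v₀ z

namespace Cfg

variable {σ : Sx} {ρ : ℝ} {C : σ.Cfg ρ} {N j : ℕ} {R η δ x : ℝ}

theorem XE_Sig {y : ℝ} (hy : y ∈ Ioo 0 Real.pi) : pt x y ∈ Sig := hy

theorem XE_pt (x : ℝ) : Continuous (pt x) := continuous_pt.comp (Continuous.prodMk_right x)

theorem XE_enorm (z : ℂ) : ‖z * Complex.I‖ₑ = ‖z‖ₑ := by
  rw [← ofReal_norm, ← ofReal_norm, norm_mul, Complex.norm_I, mul_one]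

theorem hop_G (hx : x ∈ C.G N j R η) : σ.Hop ρ η ((C.S j).vert x) 0 Real.pi
    ((C.S j).a false x) ((C.S j).a true x) := by
  have key : ∀ u ∈ Icc 0 Real.pi, ∀ u' ∈ Icc 0 Real.pi, u ≤ u' →
      dist ((C.S j).vert x u') ((C.S j).vert x u) < η := by
    intro u hu u' hu' huu
    have sub : Ioo u u' ⊆ Ioo 0 Real.pi := Ioo_subset_Ioo hu.1 hu'.2
    have h1 := path_len (c := (C.S j).vert x)
      (c' := fun y => deriv (C.S j).Ψ (pt x y) * Complex.I) huu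
      (((C.S j).cont_vert x).mono (Icc_subset_Icc hu.1 hu'.2))
      (fun y hy => (((C.S j).diff.differentiableAt
        (isOpen_Sig.mem_nhds (XE_Sig (sub hy)))).hasDerivAt.comp y (hasDerivAt_pt x y)))
      (((((C.S j).diff.deriv isOpen_Sig).continuousOn.comp (XE_pt x).continuousOn
        fun y hy => XE_Sig (sub hy))).mul continuousOn_const)
    simp only [XE_enorm] at h1
    have h2 := (h1.trans (lintegral_mono_set sub)).trans_lt hx.2.2.1
    rw [← ofReal_norm, ENNReal.ofReal_lt_ofReal_iff_of_nonneg (norm_nonneg _)] at h2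
    rwa [dist_eq_norm]
  refine (C.S j).hop_vert C.rad fun u hu u' hu' => ?_
  rcases le_total u u' with h | h
  · rw [dist_comm]
    exact key u hu u' hu' h
  · exact key u' hu' u hu h

theorem exists_time (h : σ.Rdy ρ N η δ) (hx : x ∈ C.G N j R η) :
    ∃ k < N, x ∈ C.Col j k ∧ ∃ y₀ ∈ Ioo 0 Real.pi, σ.F^[k + 1] ((C.S j).vert x y₀) ∈ σ.D ρ := by
  classical
  have H := hop_G hx
  have h1 : ∃ k, k ≤ N ∧ ∃ y ∈ Ioo 0 Real.pi, σ.F^[k] ((C.S j).vert x y) ∈ σ.D ρ := by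
    by_contra! k
    exact h.age _ _ _ _ _ H hx.1.2.2.2.2 k
  have h2 := Nat.find_spec h1
  have h3 := fun m => Nat.find_min h1 (m := m)
  generalize Nat.find h1 = k' at h2 h3
  obtain ⟨hk, y₀, hy, h0⟩ := h2
  rcases k' with _ | k
  · exact absurd h0 ((C.S j).Ψ_notMem (XE_Sig hy))
  refine ⟨k, by omega, fun y hy' => ⟨XE_Sig hy', fun i hi m => ?_, fun i hi => ?_⟩, y₀, hy, h0⟩
  · exact h3 i (by omega) ⟨by omega, y, hy', m⟩
  · exact (h.small _ _ _ _ _ _ H i (by omega)).2.1 y (Ioo_subset_Icc_self hy')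

theorem XE_end {g : ℝ → ℂ} {s t : ℝ} (hρ : ρ ∈ Ioc (1 : ℝ) 2) (hst : s < t)
    (hg : ContinuousOn g (Icc s t)) (hκ : ContinuousOn (σ.F ∘ g) (Icc s t)) (h0 : g s ∈ σ.D ρ)
    (h1 : ∀ u ∈ Ioc s t, g u ∉ σ.D ρ) (h2 : σ.F (g t) ∈ σ.D ρ)
    (hs : ∀ u ∈ Icc s t, ∀ u' ∈ Icc s t, dist (σ.F (g u)) (σ.F (g u')) < δ) :
    ∃ t' ∈ Ioc s t, ∃ a b, σ.Hop ρ δ (σ.F ∘ g) s t' a b ∧ σ.Bad ρ (σ.F ∘ g) s t' := by
  have h3 : ∀ᶠ u in 𝓝[>] s, (σ.F ∘ g) u ∉ σ.D ρ := by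
    have k1 : ∀ᶠ u in 𝓝[Icc s t] s, g u ∈ σ.Ω :=
      hg s (left_mem_Icc.2 hst.le) (σ.isOpen_Ω.mem_nhds (σ.D_sub hρ.1 h0))
    have k2 : Ioc s t ∈ 𝓝[>] s := Ioc_mem_nhdsGT hst
    have k3 : ∀ᶠ u in 𝓝[>] s, g u ∈ σ.Ω :=
      k1.filter_mono (nhdsWithin_le_of_mem (mem_of_superset k2 Ioc_subset_Icc_self))
    filter_upwards [k2, k3] with u hu hu' m
    exact h1 u hu (σ.mem_D_of hρ.1 hu' m)
  obtain ⟨t', m, a, b, H⟩ := σ.first_hop hρ hst hκ (σ.mapsTo_D hρ.1 h0) h3 h2 hs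
  exact ⟨t', m, a, b, H, g, hg.mono (Icc_subset_Icc_right m.2), fun _ _ => rfl,
    fun k => h1 t' m (k.1 h0)⟩

theorem exists_ends (h : σ.Rdy ρ N η δ) (hx : x ∈ C.G N j R η) {k : ℕ} (hk : k < N)
    (hc : x ∈ C.Col j k) {y₀ : ℝ} (hy : y₀ ∈ Ioo 0 Real.pi)
    (h0 : σ.F^[k + 1] ((C.S j).vert x y₀) ∈ σ.D ρ) :
    ∃ s₁ ∈ Ioc 0 y₀, ∃ s₂ ∈ Ico y₀ Real.pi, ∃ a₁ b₁ a₂ b₂,
      σ.Hop ρ δ (σ.F^[k + 1] ∘ (C.S j).vert x) 0 s₁ a₁ b₁ ∧
      σ.Bad ρ (σ.F^[k + 1] ∘ (C.S j).vert x) 0 s₁ ∧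
      σ.Hop ρ δ (σ.F^[k + 1] ∘ (C.S j).vert x) s₂ Real.pi a₂ b₂ ∧
      σ.Bad ρ (σ.F^[k + 1] ∘ (C.S j).vert x) s₂ Real.pi := by
  have H := hop_G hx
  obtain ⟨c0, -, -⟩ := h.small _ _ _ _ _ _ H k hk.le
  obtain ⟨c1, -, c2⟩ := h.small _ _ _ _ _ _ H (k + 1) hk
  rw [Function.iterate_succ', Function.comp_assoc] at c1 ⊢
  simp only [Function.iterate_succ_apply'] at c2 h0
  have hρ : (0 : ℝ) ≤ ρ := zero_le_one.trans C.rad.1.le
  have d0 : (σ.F^[k] ∘ (C.S j).vert x) 0 ∈ σ.D ρ := by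
    rw [Function.comp_apply, H.start, σ.iter_γ C.rad.1]
    exact σ.γ_mem hρ _
  have d1 : (σ.F^[k] ∘ (C.S j).vert x) Real.pi ∈ σ.D ρ := by
    rw [Function.comp_apply, H.stop, σ.iter_γ C.rad.1]
    exact σ.γ_mem hρ _
  have d2 : ∀ u ∈ Ioo 0 Real.pi, (σ.F^[k] ∘ (C.S j).vert x) u ∉ σ.D ρ := fun u hu =>
    (hc u hu).2.1 k le_rfl
  have s1 : Icc 0 y₀ ⊆ Icc 0 Real.pi := Icc_subset_Icc_right hy.2.le
  have s2 : ∀ u ∈ Icc (-Real.pi) (-y₀), -u ∈ Icc 0 Real.pi := fun u hu =>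
    ⟨by linarith only [hu, hy, hu.2, hy.1], by linarith only [hu, hu.1]⟩
  obtain ⟨s₁, m1, a₁, b₁, p1, p2⟩ := XE_end (g := σ.F^[k] ∘ (C.S j).vert x) C.rad hy.1
    (c0.mono s1) (c1.mono s1) d0 (fun u hu => d2 u ⟨hu.1, hu.2.trans_lt hy.2⟩) h0
    fun u hu u' hu' => c2 u (s1 hu) u' (s1 hu')
  obtain ⟨s₂, m2, a₂, b₂, q1, q2⟩ := XE_end (g := fun u => (σ.F^[k] ∘ (C.S j).vert x) (-u))
    (δ := δ) C.rad (neg_lt_neg hy.2) (c0.comp continuous_neg.continuousOn s2)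
    (c1.comp continuous_neg.continuousOn s2) (by simpa only [neg_neg] using d1)
    (fun u hu => d2 _ ⟨by linarith only [hu, hy, hu.2, hy.1], by linarith only [hu, hu.1]⟩)
    (by simpa only [neg_neg, Function.comp_apply] using h0) fun u hu u' hu' => c2 _ (s2 u hu) _ (s2 u' hu')
  have q3 := q1.rev
  have q4 := q2.rev
  simp only [Function.comp_def, neg_neg] at q3 q4
  exact ⟨s₁, m1, -s₂, ⟨by linarith only [m2, m2.2], by linarith only [m2, m2.1]⟩, a₁, b₁, b₂, a₂, p1, p2, q3, q4⟩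

theorem claim (h : σ.Rdy ρ N η δ) (hx : x ∈ C.G N j R η) {k : ℕ} (hk : k < N)
    (hc : x ∈ C.Col j k) (hc' : x ∉ C.Col j (k + 1)) {s t a b : ℝ} (hs : 0 ≤ s)
    (ht' : t ≤ Real.pi) {e : Bool} (he : ht e = s ∨ ht e = t)
    (h1 : σ.Hop ρ δ (σ.F^[k + 1] ∘ (C.S j).vert x) s t a b)
    (h2 : σ.Bad ρ (σ.F^[k + 1] ∘ (C.S j).vert x) s t) :
    ∃ j' ≤ C.n, ∃ w, ENNReal.ofReal Real.pi ≤
      ∫⁻ y in Ioo s t, ‖deriv (C.g j (k + 1) j') (pt x y)‖ₑ ∧
      ∀ y ∈ Ioo s t, pt x y ∈ C.T N R η j k e j' w ∪ C.U N R j k j' := by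
  have H := hop_G hx
  have sub : Ioo s t ⊆ Ioo 0 Real.pi := Ioo_subset_Ioo hs ht'
  have hO : ∀ y ∈ Ioo s t, pt x y ∈ C.O j (k + 1) := by
    intro y hy
    obtain ⟨o1, o2, -⟩ := hc y (sub hy)
    refine ⟨o1, fun i hi => ?_, fun i hi => ?_⟩
    · rcases hi.eq_or_lt with rfl | hi'
      · exact h1.out y hy
      · exact o2 i (by omega)
    · exact (h.small _ _ _ _ _ _ H i (by omega)).2.1 y (Ioo_subset_Icc_self (sub hy))
  obtain ⟨j', hj', k0, k1⟩ := C.core N h.far h1 h2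
  obtain ⟨d1, d2⟩ := C.deriv_vert j (k + 1) j' hO
  obtain ⟨l1, l2, l3, l4⟩ := C.len_of_core N (R := R) h1 d1 d2 k0 k1
    (f := fun y => C.lenf N j (k + 1) j' R (pt x y))
    (fun u hu m => by
      rw [XE_enorm]
      exact (indicator_of_mem (s := {z ∈ C.O j (k + 1) |
        (C.g j (k + 1) j' z).re ∈ C.bx N j' (R + 1)}) ⟨hO u hu, m⟩
        (fun z => ‖deriv (C.g j (k + 1) j') z‖ₑ)).ge)
    ((lintegral_mono_set sub).trans_lt (hx.2.2.2 (k + 1) hk j' hj'))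
  simp only [XE_enorm] at l2
  obtain ⟨w, ξ, hw⟩ : ∃ w ξ, (C.S j').Ψ (pt ξ (ht w)) =
      σ.γ ρ ((C.S j).a e x + (k + 1 : ℕ) * σ.α) := by
    have e1 : (σ.F^[k + 1] ∘ (C.S j).vert x) (ht e) =
        σ.γ ρ ((C.S j).a e x + (k + 1 : ℕ) * σ.α) := by
      rw [Function.comp_apply, Strip.vert, (C.S j).wall, σ.iter_γ C.rad.1]
    rw [← e1]
    rcases he with he | he
    · rwa [he]
    · rwa [he]
  refine ⟨j', hj', w, l2, fun y hy => ?_⟩
  by_cases hn : (C.g j (k + 1) j' (pt x y)).re ∈ C.near N j' (R + 1)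
  · exact .inr ⟨hO y hy, hn⟩
  refine .inl ⟨XE_Sig (sub hy), hx, hc, hc', fun y' hy' ne => hO y' ?_, ⟨ξ, hw⟩,
    (l1 y hy).resolve_right hn, fun ⟨p, hp, m⟩ => hn ⟨p, hp, by linarith only [m]⟩⟩
  change y' ∈ uIcc (ht e) y at hy'
  rcases he with he | he
  · rw [he] at hy' ne
    rw [uIcc_of_le hy.1.le] at hy'
    exact ⟨lt_of_le_of_ne hy'.1 ne.symm, hy'.2.trans_lt hy.2⟩
  · rw [he] at hy' ne
    rw [uIcc_of_ge hy.2.le] at hy'
    exact ⟨hy.1.trans_le hy'.1, lt_of_le_of_ne hy'.2 ne⟩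

theorem XE_piece {k j' : ℕ} {e w : Bool} {s t : ℝ} (hs : 0 ≤ s) (ht' : t ≤ Real.pi)
    (h : ∀ y ∈ Ioo s t, pt x y ∈ C.T N R η j k e j' w ∪ C.U N R j k j') :
    ∫⁻ y in Ioo s t, ‖deriv (C.g j (k + 1) j') (pt x y)‖ₑ ^ 2 ≤
      (∑ w : Bool, ∫⁻ y in Ioo 0 Real.pi, C.en (C.T N R η j k e j' w) j k j' (pt x y)) +
        ∫⁻ y in Ioo 0 Real.pi, C.en (C.U N R j k j') j k j' (pt x y) := by
  have m : Measurable fun y => C.en (C.U N R j k j') j k j' (pt x y) :=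
    (C.meas_en (C.meas_U N R j k j') j k j').comp (XE_pt x).measurable
  refine le_trans ?_ (add_le_add_left (Finset.single_le_sum (f := fun w =>
    ∫⁻ y in Ioo 0 Real.pi, C.en (C.T N R η j k e j' w) j k j' (pt x y))
    (fun _ _ => zero_le) (Finset.mem_univ w)) _)
  rw [← lintegral_add_right _ m]
  refine le_trans (setLIntegral_mono' measurableSet_Ioo fun y hy => ?_)
    (lintegral_mono_set (Ioo_subset_Ioo hs ht'))
  rcases h y hy with q | q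
  · exact le_add_right (indicator_of_mem q fun z => ‖deriv (C.g j (k + 1) j') z‖ₑ ^ 2).ge
  · exact le_add_left (indicator_of_mem q fun z => ‖deriv (C.g j (k + 1) j') z‖ₑ ^ 2).ge

theorem energy (h : σ.Rdy ρ N η δ) (hx : x ∈ C.G N j R η) :
    ENNReal.ofReal (4 * Real.pi) ≤ ∑ k ∈ Finset.range N, ∑ j' ∈ Finset.range (C.n + 1),
      ∑ e : Bool, ((∑ w : Bool, ∫⁻ y in Ioo 0 Real.pi,
        C.en (C.T N R η j k e j' w) j k j' (pt x y)) +
        ∫⁻ y in Ioo 0 Real.pi, C.en (C.U N R j k j') j k j' (pt x y)) := by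
  obtain ⟨k, hk, hc, y₀, hy, h0⟩ := exists_time h hx
  have hc' : x ∉ C.Col j (k + 1) := fun m => (m y₀ hy).2.1 (k + 1) le_rfl h0
  obtain ⟨s₁, m1, s₂, m2, a₁, b₁, a₂, b₂, p1, p2, q1, q2⟩ := exists_ends h hx hk hc hy h0
  have n1 : s₁ ≤ Real.pi := m1.2.trans hy.2.le
  have n2 : 0 ≤ s₂ := hy.1.le.trans m2.1
  obtain ⟨j₁, hj₁, w₁, l1, t1⟩ := claim h hx hk hc hc' le_rfl n1 (e := false) (.inl rfl) p1 p2
  obtain ⟨j₂, hj₂, w₂, l2, t2⟩ := claim h hx hk hc hc' n2 le_rfl (e := true) (.inr rfl) q1 q2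
  have ms : ∀ j', Measurable fun y => ‖deriv (C.g j (k + 1) j') (pt x y)‖ₑ := fun j' =>
    ((measurable_deriv _).comp (XE_pt x).measurable).enorm
  refine (energy_two m1.1 (m1.2.trans m2.1) m2.2 (ms j₁).aemeasurable (ms j₂).aemeasurable
    l1 l2).trans ?_
  refine le_trans ?_ (Finset.single_le_sum (f := fun k => ∑ j' ∈ Finset.range (C.n + 1),
      ∑ e : Bool, ((∑ w : Bool, ∫⁻ y in Ioo 0 Real.pi,
        C.en (C.T N R η j k e j' w) j k j' (pt x y)) +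
        ∫⁻ y in Ioo 0 Real.pi, C.en (C.U N R j k j') j k j' (pt x y)))
    (fun _ _ => zero_le) (Finset.mem_range.2 hk))
  rw [Finset.sum_comm, Fintype.sum_bool, add_comm]
  exact add_le_add
    ((XE_piece n2 le_rfl t2).trans (Finset.single_le_sum (f := fun j' => (∑ w : Bool,
      ∫⁻ y in Ioo 0 Real.pi, C.en (C.T N R η j k true j' w) j k j' (pt x y)) +
        ∫⁻ y in Ioo 0 Real.pi, C.en (C.U N R j k j') j k j' (pt x y))
      (fun _ _ => zero_le) (Finset.mem_range.2 (Nat.lt_succ_of_le hj₂))))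
    ((XE_piece le_rfl n1 t1).trans (Finset.single_le_sum (f := fun j' => (∑ w : Bool,
      ∫⁻ y in Ioo 0 Real.pi, C.en (C.T N R η j k false j' w) j k j' (pt x y)) +
        ∫⁻ y in Ioo 0 Real.pi, C.en (C.U N R j k j') j k j' (pt x y))
      (fun _ _ => zero_le) (Finset.mem_range.2 (Nat.lt_succ_of_le hj₁))))

end Cfg

end Pool.Agent.Work.MP_042f46_an.Sx
end

-- merged part: Pool.Agent.Work.MP_042f46_an.XF
section
/-!
# The total width of the bad crosscuts is bounded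

Plans.  `T_sum`: `area_mult` over the index set `range (n + 1) ×ˢ range N ×ˢ univ` with multiplicity one (`claims_inj`), target `{z ∈ Sig | z.re ∈ Bd j'}`, `volume_box`.  `U_le`: `area_box`, `volume_near_le`, `d_pos`.
`G_sum`: integrate `energy` over `G j` (`setLIntegral_const`, `lintegral_finset_sum`, `meas_vert`, `lintegral_Sig`, `lintegral_indicator`), sum over `j`, exchange the sums, `T_sum`, `U_le`, `n_le`.
`Φ_le`: let `n₁ = ncard V + 1`; choose `R ≥ 1` with `4 * n₁ * (N + 1) * π ^ 2 * d ^ N ≤ R ^ 2`, and `R₀` from `exists_bound`.  `Bd_le`, `drop_len`, `drop_box`, `volume_near_le` give `Φ ≤ ∑ volume (G j) + Φ / 4 + M₂`, `G_sum` gives `∑ volume (G j) ≤ Φ / 2 + M₁`, with finite `M₁, M₂` that do not depend on `ρ` and `C`; as `Φ` is finite, `Φ ≤ 4 * (M₁ + M₂)`.  (It may be easier to pass to real numbers with `ENNReal.toReal`.)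
-/

open Set Metric Topology Filter MeasureTheory
open scoped ENNReal

namespace Pool.Agent.Work.MP_042f46_an.Sx

namespace Cfg

variable {σ : Sx} {ρ : ℝ} (C : σ.Cfg ρ) (N : ℕ) (R η : ℝ)

theorem T_sum {j' : ℕ} (hj : j' ≤ C.n) (w : Bool) :
    ∑ j ∈ Finset.range (C.n + 1), ∑ k ∈ Finset.range N, ∑ e : Bool,
      ∫⁻ z in C.T N R η j k e j' w, ‖deriv (C.g j (k + 1) j') z‖ₑ ^ 2 ≤
      ENNReal.ofReal Real.pi * volume (C.Bd N j') := by
  have h := area_mult (Finset.range (C.n + 1) ×ˢ Finset.range N ×ˢ (Finset.univ : Finset Bool))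
    (O := fun i => C.O i.1 (i.2.1 + 1)) (T := fun i => C.T N R η i.1 i.2.1 i.2.2 j' w)
    (g := fun i => C.g i.1 (i.2.1 + 1) j') (B := {z ∈ Sig | z.re ∈ C.Bd N j'}) (M := 1)
    (fun i _ => C.isOpen_O _ _) (fun i _ => C.diff_O _ _ _) (fun i _ => C.meas_T N R η _ _ _ _ _)
    (fun i _ => C.T_sub N R η _ _ _ _ _)
    (fun i _ z hz => ⟨((C.S j').Z_mem ((C.T_sub N R η _ _ _ _ _ hz).2.1 _ le_rfl)).1,
      hz.2.2.2.2.2.2.1⟩) fun u => ?_
  · rw [volume_box (C.isOpen_Bd N j').measurableSet, Nat.cast_one, one_mul] at h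
    simpa only [Finset.sum_product] using h
  · rw [Nat.cast_one, encard_le_one_iff]
    rintro ⟨⟨j₁, k₁, e₁⟩, z₁⟩ ⟨⟨j₂, k₂, e₂⟩, z₂⟩ ⟨a₁, b₁, c₁⟩ ⟨a₂, b₂, c₂⟩
    simp only [Finset.mem_product, Finset.mem_range, Nat.lt_succ_iff] at a₁ a₂
    obtain ⟨rfl, rfl, rfl, rfl⟩ :=
      claims_inj hj a₁.1 a₂.1 a₁.2.1 a₂.2.1 b₁ b₂ (c₁.trans c₂.symm)
    rfl

theorem U_le (j : ℕ) {k : ℕ} (hk : k < N) (j' : ℕ) :
    ∫⁻ z in C.U N R j k j', ‖deriv (C.g j (k + 1) j') z‖ₑ ^ 2 ≤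
      (σ.d ^ N : ℕ) * (ENNReal.ofReal Real.pi * (σ.mk' N * ENNReal.ofReal (2 * (R + 1)))) := by
  refine (C.area_box j (k + 1) j' (C.meas_near N j' (R + 1))).trans ?_
  gcongr
  · exact σ.d_pos
  · exact hk
  · exact C.volume_near_le N j' (R + 1)

theorem XF_en {A : Set ℂ} (hA : MeasurableSet A) (j k j' : ℕ) :
    ∫⁻ x, ∫⁻ y in Ioo 0 Real.pi, C.en A j k j' (pt x y) ≤
      ∫⁻ z in A, ‖deriv (C.g j (k + 1) j') z‖ₑ ^ 2 := by
  rw [← lintegral_Sig (C.meas_en hA j k j'), ← lintegral_indicator hA]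
  exact setLIntegral_le_lintegral _ _

theorem XF_comm (s t : Finset ℕ) (f : ℕ → ℕ → ℕ → Bool → Bool → ℝ≥0∞) :
    ∑ j ∈ s, ∑ k ∈ t, ∑ j' ∈ s, ∑ e, ∑ w, f j k j' e w =
      ∑ j' ∈ s, ∑ w, ∑ j ∈ s, ∑ k ∈ t, ∑ e, f j k j' e w := by
  simp only [Finset.sum_comm (s := t) (t := s)]
  rw [Finset.sum_comm]
  refine Finset.sum_congr rfl fun j' _ => ?_
  simp only [Fintype.sum_bool, Finset.sum_add_distrib]
  ring

theorem G_sum {δ : ℝ} (h : σ.Rdy ρ N η δ) :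
    ENNReal.ofReal (4 * Real.pi) * ∑ j ∈ Finset.range (C.n + 1), volume (C.G N j R η) ≤
      2 * (ENNReal.ofReal Real.pi * C.Φ N) + (2 * N * (σ.V.ncard + 1) ^ 2 : ℕ) *
        ((σ.d ^ N : ℕ) * (ENNReal.ofReal Real.pi * (σ.mk' N * ENNReal.ofReal (2 * (R + 1))))) := by
  set M := (σ.d ^ N : ℕ) * (ENNReal.ofReal Real.pi * (σ.mk' N * ENNReal.ofReal (2 * (R + 1))))
  have mT := fun j k e j' w => meas_vert (C.meas_en (C.meas_T N R η j k e j' w) j k j')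
  have mU := fun j k j' => meas_vert (C.meas_en (C.meas_U N R j k j') j k j')
  have h1 : ∀ j, ENNReal.ofReal (4 * Real.pi) * volume (C.G N j R η) ≤
      ∑ k ∈ Finset.range N, ∑ j' ∈ Finset.range (C.n + 1), ∑ e : Bool,
        ((∑ w : Bool, ∫⁻ z in C.T N R η j k e j' w, ‖deriv (C.g j (k + 1) j') z‖ₑ ^ 2) + M) := by
    intro j
    rw [← setLIntegral_const]
    refine (setLIntegral_mono' (C.meas_G N R η j) fun x hx => energy h hx).trans
      ((setLIntegral_le_lintegral _ _).trans ?_)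
    rw [lintegral_finsetSum _ fun k _ => Finset.measurable_sum _ fun j' _ =>
      Finset.measurable_sum _ fun e _ =>
        (Finset.measurable_sum _ fun w _ => mT j k e j' w).fun_add (mU j k j')]
    refine Finset.sum_le_sum fun k hk => ?_
    rw [lintegral_finsetSum _ fun j' _ => Finset.measurable_sum _ fun e _ =>
      (Finset.measurable_sum _ fun w _ => mT j k e j' w).fun_add (mU j k j')]
    refine Finset.sum_le_sum fun j' _ => ?_
    rw [lintegral_finsetSum _ fun e _ =>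
      (Finset.measurable_sum _ fun w _ => mT j k e j' w).fun_add (mU j k j')]
    refine Finset.sum_le_sum fun e _ => ?_
    rw [lintegral_add_right _ (mU j k j'), lintegral_finsetSum _ fun w _ => mT j k e j' w]
    exact add_le_add (Finset.sum_le_sum fun w _ => C.XF_en (C.meas_T N R η j k e j' w) j k j')
      ((C.XF_en (C.meas_U N R j k j') j k j').trans (C.U_le N R j (Finset.mem_range.1 hk) j'))
  rw [Finset.mul_sum]
  refine (Finset.sum_le_sum fun j _ => h1 j).trans ?_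
  simp only [Finset.sum_add_distrib]
  refine add_le_add ?_ ?_
  · rw [XF_comm, Φ, Finset.mul_sum, Finset.mul_sum]
    refine Finset.sum_le_sum fun j' hj => ?_
    refine (Finset.sum_le_sum fun w _ =>
      C.T_sum N R η (Nat.lt_succ_iff.1 (Finset.mem_range.1 hj)) w).trans_eq ?_
    simp
  · simp only [Finset.sum_const, Finset.card_range, Finset.card_univ, Fintype.card_bool,
      nsmul_eq_mul, ← mul_assoc, ← Nat.cast_mul]
    refine mul_le_mul_left (Nat.cast_le.2 ?_) _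
    have := C.n_le
    calc (C.n + 1) * N * (C.n + 1) * 2 = 2 * N * (C.n + 1) ^ 2 := by ring
      _ ≤ _ := by gcongr

end Cfg

theorem XF_fin {Φ G B p M₁ M₂ M₃ : ℝ≥0∞} (hΦ : Φ ≠ ∞) (p0 : p ≠ 0) (p1 : p ≠ ∞)
    (h1 : Φ ≤ G + M₂ + B) (h2 : 4 * p * G ≤ 2 * (p * Φ) + M₁) (h3 : 4 * B ≤ Φ + M₃) :
    Φ ≤ (M₁ + p * (4 * M₂ + M₃)) / p := by
  rw [ENNReal.le_div_iff_mul_le (Or.inl p0) (Or.inl p1)]
  refine (ENNReal.add_le_add_iff_left (a := 3 * (p * Φ)) (by finiteness)).1 ?_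
  calc _ = 4 * p * Φ := by ring
    _ ≤ 4 * p * (G + M₂ + B) := by gcongr
    _ = 4 * p * G + p * (4 * M₂ + 4 * B) := by ring
    _ ≤ 2 * (p * Φ) + M₁ + p * (4 * M₂ + (Φ + M₃)) := by gcongr
    _ = _ := by ring

theorem Φ_le (σ : Sx) (N : ℕ) {η : ℝ} (hη : 0 < η) (δ : ℝ) :
    ∃ M : ℝ≥0∞, M ≠ ∞ ∧ ∀ (ρ : ℝ) (C : σ.Cfg ρ), σ.Rdy ρ N η δ → C.Φ N ≤ M := by
  obtain ⟨R₀, -, hR₀⟩ := σ.exists_bound
  set p := ENNReal.ofReal Real.pi with hp
  have p0 : p ≠ 0 := (ENNReal.ofReal_pos.2 Real.pi_pos).ne'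
  have p1 : p ≠ ∞ := ENNReal.ofReal_ne_top
  set n₁ : ℕ := σ.V.ncard + 1 with hn₁
  set D : ℝ≥0∞ := ((σ.d ^ N : ℕ) : ℝ≥0∞) with hD
  have D0 : D ≠ 0 := Nat.cast_ne_zero.2 (pow_pos σ.d_pos N).ne'
  have D1 : D ≠ ∞ := ENNReal.natCast_ne_top _
  set q : ℝ≥0∞ := ((n₁ * (N + 1) : ℕ) : ℝ≥0∞) with hq
  have q0 : q ≠ 0 := Nat.cast_ne_zero.2 (by positivity)
  have q1 : q ≠ ∞ := ENNReal.natCast_ne_top _
  obtain ⟨R, hR⟩ : ∃ R : ℝ, p * (D * p) * (q * 4) ≤ ENNReal.ofReal R ^ 2 := by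
    have h1 : p * (D * p) * (q * 4) + 1 ≠ ∞ := by finiteness
    refine ⟨(p * (D * p) * (q * 4) + 1).toReal, ?_⟩
    rw [ENNReal.ofReal_toReal h1, sq]
    exact le_self_add.trans (le_mul_of_one_le_right' le_add_self)
  set m : ℝ≥0∞ := σ.mk' N * ENNReal.ofReal (2 * (R + 1)) with hm
  have m1 : m ≠ ∞ := by finiteness
  set m₂ : ℝ≥0∞ := σ.mk' N * ENNReal.ofReal (2 * R) +
    p * volume (ball (0 : ℂ) R₀) / ENNReal.ofReal η ^ 2 with hm₂
  have η0 : ENNReal.ofReal η ^ 2 ≠ 0 := pow_ne_zero _ (ENNReal.ofReal_pos.2 hη).ne'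
  have b1 : volume (ball (0 : ℂ) R₀) ≠ ∞ := measure_ball_lt_top.ne
  have m₂1 : m₂ ≠ ∞ := by finiteness
  refine ⟨((2 * N * n₁ ^ 2 : ℕ) * (D * (p * m)) + p * (4 * (n₁ * m₂) + n₁ * m)) / p,
    by finiteness, fun ρ C h => ?_⟩
  have hn : ((C.n + 1 : ℕ) : ℝ≥0∞) ≤ n₁ := by
    have := C.n_le
    exact_mod_cast Nat.succ_le_succ this
  let b : ℕ → ℕ → ℕ → ℝ≥0∞ := fun j k j' => volume {x : ℝ |
    ENNReal.ofReal R ≤ ∫⁻ y in Ioo 0 Real.pi, C.lenf N j k j' R (pt x y)}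
  refine XF_fin (G := ∑ j ∈ Finset.range (C.n + 1), volume (C.G N j R η))
    (B := ∑ j ∈ Finset.range (C.n + 1), ∑ k ∈ Finset.range (N + 1),
      ∑ j' ∈ Finset.range (C.n + 1), b j k j') (C.Φ_ne_top N) p0 p1 ?_ ?_ ?_
  · refine (Finset.sum_le_sum fun j _ => C.Bd_le N R η j).trans ?_
    simp only [add_assoc]
    rw [Finset.sum_add_distrib]
    simp only [← add_assoc]
    rw [Finset.sum_add_distrib, ← add_assoc]
    gcongr
    refine (Finset.sum_le_card_nsmul _ _ m₂ fun j _ => ?_).trans ?_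
    · refine add_le_add (C.volume_near_le N j R) ?_
      rw [ENNReal.le_div_iff_mul_le (Or.inl η0) (Or.inl (by finiteness)), mul_comm]
      exact C.drop_len η j (hR₀ ρ C.rad)
    · rw [Finset.card_range, nsmul_eq_mul]
      gcongr
  · have := C.G_sum N R η h
    rwa [ENNReal.ofReal_mul (by norm_num), ENNReal.ofReal_ofNat] at this
  · have h1 : ∀ j, ∀ k ∈ Finset.range (N + 1), ∀ j',
        q * (4 * b j k j') ≤ volume (C.Bd N j') + m := by
      intro j k hk j'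
      have h2 : p * (D * p) * (q * (4 * b j k j')) ≤ p * (D * p) * (volume (C.Bd N j') + m) := by
        calc _ = p * (D * p) * (q * 4) * b j k j' := by ring
          _ ≤ ENNReal.ofReal R ^ 2 * b j k j' := by gcongr
          _ ≤ _ := C.drop_box N R j k j'
          _ ≤ p * (D * (p * (volume (C.Bd N j') + m))) := by
            rw [hD]
            gcongr
            · exact σ.d_pos
            · exact Nat.lt_succ_iff.1 (Finset.mem_range.1 hk)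
            · exact (measure_union_le _ _).trans (add_le_add le_rfl (C.volume_near_le N j' _))
          _ = _ := by ring
      exact (ENNReal.mul_le_mul_iff_right (by positivity) (by finiteness)).1 h2
    refine (ENNReal.mul_le_mul_iff_right q0 q1).1 ?_
    simp only [Finset.mul_sum]
    refine (Finset.sum_le_sum fun j _ => Finset.sum_le_sum fun k hk =>
      Finset.sum_le_sum fun j' _ => h1 j k hk j').trans ?_
    simp only [Finset.sum_add_distrib (s := Finset.range (C.n + 1))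
      (f := fun j' => volume (C.Bd N j')), Finset.sum_const, Finset.card_range, nsmul_eq_mul]
    rw [hq, Nat.cast_mul, mul_assoc, Cfg.Φ]
    gcongr

end Pool.Agent.Work.MP_042f46_an.Sx
end

-- merged part: Pool.Agent.Work.MP_042f46_an.XG
section
/-!
# Without injectivity the total width of the bad crosscuts is unbounded

Plans.  `hz j` is the density of the strip metric on the box.  `hz_area`: `area_one` for `Z` on the open set `(D ρ)ᶜ` with multiplicity one (`Z_inj`), `volume_box`.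
`circ_len`: `core` gives `j`.  Apply `len_of_core` with `R = π`, `c' θ = deriv Z (circleMap y r θ) * (circleMap 0 r θ * I)` (`hasDerivAt_circleMap`, norm `r * ‖deriv Z‖`) and `f θ = ofReal r * hz j (circleMap y r θ)`: in both cases `π ≤ ∫⁻ θ in Ioo s t, f θ`.  Then `cs_Ioo` gives `π ^ 2 ≤ 2 π * r ^ 2 * ∫⁻ hz ^ 2`, and `lintegral_period`.
`Φ_ge`: let `a = min c (δ / 3)`; `log_div` gives `δ'` with `∫⁻ r in Ioo δ' a, 1 / r` larger than `2 * (M + n₁ * mk' * 2 (π + 1))`; integrate `circ_len` over `r ∈ (δ', a)`, use `Area_polar` and Tonelli (`hz` is measurable), `hz_area`, `volume_near_le`, `n_le`.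
-/

open Set Metric Topology Filter MeasureTheory
open scoped ENNReal

namespace Pool.Agent.Work.MP_042f46_an.Sx

namespace Cfg

variable {σ : Sx} {ρ : ℝ} (C : σ.Cfg ρ) (N : ℕ)

/-- the density of the strip metric on the box -/
noncomputable def hz (j : ℕ) : ℂ → ℝ≥0∞ :=
  {z | z ∉ σ.D ρ ∧ ((C.S j).Z z).re ∈ C.bx N j (Real.pi + 1)}.indicator
    fun z => ‖deriv (C.S j).Z z‖ₑ

theorem XG_meas (j : ℕ) :
    MeasurableSet {z | z ∉ σ.D ρ ∧ ((C.S j).Z z).re ∈ C.bx N j (Real.pi + 1)} := by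
  have h := (σ.isClosed_D C.rad.1).measurableSet.compl.subtype_image
    ((Complex.continuous_re.comp (C.S j).Z_diff.continuousOn.domRestrict).measurable
      (C.meas_bx N j (Real.pi + 1)))
  convert h using 1
  exact Set.ext fun z => ⟨fun a => ⟨⟨z, a.1⟩, a.2, rfl⟩, fun ⟨w, a, b⟩ => b ▸ ⟨w.2, a⟩⟩

theorem meas_hz (j : ℕ) : Measurable (C.hz N j) :=
  (measurable_deriv _).enorm.indicator (C.XG_meas N j)

theorem hz_area (j : ℕ) :
    ∫⁻ z, C.hz N j z ^ 2 ≤ ENNReal.ofReal Real.pi * volume (C.bx N j (Real.pi + 1)) := by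
  have h := area_one (M := 1) (B := {z ∈ Sig | z.re ∈ C.bx N j (Real.pi + 1)})
    (σ.isClosed_D C.rad.1).isOpen_compl (C.S j).Z_diff (C.XG_meas N j) (fun z hz => hz.1)
    (fun z hz => ⟨((C.S j).Z_mem hz.1).1, hz.2⟩) fun w => encard_le_one_iff.2
      fun a b ha hb => (C.S j).Z_inj ha.1.1 hb.1.1 (ha.2.trans hb.2.symm)
  rw [volume_box (C.meas_bx N j _), Nat.cast_one, one_mul,
    ← lintegral_indicator (C.XG_meas N j)] at h
  refine le_trans (le_of_eq (lintegral_congr fun z => ?_)) h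
  unfold hz indicator
  split_ifs <;> simp

theorem circ_len {δ r s t a b : ℝ} {y : ℂ} (hfar : ∀ z ∈ σ.K, 4 * δ ≤ dist σ.v₀ z) (hr : 0 < r)
    (hst : t ≤ s + 2 * Real.pi) (h : σ.Hop ρ δ (circleMap y r) s t a b)
    (hb : σ.Bad ρ (circleMap y r) s t) :
    ENNReal.ofReal Real.pi * ENNReal.ofReal (1 / r) ≤ 2 * ∑ j ∈ Finset.range (C.n + 1),
      ∫⁻ θ in Ioo (-Real.pi) Real.pi, ENNReal.ofReal r * C.hz N j (circleMap y r θ) ^ 2 := by
  obtain ⟨j, hj, h0, h1⟩ := C.core N hfar h hb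
  have hO := (σ.isClosed_D C.rad.1).isOpen_compl
  have hm : Measurable fun θ => C.hz N j (circleMap y r θ) :=
    (C.meas_hz N j).comp (continuous_circleMap y r).measurable
  have hf : ∀ u ∈ Ioo s t, ((C.S j).Z (circleMap y r u)).re ∈ C.bx N j (Real.pi + 1) →
      ‖deriv (C.S j).Z (circleMap y r u) * (circleMap 0 r u * Complex.I)‖ₑ ≤
        ENNReal.ofReal r * C.hz N j (circleMap y r u) := fun u hu hx => by
    rw [hz, indicator_of_mem (by exact ⟨h.out u hu, hx⟩), enorm_mul, mul_comm, ← ofReal_norm,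
      norm_mul, Complex.norm_I, mul_one, norm_circleMap_zero, abs_of_pos hr]
  have h2 : ENNReal.ofReal Real.pi ≤
      ∫⁻ u in Ioo s t, ENNReal.ofReal r * C.hz N j (circleMap y r u) := by
    by_contra hn
    obtain ⟨k1, k2, -⟩ := C.len_of_core N h (fun u hu => ((C.S j).Z_diff.differentiableAt
      (hO.mem_nhds (h.out u hu))).hasDerivAt.comp u (hasDerivAt_circleMap y r u))
      (((((C.S j).Z_diff.deriv hO).continuousOn.comp (continuous_circleMap y r).continuousOn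
        h.out)).mul ((continuous_circleMap 0 r).mul continuous_const).continuousOn)
      h0 h1 hf (not_le.1 hn)
    exact hn (k2.trans (setLIntegral_mono' measurableSet_Ioo fun u hu => hf u hu (k1 u hu)))
  have h3 := lintegral_period (hm.pow_const 2)
    (fun θ => by simp only [periodic_circleMap y r θ]) hst
  have h4 := (pow_le_pow_left' h2 2).trans (cs_Ioo (hm.const_mul _).aemeasurable)
  simp only [mul_pow] at h4
  rw [lintegral_const_mul _ (hm.pow_const 2)] at h4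
  have h5 := h4.trans (mul_le_mul' (ENNReal.ofReal_le_ofReal (sub_le_iff_le_add'.2 hst))
    (mul_le_mul_right h3 _))
  refine le_trans ?_ (mul_le_mul_right (Finset.single_le_sum (fun _ _ => zero_le)
    (Finset.mem_range.2 (Nat.lt_succ_of_le hj))) 2)
  have hπ := Real.pi_pos
  rw [lintegral_const_mul _ (hm.pow_const 2), ← ENNReal.mul_le_mul_iff_right
    (a := ENNReal.ofReal Real.pi * ENNReal.ofReal r) (by simp [hπ, hr]) (by finiteness)]
  refine le_trans (le_of_eq ?_) (h5.trans_eq ?_)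
  · rw [mul_mul_mul_comm, ← ENNReal.ofReal_mul hr.le, mul_one_div_cancel hr.ne',
      ENNReal.ofReal_one, mul_one, sq]
  · rw [ENNReal.ofReal_mul zero_le_two, ENNReal.ofReal_ofNat]
    ring

end Cfg

theorem XG_int {f : ℂ → ℝ≥0∞} (hf : Measurable f) (y : ℂ) (a : ℝ) :
    (Measurable fun r => ∫⁻ θ in Ioo (-Real.pi) Real.pi, ENNReal.ofReal r * f (circleMap y r θ)) ∧
    ∫⁻ r in Ioo 0 a, ∫⁻ θ in Ioo (-Real.pi) Real.pi, ENNReal.ofReal r * f (circleMap y r θ) ≤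
      ∫⁻ z, f z := by
  have h : Measurable fun p : ℝ × ℝ => ENNReal.ofReal p.1 * f (circleMap y p.1 p.2) :=
    measurable_fst.ennreal_ofReal.mul (hf.comp (by unfold circleMap; fun_prop))
  refine ⟨h.lintegral_prod_right', le_trans (le_of_eq ?_) (setLIntegral_le_lintegral (ball y a) f)⟩
  rw [Area_polar, Measure.volume_eq_prod, ← Measure.prod_restrict]
  exact (lintegral_prod _ h.aemeasurable).symm

theorem Φ_ge (σ : Sx) (h : ¬ InjOn σ.F σ.K) (N : ℕ) {M : ℝ≥0∞} (hM : M ≠ ∞) :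
    ∃ ρ₀ > 1, ∀ ρ ≤ ρ₀, ∀ C : σ.Cfg ρ, M < C.Φ N := by
  obtain ⟨y, c, hc, h⟩ := σ.exists_circ h
  obtain ⟨ε, hε, h1⟩ := Metric.isOpen_iff.1 isClosed_closure.isOpen_compl _ σ.v₀_K
  have hfar : ∀ z ∈ σ.K, 4 * (ε / 4) ≤ dist σ.v₀ z := fun z hz => by
    rw [mul_div_cancel₀ _ four_ne_zero, dist_comm]
    exact not_lt.1 fun a => h1 a hz
  obtain ⟨δ, hδ, h2⟩ := log_div (a := min c (ε / 12)) (by positivity) (M := 2 * (M +
    (σ.V.ncard + 1 : ℕ) * (σ.mk' N * ENNReal.ofReal (2 * (Real.pi + 1))))) (by finiteness)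
  obtain ⟨ρ₀, h3, h4⟩ := h δ hδ.1
  refine ⟨ρ₀, h3, fun ρ hρ C => not_le.1 fun hn => h2.not_ge ?_⟩
  have h5 := fun j => XG_int ((C.meas_hz N j).pow_const 2) y (min c (ε / 12))
  rw [← ENNReal.mul_le_mul_iff_right (a := ENNReal.ofReal Real.pi) (by simp [Real.pi_pos])
    ENNReal.ofReal_ne_top, ← lintegral_const_mul' _ _ ENNReal.ofReal_ne_top]
  refine (setLIntegral_mono' measurableSet_Ioo fun r hr => ?_).trans
    ((lintegral_mono_set (Ioo_subset_Ioo_left hδ.1.le) (f := fun r =>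
      2 * ∑ j ∈ Finset.range (C.n + 1), ∫⁻ θ in Ioo (-Real.pi) Real.pi,
        ENNReal.ofReal r * C.hz N j (circleMap y r θ) ^ 2)).trans ?_)
  · obtain ⟨s, t, a, b, k1, k2, k3⟩ := h4 ρ ⟨C.rad.1, hρ⟩ r ⟨hr.1, hr.2.trans_le (min_le_left _ _)⟩
    exact C.circ_len N hfar (hδ.1.trans hr.1) k1
      (k2.mono (by linarith only [hr, hr.2.trans_le (min_le_right _ _)])) k3
  · rw [lintegral_const_mul' _ _ ENNReal.ofNat_ne_top, mul_left_comm,
      lintegral_finsetSum _ fun j _ => (h5 j).1]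
    refine mul_le_mul_right ((Finset.sum_le_sum fun j _ => (h5 j).2.trans ((C.hz_area N j).trans
      (mul_le_mul_right ((measure_union_le _ _).trans
        (add_le_add_right (C.volume_near_le N j _) _)) _))).trans ?_) 2
    rw [← Finset.mul_sum, Finset.sum_add_distrib, Finset.sum_const, Finset.card_range, nsmul_eq_mul]
    exact mul_le_mul_right (add_le_add hn
      (mul_le_mul_left (Nat.cast_le.2 (Nat.succ_le_succ C.n_le)) _)) _

end Pool.Agent.Work.MP_042f46_an.Sx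
end

-- merged part: Pool.Agent.Work.MP_042f46_an.Wander
section
/-!
# The wandering domain

Plans.  `comp_link`: the component is open and preconnected, hence path connected; the range of a path is compact and disjoint from `K`.  `Good.comp`: `comp_link`, `Hop.enc_of_conn` (for `k = 0`), `Tr.mono`.
`Good.not_out`: `Out.exists_closed` gives a closed `C` at positive distance from `K`, which misses `cl` (`Hop.near`).  `Good.not_P`: `P_out`.
`Tr.enc`: induction with `Hop.enc_map`.  `Good.map`: `f x ∉ S` by `Tr.enc`, `eventually_in` and `Hop.out_D`; this holds for all points of the open component of `x`, whose image is a neighbourhood of `f x` (`f_open`), so `f x ∉ K`; shift the chain (`Function.iterate_succ`).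
`Good.maps`: the image of the component is preconnected and disjoint from `K`.  `Good.ne`: if `f^[n] x` is in the component of `x`, `Tr.enc` and `Hop.enc_of_conn` show that `x` is enclosed at the times `0` and `n`; `Hop.pos'` contradicts `rot_sep`.
`Good.inj`: join `z, w` by a path in the component; `lift_closed` with `out_comp` and `Out.anti`.
`exists_wander`: the components of the `f^[k] x` are pairwise disjoint, so only finitely many meet `V`; replace `x` by an iterate; the component is bounded by `Good.not_out`, `frontier_comp`.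
-/

open Set Metric Topology Filter

namespace Pool.Agent.Work.MP_042f46_an.Sg

variable (σ : Sg)

/-- the component of the complement of `K` -/
def U (x : ℂ) : Set ℂ := connectedComponentIn σ.Kᶜ x

variable {σ} {x y : ℂ}

theorem Wander_sub (hy : y ∈ σ.U x) : y ∉ σ.K := connectedComponentIn_subset _ _ hy

theorem Wander_open (x : ℂ) : IsOpen (σ.U x) :=
  σ.isCompact_K.isClosed.isOpen_compl.connectedComponentIn

theorem Wander_self (h : σ.Good x) : x ∈ σ.U x := mem_connectedComponentIn h.1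

theorem Wander_path (hy : y ∈ σ.U x) : ∃ γ : Path x y, ∀ t, γ t ∈ σ.U x := by
  have hx : x ∈ σ.Kᶜ := connectedComponentIn_nonempty_iff.1 ⟨y, hy⟩
  exact ((Wander_open x).isConnected_iff_isPathConnected.1
    (isConnected_connectedComponentIn_iff.2 hx)).joinedIn x (mem_connectedComponentIn hx) y hy

theorem Wander_zero {N : ℕ} {δ r t a b : ℝ} {κ : ℝ → ℂ}
    (h : ∀ k ≤ N, σ.Hop r δ (σ.f^[k] ∘ κ) t (a + k * σ.α) (b + k * σ.α)) : σ.Hop r δ κ t a b := by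
  simpa using h 0 N.zero_le

theorem comp_link (hy : y ∈ σ.U x) : ∃ (C : Set ℂ) (δ : ℝ), 0 < δ ∧ IsPreconnected C ∧ x ∈ C ∧
    y ∈ C ∧ ∀ w ∈ C, ∀ z ∈ σ.K, δ ≤ dist w z := by
  obtain ⟨γ, hγ⟩ := Wander_path hy
  have hc : IsCompact (range γ) := isCompact_range γ.continuous
  obtain ⟨δ, hδ, h⟩ := hc.exists_thickening_subset_open σ.isCompact_K.isClosed.isOpen_compl
    (range_subset_iff.2 fun t => Wander_sub (hγ t))
  refine ⟨range γ, δ, hδ, isPreconnected_range γ.continuous, ⟨0, γ.source⟩, ⟨1, γ.target⟩,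
    fun w hw z hz => not_lt.1 fun hlt => h (mem_thickening_iff.2 ⟨w, hw, ?_⟩) hz⟩
  rwa [dist_comm]

theorem Good.comp (h : σ.Good x) (hy : y ∈ σ.U x) : σ.Good y := by
  obtain ⟨C, δ₀, hδ₀, hC, hx, hy', hd⟩ := comp_link hy
  refine ⟨Wander_sub hy, fun N δ ε r₀ hδ hε hr => ?_⟩
  obtain ⟨r, hr', κ, t, a, b, h1, h2, h3⟩ := h.2 N (min δ δ₀) ε r₀ (lt_min hδ hδ₀) hε hr
  exact ⟨r, hr', κ, t, a, b, h1, (Wander_zero h3).enc_of_conn hC
    (fun w hw z hz => (min_le_right _ _).trans (hd w hw z hz)) hx hy' h2,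
    fun k hk => (h3 k hk).mono (min_le_left _ _)⟩

theorem Good.not_out (h : σ.Good x) : ¬ Out σ.K x := by
  intro ho
  obtain ⟨C, hC, h1, h2, h3, h4⟩ := ho.exists_closed σ.isCompact_K
  obtain ⟨δ, hδ, hs⟩ := σ.isCompact_K.exists_thickening_subset_open hC.isOpen_compl
    h4.subset_compl_left
  obtain ⟨r, -, κ, t, a, b, -, h5, h6⟩ := h.2 0 δ 1 0 hδ one_pos zero_lt_one
  exact h5 ⟨C, h1, h2, h3, disjoint_right.2 fun p hp =>
    hs (mem_thickening_iff.2 ((Wander_zero h6).near hp))⟩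

theorem Good.not_P (h : σ.Good x) : x ∉ σ.P := by
  exact fun hx => h.not_out (σ.P_out x hx)

theorem enc_iter {N : ℕ} {δ r t a b : ℝ} {κ : ℝ → ℂ}
    (hP : ∀ r κ t a b, σ.Hop r δ κ t a b → ∀ z ∈ σ.P, Out (σ.cl κ t r a b) z)
    (h : ∀ k ≤ N, σ.Hop r δ (σ.f^[k] ∘ κ) t (a + k * σ.α) (b + k * σ.α))
    (he : ¬ Out (σ.cl κ t r a b) x) {k : ℕ} (hk : k ≤ N) :
    ¬ Out (σ.cl (σ.f^[k] ∘ κ) t r (a + k * σ.α) (b + k * σ.α)) (σ.f^[k] x) := by
  induction k with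
  | zero => simpa using he
  | succ k ih =>
    have hk' : k ≤ N := Nat.le_of_succ_le hk
    have := (h k hk').enc_map (hP _ _ _ _ _ (h k hk')) (ih hk')
    rwa [Function.iterate_succ_apply', Function.iterate_succ', Function.comp_assoc, Nat.cast_succ,
      add_one_mul, ← add_assoc, ← add_assoc]

theorem Good.map (h : σ.Good x) : σ.Good (σ.f x) := by
  obtain ⟨δP, hδP, hP⟩ := σ.exists_encP
  refine ⟨fun hK => ?_, fun N δ ε r₀ hδ hε hr => ?_⟩
  · obtain ⟨_, ⟨y, hy, rfl⟩, hS⟩ := mem_closure_iff_nhds.1 hK _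
      (σ.f_open x h.not_P _ ((Wander_open x).mem_nhds (Wander_self h)))
    obtain ⟨r₀, hr₀, hin⟩ := σ.eventually_in hS
    obtain ⟨δE, hδE, hE⟩ := σ.exists_escAt one_half_pos
    obtain ⟨r, hr, κ, t, a, b, h1, h2, h3⟩ :=
      (h.comp hy).2 1 (min δE δP) (1 / 2) r₀ (lt_min hδE hδP) one_half_pos hr₀
    obtain ⟨h4, h5⟩ := hin r ⟨hr, (h3 1 le_rfl).rad.2⟩
    refine enc_iter (fun r κ t a b hh => hP r κ t a b (hh.mono (min_le_right _ _))) h3 h2 le_rfl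
      ((h3 1 le_rfl).out_D (hE.mono le_rfl (min_le_left _ _)) ?_ h4 fun ⟨s, _, hs⟩ => h5 s hs.symm)
    rwa [add_sub_add_right_eq_sub]
  · obtain ⟨r, hr', κ, t, a, b, h1, h2, h3⟩ :=
      h.2 (N + 1) (min δ δP) ε r₀ (lt_min hδ hδP) hε hr
    refine ⟨r, hr', σ.f ∘ κ, t, a + σ.α, b + σ.α, by rwa [add_sub_add_right_eq_sub],
      (Wander_zero h3).enc_map (hP _ _ _ _ _ ((Wander_zero h3).mono (min_le_right _ _))) h2,
      fun k hk => ?_⟩
    have := (h3 (k + 1) (Nat.succ_le_succ hk)).mono (min_le_left _ _)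
    rwa [Function.iterate_succ, Function.comp_assoc, Nat.cast_succ, add_one_mul,
      add_comm (k * σ.α), ← add_assoc, ← add_assoc] at this

theorem Good.maps (h : σ.Good x) : MapsTo σ.f (σ.U x) (σ.U (σ.f x)) := by
  refine mapsTo_iff_image_subset.2 (IsPreconnected.subset_connectedComponentIn
    (isPreconnected_connectedComponentIn.image _ (σ.f_cont.mono fun y hy => (h.comp hy).not_P))
    (mem_image_of_mem _ (Wander_self h)) ?_)
  rintro _ ⟨y, hy, rfl⟩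
  exact (h.comp hy).map.1

theorem Good.ne (h : σ.Good x) {n : ℕ} (hn : 1 ≤ n) : σ.f^[n] x ∉ σ.U x := by
  intro hx
  obtain ⟨C, δ₀, hδ₀, hC, hx0, hxn, hd⟩ := comp_link hx
  obtain ⟨ε, hε, hsep⟩ := rot_sep σ.irr n
  obtain ⟨δP, hδP, hP⟩ := σ.exists_encP
  obtain ⟨δE, hδE, hE⟩ := σ.exists_escAt one_half_pos
  obtain ⟨δ, hδ, d1, d2, d3⟩ : ∃ δ, 0 < δ ∧ δ ≤ δ₀ / 4 ∧ δ ≤ δE ∧ δ ≤ δP :=
    ⟨min (δ₀ / 4) (min δE δP), lt_min (by positivity) (lt_min hδE hδP), min_le_left _ _,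
      (min_le_right _ _).trans (min_le_left _ _), (min_le_right _ _).trans (min_le_right _ _)⟩
  obtain ⟨r, -, κ, t, a, b, h1, h2, h3⟩ := h.2 n δ (min (1 / 2) (ε / 2)) 0 hδ
    (lt_min one_half_pos (half_pos hε)) zero_lt_one
  obtain ⟨h4, h5⟩ := lt_min_iff.1 h1
  have h6 := (h3 n le_rfl).enc_of_conn hC
    (fun w hw z hz => le_trans (by linarith only [hδ, d1]) (hd w hw z hz)) hxn hx0
    (enc_iter (fun r κ t a b hh => hP r κ t a b (hh.mono d3)) h3 h2 le_rfl)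
  obtain ⟨m, hm⟩ := (Wander_zero h3).pos' (h3 n le_rfl) (hE.mono le_rfl d2) h4
    (by rwa [add_sub_add_right_eq_sub]) h2 h6 fun z hz => le_trans (by linarith only [d1]) (hd x hx0 z hz)
  rw [add_sub_add_right_eq_sub, add_sub_cancel_left] at hm
  have := hsep n hn le_rfl m
  linarith only [h5, hm, this]

theorem Good.inj (h : σ.Good x) (hV : Disjoint (σ.U (σ.f x)) σ.V) : InjOn σ.f (σ.U x) := by
  intro z hz w hw hzw
  have e : σ.U x = σ.U z := connectedComponentIn_eq hz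
  obtain ⟨γ, hγ⟩ := Wander_path (e ▸ hw : w ∈ σ.U z)
  have := lift_closed σ.V_fin σ.cov zero_le_one γ.continuous_extend.continuousOn
    (fun v hv => (out_comp σ.isCompact_K σ.isConnected_K h.map.not_out
      (disjoint_right.1 hV hv)).anti (by
        rintro _ ⟨_, ⟨s, hs, rfl⟩, rfl⟩
        rw [γ.extend_apply hs]
        exact h.maps (e ▸ hγ _))) (by rwa [γ.extend_zero, γ.extend_one])
  rwa [γ.extend_zero, γ.extend_one] at this

theorem Wander_iter (h : σ.Good x) (n : ℕ) : σ.Good (σ.f^[n] x) := by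
  induction n with
  | zero => exact h
  | succ n ih =>
    rw [Function.iterate_succ_apply']
    exact ih.map

theorem Wander_disj (h : σ.Good x) {m n : ℕ} (hmn : m ≠ n) :
    Disjoint (σ.U (σ.f^[m] x)) (σ.U (σ.f^[n] x)) := by
  wlog hlt : m < n generalizing m n
  · exact (this hmn.symm (by omega)).symm
  refine disjoint_left.2 fun p h1 h2 => (Wander_iter h m).ne (n := n - m) (by omega) ?_
  have e : σ.U (σ.f^[m] x) = σ.U (σ.f^[n] x) :=
    (connectedComponentIn_eq h1).trans (connectedComponentIn_eq h2).symm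
  rw [← Function.iterate_add_apply, Nat.sub_add_cancel hlt.le, e]
  exact Wander_self (Wander_iter h n)

variable (σ)

theorem exists_wander (h : ¬ InjOn σ.f σ.K) : ∃ W : Set ℂ, IsOpen W ∧ W.Nonempty ∧
    Bornology.IsBounded W ∧ frontier W ⊆ σ.K ∧ (∀ n, InjOn σ.f^[n] W) ∧
    (∀ m n, m ≠ n → Disjoint (σ.f^[m] '' W) (σ.f^[n] '' W)) ∧
    ∀ n, ∀ z ∈ W, σ.f^[n] z ∉ σ.K := by
  obtain ⟨x₀, hx₀⟩ := σ.exists_good h
  have hfin : (⋃ v ∈ σ.V, {k : ℕ | v ∈ σ.U (σ.f^[k] x₀)}).Finite :=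
    σ.V_fin.biUnion fun v _ => Set.Subsingleton.finite fun m hm n hn => by
      by_contra hmn
      exact disjoint_left.1 (Wander_disj hx₀ hmn) hm hn
  obtain ⟨N, hN⟩ := hfin.bddAbove
  have hx : σ.Good (σ.f^[N] x₀) := Wander_iter hx₀ N
  have hV : ∀ n, Disjoint (σ.U (σ.f (σ.f^[n] (σ.f^[N] x₀)))) σ.V := fun n => by
    refine disjoint_right.2 fun v hv hv' => ?_
    rw [← Function.iterate_add_apply, ← Function.iterate_succ_apply' σ.f] at hv'
    have : (n + N).succ ≤ N := hN (mem_biUnion hv hv')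
    omega
  generalize σ.f^[N] x₀ = x at hx hV
  have hm : ∀ n, MapsTo σ.f^[n] (σ.U x) (σ.U (σ.f^[n] x)) := fun n => by
    induction n with
    | zero => exact mapsTo_id _
    | succ n ih =>
      rw [Function.iterate_succ_apply', Function.iterate_succ']
      exact (Wander_iter hx n).maps.comp ih
  refine ⟨σ.U x, Wander_open x, ⟨x, Wander_self hx⟩, ?_, frontier_comp σ.isCompact_K.isClosed,
    fun n => ?_, fun m n hmn => (Wander_disj hx hmn).mono (hm m).image_subset (hm n).image_subset,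
    fun n z hz => Wander_sub (hm n hz)⟩
  · by_contra hb
    exact hx.not_out ⟨σ.U x, isPreconnected_connectedComponentIn, hb, Wander_self hx,
      disjoint_left.2 fun y hy => Wander_sub hy⟩
  · induction n with
    | zero => exact injOn_id _
    | succ n ih =>
      rw [Function.iterate_succ']
      exact ((Wander_iter hx n).inj (hV n)).comp ih (hm n)

end Pool.Agent.Work.MP_042f46_an.Sg
end

-- merged part: Pool.Agent.Work.MP_042f46_an.Rat
section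
/-!
# Rational functions: branch values, simple fractions, difference quotients

Plans.  `rf_deriv`: `HasDerivAt.div`.  `wr_ne`: if `P' Q = P Q'` then `Q ∣ Q'` and `P ∣ P'` (`IsCoprime.dvd_of_dvd_mul_left`), so both have degree zero (`Polynomial.natDegree_derivative_lt`, `natDegree_eq_zero_of_derivative_eq_zero`).
`exists_cov`: `V = {0, c} ∪ rf P Q '' roots of wr`, where `c = P.coeff d / Q.coeff d`, `d = max` of the degrees.  If `rf P Q z ∉ V` then `Q z ≠ 0`.  For `y ∉ V` the polynomial `P - C y * Q` has degree `d`.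
The restriction `Vᶜ.restrictPreimage (rf P Q)` is a closed map (a sequence `z n` with `rf (z n) → y ∉ V` is bounded, since `P z / z ^ d → P.coeff d`, and its limit points are not roots of `Q`, by coprimality); use `IsClosedMap.isCoveringMapOn_of_isLocalHomeomorphOn`
(or `isEvenlyCovered_of_openPartialHomeomorph`) for it, then `IsCoveringMapOn.of_isCoveringMap_restrictPreimage`.  `rf_open`: `AnalyticAt.eventually_constant_or_nhds_le_map_nhds`; a locally constant value `c` gives `P = C c * Q`.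
`part_frac`: `T = P - C b * Q` has degree `deg P > deg Q`, its roots are the solutions of `rf z = b` and are simple (`T' a = deriv rf a * Q a`); Lagrange interpolation of `Q` at the roots (`Lagrange.eq_interpolate`, `eval_interpolate_not_at_node`, `nodalWeight_eq_eval_nodal_derivative`).
`diff_quot`: `Polynomial.induction_on'` or `eval_eq_sum_range`, with `Commute.mul_geom_sum₂`/`mul_geom_sum₂`.  `deriv_quot`: `wr w * Q a ^ 2 - wr a * Q w ^ 2 = (wr w - wr a) * Q a ^ 2 - wr a * (Q w ^ 2 - Q a ^ 2)`; the set `{‖a‖ ≤ R, ‖P a‖ ≤ R ‖Q a‖}` is compact and `Q ≠ 0` on it.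
-/

open Set Metric Topology Filter Polynomial

namespace Pool.Agent.Work.MP_042f46_an

/-- the rational function -/
noncomputable def rf (P Q : ℂ[X]) (z : ℂ) : ℂ := P.eval z / Q.eval z

/-- the numerator of its derivative -/
noncomputable def wr (P Q : ℂ[X]) : ℂ[X] := derivative P * Q - P * derivative Q

variable {P Q : ℂ[X]} {z : ℂ}

theorem rf_analytic (h : Q.eval z ≠ 0) : AnalyticAt ℂ (rf P Q) z :=
  (P.differentiable.analyticAt z).div (Q.differentiable.analyticAt z) h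

theorem rf_deriv (h : Q.eval z ≠ 0) : deriv (rf P Q) z = (wr P Q).eval z / Q.eval z ^ 2 := by
  have := ((P.hasDerivAt z).div (Q.hasDerivAt z) h).deriv
  simp only [wr, eval_sub, eval_mul]
  exact this

theorem no_common (hc : IsCoprime P Q) (h : Q.eval z = 0) : P.eval z ≠ 0 := by
  obtain ⟨a, b, e⟩ := hc
  intro h'
  have := congrArg (eval z) e
  simp [h, h'] at this

theorem wr_ne (hc : IsCoprime P Q) (hd : 1 ≤ max P.natDegree Q.natDegree) : wr P Q ≠ 0 := by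
  intro h
  have e : derivative P * Q = P * derivative Q := sub_eq_zero.1 h
  have k : ∀ T : ℂ[X], T ∣ derivative T → T.natDegree = 0 := fun T hT => by
    by_contra h0
    have h1 : derivative T ≠ 0 := fun k => h0 (derivative_eq_zero.1 k)
    exact (natDegree_le_of_dvd hT h1).not_gt (natDegree_derivative_lt h0)
  have h1 := k P (hc.dvd_of_dvd_mul_right ⟨_, e⟩)
  have h2 := k Q (hc.symm.dvd_of_dvd_mul_left ⟨_, e.symm.trans (mul_comm _ _)⟩)
  rw [h1, h2] at hd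
  simp at hd

theorem Rat_closed {K : Set ℂ} (hK : IsCompact K) :
    IsClosed {u : ℂ × ℂ | ∃ y ∈ K, u.1 = y * u.2} := by
  have := isCompact_iff_compactSpace.1 hK
  have h := isClosedMap_fst_of_compactSpace {p : (ℂ × ℂ) × K | p.1.1 = p.2.1 * p.1.2}
    (isClosed_eq (by fun_prop) (by fun_prop))
  have e : {u : ℂ × ℂ | ∃ y ∈ K, u.1 = y * u.2} =
      Prod.fst '' {p : (ℂ × ℂ) × K | p.1.1 = p.2.1 * p.1.2} :=
    Set.ext fun u => ⟨fun ⟨y, hy, e⟩ => ⟨(u, ⟨y, hy⟩), e, rfl⟩,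
      fun ⟨p, e, hp⟩ => ⟨p.2.1, p.2.2, hp ▸ e⟩⟩
  rwa [e]

theorem Rat_lim (T : ℂ[X]) {d : ℕ} (hd : T.natDegree ≤ d) :
    Tendsto (fun z => T.eval z / z ^ d) (Bornology.cobounded ℂ) (𝓝 (T.coeff d)) := by
  have h := ((reflect d T).continuous.tendsto 0).comp (tendsto_inv₀_cobounded (α := ℂ))
  rw [← coeff_zero_eq_eval_zero, coeff_reflect, revAt_zero] at h
  refine h.congr' ?_
  filter_upwards [Bornology.isBounded_singleton (x := (0 : ℂ))] with z hz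
  have hz' : z ≠ 0 := hz
  let _ := invertibleOfNonzero hz'
  have e := eval₂_reflect_mul_pow (RingHom.id ℂ) z d T hd
  rw [invOf_eq_inv] at e
  exact eq_div_of_mul_eq (pow_ne_zero d hz') e

theorem Rat_top (hd : 1 ≤ max P.natDegree Q.natDegree) {y : ℂ}
    (hy : y ≠ P.coeff (max P.natDegree Q.natDegree) / Q.coeff (max P.natDegree Q.natDegree)) :
    P.coeff (max P.natDegree Q.natDegree) ≠ y * Q.coeff (max P.natDegree Q.natDegree) := by
  intro h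
  by_cases hq : Q.coeff (max P.natDegree Q.natDegree) = 0
  · rw [hq, mul_zero] at h
    rcases le_total P.natDegree Q.natDegree with k | k
    · rw [max_eq_right k] at hq hd
      rw [leadingCoeff_eq_zero.1 hq] at hd
      simp at hd
    · rw [max_eq_left k] at h hd
      rw [leadingCoeff_eq_zero.1 h] at hd
      simp at hd
  · exact hy (eq_div_of_mul_eq hq h.symm)

theorem Rat_cpt (hc : IsCoprime P Q) (hd : 1 ≤ max P.natDegree Q.natDegree) {K : Set ℂ}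
    (hK : IsCompact K) (h0 : (0 : ℂ) ∉ K)
    (h1 : P.coeff (max P.natDegree Q.natDegree) / Q.coeff (max P.natDegree Q.natDegree) ∉ K) :
    IsCompact (rf P Q ⁻¹' K) := by
  have e : rf P Q ⁻¹' K = {z | ∃ y ∈ K, P.eval z = y * Q.eval z} := by
    ext z
    constructor
    · intro hz
      have hq : Q.eval z ≠ 0 := fun k => h0 (by simpa [rf, k] using hz)
      exact ⟨_, hz, (div_mul_cancel₀ _ hq).symm⟩
    · rintro ⟨y, hy, e⟩
      have hq : Q.eval z ≠ 0 := fun k => no_common hc k (by rw [e, k, mul_zero])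
      change P.eval z / Q.eval z ∈ K
      rwa [e, mul_div_cancel_right₀ _ hq]
  rw [e]
  refine isCompact_of_isClosed_isBounded
    ((Rat_closed hK).preimage (P.continuous.prodMk Q.continuous)) ?_
  have hl := ((Rat_lim P (le_max_left _ Q.natDegree)).prodMk_nhds
    (Rat_lim Q (le_max_right P.natDegree _))).eventually
    ((Rat_closed hK).isOpen_compl.mem_nhds fun ⟨y, hy, k⟩ =>
      Rat_top hd (fun j => h1 (j ▸ hy)) k)
  refine mem_of_superset hl fun z hz ⟨y, hy, k⟩ => hz ⟨y, hy, ?_⟩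
  simp only [k, mul_div_assoc]

theorem exists_cov (hc : IsCoprime P Q) (hd : 1 ≤ max P.natDegree Q.natDegree) :
    ∃ V : Set ℂ, V.Finite ∧ IsCoveringMapOn (rf P Q) Vᶜ ∧
      ∀ z, rf P Q z ∉ V → Q.eval z ≠ 0 ∧ deriv (rf P Q) z ≠ 0 := by
  obtain ⟨c, hc'⟩ : ∃ c, c = P.coeff (max P.natDegree Q.natDegree) /
    Q.coeff (max P.natDegree Q.natDegree) := ⟨_, rfl⟩
  obtain ⟨V, hV⟩ : ∃ V : Set ℂ, V = {0, c} ∪ rf P Q '' {z | (wr P Q).IsRoot z} := ⟨_, rfl⟩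
  have hf : V.Finite :=
    hV ▸ (toFinite _).union ((finite_setOfPred_isRoot (wr_ne hc hd)).image _)
  have h0 : (0 : ℂ) ∈ V := by simp [hV]
  have h1 : c ∈ V := by simp [hV]
  have hq : ∀ z, rf P Q z ∉ V → Q.eval z ≠ 0 ∧ deriv (rf P Q) z ≠ 0 := fun z hz => by
    have h : Q.eval z ≠ 0 := fun k => hz (by simpa [rf, k] using h0)
    refine ⟨h, ?_⟩
    rw [rf_deriv h]
    exact div_ne_zero (fun k => hz (hV ▸ Or.inr ⟨z, k, rfl⟩)) (pow_ne_zero 2 h)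
  refine ⟨V, hf, ?_, hq⟩
  have ho : IsOpen Vᶜ := hf.isClosed.isOpen_compl
  have hl : IsLocalHomeomorphOn (rf P Q) (rf P Q ⁻¹' Vᶜ) := fun z hz =>
    ⟨_, ((rf_analytic (hq z hz).1).hasStrictDerivAt.hasStrictFDerivAt_equiv
      (hq z hz).2).mem_toOpenPartialHomeomorph_source, by simp⟩
  have ho' : IsOpen (rf P Q ⁻¹' Vᶜ) := isOpen_iff_mem_nhds.2 fun z hz =>
    (hl.continuousAt hz).preimage_mem_nhds (ho.mem_nhds hz)
  have hct : Continuous (Vᶜ.restrictPreimage (rf P Q)) :=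
    (continuousOn_iff_continuous_domRestrict.1 hl.continuousOn).subtype_mk _
  have hp : IsProperMap (Vᶜ.restrictPreimage (rf P Q)) := by
    refine isProperMap_iff_isCompact_preimage.2 ⟨hct, fun K hK => ?_⟩
    rw [Subtype.isCompact_iff]
    have e : Subtype.val '' (Vᶜ.restrictPreimage (rf P Q) ⁻¹' K) =
        rf P Q ⁻¹' (Subtype.val '' K) :=
      Set.ext fun z => ⟨fun ⟨x, hx, e⟩ => ⟨_, hx, e ▸ rfl⟩,
        fun ⟨y, hy, e⟩ => ⟨⟨z, show rf P Q z ∈ Vᶜ from e ▸ y.2⟩,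
          show _ ∈ K from (Subtype.ext e : y = Vᶜ.restrictPreimage (rf P Q) ⟨z, _⟩) ▸ hy, rfl⟩⟩
    rw [e]
    exact Rat_cpt hc hd (hK.image continuous_subtype_val) (fun ⟨y, _, k⟩ => y.2 (k ▸ h0))
      fun ⟨y, _, k⟩ => y.2 (k ▸ hc' ▸ h1)
  have hl' : IsLocalHomeomorph (Vᶜ.restrictPreimage (rf P Q)) :=
    IsLocalHomeomorph.of_comp (g := Subtype.val)
      (isLocalHomeomorph_iff_isLocalHomeomorphOn_univ.2 (hl.comp
        ho'.isOpenEmbedding_subtypeVal.isLocalHomeomorph.isLocalHomeomorphOn fun x _ => x.2))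
      ho.isOpenEmbedding_subtypeVal.isLocalHomeomorph hct
  refine IsCoveringMapOn.of_isCoveringMap_restrictPreimage _ ho ho'
    (isCoveringMap_iff_isCoveringMapOn_univ.2 (hp.isClosedMap.isCoveringMapOn_of_isLocalHomeomorphOn
      (fun y _ => ?_) hl'.isLocalHomeomorphOn))
  have hT : P - C y.1 * Q ≠ 0 := fun k =>
    Rat_top hd (y := y.1) (fun j => y.2 (j ▸ hc' ▸ h1)) (by
      rw [sub_eq_zero.1 k, coeff_C_mul, ← sub_eq_zero.1 k])
  refine ((finite_setOfPred_isRoot hT).preimage Subtype.val_injective.injOn).subset fun x hx => ?_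
  have e : P.eval x.1 / Q.eval x.1 = y.1 := congrArg Subtype.val hx
  change (P - C y.1 * Q).eval x.1 = 0
  rw [eval_sub, eval_mul, eval_C, ← e, div_mul_cancel₀ _ (hq _ x.2).1, sub_self]

theorem rf_open (hc : IsCoprime P Q) (hd : 1 ≤ max P.natDegree Q.natDegree) (h : Q.eval z ≠ 0)
    {N : Set ℂ} (hN : N ∈ 𝓝 z) : rf P Q '' N ∈ 𝓝 (rf P Q z) := by
  rcases (rf_analytic (P := P) h).eventually_constant_or_nhds_le_map_nhds with k | k
  · have h1 : ∀ᶠ w in 𝓝 z, (P - C (rf P Q z) * Q).IsRoot w := by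
      filter_upwards [k, Q.continuous.continuousAt.eventually_ne h] with w h1 h2
      rw [IsRoot, eval_sub, eval_mul, eval_C, ← h1, rf, div_mul_cancel₀ _ h2, sub_self]
    have h2 := sub_eq_zero.1 (eq_zero_of_infinite_isRoot _ (infinite_of_mem_nhds z h1))
    refine absurd ?_ (wr_ne hc hd)
    generalize rf P Q z = c at h2
    rw [wr, h2, derivative_C_mul]
    ring
  · exact k (image_mem_map hN)

theorem part_frac (hc : IsCoprime P Q) (hd : Q.natDegree < P.natDegree) {b : ℂ}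
    (hb : ∀ a, rf P Q a = b → Q.eval a ≠ 0 ∧ deriv (rf P Q) a ≠ 0) :
    ∃ A : Finset ℂ, (∀ a, a ∈ A ↔ rf P Q a = b) ∧ ∀ w, Q.eval w ≠ 0 → rf P Q w ≠ b →
      (rf P Q w - b)⁻¹ = ∑ a ∈ A, (deriv (rf P Q) a * (w - a))⁻¹ := by
  classical
  obtain ⟨T, hT⟩ : ∃ T, T = P - C b * Q := ⟨_, rfl⟩
  have hdeg : T.natDegree = P.natDegree :=
    hT ▸ natDegree_sub_eq_left_of_natDegree_lt ((natDegree_C_mul_le _ _).trans_lt hd)
  have h0 : T ≠ 0 := fun k => by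
    rw [k, natDegree_zero] at hdeg
    omega
  have ev : ∀ a, T.eval a = P.eval a - b * Q.eval a := fun a => by simp [hT]
  have hr : ∀ a, T.eval a = 0 ↔ rf P Q a = b := fun a => by
    rw [ev, sub_eq_zero]
    constructor
    · intro e
      have hq : Q.eval a ≠ 0 := fun k => no_common hc k (by rw [e, k, mul_zero])
      rw [rf, e, mul_div_cancel_right₀ _ hq]
    · intro e
      rw [← e, rf, div_mul_cancel₀ _ (hb a e).1]
  have hder : ∀ a, rf P Q a = b → (derivative T).eval a = deriv (rf P Q) a * Q.eval a := by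
    intro a e
    have h1 := (hb a e).1
    have h2 := (hr a).2 e
    rw [ev, sub_eq_zero] at h2
    rw [rf_deriv h1, hT, wr]
    simp only [derivative_sub, derivative_C_mul, eval_sub, eval_mul, eval_C, h2]
    field_simp
  have hn : T.roots.Nodup := Multiset.nodup_iff_count_le_one.2 fun a => by
    rw [count_roots]
    refine not_lt.1 fun k => ?_
    obtain ⟨k1, k2⟩ := (one_lt_rootMultiplicity_iff_isRoot h0).1 k
    have e := (hr a).1 k1
    exact mul_ne_zero (hb a e).2 (hb a e).1 ((hder a e).symm.trans k2)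
  obtain ⟨A, hA⟩ : ∃ A : Finset ℂ, A.1 = T.roots := ⟨⟨_, hn⟩, rfl⟩
  have hm : ∀ a, a ∈ A ↔ rf P Q a = b := fun a => by
    rw [← hr, ← Finset.mem_val, hA, mem_roots h0, IsRoot]
  have hcard : A.card = P.natDegree := by
    rw [← hdeg, ← IsAlgClosed.card_roots_eq_natDegree, ← hA, Finset.card_val]
  have hnod : C T.leadingCoeff * Lagrange.nodal A id = T := by
    have := C_leadingCoeff_mul_prod_multiset_X_sub_C
      (IsAlgClosed.card_roots_eq_natDegree (p := T))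
    rwa [← hA] at this
  have hlc : T.leadingCoeff ≠ 0 := leadingCoeff_ne_zero.2 h0
  refine ⟨A, hm, fun w hw hw' => ?_⟩
  have hi := Lagrange.eq_interpolate (s := A) (v := id) (f := Q) (injOn_id _)
    (degree_le_natDegree.trans_lt (by exact_mod_cast hcard ▸ hd))
  have hne : ∀ a ∈ A, w ≠ id a := fun a ha e => hw' (e ▸ (hm a).1 ha)
  have e1 := congrArg (eval w) hi
  rw [Lagrange.eval_interpolate_not_at_node _ hne] at e1
  have e2 : T.eval w = T.leadingCoeff * (Lagrange.nodal A id).eval w := by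
    rw [← eval_C_mul, hnod]
  have e3 : rf P Q w - b = T.eval w / Q.eval w := by
    rw [ev, rf]
    field_simp
  have e4 := Lagrange.eval_nodal_not_at_node hne
  rw [e3, inv_div, e2, e1, mul_comm T.leadingCoeff, mul_div_mul_left _ _ e4, Finset.sum_div]
  refine Finset.sum_congr rfl fun a ha => ?_
  have e5 := hder a ((hm a).1 ha)
  rw [← hnod, derivative_C_mul, eval_C_mul] at e5
  obtain ⟨k1, k2⟩ := hb a ((hm a).1 ha)
  have k3 : w - a ≠ 0 := sub_ne_zero.2 (hne a ha)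
  rw [Lagrange.nodalWeight_eq_eval_derivative_nodal ha, id, eq_div_of_mul_eq hlc
    ((mul_comm _ _).trans e5)]
  field_simp

theorem diff_quot (T : ℂ[X]) : ∃ (k : ℕ) (c : ℕ → ℂ → ℂ), (∀ l, Continuous (c l)) ∧
    (∀ l, k ≤ l → c l = 0) ∧
    ∀ a w, T.eval w - T.eval a = (w - a) * ∑ l ∈ Finset.range k, c l a * w ^ l := by
  refine ⟨T.natDegree + 1,
    fun l a => ∑ i ∈ Finset.Icc (l + 1) T.natDegree, a ^ (i - (l + 1)) * T.coeff i,
    fun l => by fun_prop, fun l hl => funext fun a => ?_, fun a w => ?_⟩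
  · exact Finset.sum_eq_zero fun i hi => absurd (Finset.mem_Icc.1 hi) (by omega)
  · have h := congrArg (eval w) (X_sub_C_mul_divByMonic_eq_sub_modByMonic T a)
    rw [modByMonic_X_sub_C_eq_C_eval, eval_mul, eval_sub, eval_sub, eval_X, eval_C, eval_C,
      eval_eq_sum_range' (p := T /ₘ (X - C a)) (n := T.natDegree + 1) (by
        rw [natDegree_divByMonic _ (monic_X_sub_C a)]
        omega)] at h
    simp only [coeff_divByMonic_X_sub_C] at h
    exact h.symm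

theorem deriv_quot (hc : IsCoprime P Q) (R : ℝ) : ∃ (k : ℕ) (c β : Fin k → ℂ → ℂ) (M : ℝ),
    (∀ l a, ‖a‖ ≤ R → Q.eval a ≠ 0 → ‖rf P Q a‖ ≤ R → ‖c l a‖ ≤ M) ∧
    ∀ a w, Q.eval a ≠ 0 → Q.eval w ≠ 0 →
      deriv (rf P Q) w - deriv (rf P Q) a = (w - a) * ∑ l, c l a * β l w := by
  obtain ⟨k1, c1, a1, b1, d1⟩ := diff_quot (wr P Q)
  obtain ⟨k2, c2, a2, b2, d2⟩ := diff_quot (Q ^ 2)
  have hS : IsCompact {a : ℂ | ‖a‖ ≤ R ∧ ‖P.eval a‖ ≤ R * ‖Q.eval a‖} :=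
    isCompact_of_isClosed_isBounded
      ((isClosed_le continuous_norm continuous_const).inter
        (isClosed_le P.continuous.norm (continuous_const.mul Q.continuous.norm)))
      ((isBounded_closedBall (x := (0 : ℂ)) (r := R)).subset fun a ha =>
        mem_closedBall_zero_iff.2 ha.1)
  obtain ⟨M, hM⟩ := hS.exists_bound_of_continuousOn
    (f := fun a (l : Fin (k1 + k2)) => c1 l a - (wr P Q).eval a * c2 l a / Q.eval a ^ 2)
    (continuousOn_pi.2 fun l => (a1 l).continuousOn.sub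
      (((wr P Q).continuous.mul (a2 l)).continuousOn.div (Q.continuous.pow 2).continuousOn
        fun a ha => pow_ne_zero 2 fun k => no_common hc k (by simpa [k] using ha.2)))
  refine ⟨k1 + k2, fun l a => c1 l a - (wr P Q).eval a * c2 l a / Q.eval a ^ 2,
    fun l w => w ^ l.1 / Q.eval w ^ 2, M, fun l a h1 h2 h3 => ?_, fun a w ha hw => ?_⟩
  · refine (norm_le_pi_norm _ l).trans (hM a ⟨h1, ?_⟩)
    rwa [rf, norm_div, div_le_iff₀ (norm_pos_iff.2 h2)] at h3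
  · have e1 := d1 a w
    have e2 := d2 a w
    rw [Finset.sum_subset (Finset.range_subset_range.2 (Nat.le_add_right k1 k2))
      fun l _ hl => by rw [b1 l (by simpa using hl), Pi.zero_apply, zero_mul],
      ← Fin.sum_univ_eq_sum_range fun l => c1 l a * w ^ l] at e1
    rw [Finset.sum_subset (Finset.range_subset_range.2 (Nat.le_add_left k2 k1))
      fun l _ hl => by rw [b2 l (by simpa using hl), Pi.zero_apply, zero_mul],
      ← Fin.sum_univ_eq_sum_range fun l => c2 l a * w ^ l, eval_pow, eval_pow] at e2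
    have e3 : ∑ l : Fin (k1 + k2), (c1 l a - (wr P Q).eval a * c2 l a / Q.eval a ^ 2) *
        (w ^ l.1 / Q.eval w ^ 2) = ((∑ l : Fin (k1 + k2), c1 l a * w ^ l.1) -
          (wr P Q).eval a / Q.eval a ^ 2 * ∑ l : Fin (k1 + k2), c2 l a * w ^ l.1) /
            Q.eval w ^ 2 := by
      rw [Finset.mul_sum, ← Finset.sum_sub_distrib, Finset.sum_div]
      exact Finset.sum_congr rfl fun l _ => by ring
    rw [rf_deriv ha, rf_deriv hw, e3, ← mul_div_assoc, mul_sub, mul_left_comm, ← e1, ← e2]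
    field_simp
    ring

end Pool.Agent.Work.MP_042f46_an
end

-- merged part: Pool.Agent.Work.MP_042f46_an.NW
section
/-!
# No wandering domains with boundary in the closure of a rotation domain

Plans.  `fib_sum`: `part_frac` for `b = h j u` (`notV`); the map `i ↦ h i u` is a bijection from the fibre of `nx` onto `A` (`inj`, `semi`, `surj`); the chain rule gives `deriv (h j) u = deriv F (h i u) * deriv (h i) u`.
`fun_eq`: take `c β` from `deriv_quot`, `μ l u = ∑' i, deriv (h i) u ^ 2 * c l (h i u)` (summable by `summable_sq`).  The terms `deriv F (h i u) * t i`, `t i = h' ^ 2 / (w - h i u)`, equal `deriv F w * t i - ∑ l, h' ^ 2 * c l (h i u) * β l w`, so they are summable; sum them along the fibres of `nx`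
(`HasSum.tsum_fiberwise`, or `HasSum.sigma` with `Equiv.sigmaFiberEquiv`) and use `fib_sum`.
`no_wander`: `exists_cov`, `exists_fam`.  No `h i u` is in `Ω` (else `F^[n] u ∈ Ω`), so `‖h i u‖ ≤ R`; the open sets `h i '' B` (or: the points `h i u`, by the open mapping theorem or the argument below) miss `closure Ω`.  Take `k + 2` distinct points `x j ∈ ball x (ρ / 2)` and `c ≠ 0` with `∑ j, c j * μ l (x j) = 0` for all `l` and `v w₀ = 0`, where `v w = ∑ j, c j * fld Φ (x j) w`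
(`LinearMap.exists_ne_zero_of_finrank_lt`-type lemma, `Module.finrank_fin_fun`).  Then `v (F w) = deriv F w * v w` on `Ω`, so `v = 0` on the orbit of `w₀`, on `Ω` (`rest_diff` with `J = univ`, `AnalyticOnNhd.eqOn_zero_of_preconnected_of_frequently_eq_zero`) and on `closure Ω` (`rest_cont`).
With `J = {i | i ≠ i₀}` write `fld Φ u w = (w - u)⁻¹ + rest u w`; `Ψ w = ∑ j, c j * (∏ l ≠ j, (w - x l) + (∏ l, (w - x l)) * rest (x j) w)` is holomorphic on `W`, continuous on `closure W`, zero on the frontier, hence zero (`Complex.eqOn_of_eqOn_frontier`); evaluate at `x j`.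
A point `h i u` is not in `closure Ω`, and for `i ≠ i₀` not in `closure W`: `h i` is injective and holomorphic on the ball, hence open (`AnalyticOnNhd.is_constant_or_isOpen`).
-/

open Set Metric Topology Filter Polynomial

namespace Pool.Agent.Work.MP_042f46_an

variable {P Q : ℂ[X]} {V : Set ℂ} {x : ℂ} {ρ R : ℝ} {ι : Type}

/-- the vector field with simple poles along the grand orbit of `u` -/
noncomputable def fld {F : ℂ → ℂ} {B : Set ℂ} (Φ : Fam F V B ι) (u w : ℂ) : ℂ :=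
  ∑' i, deriv (Φ.h i) u ^ 2 / (w - Φ.h i u)

theorem NW_summ {F : ℂ → ℂ} (Φ : Fam F V (ball x ρ) ι)
    (hR : ∀ i, ∀ u ∈ ball x ρ, ‖Φ.h i u‖ ≤ R) {u w : ℂ} (hu : u ∈ ball x (ρ / 2))
    (hw : ∀ i, ∀ u' ∈ ball x ρ, Φ.h i u' ≠ w) :
    Summable fun i => deriv (Φ.h i) u ^ 2 / (w - Φ.h i u) :=
  (Equiv.Set.univ ι).summable_iff.1
    (rest_summable Φ.diff Φ.inj hR hu univ fun i _ => hw i)

theorem NW_fld {F : ℂ → ℂ} {B : Set ℂ} (Φ : Fam F V B ι) (u : ℂ) :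
    fld Φ u = fun w => ∑' i : (univ : Set ι), deriv (Φ.h i) u ^ 2 / (w - Φ.h i u) :=
  funext fun w => (tsum_univ fun i => deriv (Φ.h i) u ^ 2 / (w - Φ.h i u)).symm

theorem NW_half {u : ℂ} (hu : u ∈ ball x (ρ / 2)) : u ∈ ball x ρ := by
  have h1 : dist u x < ρ / 2 := hu
  have h2 := dist_nonneg (x := u) (y := x)
  show dist u x < ρ
  linarith only [h1, h2]

theorem NW_split {F : ℂ → ℂ} (Φ : Fam F V (ball x ρ) ι)
    (hR : ∀ i, ∀ u ∈ ball x ρ, ‖Φ.h i u‖ ≤ R) {u w : ℂ} (hu : u ∈ ball x (ρ / 2))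
    (hw : ∀ i, ∀ u' ∈ ball x ρ, Φ.h i u' ≠ w) :
    fld Φ u w = (w - u)⁻¹ +
      ∑' i : ↥({Φ.i₀} : Set ι)ᶜ, deriv (Φ.h i) u ^ 2 / (w - Φ.h i u) := by
  have hu' := NW_half hu
  have e : Φ.h Φ.i₀ =ᶠ[𝓝 u] id := by
    filter_upwards [isOpen_ball.mem_nhds hu'] with z hz using Φ.base z hz
  rw [fld, ← (NW_summ Φ hR hu hw).tsum_subtype_add_tsum_subtype_compl {Φ.i₀},
    tsum_singleton Φ.i₀ fun i => deriv (Φ.h i) u ^ 2 / (w - Φ.h i u), e.deriv_eq, Φ.base u hu']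
  simp

theorem NW_open {F : ℂ → ℂ} (Φ : Fam F V (ball x ρ) ι) (hρ : 0 < ρ) (i : ι) :
    IsOpen (Φ.h i '' ball x ρ) := by
  rcases ((Φ.diff i).analyticOnNhd isOpen_ball).is_constant_or_isOpen
    (convex_ball x ρ).isPreconnected with ⟨w, hw⟩ | h
  · have h1 : x ∈ ball x ρ := mem_ball_self hρ
    have h2 : x + (ρ / 2 : ℝ) ∈ ball x ρ := by
      rw [mem_ball, dist_eq_norm, add_sub_cancel_left, Complex.norm_real, Real.norm_eq_abs,
        abs_of_pos (by linarith only [hρ])]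
      linarith only [hρ]
    have := (Φ.inj i i _ h2 _ h1 ((hw _ h2).trans (hw _ h1).symm)).2
    have h3 : ((ρ / 2 : ℝ) : ℂ) = 0 := by linear_combination this
    have h4 : ρ / 2 = 0 := by exact_mod_cast h3
    linarith only [hρ, h4]
  · exact h _ subset_rfl isOpen_ball

theorem NW_miss {F : ℂ → ℂ} (Φ : Fam F V (ball x ρ) ι) (hρ : 0 < ρ) {i : ι} {S : Set ℂ}
    (h : ∀ u ∈ ball x ρ, Φ.h i u ∉ S) {w : ℂ} (hw : w ∈ closure S) :
    ∀ u ∈ ball x ρ, Φ.h i u ≠ w := by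
  intro u hu e
  have hd : Disjoint (Φ.h i '' ball x ρ) S := by
    refine disjoint_left.2 ?_
    rintro _ ⟨u', hu', rfl⟩
    exact h u' hu'
  exact disjoint_left.1 (hd.closure_right (NW_open Φ hρ i)) ⟨u, hu, e⟩ hw

theorem NW_dep {k : ℕ} (μ : Fin k → Fin (k + 2) → ℂ) (a : Fin (k + 2) → ℂ) :
    ∃ c : Fin (k + 2) → ℂ, (∃ j, c j ≠ 0) ∧ (∀ l, ∑ j, c j * μ l j = 0) ∧ ∑ j, c j * a j = 0 := by
  have hn : ¬ LinearIndependent ℂ
      (fun (j : Fin (k + 2)) (o : Option (Fin k)) => o.elim (a j) fun l => μ l j) := by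
    intro h
    have := h.fintype_card_le_finrank
    simp at this
  obtain ⟨c, hc, hj⟩ := Fintype.not_linearIndependent_iff.1 hn
  refine ⟨c, hj, fun l => ?_, ?_⟩
  · simpa using congrFun hc (some l)
  · simpa using congrFun hc none

/-- A function with simple poles in `W` that vanishes on the frontier has no poles. -/
theorem NW_res {n : ℕ} {W : Set ℂ} (hb : Bornology.IsBounded W) {y : Fin n → ℂ}
    (hy : Function.Injective y) (hyW : ∀ j, y j ∈ W) {r : Fin n → ℂ → ℂ}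
    (hr : ∀ j, DiffContOnCl ℂ (r j) W) {c : Fin n → ℂ}
    (h : ∀ w ∈ frontier W, (∀ j, w ≠ y j) ∧ ∑ j, c j * ((w - y j)⁻¹ + r j w) = 0) (j : Fin n) :
    c j = 0 := by
  let Ψ : ℂ → ℂ := fun w =>
    ∑ j, c j * (∏ l ∈ Finset.univ.erase j, (w - y l) + (∏ l, (w - y l)) * r j w)
  have hp : ∀ s : Finset (Fin n), Differentiable ℂ fun w : ℂ => ∏ l ∈ s, (w - y l) := by
    intro s
    fun_prop
  have hΨ : DiffContOnCl ℂ Ψ W := by
    constructor
    · refine DifferentiableOn.fun_sum fun j _ => DifferentiableOn.const_mul ?_ _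
      exact (hp _).differentiableOn.fun_add ((hp _).differentiableOn.fun_mul (hr j).1)
    · refine continuousOn_finsetSum _ fun j _ => continuousOn_const.mul ?_
      exact (hp _).continuous.continuousOn.add ((hp _).continuous.continuousOn.mul (hr j).2)
  have h0 : EqOn Ψ (fun _ => 0) W := by
    refine Complex.eqOn_of_eqOn_frontier hb hΨ diffContOnCl_const fun w hw => ?_
    obtain ⟨h1, h2⟩ := h w hw
    show Ψ w = 0
    rw [← mul_zero (∏ l, (w - y l)), ← h2, Finset.mul_sum]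
    refine Finset.sum_congr rfl fun j _ => ?_
    have h3 := sub_ne_zero.2 (h1 j)
    rw [← Finset.mul_prod_erase _ (fun l => w - y l) (Finset.mem_univ j)]
    field_simp
  have h1 : Ψ (y j) = c j * ∏ l ∈ Finset.univ.erase j, (y j - y l) := by
    have z : ∏ l, (y j - y l) = 0 := Finset.prod_eq_zero (Finset.mem_univ j) (sub_self _)
    simp only [Ψ, z, zero_mul, add_zero]
    refine Finset.sum_eq_single j (fun i _ hi => ?_) (fun h => absurd (Finset.mem_univ j) h)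
    rw [Finset.prod_eq_zero (i := j) (Finset.mem_erase.2 ⟨hi.symm, Finset.mem_univ j⟩)
      (sub_self _), mul_zero]
  have h2 : Ψ (y j) = 0 := h0 (hyW j)
  rw [h1] at h2
  refine (mul_eq_zero.1 h2).resolve_right (Finset.prod_ne_zero_iff.2 fun l hl => ?_)
  exact sub_ne_zero.2 fun e => (Finset.mem_erase.1 hl).1 (hy e).symm

section

variable (hc : IsCoprime P Q) (hd : Q.natDegree < P.natDegree)
  (hV : ∀ z, rf P Q z ∉ V → Q.eval z ≠ 0 ∧ deriv (rf P Q) z ≠ 0)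
  (Φ : Fam (rf P Q) V (ball x ρ) ι)
include hc hd hV

theorem fib_sum {u w : ℂ} (hu : u ∈ ball x ρ) (hw : Q.eval w ≠ 0) (j : ι)
    (hj : rf P Q w ≠ Φ.h j u) :
    HasSum (fun i : Φ.nx ⁻¹' {j} =>
      deriv (rf P Q) (Φ.h i u) * (deriv (Φ.h i) u ^ 2 / (w - Φ.h i u)))
      (deriv (Φ.h j) u ^ 2 / (rf P Q w - Φ.h j u)) := by
  have hb : ∀ a, rf P Q a = Φ.h j u → Q.eval a ≠ 0 ∧ deriv (rf P Q) a ≠ 0 := fun a ha =>
    hV a (ha ▸ Φ.notV j u hu)
  obtain ⟨A, hA, hs⟩ := part_frac hc hd hb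
  have hm : ∀ i : Φ.nx ⁻¹' {j}, rf P Q (Φ.h i u) = Φ.h j u := fun i => by
    rw [Φ.semi i u hu, show Φ.nx i = j from i.2]
  let e : Φ.nx ⁻¹' {j} ≃ A := Equiv.ofBijective (fun i => ⟨Φ.h i u, (hA _).2 (hm i)⟩)
    ⟨fun i i' h => Subtype.ext (Φ.inj _ _ u hu u hu (congrArg Subtype.val h)).1, fun a => by
      obtain ⟨i, hi, e⟩ := Φ.surj j u hu a.1 ((hA _).1 a.2)
      exact ⟨⟨i, hi⟩, Subtype.ext e⟩⟩
  have h1 := e.hasSum_iff.2
    (A.hasSum fun a => deriv (Φ.h j) u ^ 2 * (deriv (rf P Q) a * (w - a))⁻¹)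
  rw [← Finset.mul_sum, ← hs w hw hj, ← div_eq_mul_inv] at h1
  convert h1 using 2 with i
  show _ = deriv (Φ.h j) u ^ 2 * (deriv (rf P Q) (Φ.h i u) * (w - Φ.h i u))⁻¹
  obtain ⟨q1, q2⟩ := hb _ (hm i)
  have ev : Φ.h j =ᶠ[𝓝 u] rf P Q ∘ Φ.h i := by
    filter_upwards [isOpen_ball.mem_nhds hu] with z hz
    rw [Function.comp_apply, Φ.semi i z hz, show Φ.nx i = j from i.2]
  rw [ev.deriv_eq, deriv_comp u (rf_analytic q1).differentiableAt
    ((Φ.diff i).differentiableAt (isOpen_ball.mem_nhds hu)), mul_inv, div_eq_mul_inv]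
  field_simp

theorem fun_eq (hR : ∀ i, ∀ u ∈ ball x ρ, ‖Φ.h i u‖ ≤ R) :
    ∃ (k : ℕ) (μ β : Fin k → ℂ → ℂ), ∀ u ∈ ball x (ρ / 2), ∀ w, Q.eval w ≠ 0 →
      (∀ i, ∀ u' ∈ ball x ρ, Φ.h i u' ≠ w) →
      deriv (rf P Q) w * fld Φ u w - fld Φ u (rf P Q w) = ∑ l, μ l u * β l w := by
  obtain ⟨k, c, β, M, hM, hq⟩ := deriv_quot hc R
  refine ⟨k, fun l u => ∑' i, deriv (Φ.h i) u ^ 2 * c l (Φ.h i u), β, fun u hu w hw hw' => ?_⟩
  have hu' := NW_half hu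
  have hQ : ∀ i, Q.eval (Φ.h i u) ≠ 0 := fun i =>
    (hV _ (by rw [Φ.semi i u hu']; exact Φ.notV _ u hu')).1
  have hs : ∀ l, Summable fun i => deriv (Φ.h i) u ^ 2 * c l (Φ.h i u) := by
    intro l
    refine Summable.of_norm_bounded ((summable_sq Φ.diff Φ.inj hR hu).mul_right M) fun i => ?_
    rw [norm_mul, norm_pow]
    refine mul_le_mul_of_nonneg_left (hM l _ (hR i u hu') (hQ i) ?_) (by positivity)
    rw [Φ.semi i u hu']
    exact hR _ u hu'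
  have h1 := ((NW_summ Φ hR hu hw').hasSum.mul_left (deriv (rf P Q) w)).sub
    (hasSum_sum (s := Finset.univ) fun l _ => (hs l).hasSum.mul_right (β l w))
  have h2 : ∀ i, deriv (rf P Q) w * (deriv (Φ.h i) u ^ 2 / (w - Φ.h i u)) -
      ∑ l, deriv (Φ.h i) u ^ 2 * c l (Φ.h i u) * β l w =
      deriv (rf P Q) (Φ.h i u) * (deriv (Φ.h i) u ^ 2 / (w - Φ.h i u)) := by
    intro i
    have h3 := hq _ w (hQ i) hw
    have h4 : w - Φ.h i u ≠ 0 := sub_ne_zero.2 (hw' i u hu').symm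
    simp only [mul_assoc]
    rw [← Finset.mul_sum, sub_eq_iff_eq_add.1 h3]
    field_simp
    ring
  simp only [h2] at h1
  have h5 := h1.tsum_fiberwise Φ.nx
  have h6 : ∀ j, rf P Q w ≠ Φ.h j u := fun j e => by
    obtain ⟨i, -, hi⟩ := Φ.surj j u hu' w e
    exact hw' i u hu' hi
  simp only [fun j => (fib_sum hc hd hV Φ hu' hw j (h6 j)).tsum_eq] at h5
  have h7 : fld Φ u (rf P Q w) = _ := h5.tsum_eq
  rw [h7]
  simp only [fld]
  ring

end

theorem no_wander (hc : IsCoprime P Q) (hd : Q.natDegree < P.natDegree) {Ω W : Set ℂ}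
    (hΩ : IsOpen Ω) (hΩc : IsPreconnected Ω) (hm : MapsTo (rf P Q) Ω Ω)
    (hQ : ∀ w ∈ Ω, Q.eval w ≠ 0) (hR : ∀ w, R < ‖w‖ → w ∈ Ω) {w₀ : ℂ} (hw : w₀ ∈ Ω)
    (hrec : ∃ᶠ w in 𝓝[≠] w₀, ∃ n : ℕ, w = (rf P Q)^[n] w₀) (hW : IsOpen W) (hne : W.Nonempty)
    (hf : frontier W ⊆ closure Ω) (hi : ∀ n, InjOn (rf P Q)^[n] W)
    (hdj : ∀ m n, m ≠ n → Disjoint ((rf P Q)^[m] '' W) ((rf P Q)^[n] '' W))
    (ho : ∀ n, ∀ z ∈ W, (rf P Q)^[n] z ∉ Ω) : False := by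
  obtain ⟨V, hVf, cov, hV⟩ := exists_cov hc (le_max_of_le_left (by omega))
  obtain ⟨x, ρ, ι, Φ, hρ, hB, horb, hW0⟩ := exists_fam hVf cov
    (fun z hz => ⟨rf_analytic (hV z hz).1, (hV z hz).2⟩) hW hne hi hdj
  have hno : ∀ i, ∀ u ∈ ball x ρ, Φ.h i u ∉ Ω := by
    intro i u hu h
    obtain ⟨m, n, e⟩ := horb i u hu
    exact ho n u (hB hu) (e ▸ hm.iterate m h)
  have hR' : ∀ i, ∀ u ∈ ball x ρ, ‖Φ.h i u‖ ≤ R := fun i u hu =>
    not_lt.1 fun h => hno i u hu (hR _ h)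
  have hcl : ∀ w ∈ closure Ω, ∀ i, ∀ u ∈ ball x ρ, Φ.h i u ≠ w := fun w hw i =>
    NW_miss Φ hρ (hno i) hw
  have hcW : ∀ w ∈ closure W, ∀ i ∈ ({Φ.i₀} : Set ι)ᶜ, ∀ u ∈ ball x ρ, Φ.h i u ≠ w :=
    fun w hw i hi => NW_miss Φ hρ (fun u hu h => hi (hW0 i u hu h)) hw
  obtain ⟨k, μ, β, hfe⟩ := fun_eq hc hd hV Φ hR'
  have hinf : (ball x (ρ / 2)).Infinite := infinite_of_mem_nhds x (ball_mem_nhds x (by linarith only [hρ]))
  let y : Fin (k + 2) → ℂ := fun j => hinf.natEmbedding _ j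
  have hy : ∀ j, y j ∈ ball x (ρ / 2) := fun j => (hinf.natEmbedding _ j).2
  have hyi : Function.Injective y := fun j j' h =>
    Fin.ext ((hinf.natEmbedding _).injective (Subtype.ext h))
  obtain ⟨c, ⟨j₀, hj₀⟩, hc1, hc2⟩ := NW_dep (fun l j => μ l (y j)) fun j => fld Φ (y j) w₀
  let v : ℂ → ℂ := fun w => ∑ j, c j * fld Φ (y j) w
  have hv : ∀ w ∈ Ω, v (rf P Q w) = deriv (rf P Q) w * v w := by
    intro w hw
    have h1 : ∑ j, c j * (deriv (rf P Q) w * fld Φ (y j) w - fld Φ (y j) (rf P Q w)) = 0 := by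
      simp only [fun j => hfe (y j) (hy j) w (hQ w hw) (hcl w (subset_closure hw)),
        Finset.mul_sum]
      rw [Finset.sum_comm]
      refine Finset.sum_eq_zero fun l _ => ?_
      simp only [← mul_assoc]
      rw [← Finset.sum_mul, hc1 l, zero_mul]
    simp only [mul_sub, Finset.sum_sub_distrib] at h1
    simp only [v, Finset.mul_sum]
    rw [← sub_eq_zero.1 h1]
    exact Finset.sum_congr rfl fun j _ => by ring
  have horb0 : ∀ n, v ((rf P Q)^[n] w₀) = 0 := by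
    intro n
    induction n with
    | zero => exact hc2
    | succ n ih => rw [Function.iterate_succ_apply', hv _ (hm.iterate n hw), ih, mul_zero]
  have hvd : DifferentiableOn ℂ v Ω := by
    refine DifferentiableOn.fun_sum fun j _ => DifferentiableOn.const_mul ?_ _
    rw [NW_fld]
    exact rest_diff Φ.diff Φ.inj hR' (hy j) univ hΩ fun w hw i _ => hcl w (subset_closure hw) i
  have hvc : ContinuousOn v (closure Ω) := by
    refine continuousOn_finsetSum _ fun j _ => continuousOn_const.mul ?_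
    rw [NW_fld]
    exact (rest_cont Φ.diff Φ.inj hR' (hy j) univ).mono fun w hw i _ => hcl w hw i
  have hv0 : EqOn v 0 Ω :=
    (hvd.analyticOnNhd hΩ).eqOn_zero_of_preconnected_of_frequently_eq_zero hΩc hw
      (hrec.mono fun w ⟨n, e⟩ => e ▸ horb0 n)
  have hv1 : EqOn v 0 (closure Ω) :=
    hv0.of_subset_closure hvc continuousOn_const subset_closure subset_rfl
  have hb : Bornology.IsBounded W := (isBounded_closedBall (x := (0 : ℂ)) (r := R)).subset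
    fun w hw => mem_closedBall_zero_iff.2 (not_lt.1 fun h => ho 0 w hw (hR w h))
  refine hj₀ (NW_res hb hyi (fun j => hB (NW_half (hy j)))
    (r := fun j w => ∑' i : ↥({Φ.i₀} : Set ι)ᶜ, deriv (Φ.h i) (y j) ^ 2 / (w - Φ.h i (y j)))
    (fun j => ⟨rest_diff Φ.diff Φ.inj hR' (hy j) _ hW fun w hw => hcW w (subset_closure hw),
      (rest_cont Φ.diff Φ.inj hR' (hy j) _).mono fun w hw => hcW w hw⟩) (fun w hw => ?_) j₀)
  have hw' := hcl w (hf hw)
  refine ⟨fun j e => hw' Φ.i₀ _ (NW_half (hy j)) ((Φ.base _ (NW_half (hy j))).trans e.symm), ?_⟩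
  have := hv1 (hf hw)
  simp only [v, fun j => NW_split Φ hR' (hy j) hw'] at this
  exact this

end Pool.Agent.Work.MP_042f46_an
end

-- merged part: Pool.Agent.Work.MP_042f46_an.Main
section
/-!
# Assembly

Plans.  `inv_data`: `d = max` of the degrees, `P = reflect d q`, `Q = reflect d p` (`Polynomial.eval₂_reflect_mul_pow`); `P.coeff d = q.coeff 0 ≠ 0`, `Q.coeff d = p.coeff 0 = 0`; no common root gives coprimality (`Polynomial.isCoprime_iff_aeval_ne_zero_of_isAlgClosed`).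
`Sg.inj_rat`: suppose not, take `W` from `exists_wander`.  Apply `no_wander` to `Ω = (S \ {0})⁻¹`, `W⁻¹`: inversion is a homeomorphism of `{0}ᶜ`; `S` contains a ball around `0`, which misses `W`, so `closure W` stays away from `0`;
a frontier point `w` of `W⁻¹` is nonzero, because `W` is bounded, and `w⁻¹` is a frontier point of `W`.
`main`: `exists_φ`, `exists_cov`, `rf_open`; local injectivity on `S` from `h`, on the frontier from the inverse function theorem.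
-/

open Set Metric Topology Filter Polynomial

namespace Pool.Agent.Work.MP_042f46_an

theorem Main_refl (T : ℂ[X]) {d : ℕ} (hT : T.natDegree ≤ d) {z : ℂ} (hz : z ≠ 0) :
    (reflect d T).eval z⁻¹ = T.eval z / z ^ d := by
  let _ : Invertible z := invertibleOfNonzero hz
  have h := eval₂_reflect_mul_pow (RingHom.id ℂ) z d T hT
  rw [eval₂_id, eval₂_id, invOf_eq_inv] at h
  rw [← h, mul_div_assoc, div_self (pow_ne_zero _ hz), mul_one]

theorem Main_deg (T : ℂ[X]) {d : ℕ} (hT : T.natDegree ≤ d) : (reflect d T).natDegree ≤ d := by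
  rw [natDegree_le_iff_coeff_eq_zero]
  intro N hN
  rw [coeff_reflect, revAt_eq_self_of_lt hN]
  exact coeff_eq_zero_of_natDegree_lt (lt_of_le_of_lt hT hN)

theorem inv_data {p q : ℂ[X]} (hc : IsCoprime p q) (hd : 1 ≤ max p.natDegree q.natDegree)
    (hp : p.eval 0 = 0) : ∃ P Q : ℂ[X], IsCoprime P Q ∧ Q.natDegree < P.natDegree ∧
      ∀ z ≠ 0, rf P Q z⁻¹ = (rf p q z)⁻¹ ∧ (p.eval z ≠ 0 → Q.eval z⁻¹ ≠ 0) := by
  obtain ⟨d, hdd⟩ : ∃ d, d = max p.natDegree q.natDegree := ⟨_, rfl⟩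
  have hpd : p.natDegree ≤ d := hdd ▸ le_max_left _ _
  have hqd : q.natDegree ≤ d := hdd ▸ le_max_right _ _
  have hq : q.eval 0 ≠ 0 := no_common hc.symm hp
  have hP : (reflect d q).coeff d ≠ 0 := by
    rw [coeff_reflect, revAt_le le_rfl, Nat.sub_self, coeff_zero_eq_eval_zero]
    exact hq
  have hQ : (reflect d p).coeff d = 0 := by
    rw [coeff_reflect, revAt_le le_rfl, Nat.sub_self, coeff_zero_eq_eval_zero]
    exact hp
  refine ⟨reflect d q, reflect d p, ?_, ?_, ?_⟩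
  · rw [Polynomial.isCoprime_iff_aeval_ne_zero_of_isAlgClosed ℂ ℂ]
    intro a
    simp only [coe_aeval_eq_eval]
    by_cases ha : a = 0
    · subst ha
      rw [← coeff_zero_eq_eval_zero, ← coeff_zero_eq_eval_zero, coeff_reflect, coeff_reflect,
        revAt_zero]
      rcases max_choice p.natDegree q.natDegree with h | h
      · right
        have h1 : d = p.natDegree := hdd.trans h
        have h2 : p ≠ 0 := by
          rintro rfl
          rw [h] at hd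
          simp at hd
        rw [h1]
        exact mt leadingCoeff_eq_zero.1 h2
      · left
        have h1 : d = q.natDegree := hdd.trans h
        have h2 : q ≠ 0 := by
          rintro rfl
          rw [h] at hd
          simp at hd
        rw [h1]
        exact mt leadingCoeff_eq_zero.1 h2
    · have hi : a⁻¹ ≠ 0 := inv_ne_zero ha
      have h1 := Main_refl q hqd hi
      have h2 := Main_refl p hpd hi
      rw [inv_inv] at h1 h2
      rw [h1, h2]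
      by_cases h : q.eval a⁻¹ = 0
      · right
        exact div_ne_zero (no_common hc h) (pow_ne_zero _ hi)
      · left
        exact div_ne_zero h (pow_ne_zero _ hi)
  · have h1 : d ≤ (reflect d q).natDegree := le_natDegree_of_ne_zero hP
    refine lt_of_lt_of_le ?_ h1
    rcases (Main_deg p hpd).lt_or_eq with h | h
    · exact h
    · have h2 : (reflect d p).leadingCoeff = 0 := by
        rw [leadingCoeff, h]
        exact hQ
      rw [leadingCoeff_eq_zero.1 h2, natDegree_zero]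
      omega
  · intro z hz
    have hzd : z ^ d ≠ 0 := pow_ne_zero _ hz
    refine ⟨?_, fun h => ?_⟩
    · unfold rf
      rw [Main_refl q hqd hz, Main_refl p hpd hz, inv_div, div_div_div_cancel_right₀ hzd]
    · rw [Main_refl p hpd hz]
      exact div_ne_zero h hzd

theorem Main_iter {f F : ℂ → ℂ} (h : ∀ z ≠ 0, F z⁻¹ = (f z)⁻¹) {z : ℂ}
    (hz : ∀ n, f^[n] z ≠ 0) (n : ℕ) : F^[n] z⁻¹ = (f^[n] z)⁻¹ := by
  induction n with
  | zero => rfl
  | succ n ih => rw [Function.iterate_succ_apply', Function.iterate_succ_apply', ih, h _ (hz n)]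

theorem Main_open {A : Set ℂ} (hA : IsOpen A) (h0 : (0 : ℂ) ∉ A) : IsOpen A⁻¹ := by
  rw [isOpen_iff_mem_nhds]
  intro w hw
  have hw0 : w ≠ 0 := by
    rintro rfl
    exact h0 (by simpa using hw)
  exact (continuousAt_inv₀ hw0).preimage_mem_nhds (hA.mem_nhds hw)

theorem Main_cl {A : Set ℂ} {w : ℂ} (hw : w ≠ 0) (h : w ∈ closure A) : w⁻¹ ∈ closure A⁻¹ := by
  have h1 : MapsTo (fun z : ℂ => z⁻¹) A A⁻¹ := fun z hz => by simpa using hz
  exact ((continuousAt_inv₀ hw).continuousWithinAt).mem_closure h h1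

theorem Sg.inj_rat (σ : Sg) {p q : ℂ[X]} (hc : IsCoprime p q)
    (hd : 1 ≤ max p.natDegree q.natDegree) (hf : σ.f = rf p q) (h0 : σ.φ 0 = 0)
    (hq : q.eval 0 ≠ 0) : InjOn σ.f σ.K := by
  by_contra hni
  obtain ⟨W, hWo, hWn, hWb, hWf, hWi, hWd, hWK⟩ := σ.exists_wander hni
  have h0S : (0 : ℂ) ∈ σ.S := ⟨0, mem_ball_self one_pos, h0⟩
  have h0K : (0 : ℂ) ∈ σ.K := subset_closure h0S
  have hf0 : σ.f 0 = 0 := by
    have := σ.conj 0 (mem_ball_self one_pos)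
    rwa [mul_zero, h0] at this
  have hp : p.eval 0 = 0 := by
    rw [hf] at hf0
    exact (div_eq_zero_iff.1 hf0).resolve_right hq
  obtain ⟨P, Q, hPQ, hdeg, hinv⟩ := inv_data hc hd hp
  have hF : ∀ z ≠ 0, rf P Q z⁻¹ = (σ.f z)⁻¹ := fun z hz => hf ▸ (hinv z hz).1
  have hmS : MapsTo σ.f (σ.S \ {0}) (σ.S \ {0}) := by
    rintro z ⟨hz, hz0⟩
    refine ⟨σ.mapsTo_S hz, fun h => hz0 ?_⟩
    exact σ.injOn_S hz h0S ((mem_singleton_iff.1 h).trans hf0.symm)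
  have hW0 : ∀ z ∈ W, ∀ n, σ.f^[n] z ≠ 0 := fun z hz n h => hWK n z hz (h ▸ h0K)
  have h0W : (0 : ℂ) ∉ W := fun h => hW0 0 h 0 rfl
  have hitW : ∀ w ∈ W⁻¹, ∀ n, (rf P Q)^[n] w = (σ.f^[n] w⁻¹)⁻¹ := by
    intro w hw n
    have := Main_iter hF (hW0 _ hw) n
    rwa [inv_inv] at this
  obtain ⟨ρ, hρ, hball⟩ := Metric.isOpen_iff.1 σ.isOpen_S 0 h0S
  have hhalf : ((1 / 2 : ℝ) : ℂ) ∈ ball (0 : ℂ) 1 := by
    rw [mem_ball_zero_iff, Complex.norm_real, Real.norm_eq_abs, abs_of_pos (by norm_num)]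
    norm_num
  obtain ⟨z₀, hz₀⟩ : ∃ z, z = σ.φ ((1 / 2 : ℝ) : ℂ) := ⟨_, rfl⟩
  have hz₀S : z₀ ∈ σ.S := ⟨_, hhalf, hz₀.symm⟩
  have hz₀φ : z₀ ≠ σ.φ 0 := by
    intro h
    have := σ.φ_inj hhalf (mem_ball_self one_pos) (hz₀.symm.trans h)
    norm_num at this
  have hz₀0 : z₀ ≠ 0 := h0 ▸ hz₀φ
  have hz₀n : ∀ n, σ.f^[n] z₀ ≠ 0 := fun n => (hmS.iterate n ⟨hz₀S, hz₀0⟩).2
  refine no_wander (R := ρ⁻¹) (Ω := (σ.S \ {0})⁻¹) (W := W⁻¹) (w₀ := z₀⁻¹) hPQ hdeg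
    ?_ ?_ ?_ ?_ ?_ ?_ ?_ (Main_open hWo h0W) hWn.inv ?_ ?_ ?_ ?_
  · exact Main_open (σ.isOpen_S.sdiff isClosed_singleton) (fun h => h.2 rfl)
  · rw [← image_inv_eq_inv]
    have h1 := σ.isPreconnected_punct
    rw [h0] at h1
    exact h1.image _ (fun z hz => (continuousAt_inv₀ hz.2).continuousWithinAt)
  · intro w hw
    have h1 := hF w⁻¹ hw.2
    rw [inv_inv] at h1
    rw [Set.mem_inv, h1, inv_inv]
    exact hmS hw
  · intro w hw
    have h1 := (hinv w⁻¹ hw.2).2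
    rw [inv_inv] at h1
    refine h1 fun h => (hmS hw).2 ?_
    rw [hf, mem_singleton_iff, rf, h, zero_div]
  · intro w hw
    have hw0 : 0 < ‖w‖ := lt_trans (inv_pos.2 hρ) hw
    refine ⟨hball ?_, inv_ne_zero (norm_pos_iff.1 hw0)⟩
    rw [mem_ball_zero_iff, norm_inv]
    exact inv_lt_of_inv_lt₀ hρ hw
  · rw [Set.mem_inv, inv_inv]
    exact ⟨hz₀S, hz₀0⟩
  · have ht : Tendsto (fun z : ℂ => z⁻¹) (𝓝[≠] z₀) (𝓝[≠] z₀⁻¹) := by
      refine tendsto_nhdsWithin_iff.2 ⟨?_, ?_⟩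
      · exact ((continuousAt_inv₀ hz₀0).tendsto).mono_left nhdsWithin_le_nhds
      · filter_upwards [self_mem_nhdsWithin] with z hz
        exact fun h => hz (inv_injective h)
    refine ht.frequently ((σ.rec_S hz₀S hz₀φ).mono ?_)
    rintro w ⟨n, rfl⟩
    exact ⟨n, (Main_iter hF hz₀n n).symm⟩
  · intro w hw
    obtain ⟨M, hM0, hM⟩ := hWb.exists_pos_norm_le
    have hcl : closure W⁻¹ ⊆ {w : ℂ | M⁻¹ ≤ ‖w‖} := by
      refine closure_minimal ?_ (isClosed_le continuous_const continuous_norm)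
      intro u hu
      have hu0 : u ≠ 0 := by
        rintro rfl
        exact h0W (by simpa using hu)
      have h1 := hM _ hu
      rw [norm_inv] at h1
      exact inv_le_of_inv_le₀ (norm_pos_iff.2 hu0) h1
    have hw0 : w ≠ 0 := by
      have h1 : M⁻¹ ≤ ‖w‖ := hcl hw.1
      exact norm_pos_iff.1 (lt_of_lt_of_le (inv_pos.2 hM0) h1)
    have h1 : w⁻¹ ∈ closure W := by
      have := Main_cl hw0 hw.1
      rwa [inv_inv] at this
    have h2 : w⁻¹ ∉ W := by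
      intro h
      refine hw.2 ?_
      rw [(Main_open hWo h0W).interior_eq]
      exact h
    have h3 : w⁻¹ ∈ closure σ.S := hWf ⟨h1, by rwa [hWo.interior_eq]⟩
    have h4 : w⁻¹ ∈ closure (σ.S \ {0}) := by
      have h5 : w⁻¹ ∈ ({0}ᶜ : Set ℂ) ∩ closure σ.S := ⟨inv_ne_zero hw0, h3⟩
      have h6 := isOpen_compl_singleton.inter_closure h5
      rwa [inter_comm, ← Set.sdiff_eq] at h6
    have := Main_cl (inv_ne_zero hw0) h4
    rwa [inv_inv] at this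
  · intro n u hu w hw h
    rw [hitW u hu, hitW w hw] at h
    exact inv_injective (hWi n hu hw (inv_injective h))
  · intro m n hmn
    rw [Set.disjoint_left]
    rintro y ⟨u, hu, rfl⟩ ⟨w, hw, h⟩
    rw [hitW u hu, hitW w hw] at h
    exact Set.disjoint_left.1 (hWd m n hmn) ⟨_, hu, rfl⟩ ⟨_, hw, inv_injective h⟩
  · intro n w hw h
    rw [hitW w hw, Set.mem_inv, inv_inv] at h
    exact hWK n _ hw (subset_closure h.1)

theorem Main_li {f : ℂ → ℂ} {z : ℂ} (ha : AnalyticAt ℂ f z) (hd : deriv f z ≠ 0) :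
    ∃ N ∈ 𝓝 z, InjOn f N := by
  have h1 : HasStrictDerivAt f (deriv f z) z := ha.hasStrictDerivAt
  have h2 := (h1.hasStrictFDerivAt_equiv hd).eventually_left_inverse
  refine ⟨_, h2, fun u hu w hw h => ?_⟩
  have hu' := mem_ofPred_eq ▸ hu
  have hw' := mem_ofPred_eq ▸ hw
  rw [← hu', ← hw', h]

theorem main (p q : ℂ[X]) (α : ℝ) (S : Set ℂ) (hc : IsCoprime p q)
    (hd : 1 ≤ max p.natDegree q.natDegree) (hα : Irrational α) (hS : IsOpen S)
    (hSc : IsPreconnected S) (h0 : (0 : ℂ) ∈ S) (hb : Bornology.IsBounded S)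
    (hm : MapsTo (rf p q) S S) {h : ℂ → ℂ} (hh : DifferentiableOn ℂ h S) (hi : InjOn h S)
    (hz : h 0 = 0) (hf : ∀ z ∈ S, h (rf p q z) = e α * h z)
    (hP : ∀ z, q.eval z = 0 → Out (closure S) z)
    (hn : ∀ z ∈ frontier S, deriv (rf p q) z ≠ 0) : InjOn (rf p q) (closure S) := by
  obtain ⟨φ, hφc, hφi, hφo, hφf, hφS, hφ0⟩ := exists_φ hα hS hSc h0 hm hh hi hz hf
  obtain ⟨V, hVf, hVc, -⟩ := exists_cov hc hd
  have hqK : ∀ z ∈ closure S, q.eval z ≠ 0 := fun z hz h => (hP z h).notMem hz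
  have hq0 : q.eval 0 ≠ 0 := hqK 0 (subset_closure h0)
  have hq : q ≠ 0 := by
    rintro rfl
    exact hq0 (eval_zero)
  let σ : Sg :=
    { f := rf p q
      φ := φ
      α := α
      V := V
      P := {z | q.eval z = 0}
      irr := hα
      φ_cont := hφc
      φ_inj := hφi
      φ_open := hφo
      conj := hφf
      bdd := hφS ▸ hb
      V_fin := hVf
      P_fin := q.finite_setOfPred_isRoot hq
      cov := hVc
      f_cont := fun z hz => (rf_analytic hz).continuousAt.continuousWithinAt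
      f_open := fun z hz N hN => rf_open hc hd hz hN
      P_out := fun z hz => hφS ▸ hP z hz
      li := by
        rw [hφS]
        intro z hz
        by_cases hzS : z ∈ S
        · refine ⟨S, hS.mem_nhds hzS, fun u hu w hw huw => hi hu hw ?_⟩
          have h1 : e α * h u = e α * h w := by rw [← hf u hu, ← hf w hw, huw]
          exact mul_left_cancel₀ (Complex.exp_ne_zero _) h1
        · exact Main_li (rf_analytic (hqK z hz)) (hn z ⟨hz, by rwa [hS.interior_eq]⟩) }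
  have h1 := σ.inj_rat hc hd rfl hφ0 hq0
  have h2 : σ.K = closure S := congrArg closure hφS
  rwa [h2] at h1

end Pool.Agent.Work.MP_042f46_an
end

-- merged part: Pool.Agent.Work.MP_042f46_an.XH
section
/-!
# Assembly

Plans.  `Sx.injOn_K`: `age` gives `N, η₁, ρ₁`; `exists_far` for `{v₀}` gives `δ`; `iter_small N` gives `η₂`; `η = min η₁ η₂` (`Hop.mono`); `Φ_le`, `Φ_ge`, `exists_avoid` (with `ρ₀ ≤ 2`), `exists_cfg`.
`exists_φ_hol`: `U = h '' S` is a ball or the plane (`radial`, compare `exists_φ` in `Lin.lean`); the inverse of `h` is holomorphic (`inv_diff`) and bounded, so `U` is not the plane (`Differentiable.apply_eq_apply_of_bounded`); `φ ζ = invFunOn h S (R * ζ)`.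
`zero_only`: if `u ∈ closure S`, `f u = 0`, then for points `φ ζ` near `u` the point `f (φ ζ) = φ (e α * ζ)` is near `0 = φ 0`, so `ζ` is near `0` (the inverse of `φ` is continuous), so `u = 0`.
`main'`: `inv_data` gives `F = rf P Q`; use the structure `Sx` with `φ' ζ = (φ ζ⁻¹)⁻¹`, rotation number `-α`, `V` from `exists_cov`, poles `{z | Q.eval z = 0}`, `d = P.natDegree`, `v₀ = 0`; the rotation domain is `(S \ {0})⁻¹`, its closure is contained in `(closure S \ {0})⁻¹`.  `fib`: roots of `P - C y * Q`, which has degree `d`.  `li`: `Main_li` and `z ↦ z⁻¹`.  `nw`: `no_wander` (`isBounded_compl_ext`, `rot_rec`; compare `Sg.inj_rat` and `Sg.rec_S`).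
-/

open Set Metric Topology Filter Polynomial

namespace Pool.Agent.Work.MP_042f46_an

theorem Sx.injOn_K (σ : Sx) : InjOn σ.F σ.K := by
  by_contra hn
  obtain ⟨N, η₁, ρ₁, hη₁, hρ₁, hage⟩ := σ.age
  obtain ⟨δ, hδ, hfar⟩ := σ.exists_far (finite_singleton σ.v₀) fun x hx => by
    rw [mem_singleton_iff.1 hx]
    exact σ.v₀_K
  obtain ⟨η₂, hη₂, -, hs⟩ := σ.iter_small N (δ := δ / 4) (by positivity)
  obtain ⟨M, hM, hle⟩ := σ.Φ_le N (lt_min hη₁ hη₂) (δ / 4)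
  obtain ⟨ρ₀, hρ₀, hge⟩ := σ.Φ_ge hn N hM
  obtain ⟨ρ, hρ, hav⟩ := σ.exists_avoid σ.V_fin (lt_min one_lt_two (lt_min hρ₀ hρ₁))
  obtain ⟨h2, h3⟩ := lt_min_iff.1 hρ.2
  obtain ⟨h3, h4⟩ := lt_min_iff.1 h3
  obtain ⟨C⟩ := Sx.exists_cfg ⟨hρ.1, h2.le⟩ hav
  exact (hge ρ h3.le C).not_ge (hle ρ C
    ⟨fun κ s t a b h => hage ρ h4.le κ s t a b (h.mono (min_le_left _ _)),
      fun ρ κ s t a b h => hs ρ κ s t a b (h.mono (min_le_right _ _)),
      fun z hz => by linarith only [hfar, hz, hfar _ rfl z hz]⟩)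

theorem exists_φ_hol {α : ℝ} (hα : Irrational α) {S : Set ℂ} (hS : IsOpen S)
    (hc : IsPreconnected S) (h0 : (0 : ℂ) ∈ S) (hb : Bornology.IsBounded S) {f h : ℂ → ℂ}
    (hm : MapsTo f S S) (hh : DifferentiableOn ℂ h S) (hi : InjOn h S) (hz : h 0 = 0)
    (hf : ∀ z ∈ S, h (f z) = e α * h z) :
    ∃ φ : ℂ → ℂ, DifferentiableOn ℂ φ (ball 0 1) ∧ InjOn φ (ball 0 1) ∧
      (∀ ζ ∈ ball (0 : ℂ) 1, f (φ ζ) = φ (e α * ζ)) ∧ φ '' ball 0 1 = S ∧ φ 0 = 0 := by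
  have g0 := inv_diff hS hh hi
  set g := Function.invFunOn h S
  have g1 : ∀ z ∈ S, g (h z) = z := hi.leftInvOn_invFunOn
  have g2 : ∀ w ∈ h '' S, g w ∈ S ∧ h (g w) = w := by
    rintro _ ⟨z, k, rfl⟩
    rw [g1 z k]
    exact ⟨k, rfl⟩
  rcases radial hα (isOpen_image_of_injOn hS hh hi) (hc.image h hh.continuousOn) ⟨0, h0, hz⟩ (by
    rintro _ ⟨z, k, rfl⟩; exact ⟨f z, hm k, hf z k⟩) with hU | ⟨R, hR, hU⟩
  · rw [hU] at g0 g2
    have k := (differentiableOn_univ.1 g0).apply_eq_apply_of_bounded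
      (hb.subset (range_subset_iff.2 fun w => (g2 w trivial).1)) 0 1
    exact absurd ((g2 0 trivial).2.symm.trans ((congrArg h k).trans (g2 1 trivial).2)) zero_ne_one
  have hR' : (R : ℂ) ≠ 0 := Complex.ofReal_ne_zero.2 hR.ne'
  have m1 : MapsTo (fun ζ : ℂ => (R : ℂ) * ζ) (ball 0 1) (h '' S) := fun ζ k => by
    rw [hU, mem_ball_zero_iff, norm_mul, Complex.norm_of_nonneg hR.le]
    exact mul_lt_of_lt_one_right hR (mem_ball_zero_iff.1 k)
  refine ⟨fun ζ => g (R * ζ), g0.comp (by fun_prop) m1, fun a ha b hb k => ?_, fun ζ k => ?_,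
    Subset.antisymm ?_ fun z k => ⟨(R : ℂ)⁻¹ * h z, ?_, ?_⟩, ?_⟩
  · exact mul_left_cancel₀ hR' ((g2 _ (m1 ha)).2.symm.trans
      ((congrArg h k).trans (g2 _ (m1 hb)).2))
  · obtain ⟨k1, k2⟩ := g2 _ (m1 k)
    beta_reduce at k1 k2 ⊢
    rw [mul_left_comm, ← g1 _ (hm k1), hf _ k1, k2]
  · rintro _ ⟨ζ, k, rfl⟩
    exact (g2 _ (m1 k)).1
  · have k1 : h z ∈ ball (0 : ℂ) R := hU ▸ mem_image_of_mem h k
    rw [mem_ball_zero_iff, norm_mul, norm_inv, Complex.norm_of_nonneg hR.le, inv_mul_lt_one₀ hR]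
    exact mem_ball_zero_iff.1 k1
  · beta_reduce
    rw [mul_inv_cancel_left₀ hR', g1 z k]
  · beta_reduce
    rw [mul_zero, ← hz, g1 0 h0, hz]

theorem zero_only {α : ℝ} {f φ : ℂ → ℂ} (hφ : DifferentiableOn ℂ φ (ball 0 1))
    (hi : InjOn φ (ball 0 1)) (hf : ∀ ζ ∈ ball (0 : ℂ) 1, f (φ ζ) = φ (e α * ζ)) (h0 : φ 0 = 0)
    {u : ℂ} (hu : u ∈ closure (φ '' ball 0 1)) (hc : ContinuousAt f u) (h : f u = 0) : u = 0 := by
  have hb : (0 : ℂ) ∈ ball (0 : ℂ) 1 := mem_ball_self one_pos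
  obtain ⟨ψ, q1, q2⟩ : ∃ ψ : ℂ → ℂ, ContinuousOn ψ (φ '' ball 0 1) ∧
      ∀ ζ ∈ ball (0 : ℂ) 1, ψ (φ ζ) = ζ :=
    ⟨_, (inv_diff isOpen_ball hφ hi).continuousOn, hi.leftInvOn_invFunOn⟩
  have h1 : ContinuousAt (fun w => e (-α) * ψ (f w)) u := continuousAt_const.mul
    ((q1.continuousAt ((isOpen_image_of_injOn isOpen_ball hφ hi).mem_nhds
      ⟨0, hb, h0.trans h.symm⟩)).comp hc)
  have h4 : e (-α) * ψ (f u) = 0 := by
    rw [h, ← h0, q2 0 hb, mul_zero, h0]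
  have h5 := (hφ.continuousOn.continuousAt (isOpen_ball.mem_nhds (h4.symm ▸ hb))).comp
    (f := fun w => e (-α) * ψ (f w)) h1
  have h6 : (φ ∘ fun w => e (-α) * ψ (f w)) u = u := by
    refine tendsto_nhds_unique_of_frequently_eq h5 tendsto_id
      ((mem_closure_iff_frequently.1 hu).mono ?_)
    rintro _ ⟨ξ, h6, rfl⟩
    rw [Function.comp, hf ξ h6, q2 _ (Sg_ball h6 _), ← mul_assoc, ← e_add]
    simp [e]
  rw [← h6, Function.comp, h4, h0]

theorem XH_ball {ζ : ℂ} (h : 1 < ‖ζ‖) : ζ ≠ 0 ∧ ζ⁻¹ ∈ ball (0 : ℂ) 1 :=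
  ⟨norm_pos_iff.1 (one_pos.trans h), by
    rw [mem_ball_zero_iff, norm_inv]
    exact inv_lt_one_of_one_lt₀ h⟩

theorem XH_rec {F φ : ℂ → ℂ} {α : ℝ} (hα : Irrational α) (hφ : ContinuousOn φ {ζ | 1 < ‖ζ‖})
    (hi : InjOn φ {ζ | 1 < ‖ζ‖}) (hf : ∀ ζ, 1 < ‖ζ‖ → F (φ ζ) = φ (e α * ζ)) {ζ : ℂ}
    (hζ : 1 < ‖ζ‖) : ∃ᶠ w in 𝓝[≠] (φ ζ), ∃ n : ℕ, w = F^[n] (φ ζ) := by
  have hb : {ζ : ℂ | 1 < ‖ζ‖} ∈ 𝓝 ζ := (RM4_open 1).mem_nhds hζ
  have ht : Tendsto φ (𝓝[≠] ζ) (𝓝[≠] (φ ζ)) := by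
    refine tendsto_nhdsWithin_iff.2 ⟨?_, ?_⟩
    · exact (hφ.continuousAt hb).tendsto.mono_left nhdsWithin_le_nhds
    · filter_upwards [mem_nhdsWithin_of_mem_nhds hb, self_mem_nhdsWithin] with w hw hw' hw''
      exact hw' (hi hw hζ hw'')
  refine ht.frequently ((rot_rec hα (XH_ball hζ).1).mono ?_)
  rintro w ⟨n, rfl⟩
  refine ⟨n, ?_⟩
  induction n with
  | zero => simp [e]
  | succ n ih =>
    rw [Function.iterate_succ_apply', ← ih, hf _ (X1_rot hζ _), ← mul_assoc, ← e_add,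
      Nat.cast_succ, add_one_mul, add_comm]

theorem XH_fib {P Q : ℂ[X]} (hd : Q.natDegree < P.natDegree) (y : ℂ) :
    {z | z ∉ {z | Q.eval z = 0} ∧ rf P Q z = y}.encard ≤ P.natDegree := by
  classical
  have h1 : (P - C y * Q).natDegree = P.natDegree :=
    natDegree_sub_eq_left_of_natDegree_lt ((natDegree_C_mul_le y Q).trans_lt hd)
  have h2 : P - C y * Q ≠ 0 := fun k => by
    rw [k, natDegree_zero] at h1
    omega
  have h3 : {z | z ∉ {z | Q.eval z = 0} ∧ rf P Q z = y} ⊆ ↑(P - C y * Q).roots.toFinset := by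
    rintro z ⟨k1, k2⟩
    rw [Finset.mem_coe, Multiset.mem_toFinset, mem_roots h2, IsRoot, eval_sub, eval_mul, eval_C,
      ← k2, rf, div_mul_cancel₀ _ k1, sub_self]
  refine (encard_le_encard h3).trans ?_
  rw [encard_coe_eq_coe_finsetCard, ← h1]
  exact Nat.cast_le.2 ((Multiset.toFinset_card_le _).trans (card_roots' _))

theorem XH_cl {S : Set ℂ} (hb : Bornology.IsBounded S) {w : ℂ} (hw : w ∈ closure (S \ {0})⁻¹) :
    w ≠ 0 ∧ w⁻¹ ∈ closure S := by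
  obtain ⟨M, hM0, hM⟩ := hb.exists_pos_norm_le
  have hcl : closure (S \ {0})⁻¹ ⊆ {w : ℂ | M⁻¹ ≤ ‖w‖} := by
    refine closure_minimal (fun u hu => ?_) (isClosed_le continuous_const continuous_norm)
    have h1 := hM _ hu.1
    rw [norm_inv] at h1
    exact inv_le_of_inv_le₀ (norm_pos_iff.2 fun k => hu.2 (inv_eq_zero.2 k)) h1
  have hw0 : w ≠ 0 := norm_pos_iff.1 ((inv_pos.2 hM0).trans_le (hcl hw))
  have := Main_cl hw0 hw
  rw [inv_inv] at this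
  exact ⟨hw0, closure_mono sdiff_subset this⟩

theorem XH_cl' {S : Set ℂ} {z : ℂ} (hz : z ∈ closure S) (h0 : z ≠ 0) :
    z⁻¹ ∈ closure (S \ {0})⁻¹ := by
  have h5 : z ∈ ({0}ᶜ : Set ℂ) ∩ closure S := ⟨h0, hz⟩
  have h6 := isOpen_compl_singleton.inter_closure h5
  rw [inter_comm, ← Set.sdiff_eq] at h6
  exact Main_cl h0 h6

theorem main' (p q : ℂ[X]) (α : ℝ) (S : Set ℂ) (hc : IsCoprime p q)
    (hd : 1 ≤ max p.natDegree q.natDegree) (hα : Irrational α) (hS : IsOpen S)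
    (hSc : IsPreconnected S) (h0 : (0 : ℂ) ∈ S) (hb : Bornology.IsBounded S)
    (hq : ∀ z ∈ closure S, q.eval z ≠ 0) (hm : MapsTo (rf p q) S S) {h : ℂ → ℂ}
    (hh : DifferentiableOn ℂ h S) (hi : InjOn h S) (hz : h 0 = 0)
    (hf : ∀ z ∈ S, h (rf p q z) = e α * h z)
    (hn : ∀ z ∈ frontier S, deriv (rf p q) z ≠ 0) : InjOn (rf p q) (closure S) := by
  obtain ⟨φ, hφd, hφi, hφf, hφS, hφ0⟩ := exists_φ_hol hα hS hSc h0 hb hm hh hi hz hf
  have hb0 : (0 : ℂ) ∈ ball (0 : ℂ) 1 := mem_ball_self one_pos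
  have hf0 : rf p q 0 = 0 := by
    have := hφf 0 hb0
    rwa [mul_zero, hφ0] at this
  have hp : p.eval 0 = 0 := (div_eq_zero_iff.1 hf0).resolve_right (hq 0 (subset_closure h0))
  obtain ⟨P, Q, hPQ, hdeg, hinv⟩ := inv_data hc hd hp
  have hd' : 1 ≤ max P.natDegree Q.natDegree := le_max_of_le_left (by omega)
  obtain ⟨V, hVf, hVc, hV⟩ := exists_cov hPQ hd'
  have hzero : ∀ u ∈ closure S, rf p q u = 0 → u = 0 := fun u hu k =>
    zero_only hφd hφi hφf hφ0 (hφS.symm ▸ hu) (rf_analytic (hq u hu)).continuousAt k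
  have hne : ∀ ζ : ℂ, 1 < ‖ζ‖ → φ ζ⁻¹ ≠ 0 := fun ζ k k' =>
    inv_ne_zero (XH_ball k).1 (hφi (XH_ball k).2 hb0 (k'.trans hφ0.symm))
  obtain ⟨ψ, hψ⟩ : ∃ ψ : ℂ → ℂ, ψ = fun ζ => (φ ζ⁻¹)⁻¹ := ⟨_, rfl⟩
  have hψd : DifferentiableOn ℂ ψ {ζ | 1 < ‖ζ‖} := by
    rw [hψ]
    exact (hφd.comp (differentiableOn_inv.mono fun ζ k => (XH_ball k).1)
      fun ζ k => (XH_ball k).2).inv hne
  have hψi : InjOn ψ {ζ | 1 < ‖ζ‖} := fun a ha b hb k => by
    rw [hψ] at k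
    exact inv_injective (hφi (XH_ball ha).2 (XH_ball hb).2 (inv_injective k))
  have hψt : Tendsto ψ (Bornology.cobounded ℂ) (Bornology.cobounded ℂ) := by
    have hb1 : ball (0 : ℂ) 1 ∈ 𝓝 (0 : ℂ) := isOpen_ball.mem_nhds hb0
    have ht : Tendsto φ (𝓝[≠] 0) (𝓝[≠] (φ 0)) := by
      refine tendsto_nhdsWithin_iff.2 ⟨?_, ?_⟩
      · exact (hφd.continuousOn.continuousAt hb1).tendsto.mono_left nhdsWithin_le_nhds
      · filter_upwards [mem_nhdsWithin_of_mem_nhds hb1, self_mem_nhdsWithin] with w hw hw' hw''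
        exact hw' (hφi hw hb0 hw'')
    rw [hφ0] at ht
    rw [hψ]
    exact tendsto_inv₀_nhdsNE_zero.comp (ht.comp tendsto_inv₀_cobounded')
  have hψf : ∀ ζ, 1 < ‖ζ‖ → rf P Q (ψ ζ) = ψ (e (-α) * ζ) := fun ζ k => by
    have k1 : (e (-α))⁻¹ = e α := by
      refine inv_eq_of_mul_eq_one_right ?_
      rw [← e_add]
      simp [e]
    simp only [hψ]
    rw [(hinv _ (hne ζ k)).1, hφf _ (XH_ball k).2, mul_inv, k1]
  have hΩ : ψ '' {ζ | 1 < ‖ζ‖} = (S \ {0})⁻¹ := by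
    ext w
    constructor
    · rintro ⟨ζ, k, rfl⟩
      simp only [hψ]
      rw [Set.mem_inv, inv_inv]
      exact ⟨hφS ▸ mem_image_of_mem φ (XH_ball k).2, hne ζ k⟩
    · rintro ⟨k1, k2⟩
      rw [← hφS] at k1
      obtain ⟨ζ, k3, k4⟩ := k1
      have k5 : ζ ≠ 0 := fun k => k2 (by rw [← k4, k, hφ0]; rfl)
      refine ⟨ζ⁻¹, ?_, by simp only [hψ, inv_inv, k4]⟩
      rw [mem_ofPred_eq, norm_inv]
      exact (one_lt_inv₀ (norm_pos_iff.2 k5)).2 (mem_ball_zero_iff.1 k3)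
  have hcl : ∀ w ∈ closure (ψ '' {ζ | 1 < ‖ζ‖}), w ≠ 0 ∧ w⁻¹ ∈ closure S := fun w hw =>
    XH_cl hb (hΩ ▸ hw)
  have hQ : ∀ w ∈ closure (ψ '' {ζ | 1 < ‖ζ‖}), Q.eval w ≠ 0 := fun w hw => by
    obtain ⟨k1, k2⟩ := hcl w hw
    have k3 := (hinv _ (inv_ne_zero k1)).2 fun k => inv_ne_zero k1
      (hzero _ k2 (by rw [rf, k, zero_div]))
    rwa [inv_inv] at k3
  have h2 : (2 : ℂ) ∈ {ζ : ℂ | 1 < ‖ζ‖} := by
    rw [mem_ofPred_eq, Complex.norm_two]
    exact one_lt_two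
  have hQ0 : Q ≠ 0 := by
    rintro rfl
    exact hQ _ (subset_closure (mem_image_of_mem ψ h2)) eval_zero
  obtain ⟨ρ, hρ, hball⟩ := Metric.isOpen_iff.1 hS 0 h0
  let σ : Sx :=
    { F := rf P Q
      φ := ψ
      α := -α
      V := V
      P := {z | Q.eval z = 0}
      d := P.natDegree
      v₀ := 0
      irr := hα.neg
      φ_diff := hψd
      φ_inj := hψi
      φ_top := hψt
      conj := hψf
      V_fin := hVf
      P_fin := Q.finite_setOfPred_isRoot hQ0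
      cov := hVc
      F_diff := fun z hz => (rf_analytic hz).differentiableAt.differentiableWithinAt
      F_open := fun z hz N hN => rf_open hPQ hd' hz hN
      P_V := fun z hz => by_contra fun k => (hV z k).1 hz
      P_K := fun z hz k => hQ z k hz
      d_pos := by omega
      fib := XH_fib hdeg
      li := fun w hw => by
        obtain ⟨k1, k2⟩ := hcl w hw
        obtain ⟨N, hN, hN'⟩ : ∃ N ∈ 𝓝 w⁻¹, InjOn (rf p q) N := by
          by_cases hzS : w⁻¹ ∈ S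
          · refine ⟨S, hS.mem_nhds hzS, fun u hu w hw huw => hi hu hw ?_⟩
            have h1 : e α * h u = e α * h w := by rw [← hf u hu, ← hf w hw, huw]
            exact mul_left_cancel₀ (Complex.exp_ne_zero _) h1
          · exact Main_li (rf_analytic (hq _ k2)) (hn _ ⟨k2, by rwa [hS.interior_eq]⟩)
        refine ⟨{0}ᶜ ∩ N⁻¹, inter_mem (isOpen_compl_singleton.mem_nhds k1)
          ((continuousAt_inv₀ k1).preimage_mem_nhds hN), fun a ha b hb k => ?_⟩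
        have k3 := (hinv _ (inv_ne_zero ha.1)).1
        have k4 := (hinv _ (inv_ne_zero hb.1)).1
        rw [inv_inv] at k3 k4
        rw [k3, k4] at k
        exact inv_injective (hN' ha.2 hb.2 (inv_injective k))
      v₀_K := fun k => (hcl 0 k).1 rfl
      nw := fun W h1 h3 h4 h5 h6 h7 => by
        refine no_wander (R := ρ⁻¹) hPQ hdeg (isOpen_image_of_injOn (RM4_open 1) hψd hψi)
          ((RM4_conn zero_le_one).image _ hψd.continuousOn) ?_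
          (fun w hw => hQ w (subset_closure hw)) (fun w hw => ?_) (mem_image_of_mem ψ h2)
          (XH_rec hα.neg hψd.continuousOn hψi hψf h2) h1 h3 h4 h5 h6 h7
        · rintro _ ⟨ζ, k, rfl⟩
          exact ⟨_, X1_rot k _, (hψf ζ k).symm⟩
        · have hw0 : 0 < ‖w‖ := lt_trans (inv_pos.2 hρ) hw
          rw [hΩ]
          refine ⟨hball ?_, inv_ne_zero (norm_pos_iff.1 hw0)⟩
          rw [mem_ball_zero_iff, norm_inv]
          exact inv_lt_of_inv_lt₀ hρ hw }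
  have h1 : InjOn (rf P Q) (closure (ψ '' {ζ | 1 < ‖ζ‖})) := σ.injOn_K
  rw [hΩ] at h1
  intro z hz w hw k
  by_cases z0 : z = 0
  · rw [z0, hf0] at k
    rw [z0, hzero w hw k.symm]
  by_cases w0 : w = 0
  · rw [w0, hf0] at k
    exact absurd (hzero z hz k) z0
  exact inv_injective (h1 (XH_cl' hz z0) (XH_cl' hw w0) (by rw [(hinv z z0).1, (hinv w w0).1, k]))

end Pool.Agent.Work.MP_042f46_an
end
end
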