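import Pool.Agent.Work.MP_042f46_an.Parked.AllAlpha

/-!
The earlier hand-in `NoCritRat` (no critical point on the boundary) is a special case of `AllAlpha`.
-/

namespace Pool.Agent.Work.MP_042f46_an.Cor

theorem noCritRat :
    ∀ (p q : Polynomial ℂ) (α : ℝ) (S : Set ℂ),
      IsCoprime p q → 2 ≤ max p.natDegree q.natDegree → Irrational α →
      IsOpen S → IsConnected S → (0 : ℂ) ∈ S → Bornology.IsBounded (closure S) →
      (∀ z ∈ closure S, q.eval z ≠ 0) →
      Set.MapsTo (fun z : ℂ => p.eval z / q.eval z) S S →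
      (∃ h : ℂ → ℂ, DifferentiableOn ℂ h S ∧ Set.InjOn h S ∧ h 0 = 0 ∧
        ∀ z ∈ S, h (p.eval z / q.eval z)
          = Complex.exp (2 * (Real.pi : ℂ) * Complex.I * (α : ℂ)) * h z) →
      (∀ z ∈ frontier S, (Polynomial.derivative p * q - p * Polynomial.derivative q).eval z ≠ 0) →
      Set.InjOn (fun z : ℂ => p.eval z / q.eval z) (closure S) :=
  fun p q α S hc hd hα hS hSc h0 hb hq hm hl _ =>
    Pool.Agent.Results.MP_042f46_an.AllAlpha.result p q α S hc hd hα hS hSc h0 hb hq hm hl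

end Pool.Agent.Work.MP_042f46_an.Cor
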