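import Mathlib

-- merged part: Pool.Agent.Work.MP_042f46_an.RM1
section
/-!
# Montel, Hurwitz, inverses of injective holomorphic maps

Plans.  `montel`: take an ultrafilter `l ≤ atTop` (`Ultrafilter.of atTop`, `Ultrafilter.of_le`); for `z ∈ U` the bounded sequence `F n z` has a limit `g z` along `l` (compact closed ball).  On a ball `ball z r` with `closedBall z (2 r) ⊆ U` the Cauchy estimate (`Complex.norm_deriv_le_of_forall_mem_sphere_norm_le` or similar) makes all `F n` Lipschitz with the same constant, so pointwise convergence along `l` is uniform on `closedBall z r` (finite net, or `EquicontinuousOn.tendsto_uniformOnFun_iff_pi`).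
`hurwitz`: `g` is holomorphic (`TendstoLocallyUniformlyOn.differentiableOn`).  If `g z₀ = 0` and `g` is not identically zero then (identity theorem) `g ≠ 0` on a small sphere around `z₀`, `‖g‖ ≥ m > 0` there; for `n` in `l`, `‖F n‖ > m / 2` on the sphere and `‖F n z₀‖ < m / 2`, against the maximum principle for `1 / F n` (`Complex.norm_le_of_forall_mem_frontier_norm_le`).
`hurwitz_inj`: if `g a = g b`, `a ≠ b`, apply `hurwitz` (or its proof) near `b` to `F n · - F n a` on a small ball around `b` missing `a`, then the identity theorem.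
`deriv_ne_of_injOn`: on a small ball around `z` the difference quotients `(g (w + h n) - g w) / h n`, `h n → 0`, do not vanish and converge locally uniformly to `deriv g` (or use `hurwitz` differently, or a local `k`-th root); `deriv g = 0` on a ball makes `g` constant there.
`isOpen_image_of_injOn`, `inv_diff`: open mapping; `HasStrictDerivAt.localInverse` or `HasDerivAt.of_local_left_inverse` (the inverse is continuous because `g` is open).
`diff_of_sq`: near `z` one has `h w = h z * (g w / g z) ^ (1/2)`, or use `h w - h z = (g w - g z) / (h w + h z)`.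
-/

open Set Metric Topology Filter

namespace Pool.Agent.Work.MP_042f46_an

variable {U : Set ℂ} {F : ℕ → ℂ → ℂ} {g : ℂ → ℂ}

theorem montel (hU : IsOpen U) (hF : ∀ n, DifferentiableOn ℂ (F n) U)
    (hb : ∀ n, ∀ z ∈ U, ‖F n z‖ ≤ 1) :
    ∃ (g : ℂ → ℂ) (l : Filter ℕ), l.NeBot ∧ l ≤ atTop ∧ TendstoLocallyUniformlyOn F g l U := by
  have h1 : ∀ z, ∃ c, z ∈ U → Tendsto (F · z) (Ultrafilter.of atTop : Ultrafilter ℕ) (𝓝 c) :=
      fun z => by
    by_cases hz : z ∈ U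
    · obtain ⟨c, -, hc⟩ := (isCompact_closedBall (0 : ℂ) 1).ultrafilter_le_nhds'
        ((Ultrafilter.of atTop).map (F · z))
        (Ultrafilter.mem_map.2 (univ_mem' fun n => mem_closedBall_zero_iff.2 (hb n z hz)))
      exact ⟨c, fun _ => hc⟩
    · exact ⟨0, fun h => absurd h hz⟩
  choose g hg using h1
  refine ⟨g, _, inferInstance, Ultrafilter.of_le atTop,
    Metric.tendstoLocallyUniformlyOn_iff.2 fun ε hε x hx => ?_⟩
  obtain ⟨R, hR, hRU⟩ := Metric.isOpen_iff.1 hU x hx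
  have h2 : ∀ n, ∀ y ∈ ball x R, dist (F n y) (F n x) ≤ 2 / R * dist y x := fun n y hy =>
    Complex.dist_le_div_mul_dist_of_mapsTo_ball ((hF n).mono hRU) (fun w hw => by
      have := norm_sub_le (F n w) (F n x)
      rw [mem_closedBall, dist_eq_norm]
      linarith [hb n w (hRU hw), hb n x hx]) hy
  have h3 : ∀ᶠ y in 𝓝 x, 2 / R * dist y x < ε / 3 :=
    ContinuousAt.eventually_lt (by fun_prop) continuousAt_const (by simpa using hε)
  refine ⟨_, mem_nhdsWithin_of_mem_nhds (inter_mem (ball_mem_nhds x hR) h3), ?_⟩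
  filter_upwards [Metric.tendsto_nhds.1 (hg x hx) (ε / 3) (by positivity)] with n hn y hy
  have h4 : dist (g y) (g x) ≤ 2 / R * dist y x :=
    le_of_tendsto' ((hg y (hRU hy.1)).dist (hg x hx)) fun n => h2 n y hy.1
  have h5 := dist_triangle4 (g y) (g x) (F n x) (F n y)
  have h6 := h2 n y hy.1
  have h7 : 2 / R * dist y x < ε / 3 := hy.2
  rw [dist_comm] at hn h6
  linarith

theorem hurwitz (hU : IsOpen U) (hc : IsPreconnected U) {l : Filter ℕ} [l.NeBot]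
    (hF : ∀ n, DifferentiableOn ℂ (F n) U) (hne : ∀ n, ∀ z ∈ U, F n z ≠ 0)
    (h : TendstoLocallyUniformlyOn F g l U) : (∀ z ∈ U, g z ≠ 0) ∨ ∀ z ∈ U, g z = 0 := by
  refine or_iff_not_imp_left.2 fun h0 => ?_
  push Not at h0
  obtain ⟨z, hz, h0⟩ := h0
  have hg := (h.differentiableOn (Eventually.of_forall hF) hU).analyticOnNhd hU
  rcases (hg z hz).eventually_eq_zero_or_eventually_ne_zero with h1 | h1
  · exact hg.eqOn_zero_of_preconnected_of_eventuallyEq_zero hc hz h1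
  exfalso
  obtain ⟨r, hr, h2⟩ := Metric.nhds_basis_closedBall.mem_iff.1
    (inter_mem (hU.mem_nhds hz) (eventually_nhdsWithin_iff.1 h1))
  have h3 : closedBall z r ⊆ U := fun w hw => (h2 hw).1
  obtain ⟨w, hw, hm⟩ := (isCompact_sphere z r).exists_isMinOn (NormedSpace.sphere_nonempty.2 hr.le)
    (hg.continuousOn.mono (sphere_subset_closedBall.trans h3)).norm
  have h4 : 0 < ‖g w‖ / 2 := half_pos
    (norm_pos_iff.2 ((h2 (sphere_subset_closedBall hw)).2 (ne_of_mem_sphere hw hr.ne')))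
  obtain ⟨n, hn⟩ := (Metric.tendstoUniformlyOn_iff.1 ((tendstoLocallyUniformlyOn_iff_forall_isCompact
    hU).1 h _ h3 (isCompact_closedBall z r)) _ h4).exists
  have h5 : ‖(F n z)⁻¹‖ ≤ (‖g w‖ / 2)⁻¹ := by
    refine Complex.norm_le_of_forall_mem_frontier_norm_le (f := fun y => (F n y)⁻¹) isBounded_ball
      (((hF n).inv (hne n)).diffContOnCl_ball h3) (fun y hy => ?_)
      (subset_closure (mem_ball_self hr))
    rw [frontier_ball z hr.ne'] at hy
    have h6 := hn y (sphere_subset_closedBall hy)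
    have h7 : ‖g w‖ ≤ ‖g y‖ := hm hy
    have h8 := norm_sub_norm_le (g y) (F n y)
    rw [dist_eq_norm] at h6
    rw [norm_inv]
    exact inv_anti₀ h4 (by linarith)
  have h6 := hn z (mem_closedBall_self hr.le)
  rw [h0, dist_zero_left] at h6
  rw [norm_inv, inv_le_inv₀ (norm_pos_iff.2 (hne n z hz)) h4] at h5
  exact h5.not_gt h6

theorem hurwitz_inj (hU : IsOpen U) (hc : IsPreconnected U) {l : Filter ℕ} [l.NeBot]
    (hF : ∀ n, DifferentiableOn ℂ (F n) U) (hi : ∀ n, InjOn (F n) U)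
    (h : TendstoLocallyUniformlyOn F g l U) : InjOn g U ∨ ∃ c, ∀ z ∈ U, g z = c := by
  refine or_iff_not_imp_left.2 fun h0 => ?_
  simp only [InjOn, not_forall] at h0
  obtain ⟨a, ha, b, hb, e, hn⟩ := h0
  obtain ⟨r, hr, h1⟩ := Metric.isOpen_iff.1 (hU.sdiff (isClosed_singleton (x := a))) b
    ⟨hb, Ne.symm hn⟩
  have h2 : ball b r ⊆ U := fun w hw => (h1 hw).1
  have h3 := hurwitz (F := fun n w => F n w - F n a) (g := fun w => g w - g a) isOpen_ball
    (convex_ball b r).isPreconnected (fun n => ((hF n).mono h2).sub_const _)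
    (fun n w hw k => (h1 hw).2 (hi n (h2 hw) ha (sub_eq_zero.1 k))) ((h.mono h2).sub
      ((h.tendsto_at ha).tendstoUniformlyOn_const _).tendstoLocallyUniformlyOn)
  have h4 := h3.resolve_left fun k => k b (mem_ball_self hr) (sub_eq_zero.2 e.symm)
  exact ⟨g a, ((h.differentiableOn (Eventually.of_forall hF) hU).analyticOnNhd
    hU).eqOn_of_preconnected_of_eventuallyEq analyticOnNhd_const hc hb
      (mem_of_superset (ball_mem_nhds b hr) fun w hw => sub_eq_zero.1 (h4 w hw))⟩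

theorem RM1_nc (hU : IsOpen U) (hi : InjOn g U) {z : ℂ} (hz : z ∈ U) :
    ¬∀ᶠ w in 𝓝 z, g w = g z := fun h => by
  obtain ⟨w, hw, h1, h2⟩ := ((eventually_mem_nhdsWithin (a := z) (s := {z}ᶜ)).and
    ((h.and (hU.mem_nhds hz)).filter_mono nhdsWithin_le_nhds)).exists
  exact hw (hi h2 hz h1)

theorem deriv_ne_of_injOn (hU : IsOpen U) (hg : DifferentiableOn ℂ g U) (hi : InjOn g U) {z : ℂ}
    (hz : z ∈ U) : deriv g z ≠ 0 := by
  intro h0
  obtain ⟨R, hR, hRU⟩ := Metric.isOpen_iff.1 hU z hz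
  have hr := half_pos hR
  obtain ⟨t, ht, h1⟩ := exists_seq_forall_of_frequently (l := 𝓝 (0 : ℂ))
    (p := fun t => t ≠ 0 ∧ t ∈ ball 0 (R / 2))
    (((eventually_mem_nhdsWithin (a := (0 : ℂ)) (s := {0}ᶜ)).and
      (mem_nhdsWithin_of_mem_nhds (ball_mem_nhds 0 hr))).frequently.filter_mono nhdsWithin_le_nhds)
  have h2 : ball z (R / 2) ⊆ U := (ball_subset_ball (half_le_self hR.le)).trans hRU
  have h3 : ∀ n, ∀ w ∈ ball z (R / 2), w + t n ∈ U := fun n w hw => hRU (by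
    have := dist_add_add_le w (t n) z 0
    have h4 := (h1 n).2
    rw [add_zero] at this
    rw [mem_ball] at hw h4 ⊢
    linarith)
  have hg' := hg.analyticOnNhd hU
  have h4 := hurwitz (F := fun n w => (g (w + t n) - g w) / t n) (g := deriv g) (l := atTop)
    isOpen_ball (convex_ball z (R / 2)).isPreconnected
    (fun n => ((hg.comp (differentiableOn_id.add_const _) (h3 n)).sub (hg.mono h2)).div_const _)
    (fun n w hw => div_ne_zero (sub_ne_zero.2 fun k => (h1 n).1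
      (add_eq_left.1 (hi (h3 n w hw) (h2 hw) k))) (h1 n).1)
    (tendstoLocallyUniformlyOn_iff_forall_tendsto.2 fun x hx => by
      have h5 : Tendsto (fun y : ℕ × ℂ => y.2) (atTop ×ˢ 𝓝[ball z (R / 2)] x) (𝓝 x) :=
        tendsto_snd.mono_right nhdsWithin_le_nhds
      have h6 := h5.add (ht.comp tendsto_fst)
      rw [add_zero] at h6
      have h7 := (((hg' x (h2 hx)).hasStrictDerivAt.hasStrictFDerivAt.isLittleO.comp_tendsto
        (h6.prodMk_nhds h5)).tendsto_div_nhds_zero).add_const (deriv g x)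
      rw [zero_add] at h7
      refine (((hg'.deriv x (h2 hx)).continuousAt.tendsto.comp h5).prodMk_nhds
        (h7.congr fun y => ?_)).mono_right (nhds_le_uniformity _)
      have := (h1 y.1).1
      simp only [Function.comp_apply, add_sub_cancel_left,
        ContinuousLinearMap.toSpanSingleton_apply, smul_eq_mul]
      field_simp
      ring)
  have h5 := h4.resolve_left fun k => k z (mem_ball_self hr) h0
  exact RM1_nc hU hi hz (mem_of_superset (ball_mem_nhds z hr) fun w hw =>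
    isOpen_ball.is_const_of_deriv_eq_zero (convex_ball z (R / 2)).isPreconnected (hg.mono h2) h5 hw
      (mem_ball_self hr))

theorem isOpen_image_of_injOn (hU : IsOpen U) (hg : DifferentiableOn ℂ g U) (hi : InjOn g U) :
    IsOpen (g '' U) := by
  refine isOpen_iff_mem_nhds.2 ?_
  rintro _ ⟨z, hz, rfl⟩
  exact (hg.analyticOnNhd hU z hz).eventually_constant_or_nhds_le_map_nhds.resolve_left
    (RM1_nc hU hi hz) (image_mem_map (hU.mem_nhds hz))

theorem inv_diff (hU : IsOpen U) (hg : DifferentiableOn ℂ g U) (hi : InjOn g U) :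
    DifferentiableOn ℂ (Function.invFunOn g U) (g '' U) := by
  rintro _ ⟨z, hz, rfl⟩
  exact ((hg.analyticOnNhd hU z hz).hasStrictDerivAt.to_local_left_inverse
    (deriv_ne_of_injOn hU hg hi hz) (mem_of_superset (hU.mem_nhds hz) fun w hw =>
      hi.leftInvOn_invFunOn hw)).hasDerivAt.differentiableAt.differentiableWithinAt

theorem diff_of_sq (hU : IsOpen U) (hg : DifferentiableOn ℂ g U) (hne : ∀ z ∈ U, g z ≠ 0)
    {h : ℂ → ℂ} (hh : ContinuousOn h U) (hs : ∀ z ∈ U, h z ^ 2 = g z) :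
    DifferentiableOn ℂ h U := by
  intro z hz
  have h1 : HasStrictDerivAt (fun w : ℂ => w ^ 2) (2 * h z) (h z) := by
    simpa using hasStrictDerivAt_pow 2 (h z)
  have h2 : 2 * h z ≠ 0 := mul_ne_zero two_ne_zero fun e => hne z hz (by rw [← hs z hz, e]; simp)
  have h3 := (h1.to_localInverse h2).hasDerivAt.differentiableAt
  rw [hs z hz] at h3
  refine ((h3.comp z (hg.differentiableAt (hU.mem_nhds hz))).congr_of_eventuallyEq
    ?_).differentiableWithinAt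
  filter_upwards [(hh.continuousAt (hU.mem_nhds hz)).tendsto.eventually
    (h1.eventually_left_inverse h2), hU.mem_nhds hz] with w h4 hw
  rw [Function.comp_apply, ← hs w hw, h4]

end Pool.Agent.Work.MP_042f46_an
end

-- merged part: Pool.Agent.Work.MP_042f46_an.RM2
section
/-!
# The Riemann mapping theorem for bounded simply connected domains

Plan.  Family `𝓕` of injective holomorphic `g : U → ball 0 1` with `g z₀ = 0`; it contains `z ↦ c (z - z₀)` for small `c > 0` as `U` is bounded.  The numbers `‖deriv g z₀‖` are bounded (Cauchy estimate on a small ball); take a maximising sequence, `montel`, `TendstoLocallyUniformlyOn.deriv`, `hurwitz_inj`: the limit `g` is injective (its derivative at `z₀` is not zero), `‖g‖ ≤ 1`, hence `‖g‖ < 1` as the image is open (`isOpen_image_of_injOn`).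
If `a ∈ ball 0 1` is not a value: let `m c w = (w - c) / (1 - conj c * w)` (maps the ball injectively into the ball, since `‖1 - conj c w‖² - ‖w - c‖² = (1 - ‖c‖²)(1 - ‖w‖²)`; `m (-c) (m c w) = w`).  `m a ∘ g` has a holomorphic square root `s` (`Complex.exists_continuousOn_pow_eq`, `diff_of_sq`), injective with values in the ball; `G = m (s z₀) ∘ s ∈ 𝓕`.  Direct computation: with `b = s z₀`, `b² = -a`, `2 b s'(z₀) = (1 - ‖a‖²) g'(z₀)`, `G'(z₀) = s'(z₀) / (1 - ‖b‖²)`, so `‖G'(z₀)‖ = (1 + ‖b‖²) / (2 ‖b‖) * ‖g'(z₀)‖ > ‖g'(z₀)‖` as `0 < ‖b‖ < 1`.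
-/

open Set Metric Topology Filter

namespace Pool.Agent.Work.MP_042f46_an

/-- automorphisms of the disc -/
noncomputable def RM2_m (c w : ℂ) : ℂ := (w - c) / (1 - starRingEnd ℂ c * w)

theorem RM2_den {c w : ℂ} (hc : ‖c‖ < 1) (hw : ‖w‖ < 1) : 1 - starRingEnd ℂ c * w ≠ 0 := by
  refine sub_ne_zero.2 fun h => ?_
  have h1 := congrArg norm h
  rw [norm_mul, Complex.norm_conj, norm_one] at h1
  exact (mul_lt_one_of_nonneg_of_lt_one_left (norm_nonneg c) hc hw.le).ne h1.symm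

theorem RM2_lt {c w : ℂ} (hc : ‖c‖ < 1) (hw : ‖w‖ < 1) : ‖RM2_m c w‖ < 1 := by
  rw [RM2_m, norm_div, div_lt_one (norm_pos_iff.2 (RM2_den hc hw))]
  refine lt_of_pow_lt_pow_left₀ 2 (norm_nonneg _) (sub_pos.1 ?_)
  have h : ‖1 - starRingEnd ℂ c * w‖ ^ 2 - ‖w - c‖ ^ 2 = (1 - ‖c‖ ^ 2) * (1 - ‖w‖ ^ 2) := by
    simp only [Complex.sq_norm, Complex.normSq_apply, Complex.sub_re, Complex.sub_im,
      Complex.mul_re, Complex.mul_im, Complex.one_re, Complex.one_im, Complex.conj_re,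
      Complex.conj_im]
    ring
  rw [h]
  exact mul_pos (sub_pos.2 (pow_lt_one₀ (norm_nonneg _) hc two_ne_zero))
    (sub_pos.2 (pow_lt_one₀ (norm_nonneg _) hw two_ne_zero))

theorem RM2_inj {c w w' : ℂ} (hc : ‖c‖ < 1) (hw : ‖w‖ < 1) (hw' : ‖w'‖ < 1)
    (h : RM2_m c w = RM2_m c w') : w = w' := by
  rw [RM2_m, RM2_m, div_eq_div_iff (RM2_den hc hw) (RM2_den hc hw')] at h
  exact mul_right_cancel₀ (RM2_den hc hc) (by linear_combination h)

theorem RM2_der {c w : ℂ} (hc : ‖c‖ < 1) (hw : ‖w‖ < 1) :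
    HasDerivAt (RM2_m c) ((1 - starRingEnd ℂ c * c) / (1 - starRingEnd ℂ c * w) ^ 2) w := by
  have h := ((hasDerivAt_id' w).sub_const c).div
    (((hasDerivAt_id' w).const_mul (starRingEnd ℂ c)).const_sub 1) (RM2_den hc hw)
  exact h.congr_deriv (congrArg (· / _) (by ring))

theorem RM2_norm {c : ℂ} (hc : ‖c‖ < 1) : ‖1 - starRingEnd ℂ c * c‖ = 1 - ‖c‖ ^ 2 := by
  rw [Complex.conj_mul', ← Complex.norm_of_nonneg
    (sub_pos.2 (pow_lt_one₀ (norm_nonneg _) hc two_ne_zero)).le]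
  push_cast
  rfl

/-- the competitors -/
def RM2_P (U : Set ℂ) (z₀ : ℂ) (g : ℂ → ℂ) : Prop :=
  DifferentiableOn ℂ g U ∧ InjOn g U ∧ (∀ z ∈ U, ‖g z‖ < 1) ∧ g z₀ = 0

theorem RM2_step {U : Set ℂ} (hU : IsOpen U) (hs : IsSimplyConnected U) {z₀ : ℂ} (hz : z₀ ∈ U)
    {g : ℂ → ℂ} (hg : RM2_P U z₀ g) {a : ℂ} (ha : ‖a‖ < 1) (hn : a ∉ g '' U) :
    ∃ G, RM2_P U z₀ G ∧ ‖deriv g z₀‖ < ‖deriv G z₀‖ := by
  obtain ⟨h1, h2, h3, h4⟩ := hg
  have k1 : DifferentiableOn ℂ (fun z => RM2_m a (g z)) U := fun z h =>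
    (RM2_der ha (h3 z h)).differentiableAt.comp_differentiableWithinAt z (h1 z h)
  have k2 : ∀ z ∈ U, RM2_m a (g z) ≠ 0 := fun z h =>
    div_ne_zero (sub_ne_zero.2 fun e => hn ⟨z, h, e⟩) (RM2_den ha (h3 z h))
  obtain ⟨s, sc, hs2⟩ := Complex.exists_continuousOn_pow_eq hs hU k1.continuousOn
    (fun ⟨z, h, e⟩ => k2 z h e) two_ne_zero
  have s1 := diff_of_sq hU k1 k2 sc fun z _ => hs2 z
  have s2 : ∀ z ∈ U, ‖s z‖ < 1 := fun z h => lt_of_pow_lt_pow_left₀ 2 zero_le_one (by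
    rw [← norm_pow, hs2, one_pow]
    exact RM2_lt ha (h3 z h))
  have hb := s2 z₀ hz
  refine ⟨fun z => RM2_m (s z₀) (s z), ⟨fun z h =>
    (RM2_der hb (s2 z h)).differentiableAt.comp_differentiableWithinAt z (s1 z h),
    fun x hx y hy e => h2 hx hy (RM2_inj ha (h3 x hx) (h3 y hy) ?_), fun z h => RM2_lt hb (s2 z h),
    by simp [RM2_m]⟩, ?_⟩
  · rw [← hs2, ← hs2, RM2_inj hb (s2 x hx) (s2 y hy) e]
  have dg := (h1.differentiableAt (hU.mem_nhds hz)).hasDerivAt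
  have ds := (s1.differentiableAt (hU.mem_nhds hz)).hasDerivAt
  have e1 := congrArg norm ((ds.fun_pow 2).unique
    (((RM2_der ha (h3 z₀ hz)).comp z₀ dg).congr_of_eventuallyEq (Eventually.of_forall hs2)))
  have e2 : ‖a‖ = ‖s z₀‖ ^ 2 := by
    rw [← norm_pow, hs2, h4, RM2_m, mul_zero, sub_zero, div_one, zero_sub, norm_neg]
  have e3 : 0 < ‖s z₀‖ := norm_pos_iff.2 fun e => k2 z₀ hz (by rw [← hs2, e]; ring)
  have e4 := norm_pos_iff.2 (deriv_ne_of_injOn hU h1 h2 hz)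
  have e5 : 0 < 1 - ‖s z₀‖ ^ 2 := sub_pos.2 (pow_lt_one₀ (norm_nonneg _) hb two_ne_zero)
  rw [h4, mul_zero, sub_zero, one_pow, div_one, norm_mul, norm_mul, norm_mul, RM2_norm ha, e2,
    Complex.norm_natCast, show 2 - 1 = 1 from rfl, pow_one, Nat.cast_ofNat] at e1
  rw [show deriv (fun z => RM2_m (s z₀) (s z)) z₀ = _ from ((RM2_der hb hb).comp z₀ ds).deriv,
    norm_mul, norm_div, norm_pow, RM2_norm hb, pow_two (1 - _), div_mul_cancel_left₀ e5.ne',
    lt_inv_mul_iff₀ e5]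
  refine lt_of_mul_lt_mul_left (a := 2 * ‖s z₀‖) ?_ (by positivity)
  rw [e1]
  have e6 := mul_pos (mul_pos e5 e4) (pow_pos (sub_pos.2 hb) 2)
  linarith

theorem rmt {U : Set ℂ} (hU : IsOpen U) (hs : IsSimplyConnected U) (hb : Bornology.IsBounded U)
    {z₀ : ℂ} (hz : z₀ ∈ U) :
    ∃ g : ℂ → ℂ, DifferentiableOn ℂ g U ∧ InjOn g U ∧ g '' U = ball 0 1 ∧ g z₀ = 0 := by
  obtain ⟨R, hR, hUR⟩ := hb.subset_ball_lt 0 z₀
  obtain ⟨r, hr, hUr⟩ := Metric.isOpen_iff.1 hU z₀ hz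
  have hR' : (R : ℂ) ≠ 0 := Complex.ofReal_ne_zero.2 hR.ne'
  have h0 : RM2_P U z₀ fun z => (z - z₀) / R :=
    ⟨by fun_prop, fun x _ y _ h => sub_left_injective ((div_left_inj' hR').1 h), fun z h => by
      rw [norm_div, Complex.norm_of_nonneg hR.le, div_lt_one hR]
      exact mem_ball_iff_norm.1 (hUR h), by simp⟩
  let S : Set ℝ := {t | ∃ g, RM2_P U z₀ g ∧ ‖deriv g z₀‖ = t}
  have hS : BddAbove S := ⟨1 / r, by
    rintro _ ⟨g, hg, rfl⟩
    refine Complex.norm_deriv_le_div_of_mapsTo_ball (hg.1.mono hUr) (fun z h => ?_) hr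
    rw [hg.2.2.2]
    exact mem_closedBall_zero_iff.2 (hg.2.2.1 z (hUr h)).le⟩
  obtain ⟨u, -, hu, hF⟩ := exists_seq_tendsto_sSup (S := S) ⟨_, _, h0, rfl⟩ hS
  choose F hF eF using hF
  obtain ⟨g, l, hl, hl', hg⟩ := montel hU (fun n => (hF n).1) fun n z h => ((hF n).2.2.1 z h).le
  have hd := hg.differentiableOn (Eventually.of_forall fun n => (hF n).1) hU
  have h1 : ‖deriv g z₀‖ = sSup S := tendsto_nhds_unique
    (((hg.deriv (Eventually.of_forall fun n => (hF n).1) hU).tendsto_at hz).norm.congr eF)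
    (hu.mono_left hl')
  have h2 : deriv g z₀ ≠ 0 := norm_pos_iff.1 ((norm_pos_iff.2
    (deriv_ne_of_injOn hU h0.1 h0.2.1 hz)).trans_le ((le_csSup hS ⟨_, h0, rfl⟩).trans h1.ge))
  have h3 : InjOn g U := (hurwitz_inj hU hs.isPathConnected.isConnected.isPreconnected
    (fun n => (hF n).1) (fun n => (hF n).2.1) hg).resolve_right fun ⟨c, hc⟩ => h2 (by
      rw [Filter.EventuallyEq.deriv_eq (f := fun _ => c) (mem_of_superset (hU.mem_nhds hz) hc),
        deriv_const])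
  have h4 : g z₀ = 0 :=
    tendsto_nhds_unique ((hg.tendsto_at hz).congr fun n => (hF n).2.2.2) tendsto_const_nhds
  have h5 : g '' U ⊆ ball 0 1 := by
    rw [← interior_closedBall (0 : ℂ) one_ne_zero]
    refine interior_maximal ?_ (isOpen_image_of_injOn hU hd h3)
    rintro _ ⟨z, h, rfl⟩
    exact mem_closedBall_zero_iff.2
      (le_of_tendsto' (hg.tendsto_at h).norm fun n => ((hF n).2.2.1 z h).le)
  refine ⟨g, hd, h3, h5.antisymm fun a ha => by_contra fun h => ?_, h4⟩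
  obtain ⟨G, hG, h6⟩ := RM2_step hU hs hz
    ⟨hd, h3, fun z h => mem_ball_zero_iff.1 (h5 ⟨z, h, rfl⟩), h4⟩ (mem_ball_zero_iff.1 ha) h
  exact h6.not_ge ((le_csSup hS ⟨G, hG, rfl⟩).trans h1.ge)

end Pool.Agent.Work.MP_042f46_an
end

-- merged part: Pool.Agent.Work.MP_042f46_an.RM3
section
/-!
# Reflection in the unit circle

Plan (any proof is fine).  Fix `r₀ < r₁ < 1`.  `G w = w * deriv h w / h w` is holomorphic on the annulus.  Laurent splitting: for `r₁ < ‖w‖ < s < 1`, `G w = G₊ w - G₋ w` with `G₊ w = (2πi)⁻¹ ∮_{s} G ζ / (ζ - w)` (independent of `s`, holomorphic in the unit ball) and `G₋ w = (2πi)⁻¹ ∮_{r₁} G ζ / (ζ - w)` (holomorphic for `‖w‖ > r₁`, `O(1/w)` at infinity): apply `Complex.circleIntegral_eq_of_differentiable_on_annulus_off_countable` to `dslope G w`.  Simpler: DEFINE `G₊ = G + G₋` on the annulus and only show that it extends holomorphically to the unit ball.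
With `c = G₊ 0`, primitives `A` of `(G₊ w - c) / w` on the unit ball and `B` (in the variable `u = 1 / w`, on the ball of radius `1 / r₁`) give `log ‖h w‖ = Re (c) log ‖w‖ + Re (A w) + Re (B (1 / w)) + const`, and `c` is an integer (or at least real: `exp` of the period of `h'/h` is `1`).  Put `B* w = conj (B (conj w))`, holomorphic on the ball of radius `1 / r₁`; for `‖w‖ → 1` the numbers `Re B (1 / w)` and `Re B* w` come uniformly close.  So `Re (A + B*)` tends to a constant uniformly as `‖w‖ → 1`; the maximum principle for `exp (± (A + B*))` shows that `A + B*` is constant, so `A` extends to the ball of radius `1 / r₁`, and `H = C * w ^ c * exp (A w + B (1 / w))`.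
Alternative plan: in the coordinate `w = exp (i z)` take a logarithm `L` on the strip, show `|Re L - log ρ| ≤ C Im z` by the maximum principle, hence `L'` bounded (Borel-Caratheodory or Cauchy), extend continuously, reflect and use Morera (`Complex.isConservativeOn_and_continuousOn_iff_isDifferentiableOn`).
The symmetry `H (1 / conj w) * conj (H w) = ρ ^ 2` follows from the identity theorem (both sides agree on the circle) or from the formula.
-/

open Set Metric Topology Filter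

namespace Pool.Agent.Work.MP_042f46_an

open Complex in
theorem RM3_inv (f : ℂ → ℂ) {r : ℝ} (hr : r ≠ 0) :
    ∮ z in C(0, r), f z = ∮ z in C(0, r⁻¹), z⁻¹ ^ 2 * f z⁻¹ := by
  unfold circleIntegral
  have e := intervalIntegral.integral_comp_sub_left (a := 0) (b := 2 * Real.pi)
    (fun θ => deriv (circleMap 0 r) θ • f (circleMap 0 r θ)) (2 * Real.pi)
  rw [sub_self, sub_zero] at e
  rw [← e]
  refine intervalIntegral.integral_congr fun θ _ => ?_
  have h1 : circleMap 0 r (2 * Real.pi - θ) = (circleMap 0 r⁻¹ θ)⁻¹ := by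
    rw [circleMap_zero_inv, inv_inv, sub_eq_add_neg, add_comm, periodic_circleMap]
  have h2 : circleMap 0 r⁻¹ θ ≠ 0 := circleMap_ne_center (inv_ne_zero hr)
  simp only [deriv_circleMap, h1, smul_eq_mul]
  field_simp

open Complex in
theorem RM3_cauchy {f : ℂ → ℂ} {R : ℝ} (hR : 0 < R) (hf : ContinuousOn f (sphere 0 R)) :
    DifferentiableOn ℂ (fun w => (2 * Real.pi * I)⁻¹ • ∮ z in C(0, R), (z - w)⁻¹ • f z)
      (ball 0 R) := by
  lift R to NNReal using hR.le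
  have h := (hasFPowerSeriesOn_cauchy_integral (hf.circleIntegrable hR.le)
    (by exact_mod_cast hR)).differentiableOn
  rwa [Metric.eball_coe] at h

theorem RM3_dslope {g : ℂ → ℂ} {R : ℝ} (hR : 0 ≤ R) (hg : ContinuousOn g (sphere 0 R)) {w : ℂ}
    (hw : ‖w‖ ≠ R) : ∮ z in C(0, R), dslope g w z =
      (∮ z in C(0, R), (z - w)⁻¹ • g z) - (∮ z in C(0, R), (z - w)⁻¹) • g w := by
  have h1 : ∀ z ∈ sphere (0 : ℂ) R, z ≠ w := by
    rintro z hz rfl
    exact hw (mem_sphere_zero_iff_norm.1 hz)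
  have h2 : ContinuousOn (fun z : ℂ => (z - w)⁻¹) (sphere 0 R) :=
    (continuousOn_id.sub continuousOn_const).inv₀ fun z hz => sub_ne_zero.2 (h1 z hz)
  have h3 : ContinuousOn (fun z : ℂ => (z - w)⁻¹ • g z) (sphere 0 R) := h2.smul hg
  have h4 : ContinuousOn (fun z : ℂ => (z - w)⁻¹ • g w) (sphere 0 R) := h2.smul continuousOn_const
  rw [← circleIntegral.integral_smul_const, ← circleIntegral.integral_sub
    (h3.circleIntegrable hR) (h4.circleIntegrable hR)]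
  refine circleIntegral.integral_congr hR fun z hz => ?_
  simp only [dslope_of_ne g (h1 z hz), slope, vsub_eq_sub, smul_sub]

theorem RM3_open (a b : ℝ) : IsOpen {w : ℂ | a < ‖w‖ ∧ ‖w‖ < b} :=
  (isOpen_lt continuous_const continuous_norm).inter (isOpen_lt continuous_norm continuous_const)

theorem RM3_mem_inv {r : ℝ} (h0 : 0 < r) {w : ℂ} (hw : r < ‖w‖) : w⁻¹ ∈ ball (0 : ℂ) r⁻¹ := by
  rw [mem_ball_zero_iff, norm_inv]
  exact inv_strictAnti₀ h0 hw

open Complex in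
/-- Laurent splitting -/
theorem RM3_split {g : ℂ → ℂ} {r₀ r : ℝ} (h0 : 0 < r) (h1 : r₀ < r) (h2 : r < 1)
    (hg : DifferentiableOn ℂ g {w | r₀ < ‖w‖ ∧ ‖w‖ < 1}) :
    ∃ P M : ℂ → ℂ, DifferentiableOn ℂ P (ball 0 1) ∧ DifferentiableOn ℂ M (ball 0 r⁻¹) ∧
      ∀ w, r < ‖w‖ → ‖w‖ < 1 → g w = P w + w⁻¹ * M w⁻¹ := by
  have hU := RM3_open r₀ 1
  obtain ⟨s, hs1, hs2⟩ := exists_between h2
  have hc : ∀ t, r₀ < t → t < 1 → ContinuousOn g (sphere 0 t) := fun t a b =>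
    hg.continuousOn.mono fun z hz => by
      rw [mem_sphere_zero_iff_norm] at hz
      exact ⟨hz ▸ a, hz ▸ b⟩
  have hr' : 0 < r⁻¹ := inv_pos.2 h0
  have hz0 : ∀ z ∈ sphere (0 : ℂ) r⁻¹, z ≠ 0 := fun z hz => ne_zero_of_mem_sphere hr'.ne' ⟨z, hz⟩
  have hM := RM3_cauchy (f := fun z => z⁻¹ * g z⁻¹) hr'
    ((continuousOn_id.inv₀ hz0).mul ((hc r h1 h2).comp (continuousOn_id.inv₀ hz0) fun z hz => by
      rw [mem_sphere_zero_iff_norm] at hz ⊢
      simp [hz]))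
  have hC := RM3_cauchy (h0.trans hs1) (hc s (h1.trans hs1) hs2)
  generalize hM' : (fun w => (2 * Real.pi * I)⁻¹ •
    ∮ z in C(0, r⁻¹), (z - w)⁻¹ • (z⁻¹ * g z⁻¹)) = M at hM
  generalize hC' : (fun w => (2 * Real.pi * I)⁻¹ • ∮ z in C(0, s), (z - w)⁻¹ • g z) = C at hC
  have key : ∀ w, r < ‖w‖ → ‖w‖ < s → g w - w⁻¹ * M w⁻¹ = C w := by
    intro w a b
    have hw0 : w ≠ 0 := norm_pos_iff.1 (h0.trans a)
    have hd := (differentiableOn_dslope (hU.mem_nhds ⟨h1.trans a, b.trans hs2⟩)).2 hg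
    have hsub : closedBall (0 : ℂ) s \ ball 0 r ⊆ {w | r₀ < ‖w‖ ∧ ‖w‖ < 1} := fun z hz =>
      ⟨h1.trans_le (not_lt.1 fun k => hz.2 (mem_ball_zero_iff.2 k)),
        (mem_closedBall_zero_iff.1 hz.1).trans_lt hs2⟩
    have e := circleIntegral_eq_of_differentiable_on_annulus_off_countable h0 hs1.le
      countable_empty (hd.continuousOn.mono hsub) fun z hz =>
        hd.differentiableAt (hU.mem_nhds (hsub ⟨ball_subset_closedBall hz.1.1,
          fun k => hz.1.2 (ball_subset_closedBall k)⟩))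
    have e0 : ∮ z in C(0, r), (z - w)⁻¹ = 0 := by
      refine DiffContOnCl.circleIntegral_eq_zero h0.le (DifferentiableOn.diffContOnCl ?_)
      refine (differentiableOn_id.sub (differentiableOn_const w)).inv fun z hz => ?_
      rw [closure_ball _ h0.ne', mem_closedBall_zero_iff] at hz
      exact sub_ne_zero.2 fun k => (hz.trans_lt a).ne (congrArg norm k)
    have e1 : ∮ z in C(0, r), (z - w)⁻¹ • g z =
        -w⁻¹ * ∮ z in C(0, r⁻¹), (z - w⁻¹)⁻¹ • (z⁻¹ * g z⁻¹) := by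
      rw [RM3_inv _ h0.ne', ← circleIntegral.integral_const_mul]
      refine circleIntegral.integral_congr hr'.le fun z hz => ?_
      have z0 := hz0 z hz
      have z1 : z - w⁻¹ ≠ 0 := sub_ne_zero.2 fun k => by
        have := mem_ball_zero_iff.1 (RM3_mem_inv h0 a)
        rw [← k, mem_sphere_zero_iff_norm.1 hz] at this
        exact this.false
      have z2 : z⁻¹ - w = -(w * z⁻¹) * (z - w⁻¹) := by field_simp; ring
      simp only [smul_eq_mul, z2]
      field_simp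
    rw [RM3_dslope (h0.trans hs1).le (hc s (h1.trans hs1) hs2) b.ne,
      RM3_dslope h0.le (hc r h1 h2) a.ne', e0, e1,
      circleIntegral.integral_sub_inv_of_mem_ball (mem_ball_zero_iff.2 b)] at e
    rw [← hM', ← hC']
    have p0 : (2 * Real.pi * I : ℂ) ≠ 0 := two_pi_I_ne_zero
    simp only [smul_eq_mul, zero_mul, sub_zero] at e ⊢
    rw [sub_eq_iff_eq_add] at e
    rw [e]
    field_simp
    ring
  refine ⟨fun w => if ‖w‖ ≤ r then C w else g w - w⁻¹ * M w⁻¹, M, fun w hw => ?_, hM,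
    fun w a _ => by simp [a.not_ge]⟩
  refine DifferentiableAt.differentiableWithinAt ?_
  rcases lt_or_ge ‖w‖ s with b | b
  · have hb := isOpen_ball.mem_nhds (mem_ball_zero_iff.2 b)
    refine (hC.differentiableAt hb).congr_of_eventuallyEq (eventually_of_mem hb fun z hz => ?_)
    dsimp only
    split_ifs with k
    · rfl
    · exact key z (not_le.1 k) (mem_ball_zero_iff.1 hz)
  · have a := hs1.trans_le b
    have hw0 : w ≠ 0 := norm_pos_iff.1 (h0.trans a)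
    have d1 := hg.differentiableAt (hU.mem_nhds ⟨h1.trans a, mem_ball_zero_iff.1 hw⟩)
    have d2 : DifferentiableAt ℂ (fun z : ℂ => z⁻¹) w := differentiableAt_inv hw0
    have d3 := (hM.differentiableAt (isOpen_ball.mem_nhds (RM3_mem_inv h0 a))).comp w d2
    refine (d1.sub (d2.mul d3)).congr_of_eventuallyEq
      (eventually_of_mem ((isOpen_lt continuous_const continuous_norm).mem_nhds a) fun z hz => ?_)
    exact if_neg (not_le.2 hz)

open Complex in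
/-- the multiplicative form of the splitting -/
theorem RM3_struct {h : ℂ → ℂ} {r₀ r : ℝ} (h0 : 0 < r) (h1 : r₀ < r) (h2 : r < 1)
    (hh : DifferentiableOn ℂ h {w | r₀ < ‖w‖ ∧ ‖w‖ < 1})
    (hne : ∀ w, r₀ < ‖w‖ → ‖w‖ < 1 → h w ≠ 0) :
    ∃ (n : ℤ) (A B : ℂ → ℂ), DifferentiableOn ℂ A (ball 0 1) ∧
      DifferentiableOn ℂ B (ball 0 r⁻¹) ∧
      ∀ w, r < ‖w‖ → ‖w‖ < 1 → h w = w ^ n * exp (A w + B w⁻¹) := by
  have hU := RM3_open r₀ 1
  obtain ⟨P, M, hP, hM, e⟩ := RM3_split h0 h1 h2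
    ((hh.deriv hU).div hh fun w hw => hne w hw.1 hw.2)
  obtain ⟨A, hA⟩ := hP.isExactOn_ball
  obtain ⟨B, hB⟩ := ((differentiableOn_dslope (ball_mem_nhds 0 (inv_pos.2 h0))).2
    hM).neg.isExactOn_ball
  have hS : IsOpen {z : ℂ | Real.log r < z.re ∧ z.re < 0} :=
    (isOpen_lt continuous_const continuous_re).inter (isOpen_lt continuous_re continuous_const)
  have hS' : Convex ℝ {z : ℂ | Real.log r < z.re ∧ z.re < 0} :=
    (convex_halfSpace_re_gt _).inter (convex_halfSpace_re_lt _)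
  have hn : ∀ z : ℂ, Real.log r < z.re ∧ z.re < 0 → r < ‖exp z‖ ∧ ‖exp z‖ < 1 := fun z hz => by
    rw [norm_exp]
    exact ⟨(Real.log_lt_iff_lt_exp h0).1 hz.1, Real.exp_lt_one_iff.2 hz.2⟩
  have hd : ∀ z : ℂ, Real.log r < z.re ∧ z.re < 0 → HasDerivAt
      (fun z => h (exp z) * exp (-(A (exp z) + B (exp (-z)) + M 0 * z))) 0 z := by
    intro z hz
    obtain ⟨a, b⟩ := hn z hz
    have d1 := ((hh.differentiableAt (hU.mem_nhds ⟨h1.trans a, b⟩)).hasDerivAt).comp z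
      (hasDerivAt_exp z)
    have d2 := (hA _ (mem_ball_zero_iff.2 b)).comp z (hasDerivAt_exp z)
    have d3 := (hB (exp (-z)) (by rw [exp_neg]; exact RM3_mem_inv h0 a)).comp z
      (hasDerivAt_neg z).cexp
    have d4 := (hasDerivAt_id z).const_mul (M 0)
    have d5 := d1.mul ((d2.add d3).add d4).neg.cexp
    have e1 := e _ a b
    have e2 := sub_smul_dslope M 0 (exp z)⁻¹
    have e3 := hne _ (h1.trans a) b
    have e4 := exp_ne_zero z
    rw [Pi.div_apply, div_eq_iff e3] at e1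
    rw [sub_zero, smul_eq_mul, eq_sub_iff_add_eq] at e2
    refine HasDerivAt.congr_deriv d5 ?_
    simp only [Function.comp_apply, Pi.neg_apply, exp_neg z, e1, ← e2]
    field_simp
    ring
  obtain ⟨a, ha⟩ := hS.exists_is_const_of_deriv_eq_zero hS'.isPreconnected
    (fun z hz => (hd z hz).differentiableAt.differentiableWithinAt) fun z hz => (hd z hz).deriv
  obtain ⟨t, t1, t2⟩ := exists_between (Real.log_neg h0 h2)
  have a1 := ha t (by simp [t1, t2])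
  have a2 := ha (t + 2 * Real.pi * I) (by simp [t1, t2])
  have ht := hn t (by simp [t1, t2])
  have a0 : a ≠ 0 := a1 ▸ mul_ne_zero (hne _ (h1.trans ht.1) ht.2) (exp_ne_zero _)
  have a3 : exp (M 0 * (2 * Real.pi * I)) = 1 := by
    rw [exp_neg (t + _), exp_periodic t, ← exp_neg, mul_add, ← add_assoc, neg_add, exp_add,
      ← mul_assoc, a1, mul_eq_left₀ a0, exp_neg, inv_eq_one] at a2
    exact a2
  obtain ⟨n, hn'⟩ := exp_eq_one_iff.1 a3
  have hn'' : M 0 = n := mul_right_cancel₀ two_pi_I_ne_zero hn'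
  refine ⟨n, fun w => log a + A w, B, fun w hw => ?_,
    fun w hw => (hB w hw).differentiableAt.differentiableWithinAt, fun w b c => ?_⟩
  · exact ((hA w hw).differentiableAt.const_add _).differentiableWithinAt
  · have w0 : w ≠ 0 := norm_pos_iff.1 (h0.trans b)
    have a4 := ha (log w) (by
      rw [mem_ofPred_eq, log_re]
      exact ⟨Real.log_lt_log h0 b, Real.log_neg (h0.trans b) c⟩)
    rw [exp_neg (log w), exp_log w0, hn'', exp_neg, exp_add, exp_int_mul, exp_log w0,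
      mul_inv_eq_iff_eq_mul₀ (mul_ne_zero (exp_ne_zero _) (zpow_ne_zero _ w0))] at a4
    rw [a4, add_assoc, exp_add (log a), exp_log a0]
    ring

open Complex in
theorem RM3_max {F : ℂ → ℂ} {c : ℝ} (hF : DifferentiableOn ℂ F (ball 0 1))
    (h : ∀ ε > 0, ∃ r < 1, ∀ w, r < ‖w‖ → ‖w‖ < 1 → (F w).re ≤ c + ε) :
    ∀ z ∈ ball (0 : ℂ) 1, (F z).re ≤ c := by
  intro z hz
  refine le_of_forall_pos_le_add fun ε hε => ?_
  obtain ⟨r, hr, h1⟩ := h ε hε
  obtain ⟨s, s1, s2⟩ := exists_between (max_lt hr (mem_ball_zero_iff.1 hz))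
  rw [max_lt_iff] at s1
  have s0 : 0 < s := (norm_nonneg z).trans_lt s1.2
  have h2 := norm_le_of_forall_mem_frontier_norm_le (f := fun w => exp (F w)) (U := ball 0 s)
    (C := Real.exp (c + ε)) isBounded_ball (DifferentiableOn.diffContOnCl (by
      rw [closure_ball _ s0.ne']
      exact hF.cexp.mono (closedBall_subset_ball s2))) (fun w hw => by
      rw [frontier_ball _ s0.ne', mem_sphere_zero_iff_norm] at hw
      rw [norm_exp]
      exact Real.exp_le_exp.2 (h1 w (hw ▸ s1.1) (hw ▸ s2)))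
    (subset_closure (mem_ball_zero_iff.2 s1.2))
  rwa [norm_exp, Real.exp_le_exp] at h2

theorem RM3_unif {E : ℂ → ℝ} (hc : ∀ w, ‖w‖ = 1 → ContinuousAt E w)
    (h0 : ∀ w, ‖w‖ = 1 → E w = 0) {ε : ℝ} (hε : 0 < ε) :
    ∃ r < 1, ∀ w, r < ‖w‖ → ‖w‖ < 1 → |E w| < ε := by
  have h1 := (isClosedMap_dist (0 : ℂ)).eventually_nhds_fiber (p := fun w => |E w| < ε) 1
    fun w hw => by
      have h2 : ‖w‖ = 1 := by simpa using hw
      exact (hc w h2).abs.eventually_lt continuousAt_const (by rw [h0 w h2, abs_zero]; exact hε)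
  obtain ⟨δ, hδ, h2⟩ := Metric.eventually_nhds_iff.1 h1
  refine ⟨1 - δ, by linarith, fun w a b => h2 (y := ‖w‖) ?_ w (by simp)⟩
  rw [Real.dist_eq, abs_lt]
  constructor <;> linarith

theorem reflect_circle {h : ℂ → ℂ} {r₀ ρ : ℝ} (h0 : 0 < r₀) (h1 : r₀ < 1) (hρ : 0 < ρ)
    (hh : DifferentiableOn ℂ h {w | r₀ < ‖w‖ ∧ ‖w‖ < 1})
    (hne : ∀ w, r₀ < ‖w‖ → ‖w‖ < 1 → h w ≠ 0)
    (hl : ∀ ε > 0, ∃ r < 1, ∀ w, r < ‖w‖ → ‖w‖ < 1 → |‖h w‖ - ρ| < ε) :
    ∃ (H : ℂ → ℂ) (R : ℝ), 1 < R ∧ r₀ < R⁻¹ ∧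
      DifferentiableOn ℂ H {w | R⁻¹ < ‖w‖ ∧ ‖w‖ < R} ∧
      (∀ w, R⁻¹ < ‖w‖ → ‖w‖ < 1 → H w = h w) ∧
      ∀ w, R⁻¹ < ‖w‖ → ‖w‖ < R →
        H ((starRingEnd ℂ) w)⁻¹ * (starRingEnd ℂ) (H w) = (ρ : ℂ) ^ 2 := by
  obtain ⟨r, r1, r2⟩ := exists_between h1
  have r0 : 0 < r := h0.trans r1
  have r3 : 1 < r⁻¹ := (one_lt_inv₀ r0).2 r2
  obtain ⟨n, A, B, hA, hB, e⟩ := RM3_struct r0 r1 r2 hh hne
  have hBa : ∀ w : ℂ, ‖w‖ < r⁻¹ → DifferentiableAt ℂ B w := fun w hw =>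
    hB.differentiableAt (isOpen_ball.mem_nhds (mem_ball_zero_iff.2 hw))
  have hB' : ∀ w : ℂ, ‖w‖ < r⁻¹ →
      DifferentiableAt ℂ (fun z => (starRingEnd ℂ) (B ((starRingEnd ℂ) z))) w := fun w hw => by
    have := (hBa ((starRingEnd ℂ) w) (by rwa [Complex.norm_conj])).conj_conj
    rwa [Complex.conj_conj] at this
  have hF : DifferentiableOn ℂ (fun z => A z + (starRingEnd ℂ) (B ((starRingEnd ℂ) z)))
      (ball 0 1) := hA.add fun w hw =>
    (hB' w ((mem_ball_zero_iff.1 hw).trans r3)).differentiableWithinAt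
  have key : ∀ ε > 0, ∃ s < 1, ∀ w, s < ‖w‖ → ‖w‖ < 1 →
      |(A w + (starRingEnd ℂ) (B ((starRingEnd ℂ) w))).re - Real.log ρ| < ε := by
    intro ε hε
    obtain ⟨δ, hδ, k1⟩ := Metric.continuousAt_iff.1 (Real.continuousAt_log hρ.ne') _ (half_pos hε)
    obtain ⟨s1, k2, k3⟩ := hl δ hδ
    obtain ⟨s2, k4, k5⟩ := RM3_unif (E := fun w => (B ((starRingEnd ℂ) w)).re - (B w⁻¹).re -
      n * Real.log ‖w‖) (fun w hw => by
        have w0 : w ≠ 0 := norm_ne_zero_iff.1 (hw ▸ one_ne_zero)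
        refine ((Complex.continuous_re.continuousAt.comp (ContinuousAt.comp
          (hBa _ (by rwa [Complex.norm_conj, hw])).continuousAt
          Complex.continuous_conj.continuousAt)).sub
          (Complex.continuous_re.continuousAt.comp (ContinuousAt.comp
            (hBa _ (by rwa [norm_inv, hw, inv_one])).continuousAt (continuousAt_inv₀ w0)))).sub
          (continuousAt_const.mul ((Real.continuousAt_log (hw ▸ one_ne_zero)).comp
            continuous_norm.continuousAt)))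
      (fun w hw => by simp [hw, ← Complex.inv_eq_conj hw]) (half_pos hε)
    refine ⟨max r (max s1 s2), max_lt r2 (max_lt k2 k4), fun w a b => ?_⟩
    simp only [max_lt_iff] at a
    have w0 : ‖w‖ ≠ 0 := (r0.trans a.1).ne'
    have k6 := k1 (x := ‖h w‖) (k3 w a.2.1 b)
    have k7 := k5 w a.2.2 b
    rw [Real.dist_eq, e w a.1 b, norm_mul, norm_zpow, Complex.norm_exp,
      Real.log_mul (zpow_ne_zero _ w0) (Real.exp_ne_zero _), Real.log_zpow, Real.log_exp,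
      Complex.add_re] at k6
    rw [Complex.add_re, Complex.conj_re]
    rw [abs_lt] at k6 k7 ⊢
    constructor <;> linarith [k6.1, k6.2, k7.1, k7.2]
  have m1 := RM3_max (c := Real.log ρ) hF fun ε hε => (key ε hε).imp fun s hs =>
    ⟨hs.1, fun w a b => by linarith [(abs_lt.1 (hs.2 w a b)).2]⟩
  have m2 := RM3_max (c := -Real.log ρ) hF.neg fun ε hε => (key ε hε).imp fun s hs =>
    ⟨hs.1, fun w a b => by
      rw [Pi.neg_apply, Complex.neg_re]
      linarith [(abs_lt.1 (hs.2 w a b)).1]⟩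
  have m3 : ∀ z ∈ ball (0 : ℂ) 1,
      (A z + (starRingEnd ℂ) (B ((starRingEnd ℂ) z))).re = Real.log ρ := fun z hz => by
    have m4 := m2 z hz
    rw [Pi.neg_apply, Complex.neg_re] at m4
    linarith [m1 z hz]
  obtain ⟨c, hc⟩ := (hF.analyticOnNhd isOpen_ball).eq_const_of_re_eq_const m3 isOpen_ball
    ((convex_ball 0 1).isConnected (nonempty_ball.2 one_pos))
  have hc' : c.re = Real.log ρ := hc 0 (mem_ball_self one_pos) ▸ m3 0 (mem_ball_self one_pos)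
  refine ⟨fun w => w ^ n * Complex.exp (c - (starRingEnd ℂ) (B ((starRingEnd ℂ) w)) + B w⁻¹), r⁻¹,
    r3, by rwa [inv_inv], fun w hw => ?_, fun w a b => ?_, fun w a b => ?_⟩
  · rw [mem_ofPred_eq, inv_inv] at hw
    have w0 : w ≠ 0 := norm_pos_iff.1 (r0.trans hw.1)
    exact ((differentiableAt_zpow.2 (Or.inl w0)).mul (((hB' w hw.2).const_sub c).add
      ((hBa _ (mem_ball_zero_iff.1 (RM3_mem_inv r0 hw.1))).comp w
        (differentiableAt_inv w0))).cexp).differentiableWithinAt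
  · rw [inv_inv] at a
    dsimp only
    rw [e w a b, ← hc w (mem_ball_zero_iff.2 b), add_sub_cancel_right]
  · rw [inv_inv] at a
    have w0 : (starRingEnd ℂ) w ≠ 0 := (map_ne_zero _).2 (norm_pos_iff.1 (r0.trans a))
    dsimp only
    rw [map_mul, map_zpow₀, ← Complex.exp_conj, mul_mul_mul_comm, ← mul_zpow, inv_mul_cancel₀ w0,
      one_zpow, one_mul, ← Complex.exp_add, inv_inv, map_inv₀, Complex.conj_conj, map_add, map_sub,
      Complex.conj_conj]
    have e1 : ∀ x y : ℂ, c - x + y + ((starRingEnd ℂ) c - y + x) = ((2 * c.re : ℝ) : ℂ) :=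
      fun x y => by rw [← Complex.add_conj]; ring
    rw [e1, ← Complex.ofReal_exp, hc', two_mul, Real.exp_add, Real.exp_log hρ]
    push_cast
    ring

end Pool.Agent.Work.MP_042f46_an
end

-- merged part: Pool.Agent.Work.MP_042f46_an.RM4
section
/-!
# The region inside an invariant curve is a bounded simply connected domain

`φ` is holomorphic and injective on `1 < ‖ζ‖` and tends to infinity at infinity; `ext φ ρ` is the image of `ρ ≤ ‖ζ‖`.
Plans.  `isClosed_ext`: `φ` is proper on the closed set `ρ ≤ ‖ζ‖`.  `isBounded_compl_ext`: for `M` larger than the norms of the curve `φ (‖ζ‖ = ρ)`, the set `ext φ ρ` is closed and relatively open (`isOpen_image_of_injOn`) in the preconnected set `M < ‖z‖` and meets it.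
`frontier`-type facts: a point of `ext φ ρ` is either on the curve or in the open set `φ '' {ρ < ‖ζ‖}`.
`simplyConnected_compl_ext`: fix `1 < ρ₁ < ρ` and an increasing homeomorphism `τ : [ρ₁, ∞) → [ρ₁, ρ)`, `τ ρ₁ = ρ₁` (for example `τ s = ρ - (ρ - ρ₁) ^ 2 / (s + ρ - 2 ρ₁)`).  The map `T z = z` off `ext φ ρ₁`, `T (φ ζ) = φ (τ ‖ζ‖ / ‖ζ‖ * ζ)` for `‖ζ‖ ≥ ρ₁` is continuous (two closed pieces: `ext φ ρ₁` and the complement of `φ '' {ρ₁ < ‖ζ‖}`; the inverse of `φ` is continuous by `inv_diff`), and so is its inverse on the complement of `ext φ ρ`; so the complement of `ext φ ρ` is homeomorphic to the plane (`Topology.IsEmbedding.isSimplyConnected_image`, or contract loops directly with `isSimplyConnected_iff_exists_homotopy_refl_forall_mem`).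
-/

open Set Metric Topology Filter

namespace Pool.Agent.Work.MP_042f46_an

/-- the closed region outside the curve of radius `ρ` -/
def ext (φ : ℂ → ℂ) (ρ : ℝ) : Set ℂ := φ '' {ζ | ρ ≤ ‖ζ‖}

theorem RM4_conn {M : ℝ} (hM : 0 ≤ M) : IsPreconnected {z : ℂ | M < ‖z‖} := by
  have e : {z : ℂ | M < ‖z‖} =
      (fun p : ℝ × ℝ => (p.1 : ℂ) * Complex.exp (p.2 * Complex.I)) '' (Ioi M ×ˢ univ) := by
    ext z
    refine ⟨fun hz => ⟨(‖z‖, Complex.arg z), ⟨hz, trivial⟩, Complex.norm_mul_exp_arg_mul_I z⟩, ?_⟩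
    rintro ⟨p, hp, rfl⟩
    have : M < p.1 := hp.1
    simpa [abs_of_pos (hM.trans_lt this)] using this
  rw [e]
  exact (isPreconnected_Ioi.prod isPreconnected_univ).image _ (by fun_prop)

open Classical in
/-- the radial change `σ` in the coordinate `φ`, the identity inside the curve of radius `r` -/
noncomputable def RM4_T (φ : ℂ → ℂ) (r : ℝ) (σ : ℝ → ℝ) (z : ℂ) : ℂ :=
  if z ∈ ext φ r then φ ((σ ‖Function.invFunOn φ {ζ | 1 < ‖ζ‖} z‖ /
    ‖Function.invFunOn φ {ζ | 1 < ‖ζ‖} z‖ : ℝ) * Function.invFunOn φ {ζ | 1 < ‖ζ‖} z) else z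

theorem RM4_norm {ζ : ℂ} {t : ℝ} (h : 0 < ‖ζ‖) (ht : 0 ≤ t) : ‖((t / ‖ζ‖ : ℝ) : ℂ) * ζ‖ = t := by
  rw [norm_mul, Complex.norm_real, Real.norm_of_nonneg (div_nonneg ht h.le), div_mul_cancel₀ _ h.ne']

theorem RM4_open (r : ℝ) : IsOpen {ζ : ℂ | r < ‖ζ‖} := isOpen_lt continuous_const continuous_norm

theorem RM4_sub (φ : ℂ → ℂ) (r : ℝ) : φ '' {ζ | r < ‖ζ‖} ⊆ ext φ r :=
  image_mono fun _ (h : r < _) => h.le

variable {φ : ℂ → ℂ} {ρ : ℝ} (hφ : DifferentiableOn ℂ φ {ζ | 1 < ‖ζ‖})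
  (hi : InjOn φ {ζ | 1 < ‖ζ‖}) (ht : Tendsto φ (Bornology.cobounded ℂ) (Bornology.cobounded ℂ))
  (hρ : 1 < ρ)
include hφ hi ht hρ

theorem isClosed_ext : IsClosed (ext φ ρ) := by
  refine isClosed_of_closure_subset fun z hz => ?_
  have h1 := (tendsto_norm_atTop_iff_cobounded.2 ht).eventually_ge_atTop (‖z‖ + 1)
  obtain ⟨R, -, hR⟩ := (Metric.hasBasis_cobounded_compl_closedBall (0 : ℂ)).eventually_iff.1 h1
  have hK : IsCompact (φ '' (closedBall 0 R ∩ {ζ | ρ ≤ ‖ζ‖})) :=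
    ((isCompact_closedBall 0 R).inter_right (isClosed_le continuous_const continuous_norm)
      ).image_of_continuousOn (hφ.continuousOn.mono fun ζ h => hρ.trans_le h.2)
  have h2 : ext φ ρ ⊆ φ '' (closedBall 0 R ∩ {ζ | ρ ≤ ‖ζ‖}) ∪ {w | ‖z‖ + 1 ≤ ‖w‖} := by
    rintro _ ⟨ζ, hζ, rfl⟩
    by_cases h : ζ ∈ closedBall 0 R
    · exact Or.inl ⟨ζ, ⟨h, hζ⟩, rfl⟩
    · exact Or.inr (hR h)
  rcases closure_minimal h2 (hK.isClosed.union (isClosed_le continuous_const continuous_norm)) hz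
    with h | h
  · exact image_mono inter_subset_right h
  · exact absurd h (not_le.2 (lt_add_one ‖z‖))

omit ht in
theorem RM4_isOpen : IsOpen (φ '' {ζ | ρ < ‖ζ‖}) :=
  isOpen_image_of_injOn (RM4_open ρ) (hφ.mono fun _ h => hρ.trans h) (hi.mono fun _ h => hρ.trans h)

theorem RM4_bdd : Bornology.IsBounded (φ '' {ζ | ρ < ‖ζ‖})ᶜ := by
  obtain ⟨M, hM, h1⟩ := ((isCompact_sphere (0 : ℂ) ρ).image_of_continuousOn
    (hφ.continuousOn.mono fun ζ h => hρ.trans_eq (mem_sphere_zero_iff_norm.1 h).symm)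
    ).isBounded.exists_pos_norm_le
  have h2 : {z : ℂ | M < ‖z‖} ⊆ φ '' {ζ | ρ < ‖ζ‖} := by
    refine (RM4_conn hM.le).subset_of_closure_inter_subset (RM4_isOpen hφ hi hρ) ?_ ?_
    · obtain ⟨ζ, h2, h3⟩ := (((tendsto_norm_atTop_iff_cobounded.2 ht).eventually_gt_atTop M).and
        (tendsto_norm_cobounded_atTop.eventually_gt_atTop ρ)).exists
      exact ⟨φ ζ, h2, ζ, h3, rfl⟩
    · rintro z ⟨h2, h3⟩
      obtain ⟨ζ, hζ, rfl⟩ := closure_minimal (RM4_sub φ ρ) (isClosed_ext hφ hi ht hρ) h2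
      exact ⟨ζ, lt_of_le_of_ne hζ fun e => (not_le.2 h3)
        (h1 _ ⟨ζ, mem_sphere_zero_iff_norm.2 e.symm, rfl⟩), rfl⟩
  exact (isBounded_iff_forall_norm_le.2 ⟨M, fun z hz => not_lt.1 fun h => hz (h2 h)⟩)

theorem isBounded_compl_ext : Bornology.IsBounded (ext φ ρ)ᶜ := by
  exact (RM4_bdd hφ hi ht hρ).subset (compl_subset_compl.2 (RM4_sub φ ρ))

theorem isCompact_compl_open : IsCompact (φ '' {ζ | ρ < ‖ζ‖})ᶜ := by
  exact isCompact_of_isClosed_isBounded (RM4_isOpen hφ hi hρ).isClosed_compl (RM4_bdd hφ hi ht hρ)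

omit hφ ht in
theorem RM4_val (σ : ℝ → ℝ) {ζ : ℂ} (h : ρ ≤ ‖ζ‖) :
    RM4_T φ ρ σ (φ ζ) = φ ((σ ‖ζ‖ / ‖ζ‖ : ℝ) * ζ) := by
  rw [RM4_T, if_pos ⟨ζ, h, rfl⟩, hi.leftInvOn_invFunOn (hρ.trans_le h)]

theorem RM4_cont {σ : ℝ → ℝ} {s : Set ℝ} (hσ : ContinuousOn σ s) (h0 : σ ρ = ρ)
    (h1 : ∀ r ∈ s, ρ ≤ σ r) {W : Set ℂ} (hW : ∀ ζ, ρ ≤ ‖ζ‖ → φ ζ ∈ W → ‖ζ‖ ∈ s) :
    ContinuousOn (RM4_T φ ρ σ) W := by
  classical
  have hc := isClosed_ext hφ hi ht hρ
  have hp : ∀ ζ : ℂ, ρ ≤ ‖ζ‖ → 0 < ‖ζ‖ := fun ζ h => one_pos.trans (hρ.trans_le h)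
  refine ContinuousOn.if (fun z hz => ?_) ?_ continuousOn_id
  · obtain ⟨ζ, hζ, rfl⟩ := hc.frontier_subset hz.2
    have e : ‖ζ‖ = ρ := (eq_of_le_of_not_lt hζ fun h => hz.2.2 (interior_maximal
      (RM4_sub φ ρ) (RM4_isOpen hφ hi hρ) ⟨ζ, h, rfl⟩)).symm
    rw [hi.leftInvOn_invFunOn (hρ.trans_le hζ), e, h0, div_self (one_pos.trans hρ).ne']
    simp
  · rw [show closure {a | a ∈ ext φ ρ} = ext φ ρ from hc.closure_eq]
    have h2 : ContinuousOn (Function.invFunOn φ {ζ | 1 < ‖ζ‖}) (W ∩ ext φ ρ) :=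
      (inv_diff (RM4_open 1) hφ hi).continuousOn.mono fun z hz =>
        image_mono (fun _ h => hρ.trans_le h) hz.2
    have h3 : ∀ z ∈ W ∩ ext φ ρ, ρ ≤ ‖Function.invFunOn φ {ζ | 1 < ‖ζ‖} z‖ ∧
        ‖Function.invFunOn φ {ζ | 1 < ‖ζ‖} z‖ ∈ s := by
      rintro _ ⟨hz, ζ, hζ, rfl⟩
      rw [hi.leftInvOn_invFunOn (hρ.trans_le hζ)]
      exact ⟨hζ, hW ζ hζ hz⟩
    refine hφ.continuousOn.comp ((Complex.continuous_ofReal.comp_continuousOn
      ((hσ.comp h2.norm fun z hz => (h3 z hz).2).div h2.norm fun z hz =>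
        (hp _ (h3 z hz).1).ne')).mul h2) fun z hz => ?_
    have h4 := h1 _ (h3 z hz).2
    exact (hρ.trans_le h4).trans_eq
      (RM4_norm (hp _ (h3 z hz).1) ((one_pos.trans hρ).le.trans h4)).symm

omit hφ ht in
theorem RM4_inv {σ τ : ℝ → ℝ} {z : ℂ}
    (h : ∀ ζ, ρ ≤ ‖ζ‖ → φ ζ = z → ρ ≤ τ ‖ζ‖ ∧ σ (τ ‖ζ‖) = ‖ζ‖) :
    RM4_T φ ρ σ (RM4_T φ ρ τ z) = z := by
  by_cases hz : z ∈ ext φ ρ
  · obtain ⟨ζ, hζ, rfl⟩ := hz
    obtain ⟨h1, h2⟩ := h ζ hζ rfl
    have h3 : 0 < ‖ζ‖ := one_pos.trans (hρ.trans_le hζ)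
    have h4 : 0 < τ ‖ζ‖ := one_pos.trans (hρ.trans_le h1)
    have h5 := RM4_norm h3 h4.le
    rw [RM4_val hi hρ τ hζ, RM4_val hi hρ σ (h1.trans_eq h5.symm), h5, h2, ← mul_assoc,
      ← Complex.ofReal_mul, div_mul_div_cancel₀ h4.ne', div_self h3.ne']
    simp
  · rw [RM4_T, RM4_T, if_neg hz, if_neg hz]

theorem simplyConnected_compl_ext : IsSimplyConnected (ext φ ρ)ᶜ := by
  obtain ⟨r, hr, hrρ⟩ := exists_between hρ
  obtain ⟨d, hd, rfl⟩ : ∃ d, 0 < d ∧ ρ = r + d := ⟨ρ - r, sub_pos.2 hrρ, by ring⟩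
  let τ : ℝ → ℝ := fun t => r + d - d ^ 2 / (t - r + d)
  let σ : ℝ → ℝ := fun t => r - d + d ^ 2 / (r + d - t)
  have t1 : ∀ t ∈ Ici r, r ≤ τ t ∧ τ t < r + d ∧ σ (τ t) = t := fun t (h : r ≤ t) => by
    have h1 : 0 < t - r + d := by linarith
    refine ⟨?_, sub_lt_self _ (by positivity), ?_⟩
    · have : d ^ 2 / (t - r + d) ≤ d := (div_le_iff₀ h1).2 (by nlinarith)
      simp only [τ]
      linarith
    · simp only [σ, τ, sub_sub_cancel]
      field_simp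
      ring
  have s1 : ∀ t ∈ Ico r (r + d), r ≤ σ t ∧ τ (σ t) = t := fun t h => by
    have h1 : 0 < r + d - t := sub_pos.2 h.2
    constructor
    · have : d ≤ d ^ 2 / (r + d - t) := (le_div_iff₀ h1).2 (by nlinarith [h.1])
      simp only [σ]
      linarith
    · simp only [σ, τ]
      rw [show r - d + d ^ 2 / (r + d - t) - r + d = d ^ 2 / (r + d - t) by ring]
      field_simp
      ring
  have hW : ∀ ζ, r ≤ ‖ζ‖ → φ ζ ∈ (ext φ (r + d))ᶜ → ‖ζ‖ ∈ Ico r (r + d) := fun ζ h1 h2 =>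
    ⟨h1, not_le.1 fun h => h2 ⟨ζ, h, rfl⟩⟩
  have t0 : ∀ x, x = d → r + d - d ^ 2 / x = r := fun x hx => by
    rw [hx, sq, mul_div_cancel_right₀ _ hd.ne', add_sub_cancel_right]
  have s0 : ∀ x, x = d → r - d + d ^ 2 / x = r := fun x hx => by
    rw [hx, sq, mul_div_cancel_right₀ _ hd.ne', sub_add_cancel]
  have c1 : ContinuousOn (RM4_T φ r τ) univ := RM4_cont hφ hi ht hr (s := Ici r)
    (continuousOn_const.sub (continuousOn_const.div (by fun_prop) fun t (h : r ≤ t) =>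
      (show 0 < t - r + d by linarith).ne')) (t0 _ (by ring))
    (fun t h => (t1 t h).1) fun _ h _ => h
  have c2 : ContinuousOn (RM4_T φ r σ) (ext φ (r + d))ᶜ := RM4_cont hφ hi ht hr (s := Ico r (r + d))
    (continuousOn_const.add (continuousOn_const.div (by fun_prop) fun t h => (sub_pos.2 h.2).ne'))
    (s0 _ (by ring)) (fun t h => (s1 t h).1) hW
  have hm : ∀ z, RM4_T φ r τ z ∈ (ext φ (r + d))ᶜ := fun z ⟨ξ, hξ, e⟩ => by
    by_cases hz : z ∈ ext φ r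
    · obtain ⟨ζ, hζ, rfl⟩ := hz
      obtain ⟨h1, h2, -⟩ := t1 _ hζ
      have h3 := RM4_norm (one_pos.trans (hr.trans_le hζ)) ((one_pos.trans hr).le.trans h1)
      rw [RM4_val hi hr τ hζ] at e
      rw [hi (hρ.trans_le hξ) ((hr.trans_le h1).trans_eq h3.symm) e] at hξ
      exact not_le.2 h2 (le_of_le_of_eq hξ h3)
    · rw [RM4_T, if_neg hz] at e
      exact hz ⟨ξ, hrρ.le.trans hξ, e⟩
  let e : ((ext φ (r + d))ᶜ : Set ℂ) ≃ₜ ℂ :=
    { toFun := fun w => RM4_T φ r σ w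
      invFun := fun z => ⟨RM4_T φ r τ z, hm z⟩
      left_inv := fun w => Subtype.ext (RM4_inv hi hr fun ζ h1 h2 => s1 _ (hW ζ h1 (h2 ▸ w.2)))
      right_inv := fun z => RM4_inv hi hr fun ζ h _ => ⟨(t1 _ h).1, (t1 _ h).2.2⟩
      continuous_toFun := c2.restrict
      continuous_invFun := (continuousOn_univ.1 c1).subtype_mk _ }
  exact e.toHomotopyEquiv.simplyConnectedSpace

end Pool.Agent.Work.MP_042f46_an
end

-- merged part: Pool.Agent.Work.MP_042f46_an.Fill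
section
/-!
# Points joined to infinity in the complement of a plane set

Plans.  `Out.of_conn`: union of two preconnected sets with a common point.  `out_far`: the ray `{t • x | 1 ≤ t}`.
`Out.ball`/`isOpen_out`: a ball disjoint from `X`, `Out.of_conn`.  `isPreconnected_out`: every point is in a preconnected subset of `{Out X}` meeting the preconnected set `{R < ‖x‖}`
(image of `Ioi R ×ˢ univ` under `(s, t) ↦ s * exp (t * I)`, or `isPreconnected_of_forall`).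
`Out.exists_closed`: the open preconnected set `{Out X}` is path connected (`IsOpen.isConnected_iff_isPathConnected`); take the range of a path to a far point together with the closed ray.
`Out.exists_log`: the set of `x` for which a logarithm exists is open and closed in `Xᶜ`: if `L` works for `x` and `‖y - x‖ < infDist x X` then `L z + log ((z - y) / (z - x))` works for `y` (the quotient lies in `slitPlane`);
use `IsPreconnected.induction₂'` on `C`; for far `x` take `log (-x) + log (1 - z / x)`.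
`not_out_image`: `Y = {y | ¬ Out X y}` is compact, `f '' Y` is closed and bounded; a point of `C ∩ f '' Y` is `f z` with `z ∉ X`, `Y ∈ 𝓝 z`, so it is interior to `f '' Y`; `IsPreconnected.subset_of_closure_inter_subset`.
`out_comp`: for a component `U` of `Kᶜ` the set `U ∪ K` is preconnected (the frontier of `U` is nonempty and lies in `K`, `IsPreconnected.subset_closure`); use `K ∪ {Out K} ∪ U`.
`exists_sep` (Sura-Bura): in the compact space `Z ∩ closedBall 0 R` the component is the intersection of the clopen sets (`connectedComponent_eq_iInter_isClopen`), compactness of `Z ∩ (sphere 0 R ∪ E)` gives one clopen set.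
-/

open Set Metric Topology Filter

namespace Pool.Agent.Work.MP_042f46_an

/-- `x` is joined to infinity in the complement of `X` -/
def Out (X : Set ℂ) (x : ℂ) : Prop :=
  ∃ C : Set ℂ, IsPreconnected C ∧ ¬ Bornology.IsBounded C ∧ x ∈ C ∧ Disjoint C X

variable {X Y C : Set ℂ} {x y : ℂ}

theorem Out.notMem (h : Out X x) : x ∉ X := by
  obtain ⟨C, -, -, hx, hd⟩ := h
  exact disjoint_left.1 hd hx

theorem Out.anti (hXY : X ⊆ Y) (h : Out Y x) : Out X x := by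
  obtain ⟨C, h1, h2, hx, hd⟩ := h
  exact ⟨C, h1, h2, hx, hd.mono_right hXY⟩

theorem Out.of_conn (h : Out X x) (hC : IsPreconnected C) (hd : Disjoint C X) (hx : x ∈ C)
    (hy : y ∈ C) : Out X y := by
  obtain ⟨D, h1, h2, hxD, hD⟩ := h
  exact ⟨D ∪ C, h1.union x hxD hx hC, fun hb => h2 (hb.subset subset_union_left), Or.inr hy,
    disjoint_union_left.2 ⟨hD, hd⟩⟩

theorem Fill_far (hC : ¬ Bornology.IsBounded C) (R : ℝ) : ∃ z ∈ C, R < ‖z‖ := by
  by_contra hn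
  push Not at hn
  exact hC (isBounded_iff_forall_norm_le.2 ⟨R, hn⟩)

theorem Fill_ray {p : ℂ} (hp : p ≠ 0) : ∃ C : Set ℂ, IsClosed C ∧ IsPreconnected C ∧
    ¬ Bornology.IsBounded C ∧ p ∈ C ∧ ∀ z ∈ C, ‖p‖ ≤ ‖z‖ := by
  have hp' : 0 < ‖p‖ := norm_pos_iff.2 hp
  refine ⟨(fun t : ℝ => t • p) '' Ici 1,
    (isClosedEmbedding_smul_left hp).isClosedMap _ isClosed_Ici,
    isPreconnected_Ici.image _ (by fun_prop), fun hb => ?_, ⟨1, self_mem_Ici, one_smul _ _⟩, ?_⟩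
  · obtain ⟨R, hR⟩ := isBounded_iff_forall_norm_le.1 hb
    have h0 : 0 ≤ |R| / ‖p‖ := by positivity
    have h1 := hR _ ⟨|R| / ‖p‖ + 1, by simpa using h0, rfl⟩
    simp only [norm_smul, Real.norm_eq_abs] at h1
    rw [abs_of_nonneg (by linarith), add_mul, div_mul_cancel₀ _ hp'.ne'] at h1
    linarith [le_abs_self R]
  · rintro _ ⟨t, ht, rfl⟩
    have ht' : (1 : ℝ) ≤ t := ht
    simp only [norm_smul, Real.norm_eq_abs]
    rw [abs_of_nonneg (by linarith)]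
    nlinarith

theorem Fill_out_far (hX : Bornology.IsBounded X) :
    ∃ R : ℝ, 0 < R ∧ (∀ z ∈ X, ‖z‖ ≤ R) ∧ ∀ x : ℂ, R < ‖x‖ → Out X x := by
  obtain ⟨R, hR⟩ := isBounded_iff_forall_norm_le.1 hX
  have h1 : ∀ z ∈ X, ‖z‖ ≤ |R| + 1 := fun z hz => by linarith [hR z hz, le_abs_self R]
  refine ⟨|R| + 1, by positivity, h1, fun x hx => ?_⟩
  obtain ⟨C, -, h2, h3, h4, h5⟩ := Fill_ray (p := x)
    (norm_pos_iff.1 (lt_trans (by positivity) hx))
  exact ⟨C, h2, h3, h4, disjoint_left.2 fun z hz hz' => by linarith [h5 z hz, h1 z hz']⟩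

theorem out_far (hX : Bornology.IsBounded X) : ∃ R : ℝ, ∀ x : ℂ, R < ‖x‖ → Out X x := by
  obtain ⟨R, -, -, h⟩ := Fill_out_far hX
  exact ⟨R, h⟩

theorem Fill_ball (hX : IsClosed X) (hx : x ∉ X) : ∃ ε > 0, Disjoint (ball x ε) X := by
  obtain ⟨ε, h0, h1⟩ := Metric.isOpen_iff.1 hX.isOpen_compl x hx
  exact ⟨ε, h0, disjoint_left.2 fun z hz => h1 hz⟩

theorem isOpen_out (hX : IsClosed X) : IsOpen {x | Out X x} := by
  refine Metric.isOpen_iff.2 fun x hx => ?_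
  obtain ⟨ε, h0, h1⟩ := Fill_ball hX (Out.notMem hx)
  exact ⟨ε, h0, fun y hy =>
    Out.of_conn hx (convex_ball x ε).isPreconnected h1 (mem_ball_self h0) hy⟩

theorem Fill_pre (R : ℝ) (_ : 0 < R) : IsPreconnected {z : ℂ | R < ‖z‖} := by
  have h : IsPreconnected ((Ioi R) ×ˢ (univ : Set ℝ)) :=
    isPreconnected_Ioi.prod isPreconnected_univ
  have h' := h.image (fun p : ℝ × ℝ => (p.1 : ℂ) * Complex.exp (p.2 * Complex.I)) (by fun_prop)
  convert h' using 1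
  ext z
  constructor
  · exact fun hz => ⟨(‖z‖, z.arg), ⟨hz, trivial⟩, Complex.norm_mul_exp_arg_mul_I z⟩
  · rintro ⟨⟨s, t⟩, ⟨hs, -⟩, rfl⟩
    have hs' : R < s := hs
    simp only [mem_ofPred_eq, norm_mul, Complex.norm_exp_ofReal_mul_I, Complex.norm_real,
      Real.norm_eq_abs, mul_one]
    exact hs'.trans_le (le_abs_self s)

theorem Fill_pt (R : ℝ) : ∃ p : ℂ, R < ‖p‖ :=
  ⟨((|R| + 1 : ℝ) : ℂ), by
    rw [Complex.norm_real, Real.norm_eq_abs, abs_of_nonneg (by positivity)]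
    linarith [le_abs_self R]⟩

theorem isPreconnected_out (hX : Bornology.IsBounded X) : IsPreconnected {x | Out X x} := by
  obtain ⟨R, h0, -, h⟩ := Fill_out_far hX
  obtain ⟨p, hp⟩ := Fill_pt R
  refine isPreconnected_of_forall p ?_
  rintro y ⟨C, h1, h2, h3, h4⟩
  obtain ⟨z, hz, hz'⟩ := Fill_far h2 R
  refine ⟨C ∪ {z : ℂ | R < ‖z‖}, ?_, Or.inr hp, Or.inl h3, h1.union z hz hz' (Fill_pre R h0)⟩
  rintro w (hw | hw)
  exacts [⟨C, h1, h2, hw, h4⟩, h w hw]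

theorem Out.exists_closed (hX : IsCompact X) (h : Out X x) :
    ∃ C : Set ℂ, IsClosed C ∧ IsPreconnected C ∧ ¬ Bornology.IsBounded C ∧ x ∈ C ∧
      Disjoint C X := by
  obtain ⟨R, h0, h1, h2⟩ := Fill_out_far hX.isBounded
  obtain ⟨p, hp⟩ := Fill_pt R
  have hc : IsPathConnected {x | Out X x} :=
    (isOpen_out hX.isClosed).isConnected_iff_isPathConnected.1
      ⟨⟨x, h⟩, isPreconnected_out hX.isBounded⟩
  obtain ⟨γ, hγ⟩ := hc.joinedIn x h p (h2 p hp)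
  obtain ⟨C, c1, c2, c3, c4, c5⟩ := Fill_ray (p := p) (norm_pos_iff.1 (h0.trans hp))
  refine ⟨range γ ∪ C, (isCompact_range γ.continuous).isClosed.union c1,
    (isPreconnected_range γ.continuous).union p ⟨1, γ.target⟩ c4 c2,
    fun hb => c3 (hb.subset subset_union_right), Or.inl ⟨0, γ.source⟩, disjoint_left.2 ?_⟩
  rintro z (⟨t, rfl⟩ | hz)
  · exact Out.notMem (hγ t)
  · exact fun hz' => by linarith [c5 z hz, h1 z hz']

/-- `z - x` has a continuous logarithm on `X` -/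
def Fill_log (X : Set ℂ) (x : ℂ) : Prop :=
  ∃ L : ℂ → ℂ, ContinuousOn L X ∧ ∀ z ∈ X, Complex.exp (L z) = z - x

theorem Fill_log_iff (h : ∀ z ∈ X, ‖x - y‖ < ‖z - x‖) : Fill_log X x ↔ Fill_log X y := by
  have h0 : ∀ z ∈ X, z - x ≠ 0 := fun z hz =>
    norm_pos_iff.1 ((norm_nonneg _).trans_lt (h z hz))
  have h1 : ∀ z ∈ X, 1 + (x - y) / (z - x) ∈ Complex.slitPlane := fun z hz =>
    Complex.mem_slitPlane_of_norm_lt_one (by
      rw [norm_div, div_lt_one (norm_pos_iff.2 (h0 z hz))]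
      exact h z hz)
  have h2 : ContinuousOn (fun z => Complex.log (1 + (x - y) / (z - x))) X :=
    (continuousOn_const.add (continuousOn_const.div (by fun_prop) h0)).clog h1
  have h3 : ∀ z ∈ X, (z - x) * (1 + (x - y) / (z - x)) = z - y := fun z hz => by
    have := h0 z hz
    field_simp
    ring
  constructor
  · rintro ⟨L, hL, e⟩
    refine ⟨fun z => L z + Complex.log (1 + (x - y) / (z - x)), hL.add h2, fun z hz => ?_⟩
    rw [Complex.exp_add, e z hz, Complex.exp_log (Complex.slitPlane_ne_zero (h1 z hz)), h3 z hz]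
  · rintro ⟨L, hL, e⟩
    refine ⟨fun z => L z - Complex.log (1 + (x - y) / (z - x)), hL.sub h2, fun z hz => ?_⟩
    rw [Complex.exp_sub, e z hz, Complex.exp_log (Complex.slitPlane_ne_zero (h1 z hz)), ← h3 z hz,
      mul_div_cancel_right₀ _ (Complex.slitPlane_ne_zero (h1 z hz))]

theorem Fill_log_far (h : ∀ z ∈ X, ‖z‖ < ‖x‖) (hx : x ≠ 0) : Fill_log X x := by
  have h1 : ∀ z ∈ X, 1 + -z / x ∈ Complex.slitPlane := fun z hz =>
    Complex.mem_slitPlane_of_norm_lt_one (by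
      rw [norm_div, norm_neg, div_lt_one (norm_pos_iff.2 hx)]
      exact h z hz)
  refine ⟨fun z => Complex.log (-x) + Complex.log (1 + -z / x),
    continuousOn_const.add (ContinuousOn.clog (by fun_prop) h1), fun z hz => ?_⟩
  rw [Complex.exp_add, Complex.exp_log (neg_ne_zero.2 hx),
    Complex.exp_log (Complex.slitPlane_ne_zero (h1 z hz))]
  field_simp
  ring

theorem Out.exists_log (hX : IsCompact X) (h : Out X x) :
    ∃ L : ℂ → ℂ, ContinuousOn L X ∧ ∀ z ∈ X, Complex.exp (L z) = z - x := by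
  obtain ⟨C, h1, h2, h3, h4⟩ := h
  obtain ⟨R, h0, hR, -⟩ := Fill_out_far hX.isBounded
  obtain ⟨w, hw, hw'⟩ := Fill_far h2 R
  have key : Fill_log X w → Fill_log X x := by
    refine h1.induction₂' (fun a b => Fill_log X a → Fill_log X b) (fun a ha => ?_)
      (fun a b c _ _ _ f g => g ∘ f) hw h3
    obtain ⟨ε, e0, e1⟩ := Fill_ball hX.isClosed (disjoint_left.1 h4 ha)
    filter_upwards [mem_nhdsWithin_of_mem_nhds (ball_mem_nhds a e0)] with b hb
    have := Fill_log_iff (X := X) (x := a) (y := b) fun z hz => by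
      have h5 : ¬ ‖z - a‖ < ε := fun h5 =>
        disjoint_left.1 e1 (mem_ball_iff_norm.2 h5) hz
      have h6 := mem_ball_iff_norm'.1 hb
      linarith
    exact ⟨this.1, this.2⟩
  exact key (Fill_log_far (fun z hz => (hR z hz).trans_lt hw') (norm_pos_iff.1 (h0.trans hw')))

theorem not_out_image {f : ℂ → ℂ} (hX : IsCompact X) (hf : ContinuousOn f {y | ¬ Out X y})
    (ho : ∀ z, ¬ Out X z → ∀ N ∈ 𝓝 z, f '' N ∈ 𝓝 (f z)) (hx : ¬ Out X x) :
    ¬ Out (f '' X) (f x) := by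
  rintro ⟨C, h1, h2, h3, h4⟩
  have hY : IsCompact {y | ¬ Out X y} := by
    obtain ⟨R, hR⟩ := out_far hX.isBounded
    exact isCompact_of_isClosed_isBounded (isOpen_out hX.isClosed).isClosed_compl
      (isBounded_iff_forall_norm_le.2 ⟨R, fun z hz => not_lt.1 fun h => hz (hR z h)⟩)
  have hf' := hY.image_of_continuousOn hf
  have key : ∀ w ∈ f '' {y | ¬ Out X y}, w ∈ C → w ∈ interior (f '' {y | ¬ Out X y}) := by
    rintro _ ⟨z, hz, rfl⟩ hC
    have hzX : z ∉ X := fun h => disjoint_left.1 h4 hC ⟨z, h, rfl⟩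
    obtain ⟨ε, e0, e1⟩ := Fill_ball hX.isClosed hzX
    refine mem_interior_iff_mem_nhds.2 (ho z hz _ (mem_of_superset (ball_mem_nhds z e0) ?_))
    exact fun y hy h => hz (h.of_conn (convex_ball z ε).isPreconnected e1 hy (mem_ball_self e0))
  have := h1.subset_of_closure_inter_subset isOpen_interior ⟨f x, h3, key _ ⟨x, hx, rfl⟩ h3⟩
    fun w hw => key w (closure_minimal interior_subset hf'.isClosed hw.1) hw.2
  exact h2 (hf'.isBounded.subset (this.trans interior_subset))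

theorem Fill_ins {q : ℂ} (hq : q ∈ closure (connectedComponentIn Xᶜ x)) :
    IsPreconnected (insert q (connectedComponentIn Xᶜ x)) :=
  isPreconnected_connectedComponentIn.subset_closure (subset_insert _ _)
    (insert_subset hq subset_closure)

theorem frontier_comp (hX : IsClosed X) : frontier (connectedComponentIn Xᶜ x) ⊆ X := by
  intro q hq
  by_contra hqX
  have ho : IsOpen (connectedComponentIn Xᶜ x) := hX.isOpen_compl.connectedComponentIn
  rw [ho.frontier_eq] at hq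
  have hx : x ∈ Xᶜ := connectedComponentIn_nonempty_iff.1 (closure_nonempty_iff.1 ⟨q, hq.1⟩)
  exact hq.2 ((Fill_ins hq.1).subset_connectedComponentIn
    (mem_insert_of_mem _ (mem_connectedComponentIn hx))
    (insert_subset hqX (connectedComponentIn_subset _ _)) (mem_insert _ _))

theorem Fill_union (hX : IsClosed X) (hc : IsConnected X) (p : ℂ) :
    IsPreconnected (X ∪ connectedComponentIn Xᶜ p) := by
  rcases (connectedComponentIn Xᶜ p).eq_empty_or_nonempty with h | h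
  · rw [h, union_empty]
    exact hc.2
  obtain ⟨q, hq⟩ := nonempty_frontier_iff.2 ⟨h, fun e => by
    obtain ⟨z, hz⟩ := hc.1
    exact connectedComponentIn_subset Xᶜ p (e ▸ mem_univ z) hz⟩
  have hqX := frontier_comp hX hq
  have := hc.2.union q hqX (mem_insert _ _) (Fill_ins (frontier_subset_closure hq))
  rwa [union_insert, insert_eq_of_mem (mem_union_left _ hqX)] at this

theorem out_comp (hX : IsCompact X) (hc : IsConnected X) (hx : ¬ Out X x)
    (hy : y ∉ connectedComponentIn Xᶜ x) : Out (connectedComponentIn Xᶜ x) y := by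
  obtain ⟨R, hR⟩ := out_far hX.isBounded
  obtain ⟨p, hp⟩ := Fill_pt R
  have hpo := hR p hp
  obtain ⟨C, h1, h2, h3, h4⟩ := hR p hp
  obtain ⟨q, hq⟩ := hc.1
  have hd : ∀ w, w ∉ connectedComponentIn Xᶜ x →
      Disjoint (X ∪ connectedComponentIn Xᶜ w) (connectedComponentIn Xᶜ x) := fun w hw => by
    refine disjoint_left.2 ?_
    rintro z (hz | hz) hz'
    · exact connectedComponentIn_subset _ _ hz' hz
    · refine hw ?_
      rw [connectedComponentIn_eq hz', ← connectedComponentIn_eq hz]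
      exact mem_connectedComponentIn (connectedComponentIn_nonempty_iff.1 ⟨z, hz⟩)
  refine ⟨(X ∪ connectedComponentIn Xᶜ p) ∪ (X ∪ connectedComponentIn Xᶜ y),
    (Fill_union hX.isClosed hc p).union q (Or.inl hq) (Or.inl hq) (Fill_union hX.isClosed hc y),
    fun hb => h2 (hb.subset fun z hz => Or.inl (Or.inr
      (h1.subset_connectedComponentIn h3 (fun w hw => disjoint_left.1 h4 hw) hz))), ?_,
    disjoint_union_left.2 ⟨hd p fun hpx => hx ?_, hd y hy⟩⟩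
  · by_cases hyX : y ∈ X
    exacts [Or.inl (Or.inl hyX), Or.inr (Or.inr (mem_connectedComponentIn hyX))]
  · exact hpo.of_conn isPreconnected_connectedComponentIn
      (disjoint_left.2 fun w hw => connectedComponentIn_subset Xᶜ x hw) hpx
      (mem_connectedComponentIn (connectedComponentIn_nonempty_iff.1 ⟨p, hpx⟩))

theorem exists_sep {Z E : Set ℂ} (hZ : IsClosed Z) (hE : IsClosed E) (hx : x ∈ Z)
    (hb : Bornology.IsBounded (connectedComponentIn Z x))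
    (hd : Disjoint (connectedComponentIn Z x) E) :
    ∃ O : Set ℂ, IsOpen O ∧ x ∈ O ∧ Disjoint O E ∧ IsCompact (Z ∩ O) := by
  obtain ⟨R, hR⟩ := hb.subset_ball 0
  have hxR : x ∈ ball (0 : ℂ) R := hR (mem_connectedComponentIn hx)
  have hK : IsCompact (Z ∩ closedBall 0 R) := (isCompact_closedBall 0 R).inter_left hZ
  have := isCompact_iff_compactSpace.1 hK
  let x' : ↥(Z ∩ closedBall 0 R) := ⟨x, hx, ball_subset_closedBall hxR⟩
  have hF : IsCompact ((↑) ⁻¹' ((ball 0 R)ᶜ ∪ E) : Set ↥(Z ∩ closedBall 0 R)) :=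
    ((isOpen_ball.isClosed_compl.union hE).preimage continuous_subtype_val).isCompact
  have hsub : (↑) '' connectedComponent x' ⊆ connectedComponentIn Z x :=
    (isPreconnected_connectedComponent.image _
      continuous_subtype_val.continuousOn).subset_connectedComponentIn
      ⟨x', mem_connectedComponent, rfl⟩ (by rintro _ ⟨z, -, rfl⟩; exact z.2.1)
  obtain ⟨u, hu⟩ := hF.elim_finite_subfamily_closed
    (fun s : {s : Set ↥(Z ∩ closedBall 0 R) // IsClopen s ∧ x' ∈ s} => s.1)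
    (fun s => s.2.1.isClosed) (by
      rw [← connectedComponent_eq_iInter_isClopen]
      refine eq_empty_of_forall_notMem ?_
      rintro z ⟨hz | hz, hz'⟩
      · exact hz (hR (hsub ⟨z, hz', rfl⟩))
      · exact disjoint_left.1 hd (hsub ⟨z, hz', rfl⟩) hz)
  have hS : IsClopen (⋂ s ∈ u, s.1) := isClopen_biInter_finset fun s _ => s.2.1
  have hxS : x' ∈ ⋂ s ∈ u, s.1 := mem_iInter₂.2 fun s _ => s.2.2
  obtain ⟨O, hO, e⟩ := isOpen_induced_iff.1 hS.isOpen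
  refine ⟨O ∩ ball 0 R ∩ Eᶜ, (hO.inter isOpen_ball).inter hE.isOpen_compl,
    ⟨⟨(e ▸ hxS : x' ∈ (↑) ⁻¹' O), hxR⟩, disjoint_left.1 hd (mem_connectedComponentIn hx)⟩,
    disjoint_left.2 fun z hz => hz.2, ?_⟩
  convert hS.isClosed.isCompact.image continuous_subtype_val using 1
  ext z
  constructor
  · rintro ⟨h1, ⟨h2, h3⟩, -⟩
    exact ⟨⟨z, h1, ball_subset_closedBall h3⟩, e ▸ h2, rfl⟩
  · rintro ⟨w, hw, rfl⟩
    have h1 : w.1 ∉ (ball (0 : ℂ) R)ᶜ ∪ E := fun h => (hu ▸ ⟨h, hw⟩ : w ∈ (∅ : Set _))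
    exact ⟨w.2.1, ⟨(e ▸ hw : w ∈ (↑) ⁻¹' O), not_not.1 fun h => h1 (Or.inl h)⟩,
      fun h => h1 (Or.inr h)⟩

end Pool.Agent.Work.MP_042f46_an
end

-- merged part: Pool.Agent.Work.MP_042f46_an.Sg
section
/-!
# Rotation domains: the topological setting

Plans.  Everything here is point-set topology.  `K_not_P`: `Out.notMem`.  `mapsTo_K`: `f` is continuous on `K`, `ContinuousOn.image_closure`/`mapsTo_closure`.  `mem_D_of`: write `z = φ ζ`, use `conj`, `φ_inj`, `‖e t‖ = 1`.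
`exists_γ`: `z = φ ζ`; if `‖ζ‖ < r` then `φ '' ball 0 r ∈ 𝓝 z` (`φ_open`); write `ζ = r * e c` (`Complex.norm_mul_exp_arg_mul_I`).  `eventually_in`: `z = φ ζ`, take `r₀ = (1 + ‖ζ‖) / 2`.
`unif`: `f` is uniformly continuous on a compact `cthickening` of `K` inside the open set `Pᶜ` (`IsCompact.exists_cthickening_subset_open`).
`unif_inj`: Lebesgue number lemma (`lebesgue_number_lemma_of_metric_sUnion` or `lebesgue_number_lemma_nhds`).
`unif_surj`: for `z ∈ K` choose `η z` with `ball (f z) (2 * η z) ⊆ f '' ball z (ρ / 4)`, and `s z ≤ ρ / 4` with `f '' ball z (2 * s z) ⊆ ball (f z) (η z)`; finitely many `ball z (s z)` cover `K`; take minima.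
`loc_inv`: choose `g` by `unif_surj`; `f` is continuous and injective on a compact closed ball, hence a closed embedding there (or `IsCompact.tendsto_nhds_of_unique_mapClusterPt`); this gives `cont_of_lift`.
`exists_P`: the finite union of the closed sets given by `Out.exists_closed`; a closed set disjoint from the compact set `K` has positive distance (`IsCompact.exists_thickening_subset_open`).
-/

open Set Metric Topology Filter

namespace Pool.Agent.Work.MP_042f46_an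

/-- the point of the unit circle of angle `t` -/
noncomputable def e (t : ℝ) : ℂ := Complex.exp (2 * (Real.pi : ℂ) * Complex.I * (t : ℂ))

theorem e_add (s t : ℝ) : e (s + t) = e s * e t := by
  simp [e, mul_add, Complex.exp_add]

theorem norm_e (t : ℝ) : ‖e t‖ = 1 := by
  rw [e, ← Complex.norm_exp_ofReal_mul_I (2 * Real.pi * t)]
  congr 2
  push_cast
  ring

theorem continuous_e : Continuous e := by
  unfold e
  fun_prop

theorem e_eq_iff {s t : ℝ} : e s = e t ↔ ∃ m : ℤ, s - t = m := by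
  refine Complex.exp_eq_exp_iff_exists_int.trans (exists_congr fun m => ?_)
  rw [← Complex.ofReal_inj, ← mul_right_inj' Complex.two_pi_I_ne_zero (b := ((s - t : ℝ) : ℂ))]
  push_cast
  constructor <;> intro h <;> linear_combination h

theorem exists_e (ζ : ℂ) : ∃ t : ℝ, ζ = (‖ζ‖ : ℂ) * e t := by
  refine ⟨ζ.arg / (2 * Real.pi), (Complex.norm_mul_exp_arg_mul_I ζ).symm.trans ?_⟩
  have h : (Real.pi : ℂ) ≠ 0 := Complex.ofReal_ne_zero.2 Real.pi_ne_zero
  rw [e]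
  congr 2
  push_cast
  field_simp

theorem Sg_norm (t : ℝ) (ζ : ℂ) : ‖e t * ζ‖ = ‖ζ‖ := by
  rw [norm_mul, norm_e, one_mul]

theorem Sg_ball {ζ : ℂ} (h : ζ ∈ ball (0 : ℂ) 1) (t : ℝ) : e t * ζ ∈ ball (0 : ℂ) 1 := by
  rwa [mem_ball_zero_iff, Sg_norm, ← mem_ball_zero_iff]

theorem Sg_norm' {r : ℝ} (hr : 0 ≤ r) (t : ℝ) : ‖(r : ℂ) * e t‖ = r := by
  rw [mul_comm, Sg_norm, Complex.norm_of_nonneg hr]

theorem Sg_ball' {r : ℝ} (hr : r ∈ Ico (0 : ℝ) 1) (t : ℝ) : (r : ℂ) * e t ∈ ball (0 : ℂ) 1 :=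
  mem_ball_zero_iff.2 ((Sg_norm' hr.1 t).trans_lt hr.2)

theorem Sg_leb {K : Set ℂ} (hK : IsCompact K) {p : Set ℂ → Prop} (hp : ∀ z ∈ K, ∃ N ∈ 𝓝 z, p N) :
    ∃ η > 0, ∀ z ∈ K, ∃ N, p N ∧ ball z η ⊆ N := by
  obtain ⟨η, h0, h⟩ := lebesgue_number_lemma_of_metric (c := fun N : {N // p N} => interior N.1) hK
    (fun _ => isOpen_interior) fun z hz => by
      obtain ⟨N, h1, h2⟩ := hp z hz
      exact mem_iUnion.2 ⟨⟨N, h2⟩, mem_interior_iff_mem_nhds.2 h1⟩
  exact ⟨η, h0, fun z hz => (h z hz).elim fun N hN => ⟨N.1, N.2, hN.trans interior_subset⟩⟩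

/-- a bounded rotation domain of a map that is a branched covering with poles `P` -/
structure Sg where
  f : ℂ → ℂ
  φ : ℂ → ℂ
  α : ℝ
  V : Set ℂ
  P : Set ℂ
  irr : Irrational α
  φ_cont : ContinuousOn φ (ball 0 1)
  φ_inj : InjOn φ (ball 0 1)
  φ_open : ∀ ζ ∈ ball (0 : ℂ) 1, ∀ N ∈ 𝓝 ζ, φ '' N ∈ 𝓝 (φ ζ)
  conj : ∀ ζ ∈ ball (0 : ℂ) 1, f (φ ζ) = φ (e α * ζ)
  bdd : Bornology.IsBounded (φ '' ball 0 1)
  V_fin : V.Finite
  P_fin : P.Finite
  cov : IsCoveringMapOn f Vᶜ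
  f_cont : ContinuousOn f Pᶜ
  f_open : ∀ z ∉ P, ∀ N ∈ 𝓝 z, f '' N ∈ 𝓝 (f z)
  P_out : ∀ z ∈ P, Out (closure (φ '' ball 0 1)) z
  li : ∀ z ∈ closure (φ '' ball 0 1), ∃ N ∈ 𝓝 z, InjOn f N

namespace Sg

variable (σ : Sg)

/-- the rotation domain -/
def S : Set ℂ := σ.φ '' ball 0 1

/-- its closure -/
def K : Set ℂ := closure σ.S

/-- the closed invariant disc of radius `r` -/
def D (r : ℝ) : Set ℂ := σ.φ '' closedBall 0 r

/-- the invariant curve of radius `r` -/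
noncomputable def γ (r t : ℝ) : ℂ := σ.φ ((r : ℂ) * e t)

variable {r : ℝ} {z : ℂ}

theorem isOpen_S : IsOpen σ.S := by
  refine isOpen_iff_mem_nhds.2 ?_
  rintro _ ⟨ζ, h, rfl⟩
  exact σ.φ_open ζ h _ (isOpen_ball.mem_nhds h)

theorem isCompact_K : IsCompact σ.K := σ.bdd.isCompact_closure

theorem isConnected_K : IsConnected σ.K := ((isConnected_ball one_pos).image _ σ.φ_cont).closure

theorem K_not_P (hz : z ∈ σ.K) : z ∉ σ.P := fun h => (σ.P_out z h).notMem hz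

theorem Sg_nhds (hz : z ∈ σ.K) : σ.Pᶜ ∈ 𝓝 z :=
  σ.P_fin.isClosed.isOpen_compl.mem_nhds (σ.K_not_P hz)

theorem mapsTo_S : MapsTo σ.f σ.S σ.S := by
  rintro _ ⟨ζ, h, rfl⟩
  exact ⟨_, Sg_ball h _, (σ.conj ζ h).symm⟩

theorem mapsTo_K : MapsTo σ.f σ.K σ.K :=
  σ.mapsTo_S.closure_of_continuousOn (σ.f_cont.mono fun _ h => σ.K_not_P h)

theorem injOn_S : InjOn σ.f σ.S := by
  rintro _ ⟨a, ha, rfl⟩ _ ⟨b, hb, rfl⟩ h
  rw [σ.conj a ha, σ.conj b hb] at h
  rw [mul_left_cancel₀ (Complex.exp_ne_zero _) (σ.φ_inj (Sg_ball ha _) (Sg_ball hb _) h)]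

theorem D_sub (hr : r < 1) : σ.D r ⊆ σ.S := image_mono (closedBall_subset_ball hr)

theorem D_sub_K (hr : r < 1) : σ.D r ⊆ σ.K := (σ.D_sub hr).trans subset_closure

theorem D_mono {r' : ℝ} (h : r ≤ r') : σ.D r ⊆ σ.D r' := image_mono (closedBall_subset_closedBall h)

theorem isCompact_D (hr : r < 1) : IsCompact (σ.D r) :=
  (isCompact_closedBall 0 r).image_of_continuousOn (σ.φ_cont.mono (closedBall_subset_ball hr))

theorem image_D (hr : r < 1) : σ.f '' σ.D r = σ.D r := by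
  refine Subset.antisymm ?_ ?_
  · rintro _ ⟨_, ⟨ζ, h, rfl⟩, rfl⟩
    refine ⟨_, ?_, (σ.conj ζ (closedBall_subset_ball hr h)).symm⟩
    rwa [mem_closedBall_zero_iff, Sg_norm, ← mem_closedBall_zero_iff]
  · rintro _ ⟨ζ, h, rfl⟩
    refine ⟨_, ⟨e (-σ.α) * ζ, ?_, rfl⟩, ?_⟩
    · rwa [mem_closedBall_zero_iff, Sg_norm, ← mem_closedBall_zero_iff]
    · rw [σ.conj _ (Sg_ball (closedBall_subset_ball hr h) _), ← mul_assoc, ← e_add]
      simp [e]

theorem mem_D_of (hr : r < 1) (hz : z ∈ σ.S) (h : σ.f z ∈ σ.D r) : z ∈ σ.D r := by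
  obtain ⟨ζ, h1, rfl⟩ := hz
  obtain ⟨ξ, h2, h3⟩ := h
  rw [σ.conj ζ h1] at h3
  rw [σ.φ_inj (closedBall_subset_ball hr h2) (Sg_ball h1 _) h3, mem_closedBall_zero_iff,
    Sg_norm] at h2
  exact ⟨ζ, mem_closedBall_zero_iff.2 h2, rfl⟩

theorem γ_mem (hr : 0 ≤ r) (t : ℝ) : σ.γ r t ∈ σ.D r :=
  ⟨_, mem_closedBall_zero_iff.2 (Sg_norm' hr t).le, rfl⟩

theorem continuous_γ (hr : r ∈ Ico (0 : ℝ) 1) : Continuous (σ.γ r) :=
  σ.φ_cont.comp_continuous (continuous_const.mul continuous_e) (Sg_ball' hr)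

theorem f_γ (hr : r ∈ Ico (0 : ℝ) 1) (t : ℝ) : σ.f (σ.γ r t) = σ.γ r (t + σ.α) := by
  rw [γ, γ, σ.conj _ (Sg_ball' hr t), e_add, mul_comm, mul_assoc]

theorem γ_eq_iff (hr : r ∈ Ioo (0 : ℝ) 1) {s t : ℝ} :
    σ.γ r s = σ.γ r t ↔ ∃ m : ℤ, s - t = m := by
  rw [γ, γ, σ.φ_inj.eq_iff (Sg_ball' (Ioo_subset_Ico_self hr) s) (Sg_ball' (Ioo_subset_Ico_self hr) t),
    mul_right_inj' (Complex.ofReal_ne_zero.2 hr.1.ne'), e_eq_iff]

theorem exists_γ (hr : r < 1) (hz : z ∈ σ.D r) (h : σ.D r ∉ 𝓝 z) : ∃ t, z = σ.γ r t := by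
  obtain ⟨ζ, h1, rfl⟩ := hz
  obtain ⟨t, ht⟩ := exists_e ζ
  rcases (mem_closedBall_zero_iff.1 h1).eq_or_lt with h2 | h2
  · exact ⟨t, congrArg σ.φ (h2 ▸ ht)⟩
  · exact (h (σ.φ_open ζ (closedBall_subset_ball hr h1) _
      (closedBall_mem_nhds_of_mem (mem_ball_zero_iff.2 h2)))).elim

theorem eventually_in (hz : z ∈ σ.S) :
    ∃ r₀ < 1, ∀ r ∈ Ico r₀ 1, z ∈ σ.D r ∧ ∀ t, z ≠ σ.γ r t := by
  obtain ⟨ζ, h, rfl⟩ := hz
  have h1 := mem_ball_zero_iff.1 h
  refine ⟨(1 + ‖ζ‖) / 2, by linarith, fun r hr => ?_⟩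
  have h2 : ‖ζ‖ < r := by linarith [hr.1]
  have h3 : 0 ≤ r := (norm_nonneg ζ).trans h2.le
  refine ⟨⟨ζ, mem_closedBall_zero_iff.2 h2.le, rfl⟩, fun t ht => h2.ne ?_⟩
  rw [σ.φ_inj h (Sg_ball' ⟨h3, hr.2⟩ t) ht, Sg_norm' h3]

theorem unif {δ : ℝ} (hδ : 0 < δ) : ∃ η > 0, ∀ z ∈ σ.K, ∀ u ∈ ball z η, u ∉ σ.P ∧
    ∀ w ∈ ball z η, dist (σ.f u) (σ.f w) < δ := by
  obtain ⟨η, h0, h⟩ := Sg_leb σ.isCompact_K
    (p := fun N => ∀ u ∈ N, u ∉ σ.P ∧ ∀ w ∈ N, dist (σ.f u) (σ.f w) < δ) fun z hz =>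
      ⟨_, inter_mem (σ.Sg_nhds hz) (σ.f_cont.continuousAt (σ.Sg_nhds hz)
        (ball_mem_nhds _ (half_pos hδ))), fun u hu => ⟨hu.1, fun w hw =>
          (dist_triangle_right _ _ _).trans_lt ((add_lt_add hu.2 hw.2).trans_eq (add_halves δ))⟩⟩
  refine ⟨η, h0, fun z hz u hu => ?_⟩
  obtain ⟨N, h1, h2⟩ := h z hz
  exact ⟨(h1 u (h2 hu)).1, fun w hw => (h1 u (h2 hu)).2 w (h2 hw)⟩

theorem unif_inj : ∃ ρ > 0, ∀ z ∈ σ.K, InjOn σ.f (ball z ρ) ∧ Disjoint (ball z ρ) σ.P := by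
  obtain ⟨η, h0, h⟩ := Sg_leb σ.isCompact_K (p := fun N => InjOn σ.f N ∧ N ⊆ σ.Pᶜ) fun z hz =>
    (σ.li z hz).elim fun N hN => ⟨_, inter_mem hN.1 (σ.Sg_nhds hz), hN.2.mono inter_subset_left,
      inter_subset_right⟩
  refine ⟨η, h0, fun z hz => ?_⟩
  obtain ⟨N, h1, h2⟩ := h z hz
  exact ⟨h1.1.mono h2, subset_compl_iff_disjoint_right.1 (h2.trans h1.2)⟩

theorem unif_surj {ρ : ℝ} (hρ : 0 < ρ) : ∃ η > 0, ∀ z ∈ σ.K, ∀ u ∈ ball z η,
    ∀ y ∈ ball (σ.f u) η, ∃ w ∈ ball u ρ, σ.f w = y := by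
  have h := σ.isCompact_K.eventually_forall_of_forall_eventually (x₀ := (0 : ℝ))
    (P := fun η z => ∀ u ∈ ball z η, ∀ y ∈ ball (σ.f u) η, ∃ w ∈ ball u ρ, σ.f w = y) ?_
  · obtain ⟨η, h1, h2⟩ := ((h.filter_mono (nhdsWithin_le_nhds (s := Ioi 0))).and
      self_mem_nhdsWithin).exists
    exact ⟨η, h2, h1⟩
  intro z hz
  obtain ⟨ε, h1, h2⟩ := Metric.mem_nhds_iff.1
    (σ.f_open z (σ.K_not_P hz) _ (ball_mem_nhds z (half_pos hρ)))
  obtain ⟨s, h3, h4⟩ := Metric.mem_nhds_iff.1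
    (σ.f_cont.continuousAt (σ.Sg_nhds hz) (ball_mem_nhds _ (half_pos h1)))
  filter_upwards [ball_mem_nhds _ (by positivity : 0 < min (s / 2) (min (ρ / 4) (ε / 2)))]
    with p hp u hu y hy
  simp only [mem_ball, Prod.dist_eq, max_lt_iff, lt_min_iff, Real.dist_eq, sub_zero, abs_lt]
    at hp hu hy
  have h5 := dist_triangle u p.2 z
  have h6 : dist (σ.f u) (σ.f z) < ε / 2 := h4 (mem_ball.2 (by linarith [hp.1.1.2, hp.1.2]))
  obtain ⟨w, h7, rfl⟩ := h2 (mem_ball.2 ((dist_triangle y (σ.f u) _).trans_lt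
    (by linarith [hp.2.2.1.2])))
  exact ⟨w, mem_ball.2 ((dist_triangle_right w u z).trans_lt
    (by linarith [mem_ball.1 h7, hp.2.1.1.2, hp.2.1.2])), rfl⟩

theorem cont_of_lift {ρ : ℝ} (hi : InjOn σ.f (ball z ρ)) (hP : Disjoint (ball z ρ) σ.P)
    {A : Set ℝ} {t : ℝ} {Γ : ℝ → ℂ} {ρ' : ℝ} (hρ : ρ' < ρ)
    (hΓ : ∀ᶠ u in 𝓝[A] t, Γ u ∈ ball z ρ') (ht : Γ t ∈ ball z ρ')
    (hc : ContinuousWithinAt (σ.f ∘ Γ) A t) : ContinuousWithinAt Γ A t := by
  intro N hN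
  have h1 := ball_subset_ball hρ.le ht
  rw [Filter.mem_map]
  filter_upwards [hΓ, Filter.mem_map.1 (hc (σ.f_open _ (disjoint_left.1 hP h1) _
    (inter_mem hN (isOpen_ball.mem_nhds h1))))] with u hu ⟨w, h2, h3⟩
  exact mem_preimage.2 (hi h2.2 (ball_subset_ball hρ.le hu) h3 ▸ h2.1)

theorem exists_P : ∃ (E : Set ℂ) (δ : ℝ), 0 < δ ∧ IsClosed E ∧ σ.P ⊆ E ∧
    (∀ z ∈ σ.K, Disjoint (ball z δ) E) ∧
    ∀ z ∈ E, ∃ C ⊆ E, IsPreconnected C ∧ ¬ Bornology.IsBounded C ∧ z ∈ C := by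
  choose! C h1 h2 h3 h4 h5 using fun z hz => (σ.P_out z hz).exists_closed σ.isCompact_K
  have hE : IsClosed (⋃ p ∈ σ.P, C p) := σ.P_fin.isClosed_biUnion h1
  obtain ⟨δ, h0, h⟩ := Sg_leb σ.isCompact_K (p := fun N => N ⊆ (⋃ p ∈ σ.P, C p)ᶜ) fun z hz =>
    ⟨_, hE.isOpen_compl.mem_nhds fun h => by
      obtain ⟨p, hp, h⟩ := mem_iUnion₂.1 h
      exact disjoint_left.1 (h5 p hp) h hz, subset_rfl⟩
  refine ⟨_, δ, h0, hE, fun p hp => mem_biUnion hp (h4 p hp), fun z hz => ?_, fun z hz => ?_⟩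
  · obtain ⟨N, h6, h7⟩ := h z hz
    exact subset_compl_iff_disjoint_right.1 (h7.trans h6)
  · obtain ⟨p, hp, h⟩ := mem_iUnion₂.1 hz
    exact ⟨C p, subset_biUnion_of_mem hp, h2 p hp, h3 p hp, h⟩

end Sg

end Pool.Agent.Work.MP_042f46_an
end

-- merged part: Pool.Agent.Work.MP_042f46_an.Rot
section
/-!
# Irrational rotations; the invariant curves wind around the centre

Plans.  `rot_cover`: the multiples `k • α`, `k : ℕ`, are dense in `AddCircle 1` (`AddCircle.denseRange_zsmul_coe_iff`, `denseRange_zsmul_iff_nsmul`); the open sets `{x | x - k • α ∈ image of Ioo 0 ε}` cover the compact circle.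
`rot_sep`: finitely many positive numbers `|n α - round (n α)|`.  `rot_rec`: by `rot_cover` there are `n ≥ 1` with `n α` arbitrarily close to an integer (apply it to `x = -α` with `-α` for `α`), and `e (n α) ≠ 1`.
`exists_wind`: `F (s, t) = φ (r e t) - φ (-(c s) r e t)`, with `c s = max 0 (min s 1)`, is continuous and nonzero on `ℝ × ℝ`; lift it through `exp` (`Complex.isCoveringMapOn_exp.existsUnique_continuousMap_lifts`) to `L`.
A continuous function on a preconnected space with `exp` constant is constant (`exp_const`): `L (s, t + 1) - L (s, t)` is a constant `Δ`, `L (1, t + 1 / 2) - L (1, t)` is a constant `c` with `exp c = -1`, and `Δ = 2 c ≠ 0`.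
`isPreconnected_punct`: the image of `Ioo 0 1 ×ˢ univ` under `(r, t) ↦ γ r t`.
-/

open Set Metric Topology Filter

namespace Pool.Agent.Work.MP_042f46_an

theorem Rot_dense {α : ℝ} (hα : Irrational α) {ε : ℝ} (hε : 0 < ε) (x : ℝ) :
    ∃ k : ℕ, ∃ m : ℤ, x - k * α - m ∈ Ioo 0 ε := by
  have : Fact ((0 : ℝ) < 1) := ⟨one_pos⟩
  have h1 : DenseRange (· • (α : AddCircle (1 : ℝ)) : ℤ → AddCircle (1 : ℝ)) :=
    AddCircle.denseRange_zsmul_coe_iff.2 (by simpa using hα)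
  have h2 : DenseRange (· • (α : AddCircle (1 : ℝ)) : ℕ → AddCircle (1 : ℝ)) :=
    denseRange_zsmul_iff_nsmul.1 h1
  have ho : IsOpen (((↑) : ℝ → AddCircle (1 : ℝ)) '' Ioo (x - ε) x) :=
    QuotientAddGroup.isOpenMap_coe _ isOpen_Ioo
  have hn : (((↑) : ℝ → AddCircle (1 : ℝ)) '' Ioo (x - ε) x).Nonempty :=
    (nonempty_Ioo.2 (by linarith)).image _
  obtain ⟨k, y, hy, hk⟩ := h2.exists_mem_open ho hn
  have hk' : ((y : ℝ) : AddCircle (1 : ℝ)) = (((k : ℝ) * α : ℝ) : AddCircle (1 : ℝ)) := by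
    rw [hk, ← nsmul_eq_mul, AddCircle.coe_nsmul]
  have hm := QuotientAddGroup.eq.1 hk'
  obtain ⟨m, hm⟩ := AddSubgroup.mem_zmultiples_iff.1 hm
  refine ⟨k, -m, ?_⟩
  have hm' : (m : ℝ) = -y + k * α := by simpa using hm
  push_cast
  rw [hm']
  constructor <;> linarith [hy.1, hy.2]

theorem rot_cover {α : ℝ} (hα : Irrational α) {ε : ℝ} (hε : 0 < ε) :
    ∃ N : ℕ, ∀ x : ℝ, ∃ k ≤ N, ∃ m : ℤ, x - k * α - m ∈ Ioo 0 ε := by
  let U : ℕ → Set ℝ := fun k => ⋃ m : ℤ, {x : ℝ | x - k * α - m ∈ Ioo 0 ε}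
  have hU : ∀ k, IsOpen (U k) := fun k =>
    isOpen_iUnion fun m => isOpen_Ioo.preimage (by fun_prop)
  have hc : Icc (0 : ℝ) 1 ⊆ ⋃ k, U k := by
    intro x _
    obtain ⟨k, m, h⟩ := Rot_dense hα hε x
    exact mem_iUnion.2 ⟨k, mem_iUnion.2 ⟨m, h⟩⟩
  obtain ⟨t, ht⟩ := isCompact_Icc.elim_finite_subcover U hU hc
  refine ⟨t.sup id, fun x => ?_⟩
  have hx : Int.fract x ∈ Icc (0 : ℝ) 1 := ⟨Int.fract_nonneg x, (Int.fract_lt_one x).le⟩
  obtain ⟨k, hk, hx'⟩ := mem_iUnion₂.1 (ht hx)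
  obtain ⟨m, hm⟩ := mem_iUnion.1 hx'
  refine ⟨k, Finset.le_sup (f := id) hk, m + ⌊x⌋, ?_⟩
  have : x - k * α - ((m + ⌊x⌋ : ℤ) : ℝ) = Int.fract x - k * α - m := by
    push_cast
    rw [Int.fract]
    ring
  rw [this]
  exact hm

theorem rot_sep {α : ℝ} (hα : Irrational α) (T : ℕ) :
    ∃ ε > 0, ∀ n : ℕ, 1 ≤ n → n ≤ T → ∀ m : ℤ, ε ≤ |n * α - m| := by
  induction T with
  | zero => exact ⟨1, one_pos, fun n h1 h2 => by omega⟩
  | succ T ih =>
    obtain ⟨ε, hε, h⟩ := ih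
    have hi : Irrational (((T + 1 : ℕ) : ℝ) * α) := hα.natCast_mul (Nat.succ_ne_zero T)
    have hp : 0 < |((T + 1 : ℕ) : ℝ) * α - round (((T + 1 : ℕ) : ℝ) * α)| :=
      abs_pos.2 (sub_ne_zero.2 (hi.ne_int _))
    refine ⟨min ε _, lt_min hε hp, fun n h1 h2 m => ?_⟩
    rcases Nat.lt_or_ge n (T + 1) with h3 | h3
    · exact (min_le_left _ _).trans (h n h1 (by omega) m)
    · obtain rfl : n = T + 1 := le_antisymm h2 h3
      exact (min_le_right _ _).trans (round_le _ m)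

theorem rot_rec {α : ℝ} (hα : Irrational α) {ζ : ℂ} (hζ : ζ ≠ 0) :
    ∃ᶠ w in 𝓝[≠] ζ, ∃ n : ℕ, w = e (n * α) * ζ := by
  rw [Filter.frequently_iff]
  intro U hU
  obtain ⟨V, hV, hVU⟩ := mem_nhdsWithin_iff_exists_mem_nhds_inter.1 hU
  have he0 : e 0 = 1 := by simp [e]
  have hc : ContinuousAt (fun t : ℝ => e t * ζ) 0 :=
    (continuous_e.mul continuous_const).continuousAt
  have hV' : (fun t : ℝ => e t * ζ) ⁻¹' V ∈ 𝓝 (0 : ℝ) := by
    apply hc.preimage_mem_nhds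
    simpa [he0] using hV
  obtain ⟨δ, hδ, hb⟩ := Metric.mem_nhds_iff.1 hV'
  obtain ⟨k, m, h1, h2⟩ := Rot_dense hα.neg (lt_min hδ one_pos) 0
  have h3 : (0 : ℝ) - k * -α - m = k * α - m := by ring
  rw [h3] at h1 h2
  have h4 : e (k * α) = e (k * α - m) := e_eq_iff.2 ⟨m, by ring⟩
  refine ⟨e (k * α) * ζ, hVU ⟨?_, ?_⟩, k, rfl⟩
  · rw [h4]
    apply hb
    rw [mem_ball_zero_iff, Real.norm_eq_abs, abs_of_pos h1]
    exact h2.trans_le (min_le_left _ _)
  · intro h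
    have h5 : e (k * α - m) = e 0 := by
      rw [← h4, he0]
      exact mul_right_cancel₀ hζ (by simpa using h)
    obtain ⟨j, hj⟩ := e_eq_iff.1 h5
    have h6 : (0 : ℝ) < j := by linarith
    have h7 : (j : ℝ) < 1 := by linarith [min_le_right δ 1]
    have h8 : (0 : ℤ) < j := by exact_mod_cast h6
    have h9 : j < (1 : ℤ) := by exact_mod_cast h7
    omega

theorem exp_const {A : Type} [TopologicalSpace A] {s : Set A} (hs : IsPreconnected s) {g : A → ℂ}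
    (hg : ContinuousOn g s) {c : ℂ} (h : ∀ a ∈ s, Complex.exp (g a) = c) {a b : A} (ha : a ∈ s)
    (hb : b ∈ s) : g a = g b := by
  refine Complex.isCoveringMap_exp.constOn_of_comp hs hg (fun x hx y hy => ?_) ha hb
  exact Subtype.ext ((h x hx).trans (h y hy).symm)

theorem Rot_e_half (t : ℝ) : e (t + 1 / 2) = -e t := by
  rw [e_add]
  have : e (1 / 2) = -1 := by
    rw [e, ← Complex.exp_pi_mul_I]
    congr 1
    push_cast
    ring
  rw [this]
  ring

theorem Rot_e_one (t : ℝ) : e (t + 1) = e t := e_eq_iff.2 ⟨1, by simp⟩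

theorem Rot_e_ne (t : ℝ) : e t ≠ 0 := Complex.exp_ne_zero _

namespace Sg

variable (σ : Sg)

theorem exists_wind {r : ℝ} (hr : r ∈ Ioo (0 : ℝ) 1) : ∃ l : ℝ → ℂ, Continuous l ∧
    (∀ t, Complex.exp (l t) = σ.γ r t - σ.φ 0) ∧ ∀ t, l (t + 1) ≠ l t := by
  let c : ℝ → ℝ := fun s => max 0 (min s 1)
  have hcc : Continuous c := by fun_prop
  have hc0 : ∀ s, 0 ≤ c s := fun s => le_max_left _ _
  have hc1 : ∀ s, c s ≤ 1 := fun s => max_le zero_le_one (min_le_right _ _)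
  have hc00 : c 0 = 0 := by simp [c]
  have hc11 : c 1 = 1 := by simp [c]
  let a : ℝ × ℝ → ℂ := fun p => (r : ℂ) * e p.2
  let b : ℝ × ℝ → ℂ := fun p => -((c p.1 : ℂ) * ((r : ℂ) * e p.2))
  have hac : Continuous a := continuous_const.mul (continuous_e.comp continuous_snd)
  have hbc : Continuous b :=
    ((Complex.continuous_ofReal.comp (hcc.comp continuous_fst)).mul hac).neg
  have hna : ∀ p, ‖a p‖ = r := fun p => by
    simp [a, norm_e, abs_of_pos hr.1]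
  have ha : ∀ p, a p ∈ ball (0 : ℂ) 1 := fun p => by
    rw [mem_ball_zero_iff, hna]
    exact hr.2
  have hb : ∀ p, b p ∈ ball (0 : ℂ) 1 := fun p => by
    rw [mem_ball_zero_iff]
    have : ‖b p‖ = c p.1 * r := by
      have := hna p
      simp only [a] at this
      simp only [b, norm_neg]
      rw [norm_mul, this, Complex.norm_real, Real.norm_eq_abs, abs_of_nonneg (hc0 _)]
    rw [this]
    nlinarith [hc0 p.1, hc1 p.1, hr.1, hr.2]
  let F : ℝ × ℝ → ℂ := fun p => σ.φ (a p) - σ.φ (b p)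
  have hF : Continuous F :=
    (σ.φ_cont.comp_continuous hac ha).sub (σ.φ_cont.comp_continuous hbc hb)
  have hF0 : ∀ p, F p ≠ 0 := fun p h => by
    have h1 : a p = b p := σ.φ_inj (ha p) (hb p) (sub_eq_zero.1 h)
    have h2 : (1 + (c p.1 : ℂ)) * a p = 0 := by
      simp only [a, b] at h1 ⊢
      linear_combination h1
    rcases mul_eq_zero.1 h2 with h3 | h3
    · have h4 : (1 + c p.1 : ℝ) = 0 := by exact_mod_cast h3
      linarith [hc0 p.1]
    · have := hna p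
      rw [h3, norm_zero] at this
      exact hr.1.ne this
  obtain ⟨L, ⟨-, hL⟩, -⟩ := Complex.isCoveringMapOn_exp.existsUnique_continuousMap_lifts
    (⟨F, hF⟩ : C(ℝ × ℝ, ℂ)) (a₀ := (0, 0)) (Complex.exp_log (hF0 (0, 0))) hF0
  have hL' : ∀ p, Complex.exp (L p) = F p := fun p => congrFun hL p
  have hper : ∀ s t, F (s, t + 1) = F (s, t) := fun s t => by
    simp only [F, a, b, Rot_e_one]
  have hhalf : ∀ t, F (1, t + 1 / 2) = -F (1, t) := fun t => by
    simp only [F, a, b, Rot_e_half, hc11]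
    simp
  have h1 : ∀ p q : ℝ × ℝ, L (p.1, p.2 + 1) - L p = L (q.1, q.2 + 1) - L q := fun p q => by
    refine exp_const (s := univ) (g := fun p : ℝ × ℝ => L (p.1, p.2 + 1) - L p) (c := 1)
      isPreconnected_univ (Continuous.continuousOn (by fun_prop)) (fun p _ => ?_)
      (mem_univ p) (mem_univ q)
    rw [Complex.exp_sub, hL', hL', hper, div_self (hF0 _)]
  have h2 : ∀ t u : ℝ, L (1, t + 1 / 2) - L (1, t) = L (1, u + 1 / 2) - L (1, u) := fun t u => by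
    refine exp_const (s := univ) (g := fun t : ℝ => L (1, t + 1 / 2) - L (1, t)) (c := -1)
      isPreconnected_univ (Continuous.continuousOn (by fun_prop)) (fun p _ => ?_)
      (mem_univ t) (mem_univ u)
    rw [Complex.exp_sub, hL', hL', hhalf, neg_div, div_self (hF0 _)]
  refine ⟨fun t => L (0, t), by fun_prop, fun t => ?_, fun t h => ?_⟩
  · rw [hL']
    simp [F, a, b, hc00, γ]
  · have h3 := h1 (0, t) (1, 0)
    have h4 := h2 (0 + 1 / 2) 0
    have h5 : (0 : ℝ) + 1 / 2 + 1 / 2 = 0 + 1 := by ring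
    rw [h5] at h4
    simp only at h h3
    have h6 : L (1, 0 + 1 / 2) = L (1, 0) := by linear_combination -(1 / 2 : ℂ) * (h3 - h + h4)
    have h7 := hhalf 0
    rw [← hL', h6, hL'] at h7
    exact hF0 (1, 0) (by linear_combination (1 / 2 : ℂ) * h7)

theorem iter_φ {ζ : ℂ} (hζ : ζ ∈ ball (0 : ℂ) 1) (n : ℕ) :
    σ.f^[n] (σ.φ ζ) = σ.φ (e (n * σ.α) * ζ) := by
  induction n with
  | zero => simp [e]
  | succ n ih =>
    have h : e (n * σ.α) * ζ ∈ ball (0 : ℂ) 1 := by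
      rw [mem_ball_zero_iff] at hζ ⊢
      rwa [norm_mul, norm_e, one_mul]
    rw [Function.iterate_succ_apply', ih, σ.conj _ h, ← mul_assoc, ← e_add]
    congr 3
    push_cast
    ring

theorem rec_S {z : ℂ} (hz : z ∈ σ.S) (h : z ≠ σ.φ 0) :
    ∃ᶠ w in 𝓝[≠] z, ∃ n : ℕ, w = σ.f^[n] z := by
  obtain ⟨ζ, hζ, rfl⟩ := hz
  have h0 : ζ ≠ 0 := fun h' => h (by rw [h'])
  have hb : ball (0 : ℂ) 1 ∈ 𝓝 ζ := isOpen_ball.mem_nhds hζ
  have ht : Tendsto σ.φ (𝓝[≠] ζ) (𝓝[≠] (σ.φ ζ)) := by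
    refine tendsto_nhdsWithin_iff.2 ⟨?_, ?_⟩
    · exact (σ.φ_cont.continuousAt hb).tendsto.mono_left nhdsWithin_le_nhds
    · filter_upwards [mem_nhdsWithin_of_mem_nhds hb, self_mem_nhdsWithin] with w hw hw' hw''
      exact hw' (σ.φ_inj hw hζ hw'')
  refine ht.frequently ((rot_rec σ.irr h0).mono ?_)
  rintro w ⟨n, rfl⟩
  exact ⟨n, (σ.iter_φ hζ n).symm⟩

theorem isPreconnected_punct : IsPreconnected (σ.S \ {σ.φ 0}) := by
  let a : ℝ × ℝ → ℂ := fun p => (p.1 : ℂ) * e p.2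
  have hac : Continuous a :=
    (Complex.continuous_ofReal.comp continuous_fst).mul (continuous_e.comp continuous_snd)
  have hna : ∀ p, ‖a p‖ = |p.1| := fun p => by simp [a, norm_e]
  have ha : MapsTo a (Ioo (0 : ℝ) 1 ×ˢ (univ : Set ℝ)) (ball (0 : ℂ) 1) := fun p hp => by
    rw [mem_ball_zero_iff, hna, abs_of_pos hp.1.1]
    exact hp.1.2
  have h0 : (0 : ℂ) ∈ ball (0 : ℂ) 1 := mem_ball_self one_pos
  have : σ.S \ {σ.φ 0} = (σ.φ ∘ a) '' (Ioo (0 : ℝ) 1 ×ˢ (univ : Set ℝ)) := by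
    ext z
    constructor
    · rintro ⟨⟨ζ, hζ, rfl⟩, hz⟩
      have h1 : ζ ≠ 0 := fun h' => hz (by rw [h']; rfl)
      obtain ⟨t, ht⟩ := exists_e ζ
      refine ⟨(‖ζ‖, t), ⟨⟨norm_pos_iff.2 h1, mem_ball_zero_iff.1 hζ⟩, mem_univ _⟩, ?_⟩
      simp only [Function.comp, a]
      rw [← ht]
    · rintro ⟨p, hp, rfl⟩
      refine ⟨⟨a p, ha hp, rfl⟩, fun h => ?_⟩
      have h1 : a p = 0 := σ.φ_inj (ha hp) h0 h
      have h2 := hna p
      rw [h1, norm_zero, abs_of_pos hp.1.1] at h2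
      exact hp.1.1.ne h2
  rw [this]
  exact (isPreconnected_Ioo.prod isPreconnected_univ).image _
    (σ.φ_cont.comp hac.continuousOn ha)

end Sg

end Pool.Agent.Work.MP_042f46_an
end

-- merged part: Pool.Agent.Work.MP_042f46_an.RM5
section
/-!
# Uniformisation of the region inside an invariant curve, up to the boundary

Plan.  Let `g` be the Riemann map of `E = (ext φ ρ)ᶜ` (`rmt`), `ψ₀` its inverse (`inv_diff`).  For `1 < ρ₁ < ρ` the compact set `(φ '' {ρ₁ < ‖ζ‖})ᶜ ⊆ E` is mapped by `g` into a ball of radius `r < 1`, so for `r < ‖w‖ < 1` one has `ψ₀ w = φ (h w)` with `ρ₁ < ‖h w‖ < ρ`, where `h = invFunOn φ _ ∘ ψ₀` is holomorphic and injective.  `reflect_circle` extends `h` to `H`; on the circle `‖H‖ = ρ`; outside the circle `‖H‖ > ρ` and `H` is injective there by the symmetry.  `H` is injective on the whole annulus: if `H w₁ = H w₂` with `w₁ ≠ w₂`, the images of disjoint neighbourhoods are neighbourhoods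 of the common value (open mapping, `H` is not locally constant), and share a value of norm `≠ ρ`, whose two preimages are on the same side of the circle.  Put `ψ = ψ₀` in the unit ball and `φ ∘ H` outside.
`β`: a continuous logarithm of `s ↦ H (e s) / ρ` on the real line (`Complex.isCoveringMap_exp` style lifting, or integrate `w H'(w) / H(w)`); `β' (s) = e s * H'(e s) / H (e s)` is real, not zero (`deriv_ne_of_injOn`) and `≥ 0` because it is the radial derivative of `log ‖H‖` and `‖H‖ < ρ` inside.  `β (s + 1) - β s` is a positive integer (`e_eq_iff`), and it is `1`: otherwise the intermediate value theorem gives `s' ∈ (s, s + 1)` with `β s' = β s + 1`, against injectivity.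
-/

open Set Metric Topology Filter

namespace Pool.Agent.Work.MP_042f46_an

theorem RM5_freq {c : ℂ} (hc : c ≠ 0) : ∃ᶠ u in 𝓝 c, ‖u‖ < ‖c‖ := by
  have : c ∈ closure (ball (0 : ℂ) ‖c‖) := by
    rw [closure_ball _ (norm_ne_zero_iff.2 hc)]
    simp
  simpa using mem_closure_iff_frequently.1 this

theorem RM5_open (a b : ℝ) : IsOpen {w : ℂ | a < ‖w‖ ∧ ‖w‖ < b} :=
  (isOpen_lt continuous_const continuous_norm).inter (isOpen_lt continuous_norm continuous_const)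

theorem RM5_star {R : ℝ} {w : ℂ} (h1 : 1 < ‖w‖) (h2 : ‖w‖ < R) :
    R⁻¹ < ‖((starRingEnd ℂ) w)⁻¹‖ ∧ ‖((starRingEnd ℂ) w)⁻¹‖ < 1 := by
  rw [norm_inv, Complex.norm_conj]
  exact ⟨inv_strictAnti₀ (by linarith) h2, inv_lt_one_of_one_lt₀ h1⟩

/-- norms and injectivity of the reflected map -/
theorem RM5_refl {H : ℂ → ℂ} {R ρ : ℝ} (hR : 1 < R) (hρ : 0 < ρ)
    (hH : DifferentiableOn ℂ H {w | R⁻¹ < ‖w‖ ∧ ‖w‖ < R})
    (hs : ∀ w, R⁻¹ < ‖w‖ → ‖w‖ < R → H ((starRingEnd ℂ) w)⁻¹ * (starRingEnd ℂ) (H w) = (ρ : ℂ) ^ 2)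
    (hn : ∀ w, R⁻¹ < ‖w‖ → ‖w‖ < 1 → ‖H w‖ < ρ) (hi : InjOn H {w | R⁻¹ < ‖w‖ ∧ ‖w‖ < 1}) :
    (∀ w, ‖w‖ = 1 → ‖H w‖ = ρ) ∧ (∀ w, 1 < ‖w‖ → ‖w‖ < R → ρ < ‖H w‖) ∧
      InjOn H {w | R⁻¹ < ‖w‖ ∧ ‖w‖ < R} := by
  have hR' : R⁻¹ < 1 := inv_lt_one_of_one_lt₀ hR
  have hs' : ∀ w, R⁻¹ < ‖w‖ → ‖w‖ < R → ‖H ((starRingEnd ℂ) w)⁻¹‖ * ‖H w‖ = ρ ^ 2 := fun w a b => by
    simpa [abs_of_pos hρ] using congrArg norm (hs w a b)
  have h1 : ∀ w, ‖w‖ = 1 → ‖H w‖ = ρ := fun w hw => by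
    have := hs' w (hw ▸ hR') (hw ▸ hR)
    rw [← Complex.inv_eq_conj hw, inv_inv, ← sq] at this
    exact (pow_left_inj₀ (norm_nonneg _) hρ.le two_ne_zero).1 this
  have h2 : ∀ w, 1 < ‖w‖ → ‖w‖ < R → ρ < ‖H w‖ := fun w a b => by
    have k1 := hs' w (hR'.trans a) b
    have k2 := hn _ (RM5_star a b).1 (RM5_star a b).2
    by_contra k3
    nlinarith [norm_nonneg (H w), norm_nonneg (H ((starRingEnd ℂ) w)⁻¹), not_lt.1 k3]
  have h3 : ∀ w, R⁻¹ < ‖w‖ → ‖w‖ < R → (‖H w‖ < ρ → ‖w‖ < 1) ∧ (ρ < ‖H w‖ → 1 < ‖w‖) ∧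
      (‖H w‖ = ρ → ‖w‖ = 1) := fun w a b => by
    rcases lt_trichotomy ‖w‖ 1 with h | h | h
    · have := hn w a h
      exact ⟨fun _ => h, fun _ => by linarith, fun _ => by linarith⟩
    · have := h1 w h
      exact ⟨fun _ => by linarith, fun _ => by linarith, fun _ => h⟩
    · have := h2 w h b
      exact ⟨fun _ => by linarith, fun _ => h, fun _ => by linarith⟩
  have h4 : ∀ w, ‖w‖ = 1 → 𝓝 (H w) ≤ map H (𝓝 w) := fun w hw => by
    have hA := (RM5_open R⁻¹ R).mem_nhds (show w ∈ _ from ⟨hw ▸ hR', hw ▸ hR⟩)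
    refine (hH.analyticAt hA).eventually_constant_or_nhds_le_map_nhds.resolve_left fun h => ?_
    obtain ⟨u, k1, k2, k3⟩ := ((RM5_freq (c := w) (norm_ne_zero_iff.1 (by rw [hw]; norm_num))).and_eventually
      (h.and hA)).exists
    have := hn u k3.1 (hw ▸ k1)
    rw [k2, h1 w hw] at this
    exact lt_irrefl _ this
  refine ⟨h1, h2, fun w hw w' hw' e => ?_⟩
  obtain ⟨a1, a2, a3⟩ := h3 w hw.1 hw.2
  obtain ⟨b1, b2, b3⟩ := h3 w' hw'.1 hw'.2
  rw [← e] at b1 b2 b3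
  rcases lt_trichotomy ‖H w‖ ρ with h | h | h
  · exact hi ⟨hw.1, a1 h⟩ ⟨hw'.1, b1 h⟩ e
  · by_contra hne
    obtain ⟨U, V, hU, hV, mU, mV, hd⟩ := t2_separation hne
    have k1 := h4 w (a3 h) (image_mem_map (inter_mem (hU.mem_nhds mU) ((RM5_open _ _).mem_nhds hw)))
    have k2 := h4 w' (b3 h) (image_mem_map (inter_mem (hV.mem_nhds mV) ((RM5_open _ _).mem_nhds hw')))
    rw [← e] at k2
    obtain ⟨_, c1, ⟨u, ⟨u1, u2⟩, rfl⟩, v, ⟨v1, v2⟩, c2⟩ := ((RM5_freq (c := H w)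
      (norm_ne_zero_iff.1 (by rw [h]; exact hρ.ne'))).and_eventually (inter_mem k1 k2)).exists
    rw [h] at c1
    have := hi ⟨v2.1, (h3 v v2.1 v2.2).1 (c2 ▸ c1)⟩ ⟨u2.1, (h3 u u2.1 u2.2).1 c1⟩ c2
    exact disjoint_left.1 hd u1 (this ▸ v1)
  · have k := hs w hw.1 hw.2
    rw [← hs w' hw'.1 hw'.2, ← e] at k
    have := hi (RM5_star (a2 h) hw.2) (RM5_star (b2 h) hw'.2) (mul_right_cancel₀
      ((map_ne_zero _).2 (norm_ne_zero_iff.1 (hρ.trans h).ne')) k)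
    exact (starRingEnd ℂ).injective (inv_injective this)

theorem RM5_e (t : ℝ) : HasDerivAt e (2 * (Real.pi : ℂ) * Complex.I * e t) t := by
  have := ((hasDerivAt_id (t : ℂ)).const_mul (2 * (Real.pi : ℂ) * Complex.I)).cexp.comp_ofReal
  rwa [mul_one, mul_comm (Complex.exp _)] at this

/-- a differentiable argument along the circle -/
theorem RM5_lift {H : ℂ → ℂ} {A : Set ℂ} {ρ : ℝ} (hA : IsOpen A) (hm : ∀ s, e s ∈ A) (hρ : 0 < ρ)
    (hH : DifferentiableOn ℂ H A) (hn : ∀ s, ‖H (e s)‖ = ρ) :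
    ∃ β : ℝ → ℝ, (∀ s, HasDerivAt β (e s * deriv H (e s) / H (e s)).re s) ∧
      (∀ s, (e s * deriv H (e s) / H (e s)).im = 0) ∧ ∀ s, H (e s) = (ρ : ℂ) * e (β s) := by
  have h0 : ∀ s, H (e s) ≠ 0 := fun s => norm_ne_zero_iff.1 (by rw [hn]; exact hρ.ne')
  have hq : Continuous fun s => e s * deriv H (e s) / H (e s) :=
    (continuous_e.mul ((hH.deriv hA).continuousOn.comp_continuous continuous_e hm)).div
      (hH.continuousOn.comp_continuous continuous_e hm) h0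
  obtain ⟨b, hb⟩ := exists_e (H (e 0))
  rw [hn] at hb
  obtain ⟨B, hB, B0⟩ : ∃ B : ℝ → ℂ, (∀ s, HasDerivAt B (e s * deriv H (e s) / H (e s)) s) ∧ B 0 = b :=
    ⟨fun s => b + ∫ x in (0 : ℝ)..s, e x * deriv H (e x) / H (e x),
      fun s => (hq.integral_hasStrictDerivAt 0 s).hasDerivAt.const_add _, by simp⟩
  have hd : ∀ s, HasDerivAt (fun s => H (e s) * Complex.exp (-(2 * Real.pi * Complex.I) * B s)) 0 s :=
    fun s => by
      have k1 := ((hH.differentiableAt (hA.mem_nhds (hm s))).hasDerivAt.scomp s (RM5_e s)).mul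
        ((hB s).const_mul (-(2 * Real.pi * Complex.I))).cexp
      refine k1.congr_deriv ?_
      have := h0 s
      simp only [Function.comp, smul_eq_mul]
      field_simp
      ring
  have h1 : ∀ s, H (e s) = ρ * Complex.exp (2 * Real.pi * Complex.I * B s) := fun s => by
    have k := is_const_of_deriv_eq_zero (fun s => (hd s).differentiableAt) (fun s => (hd s).deriv) s 0
    rw [hb, B0, e.eq_1 b, mul_assoc (ρ : ℂ), ← Complex.exp_add, neg_mul, neg_mul, add_neg_cancel,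
      Complex.exp_zero, mul_one, Complex.exp_neg] at k
    rw [← k, inv_mul_cancel_right₀ (Complex.exp_ne_zero _)]
  have h2 : ∀ s, (B s).im = 0 := fun s => by
    have k := hn s
    rw [h1, norm_mul, Complex.norm_exp, Complex.norm_real, Real.norm_of_nonneg hρ.le,
      mul_eq_left₀ hρ.ne', Real.exp_eq_one_iff] at k
    simpa [Real.pi_ne_zero] using k
  refine ⟨fun s => (B s).re, fun s => Complex.reCLM.hasFDerivAt.comp_hasDerivAt s (hB s),
    fun s => ?_, fun s => ?_⟩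
  · have k : HasDerivAt (fun s => (B s).im) (e s * deriv H (e s) / H (e s)).im s :=
      Complex.imCLM.hasFDerivAt.comp_hasDerivAt s (hB s)
    rw [funext h2] at k
    exact k.unique (hasDerivAt_const s 0)
  · rw [h1, e, ← Complex.re_add_im (B s), h2]
    simp

/-- the radial derivative of the norm is not negative -/
theorem RM5_rad {H : ℂ → ℂ} {w : ℂ} {R : ℝ} (hR : 1 < R) (hw : ‖w‖ = 1) (h0 : H w ≠ 0)
    (hH : DifferentiableAt ℂ H w) (hn : ∀ u, 1 < ‖u‖ → ‖u‖ < R → ‖H w‖ < ‖H u‖) :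
    0 ≤ (w * deriv H w / H w).re := by
  have k1 : HasDerivAt (fun t : ℝ => (t : ℂ) * w) w 1 := by
    simpa using ((hasDerivAt_id ((1 : ℝ) : ℂ)).mul_const w).comp_ofReal
  have k2 := ((hH.hasDerivAt.scomp_of_eq 1 k1 (by simp)).div_const (H w)).norm_sq
  have k3 : 0 ≤ 2 * inner ℝ ((H ∘ fun t : ℝ => (t : ℂ) * w) 1 / H w) (w • deriv H w / H w) := by
    refine ge_of_tendsto ((hasDerivAt_iff_tendsto_slope.1 k2).mono_left (nhdsGT_le_nhdsNE 1)) ?_
    filter_upwards [Ioo_mem_nhdsGT hR] with t ht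
    have k4 : ‖(t : ℂ) * w‖ = t := by
      rw [norm_mul, hw, mul_one, Complex.norm_real, Real.norm_of_nonneg (by linarith [ht.1])]
    have k5 := hn _ (k4.symm ▸ ht.1) (k4.symm ▸ ht.2)
    rw [slope_def_field]
    refine div_nonneg (sub_nonneg.2 (pow_le_pow_left₀ (norm_nonneg _) ?_ 2)) (by linarith [ht.1])
    simp only [Function.comp, norm_div, Complex.ofReal_one, one_mul]
    exact div_le_div_of_nonneg_right k5.le (norm_nonneg _)
  simp only [Function.comp, Complex.ofReal_one, one_mul, div_self h0, smul_eq_mul, Complex.inner,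
    map_one, mul_one] at k3
  linarith

/-- the boundary correspondence -/
theorem RM5_beta {H : ℂ → ℂ} {R ρ : ℝ} (hR : 1 < R) (hρ : 0 < ρ)
    (hH : DifferentiableOn ℂ H {w | R⁻¹ < ‖w‖ ∧ ‖w‖ < R}) (h1 : ∀ w, ‖w‖ = 1 → ‖H w‖ = ρ)
    (h2 : ∀ w, 1 < ‖w‖ → ‖w‖ < R → ρ < ‖H w‖) (hi : InjOn H {w | R⁻¹ < ‖w‖ ∧ ‖w‖ < R}) :
    ∃ β : ℝ → ℝ, Continuous β ∧ StrictMono β ∧ (∀ s, β (s + 1) = β s + 1) ∧
      ∀ s, H (e s) = (ρ : ℂ) * e (β s) := by
  have hm : ∀ s, e s ∈ {w : ℂ | R⁻¹ < ‖w‖ ∧ ‖w‖ < R} := fun s => by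
    rw [mem_ofPred_eq, norm_e]
    exact ⟨inv_lt_one_of_one_lt₀ hR, hR⟩
  obtain ⟨β, b1, b2, b3⟩ := RM5_lift (RM5_open _ _) hm hρ hH fun s => h1 _ (norm_e s)
  have hc : Continuous β := continuous_iff_continuousAt.2 fun s => (b1 s).continuousAt
  have hs : StrictMono β := strictMono_of_hasDerivAt_pos b1 fun s => by
    have h0 : H (e s) ≠ 0 := norm_ne_zero_iff.1 (by rw [h1 _ (norm_e s)]; exact hρ.ne')
    refine (RM5_rad hR (norm_e s) h0 (hH.differentiableAt ((RM5_open _ _).mem_nhds (hm s)))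
      fun u a b => h1 _ (norm_e s) ▸ h2 u a b).lt_of_ne fun h => ?_
    exact div_ne_zero (mul_ne_zero (Rot_e_ne s) (deriv_ne_of_injOn (RM5_open _ _) hH hi (hm s))) h0
      (Complex.ext h.symm (b2 s))
  refine ⟨β, hc, hs, fun s => ?_, b3⟩
  have k1 := b3 (s + 1)
  rw [Rot_e_one, b3] at k1
  obtain ⟨m, k2⟩ := e_eq_iff.1 (mul_left_cancel₀ (Complex.ofReal_ne_zero.2 hρ.ne') k1).symm
  have k3 : (0 : ℝ) < m := k2 ▸ sub_pos.2 (hs (lt_add_one s))
  have k4 : (1 : ℝ) ≤ m := by exact_mod_cast (by exact_mod_cast k3 : 0 < m)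
  refine le_antisymm (not_lt.1 fun h => ?_) (by linarith)
  obtain ⟨t, ht, k5⟩ := intermediate_value_Ioo (le_add_of_nonneg_right zero_le_one) hc.continuousOn
    ⟨lt_add_one _, h⟩
  obtain ⟨n, k6⟩ := e_eq_iff.1 (hi (hm t) (hm s) (by rw [b3, b3, k5, Rot_e_one]))
  have k7 : (0 : ℝ) < n := by linarith [ht.1]
  have k8 : (n : ℝ) < 1 := by linarith [ht.2]
  have k9 : 0 < n := by exact_mod_cast k7
  have k10 : n < 1 := by exact_mod_cast k8
  omega

theorem exists_unif {φ : ℂ → ℂ} {ρ : ℝ} (hφ : DifferentiableOn ℂ φ {ζ | 1 < ‖ζ‖})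
    (hi : InjOn φ {ζ | 1 < ‖ζ‖})
    (ht : Tendsto φ (Bornology.cobounded ℂ) (Bornology.cobounded ℂ)) (hρ : 1 < ρ) {z₀ : ℂ}
    (hz : z₀ ∉ ext φ ρ) :
    ∃ (ψ : ℂ → ℂ) (R : ℝ) (β : ℝ → ℝ), 1 < R ∧ DifferentiableOn ℂ ψ (ball 0 R) ∧
      InjOn ψ (ball 0 R) ∧ ψ '' ball 0 1 = (ext φ ρ)ᶜ ∧ ψ 0 = z₀ ∧ Continuous β ∧ StrictMono β ∧
      (∀ s, β (s + 1) = β s + 1) ∧ ∀ s, ψ (e s) = φ ((ρ : ℂ) * e (β s)) := by
  have hE := (isClosed_ext hφ hi ht hρ).isOpen_compl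
  have hΩ : IsOpen {ζ : ℂ | 1 < ‖ζ‖} := isOpen_lt continuous_const continuous_norm
  obtain ⟨g, g1, g2, g3, g4⟩ := rmt hE (simplyConnected_compl_ext hφ hi ht hρ)
    (isBounded_compl_ext hφ hi ht hρ) hz
  obtain ⟨ψ, p1, p2, p3⟩ : ∃ ψ : ℂ → ℂ, DifferentiableOn ℂ ψ (ball 0 1) ∧
      (∀ w ∈ ball (0 : ℂ) 1, ψ w ∈ (ext φ ρ)ᶜ ∧ g (ψ w) = w) ∧ ∀ z ∈ (ext φ ρ)ᶜ, ψ (g z) = z :=
    ⟨Function.invFunOn g (ext φ ρ)ᶜ, g3 ▸ inv_diff hE g1 g2,
      fun w hw => Function.invFunOn_pos (g3.symm ▸ hw : w ∈ g '' (ext φ ρ)ᶜ),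
      g2.leftInvOn_invFunOn⟩
  have p4 : InjOn ψ (ball 0 1) := fun w hw w' hw' h => by rw [← (p2 w hw).2, h, (p2 w' hw').2]
  obtain ⟨h, q1, q2⟩ : ∃ h : ℂ → ℂ, DifferentiableOn ℂ h (φ '' {ζ | 1 < ‖ζ‖}) ∧
      ∀ ζ, 1 < ‖ζ‖ → h (φ ζ) = ζ := ⟨_, inv_diff hΩ hφ hi, hi.leftInvOn_invFunOn⟩
  have near : ∀ ρ₁, 1 < ρ₁ → ρ₁ < ρ → ∃ r < 1, ∀ w, r < ‖w‖ → ‖w‖ < 1 →
      ρ₁ < ‖h (ψ w)‖ ∧ ‖h (ψ w)‖ < ρ ∧ φ (h (ψ w)) = ψ w := fun ρ₁ a b => by
    have hs : (φ '' {ζ | ρ₁ < ‖ζ‖})ᶜ ⊆ (ext φ ρ)ᶜ :=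
      compl_subset_compl.2 (image_mono fun ζ hζ => b.trans_le hζ)
    obtain ⟨r, r1, r2⟩ := exists_lt_subset_ball
      ((isCompact_compl_open hφ hi ht a).image_of_continuousOn (g1.continuousOn.mono hs)).isClosed
      ((image_mono hs).trans g3.le)
    refine ⟨r, r1, fun w w1 w2 => ?_⟩
    obtain ⟨k1, k2⟩ := p2 w (mem_ball_zero_iff.2 w2)
    obtain ⟨ζ, z1, z2⟩ : ψ w ∈ φ '' {ζ | ρ₁ < ‖ζ‖} := by
      by_contra hn
      exact w1.not_gt (mem_ball_zero_iff.1 (r2 ⟨_, hn, k2⟩))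
    rw [← z2, q2 ζ (a.trans z1)]
    exact ⟨z1, not_le.1 fun k => k1 ⟨ζ, k, z2⟩, rfl⟩
  obtain ⟨r, r1, r2⟩ := near ((1 + ρ) / 2) (by linarith) (by linarith)
  have r3 : ∀ w, max r (1 / 2) < ‖w‖ → ‖w‖ < 1 →
      1 < ‖h (ψ w)‖ ∧ ‖h (ψ w)‖ < ρ ∧ φ (h (ψ w)) = ψ w := fun w a b =>
    (r2 w ((le_max_left _ _).trans_lt a) b).imp_left fun k => by linarith
  obtain ⟨H, R, hR, s1, s2, s3, s4⟩ := reflect_circle (h := h ∘ ψ) (r₀ := max r (1 / 2)) (ρ := ρ)
    (lt_max_of_lt_right (by norm_num)) (max_lt r1 (by norm_num)) (by linarith)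
    (q1.comp (p1.mono fun w hw => mem_ball_zero_iff.2 hw.2) fun w hw =>
      ⟨_, (r3 w hw.1 hw.2).1, (r3 w hw.1 hw.2).2.2⟩)
    (fun w a b => norm_pos_iff.1 (one_pos.trans (r3 w a b).1)) fun ε hε => by
      obtain ⟨r', k1, k2⟩ := near (max ((1 + ρ) / 2) (ρ - ε)) (lt_max_of_lt_left (by linarith))
        (max_lt (by linarith) (by linarith))
      refine ⟨r', k1, fun w a b => ?_⟩
      obtain ⟨k3, k4, -⟩ := k2 w a b
      rw [Function.comp, abs_lt]
      exact ⟨by linarith [(le_max_right _ _).trans_lt k3], by linarith⟩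
  have s5 : ∀ w, R⁻¹ < ‖w‖ → ‖w‖ < 1 → 1 < ‖H w‖ ∧ ‖H w‖ < ρ ∧ φ (H w) = ψ w := fun w a b =>
    s3 w a b ▸ r3 w (s1.trans a) b
  obtain ⟨t1, t2, t3⟩ := RM5_refl hR (by linarith) s2 s4 (fun w a b => (s5 w a b).2.1)
    fun w hw w' hw' k => p4 (mem_ball_zero_iff.2 hw.2) (mem_ball_zero_iff.2 hw'.2) (by
      rw [← (s5 w hw.1 hw.2).2.2, k, (s5 w' hw'.1 hw'.2).2.2])
  obtain ⟨β, b1, b2, b3, b4⟩ := RM5_beta hR (by linarith) s2 t1 t2 t3
  have hR' : R⁻¹ < 1 := inv_lt_one_of_one_lt₀ hR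
  have t4 : ∀ w, ¬ ‖w‖ < 1 → ‖w‖ < R → ρ ≤ ‖H w‖ := fun w a b =>
    (not_lt.1 a).eq_or_lt.elim (fun k => (t1 w k.symm).ge) fun k => (t2 w k b).le
  have t5 : ∀ w ∈ ball (0 : ℂ) 1, (if ‖w‖ < 1 then ψ w else φ (H w)) = ψ w := fun w hw =>
    if_pos (mem_ball_zero_iff.1 hw)
  refine ⟨fun w => if ‖w‖ < 1 then ψ w else φ (H w), R, β, hR, fun w hw => ?_,
    fun w hw w' hw' k => ?_, ?_, ?_, b1, b2, b3, fun s => ?_⟩
  · refine DifferentiableAt.differentiableWithinAt ?_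
    by_cases k : ‖w‖ < 1
    · have := isOpen_ball.mem_nhds (mem_ball_zero_iff.2 k)
      exact (p1.differentiableAt this).congr_of_eventuallyEq (eventually_of_mem this t5)
    · have hw' := mem_ball_zero_iff.1 hw
      have := (RM5_open R⁻¹ R).mem_nhds (show w ∈ _ from ⟨hR'.trans_le (not_lt.1 k), hw'⟩)
      refine ((hφ.differentiableAt (hΩ.mem_nhds (hρ.trans_le (t4 w k hw')))).comp w
        (s2.differentiableAt this)).congr_of_eventuallyEq (eventually_of_mem this fun u hu => ?_)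
      by_cases k' : ‖u‖ < 1
      · exact (if_pos k').trans (s5 u hu.1 k').2.2.symm
      · exact if_neg k'
  · rw [mem_ball_zero_iff] at hw hw'
    by_cases a : ‖w‖ < 1 <;> by_cases b : ‖w'‖ < 1 <;> simp only [a, b, if_true, if_false] at k
    · exact p4 (mem_ball_zero_iff.2 a) (mem_ball_zero_iff.2 b) k
    · exact absurd ⟨_, t4 w' b hw', k.symm⟩ (p2 w (mem_ball_zero_iff.2 a)).1
    · exact absurd ⟨_, t4 w a hw, k⟩ (p2 w' (mem_ball_zero_iff.2 b)).1
    · exact t3 ⟨hR'.trans_le (not_lt.1 a), hw⟩ ⟨hR'.trans_le (not_lt.1 b), hw'⟩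
        (hi (hρ.trans_le (t4 w a hw)) (hρ.trans_le (t4 w' b hw')) k)
  · rw [image_congr t5]
    exact Subset.antisymm (image_subset_iff.2 fun w hw => (p2 w hw).1) fun z hz =>
      ⟨g z, g3 ▸ mem_image_of_mem g hz, p3 z hz⟩
  · exact (t5 0 (mem_ball_self one_pos)).trans (g4 ▸ p3 z₀ hz)
  · rw [← b4]
    exact if_neg (norm_e s).not_lt

end Pool.Agent.Work.MP_042f46_an
end

-- merged part: Pool.Agent.Work.MP_042f46_an.Move
section
/-!
# Moving points; loops that enclose no branch value lift to loops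

Plans.  `exists_move`: `h z = z + ∑ v ∈ V, max 0 (1 - dist z (a v) / R) • (v - a v)`; the sum is Lipschitz with a constant `< 1`.
`Out.map`: use `h '' C`.
`exists_null`: let `U = {Out (range Λ)}` (open, preconnected) and `P F` the conclusion for the set `F`.  Induction on a bound `n` for the cardinality of `F ⊆ U`.  `P ∅`: straight line homotopy.
Put `A = {x ∈ U | ∀ F ⊆ U, F.card ≤ n → P (insert x F)}`.  Far points are in `A` (the image of a homotopy is compact).  If `ball x (4 * R) ⊆ U`, `p, q ∈ ball x R` and `p ∈ A` then `q ∈ A`: take `h` from `exists_move` (one point, radius `2 * R`)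
with `h p = q`, apply `p ∈ A` to the preimage of `F` under the injective map `h` (`Finset.preimage`), and compose the homotopy with `h`.  Conclude with `IsPreconnected.induction₂'`.
`lift_closed`: reparametrise to `[0, 1]`; `f ∘ Γ` is continuous (`IsCoveringMapOn.continuousOn`, `Out.notMem`); lift the homotopy through `cov.isCoveringMap_restrictPreimage`
(`IsCoveringMap.liftPath_apply_one_eq_of_homotopicRel`, `eq_liftPath_iff'`, `liftPath_const`; or `liftHomotopy` and `constOn_of_comp` on three sides of the square).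
-/

open Set Metric Topology Filter

namespace Pool.Agent.Work.MP_042f46_an

theorem exists_move (V : Finset ℂ) (a : ℂ → ℂ) {R : ℝ} (hs : ∑ v ∈ V, dist v (a v) < R)
    (hsep : ∀ v ∈ V, ∀ w ∈ V, v ≠ w → R ≤ dist (a v) (a w)) :
    ∃ h : ℂ → ℂ, Continuous h ∧ Function.Injective h ∧ (∀ z, dist (h z) z < R) ∧
      (∀ v ∈ V, h (a v) = v) ∧ ∀ z, (∀ v ∈ V, R ≤ dist z (a v)) → h z = z := by
  have hS : 0 ≤ ∑ v ∈ V, dist v (a v) := Finset.sum_nonneg fun _ _ => dist_nonneg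
  have hR : 0 < R := hS.trans_lt hs
  let c : ℂ → ℂ → ℝ := fun v z => max (1 - dist z (a v) / R) 0
  have c0 : ∀ v z, R ≤ dist z (a v) → c v z = 0 := fun v z h =>
    max_eq_right (sub_nonpos.2 ((one_le_div hR).2 h))
  have c1 : ∀ v z, |c v z| ≤ 1 := fun v z => by
    rw [abs_of_nonneg (le_max_right _ _)]
    exact max_le (sub_le_self _ (div_nonneg dist_nonneg hR.le)) zero_le_one
  have c2 : ∀ v z w, |c v z - c v w| ≤ dist z w / R := fun v z w => by
    refine (abs_max_sub_max_le_abs _ _ _).trans ?_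
    rw [sub_sub_sub_cancel_left, ← sub_div, abs_div, abs_of_pos hR, abs_sub_comm]
    exact div_le_div_of_nonneg_right (abs_dist_sub_le _ _ _) hR.le
  have key : ∀ (e : ℂ → ℝ) (b : ℝ), (∀ v, |e v| ≤ b) →
      ‖∑ v ∈ V, e v • (v - a v)‖ ≤ b * ∑ v ∈ V, dist v (a v) := fun e b h => by
    rw [Finset.mul_sum]
    refine norm_sum_le_of_le _ fun v _ => ?_
    rw [norm_smul, Real.norm_eq_abs, dist_eq_norm]
    exact mul_le_mul_of_nonneg_right (h v) (norm_nonneg _)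
  refine ⟨fun z => z + ∑ v ∈ V, c v z • (v - a v), by fun_prop, fun z w h => ?_, fun z => ?_,
    fun v hv => ?_, fun z hz => ?_⟩
  · have h1 := key (fun v => c v w - c v z) (dist w z / R) fun v => c2 v w z
    have h2 : ∑ v ∈ V, (c v w - c v z) • (v - a v) = z - w := by
      simp only [sub_smul, Finset.sum_sub_distrib]
      linear_combination -h
    rw [h2, ← dist_eq_norm, dist_comm w, div_mul_eq_mul_div, le_div_iff₀ hR] at h1
    by_contra hne
    exact absurd h1 (mul_lt_mul_of_pos_left hs (dist_pos.2 hne)).not_ge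
  · rw [dist_eq_norm, add_sub_cancel_left]
    exact ((key (fun v => c v z) 1 fun v => c1 v z).trans_eq (one_mul _)).trans_lt hs
  · beta_reduce
    rw [Finset.sum_eq_single_of_mem v hv fun w hw h => by
      rw [c0 w _ (hsep v hv w hw h.symm), zero_smul]]
    simp [c]
  · beta_reduce
    rw [Finset.sum_eq_zero fun v hv => by rw [c0 v z (hz v hv), zero_smul], add_zero]

theorem Out.map {X : Set ℂ} {x : ℂ} {h : ℂ → ℂ} {R : ℝ} (hc : Continuous h)
    (hi : Function.Injective h) (hd : ∀ z, dist (h z) z < R) (hx : Out X x) :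
    Out (h '' X) (h x) := by
  obtain ⟨C, h1, h2, h3, h4⟩ := hx
  refine ⟨h '' C, h1.image h hc.continuousOn, fun hb => h2 ((hb.thickening (δ := R)).subset
    fun z hz => mem_thickening_iff.2 ⟨h z, mem_image_of_mem h hz, ?_⟩), mem_image_of_mem h h3,
    (disjoint_image_iff hi).2 h4⟩
  rw [dist_comm]
  exact hd z

/-- the loop contracts in the complement of `F` -/
def Move_null (Λ : C(unitInterval, ℂ)) (F : Finset ℂ) : Prop :=
  ∃ H : C(unitInterval × unitInterval, ℂ), (∀ t, H (0, t) = Λ t) ∧ (∀ t, H (1, t) = Λ 0) ∧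
    (∀ s, H (s, 0) = Λ 0) ∧ (∀ s, H (s, 1) = Λ 0) ∧ ∀ p, H p ∉ F

theorem Move_null.map {Λ : C(unitInterval, ℂ)} {F F' : Finset ℂ} (h : Move_null Λ F) {g : ℂ → ℂ}
    (hg : Continuous g) (h1 : ∀ t, g (Λ t) = Λ t) (h2 : ∀ z, z ∉ F → g z ∉ F') :
    Move_null Λ F' := by
  obtain ⟨H, a, b, c, d, e⟩ := h
  exact ⟨⟨fun p => g (H p), hg.comp H.continuous⟩, fun t => (congrArg g (a t)).trans (h1 t),
    fun t => (congrArg g (b t)).trans (h1 0), fun t => (congrArg g (c t)).trans (h1 0),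
    fun t => (congrArg g (d t)).trans (h1 0), fun p => h2 _ (e p)⟩

theorem Move_clip {ρ : ℝ} (hρ : 0 < ρ) (F : Finset ℂ) : ∃ r : ℂ → ℂ, Continuous r ∧
    (∀ z, ‖z‖ ≤ ρ → r z = z) ∧ ∀ z, z ∉ F → r z ∉ F ∧ ‖r z‖ < ρ + 1 := by
  classical
  obtain ⟨σ, ⟨h1, h2⟩, h3⟩ := (Ioo_infinite (lt_add_one ρ)).exists_notMem_finset
    (F.image fun z => ‖z‖)
  have h0 : 0 < σ := hρ.trans h1
  have hin : ∀ z : ℂ, ‖z‖ ≤ σ → (σ / max σ ‖z‖) • z = z := fun z hz => by
    rw [max_eq_left hz, div_self h0.ne', one_smul]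
  refine ⟨fun z => (σ / max σ ‖z‖) • z, (continuous_const.div (by fun_prop)
    fun z => (h0.trans_le (le_max_left _ _)).ne').smul continuous_id,
    fun z hz => hin z (hz.trans h1.le), fun z hz => ?_⟩
  rcases le_total ‖z‖ σ with h | h
  · beta_reduce
    rw [hin z h]
    exact ⟨hz, h.trans_lt h2⟩
  · have e : ‖(σ / max σ ‖z‖) • z‖ = σ := by
      rw [max_eq_right h, norm_smul, Real.norm_of_nonneg (div_nonneg h0.le (norm_nonneg _)),
        div_mul_cancel₀ _ (h0.trans_le h).ne']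
    exact ⟨fun hm => h3 (Finset.mem_image.2 ⟨_, hm, e⟩), e.trans_lt h2⟩

theorem exists_null (Λ : C(unitInterval, ℂ)) (h : Λ 0 = Λ 1) (F : Finset ℂ)
    (hF : ∀ v ∈ F, Out (range Λ) v) :
    ∃ H : C(unitInterval × unitInterval, ℂ), (∀ t, H (0, t) = Λ t) ∧ (∀ t, H (1, t) = Λ 0) ∧
      (∀ s, H (s, 0) = Λ 0) ∧ (∀ s, H (s, 1) = Λ 0) ∧ ∀ p, H p ∉ F := by
  classical
  have hc : IsCompact (range Λ) := isCompact_range Λ.continuous
  obtain ⟨ρ, hρ0, hρ⟩ := hc.isBounded.exists_pos_norm_le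
  obtain ⟨ρ', hρ'⟩ := out_far hc.isBounded
  have key : ∀ (n : ℕ) (F : Finset ℂ), F.card ≤ n → (∀ v ∈ F, Out (range Λ) v) →
      Move_null Λ F := by
    intro n
    induction n with
    | zero =>
      intro F h0 _
      rw [Finset.card_eq_zero.1 (Nat.le_zero.1 h0)]
      refine ⟨⟨fun p => Λ p.2 + (p.1 : ℝ) • (Λ 0 - Λ p.2), by fun_prop⟩, fun t => by simp,
        fun t => by simp, fun s => by simp, fun s => by simp [h], fun p => Finset.notMem_empty _⟩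
    | succ n ih =>
      let Q : ℂ → Prop := fun x => ∀ F : Finset ℂ, F.card ≤ n → (∀ v ∈ F, Out (range Λ) v) →
        Move_null Λ (insert x F)
      let y : ℂ := ((max (ρ + 1) (ρ' + 1) : ℝ) : ℂ)
      have hy : ‖y‖ = max (ρ + 1) (ρ' + 1) :=
        (Complex.norm_real _).trans (Real.norm_of_nonneg (le_max_of_le_left (by linarith)))
      have hy1 : Q y := fun F h1 h2 => by
        obtain ⟨r, r1, r2, r3⟩ := Move_clip hρ0 F
        refine (ih F h1 h2).map r1 (fun t => r2 _ (hρ _ (mem_range_self t))) fun z hz hm => ?_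
        rcases Finset.mem_insert.1 hm with e | e
        · have := (r3 z hz).2
          rw [e, hy] at this
          exact absurd (le_max_left _ _) this.not_ge
        · exact (r3 z hz).1 e
      have hy2 : Out (range Λ) y := hρ' y (by rw [hy]; exact lt_max_of_lt_right (lt_add_one _))
      have hQ : ∀ x, Out (range Λ) x → Q x := fun x hx => by
        refine (isPreconnected_out hc.isBounded).induction₂' (fun p q => Q p → Q q)
          (fun x hx => ?_) (fun _ _ _ _ _ _ h1 h2 h3 => h2 (h1 h3)) hy2 hx hy1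
        obtain ⟨ε, hε, hb⟩ := Metric.isOpen_iff.1 (isOpen_out hc.isClosed) x hx
        have step : ∀ p ∈ ball x (ε / 3), ∀ q ∈ ball x (ε / 3), Q p → Q q := by
          intro p hp q hq h1 F h2 h3
          rw [mem_ball] at hp hq
          obtain ⟨g, g1, g2, -, g4, g5⟩ := exists_move {q} (fun _ => p) (R := 2 * (ε / 3))
            (by
              rw [Finset.sum_singleton]
              linarith [dist_triangle_right q p x])
            fun v hv w hw hne => absurd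
              ((Finset.mem_singleton.1 hv).trans (Finset.mem_singleton.1 hw).symm) hne
          have g6 : ∀ z, Out (range Λ) z ∨ g z = z := fun z => by
            by_cases hz : dist z p < 2 * (ε / 3)
            · exact Or.inl (hb (mem_ball.2 (by linarith [dist_triangle z p x])))
            · exact Or.inr (g5 z fun _ _ => not_lt.1 hz)
          refine (h1 (F.preimage g g2.injOn) (le_trans (Finset.card_le_card_of_injOn g
            (fun z hz => Finset.mem_preimage.1 hz) g2.injOn) h2) fun z hz => ?_).map g1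
            (fun t => (g6 _).resolve_left fun ho => ho.notMem (mem_range_self t)) fun z hz hm => ?_
          · exact (g6 z).elim id fun e => e ▸ h3 _ (Finset.mem_preimage.1 hz)
          · refine hz (Finset.mem_insert.2 ((Finset.mem_insert.1 hm).imp (fun e => g2 ?_)
              Finset.mem_preimage.2))
            rw [e, g4 q (Finset.mem_singleton_self q)]
        have hε3 : 0 < ε / 3 := by linarith
        filter_upwards [mem_nhdsWithin_of_mem_nhds (ball_mem_nhds x hε3)] with q hq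
        exact ⟨step x (mem_ball_self hε3) q hq, step q hq x (mem_ball_self hε3)⟩
      intro F h1 h2
      rcases F.eq_empty_or_nonempty with rfl | ⟨x, hx⟩
      · exact ih ∅ (Nat.zero_le n) h2
      · rw [← Finset.insert_erase hx]
        refine hQ x (h2 x hx) _ ?_ fun v hv => h2 v (Finset.mem_of_mem_erase hv)
        rw [Finset.card_erase_of_mem hx]
        omega
  exact key _ F le_rfl hF

theorem lift_closed {f : ℂ → ℂ} {V : Set ℂ} (hV : V.Finite) (cov : IsCoveringMapOn f Vᶜ)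
    {Γ : ℝ → ℂ} {s t : ℝ} (hst : s ≤ t) (hΓ : ContinuousOn Γ (Icc s t))
    (ho : ∀ v ∈ V, Out (f '' (Γ '' Icc s t)) v) (h : f (Γ s) = f (Γ t)) : Γ s = Γ t := by
  have hm : ∀ u : unitInterval, s + (u : ℝ) * (t - s) ∈ Icc s t := fun u => by
    have h1 := u.2.1
    have h2 := u.2.2
    constructor <;> nlinarith
  have hγ : Continuous fun u : unitInterval => Γ (s + (u : ℝ) * (t - s)) :=
    hΓ.comp_continuous (by fun_prop) hm
  have hin : ∀ u : unitInterval, Γ (s + (u : ℝ) * (t - s)) ∈ f ⁻¹' Vᶜ := fun u hv =>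
    (ho _ hv).notMem (mem_image_of_mem f (mem_image_of_mem Γ (hm u)))
  let Λ : C(unitInterval, ℂ) :=
    ⟨fun u => f (Γ (s + (u : ℝ) * (t - s))), cov.continuousOn.comp_continuous hγ hin⟩
  obtain ⟨H, h1, h2, h3, h4, h5⟩ := exists_null Λ (by simpa [Λ] using h) hV.toFinset
    fun v hv => (ho v (hV.mem_toFinset.1 hv)).anti (by
      rintro _ ⟨u, rfl⟩
      exact mem_image_of_mem f (mem_image_of_mem Γ (hm u)))
  have cv := cov.isCoveringMap_restrictPreimage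
  let H' : C(unitInterval × unitInterval, (Vᶜ : Set ℂ)) :=
    ⟨fun p => ⟨H p, fun hv => h5 p (hV.mem_toFinset.2 hv)⟩, H.continuous.subtype_mk _⟩
  let γ : C(unitInterval, f ⁻¹' Vᶜ) := ⟨fun u => ⟨_, hin u⟩, hγ.subtype_mk _⟩
  have h0 : ∀ u, H' (0, u) = (Vᶜ : Set ℂ).restrictPreimage f (γ u) := fun u => Subtype.ext (h1 u)
  have side : ∀ e : unitInterval → unitInterval × unitInterval, Continuous e →
      (∀ u, H (e u) = Λ 0) → cv.liftHomotopy H' γ h0 (e 0) = cv.liftHomotopy H' γ h0 (e 1) :=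
    fun e he hc => cv.const_of_comp ((cv.liftHomotopy H' γ h0).continuous.comp he)
      (fun u u' => (congrFun (cv.liftHomotopy_lifts H' γ h0) (e u)).trans
        ((Subtype.ext ((hc u).trans (hc u').symm)).trans
          (congrFun (cv.liftHomotopy_lifts H' γ h0) (e u')).symm)) 0 1
  have k1 := side (fun u => (u, 0)) (by fun_prop) h3
  have k2 := side (fun u => (1, u)) (by fun_prop) h2
  have k3 := side (fun u => (u, 1)) (by fun_prop) h4
  have k4 := congrArg Subtype.val ((cv.liftHomotopy_zero H' γ h0 0).symm.trans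
    ((k1.trans (k2.trans k3.symm)).trans (cv.liftHomotopy_zero H' γ h0 1)))
  simpa [γ] using k4

end Pool.Agent.Work.MP_042f46_an
end

-- merged part: Pool.Agent.Work.MP_042f46_an.X1
section
/-!
# Rotation domains centred at infinity: point-set basics

This is the analogue of `Sg.lean` (copy and adapt the proofs from there) for a rotation domain whose centre is infinity: `φ` is defined on `1 < ‖ζ‖`, `D ρ = ext φ ρ` grows as `ρ ↓ 1`.  `K` is closed but not compact; uniform statements are made on the compact part `B`.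
Plans.  `φ` is open and its inverse is continuous (`isOpen_image_of_injOn`, `inv_diff`).  `isCompact_B`: `isCompact_compl_open`.  `mem_Ω_of`: if `w ∈ K` and `F w = φ ζ`, points `φ ξ` near `w` have `φ (e α * ξ)` near `φ ζ`, so `e α * ξ` is near `ζ`, so `w = φ (ζ / e α)`.
`out_D`: the image of the ray `{s * ζ | 1 ≤ s}` is preconnected and unbounded.
`unif`, `unif_inj`, `unif_surj`, `cont_of_lift`: as in `Sg.lean` with `B` for `K` (`Sg_leb`).
`exists_far`: a finite set disjoint from the closed set `K`.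
`exists_wind`: the proof of `Sg.exists_wind` only uses a map that is continuous and injective on a closed disc; apply it to `u ↦ (φ (ρ / u) - x)⁻¹` (value `0` at `u = 0`) on the closed unit disc, and replace `t` by `-t`, `l` by `-l`.
-/

open Set Metric Topology Filter

namespace Pool.Agent.Work.MP_042f46_an

theorem X1_norm {r : ℝ} (hr : 1 < r) (t : ℝ) : ‖(r : ℂ) * e t‖ = r :=
  Sg_norm' (zero_le_one.trans hr.le) t

theorem X1_mem {r : ℝ} (hr : 1 < r) (t : ℝ) : (r : ℂ) * e t ∈ {ζ : ℂ | 1 < ‖ζ‖} :=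
  hr.trans_eq (X1_norm hr t).symm

theorem X1_rot {ζ : ℂ} (h : 1 < ‖ζ‖) (t : ℝ) : e t * ζ ∈ {ζ : ℂ | 1 < ‖ζ‖} :=
  h.trans_eq (Sg_norm t ζ).symm

theorem X1_pre {ρ : ℝ} (hρ : 0 ≤ ρ) {S : Set ℂ} (h1 : {ζ : ℂ | ρ < ‖ζ‖} ⊆ S)
    (h2 : S ⊆ {ζ : ℂ | ρ ≤ ‖ζ‖}) : IsPreconnected S := by
  refine (RM4_conn hρ).subset_closure h1 (h2.trans fun ζ hζ => ?_)
  have e1 : {ζ : ℂ | ρ < ‖ζ‖} = (closedBall (0 : ℂ) ρ)ᶜ := by
    ext w
    simp
  rw [e1, closure_compl, interior_closedBall']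
  simpa using hζ

theorem X1_wind {g : ℂ → ℂ} (hg : ContinuousOn g (closedBall 0 1)) (hi : InjOn g (closedBall 0 1)) :
    ∃ l : ℝ → ℂ, Continuous l ∧ (∀ t, Complex.exp (l t) = g (e t) - g 0) ∧
      ∀ t, l (t + 1) ≠ l t := by
  let c : ℝ → ℝ := fun s => max 0 (min s 1)
  have hcc : Continuous c := by fun_prop
  have hc0 : ∀ s, 0 ≤ c s := fun s => le_max_left _ _
  have hc1 : ∀ s, c s ≤ 1 := fun s => max_le zero_le_one (min_le_right _ _)
  have hc00 : c 0 = 0 := by simp [c]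
  have hc11 : c 1 = 1 := by simp [c]
  let a : ℝ × ℝ → ℂ := fun p => e p.2
  let b : ℝ × ℝ → ℂ := fun p => -((c p.1 : ℂ) * e p.2)
  have hac : Continuous a := continuous_e.comp continuous_snd
  have hbc : Continuous b :=
    ((Complex.continuous_ofReal.comp (hcc.comp continuous_fst)).mul hac).neg
  have ha : ∀ p, a p ∈ closedBall (0 : ℂ) 1 := fun p => mem_closedBall_zero_iff.2 (norm_e _).le
  have hb : ∀ p, b p ∈ closedBall (0 : ℂ) 1 := fun p =>
    mem_closedBall_zero_iff.2 (((norm_neg _).trans (Sg_norm' (hc0 _) _)).trans_le (hc1 _))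
  let F : ℝ × ℝ → ℂ := fun p => g (a p) - g (b p)
  have hF : Continuous F := (hg.comp_continuous hac ha).sub (hg.comp_continuous hbc hb)
  have hF0 : ∀ p, F p ≠ 0 := fun p h => by
    have h1 : a p = b p := hi (ha p) (hb p) (sub_eq_zero.1 h)
    have h2 : (1 + (c p.1 : ℂ)) * a p = 0 := by
      simp only [a, b] at h1 ⊢
      linear_combination h1
    rcases mul_eq_zero.1 h2 with h3 | h3
    · have h4 : (1 + c p.1 : ℝ) = 0 := by exact_mod_cast h3
      linarith [hc0 p.1]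
    · exact Rot_e_ne _ h3
  obtain ⟨L, ⟨-, hL⟩, -⟩ := Complex.isCoveringMapOn_exp.existsUnique_continuousMap_lifts
    (⟨F, hF⟩ : C(ℝ × ℝ, ℂ)) (a₀ := (0, 0)) (Complex.exp_log (hF0 (0, 0))) hF0
  have hL' : ∀ p, Complex.exp (L p) = F p := fun p => congrFun hL p
  have hper : ∀ s t, F (s, t + 1) = F (s, t) := fun s t => by
    simp only [F, a, b, Rot_e_one]
  have hhalf : ∀ t, F (1, t + 1 / 2) = -F (1, t) := fun t => by
    simp only [F, a, b, Rot_e_half, hc11]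
    simp
  have h1 : ∀ p q : ℝ × ℝ, L (p.1, p.2 + 1) - L p = L (q.1, q.2 + 1) - L q := fun p q => by
    refine exp_const (s := univ) (g := fun p : ℝ × ℝ => L (p.1, p.2 + 1) - L p) (c := 1)
      isPreconnected_univ (Continuous.continuousOn (by fun_prop)) (fun p _ => ?_)
      (mem_univ p) (mem_univ q)
    rw [Complex.exp_sub, hL', hL', hper, div_self (hF0 _)]
  have h2 : ∀ t u : ℝ, L (1, t + 1 / 2) - L (1, t) = L (1, u + 1 / 2) - L (1, u) := fun t u => by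
    refine exp_const (s := univ) (g := fun t : ℝ => L (1, t + 1 / 2) - L (1, t)) (c := -1)
      isPreconnected_univ (Continuous.continuousOn (by fun_prop)) (fun p _ => ?_)
      (mem_univ t) (mem_univ u)
    rw [Complex.exp_sub, hL', hL', hhalf, neg_div, div_self (hF0 _)]
  refine ⟨fun t => L (0, t), by fun_prop, fun t => ?_, fun t h => ?_⟩
  · rw [hL']
    simp [F, a, b, hc00]
  · have h3 := h1 (0, t) (1, 0)
    have h4 := h2 (0 + 1 / 2) 0
    have h5 : (0 : ℝ) + 1 / 2 + 1 / 2 = 0 + 1 := by ring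
    rw [h5] at h4
    simp only at h h3
    have h6 : L (1, 0 + 1 / 2) = L (1, 0) := by linear_combination -(1 / 2 : ℂ) * (h3 - h + h4)
    have h7 := hhalf 0
    rw [← hL', h6, hL'] at h7
    exact hF0 (1, 0) (by linear_combination (1 / 2 : ℂ) * h7)

/-- a rotation domain around infinity of a holomorphic branched covering with poles `P` -/
structure Sx where
  F : ℂ → ℂ
  φ : ℂ → ℂ
  α : ℝ
  V : Set ℂ
  P : Set ℂ
  d : ℕ
  v₀ : ℂ
  irr : Irrational α
  φ_diff : DifferentiableOn ℂ φ {ζ | 1 < ‖ζ‖}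
  φ_inj : InjOn φ {ζ | 1 < ‖ζ‖}
  φ_top : Tendsto φ (Bornology.cobounded ℂ) (Bornology.cobounded ℂ)
  conj : ∀ ζ, 1 < ‖ζ‖ → F (φ ζ) = φ (e α * ζ)
  V_fin : V.Finite
  P_fin : P.Finite
  cov : IsCoveringMapOn F Vᶜ
  F_diff : DifferentiableOn ℂ F Pᶜ
  F_open : ∀ z ∉ P, ∀ N ∈ 𝓝 z, F '' N ∈ 𝓝 (F z)
  P_V : ∀ z ∈ P, F z ∈ V
  P_K : ∀ z ∈ P, z ∉ closure (φ '' {ζ | 1 < ‖ζ‖})
  d_pos : 1 ≤ d
  fib : ∀ y, {z | z ∉ P ∧ F z = y}.encard ≤ d
  li : ∀ z ∈ closure (φ '' {ζ | 1 < ‖ζ‖}), ∃ N ∈ 𝓝 z, InjOn F N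
  v₀_K : v₀ ∉ closure (φ '' {ζ | 1 < ‖ζ‖})
  nw : ∀ W : Set ℂ, IsOpen W → W.Nonempty → frontier W ⊆ closure (φ '' {ζ | 1 < ‖ζ‖}) →
    (∀ n, InjOn F^[n] W) → (∀ m n, m ≠ n → Disjoint (F^[m] '' W) (F^[n] '' W)) →
    (∀ n, ∀ z ∈ W, F^[n] z ∉ φ '' {ζ | 1 < ‖ζ‖}) → False

namespace Sx

variable (σ : Sx)

/-- the rotation domain (without infinity) -/
def Ω : Set ℂ := σ.φ '' {ζ | 1 < ‖ζ‖}

/-- its closure -/
def K : Set ℂ := closure σ.Ω

/-- the part of the closure inside the curve of radius two -/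
def B : Set ℂ := σ.K \ σ.φ '' {ζ | 2 < ‖ζ‖}

/-- the closed invariant region outside the curve of radius `ρ` -/
def D (ρ : ℝ) : Set ℂ := ext σ.φ ρ

/-- the invariant curve of radius `ρ` -/
noncomputable def γ (ρ t : ℝ) : ℂ := σ.φ ((ρ : ℂ) * e t)

variable {ρ : ℝ} {z : ℂ}

theorem isOpen_Ω : IsOpen σ.Ω := by
  exact isOpen_image_of_injOn (RM4_open 1) σ.φ_diff σ.φ_inj

theorem isClosed_K : IsClosed σ.K := isClosed_closure

theorem isConnected_Ω : IsConnected σ.Ω := by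
  exact ⟨⟨_, _, X1_mem one_lt_two 0, rfl⟩, (RM4_conn zero_le_one).image _ σ.φ_diff.continuousOn⟩

theorem isCompact_B : IsCompact σ.B := by
  exact (isCompact_compl_open σ.φ_diff σ.φ_inj σ.φ_top one_lt_two).inter_left σ.isClosed_K

theorem B_sub : σ.B ⊆ σ.K := sdiff_subset

theorem K_not_P (hz : z ∈ σ.K) : z ∉ σ.P := fun h => σ.P_K z h hz

theorem F_cont : ContinuousOn σ.F σ.Pᶜ := σ.F_diff.continuousOn

theorem X1_nhds (hz : z ∈ σ.K) : σ.Pᶜ ∈ 𝓝 z :=
  σ.P_fin.isClosed.isOpen_compl.mem_nhds (σ.K_not_P hz)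

theorem X1_mem_Ω (hz : z ∈ σ.K) (h : σ.F z ∈ σ.Ω) : z ∈ σ.Ω := by
  obtain ⟨ψ, q1, q2⟩ : ∃ ψ : ℂ → ℂ, ContinuousOn ψ σ.Ω ∧ ∀ ζ, 1 < ‖ζ‖ → ψ (σ.φ ζ) = ζ :=
    ⟨_, (inv_diff (RM4_open 1) σ.φ_diff σ.φ_inj).continuousOn, σ.φ_inj.leftInvOn_invFunOn⟩
  have h1 : ContinuousAt (fun w => e (-σ.α) * ψ (σ.F w)) z := continuousAt_const.mul
    ((q1.continuousAt (σ.isOpen_Ω.mem_nhds h)).comp (σ.F_cont.continuousAt (σ.X1_nhds hz)))
  obtain ⟨ζ, h2, h3⟩ := h
  have h4 : e (-σ.α) * ψ (σ.F z) ∈ {ζ : ℂ | 1 < ‖ζ‖} := by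
    rw [← h3, q2 ζ h2]
    exact X1_rot h2 _
  have h5 := (σ.φ_diff.continuousOn.continuousAt ((RM4_open 1).mem_nhds h4)).comp
    (f := fun w => e (-σ.α) * ψ (σ.F w)) h1
  refine ⟨_, h4, tendsto_nhds_unique_of_frequently_eq h5 tendsto_id
    ((mem_closure_iff_frequently.1 hz).mono ?_)⟩
  rintro _ ⟨ξ, h6, rfl⟩
  rw [Function.comp, σ.conj ξ h6, q2 _ (X1_rot h6 _), ← mul_assoc, ← e_add]
  simp [e]

theorem mapsTo_Ω : MapsTo σ.F σ.Ω σ.Ω := by
  rintro _ ⟨ζ, h, rfl⟩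
  exact ⟨_, X1_rot h _, (σ.conj ζ h).symm⟩

theorem mapsTo_K : MapsTo σ.F σ.K σ.K := by
  exact σ.mapsTo_Ω.closure_of_continuousOn (σ.F_cont.mono fun _ h => σ.K_not_P h)

theorem mapsTo_B : MapsTo σ.F σ.B σ.B := by
  refine fun z hz => ⟨σ.mapsTo_K hz.1, fun ⟨ξ, h1, h2⟩ => hz.2 ?_⟩
  have h3 : 1 < ‖ξ‖ := one_lt_two.trans h1
  obtain ⟨ζ, h4, rfl⟩ := σ.X1_mem_Ω hz.1 ⟨ξ, h3, h2⟩
  rw [σ.conj ζ h4] at h2
  rw [σ.φ_inj h3 (X1_rot h4 _) h2, mem_ofPred_eq, Sg_norm] at h1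
  exact ⟨ζ, h1, rfl⟩

theorem injOn_Ω : InjOn σ.F σ.Ω := by
  rintro _ ⟨a, ha, rfl⟩ _ ⟨b, hb, rfl⟩ h
  rw [σ.conj a ha, σ.conj b hb] at h
  rw [mul_left_cancel₀ (Rot_e_ne _) (σ.φ_inj (X1_rot ha _) (X1_rot hb _) h)]

theorem mem_Ω_of (hz : z ∈ σ.K) (h : σ.F z ∈ σ.Ω) : z ∈ σ.Ω := by
  exact σ.X1_mem_Ω hz h

theorem D_sub (hρ : 1 < ρ) : σ.D ρ ⊆ σ.Ω := by
  exact image_mono fun _ h => hρ.trans_le h

theorem D_sub_K (hρ : 1 < ρ) : σ.D ρ ⊆ σ.K := (σ.D_sub hρ).trans subset_closure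

theorem D_anti {ρ' : ℝ} (h : ρ ≤ ρ') : σ.D ρ' ⊆ σ.D ρ := by
  exact image_mono fun _ h' => h.trans h'

theorem isClosed_D (hρ : 1 < ρ) : IsClosed (σ.D ρ) :=
  isClosed_ext σ.φ_diff σ.φ_inj σ.φ_top hρ

theorem isPreconnected_D (hρ : 1 < ρ) : IsPreconnected (σ.D ρ) := by
  exact (X1_pre (zero_le_one.trans hρ.le) (fun _ (h : ρ < _) => h.le) subset_rfl).image _
    (σ.φ_diff.continuousOn.mono fun _ h => hρ.trans_le h)

theorem exists_bound : ∃ R > 0, ∀ ρ ∈ Ioc (1 : ℝ) 2, (σ.D ρ)ᶜ ⊆ ball 0 R := by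
  obtain ⟨R, h0, h⟩ := (isBounded_compl_ext σ.φ_diff σ.φ_inj σ.φ_top one_lt_two).subset_ball_lt 0 0
  exact ⟨R, h0, fun ρ hρ => (compl_subset_compl.2 (σ.D_anti hρ.2)).trans h⟩

theorem mapsTo_D (hρ : 1 < ρ) : MapsTo σ.F (σ.D ρ) (σ.D ρ) := by
  rintro _ ⟨ζ, h, rfl⟩
  exact ⟨_, h.trans_eq (Sg_norm σ.α ζ).symm, (σ.conj ζ (hρ.trans_le h)).symm⟩

theorem mem_D_of (hρ : 1 < ρ) (hz : z ∈ σ.Ω) (h : σ.F z ∈ σ.D ρ) : z ∈ σ.D ρ := by
  obtain ⟨ζ, h1, rfl⟩ := hz
  obtain ⟨ξ, h2, h3⟩ := h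
  rw [σ.conj ζ h1] at h3
  rw [σ.φ_inj (hρ.trans_le h2) (X1_rot h1 _) h3, mem_ofPred_eq, Sg_norm] at h2
  exact ⟨ζ, h2, rfl⟩

theorem γ_mem (hρ : 0 ≤ ρ) (t : ℝ) : σ.γ ρ t ∈ σ.D ρ := by
  exact ⟨_, (Sg_norm' hρ t).ge, rfl⟩

theorem γ_B (hρ : ρ ∈ Ioc (1 : ℝ) 2) (t : ℝ) : σ.γ ρ t ∈ σ.B := by
  refine ⟨σ.D_sub_K hρ.1 (σ.γ_mem (zero_le_one.trans hρ.1.le) t), fun ⟨ζ, h1, h2⟩ => ?_⟩
  have h3 : 1 < ‖ζ‖ := one_lt_two.trans h1
  rw [σ.φ_inj h3 (X1_mem hρ.1 t) h2, mem_ofPred_eq, X1_norm hρ.1] at h1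
  exact h1.not_ge hρ.2

theorem continuous_γ (hρ : 1 < ρ) : Continuous (σ.γ ρ) := by
  exact σ.φ_diff.continuousOn.comp_continuous (continuous_const.mul continuous_e) (X1_mem hρ)

theorem F_γ (hρ : 1 < ρ) (t : ℝ) : σ.F (σ.γ ρ t) = σ.γ ρ (t + σ.α) := by
  rw [γ, γ, σ.conj _ (X1_mem hρ t), e_add, mul_comm, mul_assoc]

theorem iter_γ (hρ : 1 < ρ) (n : ℕ) (t : ℝ) : σ.F^[n] (σ.γ ρ t) = σ.γ ρ (t + n * σ.α) := by
  induction n with
  | zero => simp
  | succ n ih =>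
    rw [Function.iterate_succ_apply', ih, σ.F_γ hρ, Nat.cast_succ, add_mul, one_mul, add_assoc]

theorem γ_eq_iff (hρ : 1 < ρ) {s t : ℝ} : σ.γ ρ s = σ.γ ρ t ↔ ∃ m : ℤ, s - t = m := by
  rw [γ, γ, σ.φ_inj.eq_iff (X1_mem hρ s) (X1_mem hρ t),
    mul_right_inj' (Complex.ofReal_ne_zero.2 (one_pos.trans hρ).ne'), e_eq_iff]

theorem exists_γ (hρ : 1 < ρ) (hz : z ∈ σ.D ρ) (h : σ.D ρ ∉ 𝓝 z) : ∃ t, z = σ.γ ρ t := by
  obtain ⟨ζ, h1, rfl⟩ := hz
  obtain ⟨t, ht⟩ := exists_e ζ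
  rcases (show ρ ≤ ‖ζ‖ from h1).eq_or_lt with h2 | h2
  · exact ⟨t, congrArg σ.φ (h2 ▸ ht)⟩
  · exact (h (mem_of_superset ((RM4_isOpen σ.φ_diff σ.φ_inj hρ).mem_nhds ⟨ζ, h2, rfl⟩)
      (RM4_sub σ.φ ρ))).elim

theorem eventually_in (hz : z ∈ σ.Ω) :
    ∃ ρ₀ > 1, ∀ ρ ∈ Ioc 1 ρ₀, z ∈ σ.D ρ ∧ ∀ t, z ≠ σ.γ ρ t := by
  obtain ⟨ζ, h, rfl⟩ := hz
  have h1 : 1 < ‖ζ‖ := h
  refine ⟨(1 + ‖ζ‖) / 2, by linarith, fun r hr => ?_⟩
  have h2 : r < ‖ζ‖ := by linarith [hr.2]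
  refine ⟨⟨ζ, h2.le, rfl⟩, fun t ht => h2.ne' ?_⟩
  rw [σ.φ_inj h (X1_mem hr.1 t) ht, X1_norm hr.1]

/-- all but finitely many curves miss a given finite set -/
theorem exists_avoid {T : Set ℂ} (hT : T.Finite) {ρ₀ : ℝ} (h : 1 < ρ₀) :
    ∃ ρ ∈ Ioo 1 ρ₀, ∀ t, σ.γ ρ t ∉ T := by
  obtain ⟨ρ, h1, h2⟩ := (Ioo_infinite h).exists_notMem_finite
    (hT.image fun z => ‖Function.invFunOn σ.φ {ζ | 1 < ‖ζ‖} z‖)
  refine ⟨ρ, h1, fun t ht => h2 ⟨_, ht, ?_⟩⟩
  exact (congrArg norm (σ.φ_inj.leftInvOn_invFunOn (X1_mem h1.1 t))).trans (X1_norm h1.1 t)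

theorem out_D (hρ : 1 < ρ) {X : Set ℂ} (hX : ∀ x ∈ X, x ∈ σ.D ρ → ∃ t, x = σ.γ ρ t)
    (hz : z ∈ σ.D ρ) (hz' : z ∉ X) : Out X z := by
  obtain ⟨ζ, h1, rfl⟩ := hz
  have h2 : insert ζ {ξ : ℂ | ρ < ‖ξ‖} ⊆ {ξ : ℂ | ρ ≤ ‖ξ‖} :=
    insert_subset h1 fun _ (h : ρ < _) => h.le
  refine ⟨σ.φ '' insert ζ {ξ : ℂ | ρ < ‖ξ‖}, (X1_pre (zero_le_one.trans hρ.le) (subset_insert _ _)
    h2).image _ (σ.φ_diff.continuousOn.mono fun _ h => hρ.trans_le (h2 h)), fun hb => ?_,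
    ⟨ζ, mem_insert _ _, rfl⟩, disjoint_left.2 ?_⟩
  · have h3 := (hb.subset (image_mono (subset_insert _ _))).union
      (RM4_bdd σ.φ_diff σ.φ_inj σ.φ_top hρ)
    rw [union_compl_self] at h3
    exact NormedSpace.unbounded_univ ℝ ℂ h3
  · rintro _ ⟨ξ, rfl | h3, rfl⟩ h4
    · exact hz' h4
    · obtain ⟨t, ht⟩ := hX _ h4 ⟨ξ, h2 (mem_insert_of_mem _ h3), rfl⟩
      rw [σ.φ_inj (hρ.trans h3) (X1_mem hρ t) ht, mem_ofPred_eq, X1_norm hρ] at h3
      exact lt_irrefl _ h3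

theorem unif {δ : ℝ} (hδ : 0 < δ) : ∃ η > 0, ∀ z ∈ σ.B, ∀ u ∈ ball z η, u ∉ σ.P ∧
    ∀ w ∈ ball z η, dist (σ.F u) (σ.F w) < δ := by
  obtain ⟨η, h0, h⟩ := Sg_leb σ.isCompact_B
    (p := fun N => ∀ u ∈ N, u ∉ σ.P ∧ ∀ w ∈ N, dist (σ.F u) (σ.F w) < δ) fun z hz =>
      ⟨_, inter_mem (σ.X1_nhds hz.1) (σ.F_cont.continuousAt (σ.X1_nhds hz.1)
        (ball_mem_nhds _ (half_pos hδ))), fun u hu => ⟨hu.1, fun w hw =>
          (dist_triangle_right _ _ _).trans_lt ((add_lt_add hu.2 hw.2).trans_eq (add_halves δ))⟩⟩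
  refine ⟨η, h0, fun z hz u hu => ?_⟩
  obtain ⟨N, h1, h2⟩ := h z hz
  exact ⟨(h1 u (h2 hu)).1, fun w hw => (h1 u (h2 hu)).2 w (h2 hw)⟩

theorem unif_inj : ∃ r > 0, ∀ z ∈ σ.B, InjOn σ.F (ball z r) ∧ Disjoint (ball z r) σ.P := by
  obtain ⟨η, h0, h⟩ := Sg_leb σ.isCompact_B (p := fun N => InjOn σ.F N ∧ N ⊆ σ.Pᶜ) fun z hz =>
    (σ.li z hz.1).elim fun N hN => ⟨_, inter_mem hN.1 (σ.X1_nhds hz.1),
      hN.2.mono inter_subset_left, inter_subset_right⟩
  refine ⟨η, h0, fun z hz => ?_⟩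
  obtain ⟨N, h1, h2⟩ := h z hz
  exact ⟨h1.1.mono h2, subset_compl_iff_disjoint_right.1 (h2.trans h1.2)⟩

theorem unif_surj {r : ℝ} (hr : 0 < r) : ∃ η > 0, ∀ z ∈ σ.B, ∀ u ∈ ball z η,
    ∀ y ∈ ball (σ.F u) η, ∃ w ∈ ball u r, σ.F w = y := by
  have h := σ.isCompact_B.eventually_forall_of_forall_eventually (x₀ := (0 : ℝ))
    (P := fun η z => ∀ u ∈ ball z η, ∀ y ∈ ball (σ.F u) η, ∃ w ∈ ball u r, σ.F w = y) ?_
  · obtain ⟨η, h1, h2⟩ := ((h.filter_mono (nhdsWithin_le_nhds (s := Ioi 0))).and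
      self_mem_nhdsWithin).exists
    exact ⟨η, h2, h1⟩
  intro z hz
  obtain ⟨ε, h1, h2⟩ := Metric.mem_nhds_iff.1
    (σ.F_open z (σ.K_not_P hz.1) _ (ball_mem_nhds z (half_pos hr)))
  obtain ⟨s, h3, h4⟩ := Metric.mem_nhds_iff.1
    (σ.F_cont.continuousAt (σ.X1_nhds hz.1) (ball_mem_nhds _ (half_pos h1)))
  filter_upwards [ball_mem_nhds _ (by positivity : 0 < min (s / 2) (min (r / 4) (ε / 2)))]
    with p hp u hu y hy
  simp only [mem_ball, Prod.dist_eq, max_lt_iff, lt_min_iff, Real.dist_eq, sub_zero, abs_lt]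
    at hp hu hy
  have h5 := dist_triangle u p.2 z
  have h6 : dist (σ.F u) (σ.F z) < ε / 2 := h4 (mem_ball.2 (by linarith [hp.1.1.2, hp.1.2]))
  obtain ⟨w, h7, rfl⟩ := h2 (mem_ball.2 ((dist_triangle y (σ.F u) _).trans_lt
    (by linarith [hp.2.2.1.2])))
  exact ⟨w, mem_ball.2 ((dist_triangle_right w u z).trans_lt
    (by linarith [mem_ball.1 h7, hp.2.1.1.2, hp.2.1.2])), rfl⟩

theorem cont_of_lift {r : ℝ} (hi : InjOn σ.F (ball z r)) (hP : Disjoint (ball z r) σ.P)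
    {A : Set ℝ} {t : ℝ} {Γ : ℝ → ℂ} {r' : ℝ} (hr : r' < r)
    (hΓ : ∀ᶠ u in 𝓝[A] t, Γ u ∈ ball z r') (ht : Γ t ∈ ball z r')
    (hc : ContinuousWithinAt (σ.F ∘ Γ) A t) : ContinuousWithinAt Γ A t := by
  intro N hN
  have h1 := ball_subset_ball hr.le ht
  rw [Filter.mem_map]
  filter_upwards [hΓ, Filter.mem_map.1 (hc (σ.F_open _ (disjoint_left.1 hP h1) _
    (inter_mem hN (isOpen_ball.mem_nhds h1))))] with u hu ⟨w, h2, h3⟩
  exact mem_preimage.2 (hi h2.2 (ball_subset_ball hr.le hu) h3 ▸ h2.1)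

theorem exists_far {T : Set ℂ} (hT : T.Finite) (hK : ∀ x ∈ T, x ∉ σ.K) :
    ∃ δ > 0, ∀ x ∈ T, ∀ z ∈ σ.K, δ ≤ dist x z := by
  obtain ⟨η, h0, h⟩ := Sg_leb hT.isCompact (p := fun N => N ⊆ σ.Kᶜ) fun x hx =>
    ⟨_, σ.isClosed_K.isOpen_compl.mem_nhds (hK x hx), subset_rfl⟩
  refine ⟨η, h0, fun x hx z hz => not_lt.1 fun h1 => ?_⟩
  obtain ⟨N, h2, h3⟩ := h x hx
  exact h2 (h3 (mem_ball'.2 h1)) hz

theorem exists_wind (hρ : 1 < ρ) {x : ℂ} (hx : x ∉ σ.D ρ) : ∃ l : ℝ → ℂ, Continuous l ∧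
    (∀ t, Complex.exp (l t) = σ.γ ρ t - x) ∧ ∀ t, l (t + 1) ≠ l t := by
  classical
  have h0 : 0 < ρ := one_pos.trans hρ
  have h1 : ∀ u ∈ closedBall (0 : ℂ) 1, u ≠ 0 → ρ ≤ ‖(ρ : ℂ) * u⁻¹‖ := fun u hu h => by
    rw [norm_mul, Complex.norm_of_nonneg h0.le, norm_inv]
    exact le_mul_of_one_le_right h0.le
      ((one_le_inv₀ (norm_pos_iff.2 h)).2 (mem_closedBall_zero_iff.1 hu))
  have h2 : ∀ u ∈ closedBall (0 : ℂ) 1, u ≠ 0 → σ.φ ((ρ : ℂ) * u⁻¹) - x ≠ 0 := fun u hu h e1 =>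
    hx ⟨_, h1 u hu h, sub_eq_zero.1 e1⟩
  obtain ⟨l, l1, l2, l3⟩ := X1_wind
    (g := Function.update (fun u => (σ.φ ((ρ : ℂ) * u⁻¹) - x)⁻¹) 0 0)
    (continuousOn_update_iff.2 ⟨((σ.φ_diff.continuousOn.comp (continuousOn_const.mul
      (continuousOn_inv₀.mono fun u hu => hu.2)) fun u hu => hρ.trans_le (h1 u hu.1 hu.2)).sub
      continuousOn_const).inv₀ fun u hu => h2 u hu.1 hu.2, fun _ =>
      (tendsto_inv₀_cobounded.comp ((tendsto_sub_const_cobounded x).comp (σ.φ_top.comp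
        ((tendsto_mul_left_cobounded (Complex.ofReal_ne_zero.2 h0.ne')).comp
          tendsto_inv₀_nhdsNE_zero)))).mono_left (nhdsWithin_mono _ fun u hu => hu.2)⟩)
    fun u hu w hw h => by
      rcases eq_or_ne u 0 with rfl | a <;> rcases eq_or_ne w 0 with rfl | b
      · rfl
      · rw [Function.update_self, Function.update_of_ne b] at h
        exact absurd h.symm (inv_ne_zero (h2 w hw b))
      · rw [Function.update_self, Function.update_of_ne a] at h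
        exact absurd h (inv_ne_zero (h2 u hu a))
      · rw [Function.update_of_ne a, Function.update_of_ne b] at h
        exact inv_injective (mul_left_cancel₀ (Complex.ofReal_ne_zero.2 h0.ne')
          (σ.φ_inj (hρ.trans_le (h1 u hu a)) (hρ.trans_le (h1 w hw b))
            (sub_left_injective (inv_injective h))))
  refine ⟨fun t => -l (-t), by fun_prop, fun t => ?_, fun t h => l3 (-(t + 1)) ?_⟩
  · have h3 : (e (-t))⁻¹ = e t := by
      rw [inv_eq_iff_eq_inv, eq_comm, inv_eq_iff_eq_inv, eq_comm]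
      exact inv_eq_of_mul_eq_one_right (by rw [← e_add]; simp [e])
    rw [Complex.exp_neg, l2, Function.update_self, Function.update_of_ne (Rot_e_ne _), sub_zero,
      inv_inv, h3, γ]
  · rw [neg_add, neg_add_cancel_right, ← neg_add]
    exact (neg_injective h).symm

end Sx

end Pool.Agent.Work.MP_042f46_an
end

-- merged part: Pool.Agent.Work.MP_042f46_an.Lin
section
/-!
# From a linearising coordinate to a parametrisation by the unit disc

Plans.  `h` is open on `S` (`AnalyticOnNhd.is_constant_or_isOpen`, or `AnalyticAt.eventually_constant_or_nhds_le_map_nhds`; it is injective), so `U = h '' S` is open, preconnected, contains `0` and is mapped into itself by `e α * ·`.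
`radial`: if `ball u ε ⊆ U` then `ball (e (n α) * u) ε ⊆ U`, and these points are dense in the circle (`rot_cover`); the set of norms is an interval containing `0`; so `U` is a ball around `0` (radius the supremum of the norms) or the plane.
`exists_τ`: `ζ ↦ R * ζ`, or `ζ ↦ (1 - ‖ζ‖)⁻¹ • ζ` with inverse `w ↦ (1 + ‖w‖)⁻¹ • w`.  `exists_φ`: `φ = Function.invFunOn h S ∘ τ`; the inverse of `h` is continuous on `U` because `h` is open, and it is open because `h` is continuous.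
-/

open Set Metric Topology Filter

namespace Pool.Agent.Work.MP_042f46_an

theorem radial {α : ℝ} (hα : Irrational α) {U : Set ℂ} (hU : IsOpen U) (hc : IsPreconnected U)
    (h0 : (0 : ℂ) ∈ U) (hm : MapsTo (fun w => e α * w) U U) :
    U = univ ∨ ∃ R > 0, U = ball 0 R := by
  have h1 : ∀ u ∈ U, ∀ k : ℕ, e (k * α) * u ∈ U := fun u hu k => by
    induction k with
    | zero => simpa [e] using hu
    | succ k ih =>
      rw [Nat.cast_succ, add_one_mul, add_comm, e_add, mul_assoc]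
      exact hm ih
  have h2 : ∀ u ∈ U, ∀ t, e t * u ∈ U := fun u hu t => by
    obtain ⟨ε, hε, k1⟩ := Metric.isOpen_iff.1 (hU.preimage (continuous_e.mul_const u)) 0
      (by simpa [e] using hu)
    obtain ⟨N, hN⟩ := rot_cover hα hε
    obtain ⟨k, -, m, k2⟩ := hN t
    rw [(e_eq_iff (t := k * α + (t - k * α - m))).2 ⟨m, by ring⟩, e_add, mul_assoc]
    exact h1 _ (k1 (mem_ball_zero_iff.2 ((abs_of_pos k2.1).trans_lt k2.2))) k
  have h3 : ∀ u ∈ U, ∀ w : ℂ, ‖w‖ ≤ ‖u‖ → w ∈ U := fun u hu w hw => by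
    obtain ⟨v, hv, k⟩ := (hc.image _ continuous_norm.continuousOn).Icc_subset ⟨0, h0, norm_zero⟩
      ⟨u, hu, rfl⟩ ⟨norm_nonneg w, hw⟩
    obtain ⟨s, hs⟩ := exists_e w
    obtain ⟨t, ht⟩ := exists_e v
    have := h2 v hv (s - t)
    rwa [ht, mul_left_comm, ← e_add, sub_add_cancel, show ‖v‖ = ‖w‖ from k, ← hs] at this
  refine or_iff_not_imp_left.2 fun k => ?_
  obtain ⟨w, hw, k1⟩ := hU.isClosed_compl.exists_infDist_eq_dist (nonempty_compl.2 k) 0
  have k2 : U = ball 0 (infDist 0 Uᶜ) := by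
    refine Subset.antisymm (fun u hu => ?_) ball_infDist_compl_subset
    rw [k1, mem_ball_zero_iff, dist_zero_left]
    exact not_le.1 fun k3 => hw (h3 u hu w k3)
  exact ⟨_, pos_of_mem_ball (k2 ▸ h0), k2⟩

theorem exists_τ {U : Set ℂ} (hU : U = univ ∨ ∃ R > 0, U = ball 0 R) :
    ∃ τ τ' : ℂ → ℂ, ContinuousOn τ (ball 0 1) ∧ ContinuousOn τ' U ∧ MapsTo τ (ball 0 1) U ∧
      MapsTo τ' U (ball 0 1) ∧ (∀ ζ ∈ ball (0 : ℂ) 1, τ' (τ ζ) = ζ) ∧ (∀ w ∈ U, τ (τ' w) = w) ∧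
      τ 0 = 0 ∧ ∀ c ζ : ℂ, ‖c‖ = 1 → τ (c * ζ) = c * τ ζ := by
  rcases hU with rfl | ⟨R, hR, rfl⟩
  · have h1 : ∀ w : ℂ, 0 < 1 + ‖w‖ := fun w => by positivity
    have h2 : ∀ w ∈ ball (0 : ℂ) 1, 0 < 1 - ‖w‖ := fun w hw => sub_pos.2 (mem_ball_zero_iff.1 hw)
    refine ⟨fun ζ => (1 - ‖ζ‖)⁻¹ • ζ, fun w => (1 + ‖w‖)⁻¹ • w,
      (ContinuousOn.inv₀ (by fun_prop) fun w hw => (h2 w hw).ne').smul continuousOn_id,
      (ContinuousOn.inv₀ (by fun_prop) fun w _ => (h1 w).ne').smul continuousOn_id,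
      mapsTo_univ _ _, fun w _ => ?_, fun w hw => ?_, fun w _ => ?_, smul_zero _, fun c ζ hc => ?_⟩
    · rw [mem_ball_zero_iff, norm_smul, Real.norm_of_nonneg (inv_pos.2 (h1 w)).le,
        inv_mul_lt_one₀ (h1 w)]
      exact lt_one_add _
    · have := (h2 w hw).ne'
      beta_reduce
      rw [norm_smul, Real.norm_of_nonneg (inv_pos.2 (h2 w hw)).le, smul_smul,
        show 1 + (1 - ‖w‖)⁻¹ * ‖w‖ = (1 - ‖w‖)⁻¹ by field_simp; ring,
        inv_mul_cancel₀ (inv_ne_zero this), one_smul]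
    · have := (h1 w).ne'
      beta_reduce
      rw [norm_smul, Real.norm_of_nonneg (inv_pos.2 (h1 w)).le, smul_smul,
        show 1 - (1 + ‖w‖)⁻¹ * ‖w‖ = (1 + ‖w‖)⁻¹ by field_simp; ring,
        inv_mul_cancel₀ (inv_ne_zero this), one_smul]
    · beta_reduce
      rw [norm_mul, hc, one_mul, mul_smul_comm]
  · refine ⟨fun ζ => R • ζ, fun w => R⁻¹ • w, by fun_prop, by fun_prop, fun w hw => ?_,
      fun w hw => ?_, fun w _ => inv_smul_smul₀ hR.ne' w, fun w _ => smul_inv_smul₀ hR.ne' w,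
      smul_zero _, fun c ζ _ => (mul_smul_comm _ _ _).symm⟩
    · rw [mem_ball_zero_iff, norm_smul, Real.norm_of_nonneg hR.le]
      exact mul_lt_of_lt_one_right hR (mem_ball_zero_iff.1 hw)
    · rw [mem_ball_zero_iff, norm_smul, Real.norm_of_nonneg (inv_pos.2 hR).le, inv_mul_lt_one₀ hR]
      exact mem_ball_zero_iff.1 hw

theorem exists_φ {α : ℝ} (hα : Irrational α) {S : Set ℂ} (hS : IsOpen S) (hc : IsPreconnected S)
    (h0 : (0 : ℂ) ∈ S) {f h : ℂ → ℂ} (hm : MapsTo f S S) (hh : DifferentiableOn ℂ h S)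
    (hi : InjOn h S) (hz : h 0 = 0) (hf : ∀ z ∈ S, h (f z) = e α * h z) :
    ∃ φ : ℂ → ℂ, ContinuousOn φ (ball 0 1) ∧ InjOn φ (ball 0 1) ∧
      (∀ ζ ∈ ball (0 : ℂ) 1, ∀ N ∈ 𝓝 ζ, φ '' N ∈ 𝓝 (φ ζ)) ∧
      (∀ ζ ∈ ball (0 : ℂ) 1, f (φ ζ) = φ (e α * ζ)) ∧ φ '' ball 0 1 = S ∧ φ 0 = 0 := by
  have h1 : ∀ s ⊆ S, IsOpen s → IsOpen (h '' s) := by
    refine ((hh.analyticOnNhd hS).is_constant_or_isOpen hc).resolve_left fun ⟨w, hw⟩ => ?_
    obtain ⟨a, ha, b, hb, hab⟩ := (infinite_of_mem_nhds _ (hS.mem_nhds h0)).nontrivial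
    exact hab (hi ha hb ((hw a ha).trans (hw b hb).symm))
  obtain ⟨τ, τ', c1, c2, m1, m2, l1, l2, t0, tr⟩ := exists_τ (radial hα (h1 S Subset.rfl hS)
    (hc.image h hh.continuousOn) ⟨0, h0, hz⟩ (by
      rintro _ ⟨z, k, rfl⟩; exact ⟨f z, hm k, hf z k⟩))
  set g := Function.invFunOn h S
  have g1 : ∀ z ∈ S, g (h z) = z := hi.leftInvOn_invFunOn
  have g2 : ∀ w ∈ h '' S, g w ∈ S ∧ h (g w) = w := by
    rintro _ ⟨z, k, rfl⟩
    rw [g1 z k]
    exact ⟨k, rfl⟩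
  have g3 : ContinuousOn g (h '' S) := by
    rintro _ ⟨z, k, rfl⟩
    refine ContinuousAt.continuousWithinAt fun N hN => ?_
    rw [g1 z k] at hN
    obtain ⟨t, k1, k2, k3⟩ := _root_.mem_nhds_iff.1 hN
    refine mem_map.2 (mem_of_superset
      ((h1 _ inter_subset_left (hS.inter k2)).mem_nhds ⟨z, ⟨k, k3⟩, rfl⟩) ?_)
    rintro _ ⟨y, hy, rfl⟩
    rw [mem_preimage, g1 y hy.1]
    exact k1 hy.2
  have g4 : ∀ ζ ∈ ball (0 : ℂ) 1, τ' (h (g (τ ζ))) = ζ := fun ζ k => by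
    rw [(g2 _ (m1 k)).2, l1 ζ k]
  have g5 : ∀ z ∈ S, g (τ (τ' (h z))) = z := fun z k => by rw [l2 _ ⟨z, k, rfl⟩, g1 z k]
  refine ⟨fun ζ => g (τ ζ), g3.comp c1 m1, LeftInvOn.injOn (f₁' := fun z => τ' (h z)) g4,
    fun ζ k N hN => ?_, fun ζ k => ?_, Subset.antisymm ?_ fun z k => ⟨_, m2 ⟨z, k, rfl⟩, g5 z k⟩,
    ?_⟩
  · have k1 := hS.mem_nhds (g2 _ (m1 k)).1
    have k2 := (c2.comp hh.continuousOn (mapsTo_image h S)).continuousAt k1
    filter_upwards [k1, k2.preimage_mem_nhds ((g4 ζ k).symm ▸ hN :)] with z k3 k4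
    exact ⟨_, k4, g5 z k3⟩
  · obtain ⟨k1, k2⟩ := g2 _ (m1 k)
    beta_reduce
    rw [tr _ _ (norm_e α), ← g1 _ (hm k1), hf _ k1, k2]
  · rintro _ ⟨ζ, k, rfl⟩
    exact (g2 _ (m1 k)).1
  · beta_reduce
    rw [t0, ← hz, g1 0 h0, hz]

end Pool.Agent.Work.MP_042f46_an
end
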