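import Pool.Agent.Work.MP_042f46_an.Main

open Pool.Agent.Work.MP_042f46_an

namespace Pool.Agent.Results.MP_042f46_an.NoCrit

theorem result :
    ∀ (p q : Polynomial ℂ) (α : ℝ) (S : Set ℂ),
      IsCoprime p q → 2 ≤ max p.natDegree q.natDegree → Irrational α →
      IsOpen S → IsConnected S → (0 : ℂ) ∈ S → Bornology.IsBounded (closure S) →
      Set.MapsTo (fun z : ℂ => p.eval z / q.eval z) S S →
      (∃ h : ℂ → ℂ, DifferentiableOn ℂ h S ∧ Set.InjOn h S ∧ h 0 = 0 ∧
        ∀ z ∈ S, h (p.eval z / q.eval z)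
          = Complex.exp (2 * (Real.pi : ℂ) * Complex.I * (α : ℂ)) * h z) →
      (∀ z : ℂ, q.eval z = 0 → ¬ Bornology.IsBounded (connectedComponentIn (closure S)ᶜ z)) →
      (∀ z ∈ frontier S, (Polynomial.derivative p * q - p * Polynomial.derivative q).eval z ≠ 0) →
      Set.InjOn (fun z : ℂ => p.eval z / q.eval z) (closure S) := by
  rintro p q α S hc hd hα hS hSc h0 hb hm ⟨h, hh, hi, hz, hf⟩ hP hn
  have hP' : ∀ z, q.eval z = 0 → Out (closure S) z := fun z hz => by
    have h1 : z ∈ (closure S)ᶜ := by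
      by_contra h2
      exact hP z hz (by rw [connectedComponentIn_eq_empty h2]; exact Bornology.isBounded_empty)
    exact ⟨_, isPreconnected_connectedComponentIn, hP z hz, mem_connectedComponentIn h1,
      Set.disjoint_left.2 fun w hw => connectedComponentIn_subset _ _ hw⟩
  refine main p q α S hc (by omega) hα hS hSc.isPreconnected h0 (hb.subset subset_closure) hm hh hi
    hz hf hP' fun z hz => ?_
  have hq : q.eval z ≠ 0 := fun h => (hP' z h).notMem (frontier_subset_closure hz)
  rw [rf_deriv hq]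
  exact div_ne_zero (hn z hz) (pow_ne_zero 2 hq)

end Pool.Agent.Results.MP_042f46_an.NoCrit
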